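import Pool.Agent.Lib.KF.SpecF

/-!
MP_00e23e_nt, directory Lib/KF, module Rse: integer residues and the largest error term.
-/

namespace Pool.Agent.Lib.KF

open Finset Pool.Agent.Lib.EH3 Pool.Agent.Results.MP_00e23e_nt

private lemma Rse_rep (d : ℕ) (a : ℤ) (hd : 1 ≤ d) :
    ∃ l : ℕ, 1 ≤ l ∧ l ≤ d ∧ (d : ℤ) ∣ (l : ℤ) - a := by
  have hd0 : (0 : ℤ) < d := by exact_mod_cast hd
  have h1 := Int.emod_nonneg a hd0.ne'
  have h2 := Int.emod_lt_of_pos a hd0
  have h3 : (d : ℤ) ∣ a % d - a := by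
    rw [Int.emod_def]
    exact ⟨-(a / d), by ring⟩
  by_cases h : a % d = 0
  · refine ⟨d, hd, le_rfl, ?_⟩
    rw [h] at h3
    have h4 : (d : ℤ) ∣ (d : ℤ) + (0 - a) := dvd_add (dvd_refl _) h3
    rwa [← add_sub_assoc, add_zero] at h4
  · obtain ⟨l, hl⟩ := Int.eq_ofNat_of_zero_le h1
    refine ⟨l, by omega, by omega, ?_⟩
    rwa [← hl]

/-- **Module Rse.** -/
theorem tRse : RseStmt := by
  intro x d a hd hg
  obtain ⟨l, hl1, hl2, hl3⟩ := Rse_rep d a hd
  have hmod : ∀ p : ℕ, (d : ℤ) ∣ (p : ℤ) - a ↔ p ≡ l [MOD d] := by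
    intro p
    rw [Nat.modEq_iff_dvd]
    constructor
    · intro h
      have h1 := dvd_sub hl3 h
      rwa [show (l : ℤ) - a - (p - a) = l - p by ring] at h1
    · intro h
      have h1 := dvd_sub hl3 h
      rwa [show (l : ℤ) - a - (l - p) = p - a by ring] at h1
  have hcount : resCount x d a = primeCount x d l := by
    unfold resCount primeCount
    congr 1
    refine Finset.filter_congr fun p _ => ?_
    rw [hmod p]
  have hcop : l.Coprime d := by
    rw [Nat.coprime_iff_gcd_eq_one, ← Int.gcd_natCast_natCast, ← hg]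
    obtain ⟨c, hc⟩ := hl3
    have h1 : (l : ℤ) = a + d * c := by linarith
    rw [h1, Int.gcd_add_mul_left_left]
  have herr : resErr x d a = err x d l := by
    unfold resErr err
    rw [hcount]
  rw [herr]
  exact Pool.Agent.Lib.EH.le_maxErr x d l hl1 hl2 hcop

end Pool.Agent.Lib.KF
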