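import Pool.Agent.Lib.KF.SpecD
import Pool.Agent.Lib.KF.Rse

/-!
MP_00e23e_nt, directory Lib/KF, module Fdd: the final theorem of part D.
-/

namespace Pool.Agent.Lib.KF

open Finset Pool.Agent.Lib.EH3 Pool.Agent.Results.MP_00e23e_nt

/-- powers of the logarithm are small against powers of x -/
private lemma Fdd_log (F δ C : ℝ) (hδ : 0 < δ) :
    ∃ x0 : ℝ, 3 ≤ x0 ∧ ∀ x : ℝ, x0 ≤ x → C * (Real.log x) ^ F ≤ x ^ δ := by
  have h := (isLittleO_log_rpow_rpow_atTop F hδ).def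
    (show (0 : ℝ) < 1 / (|C| + 1) by positivity)
  obtain ⟨x2, hx2⟩ := Filter.eventually_atTop.1 h
  refine ⟨max x2 3, le_max_right _ _, fun x hx => ?_⟩
  have hx3 : 3 ≤ x := (le_max_right _ _).trans hx
  have h1 := hx2 x ((le_max_left _ _).trans hx)
  have hl : 0 ≤ Real.log x := Real.log_nonneg (by linarith)
  have hlF : 0 ≤ (Real.log x) ^ F := Real.rpow_nonneg hl _
  rw [Real.norm_eq_abs, Real.norm_eq_abs, abs_of_nonneg hlF,
    abs_of_nonneg (Real.rpow_nonneg (show (0 : ℝ) ≤ x by linarith) _), one_div_mul_eq_div,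
    le_div_iff₀ (by positivity)] at h1
  calc C * (Real.log x) ^ F ≤ (|C| + 1) * (Real.log x) ^ F :=
        mul_le_mul_of_nonneg_right (by have := le_abs_self C; linarith) hlF
    _ = (Real.log x) ^ F * (|C| + 1) := mul_comm _ _
    _ ≤ x ^ δ := h1

private lemma Fdd_mem {A A' : Finset ℤ} {h : ℤ} (hh : h ∈ Dif A A') :
    ∃ b ∈ A, ∃ b' ∈ A', b' - b = h := by
  unfold Dif at hh
  obtain ⟨p, hp, hph⟩ := Finset.mem_image.1 hh
  obtain ⟨h1, h2⟩ := Finset.mem_product.1 hp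
  exact ⟨p.1, h1, p.2, h2, hph⟩

/-- elements of the difference set -/
private lemma Fdd_bd {A A' : Finset ℤ} {x B : ℝ} (hdis : Disjoint A A')
    (hA : ∀ b ∈ A, |(b : ℝ)| ≤ x ^ B) (hA' : ∀ b ∈ A', |(b : ℝ)| ≤ x ^ B) {h : ℤ}
    (hh : h ∈ Dif A A') : h ≠ 0 ∧ ((h.natAbs : ℕ) : ℝ) ≤ 2 * x ^ B := by
  obtain ⟨b, hb, b', hb', rfl⟩ := Fdd_mem hh
  constructor
  · intro h0
    have : b' = b := by linarith
    rw [this] at hb'
    exact Finset.disjoint_left.1 hdis hb hb'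
  · rw [Nat.cast_natAbs]
    push_cast
    have h1 := hA b hb
    have h2 := hA' b' hb'
    calc |(b' : ℝ) - b| ≤ |(b' : ℝ)| + |(b : ℝ)| := abs_sub _ _
      _ ≤ 2 * x ^ B := by linarith

/-- the case of intervals -/
private lemma Fdd_int (h2 : ShvStmt) {ε U B : ℝ} (hε : 0 < ε) (hB : 0 < B) (hU : 0 < U) (K : ℕ)
    (hK : 4 * (B + 1) / ε ≤ K) (E : ℝ) (hE : E = 6 * U + 26 + 2 ^ (K + 1)) {x m : ℝ} (hx : 3 ≤ x)
    (hm : x ^ ε ≤ m) (hL1 : 1 ≤ Real.log x)
    (hL : 2 ^ (K + 3) * 2 ^ (2 ^ (K + 1)) ≤ Real.log x) (hLE : (Real.log x) ^ E ≤ x ^ (ε / 2))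
    (h4 : 2 ≤ x ^ (ε / 4)) {A A' : Finset ℤ} (hdis : Disjoint A A')
    (hA : ∀ b ∈ A, |(b : ℝ)| ≤ x ^ B) (hA' : ∀ b ∈ A', |(b : ℝ)| ≤ x ^ B)
    (hw : ∀ b ∈ A, ∀ b' ∈ A, |(b' : ℝ) - b| ≤ m / (Real.log x) ^ E)
    (hw' : ∀ b ∈ A', ∀ b' ∈ A', |(b' : ℝ) - b| ≤ m / (Real.log x) ^ E) (hεh : ε ≤ 1 / 2) :
    ∑ h ∈ Dif A A', tau h.natAbs ≤ m / (Real.log x) ^ (6 * U + 25) := by
  have hx0 : 0 < x := by linarith
  have hL0 : 0 < Real.log x := by linarith
  have hm0 : 0 < m := lt_of_lt_of_le (Real.rpow_pos_of_pos hx0 _) hm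
  have hLE0 : 0 < (Real.log x) ^ E := Real.rpow_pos_of_pos hL0 _
  have hLU0 : 0 < (Real.log x) ^ (6 * U + 25) := Real.rpow_pos_of_pos hL0 _
  rcases Finset.eq_empty_or_nonempty (Dif A A') with he | hne
  · rw [he, Finset.sum_empty]
    positivity
  obtain ⟨w, hwdef⟩ : ∃ w, w = m / (Real.log x) ^ E := ⟨_, rfl⟩
  have hw2 : x ^ (ε / 2) ≤ w := by
    rw [hwdef, le_div_iff₀ hLE0]
    calc x ^ (ε / 2) * (Real.log x) ^ E ≤ x ^ (ε / 2) * x ^ (ε / 2) :=
          mul_le_mul_of_nonneg_left hLE (Real.rpow_nonneg hx0.le _)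
      _ = x ^ ε := by rw [← Real.rpow_add hx0]; congr 1; ring
      _ ≤ m := hm
  have hx1 : 1 ≤ x ^ (ε / 2) := Real.one_le_rpow (by linarith) (by linarith)
  have hw1 : 1 ≤ w := hx1.trans hw2
  obtain ⟨M, hM⟩ : ∃ M : ℕ, M = ⌈2 * w⌉₊ := ⟨_, rfl⟩
  have hM1 : 2 * w ≤ M := by
    rw [hM]
    exact Nat.le_ceil _
  have hM2 : (M : ℝ) ≤ 4 * w := by
    have := Nat.ceil_lt_add_one (show 0 ≤ 2 * w by linarith)
    rw [← hM] at this
    linarith
  obtain ⟨z, hz⟩ : ∃ z : ℕ, z = ⌊x ^ (ε / 2)⌋₊ := ⟨_, rfl⟩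
  have hz1 : 1 ≤ z := by
    rw [hz, Nat.one_le_floor_iff]
    exact hx1
  have hzle : (z : ℝ) ≤ x ^ (ε / 2) := by
    rw [hz]
    exact Nat.floor_le (by linarith)
  have hzM : z ≤ M := by
    have : (z : ℝ) ≤ M := by linarith
    exact_mod_cast this
  have hz4 : x ^ (ε / 4) ≤ z := by
    have h5 := Nat.lt_floor_add_one (x ^ (ε / 2))
    rw [← hz] at h5
    have h6 : x ^ (ε / 2) = x ^ (ε / 4) * x ^ (ε / 4) := by
      rw [← Real.rpow_add hx0]
      congr 1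
      ring
    nlinarith
  have hzK : 2 * x ^ B ≤ (z : ℝ) ^ K := by
    have h5 : x ^ (B + 1) ≤ (x ^ (ε / 4)) ^ K := by
      rw [← Real.rpow_natCast, ← Real.rpow_mul hx0.le]
      apply Real.rpow_le_rpow_of_exponent_le (by linarith)
      rw [div_le_iff₀ hε] at hK
      linarith
    have h6 : (x ^ (ε / 4)) ^ K ≤ (z : ℝ) ^ K :=
      pow_le_pow_left₀ (by linarith) hz4 K
    have h7 : 2 * x ^ B ≤ x ^ (B + 1) := by
      rw [Real.rpow_add hx0, Real.rpow_one, mul_comm]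
      exact mul_le_mul_of_nonneg_left (by linarith) (Real.rpow_nonneg hx0.le _)
    linarith
  -- the interval
  have hmin := Finset.min'_mem (Dif A A') hne
  have hS : ∀ h ∈ Dif A A', h ≠ 0 ∧ (Dif A A').min' hne ≤ h ∧
      h ≤ (Dif A A').min' hne + M ∧ h.natAbs ≤ z ^ K := by
    intro h hh
    obtain ⟨h5, h6⟩ := Fdd_bd hdis hA hA' hh
    refine ⟨h5, Finset.min'_le _ _ hh, ?_, ?_⟩
    · obtain ⟨b, hb, b', hb', hbh⟩ := Fdd_mem hh
      obtain ⟨c, hc, c', hc', hch⟩ := Fdd_mem hmin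
      have e1 := (abs_le.1 (hw c hc b hb)).1
      have e2 := (abs_le.1 (hw' c' hc' b' hb')).2
      have e3 : (h : ℝ) ≤ ((Dif A A').min' hne : ℝ) + M := by
        rw [← hbh, ← hch]
        push_cast
        rw [← hwdef] at e1 e2
        linarith
      exact_mod_cast e3
    · have : ((h.natAbs : ℕ) : ℝ) ≤ ((z ^ K : ℕ) : ℝ) := by
        push_cast
        exact h6.trans hzK
      exact_mod_cast this
  have h5 := h2 K z M _ _ hz1 hzM hS
  refine h5.trans ?_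
  have hlz : Real.log z ≤ Real.log x := by
    apply Real.log_le_log (by exact_mod_cast hz1)
    refine hzle.trans ?_
    calc x ^ (ε / 2) ≤ x ^ (1 : ℝ) := Real.rpow_le_rpow_of_exponent_le (by linarith) (by linarith)
      _ = x := Real.rpow_one x
  have hlz0 : 0 ≤ Real.log z := Real.log_nonneg (by exact_mod_cast hz1)
  have h6 : (1 + Real.log z) ^ (2 ^ (K + 1)) ≤ (2 * Real.log x) ^ (2 ^ (K + 1)) :=
    pow_le_pow_left₀ (by linarith) (by linarith) _
  have h7 : (Real.log x) ^ (2 ^ (K + 1)) * ((Real.log x) ^ (6 * U + 25) * Real.log x) =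
      (Real.log x) ^ E := by
    rw [← Real.rpow_natCast (Real.log x) (2 ^ (K + 1))]
    nth_rewrite 3 [← Real.rpow_one (Real.log x)]
    rw [← Real.rpow_add hL0, ← Real.rpow_add hL0, hE]
    congr 1
    push_cast
    ring
  calc 2 ^ (K + 1) * (M : ℝ) * (1 + Real.log z) ^ (2 ^ (K + 1))
      ≤ 2 ^ (K + 1) * (4 * w) * (2 * Real.log x) ^ (2 ^ (K + 1)) := by
        apply mul_le_mul _ h6 (by positivity) (by positivity)
        exact mul_le_mul_of_nonneg_left hM2 (by positivity)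
    _ = (2 ^ (K + 3) * 2 ^ (2 ^ (K + 1))) * (Real.log x) ^ (2 ^ (K + 1)) * w := by
        rw [mul_pow]
        ring
    _ ≤ Real.log x * (Real.log x) ^ (2 ^ (K + 1)) * w := by
        apply mul_le_mul_of_nonneg_right _ (by linarith)
        exact mul_le_mul_of_nonneg_right hL (by positivity)
    _ = m / (Real.log x) ^ (6 * U + 25) := by
        rw [hwdef, ← h7]
        field_simp

/-- the case of few differences -/
private lemma Fdd_few {ε U B C3 δ : ℝ} (hδ : δ = ε / (2 * (B + 1))) (hε : 0 < ε) (hB : 0 < B)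
    (hC3 : 0 < C3) (hd : ∀ n : ℕ, 1 ≤ n → tau n ≤ C3 * (n : ℝ) ^ δ) {x m : ℝ} (hx : 3 ≤ x)
    (hm : 0 ≤ m) (hL1 : 1 ≤ Real.log x) (hLU : C3 * (Real.log x) ^ (6 * U + 25) ≤ x ^ (ε / 2))
    {A A' : Finset ℤ} (hdis : Disjoint A A')
    (hA : ∀ b ∈ A, |(b : ℝ)| ≤ x ^ B) (hA' : ∀ b ∈ A', |(b : ℝ)| ≤ x ^ B)
    (hc : ((Dif A A').card : ℝ) ≤ x ^ (-ε) * m) :
    ∑ h ∈ Dif A A', tau h.natAbs ≤ m / (Real.log x) ^ (6 * U + 25) := by
  have hx0 : 0 < x := by linarith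
  have hL0 : 0 < Real.log x := by linarith
  have hLU0 : 0 < (Real.log x) ^ (6 * U + 25) := Real.rpow_pos_of_pos hL0 _
  have hδ0 : 0 < δ := by
    rw [hδ]
    positivity
  have h1 : ∀ h ∈ Dif A A', tau h.natAbs ≤ C3 * x ^ (ε / 2) := by
    intro h hh
    obtain ⟨h5, h6⟩ := Fdd_bd hdis hA hA' hh
    refine (hd h.natAbs (by omega)).trans ?_
    apply mul_le_mul_of_nonneg_left _ hC3.le
    calc ((h.natAbs : ℕ) : ℝ) ^ δ ≤ (x ^ (B + 1)) ^ δ := by
          apply Real.rpow_le_rpow (Nat.cast_nonneg _) _ hδ0.le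
          refine h6.trans ?_
          rw [Real.rpow_add hx0, Real.rpow_one, mul_comm]
          exact mul_le_mul_of_nonneg_left (by linarith) (Real.rpow_nonneg hx0.le _)
      _ = x ^ (ε / 2) := by
          rw [← Real.rpow_mul hx0.le, hδ]
          congr 1
          field_simp
  calc ∑ h ∈ Dif A A', tau h.natAbs ≤ ∑ _h ∈ Dif A A', C3 * x ^ (ε / 2) := Finset.sum_le_sum h1
    _ = ((Dif A A').card : ℝ) * (C3 * x ^ (ε / 2)) := by rw [Finset.sum_const, nsmul_eq_mul]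
    _ ≤ x ^ (-ε) * m * (C3 * x ^ (ε / 2)) := mul_le_mul_of_nonneg_right hc (by positivity)
    _ = C3 * m * x ^ (-(ε / 2)) := by
        rw [show -(ε / 2) = -ε + ε / 2 by ring, Real.rpow_add hx0]
        ring
    _ ≤ m / (Real.log x) ^ (6 * U + 25) := by
        rw [le_div_iff₀ hLU0, Real.rpow_neg hx0.le, ← div_eq_mul_inv, div_mul_eq_mul_div,
          div_le_iff₀ (Real.rpow_pos_of_pos hx0 _)]
        calc C3 * m * (Real.log x) ^ (6 * U + 25) = m * (C3 * (Real.log x) ^ (6 * U + 25)) := by ring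
          _ ≤ m * x ^ (ε / 2) := mul_le_mul_of_nonneg_left hLU hm

/-- **Module Fdd.** The final theorem of part D. -/
theorem tFdd (h1 : WfdStmt) (h2 : ShvStmt) (h3 : DvbStmt) : FddStmt := by
  classical
  intro ε U B hε hε2 hU hB
  obtain ⟨C1, hC1⟩ := h1 U hU
  obtain ⟨K, hK⟩ : ∃ K : ℕ, 4 * (B + 1) / ε ≤ K := exists_nat_ge _
  obtain ⟨E, hE⟩ : ∃ E : ℝ, E = 6 * U + 26 + 2 ^ (K + 1) := ⟨_, rfl⟩
  obtain ⟨δ, hδ⟩ : ∃ δ : ℝ, δ = ε / (2 * (B + 1)) := ⟨_, rfl⟩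
  obtain ⟨C3, hC3, hd⟩ := h3 δ (by rw [hδ]; positivity)
  obtain ⟨x1, hx1, hl1⟩ := Fdd_log E (ε / 2) 1 (by linarith)
  obtain ⟨x2, hx2, hl2⟩ := Fdd_log (6 * U + 25) (ε / 2) C3 (by linarith)
  obtain ⟨x3, hx3, hl3⟩ := Fdd_log 0 (ε / 4) 2 (by linarith)
  obtain ⟨Kc, hKc⟩ : ∃ Kc : ℝ, Kc = 2 ^ (K + 3) * 2 ^ (2 ^ (K + 1)) := ⟨_, rfl⟩
  obtain ⟨X, hX⟩ : ∃ X : ℝ, X = max (max x1 x2) (max x3 (Real.exp Kc)) := ⟨_, rfl⟩
  have hX1 : x1 ≤ X := by rw [hX]; exact (le_max_left _ _).trans (le_max_left _ _)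
  have hX2 : x2 ≤ X := by rw [hX]; exact (le_max_right _ _).trans (le_max_left _ _)
  have hX3' : x3 ≤ X := by rw [hX]; exact (le_max_left _ _).trans (le_max_right _ _)
  have hX4 : Real.exp Kc ≤ X := by rw [hX]; exact (le_max_right _ _).trans (le_max_right _ _)
  have hX3 : 3 ≤ X := hx1.trans hX1
  have hXL : 0 ≤ (Real.log X) ^ U := Real.rpow_nonneg (Real.log_nonneg (by linarith)) _
  refine ⟨2 * X * (Real.log X) ^ U + |C1|, E, by rw [hE]; positivity, ?_⟩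
  intro x Q J A hx hQ1 hQ hB' hdisj hcase
  have hCX : 0 ≤ 2 * X * (Real.log X) ^ U := by positivity
  have hx0' : 0 < x := by linarith
  have hlog1 : 1 ≤ Real.log x := by
    have h : Real.exp 1 ≤ x := by
      have := Real.exp_one_lt_d9
      linarith
    rw [← Real.log_exp 1]
    exact Real.log_le_log (Real.exp_pos 1) h
  have hlog0 : 0 < Real.log x := by linarith
  have hQx : Q ≤ x := by
    refine hQ.trans ?_
    calc x ^ (1 - ε) ≤ x ^ (1 : ℝ) := Real.rpow_le_rpow_of_exponent_le (by linarith) (by linarith)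
      _ = x := Real.rpow_one x
  have hQ0 : 0 < Q := by linarith
  have hq0 : 0 ≤ Q ^ 2 / x := by positivity
  have hqU : 0 ≤ x / (Real.log x) ^ U := by positivity
  rcases lt_or_ge x X with hlt | hge
  · -- small x
    refine ⟨∅, Finset.empty_subset _, ?_, ?_⟩
    · rw [Finset.card_empty, Nat.cast_zero]
      positivity
    · intro j _ _ y a hy _
      have e1 : ∀ d ∈ (Icc 1 ⌊Q⌋₊).filter (fun d : ℕ => Int.gcd (a d) d = 1),
          |resErr (y d) d (a d)| ≤ 2 * x := by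
        intro d hd
        obtain ⟨hd1, hd2⟩ := Finset.mem_filter.1 hd
        have f1 := tRse (y d) d (a d) (Finset.mem_Icc.1 hd1).1 hd2
        have f2 := Pool.Agent.Lib.EH.maxErr_le (hy d).1 d (Finset.mem_Icc.1 hd1).1
        have f3 := (hy d).2
        linarith
      have e2 : ((((Icc 1 ⌊Q⌋₊).filter (fun d : ℕ => Int.gcd (a d) d = 1)).card : ℕ) : ℝ) ≤ x := by
        have f1 : ((Icc 1 ⌊Q⌋₊).filter (fun d : ℕ => Int.gcd (a d) d = 1)).card ≤ ⌊Q⌋₊ := by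
          refine (Finset.card_filter_le _ _).trans ?_
          rw [Nat.card_Icc, Nat.add_sub_cancel]
        have f2 : ((((Icc 1 ⌊Q⌋₊).filter (fun d : ℕ => Int.gcd (a d) d = 1)).card : ℕ) : ℝ) ≤
            (⌊Q⌋₊ : ℝ) := by exact_mod_cast f1
        have f3 : (⌊Q⌋₊ : ℝ) ≤ Q := Nat.floor_le hQ0.le
        linarith
      have e3 : ∑ d ∈ (Icc 1 ⌊Q⌋₊).filter (fun d : ℕ => Int.gcd (a d) d = 1),
          |resErr (y d) d (a d)| ≤ x * (2 * x) := by
        refine (Finset.sum_le_sum e1).trans ?_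
        rw [Finset.sum_const, nsmul_eq_mul]
        exact mul_le_mul_of_nonneg_right e2 (by linarith)
      have e4 : (Real.log x) ^ U ≤ (Real.log X) ^ U :=
        Real.rpow_le_rpow hlog0.le (Real.log_le_log hx0' hlt.le) hU.le
      have e5 : x * (2 * x) ≤ 2 * X * (Real.log X) ^ U * (x / (Real.log x) ^ U) := by
        have hp : 0 < (Real.log x) ^ U := Real.rpow_pos_of_pos hlog0 U
        rw [← mul_div_assoc, le_div_iff₀ hp]
        calc x * (2 * x) * (Real.log x) ^ U ≤ x * (2 * X) * (Real.log X) ^ U := by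
              refine mul_le_mul ?_ e4 hp.le (by positivity)
              exact mul_le_mul_of_nonneg_left (by linarith) hx0'.le
          _ = 2 * X * (Real.log X) ^ U * x := by ring
      refine e3.trans (e5.trans ?_)
      refine mul_le_mul_of_nonneg_right ?_ hqU
      have := abs_nonneg C1
      linarith
  · -- large x
    have hm : x ^ ε ≤ min (x ^ ((1 : ℝ) / 2)) (x / Q) := by
      apply le_min
      · exact Real.rpow_le_rpow_of_exponent_le (by linarith) hε2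
      · rw [le_div_iff₀ hQ0]
        calc x ^ ε * Q ≤ x ^ ε * x ^ (1 - ε) :=
              mul_le_mul_of_nonneg_left hQ (Real.rpow_nonneg hx0'.le _)
          _ = x := by
              rw [← Real.rpow_add hx0', show ε + (1 - ε) = 1 by ring, Real.rpow_one]
    have hL : Kc ≤ Real.log x := by
      rw [Real.le_log_iff_exp_le hx0']
      exact hX4.trans hge
    have hLE := hl1 x (hX1.trans hge)
    rw [one_mul] at hLE
    have hLU := hl2 x (hX2.trans hge)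
    have h4 := hl3 x (hX3'.trans hge)
    rw [Real.rpow_zero, mul_one] at h4
    have hm0 : 0 ≤ min (x ^ ((1 : ℝ) / 2)) (x / Q) :=
      (Real.rpow_nonneg hx0'.le _).trans hm
    obtain ⟨S, hS1, hS2, hS3⟩ := hC1 x Q J A hx hQ1 hQx (by
      intro j hj k hk hjk
      refine ⟨hdisj j hj k hk hjk, ?_⟩
      rcases hcase with hc | hc
      · exact Fdd_int h2 hε hB hU K hK E hE hx hm hlog1 (by rw [← hKc]; exact hL) hLE h4
          (hdisj j hj k hk hjk) (hB' j hj) (hB' k hk) (hc j hj) (hc k hk) hε2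
      · exact Fdd_few hδ hε hB hC3 hd hx hm0 hlog1 hLU
          (hdisj j hj k hk hjk) (hB' j hj) (hB' k hk) (hc j hj k hk hjk))
    have hC1le : C1 ≤ 2 * X * (Real.log X) ^ U + |C1| := by
      have := le_abs_self C1
      linarith
    refine ⟨S, hS1, hS2.trans ?_, ?_⟩
    · exact mul_le_mul_of_nonneg_right hC1le (by positivity)
    · intro j hj hjS y a hy ha
      exact (hS3 j hj hjS y a hy ha).trans (mul_le_mul_of_nonneg_right hC1le hqU)

end Pool.Agent.Lib.KF
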