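import Pool.Agent.Lib.KF.SpecD

/-!
MP_00e23e_nt, directory Lib/KF, part D, module Shu: a small divisor with many divisors.
-/

namespace Pool.Agent.Lib.KF

open Finset Pool.Agent.Lib.EH3 Pool.Agent.Results.MP_00e23e_nt

private lemma Shu_mul (e m : ℕ) :
    (e * m).divisors.card ≤ e.divisors.card * m.divisors.card := by
  rw [Nat.divisors_mul]
  exact Finset.card_mul_le

/-- module Shu -/
theorem tShu : ShuStmt := by
  intro K
  induction K with
  | zero =>
    intro n z hn _ h
    have h1 : n = 1 := by simp at h; omega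
    subst h1
    exact ⟨1, dvd_rfl, by omega, by simp⟩
  | succ K ih =>
    intro n z hn hz h
    by_cases hnz : n ≤ z
    · refine ⟨n, dvd_rfl, hnz, ?_⟩
      have hc : 1 ≤ n.divisors.card := Finset.card_pos.mpr ⟨1, by simp; omega⟩
      calc n.divisors.card = 1 * n.divisors.card ^ 1 := by ring
        _ ≤ 2 ^ (K + 1) * n.divisors.card ^ (K + 1 + 1) :=
          Nat.mul_le_mul Nat.one_le_two_pow (Nat.pow_le_pow_right hc (by omega))
    · push Not at hnz
      set D : Finset ℕ := n.divisors.filter (fun d => d ≤ z) with hD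
      have hDne : D.Nonempty := ⟨1, by simp [hD]; omega⟩
      obtain ⟨d₁, hd₁, hmax⟩ := D.exists_max_image id hDne
      simp only [hD, Finset.mem_filter, Nat.mem_divisors, id] at hd₁ hmax
      obtain ⟨⟨⟨c, hc⟩, hn0⟩, hd₁z⟩ := hd₁
      have hd0 : 0 < d₁ := Nat.pos_of_ne_zero fun h0 => by simp [h0] at hc; omega
      have hc1 : c ≠ 1 := by
        rintro rfl
        rw [mul_one] at hc
        omega
      obtain ⟨q, hq, hqc⟩ := Nat.exists_prime_and_dvd hc1
      obtain ⟨m, rfl⟩ := hqc
      have hm0 : 0 < m := Nat.pos_of_ne_zero fun h0 => by simp [h0] at hc; omega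
      have hdq : z < d₁ * q := by
        by_contra hle
        push Not at hle
        have h2 := hmax (d₁ * q) ⟨⟨⟨m, by rw [hc]; ring⟩, hn0⟩, hle⟩
        have h3 : d₁ * 1 < d₁ * q := (Nat.mul_lt_mul_left hd0).2 hq.one_lt
        omega
      have hmz : m ≤ z ^ K := by
        by_contra hlt
        push Not at hlt
        have h4 : z * z ^ K < (d₁ * q) * m := by
          calc z * z ^ K ≤ z * m := Nat.mul_le_mul_left z hlt.le
            _ < (d₁ * q) * m := (Nat.mul_lt_mul_right hm0).2 hdq
        have h5 : n ≤ z * z ^ K := by rw [← pow_succ']; exact h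
        have h6 : n = (d₁ * q) * m := by rw [hc]; ring
        omega
      obtain ⟨d', hd'm, hd'z, hd'⟩ := ih m z hm0 hz hmz
      have hq2 : q.divisors.card = 2 := by
        rw [hq.divisors, Finset.card_pair hq.one_lt.ne]
      have hA : n.divisors.card ≤ d₁.divisors.card * (2 * (2 ^ K * d'.divisors.card ^ (K + 1))) := by
        calc n.divisors.card = (d₁ * (q * m)).divisors.card := by rw [← hc]
          _ ≤ d₁.divisors.card * (q * m).divisors.card := Shu_mul _ _
          _ ≤ d₁.divisors.card * (q.divisors.card * m.divisors.card) :=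
            Nat.mul_le_mul_left _ (Shu_mul _ _)
          _ ≤ d₁.divisors.card * (2 * (2 ^ K * d'.divisors.card ^ (K + 1))) := by
            rw [hq2]
            exact Nat.mul_le_mul_left _ (Nat.mul_le_mul_left _ hd')
      have hd1n : d₁ ∣ n := ⟨q * m, hc⟩
      have hd'n : d' ∣ n := hd'm.trans ⟨d₁ * q, by rw [hc]; ring⟩
      rcases le_total d₁.divisors.card d'.divisors.card with hle | hle
      · refine ⟨d', hd'n, hd'z, hA.trans ?_⟩
        calc d₁.divisors.card * (2 * (2 ^ K * d'.divisors.card ^ (K + 1)))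
            ≤ d'.divisors.card * (2 * (2 ^ K * d'.divisors.card ^ (K + 1))) :=
              Nat.mul_le_mul_right _ hle
          _ = 2 ^ (K + 1) * d'.divisors.card ^ (K + 1 + 1) := by ring
      · refine ⟨d₁, hd1n, hd₁z, hA.trans ?_⟩
        calc d₁.divisors.card * (2 * (2 ^ K * d'.divisors.card ^ (K + 1)))
            ≤ d₁.divisors.card * (2 * (2 ^ K * d₁.divisors.card ^ (K + 1))) :=
              Nat.mul_le_mul_left _ (Nat.mul_le_mul_left _ (Nat.mul_le_mul_left _
                (Nat.pow_le_pow_left hle _)))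
          _ = 2 ^ (K + 1) * d₁.divisors.card ^ (K + 1 + 1) := by ring

end Pool.Agent.Lib.KF
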