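import Pool.Agent.Lib.KF.SpecD

/-!
MP_00e23e_nt, directory Lib/KF, module Shv: the mean of tau in short intervals.
-/

namespace Pool.Agent.Lib.KF

open Finset Pool.Agent.Lib.EH3 Pool.Agent.Results.MP_00e23e_nt

private lemma Shv_count (d : ℕ) (hd : 1 ≤ d) (u : ℤ) (M : ℕ) :
    (((Finset.Icc u (u + M)).filter (fun n => (d : ℤ) ∣ n)).card : ℝ) ≤ (M : ℝ) / d + 1 := by
  have hd0 : (0 : ℤ) < d := by exact_mod_cast hd
  have hd1 : (0 : ℝ) < d := by exact_mod_cast hd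
  have h1 : ((Finset.Icc u (u + M)).filter (fun n => (d : ℤ) ∣ n)).card ≤
      (Finset.Icc ((u + d - 1) / d) ((u + M) / d)).card := by
    refine Finset.card_le_card_of_injOn (fun n => n / d) ?_ ?_
    · intro n hn
      rw [Finset.mem_coe, Finset.mem_filter, Finset.mem_Icc] at hn
      obtain ⟨⟨h2, h3⟩, m, rfl⟩ := hn
      rw [Finset.mem_coe, Finset.mem_Icc]
      simp only
      rw [Int.mul_ediv_cancel_left _ hd0.ne']
      constructor
      · rw [Int.ediv_le_iff_le_mul hd0]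
        nlinarith
      · rw [Int.le_ediv_iff_mul_le hd0]
        nlinarith
    · intro n hn m hm hnm
      rw [Finset.mem_coe, Finset.mem_filter] at hn hm
      obtain ⟨-, n', rfl⟩ := hn
      obtain ⟨-, m', rfl⟩ := hm
      simp only at hnm
      rw [Int.mul_ediv_cancel_left _ hd0.ne', Int.mul_ediv_cancel_left _ hd0.ne'] at hnm
      rw [hnm]
  have h2 : ((Finset.Icc ((u + d - 1) / d) ((u + M) / d)).card : ℝ) ≤ (M : ℝ) / d + 1 := by
    rw [Int.card_Icc]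
    rcases le_or_gt ((u + M) / (d : ℤ) + 1 - (u + d - 1) / (d : ℤ)) 0 with h | h
    · rw [Int.toNat_of_nonpos h]
      push_cast
      positivity
    · have h3 : ((((u + M) / (d : ℤ) + 1 - (u + d - 1) / (d : ℤ)).toNat : ℕ) : ℝ) =
          (((u + M) / (d : ℤ) + 1 - (u + d - 1) / (d : ℤ) : ℤ) : ℝ) := by
        exact_mod_cast congrArg (Int.cast (R := ℝ)) (Int.toNat_of_nonneg h.le)
      rw [h3]
      have h4 : (u + M) / (d : ℤ) * d ≤ u + M := Int.ediv_mul_le _ hd0.ne'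
      have h5 : u ≤ (u + d - 1) / (d : ℤ) * d := by
        have := Int.lt_ediv_add_one_mul_self (u + d - 1) hd0
        nlinarith
      have h6 : (((u + M) / (d : ℤ) - (u + d - 1) / (d : ℤ) : ℤ) : ℝ) * d ≤ M := by
        have : ((u + M) / (d : ℤ) - (u + d - 1) / (d : ℤ)) * d ≤ (M : ℤ) := by nlinarith
        exact_mod_cast this
      have h7 : (((u + M) / (d : ℤ) - (u + d - 1) / (d : ℤ) : ℤ) : ℝ) ≤ (M : ℝ) / d := by
        rw [le_div_iff₀ hd1]
        exact h6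
      push_cast at h7 ⊢
      linarith
  have h3 : (((Finset.Icc u (u + M)).filter (fun n => (d : ℤ) ∣ n)).card : ℝ) ≤
      ((Finset.Icc ((u + d - 1) / d) ((u + M) / d)).card : ℝ) := by exact_mod_cast h1
  exact h3.trans h2

theorem tShv (h1 : TpkStmt) (h2 : ShuStmt) : ShvStmt := by
  intro K z M u S hz hzM hS
  have hzM' : (z : ℝ) ≤ (M : ℝ) := by exact_mod_cast hzM
  have h3 : ∀ h ∈ S, tau h.natAbs ≤ 2 ^ K * ∑ d ∈ Icc 1 z, (if (d : ℤ) ∣ h then tau d ^ (K + 1) else 0) := by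
    intro h hh
    obtain ⟨h4, -, -, h5⟩ := hS h hh
    obtain ⟨d, hd1, hd2, hd3⟩ := h2 K h.natAbs z (Nat.one_le_iff_ne_zero.2 (Int.natAbs_ne_zero.2 h4)) hz h5
    have hd0 : 1 ≤ d := Nat.one_le_iff_ne_zero.2 (by
      rintro rfl
      exact h4 (Int.natAbs_eq_zero.1 (Nat.eq_zero_of_zero_dvd hd1)))
    have h6 : tau h.natAbs ≤ 2 ^ K * tau d ^ (K + 1) := by
      unfold tau
      exact_mod_cast hd3
    refine h6.trans (mul_le_mul_of_nonneg_left ?_ (by positivity))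
    have h7 := Finset.single_le_sum (f := fun d : ℕ => if (d : ℤ) ∣ h then tau d ^ (K + 1) else 0) (s := Icc 1 z)
      (fun e _ => by
        split_ifs
        · unfold tau
          positivity
        · exact le_rfl) (Finset.mem_Icc.2 ⟨hd0, hd2⟩)
    rwa [if_pos (Int.natCast_dvd.2 hd1)] at h7
  have h4 : ∀ d ∈ Icc 1 z, ∑ h ∈ S, (if (d : ℤ) ∣ h then tau d ^ (K + 1) else 0) ≤
      2 * (M : ℝ) * (tau d ^ (K + 1) / (d : ℝ)) := by
    intro d hd
    rw [Finset.mem_Icc] at hd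
    have hd1 : (0 : ℝ) < d := by exact_mod_cast hd.1
    rw [← Finset.sum_filter, Finset.sum_const, nsmul_eq_mul]
    have h5 : ((S.filter (fun h => (d : ℤ) ∣ h)).card : ℝ) ≤ (M : ℝ) / d + 1 := by
      refine le_trans ?_ (Shv_count d hd.1 u M)
      have : S.filter (fun h => (d : ℤ) ∣ h) ⊆ (Finset.Icc u (u + M)).filter (fun n => (d : ℤ) ∣ n) := by
        intro h hh
        rw [Finset.mem_filter] at hh ⊢
        obtain ⟨-, h6, h7, -⟩ := hS h hh.1
        exact ⟨Finset.mem_Icc.2 ⟨h6, h7⟩, hh.2⟩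
      exact_mod_cast Finset.card_le_card this
    have h6 : (M : ℝ) / d + 1 ≤ 2 * (M : ℝ) / d := by
      have : 1 ≤ (M : ℝ) / d := by
        rw [le_div_iff₀ hd1]
        have : (d : ℝ) ≤ (z : ℝ) := by exact_mod_cast hd.2
        linarith
      rw [mul_div_assoc]
      linarith
    have h7 : 0 ≤ tau d ^ (K + 1) := by
      unfold tau
      positivity
    calc ((S.filter (fun h => (d : ℤ) ∣ h)).card : ℝ) * tau d ^ (K + 1) ≤ (2 * (M : ℝ) / d) * tau d ^ (K + 1) :=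
          mul_le_mul_of_nonneg_right (h5.trans h6) h7
      _ = 2 * (M : ℝ) * (tau d ^ (K + 1) / (d : ℝ)) := by ring
  calc ∑ h ∈ S, tau h.natAbs ≤ ∑ h ∈ S, 2 ^ K * ∑ d ∈ Icc 1 z, (if (d : ℤ) ∣ h then tau d ^ (K + 1) else 0) :=
        Finset.sum_le_sum h3
    _ = 2 ^ K * ∑ d ∈ Icc 1 z, ∑ h ∈ S, (if (d : ℤ) ∣ h then tau d ^ (K + 1) else 0) := by
        rw [← Finset.mul_sum, Finset.sum_comm]
    _ ≤ 2 ^ K * ∑ d ∈ Icc 1 z, 2 * (M : ℝ) * (tau d ^ (K + 1) / (d : ℝ)) :=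
        mul_le_mul_of_nonneg_left (Finset.sum_le_sum h4) (by positivity)
    _ = 2 ^ (K + 1) * (M : ℝ) * ∑ d ∈ Icc 1 z, tau d ^ (K + 1) / (d : ℝ) := by
        rw [← Finset.mul_sum]
        ring
    _ ≤ 2 ^ (K + 1) * (M : ℝ) * (1 + Real.log z) ^ (2 ^ (K + 1)) :=
        mul_le_mul_of_nonneg_left (h1 (K + 1) z hz) (by positivity)

end Pool.Agent.Lib.KF
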