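import Pool.Agent.Lib.KF.SpecD

/-!
MP_00e23e_nt, directory Lib/KF, part D, module Tpk: powers of tau.
-/

namespace Pool.Agent.Lib.KF

open Finset Pool.Agent.Lib.EH3 Pool.Agent.Results.MP_00e23e_nt

private lemma Tpk_mul (e m : ℕ) : tau (e * m) ≤ tau e * tau m := by
  unfold tau
  have h : ((e * m).divisors.card : ℝ) ≤ ((e.divisors.card * m.divisors.card : ℕ) : ℝ) := by
    exact_mod_cast (by rw [Nat.divisors_mul]; exact Finset.card_mul_le)
  simpa using h

private lemma Tpk_nonneg (n : ℕ) : 0 ≤ tau n := by unfold tau; positivity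

private lemma Tpk_harm (N : ℕ) : ∑ d ∈ Icc 1 N, 1 / (d : ℝ) ≤ 1 + Real.log N := by
  have h := harmonic_le_one_add_log N
  rw [harmonic_eq_sum_Icc] at h
  push_cast at h
  simpa [one_div] using h

private lemma Tpk_step (k z : ℕ) :
    ∑ d ∈ Icc 1 z, tau d ^ (k + 1) / (d : ℝ) ≤ (∑ d ∈ Icc 1 z, tau d ^ k / (d : ℝ)) ^ 2 := by
  have h1 : ∑ d ∈ Icc 1 z, tau d ^ (k + 1) / (d : ℝ) =
      ∑ d ∈ Icc 1 z, ∑ e ∈ d.divisors, tau d ^ k / (d : ℝ) := by
    refine Finset.sum_congr rfl fun d _ => ?_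
    rw [Finset.sum_const, nsmul_eq_mul]
    unfold tau
    ring
  rw [h1, Finset.sum_sigma', sq, Finset.sum_mul_sum, ← Finset.sum_product']
  have hinj : Set.InjOn (fun p : (Σ _ : ℕ, ℕ) => ((p.2, p.1 / p.2) : ℕ × ℕ))
      ((Icc 1 z).sigma fun d => d.divisors : Finset (Σ _ : ℕ, ℕ)) := by
    rintro ⟨d, e⟩ h ⟨d', e'⟩ h' heq
    simp only [Finset.coe_sigma, Set.mem_sigma_iff, Finset.mem_coe, Nat.mem_divisors] at h h'
    simp only [Prod.mk.injEq] at heq
    obtain ⟨he, hd⟩ := heq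
    subst he
    have : d = d' := by
      rw [← Nat.mul_div_cancel' h.2.1, hd, Nat.mul_div_cancel' h'.2.1]
    subst this
    rfl
  calc ∑ x ∈ (Icc 1 z).sigma fun d => d.divisors, tau x.1 ^ k / (x.1 : ℝ)
      ≤ ∑ x ∈ (Icc 1 z).sigma fun d => d.divisors,
          (tau x.2 ^ k / (x.2 : ℝ) * (tau (x.1 / x.2) ^ k / ((x.1 / x.2 : ℕ) : ℝ))) := by
        refine Finset.sum_le_sum ?_
        rintro ⟨d, e⟩ h
        simp only [Finset.mem_sigma, Finset.mem_Icc, Nat.mem_divisors] at h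
        obtain ⟨m, rfl⟩ := h.2.1
        have he0 : 0 < e := Nat.pos_of_ne_zero fun h0 => by simp [h0] at h
        have hdiv : e * m / e = m := Nat.mul_div_cancel_left m he0
        simp only [hdiv]
        rw [div_mul_div_comm, ← mul_pow]
        push_cast
        exact div_le_div_of_nonneg_right
          (pow_le_pow_left₀ (Tpk_nonneg _) (Tpk_mul e m) k) (by positivity)
    _ = ∑ y ∈ ((Icc 1 z).sigma fun d => d.divisors).image
          (fun p : (Σ _ : ℕ, ℕ) => ((p.2, p.1 / p.2) : ℕ × ℕ)),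
          (tau y.1 ^ k / (y.1 : ℝ) * (tau y.2 ^ k / (y.2 : ℝ))) := by
        rw [Finset.sum_image hinj]
    _ ≤ ∑ y ∈ Icc 1 z ×ˢ Icc 1 z, (tau y.1 ^ k / (y.1 : ℝ) * (tau y.2 ^ k / (y.2 : ℝ))) := by
        refine Finset.sum_le_sum_of_subset_of_nonneg ?_ ?_
        · intro y hy
          simp only [Finset.mem_image, Finset.mem_sigma, Finset.mem_Icc, Nat.mem_divisors] at hy
          obtain ⟨⟨d, e⟩, ⟨⟨hd1, hd2⟩, ⟨m, hm⟩, hd0⟩, rfl⟩ := hy
          simp only at hd1 hd2 hm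
          subst hm
          have he0 : 0 < e := Nat.pos_of_ne_zero fun h0 => by simp [h0] at hd1
          have hm0 : 0 < m := Nat.pos_of_ne_zero fun h0 => by simp [h0] at hd1
          have hdiv : e * m / e = m := Nat.mul_div_cancel_left m he0
          simp only [Finset.mem_product, Finset.mem_Icc, hdiv]
          exact ⟨⟨he0, (Nat.le_mul_of_pos_right e hm0).trans hd2⟩,
            ⟨hm0, (Nat.le_mul_of_pos_left m he0).trans hd2⟩⟩
        · intro y _ _
          have h1 := Tpk_nonneg y.1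
          have h2 := Tpk_nonneg y.2
          positivity

/-- module Tpk -/
theorem tTpk : TpkStmt := by
  intro k z hz
  induction k with
  | zero => simpa using Tpk_harm z
  | succ k ih =>
    have h0 : 0 ≤ ∑ d ∈ Icc 1 z, tau d ^ k / (d : ℝ) :=
      Finset.sum_nonneg fun d _ => div_nonneg (pow_nonneg (Tpk_nonneg d) k) (by positivity)
    calc ∑ d ∈ Icc 1 z, tau d ^ (k + 1) / (d : ℝ)
        ≤ (∑ d ∈ Icc 1 z, tau d ^ k / (d : ℝ)) ^ 2 := Tpk_step k z
      _ ≤ ((1 + Real.log z) ^ (2 ^ k)) ^ 2 := pow_le_pow_left₀ h0 ih 2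
      _ = (1 + Real.log z) ^ (2 ^ (k + 1)) := by rw [← pow_mul, pow_succ]

end Pool.Agent.Lib.KF
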