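import Pool.Agent.Lib.KF.SpecD

/-!
MP_00e23e_nt, directory Lib/KF, part D: one dyadic block for families of sets with few differences.
-/

namespace Pool.Agent.Lib.KF

open Finset Pool.Agent.Lib.EH3 Pool.Agent.Results.MP_00e23e_nt

private lemma Wbd_ev (r s K : ℝ) (hs : 0 < s) :
    ∀ᶠ x : ℝ in Filter.atTop, K * (Real.log x) ^ r ≤ x ^ s := by
  have h := isLittleO_log_rpow_rpow_atTop r hs
  have h1 := h.def (c := 1 / (|K| + 1)) (by positivity)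
  filter_upwards [h1, Filter.eventually_ge_atTop (1 : ℝ)] with x hx hx1
  have hlog : 0 ≤ Real.log x := Real.log_nonneg hx1
  rw [Real.norm_of_nonneg (Real.rpow_nonneg hlog _),
    Real.norm_of_nonneg (Real.rpow_nonneg (by linarith) _)] at hx
  rw [one_div, ← div_eq_inv_mul, le_div_iff₀ (by positivity)] at hx
  have h2 : K ≤ |K| + 1 := by
    have := le_abs_self K
    linarith
  have h3 : 0 ≤ (Real.log x) ^ r := Real.rpow_nonneg hlog _
  nlinarith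

private lemma Wbd_cs (x y : ℝ) (hx : 1 ≤ x) (hy : 0 ≤ y) (hyx : y ≤ x) (F : ℤ → ℝ) :
    (∑ p ∈ (Icc 1 ⌊y⌋₊).filter Nat.Prime, F (p : ℤ)) ^ 2 ≤
      x * ∑ n ∈ range (⌊x⌋₊ + 1), (F (n : ℤ)) ^ 2 := by
  have h1 := sq_sum_le_card_mul_sum_sq (s := (Icc 1 ⌊y⌋₊).filter Nat.Prime)
    (f := fun p : ℕ => F (p : ℤ))
  have h2 : (((Icc 1 ⌊y⌋₊).filter Nat.Prime).card : ℝ) ≤ x := by
    calc (((Icc 1 ⌊y⌋₊).filter Nat.Prime).card : ℝ) ≤ ((Icc 1 ⌊y⌋₊).card : ℝ) := by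
          exact_mod_cast card_filter_le _ _
      _ = (⌊y⌋₊ : ℝ) := by simp
      _ ≤ y := Nat.floor_le hy
      _ ≤ x := hyx
  have hfl : ⌊y⌋₊ ≤ ⌊x⌋₊ := Nat.floor_mono hyx
  have h3 : ∑ p ∈ (Icc 1 ⌊y⌋₊).filter Nat.Prime, (F (p : ℤ)) ^ 2 ≤
      ∑ n ∈ range (⌊x⌋₊ + 1), (F (n : ℤ)) ^ 2 := by
    refine sum_le_sum_of_subset_of_nonneg ?_ (fun _ _ _ => sq_nonneg _)
    intro p hp
    rw [mem_filter, mem_Icc] at hp
    rw [mem_range]
    omega
  have h4 : 0 ≤ ∑ p ∈ (Icc 1 ⌊y⌋₊).filter Nat.Prime, (F (p : ℤ)) ^ 2 :=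
    sum_nonneg fun _ _ => sq_nonneg _
  calc _ ≤ (((Icc 1 ⌊y⌋₊).filter Nat.Prime).card : ℝ) *
        ∑ p ∈ (Icc 1 ⌊y⌋₊).filter Nat.Prime, (F (p : ℤ)) ^ 2 := h1
    _ ≤ x * ∑ p ∈ (Icc 1 ⌊y⌋₊).filter Nat.Prime, (F (p : ℤ)) ^ 2 :=
        mul_le_mul_of_nonneg_right h2 h4
    _ ≤ x * ∑ n ∈ range (⌊x⌋₊ + 1), (F (n : ℤ)) ^ 2 :=
        mul_le_mul_of_nonneg_left h3 (by linarith)

private lemma Wbd_low (h2 : TtbStmt) {x y Q U C1 : ℝ} {R : ℕ} {a : ℕ → ℤ} {c : ℕ → ℝ} (hx : 3 ≤ x)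
    (hy : 2 ≤ y) (hyx : y ≤ x)
    (hQ : 1 ≤ Q) (hR : 1 ≤ R) (hRQ : (R : ℝ) ≤ Q) (hL : 2 ≤ Real.log x) (hLC : 32 * C1 ≤ Real.log x)
    (hM : 1 + Real.log (2 * Q) ≤ 2 * Real.log x)
    (hbv : ∑ e ∈ Icc 1 R, maxErr y e ≤ C1 * (x / (Real.log x) ^ (U + 3)))
    (hsq : 128 * (Real.log x) ^ (U + 1) ≤ Real.sqrt R)
    (hc : ∑ d ∈ dyb Q a, |resErr y d (a d)| ≤ (∑ p ∈ (Icc 1 ⌊y⌋₊).filter Nat.Prime, gb R Q c a (p : ℤ)) +
      ∑ d ∈ dyb Q a, |ellp y R d (a d) - li y / (d.totient : ℝ)|)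
    (ha : x / (Real.log x) ^ (U + 1) < ∑ d ∈ dyb Q a, |resErr y d (a d)|) :
    3 / 4 * (x / (Real.log x) ^ (U + 1)) ≤
      ∑ p ∈ (Icc 1 ⌊y⌋₊).filter Nat.Prime, gb R Q c a (p : ℤ) := by
  have hL0 : 0 < Real.log x := by linarith
  have hx0 : 0 < x := by linarith
  have hP : 0 < (Real.log x) ^ (U + 1) := Real.rpow_pos_of_pos hL0 _
  have hsplit : (Real.log x) ^ (U + 3) = (Real.log x) ^ (U + 1) * (Real.log x) ^ 2 := by
    rw [show U + 3 = (U + 1) + 2 by ring, Real.rpow_add hL0, Real.rpow_two]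
  rw [hsplit] at hbv
  have e2 := h2 y Q R a hQ hR hRQ
  have hli : |li y| ≤ 2 * x := by
    rw [abs_of_nonneg (Pool.Agent.Lib.EH.li_nonneg hy)]
    exact (Pool.Agent.Lib.EH.li_le hy).trans (by linarith)
  generalize (Real.log x) ^ (U + 1) = P at *
  generalize Real.log x = L at *
  have hS0 : 0 ≤ ∑ e ∈ Icc 1 R, maxErr y e := sum_nonneg fun e _ => Pool.Agent.Lib.EH.maxErr_nonneg y e
  have hxP : 0 < x / P := by positivity
  have t1 : 2 * (1 + Real.log (2 * Q)) * ∑ e ∈ Icc 1 R, maxErr y e ≤ 1 / 8 * (x / P) := by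
    calc 2 * (1 + Real.log (2 * Q)) * ∑ e ∈ Icc 1 R, maxErr y e
        ≤ 2 * (2 * L) * ∑ e ∈ Icc 1 R, maxErr y e :=
          mul_le_mul_of_nonneg_right (by linarith) hS0
      _ ≤ 2 * (2 * L) * (C1 * (x / (P * L ^ 2))) := mul_le_mul_of_nonneg_left hbv (by positivity)
      _ = (4 * C1 / L) * (x / P) := by
          field_simp
          ring
      _ ≤ 1 / 8 * (x / P) := by
          refine mul_le_mul_of_nonneg_right ?_ hxP.le
          rw [div_le_iff₀ hL0]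
          linarith
  have t2 : 8 * |li y| / Real.sqrt R ≤ 1 / 8 * (x / P) := by
    have hs0 : 0 < Real.sqrt R := lt_of_lt_of_le (by positivity) hsq
    rw [div_le_iff₀ hs0]
    have hxP1 : x / P * P = x := div_mul_cancel₀ x hP.ne'
    have t3 : 1 / 8 * (x / P) * (128 * P) ≤ 1 / 8 * (x / P) * Real.sqrt R :=
      mul_le_mul_of_nonneg_left hsq (by positivity)
    have t4 : 1 / 8 * (x / P) * (128 * P) = 16 * (x / P * P) := by ring
    rw [t4, hxP1] at t3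
    linarith
  linarith

private lemma Wbd_alg {n x L P Q W S V : ℝ} (hn : 0 < n) (hx : 0 < x) (hL : 0 < L) (hP : 0 < P)
    (hA : n * (3 / 4 * (x / P)) ≤ S) (hB : S ^ 2 ≤ x * V)
    (hC : V ≤ 32000 * L ^ 2 * ((x + Q ^ 2) * n + W * n ^ 2))
    (hW : 512000 * L ^ 2 * P ^ 2 * W ≤ x) :
    n ≤ 64000 * ((1 + Q ^ 2 / x) * (P ^ 2 * L ^ 2)) := by
  have h1 : (n * (3 / 4 * (x / P))) ^ 2 ≤ S ^ 2 := pow_le_pow_left₀ (by positivity) hA 2
  have h2 : (n * (3 / 4 * (x / P))) ^ 2 * P ^ 2 = 9 / 16 * n ^ 2 * x ^ 2 := by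
    field_simp
    ring
  have h3 : 9 / 16 * n ^ 2 * x ^ 2 ≤ x * (32000 * L ^ 2 * ((x + Q ^ 2) * n + W * n ^ 2)) * P ^ 2 := by
    rw [← h2]
    refine mul_le_mul_of_nonneg_right ?_ (by positivity)
    calc _ ≤ S ^ 2 := h1
      _ ≤ x * V := hB
      _ ≤ _ := mul_le_mul_of_nonneg_left hC hx.le
  have h4 : (x * n ^ 2 / 16) * (512000 * L ^ 2 * P ^ 2 * W) ≤ (x * n ^ 2 / 16) * x :=
    mul_le_mul_of_nonneg_left hW (by positivity)
  have h5 : (1 / 2 * n * x) * (n * x) ≤ (1 / 2 * n * x) * (64000 * (P ^ 2 * L ^ 2) * (x + Q ^ 2)) := by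
    nlinarith
  have h6 : n * x ≤ 64000 * (P ^ 2 * L ^ 2) * (x + Q ^ 2) :=
    le_of_mul_le_mul_left h5 (by positivity)
  have h7 : 64000 * ((1 + Q ^ 2 / x) * (P ^ 2 * L ^ 2)) = 64000 * (P ^ 2 * L ^ 2) * (x + Q ^ 2) / x := by
    field_simp
  rw [h7, le_div_iff₀ hx]
  exact h6

/-- the bound for the second term -/
private lemma Wbd_main {x Q X R s p w : ℝ} (hx : 0 < x) (hQ : 0 < Q) (hs : 0 < s) (hss : s ^ 2 = x)
    (hp : 1 ≤ p) (hw : 0 < w) (hX : X ≤ x) (hR : s / p / 2 ≤ R) :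
    (X / R + Q) * (min s (x / Q) / w) ≤ 3 * (x * p / w) := by
  have hp0 : 0 < p := by linarith
  have hR0 : 0 < R := lt_of_lt_of_le (by positivity) hR
  have hm0 : 0 ≤ min s (x / Q) := le_min hs.le (by positivity)
  have hXR : X / R ≤ 2 * s * p := by
    rw [div_le_iff₀ hR0]
    have e1 : 2 * s * p * (s / p / 2) ≤ 2 * s * p * R := mul_le_mul_of_nonneg_left hR (by positivity)
    have e2 : 2 * s * p * (s / p / 2) = s ^ 2 := by
      field_simp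
    linarith
  have p1 : X / R * min s (x / Q) ≤ 2 * (x * p) := by
    calc X / R * min s (x / Q) ≤ 2 * s * p * min s (x / Q) := mul_le_mul_of_nonneg_right hXR hm0
      _ ≤ 2 * s * p * s := mul_le_mul_of_nonneg_left (min_le_left _ _) (by positivity)
      _ = 2 * (x * p) := by
          rw [← hss]
          ring
  have p2 : Q * min s (x / Q) ≤ x * p := by
    calc Q * min s (x / Q) ≤ Q * (x / Q) := mul_le_mul_of_nonneg_left (min_le_right _ _) hQ.le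
      _ = x * 1 := by
          field_simp
      _ ≤ x * p := mul_le_mul_of_nonneg_left hp hx.le
  have e3 : (X / R + Q) * (min s (x / Q) / w) = (X / R * min s (x / Q) + Q * min s (x / Q)) / w := by
    ring
  have e4 : 3 * (x * p / w) = (3 * (x * p)) / w := by ring
  rw [e3, e4]
  exact div_le_div_of_nonneg_right (by linarith) hw.le

theorem tWbd (h2 : TtbStmt) (h3 : BvdStmt) (h4 : BlbStmt) (h5 : WldStmt) : WbdStmt := by
  intro U hU
  obtain ⟨C1, hC1, hbv⟩ := h3 (U + 3) (by linarith)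
  have ev1 := Wbd_ev (3 * U + 7) (1 / 2) 32768 (by norm_num)
  have ev2 := Wbd_ev (U + 5) (1 / 2) 2 (by norm_num)
  have ev3 : ∀ᶠ x : ℝ in Filter.atTop, 1536000 + 32 * C1 ≤ Real.log x :=
    Real.tendsto_log_atTop.eventually_ge_atTop _
  obtain ⟨x0, hx0⟩ := Filter.eventually_atTop.1 (ev1.and (ev2.and ev3))
  refine ⟨64000, max x0 16, by norm_num, le_trans (by norm_num) (le_max_right _ _), ?_⟩
  intro x y Q J A a hxx hy2 hyx hQl hQx hfam hbig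
  obtain ⟨c1, c2, c3⟩ := hx0 x ((le_max_left _ _).trans hxx)
  have hx16 : 16 ≤ x := (le_max_right _ _).trans hxx
  have hx0' : 0 < x := by linarith
  have hx1 : 1 ≤ x := by linarith
  have hL2 : 2 ≤ Real.log x := by linarith
  have hL0 : 0 < Real.log x := by linarith
  have hP : 0 < (Real.log x) ^ (U + 1) := Real.rpow_pos_of_pos hL0 _
  have hP5 : 0 < (Real.log x) ^ (U + 5) := Real.rpow_pos_of_pos hL0 _
  have hP5' : 1 ≤ (Real.log x) ^ (U + 5) := Real.one_le_rpow (by linarith) (by linarith)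
  have hP10 : 0 < (Real.log x) ^ (3 * U + 10) := Real.rpow_pos_of_pos hL0 _
  have hs0 : 0 < x ^ ((1 : ℝ) / 2) := Real.rpow_pos_of_pos hx0' _
  have hss : (x ^ ((1 : ℝ) / 2)) ^ 2 = x := by
    rw [← Real.rpow_natCast, ← Real.rpow_mul hx0'.le]
    norm_num
  have hD2 : 2 ≤ x ^ ((1 : ℝ) / 2) / (Real.log x) ^ (U + 5) := by
    rw [le_div_iff₀ hP5]
    exact c2
  have hQ1 : 1 ≤ Q := by linarith
  have hM : 1 + Real.log (2 * Q) ≤ 2 * Real.log x := by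
    have e1 : Real.log (2 * Q) ≤ Real.log (2 * x) := Real.log_le_log (by linarith) (by linarith)
    rw [Real.log_mul (by norm_num) hx0'.ne'] at e1
    have e2 := Real.log_two_lt_d9
    linarith
  have hM0 : 0 ≤ 1 + Real.log (2 * Q) := by
    have := Real.log_nonneg (show (1 : ℝ) ≤ 2 * Q by linarith)
    linarith
  -- the parameter R
  obtain ⟨R, hRdef⟩ : ∃ R : ℕ, R = ⌊x ^ ((1 : ℝ) / 2) / (Real.log x) ^ (U + 5)⌋₊ := ⟨_, rfl⟩
  have hRle : (R : ℝ) ≤ x ^ ((1 : ℝ) / 2) / (Real.log x) ^ (U + 5) := by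
    rw [hRdef]
    exact Nat.floor_le (by positivity)
  have hRge : x ^ ((1 : ℝ) / 2) / (Real.log x) ^ (U + 5) / 2 ≤ (R : ℝ) := by
    have e1 := Nat.lt_floor_add_one (x ^ ((1 : ℝ) / 2) / (Real.log x) ^ (U + 5))
    rw [← hRdef] at e1
    linarith
  have hR1 : 1 ≤ R := by
    have e1 : (1 : ℝ) ≤ (R : ℝ) := by linarith
    exact_mod_cast e1
  have hR0 : (0 : ℝ) < R := by exact_mod_cast hR1
  have hRQ : (R : ℝ) ≤ Q := hRle.trans hQl
  have hbv' : ∑ e ∈ Icc 1 R, maxErr y e ≤ C1 * (x / (Real.log x) ^ (U + 3)) := by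
    rw [hRdef]
    have e1 := hbv x y (by linarith) hy2 hyx
    rw [show U + 3 + 2 = U + 5 by ring] at e1
    exact e1
  have hsq : 128 * (Real.log x) ^ (U + 1) ≤ Real.sqrt R := by
    refine Real.le_sqrt_of_sq_le ?_
    refine le_trans ?_ hRge
    rw [le_div_iff₀ (by norm_num : (0 : ℝ) < 2), le_div_iff₀ hP5]
    have e1 : (Real.log x) ^ (3 * U + 7) = ((Real.log x) ^ (U + 1)) ^ 2 * (Real.log x) ^ (U + 5) := by
      rw [← Real.rpow_natCast, ← Real.rpow_mul hL0.le, ← Real.rpow_add hL0]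
      congr 1
      push_cast
      ring
    rw [e1] at c1
    calc (128 * (Real.log x) ^ (U + 1)) ^ 2 * 2 * (Real.log x) ^ (U + 5)
        = 32768 * (((Real.log x) ^ (U + 1)) ^ 2 * (Real.log x) ^ (U + 5)) := by ring
      _ ≤ _ := c1
  -- the signs
  have hch : ∀ j : ℕ, ∃ c : ℕ → ℝ, (∀ d, |c d| ≤ 1) ∧
      ∑ d ∈ dyb Q (a j), |resErr y d (a j d)| ≤ (∑ p ∈ (Icc 1 ⌊y⌋₊).filter Nat.Prime, gb R Q c (a j) (p : ℤ)) +
        ∑ d ∈ dyb Q (a j), |ellp y R d (a j d) - li y / (d.totient : ℝ)| := fun j => h4 y Q R (a j)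
  choose c hc1 hc2 using hch
  -- the lower bound
  have hlow : (J.card : ℝ) * (3 / 4 * (x / (Real.log x) ^ (U + 1))) ≤
      ∑ p ∈ (Icc 1 ⌊y⌋₊).filter Nat.Prime, ∑ j ∈ J, gb R Q (c j) (a j) (p : ℤ) := by
    rw [sum_comm, ← nsmul_eq_mul, ← sum_const]
    refine sum_le_sum fun j hj => ?_
    exact Wbd_low h2 (by linarith) hy2 hyx hQ1 hR1 hRQ hL2 (by linarith) hM hbv' hsq (hc2 j) (hbig j hj)
  have hcs := Wbd_cs x y hx1 (by linarith) hyx (fun m => ∑ j ∈ J, gb R Q (c j) (a j) m)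
  have hX1 : 1 ≤ ⌊x⌋₊ := Nat.le_floor (by simpa using hx1)
  have hXx : (⌊x⌋₊ : ℝ) ≤ x := Nat.floor_le hx0'.le
  have hW0 : 0 ≤ min (x ^ ((1 : ℝ) / 2)) (x / Q) / (Real.log x) ^ (3 * U + 10) :=
    div_nonneg (le_min hs0.le (by positivity)) hP10.le
  have hwls := h5 ⌊x⌋₊ R Q (min (x ^ ((1 : ℝ) / 2)) (x / Q) / (Real.log x) ^ (3 * U + 10)) J A c a
    hX1 hR1 hQ1 hW0 hc1 hfam
  rcases Nat.eq_zero_or_pos J.card with h0 | hpos
  · rw [h0, Nat.cast_zero]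
    positivity
  have hn : (0 : ℝ) < (J.card : ℝ) := by exact_mod_cast hpos
  have hPL : (Real.log x) ^ (2 * U + 4) = ((Real.log x) ^ (U + 1)) ^ 2 * (Real.log x) ^ 2 := by
    rw [← Real.rpow_natCast, ← Real.rpow_natCast, ← Real.rpow_mul hL0.le, ← Real.rpow_add hL0]
    congr 1
    push_cast
    ring
  have hP35 : (Real.log x) ^ (3 * U + 10) =
      (((Real.log x) ^ (U + 1)) ^ 2 * (Real.log x) ^ 2) * (Real.log x * (Real.log x) ^ (U + 5)) := by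
    rw [← hPL]
    nth_rewrite 3 [← Real.rpow_one (Real.log x)]
    rw [← Real.rpow_add hL0, ← Real.rpow_add hL0]
    congr 1
    ring
  rw [hPL]
  -- the bound for the second term
  have hsum := Wbd_main (X := (⌊x⌋₊ : ℝ)) hx0' (by linarith : (0 : ℝ) < Q) hs0 hss hP5' hP10 hXx hRge
  refine Wbd_alg (W := 3 * (x * (Real.log x) ^ (U + 5) / (Real.log x) ^ (3 * U + 10))) hn hx0' hL0 hP
    hlow hcs ?_ ?_
  · refine hwls.trans ?_
    have e1 : (1 + Real.log (2 * Q)) ^ 2 ≤ (2 * Real.log x) ^ 2 := pow_le_pow_left₀ hM0 hM 2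
    have e2 : ((⌊x⌋₊ : ℝ) + Q ^ 2) * J.card +
        ((⌊x⌋₊ : ℝ) / R + Q) * (min (x ^ ((1 : ℝ) / 2)) (x / Q) / (Real.log x) ^ (3 * U + 10)) *
          (J.card : ℝ) ^ 2 ≤
        (x + Q ^ 2) * J.card +
          3 * (x * (Real.log x) ^ (U + 5) / (Real.log x) ^ (3 * U + 10)) * (J.card : ℝ) ^ 2 :=
      add_le_add (mul_le_mul_of_nonneg_right (by linarith) hn.le)
        (mul_le_mul_of_nonneg_right hsum (by positivity))
    calc 8000 * (1 + Real.log (2 * Q)) ^ 2 * (((⌊x⌋₊ : ℝ) + Q ^ 2) * J.card +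
          ((⌊x⌋₊ : ℝ) / R + Q) * (min (x ^ ((1 : ℝ) / 2)) (x / Q) / (Real.log x) ^ (3 * U + 10)) *
            (J.card : ℝ) ^ 2)
        ≤ 8000 * (2 * Real.log x) ^ 2 * (((⌊x⌋₊ : ℝ) + Q ^ 2) * J.card +
          ((⌊x⌋₊ : ℝ) / R + Q) * (min (x ^ ((1 : ℝ) / 2)) (x / Q) / (Real.log x) ^ (3 * U + 10)) *
            (J.card : ℝ) ^ 2) :=
          mul_le_mul_of_nonneg_right (mul_le_mul_of_nonneg_left e1 (by norm_num)) (by positivity)
      _ ≤ 8000 * (2 * Real.log x) ^ 2 * ((x + Q ^ 2) * J.card +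
          3 * (x * (Real.log x) ^ (U + 5) / (Real.log x) ^ (3 * U + 10)) * (J.card : ℝ) ^ 2) :=
          mul_le_mul_of_nonneg_left e2 (by positivity)
      _ = _ := by ring
  · rw [hP35]
    have e1 : 512000 * (Real.log x) ^ 2 * ((Real.log x) ^ (U + 1)) ^ 2 *
        (3 * (x * (Real.log x) ^ (U + 5) /
          (((Real.log x) ^ (U + 1)) ^ 2 * (Real.log x) ^ 2 * (Real.log x * (Real.log x) ^ (U + 5))))) =
        1536000 * x / Real.log x := by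
      field_simp
      ring
    rw [e1, div_le_iff₀ hL0]
    nlinarith

end Pool.Agent.Lib.KF
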