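import Pool.Agent.Lib.KF.SpecD

namespace Pool.Agent.Lib.KF

open Finset Pool.Agent.Lib.EH3 Pool.Agent.Results.MP_00e23e_nt

private lemma Wdf_exists (Q y : ℝ) (hy : 0 < y) : ∃ I : ℕ, Q / 2 ^ I ≤ y := by
  obtain ⟨n, hn⟩ := pow_unbounded_of_one_lt (Q / y) (by norm_num : (1 : ℝ) < 2)
  refine ⟨n, ?_⟩
  rw [div_le_iff₀ (by positivity)]
  rw [div_lt_iff₀ hy] at hn
  linarith

/-- `B log L ≤ (2/11) L` for `L ≥ 121 B^2` -/
private lemma Wdf_loglog {B L : ℝ} (hB : 0 < B) (hL : 121 * B ^ 2 ≤ L) :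
    B * Real.log L ≤ 2 / 11 * L := by
  have hL0 : 0 < L := lt_of_lt_of_le (by positivity) hL
  have h1 : Real.log L ≤ 2 * Real.sqrt L := by
    have h := Real.log_le_rpow_div hL0.le (by norm_num : (0 : ℝ) < 1 / 2)
    rw [← Real.sqrt_eq_rpow] at h
    linarith
  have h2 : 11 * B ≤ Real.sqrt L := by
    apply Real.le_sqrt_of_sq_le
    nlinarith
  have h3 : Real.sqrt L * Real.sqrt L = L := Real.mul_self_sqrt hL0.le
  have h4 : 0 ≤ Real.sqrt L := Real.sqrt_nonneg L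
  have h5 : B * Real.log L ≤ B * (2 * Real.sqrt L) := mul_le_mul_of_nonneg_left h1 hB.le
  have h6 : 11 * B * Real.sqrt L ≤ Real.sqrt L * Real.sqrt L := mul_le_mul_of_nonneg_right h2 h4
  nlinarith

private lemma Wdf_count {x Q B : ℝ} (hB : 0 < B) (hx : 1 < x) (hL : 121 * B ^ 2 ≤ Real.log x)
    (hQ : Q ≤ x) (k : ℕ)
    (hk : 2 * (x ^ ((1 : ℝ) / 2) / (Real.log x) ^ B) < Q / 2 ^ k) :
    ((k + 1 : ℕ) : ℝ) ≤ Real.log x := by
  have hx0 : 0 < x := by linarith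
  have hL0 : 0 < Real.log x := Real.log_pos hx
  have h2k : (0 : ℝ) < 2 ^ k := by positivity
  rw [lt_div_iff₀ h2k] at hk
  have hx2 : 0 < x ^ ((1 : ℝ) / 2) := Real.rpow_pos_of_pos hx0 _
  have hLB : 0 < (Real.log x) ^ B := Real.rpow_pos_of_pos hL0 _
  have hy : 0 < x ^ ((1 : ℝ) / 2) / (Real.log x) ^ B := div_pos hx2 hLB
  have h1 : x ^ ((1 : ℝ) / 2) / (Real.log x) ^ B * 2 ^ (k + 1) < x := by
    rw [pow_succ]
    linarith
  have h2 : Real.log (x ^ ((1 : ℝ) / 2) / (Real.log x) ^ B * 2 ^ (k + 1)) < Real.log x :=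
    Real.log_lt_log (by positivity) h1
  rw [Real.log_mul hy.ne' (by positivity), Real.log_div hx2.ne' hLB.ne', Real.log_rpow hx0,
    Real.log_rpow hL0, Real.log_pow] at h2
  have h3 := Real.log_two_gt_d9
  have hk0 : (0 : ℝ) ≤ ((k + 1 : ℕ) : ℝ) := Nat.cast_nonneg _
  have h4 : ((k + 1 : ℕ) : ℝ) * 0.69 ≤ ((k + 1 : ℕ) : ℝ) * Real.log 2 :=
    mul_le_mul_of_nonneg_left (by linarith) hk0
  have h5 := Wdf_loglog hB hL
  nlinarith

theorem tWdf : WdfStmt := by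
  classical
  intro B hB
  refine ⟨Real.exp (3 + 121 * B ^ 2), ?_, ?_⟩
  · have h1 := Real.add_one_le_exp (3 + 121 * B ^ 2)
    have h2 : 0 ≤ 121 * B ^ 2 := by positivity
    linarith
  intro x Q hx hQ1 hQx
  have hx0 : 0 < x := lt_of_lt_of_le (Real.exp_pos _) hx
  have hL : 3 + 121 * B ^ 2 ≤ Real.log x := (Real.le_log_iff_exp_le hx0).2 hx
  have hB2 : 0 ≤ 121 * B ^ 2 := by positivity
  have hL0 : 0 < Real.log x := by linarith
  have hx1 : 1 < x := by
    by_contra h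
    have := Real.log_nonpos hx0.le (not_lt.1 h)
    linarith
  have hx2 : 0 < x ^ ((1 : ℝ) / 2) := Real.rpow_pos_of_pos hx0 _
  have hLB : 0 < (Real.log x) ^ B := Real.rpow_pos_of_pos hL0 _
  have hy : 0 < x ^ ((1 : ℝ) / 2) / (Real.log x) ^ B := div_pos hx2 hLB
  have hex := Wdf_exists Q (2 * (x ^ ((1 : ℝ) / 2) / (Real.log x) ^ B)) (by positivity)
  have hI := Nat.find_spec hex
  have hmin : ∀ i < Nat.find hex, 2 * (x ^ ((1 : ℝ) / 2) / (Real.log x) ^ B) < Q / 2 ^ i := by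
    intro i hi
    have := Nat.find_min hex hi
    exact lt_of_not_ge this
  refine ⟨Nat.find hex, ?_, ?_, ?_⟩
  · rcases Nat.eq_zero_or_pos (Nat.find hex) with h0 | h0
    · rw [h0, Nat.cast_zero]
      exact hL0.le
    · obtain ⟨k, hk⟩ := Nat.exists_eq_succ_of_ne_zero h0.ne'
      have h1 := Wdf_count hB hx1 (by linarith) hQx k (hmin k (by omega))
      rw [hk]
      exact h1
  · intro i hi
    have h1 := hmin i hi
    have h3 : Q / 2 ^ (i + 1) = Q / 2 ^ i / 2 := by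
      rw [pow_succ, div_div]
    rw [h3]
    linarith
  · intro d hd
    rw [mem_Icc] at hd
    have hdQ : (d : ℝ) ≤ Q := (Nat.le_floor_iff (by linarith)).1 hd.2
    have hnn : 0 ≤ x ^ ((1 : ℝ) / 2) / (Real.log x) ^ (B - 1) :=
      div_nonneg hx2.le (Real.rpow_nonneg hL0.le _)
    by_cases hdx : (d : ℝ) ≤ x ^ ((1 : ℝ) / 2) / (Real.log x) ^ (B - 1)
    · left
      rw [mem_Icc]
      exact ⟨hd.1, (Nat.le_floor_iff hnn).2 hdx⟩
    · right
      have h1 : 2 * (x ^ ((1 : ℝ) / 2) / (Real.log x) ^ B) ≤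
          x ^ ((1 : ℝ) / 2) / (Real.log x) ^ (B - 1) := by
        rw [Real.rpow_sub_one hL0.ne']
        have h5 : x ^ ((1 : ℝ) / 2) / ((Real.log x) ^ B / Real.log x) =
            Real.log x * (x ^ ((1 : ℝ) / 2) / (Real.log x) ^ B) := by
          field_simp
        rw [h5]
        exact mul_le_mul_of_nonneg_right (by linarith) hy.le
      have h2 : Q / 2 ^ (Nat.find hex) < d := by linarith [not_le.1 hdx]
      have hex2 : ∃ j : ℕ, Q / 2 ^ j < (d : ℝ) := ⟨_, h2⟩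
      have hj := Nat.find_spec hex2
      have hj1 : Nat.find hex2 ≤ Nat.find hex := Nat.find_min' hex2 h2
      have hj0 : Nat.find hex2 ≠ 0 := by
        intro h0
        rw [h0, pow_zero, div_one] at hj
        linarith
      obtain ⟨i, hi⟩ := Nat.exists_eq_succ_of_ne_zero hj0
      have hi1 : ¬ Q / 2 ^ i < (d : ℝ) := Nat.find_min hex2 (by omega)
      rw [hi, Nat.succ_eq_add_one] at hj
      refine ⟨i, by omega, ?_⟩
      rw [mem_dy (by positivity)]
      refine ⟨hj, ?_⟩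
      have h3 : 2 * (Q / 2 ^ (i + 1)) = Q / 2 ^ i := by
        rw [pow_succ]
        field_simp
      rw [h3]
      exact not_lt.1 hi1

end Pool.Agent.Lib.KF
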