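import Pool.Agent.Lib.KF.SpecD

/-!
MP_00e23e_nt, directory Lib/KF, module Wfd: the theorem for families with few differences from the dyadic blocks.
-/

namespace Pool.Agent.Lib.KF

open Finset Pool.Agent.Lib.EH3 Pool.Agent.Results.MP_00e23e_nt

private lemma Wfd_biU {ι : Type*} (I : Finset ι) (T : ι → Finset ℕ) (f : ℕ → ℝ) (hf : ∀ d, 0 ≤ f d) :
    ∑ d ∈ I.biUnion T, f d ≤ ∑ i ∈ I, ∑ d ∈ T i, f d := by
  classical
  have h1 : ∀ d ∈ I.biUnion T, f d ≤ ∑ i ∈ I, if d ∈ T i then f d else 0 := by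
    intro d hd
    obtain ⟨i, hi, hdi⟩ := Finset.mem_biUnion.1 hd
    have h := Finset.single_le_sum (f := fun i => if d ∈ T i then f d else 0)
      (fun j _ => by
        show 0 ≤ if d ∈ T j then f d else 0
        split_ifs
        · exact hf d
        · exact le_rfl) hi
    simpa [hdi] using h
  refine (Finset.sum_le_sum h1).trans ?_
  rw [Finset.sum_comm]
  refine Finset.sum_le_sum fun i _ => ?_
  rw [← Finset.sum_filter]
  refine Finset.sum_le_sum_of_subset_of_nonneg ?_ fun d _ _ => hf d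
  intro d hd
  exact (Finset.mem_filter.1 hd).2

private lemma Wfd_geo (I : ℕ) : ∑ i ∈ range I, ((1 : ℝ) / 2 ^ (i + 1)) ^ 2 ≤ 1 - 1 / 2 ^ I := by
  induction I with
  | zero => simp
  | succ n ih =>
    rw [Finset.sum_range_succ]
    have h1 : (0 : ℝ) < 1 / 2 ^ (n + 1) := by positivity
    have h2 : (1 : ℝ) / 2 ^ (n + 1) ≤ 1 := by
      rw [div_le_one (by positivity)]
      exact one_le_pow₀ (by norm_num)
    have h3 : ((1 : ℝ) / 2 ^ (n + 1)) ^ 2 ≤ 1 / 2 ^ (n + 1) := by nlinarith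
    have h4 : (1 : ℝ) / 2 ^ n = 2 * (1 / 2 ^ (n + 1)) := by
      rw [pow_succ]
      field_simp
    linarith

private lemma Wfd_blocks (x Q : ℝ) (hx : 0 < x) (I : ℕ) :
    ∑ i ∈ range I, (1 + (Q / 2 ^ (i + 1)) ^ 2 / x) ≤ I + Q ^ 2 / x := by
  have h1 : ∀ i ∈ range I, (1 + (Q / 2 ^ (i + 1)) ^ 2 / x) =
      1 + (Q ^ 2 / x) * ((1 : ℝ) / 2 ^ (i + 1)) ^ 2 := by
    intro i _
    ring
  rw [Finset.sum_congr rfl h1, Finset.sum_add_distrib, Finset.sum_const, Finset.card_range,
    nsmul_eq_mul, mul_one, ← Finset.mul_sum]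
  have h2 : ∑ i ∈ range I, ((1 : ℝ) / 2 ^ (i + 1)) ^ 2 ≤ 1 := by
    have h3 := Wfd_geo I
    have h4 : (0 : ℝ) ≤ 1 / 2 ^ I := by positivity
    linarith
  have h3 : 0 ≤ Q ^ 2 / x := by positivity
  have h4 := mul_le_mul_of_nonneg_left h2 h3
  linarith

private lemma Wfd_harm (N : ℕ) : ∑ d ∈ Icc 1 N, 1 / (d : ℝ) ≤ 1 + Real.log N := by
  have h := harmonic_le_one_add_log N
  rw [harmonic_eq_sum_Icc] at h
  push_cast at h
  simpa [one_div] using h

private lemma Wfd_phi (x Q : ℝ) (hQ1 : 1 ≤ Q) (hQ : Q ≤ x) (hL : 1 ≤ Real.log x)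
    (F : Finset ℕ) (hF : F ⊆ Icc 1 ⌊Q⌋₊) : ∑ d ∈ F, 1 / (d.totient : ℝ) ≤ 6 * (Real.log x) ^ 2 := by
  have hfl : (⌊Q⌋₊ : ℝ) ≤ Q := Nat.floor_le (by linarith)
  have hfl1 : (1 : ℝ) ≤ (⌊Q⌋₊ : ℝ) := by
    have : 1 ≤ ⌊Q⌋₊ := by rw [Nat.one_le_floor_iff]; exact hQ1
    exact_mod_cast this
  have h1 : ∀ d ∈ Icc 1 ⌊Q⌋₊, 1 / (d.totient : ℝ) ≤ 3 * Real.log x * (1 / (d : ℝ)) := by
    intro d hd
    obtain ⟨hd1, hd2⟩ := Finset.mem_Icc.1 hd
    have hd0 : (0 : ℝ) < d := by exact_mod_cast hd1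
    have hph : (0 : ℝ) < (d.totient : ℝ) := by exact_mod_cast Nat.totient_pos.2 hd1
    have e1 := Pool.Agent.Lib.EH.le_totient d
    have e2 := Pool.Agent.Lib.EH.card_primeFactors_le hd1
    have hdx : (d : ℝ) ≤ x := by
      have : (d : ℝ) ≤ (⌊Q⌋₊ : ℝ) := by exact_mod_cast hd2
      linarith
    have e3 : Real.log d ≤ Real.log x := Real.log_le_log hd0 hdx
    have e4 : (d.primeFactors.card : ℝ) + 1 ≤ 3 * Real.log x := by linarith
    have e5 : (d : ℝ) ≤ 3 * Real.log x * d.totient := e1.trans (mul_le_mul_of_nonneg_right e4 hph.le)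
    rw [mul_one_div, div_le_div_iff₀ hph hd0, one_mul]
    exact e5
  calc ∑ d ∈ F, 1 / (d.totient : ℝ) ≤ ∑ d ∈ Icc 1 ⌊Q⌋₊, 1 / (d.totient : ℝ) :=
        Finset.sum_le_sum_of_subset_of_nonneg hF fun _ _ _ => by positivity
    _ ≤ ∑ d ∈ Icc 1 ⌊Q⌋₊, 3 * Real.log x * (1 / (d : ℝ)) := Finset.sum_le_sum h1
    _ = 3 * Real.log x * ∑ d ∈ Icc 1 ⌊Q⌋₊, 1 / (d : ℝ) := by rw [Finset.mul_sum]
    _ ≤ 3 * Real.log x * (2 * Real.log x) := by
        refine mul_le_mul_of_nonneg_left ?_ (by linarith)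
        have e1 := Wfd_harm ⌊Q⌋₊
        have e2 : Real.log (⌊Q⌋₊ : ℝ) ≤ Real.log x := Real.log_le_log (by linarith) (by linarith)
        linarith
    _ = 6 * (Real.log x) ^ 2 := by ring

private lemma Wfd_large (U : ℝ) : ∃ x2 : ℝ, 3 ≤ x2 ∧ ∀ x : ℝ, x2 ≤ x →
    4 * (Real.log x) ^ (U + 3) ≤ x := by
  have h := (isLittleO_log_rpow_rpow_atTop (U + 3) (zero_lt_one' ℝ)).def
    (show (0 : ℝ) < 1 / 4 by norm_num)
  obtain ⟨x2, hx2⟩ := Filter.eventually_atTop.1 h
  refine ⟨max x2 3, le_max_right _ _, fun x hx => ?_⟩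
  have hx3 : 3 ≤ x := (le_max_right _ _).trans hx
  have h1 := hx2 x ((le_max_left _ _).trans hx)
  have hl : 0 ≤ Real.log x := Real.log_nonneg (by linarith)
  rw [Real.rpow_one, Real.norm_eq_abs, Real.norm_eq_abs, abs_of_nonneg (Real.rpow_nonneg hl _),
    abs_of_nonneg (show (0 : ℝ) ≤ x by linarith)] at h1
  linarith

/-- the theorem for families with few differences -/
theorem tWfd (h1 : RseStmt) (h2 : BvdStmt) (h3 : WbdStmt) (h4 : GrdStmt) (h5 : WdfStmt) : WfdStmt := by
  classical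
  intro U hU
  obtain ⟨C1, hC1, hV⟩ := h2 (2 * U + 5 + 2) (by linarith)
  obtain ⟨C2, x0, hC2, hx0, hK⟩ := h3 (2 * U + 5) (by linarith)
  obtain ⟨x1, hx1, hD⟩ := h5 (2 * U + 5 + 5) (by linarith)
  obtain ⟨x2, hx2, hG4⟩ := Wfd_large U
  set X : ℝ := max (max x0 x1) x2 with hXdef
  have hX3 : 3 ≤ X := le_max_of_le_right hx2
  have hXL : 0 ≤ (Real.log X) ^ U := Real.rpow_nonneg (Real.log_nonneg (by linarith)) _
  refine ⟨2 * X * (Real.log X) ^ U + 2 * C2 + (2 * (C1 + 1) + 12), ?_⟩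
  intro x Q J A hx hQ1 hQx hfam
  have hCX : 0 ≤ 2 * X * (Real.log X) ^ U := by positivity
  have hx0' : 0 < x := by linarith
  have hlog1 : 1 ≤ Real.log x := by
    have h : Real.exp 1 ≤ x := by
      have := Real.exp_one_lt_d9
      linarith
    rw [← Real.log_exp 1]
    exact Real.log_le_log (Real.exp_pos 1) h
  have hlog0 : 0 < Real.log x := by linarith
  have hQ0 : 0 < Q := by linarith
  have hq0 : 0 ≤ Q ^ 2 / x := by positivity
  have hqU : 0 ≤ x / (Real.log x) ^ U := by positivity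
  rcases lt_or_ge x X with hlt | hge
  · -- small x
    refine ⟨∅, Finset.empty_subset _, ?_, ?_⟩
    · rw [Finset.card_empty, Nat.cast_zero]
      positivity
    · intro j _ _ y a hy _
      have e1 : ∀ d ∈ (Icc 1 ⌊Q⌋₊).filter (fun d : ℕ => Int.gcd (a d) d = 1),
          |resErr (y d) d (a d)| ≤ 2 * x := by
        intro d hd
        obtain ⟨hd1, hd2⟩ := Finset.mem_filter.1 hd
        have f1 := h1 (y d) d (a d) (Finset.mem_Icc.1 hd1).1 hd2
        have f2 := Pool.Agent.Lib.EH.maxErr_le (hy d).1 d (Finset.mem_Icc.1 hd1).1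
        have f3 := (hy d).2
        linarith
      have e2 : ((((Icc 1 ⌊Q⌋₊).filter (fun d : ℕ => Int.gcd (a d) d = 1)).card : ℕ) : ℝ) ≤ x := by
        have f1 : ((Icc 1 ⌊Q⌋₊).filter (fun d : ℕ => Int.gcd (a d) d = 1)).card ≤ ⌊Q⌋₊ := by
          refine (Finset.card_filter_le _ _).trans ?_
          rw [Nat.card_Icc, Nat.add_sub_cancel]
        have f2 : ((((Icc 1 ⌊Q⌋₊).filter (fun d : ℕ => Int.gcd (a d) d = 1)).card : ℕ) : ℝ) ≤
            (⌊Q⌋₊ : ℝ) := by exact_mod_cast f1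
        have f3 : (⌊Q⌋₊ : ℝ) ≤ Q := Nat.floor_le hQ0.le
        linarith
      have e3 : ∑ d ∈ (Icc 1 ⌊Q⌋₊).filter (fun d : ℕ => Int.gcd (a d) d = 1),
          |resErr (y d) d (a d)| ≤ x * (2 * x) := by
        refine (Finset.sum_le_sum e1).trans ?_
        rw [Finset.sum_const, nsmul_eq_mul]
        exact mul_le_mul_of_nonneg_right e2 (by linarith)
      have e4 : (Real.log x) ^ U ≤ (Real.log X) ^ U :=
        Real.rpow_le_rpow hlog0.le (Real.log_le_log hx0' hlt.le) hU.le
      have e5 : x * (2 * x) ≤ 2 * X * (Real.log X) ^ U * (x / (Real.log x) ^ U) := by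
        have hp : 0 < (Real.log x) ^ U := Real.rpow_pos_of_pos hlog0 U
        rw [← mul_div_assoc, le_div_iff₀ hp]
        calc x * (2 * x) * (Real.log x) ^ U ≤ x * (2 * X) * (Real.log X) ^ U := by
              refine mul_le_mul ?_ e4 hp.le (by positivity)
              exact mul_le_mul_of_nonneg_left (by linarith) hx0'.le
          _ = 2 * X * (Real.log X) ^ U * x := by ring
      refine e3.trans (e5.trans ?_)
      refine mul_le_mul_of_nonneg_right ?_ hqU
      linarith
  · -- large x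
    have hgx0 : x0 ≤ x := le_trans (le_max_left _ _) (le_trans (le_max_left _ _) hge)
    have hgx1 : x1 ≤ x := le_trans (le_max_right _ _) (le_trans (le_max_left _ _) hge)
    have hgx2 : x2 ≤ x := le_trans (le_max_right _ _) hge
    obtain ⟨I, hI, hIQ, hcov⟩ := hD x Q hgx1 hQ1 hQx
    -- the grid
    set G : ℕ := ⌈(Real.log x) ^ (U + 3)⌉₊ with hGdef
    have hLU3 : 1 ≤ (Real.log x) ^ (U + 3) := Real.one_le_rpow hlog1 (by linarith)
    have hGlo : (Real.log x) ^ (U + 3) ≤ G := Nat.le_ceil _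
    have hGhi : (G : ℝ) ≤ 2 * (Real.log x) ^ (U + 3) := by
      have := Nat.ceil_lt_add_one (show 0 ≤ (Real.log x) ^ (U + 3) by linarith)
      rw [hGdef]
      linarith
    have hG0 : (0 : ℝ) < G := by linarith
    have hG1 : 1 ≤ G := by exact_mod_cast hG0
    have hxG : 2 ≤ x / G := by
      rw [le_div_iff₀ hG0]
      have := hG4 x hgx2
      linarith
    have hyg : ∀ g ∈ Icc 1 G, 2 ≤ (g : ℝ) * x / G ∧ (g : ℝ) * x / G ≤ x := by
      intro g hg
      obtain ⟨hg1, hg2⟩ := Finset.mem_Icc.1 hg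
      have g1 : (1 : ℝ) ≤ g := by exact_mod_cast hg1
      have g2 : (g : ℝ) ≤ G := by exact_mod_cast hg2
      constructor
      · have : x / G ≤ g * x / G := by
          apply div_le_div_of_nonneg_right _ hG0.le
          nlinarith
        linarith
      · rw [div_le_iff₀ hG0]
        nlinarith
    set Qi : ℕ → ℝ := fun i => Q / 2 ^ (i + 1) with hQdef
    have hQi0 : ∀ i, 0 < Qi i := fun i => by
      rw [hQdef]
      positivity
    have hQiQ : ∀ i, Qi i ≤ Q := fun i => div_le_self hQ0.le (one_le_pow₀ (by norm_num))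
    set P : ℕ → ℕ → ℕ → Prop := fun i g j => ∃ a : ℕ → ℤ, (∀ d, a d ∈ A j) ∧
      x / (Real.log x) ^ (2 * U + 5 + 1) < ∑ d ∈ dyb (Qi i) a, |resErr ((g : ℝ) * x / G) d (a d)|
      with hPdef
    set T : ℕ → ℕ → Finset ℕ := fun i g => J.filter (P i g) with hTdef
    have hTJ : ∀ i g, T i g ⊆ J := fun i g => Finset.filter_subset _ _
    have hcT : ∀ i ∈ range I, ∀ g ∈ Icc 1 G, ((T i g).card : ℝ) ≤
        C2 * ((1 + (Q / 2 ^ (i + 1)) ^ 2 / x) * (Real.log x) ^ (2 * (2 * U + 5) + 4)) := by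
      intro i hi g hg
      have hi' := Finset.mem_range.1 hi
      have hch : ∀ j ∈ T i g, P i g j := fun j hj => (Finset.mem_filter.1 hj).2
      set av : ℕ → ℕ → ℤ := fun j => if h : P i g j then h.choose else fun _ => 0 with hav
      have hav1 : ∀ j ∈ T i g, (∀ d, av j d ∈ A j) ∧ x / (Real.log x) ^ (2 * U + 5 + 1) <
          ∑ d ∈ dyb (Qi i) (av j), |resErr ((g : ℝ) * x / G) d (av j d)| := by
        intro j hj
        have hp := hch j hj
        have he : av j = hp.choose := by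
          rw [hav]
          exact dif_pos hp
        rw [he]
        exact hp.choose_spec
      refine hK x ((g : ℝ) * x / G) (Qi i) (T i g) A av hgx0 (hyg g hg).1 (hyg g hg).2 (hIQ i hi')
        ((hQiQ i).trans hQx) ⟨fun j hj => (hav1 j hj).1, ?_⟩ (fun j hj => (hav1 j hj).2)
      intro j hj k hk hjk
      obtain ⟨f1, f2⟩ := hfam j (hTJ i g hj) k (hTJ i g hk) hjk
      refine ⟨f1, f2.trans ?_⟩
      rw [show 3 * (2 * U + 5) + 10 = 6 * U + 25 by ring]
      refine div_le_div_of_nonneg_right ?_ (by positivity)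
      refine min_le_min le_rfl ?_
      exact div_le_div_of_nonneg_left hx0'.le (hQi0 i) (hQiQ i)
    refine ⟨((range I) ×ˢ (Icc 1 G)).biUnion fun w => T w.1 w.2, ?_, ?_, ?_⟩
    · intro j hj
      obtain ⟨w, _, hw⟩ := Finset.mem_biUnion.1 hj
      exact hTJ _ _ hw
    · -- the number of exceptions
      have hc1 : ((((range I) ×ˢ (Icc 1 G)).biUnion fun w => T w.1 w.2).card : ℝ) ≤
          ∑ w ∈ (range I) ×ˢ (Icc 1 G), ((T w.1 w.2).card : ℝ) := by
        exact_mod_cast Finset.card_biUnion_le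
      rw [Finset.sum_product] at hc1
      have hp4 : 0 ≤ (Real.log x) ^ (2 * (2 * U + 5) + 4) := by positivity
      have hc2 : ∑ i ∈ range I, ∑ g ∈ Icc 1 G, ((T i g).card : ℝ) ≤
          G * (C2 * ((I + Q ^ 2 / x) * (Real.log x) ^ (2 * (2 * U + 5) + 4))) := by
        have e1 : ∀ i ∈ range I, ∑ g ∈ Icc 1 G, ((T i g).card : ℝ) ≤
            G * (C2 * ((1 + (Q / 2 ^ (i + 1)) ^ 2 / x) * (Real.log x) ^ (2 * (2 * U + 5) + 4))) := by
          intro i hi
          refine (Finset.sum_le_sum fun g hg => hcT i hi g hg).trans ?_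
          rw [Finset.sum_const, Nat.card_Icc, nsmul_eq_mul, Nat.add_sub_cancel]
        refine (Finset.sum_le_sum e1).trans ?_
        rw [← Finset.mul_sum, ← Finset.mul_sum, ← Finset.sum_mul]
        exact mul_le_mul_of_nonneg_left (mul_le_mul_of_nonneg_left
          (mul_le_mul_of_nonneg_right (Wfd_blocks x Q hx0' I) hp4) hC2.le) hG0.le
      have hc3 : (I + Q ^ 2 / x) * (Real.log x) ^ (2 * (2 * U + 5) + 4) ≤
          (1 + Q ^ 2 / x) * (Real.log x) ^ (2 * (2 * U + 5) + 5) := by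
        rw [show 2 * (2 * U + 5) + 5 = (2 * (2 * U + 5) + 4) + 1 by ring,
          Real.rpow_add_one hlog0.ne', mul_comm ((Real.log x) ^ (2 * (2 * U + 5) + 4)) (Real.log x),
          ← mul_assoc]
        refine mul_le_mul_of_nonneg_right ?_ hp4
        nlinarith
      have hc4 : (Real.log x) ^ (U + 3) * (Real.log x) ^ (2 * (2 * U + 5) + 5) =
          (Real.log x) ^ (5 * U + 18) := by
        rw [← Real.rpow_add hlog0]
        congr 1
        ring
      have hp5 : 0 ≤ (Real.log x) ^ (2 * (2 * U + 5) + 5) := by positivity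
      have hp0 : 0 ≤ (1 + Q ^ 2 / x) * (Real.log x) ^ (5 * U + 18) := by positivity
      refine hc1.trans (hc2.trans ?_)
      calc (G : ℝ) * (C2 * ((I + Q ^ 2 / x) * (Real.log x) ^ (2 * (2 * U + 5) + 4))) ≤
            (2 * (Real.log x) ^ (U + 3)) * (C2 * ((1 + Q ^ 2 / x) *
              (Real.log x) ^ (2 * (2 * U + 5) + 5))) := by
            refine mul_le_mul hGhi (mul_le_mul_of_nonneg_left hc3 hC2.le) (by positivity)
              (by positivity)
        _ = 2 * C2 * ((1 + Q ^ 2 / x) * ((Real.log x) ^ (U + 3) *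
              (Real.log x) ^ (2 * (2 * U + 5) + 5))) := by ring
        _ = 2 * C2 * ((1 + Q ^ 2 / x) * (Real.log x) ^ (5 * U + 18)) := by rw [hc4]
        _ ≤ _ := mul_le_mul_of_nonneg_right (by linarith) hp0
    · -- the good sets
      intro j hj hjS y a hy ha
      set F := (Icc 1 ⌊Q⌋₊).filter (fun d : ℕ => Int.gcd (a d) d = 1) with hF
      have hFs : F ⊆ Icc 1 ⌊Q⌋₊ := Finset.filter_subset _ _
      have hq6 : 0 ≤ x / (Real.log x) ^ (2 * U + 5 + 1) := by positivity
      have hgood : ∀ i ∈ range I, ∀ g ∈ Icc 1 G,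
          ∑ d ∈ dyb (Qi i) a, |resErr ((g : ℝ) * x / G) d (a d)| ≤
            x / (Real.log x) ^ (2 * U + 5 + 1) := by
        intro i hi g hg
        by_contra hcon
        rw [not_le] at hcon
        exact hjS (Finset.mem_biUnion.2 ⟨(i, g), Finset.mem_product.2 ⟨hi, hg⟩,
          Finset.mem_filter.2 ⟨hj, a, ha, hcon⟩⟩)
      -- one point of the grid
      have hone : ∀ g ∈ Icc 1 G, ∑ d ∈ F, |resErr ((g : ℝ) * x / G) d (a d)| ≤
          (C1 + Real.log x) * (x / (Real.log x) ^ (2 * U + 5 + 1)) := by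
        intro g hg
        obtain ⟨hy1, hy2⟩ := hyg g hg
        set yg : ℝ := (g : ℝ) * x / G with hygdef
        set E := (Icc 1 ⌊x ^ ((1 : ℝ) / 2) / (Real.log x) ^ (2 * U + 5 + 5 - 1)⌋₊).filter (fun d : ℕ => Int.gcd (a d) d = 1) with hE
        have hsub : F ⊆ E ∪ (range I).biUnion (fun i => dyb (Qi i) a) := by
          intro d hd
          obtain ⟨hd1, hd2⟩ := Finset.mem_filter.1 hd
          rw [Finset.mem_union]
          rcases hcov d hd1 with h | ⟨i, hi, h⟩
          · exact Or.inl (Finset.mem_filter.2 ⟨h, hd2⟩)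
          · exact Or.inr (Finset.mem_biUnion.2 ⟨i, Finset.mem_range.2 hi,
              Finset.mem_filter.2 ⟨h, hd2⟩⟩)
        have hs1 : ∑ d ∈ F, |resErr yg d (a d)| ≤ ∑ d ∈ E, |resErr yg d (a d)| +
            ∑ d ∈ (range I).biUnion (fun i => dyb (Qi i) a), |resErr yg d (a d)| := by
          refine (Finset.sum_le_sum_of_subset_of_nonneg hsub fun _ _ _ => abs_nonneg _).trans ?_
          rw [← Finset.sum_union_inter]
          have : 0 ≤ ∑ d ∈ E ∩ (range I).biUnion (fun i => dyb (Qi i) a), |resErr yg d (a d)| :=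
            Finset.sum_nonneg fun _ _ => abs_nonneg _
          linarith
        have hs2 : ∑ d ∈ E, |resErr yg d (a d)| ≤ C1 * (x / (Real.log x) ^ (2 * U + 5 + 1)) := by
          have e0 : C1 * (x / (Real.log x) ^ (2 * U + 5 + 2)) ≤
              C1 * (x / (Real.log x) ^ (2 * U + 5 + 1)) := by
            refine mul_le_mul_of_nonneg_left ?_ hC1.le
            refine div_le_div_of_nonneg_left hx0'.le (Real.rpow_pos_of_pos hlog0 _) ?_
            exact Real.rpow_le_rpow_of_exponent_le hlog1 (by linarith)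
          refine le_trans ?_ ((hV x yg hx hy1 hy2).trans e0)
          rw [show 2 * U + 5 + 2 + 2 = 2 * U + 5 + 5 - 1 by ring]
          refine (Finset.sum_le_sum (g := fun d => maxErr yg d) fun d hd => ?_).trans
            (Finset.sum_le_sum_of_subset_of_nonneg (Finset.filter_subset _ _)
              fun d _ _ => Pool.Agent.Lib.EH.maxErr_nonneg yg d)
          obtain ⟨hd1, hd2⟩ := Finset.mem_filter.1 hd
          exact h1 yg d (a d) (Finset.mem_Icc.1 hd1).1 hd2
        have hs3 : ∑ d ∈ (range I).biUnion (fun i => dyb (Qi i) a), |resErr yg d (a d)| ≤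
            Real.log x * (x / (Real.log x) ^ (2 * U + 5 + 1)) := by
          refine (Wfd_biU _ _ _ fun _ => abs_nonneg _).trans
            ((Finset.sum_le_sum fun i hi => hgood i hi g hg).trans ?_)
          rw [Finset.sum_const, nsmul_eq_mul, Finset.card_range]
          exact mul_le_mul_of_nonneg_right hI hq6
        linarith
      -- the grid
      have hgrid : ∀ d ∈ F, |resErr (y d) d (a d)| ≤
          (∑ g ∈ Icc 1 G, |resErr ((g : ℝ) * x / G) d (a d)|) + 2 * x / G * (1 / (d.totient : ℝ)) := by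
        intro d hd
        have e := h4 x (y d) G d (a d) hG1 hxG (hy d).1 (hy d).2 (Finset.mem_Icc.1 (hFs hd)).1
        refine e.trans (le_of_eq ?_)
        rw [mul_one_div, div_div]
      have hpow : (Real.log x) ^ (U + 3) * (Real.log x * (Real.log x) ^ U) ≤
          (Real.log x) ^ (2 * U + 5 + 1) := by
        calc (Real.log x) ^ (U + 3) * (Real.log x * (Real.log x) ^ U) =
              (Real.log x) ^ (U + 3) * (Real.log x) ^ (U + 1) := by
              rw [Real.rpow_add_one hlog0.ne', mul_comm (Real.log x)]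
          _ = (Real.log x) ^ (U + 3 + (U + 1)) := by rw [← Real.rpow_add hlog0]
          _ ≤ (Real.log x) ^ (2 * U + 5 + 1) :=
              Real.rpow_le_rpow_of_exponent_le hlog1 (by linarith)
      have hLUp : 0 < (Real.log x) ^ U := Real.rpow_pos_of_pos hlog0 U
      have hL6p : 0 < (Real.log x) ^ (2 * U + 5 + 1) := Real.rpow_pos_of_pos hlog0 _
      have hfirst : (G : ℝ) * ((C1 + Real.log x) * (x / (Real.log x) ^ (2 * U + 5 + 1))) ≤
          2 * (C1 + 1) * (x / (Real.log x) ^ U) := by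
        have e1 : C1 + Real.log x ≤ (C1 + 1) * Real.log x := by nlinarith
        calc (G : ℝ) * ((C1 + Real.log x) * (x / (Real.log x) ^ (2 * U + 5 + 1))) ≤
              (2 * (Real.log x) ^ (U + 3)) * (((C1 + 1) * Real.log x) *
                (x / (Real.log x) ^ (2 * U + 5 + 1))) :=
              mul_le_mul hGhi (mul_le_mul_of_nonneg_right e1 hq6) (by positivity) (by positivity)
          _ = 2 * (C1 + 1) * (x * ((Real.log x) ^ (U + 3) * Real.log x /
                (Real.log x) ^ (2 * U + 5 + 1))) := by ring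
          _ ≤ 2 * (C1 + 1) * (x * (1 / (Real.log x) ^ U)) := by
              refine mul_le_mul_of_nonneg_left (mul_le_mul_of_nonneg_left ?_ hx0'.le) (by positivity)
              rw [div_le_div_iff₀ hL6p hLUp, one_mul, mul_assoc]
              exact hpow
          _ = 2 * (C1 + 1) * (x / (Real.log x) ^ U) := by rw [mul_one_div]
      have hsecond : 2 * x / G * (6 * (Real.log x) ^ 2) ≤ 12 * (x / (Real.log x) ^ U) := by
        have e2 : (Real.log x) ^ U * (Real.log x) ^ 2 ≤ G := by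
          refine le_trans ?_ hGlo
          calc (Real.log x) ^ U * (Real.log x) ^ 2 = (Real.log x) ^ (U + 2) := by
                rw [Real.rpow_add hlog0, Real.rpow_two]
            _ ≤ (Real.log x) ^ (U + 3) := Real.rpow_le_rpow_of_exponent_le hlog1 (by linarith)
        have e3 : (Real.log x) ^ 2 / G ≤ 1 / (Real.log x) ^ U := by
          rw [div_le_div_iff₀ hG0 hLUp, one_mul, mul_comm]
          exact e2
        calc 2 * x / G * (6 * (Real.log x) ^ 2) = 12 * (x * ((Real.log x) ^ 2 / G)) := by ring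
          _ ≤ 12 * (x * (1 / (Real.log x) ^ U)) :=
              mul_le_mul_of_nonneg_left (mul_le_mul_of_nonneg_left e3 hx0'.le) (by norm_num)
          _ = 12 * (x / (Real.log x) ^ U) := by rw [mul_one_div]
      have hxG0 : 0 ≤ 2 * x / G := by positivity
      calc ∑ d ∈ F, |resErr (y d) d (a d)| ≤ ∑ d ∈ F,
            ((∑ g ∈ Icc 1 G, |resErr ((g : ℝ) * x / G) d (a d)|) +
              2 * x / G * (1 / (d.totient : ℝ))) := Finset.sum_le_sum hgrid
        _ = ∑ g ∈ Icc 1 G, ∑ d ∈ F, |resErr ((g : ℝ) * x / G) d (a d)| +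
            2 * x / G * ∑ d ∈ F, 1 / (d.totient : ℝ) := by
            rw [Finset.sum_add_distrib, Finset.sum_comm, Finset.mul_sum]
        _ ≤ ∑ g ∈ Icc 1 G, (C1 + Real.log x) * (x / (Real.log x) ^ (2 * U + 5 + 1)) +
            2 * x / G * (6 * (Real.log x) ^ 2) :=
            add_le_add (Finset.sum_le_sum hone)
              (mul_le_mul_of_nonneg_left (Wfd_phi x Q hQ1 hQx hlog1 F hFs) hxG0)
        _ = (G : ℝ) * ((C1 + Real.log x) * (x / (Real.log x) ^ (2 * U + 5 + 1))) +
            2 * x / G * (6 * (Real.log x) ^ 2) := by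
            rw [Finset.sum_const, Nat.card_Icc, nsmul_eq_mul, Nat.add_sub_cancel]
        _ ≤ 2 * (C1 + 1) * (x / (Real.log x) ^ U) + 12 * (x / (Real.log x) ^ U) :=
            add_le_add hfirst hsecond
        _ = (2 * (C1 + 1) + 12) * (x / (Real.log x) ^ U) := by ring
        _ ≤ _ := mul_le_mul_of_nonneg_right (by linarith) hqU

end Pool.Agent.Lib.KF
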