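import Pool.Agent.Lib.KF.SpecD

/-!
MP_00e23e_nt, directory Lib/KF, part D: the L^2 bound for families of sets with few differences.
-/

namespace Pool.Agent.Lib.KF

open Finset Pool.Agent.Lib.EH3 Pool.Agent.Results.MP_00e23e_nt

/-- the part of the sum with denominator r -/
private noncomputable def Wld_g (Q : ℝ) (J : Finset ℕ) (c : ℕ → ℕ → ℝ) (a : ℕ → ℕ → ℤ) (n r : ℕ) : ℂ :=
  ∑ h ∈ (range r).filter (fun h => h.Coprime r), zb Q J c a r h * ee ((n : ℝ) * ((h : ℝ) / r))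

private lemma Wld_exp (h2 : GgbStmt) (R : ℕ) (Q : ℝ) (J : Finset ℕ) (c : ℕ → ℕ → ℝ)
    (a : ℕ → ℕ → ℤ) (n : ℕ) :
    ((∑ j ∈ J, gb R Q (c j) (a j) (n : ℤ) : ℝ) : ℂ) =
      ∑ r ∈ (Icc 1 ⌊2 * Q⌋₊).filter (fun r => R < r), Wld_g Q J c a n r := by
  rw [h2 R Q J c a (n : ℤ)]
  rfl

private lemma Wld_zero (Q : ℝ) (J : Finset ℕ) (c : ℕ → ℕ → ℝ) (a : ℕ → ℕ → ℤ) (n r : ℕ)
    (h : ⌊2 * Q⌋₊ < r) : Wld_g Q J c a n r = 0 := by
  have h1 : (dy Q).filter (fun d => r ∣ d) = ∅ := by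
    rw [Finset.filter_eq_empty_iff]
    intro d hd hrd
    unfold dy at hd
    rw [mem_Ioc] at hd
    have := Nat.le_of_dvd (by omega) hrd
    omega
  unfold Wld_g
  refine Finset.sum_eq_zero fun h _ => ?_
  unfold zb
  rw [Finset.sum_eq_zero, zero_mul]
  intro j _
  rw [h1, Finset.sum_empty]

private lemma Wld_blocks (R I : ℕ) (f : ℕ → ℂ) :
    ∑ r ∈ Ioc R (2 ^ I * R), f r = ∑ i ∈ range I, ∑ r ∈ Ioc (2 ^ i * R) (2 * (2 ^ i * R)), f r := by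
  induction I with
  | zero => simp
  | succ I ih =>
    rw [Finset.sum_range_succ, ← ih]
    have h1 : 2 ^ (I + 1) * R = 2 * (2 ^ I * R) := by ring
    rw [h1]
    symm
    apply Finset.sum_Ioc_consecutive
    · exact Nat.le_mul_of_pos_left _ (by positivity)
    · omega

private lemma Wld_cover (R M I : ℕ) (hI : M ≤ 2 ^ I * R) (f : ℕ → ℂ) (hf : ∀ r, M < r → f r = 0) :
    ∑ r ∈ (Icc 1 M).filter (fun r => R < r), f r =
      ∑ i ∈ range I, ∑ r ∈ Ioc (2 ^ i * R) (2 * (2 ^ i * R)), f r := by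
  rw [← Wld_blocks]
  refine Finset.sum_subset ?_ ?_
  · intro r hr
    rw [mem_filter, mem_Icc] at hr
    rw [mem_Ioc]
    omega
  · intro r hr hr2
    rw [mem_Ioc] at hr
    rw [mem_filter, mem_Icc] at hr2
    exact hf r (by omega)

/-- the number of blocks -/
private lemma Wld_I (R : ℕ) (Q : ℝ) (hR : 1 ≤ R) (hQ : 1 ≤ Q) : ∃ I : ℕ, ⌊2 * Q⌋₊ ≤ 2 ^ I * R ∧
    (I : ℝ) ≤ 2 * (1 + Real.log (2 * Q)) ∧ ((2 : ℝ) ^ I * R ≤ 4 * Q ∨ I = 0) := by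
  have hex : ∃ I : ℕ, ⌊2 * Q⌋₊ ≤ 2 ^ I * R := by
    refine ⟨⌊2 * Q⌋₊, ?_⟩
    calc ⌊2 * Q⌋₊ ≤ 2 ^ ⌊2 * Q⌋₊ := Nat.lt_two_pow_self.le
      _ ≤ 2 ^ ⌊2 * Q⌋₊ * R := Nat.le_mul_of_pos_right _ (by omega)
  classical
  refine ⟨Nat.find hex, Nat.find_spec hex, ?_, ?_⟩
  · rcases Nat.eq_zero_or_pos (Nat.find hex) with h | h
    · rw [h]
      have : 0 ≤ Real.log (2 * Q) := Real.log_nonneg (by linarith)
      push_cast
      linarith
    · obtain ⟨j, hj⟩ : ∃ j, Nat.find hex = j + 1 := ⟨Nat.find hex - 1, by omega⟩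
      have h1 := Nat.find_min hex (m := j) (by omega)
      push Not at h1
      have h2 : 2 ^ j ≤ 2 ^ j * R := Nat.le_mul_of_pos_right _ (by omega)
      have h3 : ((2 ^ j : ℕ) : ℝ) ≤ 2 * Q :=
        le_trans (Nat.cast_le.2 (h2.trans h1.le)) (Nat.floor_le (by linarith))
      have h4 : (j : ℝ) * Real.log 2 ≤ Real.log (2 * Q) := by
        rw [← Real.log_pow]
        refine Real.log_le_log (by positivity) ?_
        exact_mod_cast h3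
      have h5 := Real.log_two_gt_d9
      have h6 : (0 : ℝ) ≤ j := by positivity
      rw [hj]
      push_cast
      nlinarith
  · rcases Nat.eq_zero_or_pos (Nat.find hex) with h | h
    · right
      exact h
    · left
      obtain ⟨j, hj⟩ : ∃ j, Nat.find hex = j + 1 := ⟨Nat.find hex - 1, by omega⟩
      have h1 := Nat.find_min hex (m := j) (by omega)
      push Not at h1
      have h3 : ((2 ^ j * R : ℕ) : ℝ) ≤ 2 * Q :=
        le_trans (Nat.cast_le.2 h1.le) (Nat.floor_le (by linarith))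
      push_cast at h3
      rw [hj, pow_succ]
      linarith

private lemma Wld_geo (I : ℕ) : ∑ i ∈ range I, (2 : ℝ) ^ i ≤ 2 ^ I ∧ ∑ i ∈ range I, (4 : ℝ) ^ i ≤ 4 ^ I / 3 ∧
    ∑ i ∈ range I, 1 / (2 : ℝ) ^ i ≤ 2 - 2 * (1 / 2 ^ I) := by
  induction I with
  | zero => norm_num
  | succ I ih =>
    obtain ⟨h1, h2, h3⟩ := ih
    rw [Finset.sum_range_succ, Finset.sum_range_succ, Finset.sum_range_succ]
    refine ⟨?_, ?_, ?_⟩
    · rw [pow_succ]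
      linarith
    · rw [pow_succ]
      linarith
    · have h4 : 1 / (2 : ℝ) ^ (I + 1) = (1 / 2 ^ I) / 2 := by
        rw [pow_succ]
        field_simp
      rw [h4]
      have h5 : 0 < 1 / (2 : ℝ) ^ I := by positivity
      linarith

theorem tWld (h3 : FlsStmt) (h4 : ZsdStmt) (h2 : GgbStmt) : WldStmt := by
  intro X R Q T J A c a hX hR hQ hT hc hτ
  obtain ⟨I, hI1, hI2, hI3⟩ := Wld_I R Q hR hQ
  set K : ℝ := 1 + Real.log (2 * Q) with hK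
  have hK1 : 1 ≤ K := by
    have : 0 ≤ Real.log (2 * Q) := Real.log_nonneg (by linarith)
    linarith
  have hX' : (1 : ℝ) ≤ X := by exact_mod_cast hX
  have hR' : (1 : ℝ) ≤ R := by exact_mod_cast hR
  have hR0 : (0 : ℝ) < R := by linarith
  set α : ℝ := (J.card : ℝ) with hα
  have hα0 : 0 ≤ α := by positivity
  have hI0 : (0 : ℝ) ≤ I := by positivity
  -- pointwise bound
  have hpt : ∀ n ∈ range (X + 1), (∑ j ∈ J, gb R Q (c j) (a j) (n : ℤ)) ^ 2 ≤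
      (I : ℝ) * ∑ i ∈ range I, ‖∑ r ∈ Ioc (2 ^ i * R) (2 * (2 ^ i * R)), Wld_g Q J c a n r‖ ^ 2 := by
    intro n _
    have e1 : (∑ j ∈ J, gb R Q (c j) (a j) (n : ℤ)) ^ 2 =
        ‖((∑ j ∈ J, gb R Q (c j) (a j) (n : ℤ) : ℝ) : ℂ)‖ ^ 2 := by
      rw [Complex.norm_real, Real.norm_eq_abs, sq_abs]
    rw [e1, Wld_exp h2, Wld_cover R ⌊2 * Q⌋₊ I hI1 _ (fun r hr => Wld_zero Q J c a n r hr)]
    have e2 : ‖∑ i ∈ range I, ∑ r ∈ Ioc (2 ^ i * R) (2 * (2 ^ i * R)), Wld_g Q J c a n r‖ ^ 2 ≤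
        (∑ i ∈ range I, ‖∑ r ∈ Ioc (2 ^ i * R) (2 * (2 ^ i * R)), Wld_g Q J c a n r‖) ^ 2 :=
      pow_le_pow_left₀ (norm_nonneg _) (norm_sum_le _ _) 2
    refine e2.trans ?_
    have e3 := sq_sum_le_card_mul_sum_sq (s := range I)
      (f := fun i => ‖∑ r ∈ Ioc (2 ^ i * R) (2 * (2 ^ i * R)), Wld_g Q J c a n r‖)
    rw [Finset.card_range] at e3
    exact e3
  -- one block
  have hblock : ∀ i ∈ range I, ∑ n ∈ range (X + 1),
      ‖∑ r ∈ Ioc (2 ^ i * R) (2 * (2 ^ i * R)), Wld_g Q J c a n r‖ ^ 2 ≤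
      320 * (α * (2 * X + (4 : ℝ) ^ i * (R : ℝ) ^ 2) +
        α ^ 2 * T * (2 * X * (1 / (2 : ℝ) ^ i) / R + (2 : ℝ) ^ i * R)) := by
    intro i _
    have hri : 1 ≤ 2 ^ i * R := Nat.mul_pos (by positivity) (by omega)
    have b1 := h3 (X + 1) (2 ^ i * R) (fun r h => zb Q J c a r h) hri
    have b2 := h4 Q T J A c a (2 ^ i * R) hQ hri hT hc hτ
    have b3 : ∑ n ∈ range (X + 1),
      ‖∑ r ∈ Ioc (2 ^ i * R) (2 * (2 ^ i * R)), Wld_g Q J c a n r‖ ^ 2 ≤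
        80 * (((X + 1 : ℕ) : ℝ) + ((2 ^ i * R : ℕ) : ℝ) ^ 2) *
          (4 * ((J.card : ℝ) + (J.card : ℝ) ^ 2 * T / ((2 ^ i * R : ℕ) : ℝ))) :=
      b1.trans (mul_le_mul_of_nonneg_left b2 (by positivity))
    refine b3.trans ?_
    push_cast
    rw [← hα]
    have hp : (0 : ℝ) < (2 : ℝ) ^ i := by positivity
    have h44 : (4 : ℝ) ^ i = ((2 : ℝ) ^ i) ^ 2 := by
      rw [← pow_mul, mul_comm, pow_mul]
      norm_num
    rw [h44]
    set p : ℝ := (2 : ℝ) ^ i with hpdef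
    have b4 : α + α ^ 2 * T / (p * R) = (α * (p * R) + α ^ 2 * T) / (p * R) := by
      field_simp
    have b5 : 80 * ((X : ℝ) + 1 + (p * R) ^ 2) * (4 * (α + α ^ 2 * T / (p * R))) ≤
        80 * (2 * (X : ℝ) + (p * R) ^ 2) * (4 * (α + α ^ 2 * T / (p * R))) := by
      refine mul_le_mul_of_nonneg_right ?_ (by positivity)
      linarith
    refine b5.trans (le_of_eq ?_)
    field_simp
    ring
  -- sum
  obtain ⟨g1, g2, g3⟩ := Wld_geo I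
  have hsum : ∑ n ∈ range (X + 1), (∑ j ∈ J, gb R Q (c j) (a j) (n : ℤ)) ^ 2 ≤
      (I : ℝ) * ∑ i ∈ range I, 320 * (α * (2 * X + (4 : ℝ) ^ i * (R : ℝ) ^ 2) +
        α ^ 2 * T * (2 * X * (1 / (2 : ℝ) ^ i) / R + (2 : ℝ) ^ i * R)) := by
    refine (Finset.sum_le_sum hpt).trans ?_
    rw [← Finset.mul_sum, Finset.sum_comm]
    exact mul_le_mul_of_nonneg_left (Finset.sum_le_sum hblock) hI0
  have hS : ∑ i ∈ range I, 320 * (α * (2 * X + (4 : ℝ) ^ i * (R : ℝ) ^ 2) +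
        α ^ 2 * T * (2 * X * (1 / (2 : ℝ) ^ i) / R + (2 : ℝ) ^ i * R)) =
      320 * (α * ((I : ℝ) * (2 * X) + (∑ i ∈ range I, (4 : ℝ) ^ i) * (R : ℝ) ^ 2) +
        α ^ 2 * T * (2 * X * (∑ i ∈ range I, 1 / (2 : ℝ) ^ i) / R + (∑ i ∈ range I, (2 : ℝ) ^ i) * R)) := by
    rw [← Finset.mul_sum, Finset.sum_add_distrib, ← Finset.mul_sum, ← Finset.mul_sum,
      Finset.sum_add_distrib, Finset.sum_add_distrib, Finset.sum_const, Finset.card_range, nsmul_eq_mul,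
      ← Finset.sum_mul, ← Finset.sum_mul, ← Finset.sum_div, ← Finset.mul_sum]
  rw [hS] at hsum
  -- the geometric sums
  have c1 : (∑ i ∈ range I, (4 : ℝ) ^ i) * (R : ℝ) ^ 2 ≤ 6 * Q ^ 2 := by
    rcases hI3 with h | h
    · have e1 : (∑ i ∈ range I, (4 : ℝ) ^ i) * (R : ℝ) ^ 2 ≤ 4 ^ I / 3 * (R : ℝ) ^ 2 :=
        mul_le_mul_of_nonneg_right g2 (by positivity)
      have h44 : (4 : ℝ) ^ I = ((2 : ℝ) ^ I) ^ 2 := by
        rw [← pow_mul, mul_comm, pow_mul]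
        norm_num
      have e2 : ((2 : ℝ) ^ I * R) ^ 2 ≤ (4 * Q) ^ 2 := pow_le_pow_left₀ (by positivity) h 2
      rw [h44] at e1
      have e3 : ((2 : ℝ) ^ I) ^ 2 / 3 * (R : ℝ) ^ 2 = ((2 : ℝ) ^ I * R) ^ 2 / 3 := by ring
      have e4 : (4 * Q) ^ 2 = 16 * Q ^ 2 := by ring
      rw [e3] at e1
      rw [e4] at e2
      have e5 := sq_nonneg Q
      linarith
    · rw [h]
      simp
      positivity
  have c2 : (∑ i ∈ range I, (2 : ℝ) ^ i) * R ≤ 4 * Q := by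
    rcases hI3 with h | h
    · exact (mul_le_mul_of_nonneg_right g1 hR0.le).trans h
    · rw [h]
      simp
      linarith
  have c3 : ∑ i ∈ range I, 1 / (2 : ℝ) ^ i ≤ 2 := by
    have : 0 < 1 / (2 : ℝ) ^ I := by positivity
    linarith
  have c4 : 2 * (X : ℝ) * (∑ i ∈ range I, 1 / (2 : ℝ) ^ i) / R ≤ 4 * ((X : ℝ) / R) := by
    rw [mul_div_assoc', div_le_div_iff_of_pos_right hR0]
    have e1 : 2 * (X : ℝ) * (∑ i ∈ range I, 1 / (2 : ℝ) ^ i) ≤ 2 * (X : ℝ) * 2 :=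
      mul_le_mul_of_nonneg_left c3 (by positivity)
    linarith
  have hQ2 : 0 ≤ Q ^ 2 := sq_nonneg Q
  have hXR : 0 ≤ (X : ℝ) / R := by positivity
  have d1 : α * ((I : ℝ) * (2 * X) + (∑ i ∈ range I, (4 : ℝ) ^ i) * (R : ℝ) ^ 2) ≤
      6 * K * (((X : ℝ) + Q ^ 2) * α) := by
    have e1 : (I : ℝ) * (2 * X) ≤ 2 * K * (2 * X) := mul_le_mul_of_nonneg_right hI2 (by positivity)
    have e2 : (I : ℝ) * (2 * X) + (∑ i ∈ range I, (4 : ℝ) ^ i) * (R : ℝ) ^ 2 ≤ 6 * K * ((X : ℝ) + Q ^ 2) := by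
      have e3 : 6 * Q ^ 2 ≤ 6 * K * Q ^ 2 := mul_le_mul_of_nonneg_right (by linarith) hQ2
      have e4 : 2 * K * (2 * (X : ℝ)) ≤ 6 * K * X := by
        have e5 : 0 ≤ K * (X : ℝ) := by positivity
        linarith
      have e6 : 6 * K * ((X : ℝ) + Q ^ 2) = 6 * K * X + 6 * K * Q ^ 2 := by ring
      linarith
    calc α * ((I : ℝ) * (2 * X) + (∑ i ∈ range I, (4 : ℝ) ^ i) * (R : ℝ) ^ 2) ≤
        α * (6 * K * ((X : ℝ) + Q ^ 2)) := mul_le_mul_of_nonneg_left e2 hα0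
      _ = _ := by ring
  have d2 : α ^ 2 * T * (2 * X * (∑ i ∈ range I, 1 / (2 : ℝ) ^ i) / R + (∑ i ∈ range I, (2 : ℝ) ^ i) * R) ≤
      4 * (((X : ℝ) / R + Q) * T * α ^ 2) := by
    calc α ^ 2 * T * (2 * X * (∑ i ∈ range I, 1 / (2 : ℝ) ^ i) / R + (∑ i ∈ range I, (2 : ℝ) ^ i) * R) ≤
        α ^ 2 * T * (4 * ((X : ℝ) / R) + 4 * Q) :=
          mul_le_mul_of_nonneg_left (add_le_add c4 c2) (by positivity)
      _ = _ := by ring
  have hE1 : 0 ≤ ((X : ℝ) + Q ^ 2) * α := by positivity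
  have hE2 : 0 ≤ ((X : ℝ) / R + Q) * T * α ^ 2 := by positivity
  set E1 : ℝ := ((X : ℝ) + Q ^ 2) * α with hE1d
  set E2 : ℝ := ((X : ℝ) / R + Q) * T * α ^ 2 with hE2d
  refine hsum.trans ?_
  calc (I : ℝ) * (320 * (α * ((I : ℝ) * (2 * X) + (∑ i ∈ range I, (4 : ℝ) ^ i) * (R : ℝ) ^ 2) +
        α ^ 2 * T * (2 * X * (∑ i ∈ range I, 1 / (2 : ℝ) ^ i) / R + (∑ i ∈ range I, (2 : ℝ) ^ i) * R))) ≤
      (I : ℝ) * (320 * (6 * K * E1 + 4 * E2)) := by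
        refine mul_le_mul_of_nonneg_left ?_ hI0
        exact mul_le_mul_of_nonneg_left (add_le_add d1 d2) (by norm_num)
    _ ≤ (2 * K) * (320 * (6 * K * E1 + 4 * E2)) :=
        mul_le_mul_of_nonneg_right hI2 (by positivity)
    _ ≤ (2 * K) * (320 * (6 * K * E1 + 6 * K * E2)) := by
        refine mul_le_mul_of_nonneg_left ?_ (by positivity)
        have : 4 * E2 ≤ 6 * K * E2 := mul_le_mul_of_nonneg_right (by linarith) hE2
        linarith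
    _ = 3840 * K ^ 2 * (E1 + E2) := by ring
    _ ≤ 8000 * K ^ 2 * (E1 + E2) := by
        have : 0 ≤ K ^ 2 * (E1 + E2) := by positivity
        linarith

end Pool.Agent.Lib.KF
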