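import Pool.Agent.Lib.KF.AllV
import Pool.Agent.Lib.KF.Zsd
import Pool.Agent.Lib.KF.Wld
import Pool.Agent.Lib.KF.Bvd
import Pool.Agent.Lib.KF.Wbd
import Pool.Agent.Lib.KF.Wdf
import Pool.Agent.Lib.KF.Wfd
import Pool.Agent.Lib.KF.Tpk
import Pool.Agent.Lib.KF.Shu
import Pool.Agent.Lib.KF.Shv
import Pool.Agent.Lib.KF.Fdd

/-!
Assembly of part D of Lib/KF: levels up to x^(1-ε), the maximum over all residues in pairwise disjoint sets
with few differences, in particular in pairwise disjoint subsets of short intervals.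
-/

namespace Pool.Agent.Lib.KF

theorem aZsd : ZsdStmt := tZsd
theorem aWld : WldStmt := tWld aFls aZsd aGgb
theorem aBvd : BvdStmt := tBvd Pool.Agent.Lib.BV.aExt
theorem aWbd : WbdStmt := tWbd aTtb aBvd aBlb aWld
theorem aWdf : WdfStmt := tWdf
theorem aWfd : WfdStmt := tWfd aRse aBvd aWbd aGrd aWdf
theorem aTpk : TpkStmt := tTpk
theorem aShu : ShuStmt := tShu
theorem aShv : ShvStmt := tShv aTpk aShu
theorem aFdd : FddStmt := tFdd aWfd aShv aDvb

end Pool.Agent.Lib.KF
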