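import Pool.Agent.Lib.KF.SpecV

/-!
MP_00e23e_nt, directory Lib/KF, module Bvy: Bombieri-Vinogradov for all y ≤ x, exponent below 1/2.
-/

namespace Pool.Agent.Lib.KF

open Finset Pool.Agent.Lib.EH3 Pool.Agent.Results.MP_00e23e_nt

private lemma Bvy_small (A κ x y : ℝ) (hA : 0 < A) (hκ1 : κ < 1 / 2) (hx : 3 ≤ x)
    (hx2 : x < 16) (hy : 2 ≤ y) (hyx : y ≤ x) :
    ∑ d ∈ Icc 1 ⌊x ^ κ⌋₊, maxErr y d ≤ 512 * 3 ^ A * (x / (Real.log x) ^ A) := by
  have hL1 : 1 ≤ Real.log x := by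
    rw [Real.le_log_iff_exp_le (by linarith)]
    have := Real.exp_one_lt_d9
    linarith
  have hL3 : Real.log x ≤ 3 := by
    have h1 : Real.log x ≤ Real.log 16 := Real.log_le_log (by linarith) hx2.le
    have h2 : Real.log 16 = 4 * Real.log 2 := by
      rw [show (16 : ℝ) = 2 ^ 4 by norm_num, Real.log_pow]
      norm_num
    have := Real.log_two_lt_d9
    linarith
  have hD : (⌊x ^ κ⌋₊ : ℝ) ≤ 16 := by
    have h1 : x ^ κ ≤ x ^ (1 : ℝ) :=
      Real.rpow_le_rpow_of_exponent_le (by linarith) (by linarith)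
    rw [Real.rpow_one] at h1
    have h2 : (⌊x ^ κ⌋₊ : ℝ) ≤ x ^ κ := Nat.floor_le (by positivity)
    linarith
  have h1 : ∑ d ∈ Icc 1 ⌊x ^ κ⌋₊, maxErr y d ≤ ∑ d ∈ Icc 1 ⌊x ^ κ⌋₊, (32 : ℝ) := by
    refine Finset.sum_le_sum fun d hd => ?_
    have := Pool.Agent.Lib.EH.maxErr_le (x := y) (by linarith) d (Finset.mem_Icc.1 hd).1
    linarith
  rw [Finset.sum_const, Nat.card_Icc, nsmul_eq_mul] at h1
  have h2 : ((⌊x ^ κ⌋₊ + 1 - 1 : ℕ) : ℝ) * 32 ≤ 512 := by
    rw [Nat.add_sub_cancel]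
    linarith
  have hLA : 0 < (Real.log x) ^ A := Real.rpow_pos_of_pos (by linarith) A
  have h3 : (Real.log x) ^ A ≤ 3 ^ A := Real.rpow_le_rpow (by linarith) hL3 hA.le
  have h4 : 1 ≤ 3 ^ A * (x / (Real.log x) ^ A) := by
    rw [← mul_div_assoc, le_div_iff₀ hLA, one_mul]
    have : 0 ≤ (3 : ℝ) ^ A := by positivity
    nlinarith
  linarith

private lemma Bvy_log (A κ x : ℝ) (hA : 0 < A) (hκ1 : κ < 1 / 2) (hx : 16 ≤ x) :
    x ^ (1 / 2 + κ) * (Real.log x) ^ (2 : ℝ) ≤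
      (1 / ((1 / 2 - κ) / (A + 2)) ^ (A + 2)) * (x / (Real.log x) ^ A) := by
  have hx0 : 0 < x := by linarith
  have hL1 : 1 ≤ Real.log x := by
    rw [Real.le_log_iff_exp_le hx0]
    have := Real.exp_one_lt_d9
    linarith
  have hL0 : 0 < Real.log x := by linarith
  have hδ : 0 < 1 / 2 - κ := by linarith
  set e : ℝ := (1 / 2 - κ) / (A + 2) with he
  have he0 : 0 < e := by positivity
  have h1 : Real.log x ≤ x ^ e / e := Real.log_le_rpow_div hx0.le he0
  have h2 : (Real.log x) ^ (A + 2) ≤ (x ^ e / e) ^ (A + 2) :=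
    Real.rpow_le_rpow hL0.le h1 (by linarith)
  have h3 : (x ^ e / e) ^ (A + 2) = x ^ (1 / 2 - κ) / e ^ (A + 2) := by
    rw [Real.div_rpow (by positivity) he0.le, ← Real.rpow_mul hx0.le]
    congr 2
    rw [he]
    field_simp
  rw [h3, Real.rpow_add hL0] at h2
  have hLA : 0 < (Real.log x) ^ A := Real.rpow_pos_of_pos hL0 A
  rw [← mul_div_assoc, le_div_iff₀ hLA]
  have h4 : x ^ (1 / 2 + κ) * x ^ (1 / 2 - κ) = x := by
    rw [← Real.rpow_add hx0, show (1 / 2 + κ) + (1 / 2 - κ) = 1 by ring, Real.rpow_one]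
  have h5 : 0 ≤ x ^ (1 / 2 + κ) := by positivity
  calc x ^ (1 / 2 + κ) * (Real.log x) ^ (2 : ℝ) * (Real.log x) ^ A
      = x ^ (1 / 2 + κ) * ((Real.log x) ^ A * (Real.log x) ^ (2 : ℝ)) := by ring
    _ ≤ x ^ (1 / 2 + κ) * (x ^ (1 / 2 - κ) / e ^ (A + 2)) :=
        mul_le_mul_of_nonneg_left h2 h5
    _ = 1 / e ^ (A + 2) * (x ^ (1 / 2 + κ) * x ^ (1 / 2 - κ)) := by ring
    _ = 1 / e ^ (A + 2) * x := by rw [h4]

/-- Bombieri-Vinogradov for all y ≤ x -/
theorem tBvy (h1 : Pool.Agent.Lib.BV.ExtStmt) : BvyStmt := by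
  intro A κ hA hκ0 hκ1
  obtain ⟨C0, hC0⟩ := h1 A hA
  have hδ : 0 < 1 / 2 - κ := by linarith
  set E : ℝ := 1 / ((1 / 2 - κ) / (A + 2)) ^ (A + 2) with hE
  have hE0 : 0 ≤ E := by positivity
  refine ⟨(|C0| + 1) * (1 + 4 * E) + 512 * 3 ^ A, by positivity, ?_⟩
  intro x y hx hy hyx
  have hx0 : 0 < x := by linarith
  have hL1 : 1 ≤ Real.log x := by
    rw [Real.le_log_iff_exp_le hx0]
    have := Real.exp_one_lt_d9
    linarith
  have hL0 : 0 < Real.log x := by linarith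
  have hq : 0 ≤ x / (Real.log x) ^ A := by positivity
  rcases lt_or_ge x 16 with h | h
  · have h2 := Bvy_small A κ x y hA hκ1 hx h hy hyx
    have h3 : 0 ≤ (|C0| + 1) * (1 + 4 * E) * (x / (Real.log x) ^ A) := by positivity
    linarith
  · set D : ℕ := ⌊x ^ κ⌋₊ with hD
    have hD1 : 1 ≤ D := by
      rw [hD, Nat.one_le_floor_iff]
      exact Real.one_le_rpow (by linarith) hκ0.le
    have hD1' : (1 : ℝ) ≤ D := by exact_mod_cast hD1
    have hDx : (D : ℝ) ≤ x ^ κ := Nat.floor_le (by positivity)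
    have h2 := hC0 x D (fun _ => y) h hD1 (fun d => ⟨hy, hyx⟩)
    have hs0 : 0 ≤ Real.sqrt x := Real.sqrt_nonneg x
    have hsx : Real.sqrt x ≤ x := by
      rw [Real.sqrt_le_left hx0.le]
      nlinarith
    have hK1 : 16 ≤ Pool.Agent.Lib.BV.Kf x D := by
      unfold Pool.Agent.Lib.BV.Kf
      have : 0 ≤ Real.sqrt x / ((D : ℝ) * Real.log x) := by positivity
      linarith
    have hK2 : Pool.Agent.Lib.BV.Kf x D ≤ x ^ 2 := by
      unfold Pool.Agent.Lib.BV.Kf
      have h3 : Real.sqrt x / ((D : ℝ) * Real.log x) ≤ Real.sqrt x := by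
        apply div_le_self hs0
        nlinarith
      nlinarith
    have hlK1 : 1 ≤ Real.log (Pool.Agent.Lib.BV.Kf x D) := by
      rw [Real.le_log_iff_exp_le (by linarith)]
      have := Real.exp_one_lt_d9
      linarith
    have hlK2 : Real.log (Pool.Agent.Lib.BV.Kf x D) ≤ 2 * Real.log x := by
      have h3 := Real.log_le_log (by linarith) hK2
      rw [Real.log_pow] at h3
      exact_mod_cast h3
    have hll1 : 0 ≤ Real.log (Real.log (Pool.Agent.Lib.BV.Kf x D)) := Real.log_nonneg hlK1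
    have hll2 : Real.log (Real.log (Pool.Agent.Lib.BV.Kf x D)) ≤ 2 * Real.log x := by
      have h3 := Real.log_le_sub_one_of_pos (show 0 < Real.log (Pool.Agent.Lib.BV.Kf x D) by linarith)
      linarith
    have h4 : Real.log (Pool.Agent.Lib.BV.Kf x D) * Real.log (Real.log (Pool.Agent.Lib.BV.Kf x D)) ≤
        4 * (Real.log x) ^ (2 : ℝ) := by
      rw [Real.rpow_two]
      calc Real.log (Pool.Agent.Lib.BV.Kf x D) * Real.log (Real.log (Pool.Agent.Lib.BV.Kf x D)) ≤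
            (2 * Real.log x) * (2 * Real.log x) :=
            mul_le_mul hlK2 hll2 hll1 (by linarith)
        _ = 4 * (Real.log x) ^ 2 := by ring
    have h5 : Real.sqrt x * D ≤ x ^ (1 / 2 + κ) := by
      calc Real.sqrt x * D ≤ x ^ ((1 : ℝ) / 2) * x ^ κ := by
            rw [← Real.sqrt_eq_rpow]
            exact mul_le_mul_of_nonneg_left hDx hs0
        _ = x ^ (1 / 2 + κ) := by rw [← Real.rpow_add hx0]
    have h6 : Real.sqrt x * D * (Real.log (Pool.Agent.Lib.BV.Kf x D) *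
        Real.log (Real.log (Pool.Agent.Lib.BV.Kf x D))) ≤ 4 * E * (x / (Real.log x) ^ A) := by
      calc Real.sqrt x * D * (Real.log (Pool.Agent.Lib.BV.Kf x D) *
          Real.log (Real.log (Pool.Agent.Lib.BV.Kf x D))) ≤
            x ^ (1 / 2 + κ) * (4 * (Real.log x) ^ (2 : ℝ)) :=
            mul_le_mul h5 h4 (mul_nonneg (by linarith) hll1) (by positivity)
        _ = 4 * (x ^ (1 / 2 + κ) * (Real.log x) ^ (2 : ℝ)) := by ring
        _ ≤ 4 * (E * (x / (Real.log x) ^ A)) :=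
            mul_le_mul_of_nonneg_left (Bvy_log A κ x hA hκ1 h) (by norm_num)
        _ = 4 * E * (x / (Real.log x) ^ A) := by ring
    have h7 : 0 ≤ Real.sqrt x * D * (Real.log (Pool.Agent.Lib.BV.Kf x D) *
        Real.log (Real.log (Pool.Agent.Lib.BV.Kf x D))) :=
      mul_nonneg (by positivity) (mul_nonneg (by linarith) hll1)
    have h8 : C0 * (x / (Real.log x) ^ A + Real.sqrt x * D * (Real.log (Pool.Agent.Lib.BV.Kf x D) *
        Real.log (Real.log (Pool.Agent.Lib.BV.Kf x D)))) ≤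
        (|C0| + 1) * (x / (Real.log x) ^ A + 4 * E * (x / (Real.log x) ^ A)) := by
      refine mul_le_mul ?_ (by linarith) (by linarith) (by positivity)
      have := le_abs_self C0
      linarith
    refine h2.trans (h8.trans ?_)
    have h9 : 0 ≤ 512 * (3 : ℝ) ^ A * (x / (Real.log x) ^ A) := by positivity
    have h10 : ((|C0| + 1) * (1 + 4 * E) + 512 * 3 ^ A) * (x / (Real.log x) ^ A) =
        (|C0| + 1) * (x / (Real.log x) ^ A + 4 * E * (x / (Real.log x) ^ A)) +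
          512 * (3 : ℝ) ^ A * (x / (Real.log x) ^ A) := by ring
    rw [h10]
    linarith

end Pool.Agent.Lib.KF
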