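import Pool.Agent.Lib.KF.SpecV

/-!
MP_00e23e_nt, directory Lib/KF, module Ggb: expansion in exponential sums.
-/

namespace Pool.Agent.Lib.KF

open Finset Pool.Agent.Lib.EH3 Pool.Agent.Results.MP_00e23e_nt

private lemma Ggb_ell (R d : ℕ) (m : ℤ) (hd : 1 ≤ d) :
    ell R d m = (1 / (d : ℝ)) * ∑ r ∈ d.divisors.filter (fun r => r ≤ R), ram r m := by
  unfold ell lam
  have e1 : ∀ r ∈ d.divisors.filter (fun r => r ≤ R), ram r m =
      ∑ e ∈ d.divisors.filter (fun e : ℕ => e ∣ r ∧ (e : ℤ) ∣ m),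
        (e : ℝ) * (ArithmeticFunction.moebius (r / e) : ℝ) := by
    intro r hr
    have hr1 : r ∣ d := Nat.dvd_of_mem_divisors (Finset.mem_filter.1 hr).1
    have hr0 : r ≠ 0 := (Nat.pos_of_dvd_of_pos hr1 hd).ne'
    unfold ram
    refine Finset.sum_congr ?_ fun _ _ => rfl
    ext e
    simp only [Finset.mem_filter, Nat.mem_divisors]
    constructor
    · rintro ⟨⟨h1, _⟩, h2⟩
      exact ⟨⟨h1.trans hr1, by omega⟩, h1, h2⟩
    · rintro ⟨_, h1, h2⟩
      exact ⟨⟨h1, hr0⟩, h2⟩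
  rw [Finset.sum_congr rfl e1, Finset.mul_sum]
  have e2 : ∀ r ∈ d.divisors.filter (fun r => r ≤ R), (1 / (d : ℝ)) *
      ∑ e ∈ d.divisors.filter (fun e : ℕ => e ∣ r ∧ (e : ℤ) ∣ m),
        (e : ℝ) * (ArithmeticFunction.moebius (r / e) : ℝ) =
      ∑ e ∈ d.divisors.filter (fun e : ℕ => e ∣ r ∧ (e : ℤ) ∣ m),
        ((e : ℝ) / d) * (ArithmeticFunction.moebius (r / e) : ℝ) := by
    intro r _
    rw [Finset.mul_sum]
    refine Finset.sum_congr rfl fun e _ => ?_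
    ring
  have e3 : ∀ e ∈ d.divisors.filter (fun e : ℕ => (e : ℤ) ∣ m), ((e : ℝ) / d) *
      ∑ r ∈ d.divisors.filter (fun r => e ∣ r ∧ r ≤ R),
        (ArithmeticFunction.moebius (r / e) : ℝ) =
      ∑ r ∈ d.divisors.filter (fun r => e ∣ r ∧ r ≤ R),
        ((e : ℝ) / d) * (ArithmeticFunction.moebius (r / e) : ℝ) := by
    intro e _
    rw [Finset.mul_sum]
  rw [Finset.sum_congr rfl e2, Finset.sum_congr rfl e3]
  refine Finset.sum_comm' ?_
  intro e r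
  simp only [Finset.mem_filter]
  tauto

private lemma Ggb_one (h1 : RamStmt) (R d : ℕ) (m : ℤ) (hd : 1 ≤ d) :
    (if (d : ℤ) ∣ m then (1 : ℝ) else 0) - ell R d m =
      (1 / (d : ℝ)) * ∑ r ∈ d.divisors.filter (fun r => R < r), ram r m := by
  have hd0 : (d : ℝ) ≠ 0 := by positivity
  have e1 : (if (d : ℤ) ∣ m then (1 : ℝ) else 0) = (1 / (d : ℝ)) * ∑ r ∈ d.divisors, ram r m := by
    rw [h1.1 d m hd]
    split_ifs
    · field_simp
    · simp
  have e2 : d.divisors.filter (fun r => ¬ r ≤ R) = d.divisors.filter (fun r => R < r) :=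
    Finset.filter_congr fun r _ => not_le
  rw [Ggb_ell R d m hd, e1, ← Finset.sum_filter_add_sum_filter_not d.divisors (fun r => r ≤ R), e2]
  ring

/-- one residue class -/
private lemma Ggb_gb (h1 : RamStmt) (h2 : RmxStmt) (R : ℕ) (Q : ℝ) (c : ℕ → ℝ) (a : ℕ → ℤ) (n : ℤ) :
    ((gb R Q c a n : ℝ) : ℂ) =
      ∑ r ∈ (Icc 1 ⌊2 * Q⌋₊).filter (fun r => R < r), ∑ h ∈ (range r).filter (fun h => h.Coprime r),
        (∑ d ∈ (dy Q).filter (fun d => r ∣ d), ((c d / d : ℝ) : ℂ) * ee (-((a d : ℝ) * ((h : ℝ) / r)))) *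
          ee ((n : ℝ) * ((h : ℝ) / r)) := by
  have hdy : ∀ d ∈ dy Q, 1 ≤ d ∧ d ≤ ⌊2 * Q⌋₊ := by
    intro d hd
    unfold dy at hd
    rw [Finset.mem_Ioc] at hd
    omega
  have e1 : ∀ d ∈ dy Q, ((c d * ((if (d : ℤ) ∣ n - a d then 1 else 0) - ell R d (n - a d)) : ℝ) : ℂ) =
      ∑ r ∈ d.divisors.filter (fun r => R < r), ∑ h ∈ (range r).filter (fun h => h.Coprime r),
        ((c d / d : ℝ) : ℂ) * ee (-((a d : ℝ) * ((h : ℝ) / r))) * ee ((n : ℝ) * ((h : ℝ) / r)) := by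
    intro d hd
    rw [Ggb_one h1 R d (n - a d) (hdy d hd).1]
    have e2 : c d * (1 / (d : ℝ) * ∑ r ∈ d.divisors.filter (fun r => R < r), ram r (n - a d)) =
        (c d / d) * ∑ r ∈ d.divisors.filter (fun r => R < r), ram r (n - a d) := by ring
    rw [e2, Complex.ofReal_mul, Complex.ofReal_sum, Finset.mul_sum]
    refine Finset.sum_congr rfl fun r hr => ?_
    have hr1 : 1 ≤ r := Nat.pos_of_mem_divisors (Finset.mem_filter.1 hr).1
    rw [h2 r (n - a d) hr1, Finset.mul_sum]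
    refine Finset.sum_congr rfl fun h _ => ?_
    rw [mul_assoc, ← ee_add]
    congr 2
    push_cast
    ring
  have e3 : ∀ r ∈ (Icc 1 ⌊2 * Q⌋₊).filter (fun r => R < r),
      ∑ h ∈ (range r).filter (fun h => h.Coprime r),
        (∑ d ∈ (dy Q).filter (fun d => r ∣ d), ((c d / d : ℝ) : ℂ) * ee (-((a d : ℝ) * ((h : ℝ) / r)))) *
          ee ((n : ℝ) * ((h : ℝ) / r)) =
      ∑ d ∈ (dy Q).filter (fun d => r ∣ d), ∑ h ∈ (range r).filter (fun h => h.Coprime r),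
        ((c d / d : ℝ) : ℂ) * ee (-((a d : ℝ) * ((h : ℝ) / r))) * ee ((n : ℝ) * ((h : ℝ) / r)) := by
    intro r _
    rw [Finset.sum_comm]
    refine Finset.sum_congr rfl fun h _ => ?_
    rw [Finset.sum_mul]
  unfold gb
  rw [Complex.ofReal_sum, Finset.sum_congr rfl e1, Finset.sum_congr rfl e3]
  refine Finset.sum_comm' ?_
  intro d r
  simp only [Finset.mem_filter, Nat.mem_divisors, Finset.mem_Icc]
  constructor
  · rintro ⟨hd, ⟨hr, _⟩, hR⟩
    have h2 := hdy d hd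
    have h3 : r ≤ d := Nat.le_of_dvd (by omega) hr
    have h4 : 0 < r := Nat.pos_of_dvd_of_pos hr (by omega)
    exact ⟨⟨hd, hr⟩, ⟨by omega, by omega⟩, hR⟩
  · rintro ⟨⟨hd, hr⟩, _, hR⟩
    have h2 := hdy d hd
    exact ⟨hd, ⟨hr, by omega⟩, hR⟩

/-- **Module Ggb: expansion in exponential sums.** -/
theorem tGgb (h1 : RamStmt) (h2 : RmxStmt) : GgbStmt := by
  intro R Q J c a n
  rw [Complex.ofReal_sum, Finset.sum_congr rfl fun j _ => Ggb_gb h1 h2 R Q (c j) (a j) n,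
    Finset.sum_comm]
  refine Finset.sum_congr rfl fun r _ => ?_
  rw [Finset.sum_comm]
  refine Finset.sum_congr rfl fun h _ => ?_
  unfold zb
  rw [Finset.sum_mul]

end Pool.Agent.Lib.KF
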