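import Pool.Agent.Lib.KF.SpecV

namespace Pool.Agent.Lib.KF

open Finset Pool.Agent.Lib.EH3 Pool.Agent.Results.MP_00e23e_nt

private lemma Grd_li_sub {x x' : ℝ} (hx : 2 ≤ x) (hxx : x ≤ x') :
    li x' - li x ≤ 2 * (x' - x) := by
  have hint : ∀ a b : ℝ, 2 ≤ a → 2 ≤ b →
      IntervalIntegrable (fun t => (Real.log t)⁻¹) MeasureTheory.volume a b := by
    intro a b ha hb
    apply ContinuousOn.intervalIntegrable
    intro t ht
    have ht2 : 2 ≤ t := (le_min ha hb).trans ht.1
    apply ContinuousAt.continuousWithinAt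
    apply ContinuousAt.inv₀
    · exact Real.continuousAt_log (by linarith)
    · exact (Real.log_pos (by linarith)).ne'
  have h1 : li x' - li x = ∫ t in x..x', (Real.log t)⁻¹ := by
    unfold li
    rw [intervalIntegral.integral_interval_sub_left (hint 2 x' (by norm_num) (by linarith))
      (hint 2 x (by norm_num) (by linarith))]
  rw [h1]
  have h := intervalIntegral.norm_integral_le_of_norm_le_const (a := x) (b := x')
    (f := fun t => (Real.log t)⁻¹) (C := 2) (by
      intro t ht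
      rw [Set.uIoc_of_le hxx] at ht
      have h1 : Real.log 2 ≤ Real.log t := Real.log_le_log (by norm_num) (by linarith [ht.1])
      have h2 : (0.5 : ℝ) < Real.log 2 := by
        have := Real.log_two_gt_d9
        linarith
      rw [Real.norm_eq_abs, abs_of_nonneg (inv_nonneg.mpr (by linarith))]
      rw [show (2 : ℝ) = (0.5)⁻¹ by norm_num]
      exact inv_anti₀ (by norm_num) (by linarith))
  rw [abs_of_nonneg (by linarith)] at h
  have h2 := le_trans (le_abs_self _) h
  linarith

private lemma Grd_mono {x x' : ℝ} (hxx : x ≤ x') (d : ℕ) (a : ℤ) :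
    (resCount x d a : ℝ) ≤ resCount x' d a := by
  unfold resCount
  exact_mod_cast card_le_card (filter_subset_filter _ (Icc_subset_Icc_right (Nat.floor_mono hxx)))

private lemma Grd_up {x x' δ : ℝ} (hx : 2 ≤ x) (hxx : x ≤ x') (hδ : x' - x ≤ δ) (d : ℕ) (a : ℤ) (hd : 1 ≤ d) :
    resErr x d a ≤ |resErr x' d a| + 2 * δ / (d.totient : ℝ) ∧
      -resErr x' d a ≤ |resErr x d a| + 2 * δ / (d.totient : ℝ) := by
  have hφ : (0 : ℝ) < d.totient := by exact_mod_cast Nat.totient_pos.2 hd
  have h1 := Grd_li_sub hx hxx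
  have h2 := Grd_mono hxx d a
  have h3 : li x' / (d.totient : ℝ) - li x / (d.totient : ℝ) ≤ 2 * δ / (d.totient : ℝ) := by
    rw [← sub_div]
    exact div_le_div_of_nonneg_right (by linarith) hφ.le
  have h4 := le_abs_self (resErr x' d a)
  have h5 := neg_abs_le (resErr x d a)
  unfold resErr at *
  constructor
  · linarith
  · linarith

theorem tGrd : GrdStmt := by
  classical
  intro x y G d a hG hxG hy2 hyx hd
  have hφ : (0 : ℝ) < d.totient := by exact_mod_cast Nat.totient_pos.2 hd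
  have hG0 : (0 : ℝ) < G := by exact_mod_cast hG
  have hpt : ∀ i : ℕ, (i : ℝ) * x / G = i * (x / G) := fun i => mul_div_assoc _ _ _
  have hlast : y ≤ (G : ℝ) * x / G := by
    rw [mul_div_cancel_left₀ _ hG0.ne']
    exact hyx
  have hex : ∃ i : ℕ, y ≤ (i : ℝ) * x / G := ⟨G, hlast⟩
  obtain ⟨i, hi, hmin, hiG⟩ : ∃ i : ℕ, y ≤ (i : ℝ) * x / G ∧ (∀ j < i, ¬ y ≤ (j : ℝ) * x / G) ∧ i ≤ G :=
    ⟨Nat.find hex, Nat.find_spec hex, fun j hj => Nat.find_min hex hj, Nat.find_min' hex hlast⟩
  have hi0 : i ≠ 0 := by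
    rintro rfl
    rw [Nat.cast_zero, zero_mul, zero_div] at hi
    linarith
  obtain ⟨j, rfl⟩ := Nat.exists_eq_succ_of_ne_zero hi0
  rw [Nat.succ_eq_add_one] at *
  have hj := not_le.1 (hmin j (by omega))
  have hstep : ((j + 1 : ℕ) : ℝ) * x / G = (j : ℝ) * x / G + x / G := by
    rw [hpt, hpt]
    push_cast
    ring
  have hsum : ∀ m ∈ Icc 1 G, |resErr ((m : ℝ) * x / G) d a| ≤ ∑ i ∈ Icc 1 G, |resErr ((i : ℝ) * x / G) d a| :=
    fun m hm => single_le_sum (f := fun i : ℕ => |resErr ((i : ℝ) * x / G) d a|) (fun _ _ => abs_nonneg _) hm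
  have hδ : 2 * x / (G * (d.totient : ℝ)) = 2 * (x / G) / (d.totient : ℝ) := by
    rw [← div_div]
    ring
  rw [hδ]
  have hup := (Grd_up hy2 hi (δ := x / G) (by linarith) d a hd).1
  have h1 := hsum (j + 1) (mem_Icc.2 ⟨by omega, hiG⟩)
  rw [abs_le]
  constructor
  · rcases Nat.eq_zero_or_pos j with h0 | h0
    · subst h0
      have h2 := Pool.Agent.Lib.EH.li_le hy2
      have h3 : y ≤ x / G := by
        rw [hstep, Nat.cast_zero, zero_mul, zero_div, zero_add] at hi
        exact hi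
      have h4 : li y / (d.totient : ℝ) ≤ 2 * (x / G) / (d.totient : ℝ) :=
        div_le_div_of_nonneg_right (by linarith) hφ.le
      have h5 : (0 : ℝ) ≤ resCount y d a := Nat.cast_nonneg _
      have h6 : (0 : ℝ) ≤ ∑ i ∈ Icc 1 G, |resErr ((i : ℝ) * x / G) d a| :=
        sum_nonneg fun _ _ => abs_nonneg _
      have h7 : resErr y d a = (resCount y d a : ℝ) - li y / (d.totient : ℝ) := rfl
      rw [h7]
      linarith
    · have hj2 : 2 ≤ (j : ℝ) * x / G := by
        rw [hpt]
        have hj1 : (1 : ℝ) ≤ j := by exact_mod_cast h0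
        nlinarith
      have hlo := (Grd_up hj2 hj.le (δ := x / G) (by linarith) d a hd).2
      have h2 := hsum j (mem_Icc.2 ⟨h0, by omega⟩)
      linarith
  · linarith

end Pool.Agent.Lib.KF
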