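import Pool.Agent.Lib.KF.SpecV

/-!
MP_00e23e_nt, directory Lib/KF, module Zsb: the square sum of the coefficients for families of sets.
-/

namespace Pool.Agent.Lib.KF

open Finset Pool.Agent.Lib.EH3 Pool.Agent.Results.MP_00e23e_nt

private lemma Zsb_h {ι : Type} (S : Finset ι) (g : ι → ℝ) (α : ι → ℤ) {r : ℕ} (hr : 1 ≤ r) :
    (∑ h ∈ range r, ‖∑ i ∈ S, (g i : ℂ) * ee (-((α i : ℝ) * ((h : ℝ) / r)))‖ ^ 2 : ℝ) =
      r * ∑ i ∈ S, ∑ i' ∈ S, if (r : ℤ) ∣ α i' - α i then g i * g i' else 0 := by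
  have hr0 : (0 : ℝ) < r := by exact_mod_cast hr
  apply Complex.ofReal_injective
  have h1 : ∀ h : ℕ, ((‖∑ i ∈ S, (g i : ℂ) * ee (-((α i : ℝ) * ((h : ℝ) / r)))‖ ^ 2 : ℝ) : ℂ) =
      ∑ i ∈ S, ∑ i' ∈ S, ((g i : ℂ) * g i') * ee (h * (((α i' - α i : ℤ) : ℝ) / r)) := by
    intro h
    rw [Complex.ofReal_pow, ← Complex.mul_conj', map_sum, Finset.sum_mul_sum]
    refine Finset.sum_congr rfl fun i _ => Finset.sum_congr rfl fun i' _ => ?_
    rw [map_mul, Complex.conj_ofReal, conj_ee, neg_neg]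
    have h2 : ee (h * (((α i' - α i : ℤ) : ℝ) / r)) =
        ee (-((α i : ℝ) * ((h : ℝ) / r))) * ee ((α i' : ℝ) * ((h : ℝ) / r)) := by
      rw [← ee_add]
      congr 1
      push_cast
      ring
    rw [h2]
    ring
  rw [Complex.ofReal_sum]
  simp only [h1]
  rw [Finset.sum_comm, Complex.ofReal_mul, Complex.ofReal_sum, Finset.mul_sum]
  refine Finset.sum_congr rfl fun i _ => ?_
  rw [Finset.sum_comm, Complex.ofReal_sum, Finset.mul_sum]
  refine Finset.sum_congr rfl fun i' _ => ?_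
  rw [← Finset.mul_sum, orth (by omega) (α i' - α i)]
  by_cases hd : (r : ℤ) ∣ α i' - α i
  · rw [if_pos hd, if_pos hd]
    push_cast
    ring
  · rw [if_neg hd, if_neg hd]
    push_cast
    ring

/-- the number of pairs b ∈ A j, b' ∈ A k with r | b' - b, or 1 for j = k -/
private noncomputable def Zsb_X (A : ℕ → Finset ℤ) (r j k : ℕ) : ℝ :=
  if j = k then 1 else ∑ b ∈ A j, ∑ b' ∈ A k, if (r : ℤ) ∣ b' - b then (1 : ℝ) else 0

private lemma Zsb_X_nonneg (A : ℕ → Finset ℤ) (r j k : ℕ) : 0 ≤ Zsb_X A r j k := by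
  unfold Zsb_X
  split_ifs
  · exact zero_le_one
  · refine Finset.sum_nonneg fun a _ => Finset.sum_nonneg fun b _ => ?_
    split_ifs <;> norm_num

private lemma Zsb_pair {J : Finset ℕ} {A : ℕ → Finset ℤ} {a : ℕ → ℕ → ℤ} (r : ℕ)
    (hA : ∀ j ∈ J, ∀ d, a j d ∈ A j) {j k : ℕ} (hj : j ∈ J) (hk : k ∈ J) (d d' : ℕ) :
    (if (r : ℤ) ∣ a k d' - a j d then (1 : ℝ) else 0) ≤ Zsb_X A r j k := by
  unfold Zsb_X
  by_cases hjk : j = k
  · rw [if_pos hjk]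
    split_ifs <;> norm_num
  · rw [if_neg hjk]
    have h0 : ∀ b ∈ A j, ∀ b' ∈ A k, (0 : ℝ) ≤ if (r : ℤ) ∣ b' - b then (1 : ℝ) else 0 := by
      intro b _ b' _
      split_ifs <;> norm_num
    calc (if (r : ℤ) ∣ a k d' - a j d then (1 : ℝ) else 0)
        ≤ ∑ b' ∈ A k, if (r : ℤ) ∣ b' - a j d then (1 : ℝ) else 0 :=
          Finset.single_le_sum (f := fun b' => if (r : ℤ) ∣ b' - a j d then (1 : ℝ) else 0)
            (fun b' hb' => h0 _ (hA j hj d) b' hb') (hA k hk d')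
      _ ≤ ∑ b ∈ A j, ∑ b' ∈ A k, if (r : ℤ) ∣ b' - b then (1 : ℝ) else 0 :=
          Finset.single_le_sum
            (f := fun b => ∑ b' ∈ A k, if (r : ℤ) ∣ b' - b then (1 : ℝ) else 0)
            (fun b hb => Finset.sum_nonneg fun b' hb' => h0 b hb b' hb') (hA j hj d)

private lemma Zsb_r {Q : ℝ} {J : Finset ℕ} {A : ℕ → Finset ℤ} {c : ℕ → ℕ → ℝ} {a : ℕ → ℕ → ℤ}
    {r : ℕ} (hQ : 1 ≤ Q) (hr : 1 ≤ r) (hc : ∀ j d, |c j d| ≤ 1) (hA : ∀ j ∈ J, ∀ d, a j d ∈ A j) :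
    ∑ h ∈ (range r).filter (fun h => h.Coprime r), ‖zb Q J c a r h‖ ^ 2 ≤
      4 / r * ∑ j ∈ J, ∑ k ∈ J, Zsb_X A r j k := by
  have hr0 : (0 : ℝ) < r := by exact_mod_cast hr
  have hQ0 : (0 : ℝ) < Q := by linarith
  set D : Finset ℕ := (dy Q).filter (fun d => r ∣ d) with hD
  have hDc : (D.card : ℝ) ≤ 2 * Q / r := card_dy_dvd_le hQ0.le hr
  have hw : ∀ j, ∀ d ∈ D, |c j d / d| ≤ 1 / Q := by
    intro j d hd
    have h1 := (mem_dy hQ0.le).1 (Finset.mem_filter.1 hd).1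
    have h2 : (0 : ℝ) < d := by linarith [h1.1]
    rw [abs_div, abs_of_pos h2]
    exact div_le_div₀ zero_le_one (hc j d) hQ0 h1.1.le
  have hz : ∀ h, zb Q J c a r h = ∑ p ∈ J ×ˢ D, ((c p.1 p.2 / p.2 : ℝ) : ℂ) *
      ee (-((a p.1 p.2 : ℝ) * ((h : ℝ) / r))) := by
    intro h
    unfold zb
    rw [Finset.sum_product]
  calc ∑ h ∈ (range r).filter (fun h => h.Coprime r), ‖zb Q J c a r h‖ ^ 2
      ≤ ∑ h ∈ range r, ‖zb Q J c a r h‖ ^ 2 :=
        Finset.sum_le_sum_of_subset_of_nonneg (Finset.filter_subset _ _) fun _ _ _ => by positivity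
    _ = r * ∑ p ∈ J ×ˢ D, ∑ p' ∈ J ×ˢ D, (if (r : ℤ) ∣ a p'.1 p'.2 - a p.1 p.2 then
          (c p.1 p.2 / p.2) * (c p'.1 p'.2 / p'.2) else 0) := by
        simp only [hz]
        exact Zsb_h (J ×ˢ D) (fun p => c p.1 p.2 / p.2) (fun p => a p.1 p.2) hr
    _ ≤ r * ∑ p ∈ J ×ˢ D, ∑ p' ∈ J ×ˢ D, (1 / Q) ^ 2 * Zsb_X A r p.1 p'.1 := by
        refine mul_le_mul_of_nonneg_left ?_ hr0.le
        refine Finset.sum_le_sum fun p hp => Finset.sum_le_sum fun p' hp' => ?_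
        have hp1 := Finset.mem_product.1 hp
        have hp1' := Finset.mem_product.1 hp'
        have h3 := Zsb_pair r hA hp1.1 hp1'.1 p.2 p'.2
        by_cases hd : (r : ℤ) ∣ a p'.1 p'.2 - a p.1 p.2
        · rw [if_pos hd] at h3 ⊢
          have h1 := hw p.1 p.2 hp1.2
          have h2 := hw p'.1 p'.2 hp1'.2
          calc (c p.1 p.2 / p.2) * (c p'.1 p'.2 / p'.2)
              ≤ |(c p.1 p.2 / p.2) * (c p'.1 p'.2 / p'.2)| := le_abs_self _
            _ = |c p.1 p.2 / p.2| * |c p'.1 p'.2 / p'.2| := abs_mul _ _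
            _ ≤ 1 / Q * (1 / Q) := mul_le_mul h1 h2 (abs_nonneg _) (by positivity)
            _ = (1 / Q) ^ 2 * 1 := by ring
            _ ≤ (1 / Q) ^ 2 * Zsb_X A r p.1 p'.1 :=
              mul_le_mul_of_nonneg_left h3 (by positivity)
        · rw [if_neg hd]
          exact mul_nonneg (by positivity) (Zsb_X_nonneg A r _ _)
    _ = r * ((1 / Q) ^ 2 * ((D.card : ℝ) ^ 2 * ∑ j ∈ J, ∑ k ∈ J, Zsb_X A r j k)) := by
        congr 1
        have e1 : ∀ p : ℕ × ℕ, ∑ p' ∈ J ×ˢ D, (1 / Q) ^ 2 * Zsb_X A r p.1 p'.1 =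
            (1 / Q) ^ 2 * ((D.card : ℝ) * ∑ k ∈ J, Zsb_X A r p.1 k) := by
          intro p
          rw [← Finset.mul_sum, Finset.sum_product]
          congr 1
          simp only [Finset.sum_const, nsmul_eq_mul]
          rw [← Finset.mul_sum]
        simp only [e1]
        rw [← Finset.mul_sum, Finset.sum_product]
        congr 1
        simp only [Finset.sum_const, nsmul_eq_mul, ← Finset.mul_sum]
        ring
    _ ≤ r * ((1 / Q) ^ 2 * ((2 * Q / r) ^ 2 * ∑ j ∈ J, ∑ k ∈ J, Zsb_X A r j k)) := by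
        have h5 : 0 ≤ ∑ j ∈ J, ∑ k ∈ J, Zsb_X A r j k :=
          Finset.sum_nonneg fun j _ => Finset.sum_nonneg fun k _ => Zsb_X_nonneg A r j k
        have h6 : (D.card : ℝ) ^ 2 ≤ (2 * Q / r) ^ 2 := pow_le_pow_left₀ (Nat.cast_nonneg _) hDc 2
        gcongr
    _ = 4 / r * ∑ j ∈ J, ∑ k ∈ J, Zsb_X A r j k := by
        field_simp
        ring

private lemma Zsb_count {r0 : ℕ} {T : ℝ} (m : ℤ) (hm : m ≠ 0) (hT : tau m.natAbs ≤ T) :
    (∑ r ∈ Ioc r0 (2 * r0), if ((r : ℕ) : ℤ) ∣ m then (1 : ℝ) else 0) ≤ T := by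
  refine le_trans ?_ hT
  rw [← Finset.sum_filter, Finset.sum_const, nsmul_eq_mul, mul_one]
  unfold tau
  have h : ((Ioc r0 (2 * r0)).filter (fun r : ℕ => (r : ℤ) ∣ m)).card ≤ m.natAbs.divisors.card := by
    refine Finset.card_le_card fun r hr => ?_
    rw [Nat.mem_divisors]
    exact ⟨Int.natCast_dvd.1 (Finset.mem_filter.1 hr).2, by simpa using hm⟩
  exact_mod_cast h

private lemma Zsb_X_sum {J : Finset ℕ} {A : ℕ → Finset ℤ} {a : ℕ → ℕ → ℤ} {M T : ℝ} {r0 : ℕ}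
    (hT : 0 ≤ T) (hM : 0 ≤ M) (hF : Fam J A a M T) {j k : ℕ} (hj : j ∈ J) (hk : k ∈ J) :
    ∑ r ∈ Ioc r0 (2 * r0), Zsb_X A r j k ≤ (if j = k then (r0 : ℝ) else 0) + T * M ^ 2 := by
  obtain ⟨-, hM1, hF⟩ := hF
  unfold Zsb_X
  by_cases hjk : j = k
  · simp only [if_pos hjk]
    rw [Finset.sum_const, Nat.card_Ioc, nsmul_eq_mul, mul_one]
    have : 2 * r0 - r0 = r0 := by omega
    rw [this]
    have : 0 ≤ T * M ^ 2 := by positivity
    linarith
  · simp only [if_neg hjk]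
    rw [zero_add, Finset.sum_comm]
    calc ∑ b ∈ A j, ∑ r ∈ Ioc r0 (2 * r0), ∑ b' ∈ A k,
          (if (r : ℤ) ∣ b' - b then (1 : ℝ) else 0)
        ≤ ∑ b ∈ A j, ∑ b' ∈ A k, T := by
          refine Finset.sum_le_sum fun b hb => ?_
          rw [Finset.sum_comm]
          refine Finset.sum_le_sum fun b' hb' => ?_
          obtain ⟨h1, h2⟩ := hF k hk j hj (Ne.symm hjk) b' hb' b hb
          exact Zsb_count (b' - b) (sub_ne_zero.2 h1) h2
      _ = ((A j).card : ℝ) * (((A k).card : ℝ) * T) := by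
          simp only [Finset.sum_const, nsmul_eq_mul]
      _ ≤ M * (M * T) := by
          have h1 := hM1 j hj
          have h2 := hM1 k hk
          gcongr
      _ = T * M ^ 2 := by ring

theorem tZsb : ZsbStmt := by
  intro Q T M J A c a r0 hQ hr0 hT hM hc hF
  have hr1 : (0 : ℝ) < r0 := by exact_mod_cast hr0
  have h1 : ∀ r ∈ Ioc r0 (2 * r0), ∑ h ∈ (range r).filter (fun h => h.Coprime r),
      ‖zb Q J c a r h‖ ^ 2 ≤ 4 / r0 * ∑ j ∈ J, ∑ k ∈ J, Zsb_X A r j k := by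
    intro r hr
    have hrr := Finset.mem_Ioc.1 hr
    refine (Zsb_r hQ (by omega) hc hF.1).trans ?_
    refine mul_le_mul_of_nonneg_right ?_ ?_
    · have h2 : (r0 : ℝ) ≤ r := by exact_mod_cast hrr.1.le
      exact div_le_div_of_nonneg_left (by norm_num) hr1 h2
    · exact Finset.sum_nonneg fun j _ => Finset.sum_nonneg fun k _ => Zsb_X_nonneg A r j k
  calc ∑ r ∈ Ioc r0 (2 * r0), ∑ h ∈ (range r).filter (fun h => h.Coprime r), ‖zb Q J c a r h‖ ^ 2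
      ≤ ∑ r ∈ Ioc r0 (2 * r0), 4 / r0 * ∑ j ∈ J, ∑ k ∈ J, Zsb_X A r j k := Finset.sum_le_sum h1
    _ = 4 / r0 * ∑ j ∈ J, ∑ k ∈ J, ∑ r ∈ Ioc r0 (2 * r0), Zsb_X A r j k := by
        rw [← Finset.mul_sum, Finset.sum_comm]
        congr 1
        exact Finset.sum_congr rfl fun j _ => Finset.sum_comm
    _ ≤ 4 / r0 * ∑ j ∈ J, ∑ k ∈ J, ((if j = k then (r0 : ℝ) else 0) + T * M ^ 2) := by
        refine mul_le_mul_of_nonneg_left ?_ (by positivity)
        exact Finset.sum_le_sum fun j hj => Finset.sum_le_sum fun k hk =>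
          Zsb_X_sum hT hM hF hj hk
    _ = 4 * ((J.card : ℝ) + (J.card : ℝ) ^ 2 * (T * M ^ 2) / r0) := by
        have h3 : ∀ j ∈ J, ∑ k ∈ J, ((if j = k then (r0 : ℝ) else 0) + T * M ^ 2) =
            r0 + J.card * (T * M ^ 2) := by
          intro j hj
          rw [Finset.sum_add_distrib, Finset.sum_ite_eq, if_pos hj, Finset.sum_const, nsmul_eq_mul]
        rw [Finset.sum_congr rfl h3, Finset.sum_const, nsmul_eq_mul]
        field_simp

end Pool.Agent.Lib.KF
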