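import Pool.Agent.Lib.KF.AllW
import Pool.Agent.Lib.KF.Zsb
import Pool.Agent.Lib.KF.Ggb
import Pool.Agent.Lib.KF.Wlb
import Pool.Agent.Lib.KF.Ttb
import Pool.Agent.Lib.KF.Bvy
import Pool.Agent.Lib.KF.Blb
import Pool.Agent.Lib.KF.Wbb
import Pool.Agent.Lib.KF.Grd
import Pool.Agent.Lib.KF.Wde
import Pool.Agent.Lib.KF.Wfb

/-!
Assembly of part V of Lib/KF: levels up to x^(1-ε), pairwise disjoint sets of residues.
-/

namespace Pool.Agent.Lib.KF

theorem aZsb : ZsbStmt := tZsb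
theorem aGgb : GgbStmt := tGgb aRam aRmx
theorem aWlb : WlbStmt := tWlb aFls aZsb aGgb
theorem aTtb : TtbStmt := tTtb aLam aDsb aElp
theorem aBvy : BvyStmt := tBvy Pool.Agent.Lib.BV.aExt
theorem aBlb : BlbStmt := tBlb
theorem aWbb : WbbStmt := tWbb aDvb aTtb aBvy aBlb aWlb
theorem aGrd : GrdStmt := tGrd
theorem aWde : WdeStmt := tWde
theorem aWfb : WfbStmt := tWfb aRse aBvy aWbb aGrd aWde

end Pool.Agent.Lib.KF
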