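import Pool.Agent.Lib.KF.SpecF

/-!
MP_00e23e_nt, directory Lib/KF, module Blc: the sum of the absolute error terms in terms of gg.
-/

namespace Pool.Agent.Lib.KF

open Finset Pool.Agent.Lib.EH3 Pool.Agent.Results.MP_00e23e_nt

private lemma Blc_count (x : ℝ) (d : ℕ) (a : ℤ) :
    (resCount x d a : ℝ) =
      ∑ p ∈ (Icc 1 ⌊x⌋₊).filter Nat.Prime, (if (d : ℤ) ∣ (p : ℤ) - a then (1 : ℝ) else 0) := by
  unfold resCount
  rw [Finset.sum_boole, Finset.filter_filter]

private lemma Blc_gg (x Q : ℝ) (R : ℕ) (a : ℤ) :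
    (∑ p ∈ (Icc 1 ⌊x⌋₊).filter Nat.Prime, gg R Q (sgn x a) ((p : ℤ) - a)) =
      ∑ d ∈ dya Q a, sgn x a d * ((resCount x d a : ℝ) - ellp x R d a) := by
  unfold gg
  rw [Finset.sum_comm]
  have h1 : ∀ d ∈ dy Q, (∑ p ∈ (Icc 1 ⌊x⌋₊).filter Nat.Prime,
      sgn x a d * ((if (d : ℤ) ∣ (p : ℤ) - a then (1 : ℝ) else 0) - ell R d ((p : ℤ) - a))) =
      sgn x a d * ((resCount x d a : ℝ) - ellp x R d a) := by
    intro d _
    rw [← Finset.mul_sum, Finset.sum_sub_distrib, Blc_count, ellp]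
  rw [Finset.sum_congr rfl h1, dya, Finset.sum_filter]
  refine Finset.sum_congr rfl fun d _ => ?_
  split_ifs with h
  · rfl
  · unfold sgn
    rw [if_neg h, zero_mul]

/-- the sum of the absolute error terms in terms of gg -/
theorem tBlc : BlcStmt := by
  intro x Q R a
  rw [Blc_gg, ← Finset.sum_add_distrib]
  refine Finset.sum_le_sum fun d hd => ?_
  have hg : Int.gcd a d = 1 := (Finset.mem_filter.1 hd).2
  have h1 := le_abs_self (ellp x R d a - li x / (d.totient : ℝ))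
  have h2 := neg_abs_le (ellp x R d a - li x / (d.totient : ℝ))
  unfold sgn
  rw [if_pos hg]
  split_ifs with h
  · rw [abs_of_nonneg h]
    unfold resErr
    linarith
  · rw [abs_of_neg (not_le.1 h)]
    unfold resErr
    linarith

end Pool.Agent.Lib.KF
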