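import Pool.Agent.Lib.KF.SpecL

/-! MP_00e23e_nt, Lib/KF: module Dsb (divisor sums). -/

namespace Pool.Agent.Lib.KF

open Finset Pool.Agent.Lib.EH3

private lemma Dsb_harm (n : ℕ) : ∑ a ∈ Icc 1 n, 1 / (a : ℝ) ≤ 1 + Real.log n := by
  have h1 := harmonic_le_one_add_log n
  rw [harmonic_eq_sum_Icc] at h1
  push_cast at h1
  simpa only [one_div] using h1

/-- the number of divisors as an arithmetic function -/
private noncomputable def Dsb_t : ArithmeticFunction ℝ :=
  ⟨fun n => tau n, by simp [tau]⟩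

private lemma Dsb_tau (n : ℕ) : tau n = ∑ _a ∈ n.divisors, (1 : ℝ) := by
  simp [tau]

private lemma Dsb_mul (n : ℕ) (f g : ArithmeticFunction ℝ) :
    ∑ m ∈ Icc 1 n, (f * g) m = ∑ a ∈ Icc 1 n, f a * ∑ b ∈ Icc 1 (n / a), g b := by
  have h := ArithmeticFunction.sum_Ioc_mul_eq_sum_sum f g n
  exact h

private lemma Dsb_z : Dsb_t = (ArithmeticFunction.zeta : ArithmeticFunction ℝ) *
    (ArithmeticFunction.zeta : ArithmeticFunction ℝ) := by
  ext n
  rw [ArithmeticFunction.coe_zeta_mul_apply]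
  change tau n = _
  rw [Dsb_tau]
  refine Finset.sum_congr rfl fun a ha => ?_
  have h1 := Nat.pos_of_mem_divisors ha
  rw [ArithmeticFunction.natCoe_apply, ArithmeticFunction.zeta_apply, if_neg h1.ne']
  simp

private lemma Dsb_one (N : ℕ) (hN : 1 ≤ N) : ∑ m ∈ Icc 1 N, tau m ≤ N * (1 + Real.log N) := by
  have h1 : ∑ m ∈ Icc 1 N, tau m = ∑ m ∈ Icc 1 N, Dsb_t m := rfl
  rw [h1, Dsb_z, Dsb_mul]
  calc _ ≤ ∑ a ∈ Icc 1 N, (N : ℝ) * (1 / (a : ℝ)) := by
        refine Finset.sum_le_sum fun a ha => ?_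
        rw [Finset.mem_Icc] at ha
        rw [ArithmeticFunction.natCoe_apply, ArithmeticFunction.zeta_apply, if_neg (by omega)]
        have h2 : ∑ b ∈ Icc 1 (N / a), (ArithmeticFunction.zeta : ArithmeticFunction ℝ) b =
            ((N / a : ℕ) : ℝ) := by
          have h3 : ∀ b ∈ Icc 1 (N / a), (ArithmeticFunction.zeta : ArithmeticFunction ℝ) b =
              (1 : ℝ) := by
            intro b hb
            rw [Finset.mem_Icc] at hb
            rw [ArithmeticFunction.natCoe_apply, ArithmeticFunction.zeta_apply,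
              if_neg (by omega)]
            simp
          rw [Finset.sum_congr rfl h3]
          simp
        rw [h2]
        have h4 : ((N / a : ℕ) : ℝ) ≤ (N : ℝ) / a := Nat.cast_div_le
        rw [Nat.cast_one, one_mul, mul_one_div]
        exact h4
    _ = N * ∑ a ∈ Icc 1 N, 1 / (a : ℝ) := by rw [Finset.mul_sum]
    _ ≤ N * (1 + Real.log N) := mul_le_mul_of_nonneg_left (Dsb_harm N) (by positivity)

private lemma Dsb_tau0 (n : ℕ) : 0 ≤ tau n := by
  unfold tau
  positivity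

private lemma Dsb_sub (u v : ℕ) : tau (u * v) ≤ tau u * tau v := by
  have h : (u * v).divisors.card ≤ u.divisors.card * v.divisors.card := by
    open Pointwise in
    rw [Nat.divisors_mul]
    exact Finset.card_mul_le
  unfold tau
  exact_mod_cast h

private lemma Dsb_anti (r : ℕ) : (r.divisorsAntidiagonal.card : ℝ) = tau r := by
  have h := Nat.sum_divisorsAntidiagonal (n := r) (f := fun _ _ => (1 : ℕ))
  have h' : r.divisorsAntidiagonal.card = r.divisors.card := by simpa using h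
  rw [h', tau]

private lemma Dsb_sq (m : ℕ) : (tau m) ^ 2 ≤ (Dsb_t * Dsb_t) m := by
  rw [ArithmeticFunction.mul_apply]
  calc (tau m) ^ 2 = ∑ _q ∈ m.divisorsAntidiagonal, tau m := by
        rw [Finset.sum_const, nsmul_eq_mul, Dsb_anti]
        ring
    _ ≤ ∑ q ∈ m.divisorsAntidiagonal, Dsb_t q.1 * Dsb_t q.2 := by
        refine Finset.sum_le_sum fun q hq => ?_
        rw [Nat.mem_divisorsAntidiagonal] at hq
        rw [← hq.1]
        exact Dsb_sub q.1 q.2

private lemma Dsb_quot (N : ℕ) : ∑ a ∈ Icc 1 N, tau a / (a : ℝ) ≤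
    (∑ a ∈ Icc 1 N, 1 / (a : ℝ)) ^ 2 := by
  rw [sq, Finset.sum_mul_sum, ← Finset.sum_product']
  have h1 : ∀ m ∈ Icc 1 N, tau m / (m : ℝ) =
      ∑ q ∈ m.divisorsAntidiagonal, 1 / (q.1 : ℝ) * (1 / (q.2 : ℝ)) := by
    intro m _
    have h2 : ∀ q ∈ m.divisorsAntidiagonal, 1 / (q.1 : ℝ) * (1 / (q.2 : ℝ)) = 1 / (m : ℝ) := by
      intro q hq
      rw [Nat.mem_divisorsAntidiagonal] at hq
      rw [← hq.1]
      push_cast
      rw [one_div_mul_one_div]
    rw [Finset.sum_congr rfl h2, Finset.sum_const, nsmul_eq_mul, Dsb_anti, mul_one_div]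
  rw [Finset.sum_congr rfl h1, ← Finset.sum_biUnion]
  · refine Finset.sum_le_sum_of_subset_of_nonneg ?_ fun q _ _ => by positivity
    intro q hq
    rw [mem_biUnion] at hq
    obtain ⟨r, hr, hq⟩ := hq
    rw [Nat.mem_divisorsAntidiagonal] at hq
    rw [mem_Icc] at hr
    rw [mem_product, mem_Icc, mem_Icc]
    have h1 : q.1 ≠ 0 := fun h => hq.2 (by rw [← hq.1, h, zero_mul])
    have h2 : q.2 ≠ 0 := fun h => hq.2 (by rw [← hq.1, h, mul_zero])
    have h3 : q.1 ≤ r := by
      rw [← hq.1]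
      exact Nat.le_mul_of_pos_right _ (Nat.pos_of_ne_zero h2)
    have h4 : q.2 ≤ r := by
      rw [← hq.1]
      exact Nat.le_mul_of_pos_left _ (Nat.pos_of_ne_zero h1)
    exact ⟨⟨by omega, by omega⟩, ⟨by omega, by omega⟩⟩
  · intro r _ s _ hrs
    show Disjoint r.divisorsAntidiagonal s.divisorsAntidiagonal
    rw [Finset.disjoint_left]
    intro q h1 h2
    rw [Nat.mem_divisorsAntidiagonal] at h1 h2
    exact hrs (h1.1.symm.trans h2.1)

theorem tDsb : DsbStmt := by
  refine ⟨Dsb_one, fun N hN => ?_⟩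
  have hlog : 0 ≤ Real.log N := Real.log_nonneg (by exact_mod_cast hN)
  have hH := Dsb_harm N
  have hH0 : 0 ≤ ∑ a ∈ Icc 1 N, 1 / (a : ℝ) := Finset.sum_nonneg fun a _ => by positivity
  calc ∑ m ∈ Icc 1 N, (tau m) ^ 2 ≤ ∑ m ∈ Icc 1 N, (Dsb_t * Dsb_t) m :=
        Finset.sum_le_sum fun m _ => Dsb_sq m
    _ = ∑ a ∈ Icc 1 N, tau a * ∑ b ∈ Icc 1 (N / a), tau b := Dsb_mul N Dsb_t Dsb_t
    _ ≤ ∑ a ∈ Icc 1 N, tau a * ((N : ℝ) / a * (1 + Real.log N)) := by
        refine Finset.sum_le_sum fun a ha => ?_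
        rw [Finset.mem_Icc] at ha
        refine mul_le_mul_of_nonneg_left ?_ (Dsb_tau0 a)
        have h1 : 1 ≤ N / a := Nat.div_pos ha.2 (by omega)
        have h2 : ((N / a : ℕ) : ℝ) ≤ (N : ℝ) / a := Nat.cast_div_le
        have h3 : ((N / a : ℕ) : ℝ) ≤ (N : ℝ) := by exact_mod_cast Nat.div_le_self N a
        have h4 : Real.log ((N / a : ℕ) : ℝ) ≤ Real.log N :=
          Real.log_le_log (by exact_mod_cast h1) h3
        refine (Dsb_one _ h1).trans ?_
        refine mul_le_mul h2 (by linarith) ?_ (by positivity)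
        have h5 : 0 ≤ Real.log ((N / a : ℕ) : ℝ) := Real.log_nonneg (by exact_mod_cast h1)
        linarith
    _ = N * (1 + Real.log N) * ∑ a ∈ Icc 1 N, tau a / (a : ℝ) := by
        rw [Finset.mul_sum]
        refine Finset.sum_congr rfl fun a _ => ?_
        ring
    _ ≤ N * (1 + Real.log N) * (1 + Real.log N) ^ 2 := by
        refine mul_le_mul_of_nonneg_left ?_ (by positivity)
        exact (Dsb_quot N).trans (pow_le_pow_left₀ hH0 hH 2)
    _ = N * (1 + Real.log N) ^ 3 := by ring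

end Pool.Agent.Lib.KF
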