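import Pool.Agent.Lib.KF.SpecK

set_option autoImplicit false

/-! The divisor bound. -/

namespace Pool.Agent.Lib.KF

open Finset Pool.Agent.Lib.EH3

/-- the factor of a small prime -/
private lemma Dvb_small {ε : ℝ} (hε : 0 < ε) {p : ℕ} (hp : 2 ≤ p) (a : ℕ) :
    ((a : ℝ) + 1) ≤ max 1 (1 / (ε * Real.log 2)) * ((p : ℝ) ^ ε) ^ a := by
  have hlog : 0 < Real.log 2 := Real.log_pos (by norm_num)
  have hc : 0 < ε * Real.log 2 := mul_pos hε hlog
  have hK1 : 1 ≤ max 1 (1 / (ε * Real.log 2)) := le_max_left _ _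
  have hK2 : 1 / (ε * Real.log 2) ≤ max 1 (1 / (ε * Real.log 2)) := le_max_right _ _
  set K := max 1 (1 / (ε * Real.log 2)) with hK
  have hp2 : (2 : ℝ) ≤ p := by exact_mod_cast hp
  have h1 : (2 : ℝ) ^ ε ≤ (p : ℝ) ^ ε := Real.rpow_le_rpow (by norm_num) hp2 hε.le
  have h2 : ((2 : ℝ) ^ ε) ^ a ≤ ((p : ℝ) ^ ε) ^ a := pow_le_pow_left₀ (by positivity) h1 a
  have h3 : 1 + (a : ℝ) * (ε * Real.log 2) ≤ ((2 : ℝ) ^ ε) ^ a := by
    have h4 : (2 : ℝ) ^ ε = Real.exp (ε * Real.log 2) := by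
      rw [Real.rpow_def_of_pos (by norm_num), mul_comm]
    rw [h4, ← Real.exp_nat_mul]
    have := Real.add_one_le_exp ((a : ℝ) * (ε * Real.log 2))
    linarith
  have ha : (0 : ℝ) ≤ a := Nat.cast_nonneg a
  have h5 : (a : ℝ) ≤ K * (a * (ε * Real.log 2)) := by
    have h6 : 1 ≤ K * (ε * Real.log 2) := by
      have := mul_le_mul_of_nonneg_right hK2 hc.le
      rwa [one_div, inv_mul_cancel₀ hc.ne'] at this
    calc (a : ℝ) = a * 1 := (mul_one _).symm
      _ ≤ a * (K * (ε * Real.log 2)) := mul_le_mul_of_nonneg_left h6 ha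
      _ = K * (a * (ε * Real.log 2)) := by ring
  calc (a : ℝ) + 1 ≤ K * (1 + a * (ε * Real.log 2)) := by linarith
    _ ≤ K * ((p : ℝ) ^ ε) ^ a :=
      mul_le_mul_of_nonneg_left (h3.trans h2) (by linarith)

/-- the factor of a large prime -/
private lemma Dvb_large {ε : ℝ} (hε : 0 < ε) {p : ℕ} (hp : (2 : ℝ) ^ (1 / ε) ≤ p) (a : ℕ) :
    ((a : ℝ) + 1) ≤ ((p : ℝ) ^ ε) ^ a := by
  have h1 : (2 : ℝ) ≤ (p : ℝ) ^ ε := by
    have h2 : ((2 : ℝ) ^ (1 / ε)) ^ ε ≤ (p : ℝ) ^ ε :=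
      Real.rpow_le_rpow (by positivity) hp hε.le
    rwa [← Real.rpow_mul (by norm_num), one_div, inv_mul_cancel₀ hε.ne', Real.rpow_one] at h2
  have h3 : (2 : ℝ) ^ a ≤ ((p : ℝ) ^ ε) ^ a := pow_le_pow_left₀ (by norm_num) h1 a
  have h4 : ((a : ℝ) + 1) ≤ (2 : ℝ) ^ a := by
    have : a + 1 ≤ 2 ^ a := Nat.succ_le_of_lt (Nat.lt_two_pow_self)
    exact_mod_cast this
  exact h4.trans h3

private lemma Dvb_pow (ε : ℝ) (n : ℕ) (hn : n ≠ 0) :
    (n : ℝ) ^ ε = ∏ p ∈ n.primeFactors, ((p : ℝ) ^ ε) ^ (n.factorization p) := by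
  have h1 : (n : ℝ) = ∏ p ∈ n.primeFactors, (p : ℝ) ^ (n.factorization p) := by
    have h2 : n = ∏ p ∈ n.primeFactors, p ^ (n.factorization p) :=
      (Nat.factorization_prod_pow_eq_self hn).symm
    conv_lhs => rw [h2]
    push_cast
    rfl
  conv_lhs => rw [h1]
  rw [← Real.finset_prod_rpow _ _ (fun p _ => by positivity)]
  refine prod_congr rfl fun p _ => ?_
  rw [← Real.rpow_natCast, ← Real.rpow_mul (by positivity), mul_comm,
    Real.rpow_mul (by positivity), Real.rpow_natCast]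

theorem tDvb : DvbStmt := by
  intro ε hε
  set K := max 1 (1 / (ε * Real.log 2)) with hK
  have hK1 : 1 ≤ K := le_max_left _ _
  set P : ℕ := ⌈(2 : ℝ) ^ (1 / ε)⌉₊ with hP
  refine ⟨K ^ P, by positivity, fun n hn => ?_⟩
  have hn0 : n ≠ 0 := by omega
  have h1 : tau n = ∏ p ∈ n.primeFactors, ((n.factorization p : ℝ) + 1) := by
    unfold tau
    rw [Nat.card_divisors hn0]
    push_cast
    rfl
  have h2 : ∀ p ∈ n.primeFactors, ((n.factorization p : ℝ) + 1) ≤
      (if p < P then K else 1) * ((p : ℝ) ^ ε) ^ (n.factorization p) := by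
    intro p hp
    have hp2 : 2 ≤ p := (Nat.prime_of_mem_primeFactors hp).two_le
    split_ifs with hpP
    · exact Dvb_small hε hp2 _
    · rw [one_mul]
      apply Dvb_large hε
      have h3 : ((P : ℕ) : ℝ) ≤ p := by exact_mod_cast not_lt.1 hpP
      exact (Nat.le_ceil _).trans h3
  have h3 : ∏ p ∈ n.primeFactors, (if p < P then K else 1) ≤ K ^ P := by
    rw [prod_ite, prod_const, prod_const_one, mul_one]
    apply pow_le_pow_right₀ hK1
    calc (n.primeFactors.filter fun p => p < P).card ≤ (range P).card := by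
          apply card_le_card
          intro p hp
          rw [mem_filter] at hp
          exact mem_range.2 hp.2
      _ = P := card_range P
  rw [h1, Dvb_pow ε n hn0]
  calc ∏ p ∈ n.primeFactors, ((n.factorization p : ℝ) + 1)
      ≤ ∏ p ∈ n.primeFactors, ((if p < P then K else 1) * ((p : ℝ) ^ ε) ^ (n.factorization p)) :=
        prod_le_prod (fun p _ => by positivity) h2
    _ = (∏ p ∈ n.primeFactors, (if p < P then K else 1)) *
        ∏ p ∈ n.primeFactors, ((p : ℝ) ^ ε) ^ (n.factorization p) := prod_mul_distrib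
    _ ≤ K ^ P * ∏ p ∈ n.primeFactors, ((p : ℝ) ^ ε) ^ (n.factorization p) :=
        mul_le_mul_of_nonneg_right h3 (prod_nonneg fun p _ => by positivity)

end Pool.Agent.Lib.KF
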