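import Pool.Agent.Lib.KF.SpecF

/-!
Module Elp: the sum over the primes of the model.
-/

namespace Pool.Agent.Lib.KF

open Finset Pool.Agent.Lib.EH3 Pool.Agent.Results.MP_00e23e_nt

private lemma Elp_swap (x : ℝ) (R d : ℕ) (a : ℤ) :
    ellp x R d a = ∑ e ∈ d.divisors, lam R d e * (resCount x e a : ℝ) := by
  unfold ellp ell
  have h : ∀ p : ℕ, ∑ e ∈ d.divisors.filter (fun e : ℕ => (e : ℤ) ∣ (p : ℤ) - a), lam R d e =
      ∑ e ∈ d.divisors, if (e : ℤ) ∣ (p : ℤ) - a then lam R d e else 0 := fun p => sum_filter _ _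
  rw [sum_congr rfl fun p _ => h p, sum_comm]
  refine sum_congr rfl fun e _ => ?_
  unfold resCount
  rw [← sum_filter, sum_const, nsmul_eq_mul, mul_comm, filter_filter]

private lemma Elp_gcd {a : ℤ} {d e : ℕ} (h : Int.gcd a d = 1) (he : e ∣ d) : Int.gcd a e = 1 := by
  have h1 : Nat.Coprime a.natAbs d := by
    rw [Nat.Coprime]
    rw [Int.gcd] at h
    simpa using h
  have h2 : Nat.Coprime a.natAbs e := Nat.Coprime.coprime_dvd_right he h1
  rw [Int.gcd]
  simpa [Nat.Coprime] using h2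

theorem tElp (h1 : LphStmt) (h2 : RseStmt) : ElpStmt := by
  intro x R d a hd hg
  obtain ⟨hL1, hL2⟩ := h1
  have e1 := hL1 R d hd
  have e2 := hL2 d hd
  have e3 : ∑ r ∈ d.divisors, ((ArithmeticFunction.moebius r : ℝ)) ^ 2 / (r.totient : ℝ) =
      ∑ r ∈ d.divisors.filter (fun r => r ≤ R),
        ((ArithmeticFunction.moebius r : ℝ)) ^ 2 / (r.totient : ℝ) +
      ∑ r ∈ d.divisors.filter (fun r => R < r),
        ((ArithmeticFunction.moebius r : ℝ)) ^ 2 / (r.totient : ℝ) := by
    rw [← sum_filter_add_sum_filter_not d.divisors (fun r => r ≤ R)]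
    congr 1
    apply sum_congr _ fun _ _ => rfl
    ext r
    simp only [mem_filter, not_le]
  set T : ℝ := ∑ r ∈ d.divisors.filter (fun r => R < r),
    ((ArithmeticFunction.moebius r : ℝ)) ^ 2 / (r.totient : ℝ) with hT
  have hT0 : 0 ≤ T := sum_nonneg fun r _ => by positivity
  have hT1 : T ≤ ∑ r ∈ d.divisors.filter (fun r => R < r), 1 / (r.totient : ℝ) := by
    refine sum_le_sum fun r _ => ?_
    have h3 : ((ArithmeticFunction.moebius r : ℝ)) ^ 2 ≤ 1 := by
      have h4 : |(ArithmeticFunction.moebius r : ℝ)| ≤ 1 := by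
        exact_mod_cast ArithmeticFunction.abs_moebius_le_one (n := r)
      rw [← sq_abs]
      nlinarith [abs_nonneg (ArithmeticFunction.moebius r : ℝ)]
    gcongr
  have e4 : ∑ e ∈ d.divisors, lam R d e * (resCount x e a : ℝ) =
      ∑ e ∈ d.divisors, lam R d e * resErr x e a +
        li x * ∑ e ∈ d.divisors, lam R d e / (e.totient : ℝ) := by
    rw [mul_sum, ← sum_add_distrib]
    refine sum_congr rfl fun e _ => ?_
    unfold resErr
    ring
  have e5 : ellp x R d a - li x / (d.totient : ℝ) =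
      ∑ e ∈ d.divisors, lam R d e * resErr x e a - li x * ((1 / (d : ℝ)) * T) := by
    have e6 : li x / (d.totient : ℝ) = li x * (1 / (d.totient : ℝ)) := by ring
    rw [Elp_swap, e4, e1, e6, ← e2, e3]
    ring
  rw [e5]
  refine (abs_sub _ _).trans (add_le_add ?_ ?_)
  · refine (abs_sum_le_sum_abs _ _).trans (sum_le_sum fun e he => ?_)
    rw [abs_mul]
    have he' := Nat.dvd_of_mem_divisors he
    exact mul_le_mul_of_nonneg_left
      (h2 x e a (Nat.pos_of_mem_divisors he) (Elp_gcd hg he')) (abs_nonneg _)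
  · rw [abs_mul]
    refine mul_le_mul_of_nonneg_left ?_ (abs_nonneg _)
    rw [abs_of_nonneg (by positivity)]
    exact mul_le_mul_of_nonneg_left hT1 (by positivity)

end Pool.Agent.Lib.KF
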