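import Pool.Agent.Lib.KF.SpecW

/-!
MP_00e23e_nt, directory Lib/KF, module Fls: large sieve for the fractions with denominators in (r0, 2 r0].
-/

namespace Pool.Agent.Lib.KF

open Finset Pool.Agent.Lib.EH3 Pool.Agent.Results.MP_00e23e_nt

/-- large sieve for the fractions with denominators in (r0, 2 r0] -/
theorem tFls (h1 : Pool.Agent.Lib.EH4.SpcStmt) : FlsStmt := by
  classical
  intro N r0 z hr0
  have hr0R : (1 : ℝ) ≤ r0 := by exact_mod_cast hr0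
  set H : ℕ := N + 4 * r0 ^ 2 with hH
  have hH0 : 0 < H := by positivity
  set J : Finset (Σ _ : ℕ, ℕ) :=
    (Ioc r0 (2 * r0)).sigma (fun r => (range r).filter (fun h => h.Coprime r)) with hJ
  set θ : (Σ _ : ℕ, ℕ) → ℝ := fun j => (j.2 : ℝ) / j.1 with hθ
  set c : (Σ _ : ℕ, ℕ) → ℂ := fun j => z j.1 j.2 with hc
  have hsep : ∀ i ∈ J, ∀ j ∈ J, i ≠ j →
      1 / ((2 * r0 : ℕ) : ℝ) ^ 2 ≤ |(θ i - θ j) - round (θ i - θ j)| := by
    intro i hi j hj hij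
    rw [hJ, mem_sigma, mem_filter, mem_Ioc, mem_range] at hi hj
    apply h1 (2 * r0) i.1 i.2 j.1 j.2 (by omega) hi.1.2 hi.2.1 hi.2.2 (by omega) hj.1.2 hj.2.1 hj.2.2
    rintro ⟨e1, e2⟩
    apply hij
    exact Sigma.ext e1 (heq_of_eq e2)
  have hL : 1 ≤ ((2 * H : ℕ) : ℝ) * (1 / ((2 * r0 : ℕ) : ℝ) ^ 2) := by
    rw [mul_one_div, le_div_iff₀ (by positivity), one_mul]
    rw [hH]
    push_cast
    have : (0 : ℝ) ≤ (N : ℝ) := by positivity
    have hsq : (0 : ℝ) ≤ (r0 : ℝ) ^ 2 := by positivity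
    rw [mul_pow]
    linarith
  have h2 := dual_ls J θ (δ := 1 / ((2 * r0 : ℕ) : ℝ) ^ 2) (by positivity) hsep H hH0 hL c
  have h3 : ∀ n : ℕ, ∑ j ∈ J, c j * ee (n * θ j) = ∑ r ∈ Ioc r0 (2 * r0),
      ∑ h ∈ (range r).filter (fun h => h.Coprime r), z r h * ee ((n : ℝ) * ((h : ℝ) / r)) := by
    intro n
    rw [hJ, Finset.sum_sigma]
  have h4 : ∑ j ∈ J, ‖c j‖ ^ 2 = ∑ r ∈ Ioc r0 (2 * r0),
      ∑ h ∈ (range r).filter (fun h => h.Coprime r), ‖z r h‖ ^ 2 := by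
    rw [hJ, Finset.sum_sigma]
  rw [h4] at h2
  have h5 : ∑ n ∈ range N, ‖∑ r ∈ Ioc r0 (2 * r0), ∑ h ∈ (range r).filter (fun h => h.Coprime r),
      z r h * ee ((n : ℝ) * ((h : ℝ) / r))‖ ^ 2 ≤
      ∑ n ∈ range (2 * H), ‖∑ j ∈ J, c j * ee (n * θ j)‖ ^ 2 := by
    simp_rw [h3]
    apply Finset.sum_le_sum_of_subset_of_nonneg
    · intro n hn
      rw [mem_range] at hn ⊢
      omega
    · intro n _ _
      positivity
  refine h5.trans (h2.trans ?_)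
  apply mul_le_mul_of_nonneg_right
  · rw [hH]
    push_cast
    have : (0 : ℝ) ≤ (N : ℝ) := by positivity
    linarith
  · positivity

end Pool.Agent.Lib.KF
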