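import Pool.Agent.Lib.KF.SpecL

/-! MP_00e23e_nt, Lib/KF: module Lam (the weights of the model). -/

namespace Pool.Agent.Lib.KF

open Finset Pool.Agent.Lib.EH3

private lemma Lam_mu (n : ℕ) :
    ∑ k ∈ n.divisors, ((ArithmeticFunction.moebius k : ℤ) : ℝ) = if n = 1 then 1 else 0 := by
  have h1 := ArithmeticFunction.coe_mul_zeta_apply (f := ArithmeticFunction.moebius) (x := n)
  rw [ArithmeticFunction.moebius_mul_coe_zeta, ArithmeticFunction.one_apply] at h1
  have h2 : ((∑ k ∈ n.divisors, ArithmeticFunction.moebius k : ℤ) : ℝ) =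
      ((if n = 1 then 1 else 0 : ℤ) : ℝ) := by rw [h1]
  push_cast at h2
  exact h2

private lemma Lam_in {r s : ℕ} (hr : 1 ≤ r) (hs : s ∣ r) :
    ∑ u ∈ r.divisors.filter (fun u => s ∣ u), ((ArithmeticFunction.moebius (r / u) : ℤ) : ℝ) =
      if r = s then 1 else 0 := by
  obtain ⟨n, rfl⟩ := hs
  have hs0 : 0 < s := Nat.pos_of_ne_zero fun h => by
    rw [h] at hr
    omega
  have hn0 : 0 < n := Nat.pos_of_ne_zero fun h => by
    rw [h] at hr
    omega
  have h1 : ∑ u ∈ (s * n).divisors.filter (fun u => s ∣ u),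
      ((ArithmeticFunction.moebius (s * n / u) : ℤ) : ℝ) =
      ∑ k ∈ n.divisors, ((ArithmeticFunction.moebius k : ℤ) : ℝ) := by
    refine Finset.sum_nbij' (fun u => s * n / u) (fun k => s * (n / k)) ?_ ?_ ?_ ?_ ?_
    · intro u hu
      obtain ⟨h1, k, rfl⟩ := Finset.mem_filter.1 hu
      rw [Nat.mul_div_mul_left _ _ hs0, Nat.mem_divisors]
      exact ⟨Nat.div_dvd_of_dvd (Nat.dvd_of_mul_dvd_mul_left hs0 (Nat.mem_divisors.1 h1).1),
        hn0.ne'⟩
    · intro k hk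
      refine Finset.mem_filter.2 ⟨Nat.mem_divisors.2 ⟨?_, by positivity⟩, Dvd.intro _ rfl⟩
      exact Nat.mul_dvd_mul_left s (Nat.div_dvd_of_dvd (Nat.mem_divisors.1 hk).1)
    · intro u hu
      obtain ⟨h1, k, rfl⟩ := Finset.mem_filter.1 hu
      have h2 : k ∣ n := Nat.dvd_of_mul_dvd_mul_left hs0 (Nat.mem_divisors.1 h1).1
      rw [Nat.mul_div_mul_left _ _ hs0, Nat.div_div_self h2 hn0.ne']
    · intro k hk
      have h2 : k ∣ n := (Nat.mem_divisors.1 hk).1
      rw [Nat.mul_div_mul_left _ _ hs0, Nat.div_div_self h2 hn0.ne']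
    · intro u _
      rfl
  rw [h1, Lam_mu]
  have h2 : n = 1 ↔ s * n = s := by
    constructor
    · rintro rfl
      exact mul_one s
    · intro h
      exact Nat.eq_of_mul_eq_mul_left hs0 (by rw [h, mul_one])
  simp only [h2]

private lemma Lam_one (R d e : ℕ) (hd : 1 ≤ d) (he : e ∣ d) :
    |lam R d e| ≤ ((e : ℝ) / d) * tau (d / e) := by
  have he0 : 0 < e := Nat.pos_of_dvd_of_pos he hd
  have hq0 : 0 < d / e := Nat.div_pos (Nat.le_of_dvd hd he) he0
  rw [lam, abs_mul, abs_of_nonneg (by positivity : (0 : ℝ) ≤ (e : ℝ) / d)]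
  refine mul_le_mul_of_nonneg_left ?_ (by positivity)
  refine (Finset.abs_sum_le_sum_abs _ _).trans ?_
  calc ∑ r ∈ d.divisors.filter (fun r => e ∣ r ∧ r ≤ R),
      |((ArithmeticFunction.moebius (r / e) : ℤ) : ℝ)| ≤
      ∑ _r ∈ d.divisors.filter (fun r => e ∣ r ∧ r ≤ R), (1 : ℝ) := by
        refine Finset.sum_le_sum fun r _ => ?_
        exact_mod_cast ArithmeticFunction.abs_moebius_le_one
    _ = ((d.divisors.filter (fun r => e ∣ r ∧ r ≤ R)).card : ℝ) := by simp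
    _ ≤ tau (d / e) := by
        rw [tau]
        norm_cast
        refine Finset.card_le_card_of_injOn (fun r => r / e) ?_ ?_
        · intro r hr
          obtain ⟨h1, h2, -⟩ := Finset.mem_filter.1 (Finset.mem_coe.1 hr)
          refine Finset.mem_coe.2 (Nat.mem_divisors.2 ⟨?_, hq0.ne'⟩)
          exact Nat.div_dvd_div h2 (Nat.mem_divisors.1 h1).1
        · intro r hr r' hr' hrr
          obtain ⟨-, h2, -⟩ := Finset.mem_filter.1 (Finset.mem_coe.1 hr)
          obtain ⟨-, h3, -⟩ := Finset.mem_filter.1 (Finset.mem_coe.1 hr')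
          have h4 : r / e = r' / e := hrr
          rw [← Nat.div_mul_cancel h2, ← Nat.div_mul_cancel h3, h4]

private lemma Lam_two (R d e : ℕ) (h : R < e) : lam R d e = 0 := by
  have h1 : d.divisors.filter (fun r => e ∣ r ∧ r ≤ R) = ∅ := by
    rw [Finset.filter_eq_empty_iff]
    intro r hr h2
    have h3 := Nat.le_of_dvd (Nat.pos_of_mem_divisors hr) h2.1
    omega
  rw [lam, h1, Finset.sum_empty, mul_zero]

theorem tLam : LamStmt := by
  refine ⟨Lam_one, Lam_two, fun R d s hd hs => ?_⟩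
  have h0 : ∀ u ∈ d.divisors.filter (fun u => s ∣ u), lam R d u / (u : ℝ) =
      (1 / (d : ℝ)) * ∑ r ∈ d.divisors.filter (fun r => u ∣ r ∧ r ≤ R),
          ((ArithmeticFunction.moebius (r / u) : ℤ) : ℝ) := by
    intro u hu
    have hu0 : (u : ℝ) ≠ 0 := by
      have h1 := Nat.pos_of_mem_divisors (Finset.mem_filter.1 hu).1
      positivity
    have hd0 : (d : ℝ) ≠ 0 := by positivity
    rw [lam]
    field_simp
  have h1 : ∑ u ∈ d.divisors.filter (fun u => s ∣ u),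
      ∑ r ∈ d.divisors.filter (fun r => u ∣ r ∧ r ≤ R),
        ((ArithmeticFunction.moebius (r / u) : ℤ) : ℝ) =
      ∑ r ∈ d.divisors.filter (fun r => r ≤ R ∧ s ∣ r),
        ∑ u ∈ r.divisors.filter (fun u => s ∣ u),
          ((ArithmeticFunction.moebius (r / u) : ℤ) : ℝ) := by
    apply Finset.sum_comm'
    intro u r
    rw [Finset.mem_filter, Finset.mem_filter, Finset.mem_filter, Finset.mem_filter,
      Nat.mem_divisors, Nat.mem_divisors, Nat.mem_divisors]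
    constructor
    · rintro ⟨⟨⟨h1, h2⟩, h3⟩, ⟨h4, h5⟩, h6, h7⟩
      refine ⟨⟨⟨h6, ?_⟩, h3⟩, ⟨h4, h5⟩, h7, h3.trans h6⟩
      intro h
      rw [h] at h4
      exact h5 (Nat.eq_zero_of_zero_dvd h4)
    · rintro ⟨⟨⟨h1, h2⟩, h3⟩, ⟨h4, h5⟩, h6, h7⟩
      exact ⟨⟨⟨h1.trans h4, h5⟩, h3⟩, ⟨h4, h5⟩, h1, h6⟩
  rw [Finset.sum_congr rfl h0, ← Finset.mul_sum, h1]
  have h2 : ∑ r ∈ d.divisors.filter (fun r => r ≤ R ∧ s ∣ r),
        ∑ u ∈ r.divisors.filter (fun u => s ∣ u),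
          ((ArithmeticFunction.moebius (r / u) : ℤ) : ℝ) =
      ∑ r ∈ d.divisors.filter (fun r => r ≤ R ∧ s ∣ r), if r = s then (1 : ℝ) else 0 := by
    refine Finset.sum_congr rfl fun r hr => ?_
    obtain ⟨h3, h4, h5⟩ := Finset.mem_filter.1 hr
    exact Lam_in (Nat.pos_of_mem_divisors h3) h5
  rw [h2, Finset.sum_ite_eq']
  by_cases h : s ∣ d ∧ s ≤ R
  · rw [if_pos h, if_pos, mul_one]
    rw [Finset.mem_filter, Nat.mem_divisors]
    exact ⟨⟨h.1, by omega⟩, h.2, dvd_rfl⟩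
  · rw [if_neg h, if_neg, mul_zero]
    rw [Finset.mem_filter, Nat.mem_divisors]
    rintro ⟨⟨h3, -⟩, h4, -⟩
    exact h ⟨h3, h4⟩

end Pool.Agent.Lib.KF
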