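import Pool.Agent.Lib.KF.SpecL

/-!
MP_00e23e_nt, directory Lib/KF, module Lph: the sum of lam R d e / φ(e) over the divisors e of d.
-/

namespace Pool.Agent.Lib.KF

open Finset Pool.Agent.Lib.EH3

private noncomputable def Lph_F : ArithmeticFunction ℝ :=
  ⟨fun n => ((ArithmeticFunction.moebius n : ℤ) : ℝ) ^ 2 / (n.totient : ℝ), by simp⟩

private noncomputable def Lph_G : ArithmeticFunction ℝ :=
  ⟨fun n => (n : ℝ) / (n.totient : ℝ), by simp⟩

private lemma Lph_F_apply (n : ℕ) :
    Lph_F n = ((ArithmeticFunction.moebius n : ℤ) : ℝ) ^ 2 / (n.totient : ℝ) := rfl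

private lemma Lph_G_apply (n : ℕ) : Lph_G n = (n : ℝ) / (n.totient : ℝ) := rfl

private lemma Lph_F_mult : Lph_F.IsMultiplicative := by
  refine ⟨by simp [Lph_F_apply], fun {m n} h => ?_⟩
  rw [Lph_F_apply, Lph_F_apply, Lph_F_apply, Nat.totient_mul h,
    ArithmeticFunction.isMultiplicative_moebius.map_mul_of_coprime h]
  push_cast
  rw [mul_pow, mul_div_mul_comm]

private lemma Lph_G_mult : Lph_G.IsMultiplicative := by
  refine ⟨by simp [Lph_G_apply], fun {m n} h => ?_⟩
  rw [Lph_G_apply, Lph_G_apply, Lph_G_apply, Nat.totient_mul h]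
  push_cast
  rw [mul_div_mul_comm]

private lemma Lph_eq : (ArithmeticFunction.zeta : ArithmeticFunction ℝ) * Lph_F = Lph_G := by
  rw [ArithmeticFunction.IsMultiplicative.eq_iff_eq_on_prime_powers _
    (ArithmeticFunction.isMultiplicative_zeta.natCast.mul Lph_F_mult) _ Lph_G_mult]
  intro p k hp
  rw [ArithmeticFunction.coe_zeta_mul_apply, Nat.sum_divisors_prime_pow hp]
  rcases Nat.eq_zero_or_pos k with rfl | hk
  · simp [Lph_F_apply, Lph_G_apply]
  · obtain ⟨j, rfl⟩ : ∃ j, k = j + 1 := ⟨k - 1, by omega⟩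
    rw [Finset.sum_range_succ', Finset.sum_range_succ']
    have h0 : ∑ x ∈ Finset.range j, Lph_F (p ^ (x + 1 + 1)) = 0 := by
      refine Finset.sum_eq_zero fun x _ => ?_
      rw [Lph_F_apply, ArithmeticFunction.moebius_apply_prime_pow hp (by omega), if_neg (by omega)]
      simp
    rw [h0]
    simp only [zero_add, pow_one, pow_zero]
    rw [Lph_F_apply, Lph_F_apply, Lph_G_apply, Nat.totient_prime_pow_succ hp]
    have hp1 : (1 : ℝ) < p := by exact_mod_cast hp.one_lt
    have hp0 : (p : ℝ) - 1 ≠ 0 := by linarith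
    have hpp : (p : ℝ) ≠ 0 := by linarith
    rw [ArithmeticFunction.moebius_apply_prime hp, Nat.totient_prime hp]
    have hc : ((p - 1 : ℕ) : ℝ) = (p : ℝ) - 1 := by
      rw [Nat.cast_sub hp.one_lt.le, Nat.cast_one]
    push_cast
    rw [hc]
    simp only [ArithmeticFunction.moebius_apply_one, Nat.totient_one]
    field_simp
    ring

private lemma Lph_sum (n : ℕ) :
    ∑ f ∈ n.divisors, ((ArithmeticFunction.moebius f : ℤ) : ℝ) ^ 2 / (f.totient : ℝ) =
      (n : ℝ) / (n.totient : ℝ) := by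
  have h := congrArg (fun f : ArithmeticFunction ℝ => f n) Lph_eq
  simpa only [ArithmeticFunction.coe_zeta_mul_apply, Lph_F_apply, Lph_G_apply] using h

private lemma Lph_inv (r : ℕ) (hr : 0 < r) :
    ∑ e ∈ r.divisors, ((ArithmeticFunction.moebius (r / e) : ℤ) : ℝ) *
      ((e : ℝ) / (e.totient : ℝ)) =
      ((ArithmeticFunction.moebius r : ℤ) : ℝ) ^ 2 / (r.totient : ℝ) := by
  have h := (ArithmeticFunction.sum_eq_iff_sum_mul_moebius_eq (R := ℝ)
    (f := fun r => ((ArithmeticFunction.moebius r : ℤ) : ℝ) ^ 2 / (r.totient : ℝ))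
    (g := fun n => (n : ℝ) / (n.totient : ℝ))).1 (fun n _ => Lph_sum n) r hr
  rw [← h, Nat.sum_divisorsAntidiagonal' (f := fun a b =>
    ((ArithmeticFunction.moebius a : ℤ) : ℝ) * ((b : ℝ) / (b.totient : ℝ)))]

theorem tLph : LphStmt := by
  refine ⟨fun R d hd => ?_, fun d hd => ?_⟩
  · have e1 : ∀ e ∈ d.divisors, lam R d e / (e.totient : ℝ) =
        ∑ r ∈ d.divisors, if r ≤ R then (if e ∣ r then (1 / (d : ℝ)) *
          (((ArithmeticFunction.moebius (r / e) : ℤ) : ℝ) * ((e : ℝ) / (e.totient : ℝ)))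
          else 0) else 0 := by
      intro e he
      rw [lam, Finset.sum_filter, Finset.mul_sum, Finset.sum_div]
      refine Finset.sum_congr rfl fun r hr => ?_
      by_cases h1 : r ≤ R <;> by_cases h2 : e ∣ r <;> simp [h1, h2]
      ring
    rw [Finset.sum_congr rfl e1, Finset.sum_comm, Finset.mul_sum, Finset.sum_filter]
    refine Finset.sum_congr rfl fun r hr => ?_
    have hrd := Nat.dvd_of_mem_divisors hr
    have hr0 : 0 < r := Nat.pos_of_mem_divisors hr
    by_cases h1 : r ≤ R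
    · simp only [h1, if_true]
      rw [← Lph_inv r hr0, Finset.mul_sum, ← Finset.sum_filter]
      refine Finset.sum_congr ?_ fun _ _ => rfl
      ext e
      simp only [Finset.mem_filter, Nat.mem_divisors]
      constructor
      · rintro ⟨_, h⟩
        exact ⟨h, hr0.ne'⟩
      · rintro ⟨h, _⟩
        exact ⟨⟨h.trans hrd, by omega⟩, h⟩
    · simp [h1]
  · rw [Lph_sum]
    have : (d : ℝ) ≠ 0 := by exact_mod_cast (Nat.pos_of_ne_zero (by omega : d ≠ 0)).ne'
    field_simp

end Pool.Agent.Lib.KF
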