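import Pool.Agent.Lib.KF.SpecL

/-!
MP_00e23e_nt, directory Lib/KF, module Ram: Ramanujan sums.
-/

namespace Pool.Agent.Lib.KF

open Finset Pool.Agent.Lib.EH3

private lemma Ram_mu (n : ℕ) :
    ∑ t ∈ n.divisors, (ArithmeticFunction.moebius t : ℝ) = if n = 1 then 1 else 0 := by
  have h := congrArg (fun f : ArithmeticFunction ℤ => f n) ArithmeticFunction.coe_zeta_mul_moebius
  beta_reduce at h
  rw [ArithmeticFunction.coe_zeta_mul_apply, ArithmeticFunction.one_apply] at h
  have h2 : ((∑ i ∈ n.divisors, ArithmeticFunction.moebius i : ℤ) : ℝ) =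
      ((if n = 1 then 1 else 0 : ℤ) : ℝ) := by rw [h]
  push_cast at h2
  exact h2

/-- change of variables s = e t in a sum over the multiples s of e dividing h -/
private lemma Ram_chg (h e : ℕ) (hh : 1 ≤ h) (he : e ∣ h) (f : ℕ → ℝ) :
    ∑ s ∈ h.divisors.filter (fun s => e ∣ s), f (s / e) = ∑ t ∈ (h / e).divisors, f t := by
  have he0 : 0 < e := Nat.pos_of_dvd_of_pos he hh
  refine Finset.sum_bij' (fun s _ => s / e) (fun t _ => e * t) ?_ ?_ ?_ ?_ ?_
  · intro s hs
    rw [Finset.mem_filter, Nat.mem_divisors] at hs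
    rw [Nat.mem_divisors]
    exact ⟨Nat.div_dvd_div hs.2 hs.1.1, (Nat.div_pos (Nat.le_of_dvd hh he) he0).ne'⟩
  · intro t ht
    rw [Nat.mem_divisors] at ht
    rw [Finset.mem_filter, Nat.mem_divisors]
    exact ⟨⟨(Nat.dvd_div_iff_mul_dvd he).1 ht.1, by omega⟩, dvd_mul_right e t⟩
  · intro s hs
    rw [Finset.mem_filter] at hs
    exact Nat.mul_div_cancel' hs.2
  · intro t _
    exact Nat.mul_div_cancel_left t he0
  · intro s _
    rfl

private lemma Ram_a (h : ℕ) (m : ℤ) (hh : 1 ≤ h) :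
    ∑ s ∈ h.divisors, ram s m = if (h : ℤ) ∣ m then (h : ℝ) else 0 := by
  have h1 : ∀ s ∈ h.divisors, ram s m = ∑ e ∈ h.divisors, if e ∣ s then
      (if (e : ℤ) ∣ m then (e : ℝ) * (ArithmeticFunction.moebius (s / e) : ℝ) else 0) else 0 := by
    intro s hs
    have hs' := Nat.mem_divisors.1 hs
    unfold ram
    rw [Finset.sum_filter, ← Finset.sum_filter (fun e => e ∣ s)]
    refine Finset.sum_subset_zero_on_sdiff ?_ ?_ ?_
    · intro e he
      rw [Nat.mem_divisors] at he
      rw [Finset.mem_filter, Nat.mem_divisors]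
      exact ⟨⟨he.1.trans hs'.1, hs'.2⟩, he.1⟩
    · intro e he
      rw [Finset.mem_sdiff, Finset.mem_filter] at he
      exact absurd (Nat.mem_divisors.2 ⟨he.1.2, fun h0 => by
        have := Nat.pos_of_dvd_of_pos hs'.1 hh
        omega⟩) he.2
    · intro e _
      rfl
  rw [Finset.sum_congr rfl h1, Finset.sum_comm]
  have h2 : ∀ e ∈ h.divisors, (∑ s ∈ h.divisors, if e ∣ s then
      (if (e : ℤ) ∣ m then (e : ℝ) * (ArithmeticFunction.moebius (s / e) : ℝ) else 0) else 0) =
      if e = h then (if (h : ℤ) ∣ m then (h : ℝ) else 0) else 0 := by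
    intro e he
    have he' := Nat.mem_divisors.1 he
    have he0 : 0 < e := Nat.pos_of_dvd_of_pos he'.1 hh
    rw [← Finset.sum_filter (fun s => e ∣ s)]
    by_cases hm : (e : ℤ) ∣ m
    · simp only [if_pos hm]
      rw [← Finset.mul_sum, Ram_chg h e hh he'.1 (fun t => (ArithmeticFunction.moebius t : ℝ)),
        Ram_mu (h / e)]
      by_cases heh : e = h
      · subst heh
        rw [Nat.div_self he0, if_pos rfl, if_pos rfl, if_pos hm, mul_one]
      · rw [if_neg heh, if_neg, mul_zero]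
        intro h3
        apply heh
        exact ((Nat.div_eq_iff_eq_mul_left he0 he'.1).1 h3).symm ▸ (one_mul e).symm
    · simp only [if_neg hm, Finset.sum_const_zero]
      by_cases heh : e = h
      · subst heh
        rw [if_pos rfl, if_neg hm]
      · rw [if_neg heh]
  rw [Finset.sum_congr rfl h2, Finset.sum_ite_eq', if_pos (Nat.mem_divisors.2 ⟨dvd_rfl, by omega⟩)]

/-- Ramanujan sums -/
theorem tRam : RamStmt := by
  refine ⟨fun h m hh => Ram_a h m hh, ?_⟩
  intro s m
  unfold ram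
  refine (Finset.abs_sum_le_sum_abs _ _).trans (Finset.sum_le_sum fun e _ => ?_)
  rw [abs_mul, Nat.abs_cast]
  have h1 : |(ArithmeticFunction.moebius (s / e) : ℝ)| ≤ 1 := by
    have := ArithmeticFunction.abs_moebius_le_one (n := s / e)
    exact_mod_cast this
  calc (e : ℝ) * |(ArithmeticFunction.moebius (s / e) : ℝ)| ≤ (e : ℝ) * 1 :=
        mul_le_mul_of_nonneg_left h1 (Nat.cast_nonneg e)
    _ = e := mul_one _

end Pool.Agent.Lib.KF
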