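import Pool.Agent.Lib.KF.SpecW

/-!
MP_00e23e_nt, directory Lib/KF, module Rmx: Ramanujan sums as exponential sums.
-/

namespace Pool.Agent.Lib.KF

open Finset Pool.Agent.Lib.EH3 Pool.Agent.Results.MP_00e23e_nt

private lemma Rmx_tot (h2 : Pool.Agent.Lib.EH4.FracStmt) (n : ℕ) (m : ℤ) (hn : 1 ≤ n) :
    ∑ s ∈ n.divisors, ∑ h ∈ (range s).filter (fun h => h.Coprime s),
      ee ((m : ℝ) * ((h : ℝ) / s)) = if (n : ℤ) ∣ m then (n : ℂ) else 0 := by
  have h3 := h2 (fun θ => ee ((m : ℝ) * θ)) n hn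
  rw [← h3, ← orth (by omega : 0 < n) m]
  refine sum_congr rfl fun a _ => ?_
  congr 1
  ring

theorem tRmx (h1 : RamStmt) (h2 : Pool.Agent.Lib.EH4.FracStmt) : RmxStmt := by
  intro s m hs
  induction s using Nat.strong_induction_on with
  | _ s ih =>
    have h3 := h1.1 s m hs
    have h4 := Rmx_tot h2 s m hs
    rw [← Nat.insert_self_properDivisors (by omega : s ≠ 0),
      sum_insert Nat.self_notMem_properDivisors, add_comm] at h3
    rw [← Nat.insert_self_properDivisors (by omega : s ≠ 0),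
      sum_insert Nat.self_notMem_properDivisors, add_comm] at h4
    have h5 : ((∑ x ∈ s.properDivisors, ram x m : ℝ) : ℂ) =
        ∑ x ∈ s.properDivisors, ∑ h ∈ (range x).filter (fun h => h.Coprime x),
          ee ((m : ℝ) * ((h : ℝ) / x)) := by
      rw [Complex.ofReal_sum]
      refine sum_congr rfl fun x hx => ?_
      have hx' := Nat.mem_properDivisors.1 hx
      exact ih x hx'.2 (Nat.pos_of_mem_properDivisors hx)
    have h6 : ((∑ x ∈ s.properDivisors, ram x m + ram s m : ℝ) : ℂ) =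
        if (s : ℤ) ∣ m then (s : ℂ) else 0 := by
      rw [h3]
      split_ifs <;> simp
    rw [Complex.ofReal_add, h5, ← h4] at h6
    exact add_left_cancel h6

end Pool.Agent.Lib.KF
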