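import Pool.Agent.Lib.KF.SpecW

namespace Pool.Agent.Lib.KF

open Finset Pool.Agent.Lib.EH3 Pool.Agent.Results.MP_00e23e_nt

private lemma Wbk_ev (r s K : ℝ) (hs : 0 < s) :
    ∀ᶠ x : ℝ in Filter.atTop, K * (Real.log x) ^ r ≤ x ^ s := by
  have h := isLittleO_log_rpow_rpow_atTop r hs
  have h1 := h.def (c := 1 / (|K| + 1)) (by positivity)
  filter_upwards [h1, Filter.eventually_ge_atTop (1 : ℝ)] with x hx hx1
  have hlog : 0 ≤ Real.log x := Real.log_nonneg hx1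
  rw [Real.norm_of_nonneg (Real.rpow_nonneg hlog _),
    Real.norm_of_nonneg (Real.rpow_nonneg (by linarith) _)] at hx
  rw [one_div, ← div_eq_inv_mul, le_div_iff₀ (by positivity)] at hx
  have h2 : K ≤ |K| + 1 := by
    have := le_abs_self K
    linarith
  have h3 : 0 ≤ (Real.log x) ^ r := Real.rpow_nonneg hlog _
  nlinarith

private lemma Wbk_sgn (x : ℝ) (a : ℤ) (d : ℕ) : |sgn x a d| ≤ 1 := by
  unfold sgn
  split_ifs <;> norm_num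

private lemma Wbk_cs (x : ℝ) (hx : 1 ≤ x) (F : ℤ → ℝ) :
    (∑ p ∈ (Icc 1 ⌊x⌋₊).filter Nat.Prime, F (p : ℤ)) ^ 2 ≤
      x * ∑ n ∈ range (⌊x⌋₊ + 1), (F (n : ℤ)) ^ 2 := by
  have h1 := sq_sum_le_card_mul_sum_sq (s := (Icc 1 ⌊x⌋₊).filter Nat.Prime)
    (f := fun p : ℕ => F (p : ℤ))
  have h2 : (((Icc 1 ⌊x⌋₊).filter Nat.Prime).card : ℝ) ≤ x := by
    calc (((Icc 1 ⌊x⌋₊).filter Nat.Prime).card : ℝ) ≤ ((Icc 1 ⌊x⌋₊).card : ℝ) := by
          exact_mod_cast card_filter_le _ _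
      _ = (⌊x⌋₊ : ℝ) := by simp
      _ ≤ x := Nat.floor_le (by linarith)
  have h3 : ∑ p ∈ (Icc 1 ⌊x⌋₊).filter Nat.Prime, (F (p : ℤ)) ^ 2 ≤
      ∑ n ∈ range (⌊x⌋₊ + 1), (F (n : ℤ)) ^ 2 := by
    refine sum_le_sum_of_subset_of_nonneg ?_ (fun _ _ _ => sq_nonneg _)
    intro p hp
    rw [mem_filter, mem_Icc] at hp
    rw [mem_range]
    omega
  have h4 : 0 ≤ ∑ p ∈ (Icc 1 ⌊x⌋₊).filter Nat.Prime, (F (p : ℤ)) ^ 2 :=
    sum_nonneg fun _ _ => sq_nonneg _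
  calc _ ≤ (((Icc 1 ⌊x⌋₊).filter Nat.Prime).card : ℝ) *
        ∑ p ∈ (Icc 1 ⌊x⌋₊).filter Nat.Prime, (F (p : ℤ)) ^ 2 := h1
    _ ≤ x * ∑ p ∈ (Icc 1 ⌊x⌋₊).filter Nat.Prime, (F (p : ℤ)) ^ 2 :=
        mul_le_mul_of_nonneg_right h2 h4
    _ ≤ x * ∑ n ∈ range (⌊x⌋₊ + 1), (F (n : ℤ)) ^ 2 :=
        mul_le_mul_of_nonneg_left h3 (by linarith)

private lemma Wbk_low (h2 : TtaStmt) (h4 : BlcStmt) {x Q U C1 : ℝ} {R : ℕ} {a : ℤ} (hx : 3 ≤ x)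
    (hQ : 1 ≤ Q) (hR : 1 ≤ R) (hRQ : (R : ℝ) ≤ Q) (hL : 2 ≤ Real.log x) (hLC : 32 * C1 ≤ Real.log x)
    (hM : 1 + Real.log (2 * Q) ≤ 2 * Real.log x)
    (hbv : ∑ e ∈ Icc 1 R, maxErr x e ≤ C1 * (x / (Real.log x) ^ (U + 3)))
    (hsq : 128 * (Real.log x) ^ (U + 1) ≤ Real.sqrt R)
    (ha : x / (Real.log x) ^ (U + 1) < ∑ d ∈ dya Q a, |resErr x d a|) :
    3 / 4 * (x / (Real.log x) ^ (U + 1)) ≤
      ∑ p ∈ (Icc 1 ⌊x⌋₊).filter Nat.Prime, gg R Q (sgn x a) ((p : ℤ) - a) := by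
  have hL0 : 0 < Real.log x := by linarith
  have hx0 : 0 < x := by linarith
  have hP : 0 < (Real.log x) ^ (U + 1) := Real.rpow_pos_of_pos hL0 _
  have hsplit : (Real.log x) ^ (U + 3) = (Real.log x) ^ (U + 1) * (Real.log x) ^ 2 := by
    rw [show U + 3 = (U + 1) + 2 by ring, Real.rpow_add hL0, Real.rpow_two]
  rw [hsplit] at hbv
  have e1 := h4 x Q R a
  have e2 := h2 x Q R a hQ hR hRQ
  have hli : |li x| ≤ 2 * x := by
    rw [abs_of_nonneg (Pool.Agent.Lib.EH.li_nonneg (by linarith))]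
    exact Pool.Agent.Lib.EH.li_le (by linarith)
  generalize (Real.log x) ^ (U + 1) = P at *
  generalize Real.log x = L at *
  have hS0 : 0 ≤ ∑ e ∈ Icc 1 R, maxErr x e := sum_nonneg fun e _ => Pool.Agent.Lib.EH.maxErr_nonneg x e
  have hxP : 0 < x / P := by positivity
  have t1 : 2 * (1 + Real.log (2 * Q)) * ∑ e ∈ Icc 1 R, maxErr x e ≤ 1 / 8 * (x / P) := by
    calc 2 * (1 + Real.log (2 * Q)) * ∑ e ∈ Icc 1 R, maxErr x e
        ≤ 2 * (2 * L) * ∑ e ∈ Icc 1 R, maxErr x e :=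
          mul_le_mul_of_nonneg_right (by linarith) hS0
      _ ≤ 2 * (2 * L) * (C1 * (x / (P * L ^ 2))) := mul_le_mul_of_nonneg_left hbv (by positivity)
      _ = (4 * C1 / L) * (x / P) := by
          field_simp
          ring
      _ ≤ 1 / 8 * (x / P) := by
          refine mul_le_mul_of_nonneg_right ?_ hxP.le
          rw [div_le_iff₀ hL0]
          linarith
  have t2 : 8 * |li x| / Real.sqrt R ≤ 1 / 8 * (x / P) := by
    have hs0 : 0 < Real.sqrt R := lt_of_lt_of_le (by positivity) hsq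
    rw [div_le_iff₀ hs0]
    have hxP1 : x / P * P = x := div_mul_cancel₀ x hP.ne'
    have t3 : 1 / 8 * (x / P) * (128 * P) ≤ 1 / 8 * (x / P) * Real.sqrt R :=
      mul_le_mul_of_nonneg_left hsq (by positivity)
    have t4 : 1 / 8 * (x / P) * (128 * P) = 16 * (x / P * P) := by ring
    rw [t4, hxP1] at t3
    linarith
  linarith

private lemma Wbk_alg {n x L P Q W S V : ℝ} (hn : 0 < n) (hx : 0 < x) (hL : 0 < L) (hP : 0 < P)
    (hA : n * (3 / 4 * (x / P)) ≤ S) (hB : S ^ 2 ≤ x * V)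
    (hC : V ≤ 32000 * L ^ 2 * ((x + Q ^ 2) * n + W * n ^ 2))
    (hW : 512000 * L ^ 2 * P ^ 2 * W ≤ x) :
    n ≤ 64000 * ((1 + Q ^ 2 / x) * (P ^ 2 * L ^ 2)) := by
  have h1 : (n * (3 / 4 * (x / P))) ^ 2 ≤ S ^ 2 := pow_le_pow_left₀ (by positivity) hA 2
  have h2 : (n * (3 / 4 * (x / P))) ^ 2 * P ^ 2 = 9 / 16 * n ^ 2 * x ^ 2 := by
    field_simp
    ring
  have h3 : 9 / 16 * n ^ 2 * x ^ 2 ≤ x * (32000 * L ^ 2 * ((x + Q ^ 2) * n + W * n ^ 2)) * P ^ 2 := by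
    rw [← h2]
    refine mul_le_mul_of_nonneg_right ?_ (by positivity)
    calc _ ≤ S ^ 2 := h1
      _ ≤ x * V := hB
      _ ≤ _ := mul_le_mul_of_nonneg_left hC hx.le
  have h4 : (x * n ^ 2 / 16) * (512000 * L ^ 2 * P ^ 2 * W) ≤ (x * n ^ 2 / 16) * x :=
    mul_le_mul_of_nonneg_left hW (by positivity)
  have h5 : (1 / 2 * n * x) * (n * x) ≤ (1 / 2 * n * x) * (64000 * (P ^ 2 * L ^ 2) * (x + Q ^ 2)) := by
    nlinarith
  have h6 : n * x ≤ 64000 * (P ^ 2 * L ^ 2) * (x + Q ^ 2) :=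
    le_of_mul_le_mul_left h5 (by positivity)
  have h7 : 64000 * ((1 + Q ^ 2 / x) * (P ^ 2 * L ^ 2)) = 64000 * (P ^ 2 * L ^ 2) * (x + Q ^ 2) / x := by
    field_simp
  rw [h7, le_div_iff₀ hx]
  exact h6

private lemma Wbk_tau (h1 : DvbStmt) {δ B : ℝ} (hδ : 0 < δ) (hB : 0 < B) :
    ∃ C2 : ℝ, 0 < C2 ∧ ∀ (x : ℝ) (a b : ℤ), 2 ≤ x → |(a : ℝ)| ≤ x ^ B → |(b : ℝ)| ≤ x ^ B → a ≠ b →
      tau (a - b).natAbs ≤ C2 * x ^ (δ / 4) := by
  obtain ⟨C2, hC2, h⟩ := h1 (δ / 4 / (B + 1)) (by positivity)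
  refine ⟨C2, hC2, fun x a b hx ha hb hab => ?_⟩
  have hx0 : 0 < x := by linarith
  have hne : 1 ≤ (a - b).natAbs := by
    have : a - b ≠ 0 := sub_ne_zero.2 hab
    omega
  refine (h _ hne).trans (mul_le_mul_of_nonneg_left ?_ hC2.le)
  have h3 : (((a - b).natAbs : ℕ) : ℝ) ≤ x ^ (B + 1) := by
    rw [Nat.cast_natAbs, Int.cast_abs, Int.cast_sub, Real.rpow_add hx0, Real.rpow_one]
    have h4 : |(a : ℝ) - b| ≤ |(a : ℝ)| + |(b : ℝ)| := abs_sub _ _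
    have h5 : 0 < x ^ B := Real.rpow_pos_of_pos hx0 _
    nlinarith
  calc (((a - b).natAbs : ℕ) : ℝ) ^ (δ / 4 / (B + 1)) ≤ (x ^ (B + 1)) ^ (δ / 4 / (B + 1)) :=
        Real.rpow_le_rpow (Nat.cast_nonneg _) h3 (by positivity)
    _ = x ^ (δ / 4) := by
        rw [← Real.rpow_mul hx0.le]
        congr 1
        field_simp

theorem tWbk (h1 : DvbStmt) (h2 : TtaStmt) (h3 : BvzStmt) (h4 : BlcStmt) (h5 : WlsStmt) : WbkStmt := by
  intro ε U B hε hU hB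
  obtain ⟨C1, hC1, hbv⟩ := h3 (U + 3) (by linarith)
  have hδ0 : 0 < min ε (1 / 8) := lt_min hε (by norm_num)
  have hδε : min ε (1 / 8) ≤ ε := min_le_left _ _
  have hδ8 : min ε (1 / 8) ≤ 1 / 8 := min_le_right _ _
  generalize min ε (1 / 8) = δ at hδ0 hδε hδ8
  obtain ⟨C2, hC2, htau⟩ := Wbk_tau h1 hδ0 hB
  have ev1 := Wbk_ev (U + 1) (1 / 8) 256 (by norm_num)
  have ev2 := Wbk_ev (2 * U + 4) (3 * δ / 4) (1536000 * C2) (by positivity)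
  have ev3 : ∀ᶠ x : ℝ in Filter.atTop, 2 + 32 * C1 ≤ Real.log x :=
    Real.tendsto_log_atTop.eventually_ge_atTop _
  obtain ⟨x0, hx0⟩ := Filter.eventually_atTop.1 (ev1.and (ev2.and ev3))
  refine ⟨64000, max x0 16, by norm_num, le_trans (by norm_num) (le_max_right _ _), ?_⟩
  intro x Q A hxx hQl hQu hA
  obtain ⟨c1, c2, c3⟩ := hx0 x ((le_max_left _ _).trans hxx)
  have hx16 : 16 ≤ x := (le_max_right _ _).trans hxx
  have hx0' : 0 < x := by linarith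
  have hx1 : 1 ≤ x := by linarith
  have hL2 : 2 ≤ Real.log x := by linarith
  have hL0 : 0 < Real.log x := by linarith
  have hP : 0 < (Real.log x) ^ (U + 1) := Real.rpow_pos_of_pos hL0 _
  have hQ1 : 1 ≤ Q := le_trans (Real.one_le_rpow hx1 (by norm_num)) hQl
  have hQx : Q ≤ x := by
    calc Q ≤ x ^ (1 - ε) := hQu
      _ ≤ x ^ (1 : ℝ) := Real.rpow_le_rpow_of_exponent_le hx1 (by linarith)
      _ = x := Real.rpow_one x
  have hM : 1 + Real.log (2 * Q) ≤ 2 * Real.log x := by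
    have e1 : Real.log (2 * Q) ≤ Real.log (2 * x) := Real.log_le_log (by linarith) (by linarith)
    rw [Real.log_mul (by norm_num) hx0'.ne'] at e1
    have e2 := Real.log_two_lt_d9
    linarith
  have hM0 : 0 ≤ 1 + Real.log (2 * Q) := by
    have := Real.log_nonneg (show (1 : ℝ) ≤ 2 * Q by linarith)
    linarith
  -- the parameter R
  have hq4 : (2 : ℝ) ≤ x ^ ((1 : ℝ) / 4) := by
    have e1 : (16 : ℝ) ^ ((1 : ℝ) / 4) = 2 := by
      rw [show (16 : ℝ) = 2 ^ (4 : ℝ) by norm_num, ← Real.rpow_mul (by norm_num)]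
      norm_num
    rw [← e1]
    exact Real.rpow_le_rpow (by norm_num) hx16 (by norm_num)
  obtain ⟨R, hRdef⟩ : ∃ R : ℕ, R = ⌊x ^ ((1 : ℝ) / 4)⌋₊ := ⟨_, rfl⟩
  have hRle : (R : ℝ) ≤ x ^ ((1 : ℝ) / 4) := by
    rw [hRdef]
    exact Nat.floor_le (by positivity)
  have hRge : x ^ ((1 : ℝ) / 4) / 2 ≤ (R : ℝ) := by
    have e1 := Nat.lt_floor_add_one (x ^ ((1 : ℝ) / 4))
    rw [← hRdef] at e1
    linarith
  have hR1 : 1 ≤ R := by
    have e1 : (1 : ℝ) ≤ (R : ℝ) := by linarith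
    exact_mod_cast e1
  have hR0 : (0 : ℝ) < R := by exact_mod_cast hR1
  have hRQ : (R : ℝ) ≤ Q :=
    hRle.trans ((Real.rpow_le_rpow_of_exponent_le hx1 (by norm_num)).trans hQl)
  have hRN : R ≤ ⌊x ^ ((4996 : ℝ) / 10000)⌋₊ :=
    Nat.le_floor (hRle.trans (Real.rpow_le_rpow_of_exponent_le hx1 (by norm_num)))
  have hbv' : ∑ e ∈ Icc 1 R, maxErr x e ≤ C1 * (x / (Real.log x) ^ (U + 3)) :=
    le_trans (sum_le_sum_of_subset_of_nonneg (Icc_subset_Icc_right hRN)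
      (fun e _ _ => Pool.Agent.Lib.EH.maxErr_nonneg x e)) (hbv x (by linarith))
  have hsq : 128 * (Real.log x) ^ (U + 1) ≤ Real.sqrt R := by
    refine Real.le_sqrt_of_sq_le ?_
    have e1 : (x ^ ((1 : ℝ) / 8)) ^ 2 = x ^ ((1 : ℝ) / 4) := by
      rw [← Real.rpow_natCast, ← Real.rpow_mul hx0'.le]
      norm_num
    have e2 : (256 * (Real.log x) ^ (U + 1)) ^ 2 ≤ (x ^ ((1 : ℝ) / 8)) ^ 2 :=
      pow_le_pow_left₀ (by positivity) c1 2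
    rw [e1] at e2
    nlinarith [sq_nonneg (128 * (Real.log x) ^ (U + 1))]
  -- the lower bound
  have hlow : (A.card : ℝ) * (3 / 4 * (x / (Real.log x) ^ (U + 1))) ≤
      ∑ p ∈ (Icc 1 ⌊x⌋₊).filter Nat.Prime, ∑ a ∈ A, gg R Q (sgn x a) ((p : ℤ) - a) := by
    rw [sum_comm, ← nsmul_eq_mul, ← sum_const]
    refine sum_le_sum fun a ha => ?_
    exact Wbk_low h2 h4 (by linarith) hQ1 hR1 hRQ hL2 (by linarith) hM hbv' hsq (hA a ha).2
  have hcs := Wbk_cs x hx1 (fun m => ∑ a ∈ A, gg R Q (sgn x a) (m - a))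
  have hX1 : 1 ≤ ⌊x⌋₊ := Nat.le_floor (by simpa using hx1)
  have hXx : (⌊x⌋₊ : ℝ) ≤ x := Nat.floor_le hx0'.le
  have hT0 : 0 ≤ C2 * x ^ (δ / 4) := by positivity
  have hwls := h5 ⌊x⌋₊ R Q (C2 * x ^ (δ / 4)) A (sgn x) hX1 hR1 hQ1 hT0 (Wbk_sgn x)
    (fun a ha b hb hab => htau x a b (by linarith) (hA a ha).1 (hA b hb).1 hab)
  rcases Nat.eq_zero_or_pos A.card with h0 | hpos
  · rw [h0, Nat.cast_zero]
    positivity
  have hn : (0 : ℝ) < (A.card : ℝ) := by exact_mod_cast hpos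
  have hPL : (Real.log x) ^ (2 * U + 4) = ((Real.log x) ^ (U + 1)) ^ 2 * (Real.log x) ^ 2 := by
    rw [← Real.rpow_natCast, ← Real.rpow_natCast, ← Real.rpow_mul hL0.le, ← Real.rpow_add hL0]
    congr 1
    push_cast
    ring
  rw [hPL]
  rw [hPL] at c2
  -- the bound for the second term
  have hxd : 0 < x ^ (3 * δ / 4) := Real.rpow_pos_of_pos hx0' _
  have hsum : ((⌊x⌋₊ : ℝ) / R + Q) * (C2 * x ^ (δ / 4)) ≤ 3 * C2 * (x / x ^ (3 * δ / 4)) := by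
    have e1 : (⌊x⌋₊ : ℝ) / R ≤ 2 * x ^ (1 - δ) := by
      rw [div_le_iff₀ hR0]
      have e2 : 2 * x ^ (1 - δ) * (x ^ ((1 : ℝ) / 4) / 2) ≤ 2 * x ^ (1 - δ) * R :=
        mul_le_mul_of_nonneg_left hRge (by positivity)
      have e3 : 2 * x ^ (1 - δ) * (x ^ ((1 : ℝ) / 4) / 2) = x ^ (1 - δ + 1 / 4) := by
        rw [Real.rpow_add hx0']
        ring
      have e4 : x ≤ x ^ (1 - δ + 1 / 4) := by
        calc x = x ^ (1 : ℝ) := (Real.rpow_one x).symm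
          _ ≤ _ := Real.rpow_le_rpow_of_exponent_le hx1 (by linarith)
      linarith
    have e5 : Q ≤ x ^ (1 - δ) := hQu.trans (Real.rpow_le_rpow_of_exponent_le hx1 (by linarith))
    have e6 : x / x ^ (3 * δ / 4) = x ^ (1 - δ) * x ^ (δ / 4) := by
      rw [div_eq_iff hxd.ne', ← Real.rpow_add hx0', ← Real.rpow_add hx0']
      rw [show 1 - δ + δ / 4 + 3 * δ / 4 = 1 by ring, Real.rpow_one]
    rw [e6]
    calc ((⌊x⌋₊ : ℝ) / R + Q) * (C2 * x ^ (δ / 4)) ≤ (3 * x ^ (1 - δ)) * (C2 * x ^ (δ / 4)) :=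
          mul_le_mul_of_nonneg_right (by linarith) hT0
      _ = 3 * C2 * (x ^ (1 - δ) * x ^ (δ / 4)) := by ring
  refine Wbk_alg (W := 3 * C2 * (x / x ^ (3 * δ / 4))) hn hx0' hL0 hP hlow hcs ?_ ?_
  · refine hwls.trans ?_
    have e1 : (1 + Real.log (2 * Q)) ^ 2 ≤ (2 * Real.log x) ^ 2 := pow_le_pow_left₀ hM0 hM 2
    have e2 : ((⌊x⌋₊ : ℝ) + Q ^ 2) * A.card +
        ((⌊x⌋₊ : ℝ) / R + Q) * (C2 * x ^ (δ / 4)) * (A.card : ℝ) ^ 2 ≤
        (x + Q ^ 2) * A.card + 3 * C2 * (x / x ^ (3 * δ / 4)) * (A.card : ℝ) ^ 2 :=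
      add_le_add (mul_le_mul_of_nonneg_right (by linarith) hn.le)
        (mul_le_mul_of_nonneg_right hsum (by positivity))
    calc 8000 * (1 + Real.log (2 * Q)) ^ 2 * (((⌊x⌋₊ : ℝ) + Q ^ 2) * A.card +
          ((⌊x⌋₊ : ℝ) / R + Q) * (C2 * x ^ (δ / 4)) * (A.card : ℝ) ^ 2)
        ≤ 8000 * (2 * Real.log x) ^ 2 * (((⌊x⌋₊ : ℝ) + Q ^ 2) * A.card +
          ((⌊x⌋₊ : ℝ) / R + Q) * (C2 * x ^ (δ / 4)) * (A.card : ℝ) ^ 2) :=
          mul_le_mul_of_nonneg_right (mul_le_mul_of_nonneg_left e1 (by norm_num)) (by positivity)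
      _ ≤ 8000 * (2 * Real.log x) ^ 2 * ((x + Q ^ 2) * A.card +
          3 * C2 * (x / x ^ (3 * δ / 4)) * (A.card : ℝ) ^ 2) :=
          mul_le_mul_of_nonneg_left e2 (by positivity)
      _ = _ := by ring
  · have e1 : 512000 * (Real.log x) ^ 2 * ((Real.log x) ^ (U + 1)) ^ 2 *
        (3 * C2 * (x / x ^ (3 * δ / 4))) =
        (1536000 * C2 * (((Real.log x) ^ (U + 1)) ^ 2 * (Real.log x) ^ 2)) / x ^ (3 * δ / 4) * x := by
      ring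
    rw [e1]
    have e2 : (1536000 * C2 * (((Real.log x) ^ (U + 1)) ^ 2 * (Real.log x) ^ 2)) / x ^ (3 * δ / 4) ≤ 1 := by
      rw [div_le_one hxd]
      exact c2
    calc _ ≤ 1 * x := mul_le_mul_of_nonneg_right e2 hx0'.le
      _ = x := one_mul x

end Pool.Agent.Lib.KF
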