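import Pool.Agent.Lib.KF.SpecW

namespace Pool.Agent.Lib.KF

open Finset Pool.Agent.Lib.EH3 Pool.Agent.Results.MP_00e23e_nt

private lemma Wdd_half {x : ℝ} (hx : Real.exp 2000 ≤ x) :
    x ^ ((499 : ℝ) / 1000) ≤ x ^ ((4995 : ℝ) / 10000) / 2 := by
  have hx0 : 0 < x := lt_of_lt_of_le (Real.exp_pos _) hx
  have hL : 2000 ≤ Real.log x := (Real.le_log_iff_exp_le hx0).2 hx
  have h1 : x ^ ((4995 : ℝ) / 10000) = x ^ ((499 : ℝ) / 1000) * x ^ ((1 : ℝ) / 2000) := by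
    rw [← Real.rpow_add hx0]
    norm_num
  have h2 : (2 : ℝ) ≤ x ^ ((1 : ℝ) / 2000) := by
    rw [Real.rpow_def_of_pos hx0]
    have h3 : (1 : ℝ) ≤ Real.log x * (1 / 2000) := by linarith
    have h4 := Real.add_one_le_exp (Real.log x * (1 / 2000))
    linarith
  rw [h1, le_div_iff₀ (by norm_num)]
  exact mul_le_mul_of_nonneg_left h2 (Real.rpow_nonneg hx0.le _)

private lemma Wdd_exists (Q y : ℝ) (hy : 0 < y) : ∃ I : ℕ, Q / 2 ^ I ≤ y := by
  obtain ⟨n, hn⟩ := pow_unbounded_of_one_lt (Q / y) (by norm_num : (1 : ℝ) < 2)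
  refine ⟨n, ?_⟩
  rw [div_le_iff₀ (by positivity)]
  rw [div_lt_iff₀ hy] at hn
  linarith

private lemma Wdd_count {x Q : ℝ} (hx : Real.exp 2000 ≤ x) (hQ : Q ≤ x) (k : ℕ)
    (hk : x ^ ((4995 : ℝ) / 10000) < Q / 2 ^ k) : ((k + 1 : ℕ) : ℝ) ≤ Real.log x := by
  have hx0 : 0 < x := lt_of_lt_of_le (Real.exp_pos _) hx
  have hL : 2000 ≤ Real.log x := (Real.le_log_iff_exp_le hx0).2 hx
  have h2k : (0 : ℝ) < 2 ^ k := by positivity
  rw [lt_div_iff₀ h2k] at hk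
  have h1 : x ^ ((4995 : ℝ) / 10000) * 2 ^ k < x := lt_of_lt_of_le hk hQ
  have hy : 0 < x ^ ((4995 : ℝ) / 10000) := Real.rpow_pos_of_pos hx0 _
  have h2 : Real.log (x ^ ((4995 : ℝ) / 10000) * 2 ^ k) < Real.log x :=
    Real.log_lt_log (mul_pos hy h2k) h1
  rw [Real.log_mul hy.ne' h2k.ne', Real.log_rpow hx0, Real.log_pow] at h2
  have h3 := Real.log_two_gt_d9
  have hk0 : (0 : ℝ) ≤ k := Nat.cast_nonneg k
  have h4 : (k : ℝ) * 0.69 ≤ k * Real.log 2 :=
    mul_le_mul_of_nonneg_left (by linarith) hk0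
  push_cast
  linarith

theorem tWdd : WddStmt := by
  classical
  refine ⟨Real.exp 2000, ?_, ?_⟩
  · have := Real.add_one_le_exp (2000 : ℝ)
    linarith
  intro x Q hx hQ1 hQx
  have hx0 : 0 < x := lt_of_lt_of_le (Real.exp_pos _) hx
  have hx1 : 1 ≤ x := hQ1.trans hQx
  have hy : 0 < x ^ ((4995 : ℝ) / 10000) := Real.rpow_pos_of_pos hx0 _
  have hex := Wdd_exists Q _ hy
  have hI := Nat.find_spec hex
  have hmin : ∀ i < Nat.find hex, x ^ ((4995 : ℝ) / 10000) < Q / 2 ^ i := by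
    intro i hi
    have := Nat.find_min hex hi
    exact lt_of_not_ge this
  refine ⟨Nat.find hex, ?_, ?_, ?_⟩
  · rcases Nat.eq_zero_or_pos (Nat.find hex) with h0 | h0
    · rw [h0, Nat.cast_zero]
      exact Real.log_nonneg hx1
    · obtain ⟨k, hk⟩ := Nat.exists_eq_succ_of_ne_zero h0.ne'
      have h1 := Wdd_count hx hQx k (hmin k (by omega))
      rw [hk]
      exact h1
  · intro i hi
    have h1 := hmin i hi
    have h2 := Wdd_half hx
    have h3 : Q / 2 ^ (i + 1) = Q / 2 ^ i / 2 := by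
      rw [pow_succ, div_div]
    rw [h3]
    linarith
  · intro d hd
    rw [mem_Icc] at hd
    have hdQ : (d : ℝ) ≤ Q := (Nat.le_floor_iff (by linarith)).1 hd.2
    by_cases hdx : (d : ℝ) ≤ x ^ ((4996 : ℝ) / 10000)
    · left
      rw [mem_Icc]
      exact ⟨hd.1, (Nat.le_floor_iff (Real.rpow_nonneg hx0.le _)).2 hdx⟩
    · right
      have h1 : x ^ ((4995 : ℝ) / 10000) ≤ x ^ ((4996 : ℝ) / 10000) :=
        Real.rpow_le_rpow_of_exponent_le hx1 (by norm_num)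
      have h2 : Q / 2 ^ (Nat.find hex) < d := by linarith [not_le.1 hdx]
      have hex2 : ∃ j : ℕ, Q / 2 ^ j < (d : ℝ) := ⟨_, h2⟩
      have hj := Nat.find_spec hex2
      have hj1 : Nat.find hex2 ≤ Nat.find hex := Nat.find_min' hex2 h2
      have hj0 : Nat.find hex2 ≠ 0 := by
        intro h0
        rw [h0, pow_zero, div_one] at hj
        linarith
      obtain ⟨i, hi⟩ := Nat.exists_eq_succ_of_ne_zero hj0
      have hi1 : ¬ Q / 2 ^ i < (d : ℝ) := Nat.find_min hex2 (by omega)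
      rw [hi, Nat.succ_eq_add_one] at hj
      refine ⟨i, by omega, ?_⟩
      rw [mem_dy (by positivity)]
      refine ⟨hj, ?_⟩
      have h3 : 2 * (Q / 2 ^ (i + 1)) = Q / 2 ^ i := by
        rw [pow_succ]
        field_simp
      rw [h3]
      exact not_lt.1 hi1

end Pool.Agent.Lib.KF
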