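import Pool.Agent.Lib.KF.SpecW

/-!
MP_00e23e_nt, directory Lib/KF, module Wfn: the final theorem of part W from the dyadic blocks.
-/

namespace Pool.Agent.Lib.KF

open Finset Pool.Agent.Lib.EH3 Pool.Agent.Results.MP_00e23e_nt

private lemma Wfn_biU (I : ℕ) (T : ℕ → Finset ℕ) (f : ℕ → ℝ) (hf : ∀ d, 0 ≤ f d) :
    ∑ d ∈ (range I).biUnion T, f d ≤ ∑ i ∈ range I, ∑ d ∈ T i, f d := by
  classical
  have h1 : ∀ d ∈ (range I).biUnion T, f d ≤ ∑ i ∈ range I, if d ∈ T i then f d else 0 := by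
    intro d hd
    obtain ⟨i, hi, hdi⟩ := Finset.mem_biUnion.1 hd
    have h := Finset.single_le_sum (f := fun i => if d ∈ T i then f d else 0)
      (fun j _ => by
        show 0 ≤ if d ∈ T j then f d else 0
        split_ifs
        · exact hf d
        · exact le_rfl) hi
    simpa [hdi] using h
  refine (Finset.sum_le_sum h1).trans ?_
  rw [Finset.sum_comm]
  refine Finset.sum_le_sum fun i _ => ?_
  rw [← Finset.sum_filter]
  refine Finset.sum_le_sum_of_subset_of_nonneg ?_ fun d _ _ => hf d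
  intro d hd
  exact (Finset.mem_filter.1 hd).2

private lemma Wfn_abs {y : ℝ} {a : ℤ} (h : |(a : ℝ)| ≤ y) : |a| ≤ ((⌊y⌋₊ : ℕ) : ℤ) := by
  have h1 : ((a.natAbs : ℕ) : ℝ) ≤ y := by
    rw [Nat.cast_natAbs]
    push_cast
    exact h
  have h2 : a.natAbs ≤ ⌊y⌋₊ := Nat.le_floor h1
  rw [Int.abs_eq_natAbs]
  exact_mod_cast h2

private lemma Wfn_abs' {y : ℝ} (hy : 0 ≤ y) {a : ℤ} (h : |a| ≤ ((⌊y⌋₊ : ℕ) : ℤ)) : |(a : ℝ)| ≤ y := by
  have h1 : |(a : ℝ)| ≤ (⌊y⌋₊ : ℝ) := by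
    have : ((|a| : ℤ) : ℝ) ≤ ((((⌊y⌋₊ : ℕ) : ℤ)) : ℝ) := by exact_mod_cast h
    rw [Int.cast_abs, Int.cast_natCast] at this
    exact this
  exact h1.trans (Nat.floor_le hy)

private lemma Wfn_geo (I : ℕ) : ∑ i ∈ range I, ((1 : ℝ) / 2 ^ (i + 1)) ^ 2 ≤ 1 - 1 / 2 ^ I := by
  induction I with
  | zero => simp
  | succ n ih =>
    rw [Finset.sum_range_succ]
    have h1 : (0 : ℝ) < 1 / 2 ^ (n + 1) := by positivity
    have h2 : (1 : ℝ) / 2 ^ (n + 1) ≤ 1 := by
      rw [div_le_one (by positivity)]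
      exact one_le_pow₀ (by norm_num)
    have h3 : ((1 : ℝ) / 2 ^ (n + 1)) ^ 2 ≤ 1 / 2 ^ (n + 1) := by nlinarith
    have h4 : (1 : ℝ) / 2 ^ n = 2 * (1 / 2 ^ (n + 1)) := by
      rw [pow_succ]
      field_simp
    linarith

private lemma Wfn_blocks (x Q : ℝ) (hx : 0 < x) (I : ℕ) :
    ∑ i ∈ range I, (1 + (Q / 2 ^ (i + 1)) ^ 2 / x) ≤ I + Q ^ 2 / x := by
  have h1 : ∀ i ∈ range I, (1 + (Q / 2 ^ (i + 1)) ^ 2 / x) =
      1 + (Q ^ 2 / x) * ((1 : ℝ) / 2 ^ (i + 1)) ^ 2 := by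
    intro i _
    ring
  rw [Finset.sum_congr rfl h1, Finset.sum_add_distrib, Finset.sum_const, Finset.card_range,
    nsmul_eq_mul, mul_one, ← Finset.mul_sum]
  have h2 : ∑ i ∈ range I, ((1 : ℝ) / 2 ^ (i + 1)) ^ 2 ≤ 1 := by
    have h3 := Wfn_geo I
    have h4 : (0 : ℝ) ≤ 1 / 2 ^ I := by positivity
    linarith
  have h3 : 0 ≤ Q ^ 2 / x := by positivity
  have h4 := mul_le_mul_of_nonneg_left h2 h3
  linarith

theorem tWfn (h1 : RseStmt) (h2 : BvzStmt) (h3 : WbkStmt) (h4 : WddStmt) : WfnStmt := by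
  classical
  intro ε U B hε hU hB
  obtain ⟨C1, hC1, hV⟩ := h2 U hU
  obtain ⟨C2, x0, hC2, hx0, hK⟩ := h3 ε U B hε hU hB
  obtain ⟨x1, hx1, hD⟩ := h4
  refine ⟨2 * (max x0 x1) ^ B + 1 + C2 + (C1 + 1), fun x Q hx hQ1 hQ => ?_⟩
  have hmx : 3 ≤ max x0 x1 := le_max_of_le_left hx0
  have hmB : 0 ≤ (max x0 x1) ^ B := Real.rpow_nonneg (by linarith) _
  have hlog1 : 1 ≤ Real.log x := by
    have h : Real.exp 1 ≤ x := by
      have := Real.exp_one_lt_d9
      linarith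
    rw [← Real.log_exp 1]
    exact Real.log_le_log (Real.exp_pos 1) h
  have hlog0 : 0 < Real.log x := by linarith
  have hx0' : 0 < x := by linarith
  have hxB : 0 ≤ x ^ B := Real.rpow_nonneg hx0'.le _
  have hQx : Q ≤ x := by
    refine hQ.trans ?_
    calc x ^ (1 - ε) ≤ x ^ (1 : ℝ) := Real.rpow_le_rpow_of_exponent_le (by linarith) (by linarith)
      _ = x := Real.rpow_one x
  have hq0 : 0 ≤ Q ^ 2 / x := by positivity
  rcases lt_or_ge x (max x0 x1) with hlt | hge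
  · -- small x
    refine ⟨Finset.Icc (-((⌊x ^ B⌋₊ : ℕ) : ℤ)) ((⌊x ^ B⌋₊ : ℕ) : ℤ), ?_, ?_⟩
    · have hp : 1 ≤ (Real.log x) ^ (2 * U + 5) := Real.one_le_rpow hlog1 (by linarith)
      have hp2 : 1 ≤ (1 + Q ^ 2 / x) * (Real.log x) ^ (2 * U + 5) := by nlinarith
      have hc : ((Finset.Icc (-((⌊x ^ B⌋₊ : ℕ) : ℤ)) ((⌊x ^ B⌋₊ : ℕ) : ℤ)).card : ℝ) =
          2 * (⌊x ^ B⌋₊ : ℝ) + 1 := by
        rw [Int.card_Icc]
        have : (((⌊x ^ B⌋₊ : ℕ) : ℤ) + 1 - (-((⌊x ^ B⌋₊ : ℕ) : ℤ))).toNat = 2 * ⌊x ^ B⌋₊ + 1 := by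
          omega
        rw [this]
        push_cast
        ring
      have hf : (⌊x ^ B⌋₊ : ℝ) ≤ x ^ B := Nat.floor_le hxB
      have hf2 : x ^ B ≤ (max x0 x1) ^ B := Real.rpow_le_rpow hx0'.le hlt.le hB.le
      rw [hc]
      calc 2 * (⌊x ^ B⌋₊ : ℝ) + 1 ≤ (2 * (max x0 x1) ^ B + 1 + C2 + (C1 + 1)) * 1 := by linarith
        _ ≤ _ := mul_le_mul_of_nonneg_left hp2 (by linarith)
    · intro a ha hna
      exact absurd (Finset.mem_Icc.2 (abs_le.1 (Wfn_abs ha))) hna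
  · -- large x
    have hgx0 : x0 ≤ x := le_trans (le_max_left _ _) hge
    have hgx1 : x1 ≤ x := le_trans (le_max_right _ _) hge
    obtain ⟨I, hI, hIQ, hcov⟩ := hD x Q hgx1 hQ1 hQx
    set Qi : ℕ → ℝ := fun i => Q / 2 ^ (i + 1) with hQdef
    have hQi : ∀ i, Qi i ≤ x ^ (1 - ε) := by
      intro i
      refine le_trans ?_ hQ
      exact div_le_self (by linarith) (one_le_pow₀ (by norm_num))
    set A : ℕ → Finset ℤ := fun i =>
      (Finset.Icc (-((⌊x ^ B⌋₊ : ℕ) : ℤ)) ((⌊x ^ B⌋₊ : ℕ) : ℤ)).filter (fun a =>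
        x / (Real.log x) ^ (U + 1) < ∑ d ∈ dya (Qi i) a, |resErr x d a|) with hAdef
    refine ⟨(range I).biUnion A, ?_, ?_⟩
    · have hcA : ∀ i ∈ range I, ((A i).card : ℝ) ≤
          C2 * ((1 + (Q / 2 ^ (i + 1)) ^ 2 / x) * (Real.log x) ^ (2 * U + 4)) := by
        intro i hi
        have hi' := Finset.mem_range.1 hi
        refine hK x (Qi i) (A i) hgx0 (hIQ i hi') (hQi i) ?_
        intro a ha
        obtain ⟨ha1, ha2⟩ := Finset.mem_filter.1 ha
        exact ⟨Wfn_abs' hxB (abs_le.2 (Finset.mem_Icc.1 ha1)), ha2⟩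
      have hc1 : (((range I).biUnion A).card : ℝ) ≤ ∑ i ∈ range I, ((A i).card : ℝ) := by
        exact_mod_cast Finset.card_biUnion_le
      have hp4 : 0 ≤ (Real.log x) ^ (2 * U + 4) := by positivity
      have hc2 : ∑ i ∈ range I, ((A i).card : ℝ) ≤
          C2 * ((I + Q ^ 2 / x) * (Real.log x) ^ (2 * U + 4)) := by
        refine (Finset.sum_le_sum hcA).trans ?_
        rw [← Finset.mul_sum, ← Finset.sum_mul]
        exact mul_le_mul_of_nonneg_left (mul_le_mul_of_nonneg_right (Wfn_blocks x Q hx0' I) hp4)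
          hC2.le
      have hc3 : (I + Q ^ 2 / x) * (Real.log x) ^ (2 * U + 4) ≤
          (1 + Q ^ 2 / x) * (Real.log x) ^ (2 * U + 5) := by
        rw [show 2 * U + 5 = (2 * U + 4) + 1 by ring, Real.rpow_add_one hlog0.ne',
          mul_comm ((Real.log x) ^ (2 * U + 4)) (Real.log x), ← mul_assoc]
        refine mul_le_mul_of_nonneg_right ?_ hp4
        nlinarith
      have hp0 : 0 ≤ (1 + Q ^ 2 / x) * (Real.log x) ^ (2 * U + 5) := by positivity
      calc (((range I).biUnion A).card : ℝ) ≤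
            C2 * ((1 + Q ^ 2 / x) * (Real.log x) ^ (2 * U + 5)) :=
            (hc1.trans hc2).trans (mul_le_mul_of_nonneg_left hc3 hC2.le)
        _ ≤ (2 * (max x0 x1) ^ B + 1 + C2 + (C1 + 1)) *
            ((1 + Q ^ 2 / x) * (Real.log x) ^ (2 * U + 5)) :=
            mul_le_mul_of_nonneg_right (by linarith) hp0
    · intro a ha hna
      have haf := Wfn_abs ha
      have hi : ∀ i ∈ range I, ∑ d ∈ dya (Qi i) a, |resErr x d a| ≤
          x / (Real.log x) ^ (U + 1) := by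
        intro i hi
        by_contra hcon
        rw [not_le] at hcon
        exact hna (Finset.mem_biUnion.2 ⟨i, hi, Finset.mem_filter.2
          ⟨Finset.mem_Icc.2 (abs_le.1 haf), hcon⟩⟩)
      set F := (Icc 1 ⌊Q⌋₊).filter (fun d : ℕ => Int.gcd a d = 1) with hF
      set E := (Icc 1 ⌊x ^ ((4996 : ℝ) / 10000)⌋₊).filter (fun d : ℕ => Int.gcd a d = 1) with hBd
      have hsub : F ⊆ E ∪ (range I).biUnion (fun i => dya (Qi i) a) := by
        intro d hd
        obtain ⟨hd1, hd2⟩ := Finset.mem_filter.1 hd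
        rw [Finset.mem_union]
        rcases hcov d hd1 with h | ⟨i, hi, h⟩
        · exact Or.inl (Finset.mem_filter.2 ⟨h, hd2⟩)
        · exact Or.inr (Finset.mem_biUnion.2 ⟨i, Finset.mem_range.2 hi,
            Finset.mem_filter.2 ⟨h, hd2⟩⟩)
      have hs1 : ∑ d ∈ F, |resErr x d a| ≤ ∑ d ∈ E, |resErr x d a| +
          ∑ d ∈ (range I).biUnion (fun i => dya (Qi i) a), |resErr x d a| := by
        refine (Finset.sum_le_sum_of_subset_of_nonneg hsub fun _ _ _ => abs_nonneg _).trans ?_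
        rw [← Finset.sum_union_inter]
        have : 0 ≤ ∑ d ∈ E ∩ (range I).biUnion (fun i => dya (Qi i) a), |resErr x d a| :=
          Finset.sum_nonneg fun _ _ => abs_nonneg _
        linarith
      have hs2 : ∑ d ∈ E, |resErr x d a| ≤ C1 * (x / (Real.log x) ^ U) := by
        refine le_trans ?_ (hV x hx)
        refine (Finset.sum_le_sum (g := fun d => maxErr x d) fun d hd => ?_).trans
          (Finset.sum_le_sum_of_subset_of_nonneg (Finset.filter_subset _ _)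
            fun d _ _ => Pool.Agent.Lib.EH.maxErr_nonneg x d)
        obtain ⟨hd1, hd2⟩ := Finset.mem_filter.1 hd
        exact h1 x d a (Finset.mem_Icc.1 hd1).1 hd2
      have hs3 : ∑ d ∈ (range I).biUnion (fun i => dya (Qi i) a), |resErr x d a| ≤
          x / (Real.log x) ^ U := by
        refine (Wfn_biU I _ _ fun _ => abs_nonneg _).trans ((Finset.sum_le_sum hi).trans ?_)
        rw [Finset.sum_const, nsmul_eq_mul, Finset.card_range]
        have hq : 0 ≤ x / (Real.log x) ^ (U + 1) := by positivity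
        refine (mul_le_mul_of_nonneg_right hI hq).trans (le_of_eq ?_)
        have hne : (Real.log x) ^ U ≠ 0 := (Real.rpow_pos_of_pos hlog0 U).ne'
        rw [Real.rpow_add_one hlog0.ne']
        field_simp
      have hq : 0 ≤ x / (Real.log x) ^ U := by positivity
      calc ∑ d ∈ F, |resErr x d a| ≤ C1 * (x / (Real.log x) ^ U) + x / (Real.log x) ^ U := by
            linarith
        _ = (C1 + 1) * (x / (Real.log x) ^ U) := by ring
        _ ≤ (2 * (max x0 x1) ^ B + 1 + C2 + (C1 + 1)) * (x / (Real.log x) ^ U) :=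
            mul_le_mul_of_nonneg_right (by linarith) hq

end Pool.Agent.Lib.KF
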