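import Pool.Agent.Lib.KF.SpecW

/-!
MP_00e23e_nt, directory Lib/KF, module Zsq: the square sum of the coefficients.
-/

namespace Pool.Agent.Lib.KF

open Finset Pool.Agent.Lib.EH3 Pool.Agent.Results.MP_00e23e_nt

private lemma Zsq_Gm {Q : ℝ} {c : ℕ → ℝ} {r : ℕ} (hQ : 1 ≤ Q) (hr : 1 ≤ r)
    (hc : ∀ d, |c d| ≤ 1) : |Gm Q c r| ≤ 2 / r := by
  have hQ0 : (0 : ℝ) < Q := by linarith
  have hr0 : (0 : ℝ) < r := by exact_mod_cast hr
  unfold Gm
  calc |∑ d ∈ (dy Q).filter (fun d => r ∣ d), c d / d|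
      ≤ ∑ d ∈ (dy Q).filter (fun d => r ∣ d), |c d / d| := Finset.abs_sum_le_sum_abs _ _
    _ ≤ ∑ d ∈ (dy Q).filter (fun d => r ∣ d), 1 / Q := by
        refine Finset.sum_le_sum fun d hd => ?_
        have h1 := (mem_dy hQ0.le).1 (Finset.mem_filter.1 hd).1
        have h2 : (0 : ℝ) < d := by linarith [h1.1]
        rw [abs_div, abs_of_pos h2]
        exact div_le_div₀ zero_le_one (hc d) hQ0 h1.1.le
    _ = (((dy Q).filter (fun d => r ∣ d)).card : ℝ) * (1 / Q) := by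
        rw [Finset.sum_const, nsmul_eq_mul]
    _ ≤ (2 * Q / r) * (1 / Q) := by
        refine mul_le_mul_of_nonneg_right (card_dy_dvd_le hQ0.le hr) (by positivity)
    _ = 2 / r := by
        field_simp

private lemma Zsq_h (A : Finset ℤ) (g : ℤ → ℝ) {r : ℕ} (hr : 1 ≤ r) :
    (∑ h ∈ range r, ‖∑ a ∈ A, (g a : ℂ) * ee (-((a : ℝ) * ((h : ℝ) / r)))‖ ^ 2 : ℝ) =
      r * ∑ a ∈ A, ∑ b ∈ A, if (r : ℤ) ∣ b - a then g a * g b else 0 := by
  have hr0 : (0 : ℝ) < r := by exact_mod_cast hr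
  apply Complex.ofReal_injective
  have h1 : ∀ h : ℕ, ((‖∑ a ∈ A, (g a : ℂ) * ee (-((a : ℝ) * ((h : ℝ) / r)))‖ ^ 2 : ℝ) : ℂ) =
      ∑ a ∈ A, ∑ b ∈ A, ((g a : ℂ) * g b) * ee (h * (((b - a : ℤ) : ℝ) / r)) := by
    intro h
    rw [Complex.ofReal_pow, ← Complex.mul_conj', map_sum, Finset.sum_mul_sum]
    refine Finset.sum_congr rfl fun a _ => Finset.sum_congr rfl fun b _ => ?_
    rw [map_mul, Complex.conj_ofReal, conj_ee, neg_neg]
    have h2 : ee (h * (((b - a : ℤ) : ℝ) / r)) =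
        ee (-((a : ℝ) * ((h : ℝ) / r))) * ee ((b : ℝ) * ((h : ℝ) / r)) := by
      rw [← ee_add]
      congr 1
      push_cast
      ring
    rw [h2]
    ring
  rw [Complex.ofReal_sum]
  simp only [h1]
  rw [Finset.sum_comm, Complex.ofReal_mul, Complex.ofReal_sum, Finset.mul_sum]
  refine Finset.sum_congr rfl fun a _ => ?_
  rw [Finset.sum_comm, Complex.ofReal_sum, Finset.mul_sum]
  refine Finset.sum_congr rfl fun b _ => ?_
  rw [← Finset.mul_sum, orth (by omega) (b - a)]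
  by_cases hd : (r : ℤ) ∣ b - a
  · rw [if_pos hd, if_pos hd]
    push_cast
    ring
  · rw [if_neg hd, if_neg hd]
    push_cast
    ring

private lemma Zsq_r {Q : ℝ} (A : Finset ℤ) {c : ℤ → ℕ → ℝ} {r : ℕ} (hQ : 1 ≤ Q) (hr : 1 ≤ r)
    (hc : ∀ a d, |c a d| ≤ 1) :
    ∑ h ∈ (range r).filter (fun h => h.Coprime r), ‖zc Q A c r h‖ ^ 2 ≤
      4 / r * ∑ a ∈ A, ∑ b ∈ A, if (r : ℤ) ∣ b - a then (1 : ℝ) else 0 := by
  have hr0 : (0 : ℝ) < r := by exact_mod_cast hr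
  calc ∑ h ∈ (range r).filter (fun h => h.Coprime r), ‖zc Q A c r h‖ ^ 2
      ≤ ∑ h ∈ range r, ‖zc Q A c r h‖ ^ 2 :=
        Finset.sum_le_sum_of_subset_of_nonneg (Finset.filter_subset _ _) fun _ _ _ => by positivity
    _ = r * ∑ a ∈ A, ∑ b ∈ A, (if (r : ℤ) ∣ b - a then Gm Q (c a) r * Gm Q (c b) r else 0) :=
        Zsq_h A (fun a => Gm Q (c a) r) hr
    _ ≤ r * ∑ a ∈ A, ∑ b ∈ A, (2 / r) ^ 2 * (if (r : ℤ) ∣ b - a then (1 : ℝ) else 0) := by
        refine mul_le_mul_of_nonneg_left ?_ hr0.le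
        refine Finset.sum_le_sum fun a _ => Finset.sum_le_sum fun b _ => ?_
        by_cases hd : (r : ℤ) ∣ b - a
        · rw [if_pos hd, if_pos hd, mul_one]
          have h1 := Zsq_Gm hQ hr (hc a)
          have h2 := Zsq_Gm hQ hr (hc b)
          calc Gm Q (c a) r * Gm Q (c b) r ≤ |Gm Q (c a) r * Gm Q (c b) r| := le_abs_self _
            _ = |Gm Q (c a) r| * |Gm Q (c b) r| := abs_mul _ _
            _ ≤ 2 / r * (2 / r) := mul_le_mul h1 h2 (abs_nonneg _) (by positivity)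
            _ = (2 / r) ^ 2 := by ring
        · rw [if_neg hd, if_neg hd, mul_zero]
    _ = 4 / r * ∑ a ∈ A, ∑ b ∈ A, if (r : ℤ) ∣ b - a then (1 : ℝ) else 0 := by
        simp only [← Finset.mul_sum]
        rw [← mul_assoc]
        congr 1
        field_simp
        norm_num

private lemma Zsq_count {r0 : ℕ} {T : ℝ} (m : ℤ) (hT : m ≠ 0 → tau m.natAbs ≤ T) :
    (∑ r ∈ Ioc r0 (2 * r0), if ((r : ℕ) : ℤ) ∣ m then (1 : ℝ) else 0) ≤
      if m = 0 then (r0 : ℝ) else T := by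
  by_cases hm : m = 0
  · rw [if_pos hm]
    calc (∑ r ∈ Ioc r0 (2 * r0), if ((r : ℕ) : ℤ) ∣ m then (1 : ℝ) else 0)
        ≤ ∑ r ∈ Ioc r0 (2 * r0), (1 : ℝ) := by
          refine Finset.sum_le_sum fun r _ => ?_
          split_ifs <;> norm_num
      _ = r0 := by
          rw [Finset.sum_const, Nat.card_Ioc, nsmul_eq_mul, mul_one]
          congr 1
          omega
  · rw [if_neg hm]
    refine le_trans ?_ (hT hm)
    rw [← Finset.sum_filter, Finset.sum_const, nsmul_eq_mul, mul_one]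
    unfold tau
    have h : ((Ioc r0 (2 * r0)).filter (fun r : ℕ => (r : ℤ) ∣ m)).card ≤ m.natAbs.divisors.card := by
      refine Finset.card_le_card fun r hr => ?_
      rw [Nat.mem_divisors]
      exact ⟨Int.natCast_dvd.1 (Finset.mem_filter.1 hr).2, by simpa using hm⟩
    exact_mod_cast h

theorem tZsq : ZsqStmt := by
  intro Q T A c r0 hQ hr0 hT hc hA
  have hr1 : (0 : ℝ) < r0 := by exact_mod_cast hr0
  have h1 : ∀ r ∈ Ioc r0 (2 * r0), ∑ h ∈ (range r).filter (fun h => h.Coprime r),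
      ‖zc Q A c r h‖ ^ 2 ≤ 4 / r0 * ∑ a ∈ A, ∑ b ∈ A, if (r : ℤ) ∣ b - a then (1 : ℝ) else 0 := by
    intro r hr
    have hrr := Finset.mem_Ioc.1 hr
    refine (Zsq_r A hQ (by omega) hc).trans ?_
    refine mul_le_mul_of_nonneg_right ?_ ?_
    · have h2 : (r0 : ℝ) ≤ r := by exact_mod_cast hrr.1.le
      exact div_le_div_of_nonneg_left (by norm_num) hr1 h2
    · refine Finset.sum_nonneg fun a _ => Finset.sum_nonneg fun b _ => ?_
      split_ifs <;> norm_num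
  calc ∑ r ∈ Ioc r0 (2 * r0), ∑ h ∈ (range r).filter (fun h => h.Coprime r), ‖zc Q A c r h‖ ^ 2
      ≤ ∑ r ∈ Ioc r0 (2 * r0), 4 / r0 * ∑ a ∈ A, ∑ b ∈ A,
          (if (r : ℤ) ∣ b - a then (1 : ℝ) else 0) := Finset.sum_le_sum h1
    _ = 4 / r0 * ∑ a ∈ A, ∑ b ∈ A, ∑ r ∈ Ioc r0 (2 * r0),
          (if (r : ℤ) ∣ b - a then (1 : ℝ) else 0) := by
        rw [← Finset.mul_sum, Finset.sum_comm]
        congr 1
        exact Finset.sum_congr rfl fun a _ => Finset.sum_comm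
    _ ≤ 4 / r0 * ∑ a ∈ A, ∑ b ∈ A, ((if b = a then (r0 : ℝ) else 0) + T) := by
        refine mul_le_mul_of_nonneg_left ?_ (by positivity)
        refine Finset.sum_le_sum fun a ha => Finset.sum_le_sum fun b hb => ?_
        refine (Zsq_count (r0 := r0) (T := T) (b - a) fun h => ?_).trans ?_
        · exact hA b hb a ha fun h' => h (sub_eq_zero.2 h')
        · by_cases hab : b = a
          · rw [if_pos (sub_eq_zero.2 hab), if_pos hab]
            linarith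
          · rw [if_neg (fun h => hab (sub_eq_zero.1 h)), if_neg hab, zero_add]
    _ = 4 * ((A.card : ℝ) + (A.card : ℝ) ^ 2 * T / r0) := by
        have h3 : ∀ a ∈ A, ∑ b ∈ A, ((if b = a then (r0 : ℝ) else 0) + T) = r0 + A.card * T := by
          intro a ha
          rw [Finset.sum_add_distrib, Finset.sum_ite_eq', if_pos ha, Finset.sum_const, nsmul_eq_mul]
        rw [Finset.sum_congr rfl h3, Finset.sum_const, nsmul_eq_mul]
        field_simp

end Pool.Agent.Lib.KF
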