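import Pool.Agent.Lib.BV.All
import Pool.Agent.Lib.EH4.Frac
import Pool.Agent.Lib.EH4.Spc
import Pool.Agent.Lib.KF.Ram
import Pool.Agent.Lib.KF.Rmx
import Pool.Agent.Lib.KF.Ggr
import Pool.Agent.Lib.KF.Fls
import Pool.Agent.Lib.KF.Zsq
import Pool.Agent.Lib.KF.Wls
import Pool.Agent.Lib.KF.Dvb
import Pool.Agent.Lib.KF.Lam
import Pool.Agent.Lib.KF.Dsb
import Pool.Agent.Lib.KF.Rse
import Pool.Agent.Lib.KF.Lph
import Pool.Agent.Lib.KF.Elp
import Pool.Agent.Lib.KF.Tta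
import Pool.Agent.Lib.KF.Bvz
import Pool.Agent.Lib.KF.Blc
import Pool.Agent.Lib.KF.Wbk
import Pool.Agent.Lib.KF.Wdd
import Pool.Agent.Lib.KF.Wfn

/-!
Assembly of part W of Lib/KF: levels up to x^(1-ε), all integers |a| ≤ x^B outside a set of at most
C (1 + Q^2/x) (log x)^(2U+5) elements.
-/

namespace Pool.Agent.Lib.KF

theorem aRam : RamStmt := tRam
theorem aRmx : RmxStmt := tRmx aRam Pool.Agent.Lib.EH4.tFrac
theorem aGgr : GgrStmt := tGgr aRam
theorem aFls : FlsStmt := tFls Pool.Agent.Lib.EH4.tSpc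
theorem aZsq : ZsqStmt := tZsq
theorem aWls : WlsStmt := tWls aRmx aGgr aFls aZsq
theorem aDvb : DvbStmt := tDvb
theorem aLam : LamStmt := tLam
theorem aDsb : DsbStmt := tDsb
theorem aRse : RseStmt := tRse
theorem aLph : LphStmt := tLph
theorem aElp : ElpStmt := tElp aLph aRse
theorem aTta : TtaStmt := tTta aLam aDsb aElp
theorem aBvz : BvzStmt := tBvz Pool.Agent.Lib.BV.aExt
theorem aBlc : BlcStmt := tBlc
theorem aWbk : WbkStmt := tWbk aDvb aTta aBvz aBlc aWls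
theorem aWdd : WddStmt := tWdd
theorem aWfn : WfnStmt := tWfn aRse aBvz aWbk aWdd

end Pool.Agent.Lib.KF
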