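import Pool.Agent.Lib.KF.AllD

/-!
MP_00e23e_nt: Elliott-Halberstam at all levels below 1 with the maximum over all residues in short intervals, for all
but few of any family of pairwise disjoint intervals (more generally of pairwise disjoint sets with few differences).
The definitions li, resCount, resErr are in Pool.Agent.Lib.EH.Defs and Pool.Agent.Lib.KF.Defs.
-/

namespace Pool.Agent.Results.MP_00e23e_nt.ShortIntervalSets

open Finset Pool.Agent.Results.MP_00e23e_nt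

/-- For 0 < ε ≤ 1/2, U > 0, B > 0 there are C, E such that for all x ≥ 3, 1 ≤ Q ≤ x^(1-ε) and all finite families of
pairwise disjoint finite sets A_j of integers in [-x^B, x^B] such that either every A_j has diameter at most
m/(log x)^E, or every difference set A_k - A_j, j ≠ k, has at most x^(-ε) m elements, where m = min(x^(1/2), x/Q):
for all j with at most C (1 + Q²/x) (log x)^(5U+18) exceptions, for all choices of y(d) ∈ [2,x] and a(d) ∈ A_j,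
∑_{d ≤ Q, (a(d),d) = 1} |π(y(d); d, a(d)) - li y(d)/φ(d)| ≤ C x/(log x)^U. -/
theorem result : ∀ ε U B : ℝ, 0 < ε → ε ≤ 1 / 2 → 0 < U → 0 < B → ∃ C E : ℝ, 0 < E ∧
    ∀ (x Q : ℝ) (J : Finset ℕ) (A : ℕ → Finset ℤ), 3 ≤ x → 1 ≤ Q → Q ≤ x ^ (1 - ε) →
    (∀ j ∈ J, ∀ b ∈ A j, |(b : ℝ)| ≤ x ^ B) → (∀ j ∈ J, ∀ k ∈ J, j ≠ k → Disjoint (A j) (A k)) →
    ((∀ j ∈ J, ∀ b ∈ A j, ∀ b' ∈ A j, |(b' : ℝ) - b| ≤ min (x ^ ((1 : ℝ) / 2)) (x / Q) / (Real.log x) ^ E) ∨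
      ∀ j ∈ J, ∀ k ∈ J, j ≠ k → (((A j ×ˢ A k).image (fun p => p.2 - p.1)).card : ℝ) ≤
        x ^ (-ε) * min (x ^ ((1 : ℝ) / 2)) (x / Q)) →
    ∃ S ⊆ J, (S.card : ℝ) ≤ C * ((1 + Q ^ 2 / x) * (Real.log x) ^ (5 * U + 18)) ∧
      ∀ j ∈ J, j ∉ S → ∀ (y : ℕ → ℝ) (a : ℕ → ℤ), (∀ d, 2 ≤ y d ∧ y d ≤ x) → (∀ d, a d ∈ A j) →
        ∑ d ∈ (Icc 1 ⌊Q⌋₊).filter (fun d : ℕ => Int.gcd (a d) d = 1), |resErr (y d) d (a d)| ≤
          C * (x / (Real.log x) ^ U) :=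
  Pool.Agent.Lib.KF.aFdd

end Pool.Agent.Results.MP_00e23e_nt.ShortIntervalSets
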