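import Pool.Agent.Lib.KF.SpecB

/-! MP_00e23e_nt, Lib/KF: module Amp (amplification for one n). -/

namespace Pool.Agent.Lib.KF

open Finset Pool.Agent.Lib.EH3

private lemma Amp_inv {n : ℕ} (e7 : ∀ (q : ℕ) (a : ZMod q), IsUnit a → a * a⁻¹ = 1)
    {m l x : ZMod n} (hm : IsUnit m) (hx : IsUnit x) (h : l * m = x) : m⁻¹ = l * x⁻¹ := by
  have h1 := e7 n m hm
  have h2 := e7 n x hx
  calc m⁻¹ = m⁻¹ * (x * x⁻¹) := by rw [h2, mul_one]
    _ = (m * m⁻¹) * (l * x⁻¹) := by rw [← h]; ring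
    _ = l * x⁻¹ := by rw [h1, one_mul]

private lemma Amp_key (h1 : EmStmt) {n l1 l2 m1 m2 : ℕ} (hn : 1 ≤ n) (c : ZMod n)
    (hl1 : l1.Coprime n)
    (h : ((l1 * m1 : ℕ) : ZMod n) = ((l2 * m2 : ℕ) : ZMod n)) :
    ei n c (m1 : ZMod n) * (starRingEnd ℂ) (ei n c (m2 : ZMod n)) =
      ei n (c * ((l1 : ZMod n) - (l2 : ZMod n))) ((l1 * m1 : ℕ) : ZMod n) := by
  obtain ⟨e1, -, -, e4, -, -, e7, -, -⟩ := h1
  have u1 : IsUnit (l1 : ZMod n) := (ZMod.isUnit_iff_coprime l1 n).2 hl1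
  by_cases hm : IsUnit (m1 : ZMod n)
  · have hx : IsUnit ((l1 * m1 : ℕ) : ZMod n) := by
      rw [Nat.cast_mul]
      exact u1.mul hm
    have hx2 : IsUnit ((l2 : ZMod n) * (m2 : ZMod n)) := by
      rw [h, Nat.cast_mul] at hx
      exact hx
    have hm2 : IsUnit (m2 : ZMod n) := isUnit_of_mul_isUnit_right hx2
    unfold ei
    rw [if_pos hm, if_pos hm2, if_pos hx, ← e4 n _ hn, ← e1 n _ _ hn]
    congr 1
    have i1 : ((m1 : ZMod n))⁻¹ = (l1 : ZMod n) * (((l1 * m1 : ℕ) : ZMod n))⁻¹ :=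
      Amp_inv e7 hm hx (by rw [Nat.cast_mul])
    have i2 : ((m2 : ZMod n))⁻¹ = (l2 : ZMod n) * (((l1 * m1 : ℕ) : ZMod n))⁻¹ :=
      Amp_inv e7 hm2 hx (by rw [h, Nat.cast_mul])
    rw [i1, i2]
    ring
  · have hx : ¬ IsUnit ((l1 * m1 : ℕ) : ZMod n) := by
      rw [Nat.cast_mul]
      exact fun hu => hm (isUnit_of_mul_isUnit_right hu)
    unfold ei
    rw [if_neg hm, if_neg hx, zero_mul]

/-- Cauchy-Schwarz over the classes. -/
private lemma Amp_cs {ι : Type} [DecidableEq ι] {κ : Type} [Fintype κ] [DecidableEq κ]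
    (P : Finset ι) (φ : ι → κ) (g : ι → ℂ) :
    ‖∑ p ∈ P, g p‖ ^ 2 ≤ (Fintype.card κ : ℝ) *
      (∑ p ∈ P, ∑ p' ∈ P, if φ p = φ p' then g p * (starRingEnd ℂ) (g p') else 0).re := by
  have h1 : ∑ p ∈ P, g p = ∑ c : κ, ∑ p ∈ P, if φ p = c then g p else 0 := by
    rw [Finset.sum_comm]
    refine Finset.sum_congr rfl fun p _ => ?_
    rw [Finset.sum_ite_eq, if_pos (Finset.mem_univ _)]
  have h2 : ∑ c : κ, (∑ p ∈ P, if φ p = c then g p else 0) *
      (starRingEnd ℂ) (∑ p ∈ P, if φ p = c then g p else 0) =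
      ∑ p ∈ P, ∑ p' ∈ P, if φ p = φ p' then g p * (starRingEnd ℂ) (g p') else 0 := by
    have h3 : ∀ c : κ, (∑ p ∈ P, if φ p = c then g p else 0) *
        (starRingEnd ℂ) (∑ p ∈ P, if φ p = c then g p else 0) =
        ∑ p ∈ P, ∑ p' ∈ P, if φ p = c then
          (if φ p' = c then g p * (starRingEnd ℂ) (g p') else 0) else 0 := by
      intro c
      rw [map_sum, Finset.sum_mul_sum]
      refine Finset.sum_congr rfl fun p _ => Finset.sum_congr rfl fun p' _ => ?_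
      by_cases hp : φ p = c
      · by_cases hp' : φ p' = c
        · rw [if_pos hp, if_pos hp', if_pos hp, if_pos hp']
        · rw [if_pos hp, if_neg hp', if_pos hp, if_neg hp', map_zero, mul_zero]
      · rw [if_neg hp, if_neg hp, zero_mul]
    rw [Finset.sum_congr rfl fun c _ => h3 c, Finset.sum_comm]
    refine Finset.sum_congr rfl fun p _ => ?_
    rw [Finset.sum_comm]
    refine Finset.sum_congr rfl fun p' _ => ?_
    rw [Finset.sum_ite_eq, if_pos (Finset.mem_univ _)]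
    by_cases hp : φ p = φ p'
    · rw [if_pos hp, if_pos hp.symm]
    · rw [if_neg hp, if_neg (fun h => hp h.symm)]
  rw [← h2, h1]
  have h4 : ∀ z : ℂ, (z * (starRingEnd ℂ) z).re = ‖z‖ ^ 2 := by
    intro z
    rw [Complex.mul_conj, Complex.ofReal_re, Complex.normSq_eq_norm_sq]
  rw [Complex.re_sum, Finset.sum_congr rfl fun c _ => h4 _]
  calc ‖∑ c : κ, ∑ p ∈ P, if φ p = c then g p else 0‖ ^ 2
      ≤ (∑ c : κ, ‖∑ p ∈ P, if φ p = c then g p else 0‖) ^ 2 :=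
        pow_le_pow_left₀ (norm_nonneg _) (norm_sum_le _ _) 2
    _ ≤ _ := by
        have := sq_sum_le_card_mul_sum_sq (s := (Finset.univ : Finset κ))
          (f := fun c => ‖∑ p ∈ P, if φ p = c then g p else 0‖)
        rwa [Finset.card_univ] at this

theorem tAmp (h1 : EmStmt) : AmpStmt := by
  classical
  intro Q L θ α n hQ hn
  have hn1 : 1 ≤ n := by
    have := (Finset.mem_Ioc.1 hn).1
    omega
  haveI : NeZero n := ⟨by omega⟩
  obtain ⟨S, hS⟩ : ∃ S : Finset ℕ, S = (prl L).filter (fun l => ¬ l ∣ n) := ⟨_, rfl⟩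
  rw [← hS]
  have hcop : ∀ l ∈ S, l.Coprime n := by
    intro l hl
    rw [hS, Finset.mem_filter] at hl
    have hp : l.Prime := (Finset.mem_filter.1 hl.1).2
    exact (Nat.Prime.coprime_iff_not_dvd hp).2 hl.2
  have hcs := Amp_cs (S ×ˢ dy Q) (fun p : ℕ × ℕ => ((p.1 * p.2 : ℕ) : ZMod n))
    (fun p : ℕ × ℕ => α p.2 * kf θ p.2 n)
  rw [ZMod.card] at hcs
  have hL : ∑ p ∈ S ×ˢ dy Q, α p.2 * kf θ p.2 n = (S.card : ℂ) * ∑ m ∈ dy Q, α m * kf θ m n := by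
    rw [Finset.sum_product]
    dsimp only
    rw [Finset.sum_const, nsmul_eq_mul]
  rw [hL, norm_mul, mul_pow, Complex.norm_natCast] at hcs
  refine hcs.trans (le_of_eq ?_)
  congr 2
  rw [Finset.sum_product]
  refine Finset.sum_congr rfl fun l1 hl1 => ?_
  have hswap : ∀ m1 ∈ dy Q, (∑ p' ∈ S ×ˢ dy Q,
      if (((l1, m1).1 * (l1, m1).2 : ℕ) : ZMod n) = ((p'.1 * p'.2 : ℕ) : ZMod n) then
        α (l1, m1).2 * kf θ (l1, m1).2 n * (starRingEnd ℂ) (α p'.2 * kf θ p'.2 n) else 0) =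
      ∑ l2 ∈ S, ∑ m2 ∈ dy Q, if (n : ℤ) ∣ (l1 : ℤ) * m1 - l2 * m2 then
          α m1 * (starRingEnd ℂ) (α m2) *
            ei n ((θ * ((l1 : ℤ) - l2) : ℤ) : ZMod n) ((l1 * m1 : ℕ) : ZMod n) else 0 := by
    intro m1 _
    rw [Finset.sum_product]
    refine Finset.sum_congr rfl fun l2 _ => Finset.sum_congr rfl fun m2 _ => ?_
    dsimp only
    have hiff : (((l1 * m1 : ℕ) : ZMod n) = ((l2 * m2 : ℕ) : ZMod n)) ↔
        (n : ℤ) ∣ (l1 : ℤ) * m1 - l2 * m2 := by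
      have := ZMod.intCast_eq_intCast_iff_dvd_sub ((l2 : ℤ) * m2) ((l1 : ℤ) * m1) n
      rw [← this]
      push_cast
      exact eq_comm
    by_cases hd : (n : ℤ) ∣ (l1 : ℤ) * m1 - l2 * m2
    · rw [if_pos hd, if_pos (hiff.2 hd)]
      have hk := Amp_key h1 hn1 (θ : ZMod n) (hcop l1 hl1) (hiff.2 hd)
      have hc : ((θ * ((l1 : ℤ) - l2) : ℤ) : ZMod n) =
          (θ : ZMod n) * ((l1 : ZMod n) - (l2 : ZMod n)) := by
        push_cast
        ring
      rw [hc, ← hk, map_mul]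
      unfold kf
      ring
    · rw [if_neg hd, if_neg (fun h => hd (hiff.1 h))]
  rw [Finset.sum_congr rfl hswap, Finset.sum_comm]

end Pool.Agent.Lib.KF
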