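import Pool.Agent.Lib.KF.SpecB

namespace Pool.Agent.Lib.KF

open Finset Pool.Agent.Lib.EH3

private lemma Amq_nle {Q : ℝ} {L n : ℕ} (hQ : 1 ≤ Q) (hL : 2 ≤ L)
    (h : 4 * L * Q ≤ (L : ℝ) ^ 40) (hn : n ∈ dy Q) : 1 ≤ n ∧ n ≤ L ^ 40 := by
  rw [mem_dy (by linarith)] at hn
  have hL' : (2 : ℝ) ≤ L := by exact_mod_cast hL
  constructor
  · have : (0 : ℝ) < n := by linarith
    exact_mod_cast this
  · have h1 : (n : ℝ) ≤ (L : ℝ) ^ 40 := by nlinarith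
    exact_mod_cast h1

private lemma Amq_card (h1 : PdlStmt) {Q : ℝ} {L n : ℕ} (hQ : 1 ≤ Q) (hL : 2 ≤ L)
    (h : 4 * L * Q ≤ (L : ℝ) ^ 40) (h80 : 80 ≤ (prl L).card) (hn : n ∈ dy Q) :
    ((prl L).card : ℝ) / 2 ≤ (((prl L).filter (fun l => ¬ l ∣ n)).card : ℝ) := by
  obtain ⟨hn1, hn2⟩ := Amq_nle hQ hL h hn
  have h2 := h1 L n 40 hL hn1 hn2
  have h3 := Finset.card_filter_add_card_filter_not (s := prl L) (fun l => l ∣ n)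
  have h5 : (prl L).card ≤ 2 * ((prl L).filter (fun l => ¬ l ∣ n)).card := by omega
  have h4 : ((prl L).card : ℝ) ≤ 2 * (((prl L).filter (fun l => ¬ l ∣ n)).card : ℝ) := by
    exact_mod_cast h5
  linarith

private lemma Amq_ei (q : ℕ) (c a : ZMod q) : ‖ei q c a‖ ≤ 1 := by
  unfold ei
  split_ifs
  · unfold em
    rw [norm_ee]
  · simp

private lemma Amq_comm (A B : Finset ℕ) (f : ℕ → ℕ → ℕ → ℕ → ℕ → ℂ) :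
    ∑ n ∈ B, ∑ l1 ∈ A, ∑ l2 ∈ A, ∑ m1 ∈ B, ∑ m2 ∈ B, f n l1 l2 m1 m2 =
      ∑ m1 ∈ B, ∑ m2 ∈ B, ∑ l1 ∈ A, ∑ l2 ∈ A, ∑ n ∈ B, f n l1 l2 m1 m2 := by
  calc ∑ n ∈ B, ∑ l1 ∈ A, ∑ l2 ∈ A, ∑ m1 ∈ B, ∑ m2 ∈ B, f n l1 l2 m1 m2
      = ∑ l1 ∈ A, ∑ n ∈ B, ∑ l2 ∈ A, ∑ m1 ∈ B, ∑ m2 ∈ B, f n l1 l2 m1 m2 := Finset.sum_comm
    _ = ∑ l1 ∈ A, ∑ l2 ∈ A, ∑ n ∈ B, ∑ m1 ∈ B, ∑ m2 ∈ B, f n l1 l2 m1 m2 :=
        Finset.sum_congr rfl fun _ _ => Finset.sum_comm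
    _ = ∑ l1 ∈ A, ∑ l2 ∈ A, ∑ m1 ∈ B, ∑ n ∈ B, ∑ m2 ∈ B, f n l1 l2 m1 m2 :=
        Finset.sum_congr rfl fun _ _ => Finset.sum_congr rfl fun _ _ => Finset.sum_comm
    _ = ∑ l1 ∈ A, ∑ l2 ∈ A, ∑ m1 ∈ B, ∑ m2 ∈ B, ∑ n ∈ B, f n l1 l2 m1 m2 :=
        Finset.sum_congr rfl fun _ _ => Finset.sum_congr rfl fun _ _ =>
          Finset.sum_congr rfl fun _ _ => Finset.sum_comm
    _ = ∑ l1 ∈ A, ∑ m1 ∈ B, ∑ l2 ∈ A, ∑ m2 ∈ B, ∑ n ∈ B, f n l1 l2 m1 m2 :=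
        Finset.sum_congr rfl fun _ _ => Finset.sum_comm
    _ = ∑ m1 ∈ B, ∑ l1 ∈ A, ∑ l2 ∈ A, ∑ m2 ∈ B, ∑ n ∈ B, f n l1 l2 m1 m2 := Finset.sum_comm
    _ = ∑ m1 ∈ B, ∑ l1 ∈ A, ∑ m2 ∈ B, ∑ l2 ∈ A, ∑ n ∈ B, f n l1 l2 m1 m2 :=
        Finset.sum_congr rfl fun _ _ => Finset.sum_congr rfl fun _ _ => Finset.sum_comm
    _ = ∑ m1 ∈ B, ∑ m2 ∈ B, ∑ l1 ∈ A, ∑ l2 ∈ A, ∑ n ∈ B, f n l1 l2 m1 m2 :=
        Finset.sum_congr rfl fun _ _ => Finset.sum_comm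

private lemma Amq_diag (h3 : AmrStmt) {Q : ℝ} {L : ℕ} (θ : ℤ) (hQ : 1 ≤ Q) {l m1 m2 : ℕ}
    (hl : l ∈ prl L) (hm1 : m1 ∈ dy Q) (hm2 : m2 ∈ dy Q) :
    ∑ k ∈ (Finset.Icc (-(4 * (L : ℤ))) (4 * (L : ℤ))).filter (fun k => k ≠ 0),
      TT Q θ (l, l, k) m1 m2 = 0 := by
  rw [← h3 Q L θ l l m1 m2 hQ hl hl hm1 hm2]
  refine Finset.sum_eq_zero fun n hn => ?_
  rw [if_neg]
  rintro ⟨hdvd, hln, -, hne⟩
  rw [mem_dy (by linarith)] at hn hm1 hm2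
  have hlp := (mem_prl.1 hl).2.2
  have hcop : IsCoprime (n : ℤ) (l : ℤ) := by
    rw [Nat.isCoprime_iff_coprime]
    exact ((Nat.Prime.coprime_iff_not_dvd hlp).2 hln).symm
  have h1 : (n : ℤ) ∣ (m1 : ℤ) - m2 := by
    have h8 : (n : ℤ) ∣ (l : ℤ) * ((m1 : ℤ) - m2) := by
      rw [mul_sub]
      exact hdvd
    exact hcop.dvd_of_dvd_mul_left h8
  have h2 : |(m1 : ℤ) - m2| < n := by
    have h5 : |(m1 : ℝ) - m2| < n := by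
      rw [abs_lt]
      constructor <;> linarith
    exact_mod_cast h5
  have h6 : (m1 : ℤ) - m2 = 0 := Int.eq_zero_of_abs_lt_dvd h1 h2
  apply hne
  have h7 : m1 = m2 := by omega
  rw [h7]

private lemma Amq_tup (h3 : AmrStmt) {Q : ℝ} {L : ℕ} (θ : ℤ) (hQ : 1 ≤ Q) {m1 m2 : ℕ}
    (hm1 : m1 ∈ dy Q) (hm2 : m2 ∈ dy Q) :
    ∑ l1 ∈ prl L, ∑ l2 ∈ prl L,
      ∑ k ∈ (Finset.Icc (-(4 * (L : ℤ))) (4 * (L : ℤ))).filter (fun k => k ≠ 0),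
        TT Q θ (l1, l2, k) m1 m2 = ∑ t ∈ tup L, TT Q θ t m1 m2 := by
  unfold tup
  rw [Finset.sum_filter, Finset.sum_product]
  refine Finset.sum_congr rfl fun l1 hl1 => ?_
  rw [Finset.sum_product]
  refine Finset.sum_congr rfl fun l2 hl2 => ?_
  by_cases h : l1 = l2
  · subst h
    rw [Amq_diag h3 θ hQ hl1 hm1 hm2]
    refine (Finset.sum_eq_zero fun k _ => ?_).symm
    rw [if_neg]
    rintro ⟨h1, -⟩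
    exact h1 rfl
  · rw [Finset.sum_filter]
    refine Finset.sum_congr rfl fun k _ => ?_
    by_cases hk : k = 0
    · simp [hk]
    · simp [hk, h]

theorem tAmq (h1 : PdlStmt) (h2 : AmpStmt) (h3 : AmrStmt) (h4 : AmsStmt) : AmqStmt := by
  classical
  intro Q L θ α hQ hL hLQ h80
  have hQ0 : (0 : ℝ) ≤ Q := by linarith
  obtain ⟨F, hF⟩ : ∃ F : ℕ → ℕ → ℕ → ℕ → ℕ → ℂ, ∀ n l1 l2 m1 m2, F n l1 l2 m1 m2 =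
      (n : ℂ) * ei n ((θ * ((l1 : ℤ) - l2) : ℤ) : ZMod n) ((l1 * m1 : ℕ) : ZMod n) :=
    ⟨_, fun _ _ _ _ _ => rfl⟩
  obtain ⟨G0, hG0⟩ : ∃ G : ℕ → ℕ → ℕ → ℕ → ℕ → ℂ, ∀ n l1 l2 m1 m2, G n l1 l2 m1 m2 =
      if ((n : ℤ) ∣ (l1 : ℤ) * m1 - l2 * m2 ∧ ¬ l1 ∣ n ∧ ¬ l2 ∣ n ∧ l1 * m1 = l2 * m2) then
        α m1 * (starRingEnd ℂ) (α m2) * F n l1 l2 m1 m2 else 0 := ⟨_, fun _ _ _ _ _ => rfl⟩
  obtain ⟨G1, hG1⟩ : ∃ G : ℕ → ℕ → ℕ → ℕ → ℕ → ℂ, ∀ n l1 l2 m1 m2, G n l1 l2 m1 m2 =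
      α m1 * (starRingEnd ℂ) (α m2) *
      if ((n : ℤ) ∣ (l1 : ℤ) * m1 - l2 * m2 ∧ ¬ l1 ∣ n ∧ ¬ l2 ∣ n ∧ l1 * m1 ≠ l2 * m2) then
        F n l1 l2 m1 m2 else 0 := ⟨_, fun _ _ _ _ _ => rfl⟩
  -- one n
  have hone : ∀ n ∈ dy Q, ((prl L).card : ℝ) ^ 2 / 4 * ‖∑ m ∈ dy Q, α m * kf θ m n‖ ^ 2 ≤
      (∑ l1 ∈ prl L, ∑ l2 ∈ prl L, ∑ m1 ∈ dy Q, ∑ m2 ∈ dy Q,
        (G0 n l1 l2 m1 m2 + G1 n l1 l2 m1 m2)).re := by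
    intro n hn
    have hA := h2 Q L θ α n hQ hn
    have hc := Amq_card h1 hQ hL hLQ h80 hn
    have hc2 : ((prl L).card : ℝ) ^ 2 / 4 ≤
        (((prl L).filter (fun l => ¬ l ∣ n)).card : ℝ) ^ 2 := by
      have h5 : (0 : ℝ) ≤ ((prl L).card : ℝ) / 2 := by positivity
      nlinarith [pow_le_pow_left₀ h5 hc 2]
    refine (mul_le_mul_of_nonneg_right hc2 (by positivity)).trans (hA.trans (le_of_eq ?_))
    rw [show (n : ℝ) = ((n : ℝ) : ℝ) from rfl, ← Complex.re_ofReal_mul]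
    congr 1
    rw [Finset.sum_filter, Finset.mul_sum]
    refine Finset.sum_congr rfl fun l1 _ => ?_
    by_cases hl1 : l1 ∣ n
    · rw [if_neg (not_not.2 hl1), mul_zero]
      refine (Finset.sum_eq_zero fun l2 _ => Finset.sum_eq_zero fun m1 _ =>
        Finset.sum_eq_zero fun m2 _ => ?_).symm
      rw [hG0, hG1, if_neg (fun h => h.2.1 hl1), if_neg (fun h => h.2.1 hl1)]
      ring
    · rw [if_pos hl1, Finset.sum_filter, Finset.mul_sum]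
      refine Finset.sum_congr rfl fun l2 _ => ?_
      by_cases hl2 : l2 ∣ n
      · rw [if_neg (not_not.2 hl2), mul_zero]
        refine (Finset.sum_eq_zero fun m1 _ =>
          Finset.sum_eq_zero fun m2 _ => ?_).symm
        rw [hG0, hG1, if_neg (fun h => h.2.2.1 hl2), if_neg (fun h => h.2.2.1 hl2)]
        ring
      · rw [if_pos hl2, Finset.mul_sum]
        refine Finset.sum_congr rfl fun m1 _ => ?_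
        rw [Finset.mul_sum]
        refine Finset.sum_congr rfl fun m2 _ => ?_
        rw [hG0, hG1]
        by_cases hd : (n : ℤ) ∣ (l1 : ℤ) * m1 - l2 * m2
        · by_cases he : l1 * m1 = l2 * m2
          · rw [if_pos hd, if_pos ⟨hd, hl1, hl2, he⟩, if_neg (fun h => h.2.2.2 he), hF]
            push_cast
            ring
          · rw [if_pos hd, if_neg (fun h => he h.2.2.2), if_pos ⟨hd, hl1, hl2, he⟩, hF]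
            push_cast
            ring
        · rw [if_neg hd, if_neg (fun h => hd h.1), if_neg (fun h => hd h.1)]
          ring
  -- sum over n
  have hsum : ((prl L).card : ℝ) ^ 2 / 4 * ∑ n ∈ dy Q, ‖∑ m ∈ dy Q, α m * kf θ m n‖ ^ 2 ≤
      (∑ n ∈ dy Q, ∑ l1 ∈ prl L, ∑ l2 ∈ prl L, ∑ m1 ∈ dy Q, ∑ m2 ∈ dy Q,
        (G0 n l1 l2 m1 m2 + G1 n l1 l2 m1 m2)).re := by
    rw [Finset.mul_sum, Complex.re_sum]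
    exact Finset.sum_le_sum hone
  have hsplit : (∑ n ∈ dy Q, ∑ l1 ∈ prl L, ∑ l2 ∈ prl L, ∑ m1 ∈ dy Q, ∑ m2 ∈ dy Q,
        (G0 n l1 l2 m1 m2 + G1 n l1 l2 m1 m2)) =
      (∑ n ∈ dy Q, ∑ l1 ∈ prl L, ∑ l2 ∈ prl L, ∑ m1 ∈ dy Q, ∑ m2 ∈ dy Q, G0 n l1 l2 m1 m2) +
      ∑ n ∈ dy Q, ∑ l1 ∈ prl L, ∑ l2 ∈ prl L, ∑ m1 ∈ dy Q, ∑ m2 ∈ dy Q, G1 n l1 l2 m1 m2 := by
    simp only [Finset.sum_add_distrib]
  -- the diagonal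
  have h0 : ‖∑ n ∈ dy Q, ∑ l1 ∈ prl L, ∑ l2 ∈ prl L, ∑ m1 ∈ dy Q, ∑ m2 ∈ dy Q,
      G0 n l1 l2 m1 m2‖ ≤ 160 * Q ^ 2 * ((prl L).card : ℝ) * ∑ m ∈ dy Q, ‖α m‖ ^ 2 := by
    have hterm : ∀ n l1 l2 m1 m2, ‖G0 n l1 l2 m1 m2‖ ≤
        (n : ℝ) * (if l1 * m1 = l2 * m2 then ‖α m1‖ * ‖α m2‖ else 0) := by
      intro n l1 l2 m1 m2
      rw [hG0]
      by_cases h : ((n : ℤ) ∣ (l1 : ℤ) * m1 - l2 * m2 ∧ ¬ l1 ∣ n ∧ ¬ l2 ∣ n ∧ l1 * m1 = l2 * m2)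
      · rw [if_pos h, if_pos h.2.2.2, norm_mul, norm_mul, hF, norm_mul, Complex.norm_natCast,
          RCLike.norm_conj]
        have h5 := Amq_ei n ((θ * ((l1 : ℤ) - l2) : ℤ) : ZMod n) ((l1 * m1 : ℕ) : ZMod n)
        have h6 : 0 ≤ ‖α m1‖ * ‖α m2‖ * (n : ℝ) := by positivity
        calc ‖α m1‖ * ‖α m2‖ * ((n : ℝ) * ‖ei n ((θ * ((l1 : ℤ) - l2) : ℤ) : ZMod n)
              ((l1 * m1 : ℕ) : ZMod n)‖)
            = (‖α m1‖ * ‖α m2‖ * (n : ℝ)) * ‖ei n ((θ * ((l1 : ℤ) - l2) : ℤ) : ZMod n)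
              ((l1 * m1 : ℕ) : ZMod n)‖ := by ring
          _ ≤ (‖α m1‖ * ‖α m2‖ * (n : ℝ)) * 1 := mul_le_mul_of_nonneg_left h5 h6
          _ = (n : ℝ) * (‖α m1‖ * ‖α m2‖) := by ring
      · rw [if_neg h, norm_zero]
        split_ifs <;> positivity
    have hin : ∀ n ∈ dy Q, ‖∑ l1 ∈ prl L, ∑ l2 ∈ prl L, ∑ m1 ∈ dy Q, ∑ m2 ∈ dy Q,
        G0 n l1 l2 m1 m2‖ ≤ (2 * Q) * (40 * ((prl L).card : ℝ) * ∑ m ∈ dy Q, ‖α m‖ ^ 2) := by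
      intro n hn
      have hS := h4 Q L α hQ hL hLQ
      have hS0 : (0 : ℝ) ≤ ∑ l1 ∈ prl L, ∑ l2 ∈ prl L, ∑ m1 ∈ dy Q, ∑ m2 ∈ dy Q,
          (if l1 * m1 = l2 * m2 then ‖α m1‖ * ‖α m2‖ else 0) :=
        Finset.sum_nonneg fun _ _ => Finset.sum_nonneg fun _ _ => Finset.sum_nonneg fun _ _ =>
          Finset.sum_nonneg fun _ _ => by split_ifs <;> positivity
      have hn2 : (n : ℝ) ≤ 2 * Q := ((mem_dy hQ0).1 hn).2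
      calc ‖∑ l1 ∈ prl L, ∑ l2 ∈ prl L, ∑ m1 ∈ dy Q, ∑ m2 ∈ dy Q, G0 n l1 l2 m1 m2‖
          ≤ ∑ l1 ∈ prl L, ∑ l2 ∈ prl L, ∑ m1 ∈ dy Q, ∑ m2 ∈ dy Q, ‖G0 n l1 l2 m1 m2‖ :=
            (norm_sum_le _ _).trans (Finset.sum_le_sum fun _ _ => (norm_sum_le _ _).trans
              (Finset.sum_le_sum fun _ _ => (norm_sum_le _ _).trans
                (Finset.sum_le_sum fun _ _ => norm_sum_le _ _)))
        _ ≤ ∑ l1 ∈ prl L, ∑ l2 ∈ prl L, ∑ m1 ∈ dy Q, ∑ m2 ∈ dy Q,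
            (n : ℝ) * (if l1 * m1 = l2 * m2 then ‖α m1‖ * ‖α m2‖ else 0) :=
            Finset.sum_le_sum fun _ _ => Finset.sum_le_sum fun _ _ => Finset.sum_le_sum fun _ _ =>
              Finset.sum_le_sum fun _ _ => hterm _ _ _ _ _
        _ = (n : ℝ) * ∑ l1 ∈ prl L, ∑ l2 ∈ prl L, ∑ m1 ∈ dy Q, ∑ m2 ∈ dy Q,
            (if l1 * m1 = l2 * m2 then ‖α m1‖ * ‖α m2‖ else 0) := by
            simp only [Finset.mul_sum]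
        _ ≤ (2 * Q) * (40 * ((prl L).card : ℝ) * ∑ m ∈ dy Q, ‖α m‖ ^ 2) :=
            mul_le_mul hn2 hS hS0 (by linarith)
    refine (norm_sum_le _ _).trans ((Finset.sum_le_sum hin).trans ?_)
    rw [Finset.sum_const, nsmul_eq_mul]
    have hcard := card_dy_le hQ
    have hpos : (0 : ℝ) ≤ (2 * Q) * (40 * ((prl L).card : ℝ) * ∑ m ∈ dy Q, ‖α m‖ ^ 2) := by
      positivity
    calc ((dy Q).card : ℝ) * ((2 * Q) * (40 * ((prl L).card : ℝ) * ∑ m ∈ dy Q, ‖α m‖ ^ 2))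
        ≤ (2 * Q) * ((2 * Q) * (40 * ((prl L).card : ℝ) * ∑ m ∈ dy Q, ‖α m‖ ^ 2)) :=
          mul_le_mul_of_nonneg_right hcard hpos
      _ = 160 * Q ^ 2 * ((prl L).card : ℝ) * ∑ m ∈ dy Q, ‖α m‖ ^ 2 := by ring
  -- off the diagonal
  have h10 : (∑ n ∈ dy Q, ∑ l1 ∈ prl L, ∑ l2 ∈ prl L, ∑ m1 ∈ dy Q, ∑ m2 ∈ dy Q,
      G1 n l1 l2 m1 m2) = ∑ m1 ∈ dy Q, ∑ m2 ∈ dy Q, α m1 * (starRingEnd ℂ) (α m2) *
        ∑ t ∈ tup L, TT Q θ t m1 m2 := by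
    rw [Amq_comm]
    refine Finset.sum_congr rfl fun m1 hm1 => Finset.sum_congr rfl fun m2 hm2 => ?_
    rw [← Amq_tup h3 θ hQ hm1 hm2]
    simp only [Finset.mul_sum]
    refine Finset.sum_congr rfl fun l1 hl1 => Finset.sum_congr rfl fun l2 hl2 => ?_
    rw [← Finset.mul_sum, ← h3 Q L θ l1 l2 m1 m2 hQ hl1 hl2 hm1 hm2, Finset.mul_sum]
    refine Finset.sum_congr rfl fun n _ => ?_
    rw [hG1]
    congr 1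
    split_ifs
    · rw [hF]
    · rfl
  refine hsum.trans ?_
  rw [hsplit, h10, Complex.add_re]
  refine add_le_add ((Complex.re_le_norm _).trans h0) (Complex.re_le_norm _)

end Pool.Agent.Lib.KF
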