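import Pool.Agent.Lib.KF.SpecB

/-!
MP_00e23e_nt, directory Lib/KF: change of variable.
-/

namespace Pool.Agent.Lib.KF

open Finset Pool.Agent.Lib.EH3

private lemma Amr_abs {Q : ℝ} {L l1 l2 m1 m2 : ℕ} (hQ : 1 ≤ Q) (hl1 : l1 ∈ prl L)
    (hl2 : l2 ∈ prl L) (hm1 : m1 ∈ dy Q) (hm2 : m2 ∈ dy Q) :
    |(((l1 : ℤ) * m1 - l2 * m2 : ℤ) : ℝ)| ≤ 4 * L * Q := by
  rw [mem_dy (by linarith)] at hm1 hm2
  rw [mem_prl] at hl1 hl2
  have a1 : (l1 : ℝ) ≤ 2 * L := by exact_mod_cast hl1.2.1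
  have a2 : (l2 : ℝ) ≤ 2 * L := by exact_mod_cast hl2.2.1
  have b1 : (l1 : ℝ) * m1 ≤ (2 * L) * (2 * Q) :=
    mul_le_mul a1 hm1.2 (Nat.cast_nonneg _) (by positivity)
  have b2 : (l2 : ℝ) * m2 ≤ (2 * L) * (2 * Q) :=
    mul_le_mul a2 hm2.2 (Nat.cast_nonneg _) (by positivity)
  have c1 : (0 : ℝ) ≤ (l1 : ℝ) * m1 := by positivity
  have c2 : (0 : ℝ) ≤ (l2 : ℝ) * m2 := by positivity
  push_cast
  rw [abs_le]
  constructor <;> nlinarith

theorem tAmr : AmrStmt := by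
  classical
  intro Q L θ l1 l2 m1 m2 hQ hl1 hl2 hm1 hm2
  have hN := Amr_abs hQ hl1 hl2 hm1 hm2
  set N : ℤ := (l1 : ℤ) * m1 - l2 * m2 with hNd
  have hN0 : (l1 * m1 ≠ l2 * m2) ↔ N ≠ 0 := by
    rw [hNd, Ne, Ne, sub_eq_zero]
    constructor
    · intro h h1
      exact h (by exact_mod_cast h1)
    · intro h h1
      exact h (by exact_mod_cast h1)
  rw [← Finset.sum_filter]
  have hR : ∀ k ∈ (Finset.Icc (-(4 * (L : ℤ))) (4 * (L : ℤ))).filter (fun k => k ≠ 0),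
      TT Q θ (l1, l2, k) m1 m2 = if okt Q (l1, l2, k) m1 m2 then
        (((N / k).toNat : ℕ) : ℂ) * ei (N / k).toNat
          ((θ * ((l1 : ℤ) - l2) : ℤ) : ZMod (N / k).toNat)
          ((l1 * m1 : ℕ) : ZMod (N / k).toNat) else 0 := by
    intro k _
    unfold TT
    split_ifs with h
    · have h1 : Q < ((N / k : ℤ) : ℝ) := h.2.1
      have h2 : 0 ≤ N / k := by
        have h3 : (0 : ℝ) < ((N / k : ℤ) : ℝ) := by linarith
        exact_mod_cast h3.le
      have h3 : (((N / k).toNat : ℕ) : ℂ) = ((N / k : ℤ) : ℂ) := by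
        have h4 : (((N / k).toNat : ℕ) : ℤ) = N / k := Int.toNat_of_nonneg h2
        exact_mod_cast congrArg (Int.cast : ℤ → ℂ) h4
      rw [h3]
      rfl
    · rfl
  rw [Finset.sum_congr rfl hR, ← Finset.sum_filter]
  refine Finset.sum_bij' (fun n _ => N / (n : ℤ)) (fun k _ => (N / k).toNat) ?_ ?_ ?_ ?_ ?_
  · -- maps to
    intro n hn
    rw [Finset.mem_filter] at hn
    obtain ⟨hn1, hn2, hn3, hn4, hn5⟩ := hn
    rw [mem_dy (by linarith)] at hn1
    have hn0 : (0 : ℝ) < n := by linarith [hn1.1]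
    have hn0' : (n : ℤ) ≠ 0 := by
      have : 0 < n := by exact_mod_cast hn0
      omega
    rw [hN0] at hn5
    obtain ⟨c, hc⟩ := hn2
    have hc0 : c ≠ 0 := by
      rintro rfl
      exact hn5 (by rw [hc, mul_zero])
    have e1 : N / (n : ℤ) = c := by rw [hc, Int.mul_ediv_cancel_left _ hn0']
    have e2 : N / c = n := by rw [hc, Int.mul_ediv_cancel _ hc0]
    rw [e1]
    have e3 : |(c : ℝ)| < 4 * L := by
      have h1 : |(N : ℝ)| = (n : ℝ) * |(c : ℝ)| := by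
        rw [hc]
        push_cast
        rw [abs_mul, abs_of_pos hn0]
      rw [h1] at hN
      have h2 : 0 < |(c : ℝ)| := abs_pos.2 (by exact_mod_cast hc0)
      by_contra h3
      push Not at h3
      nlinarith [hn1.1]
    have e4 : |c| ≤ 4 * (L : ℤ) := by
      have h1 : ((|c| : ℤ) : ℝ) ≤ ((4 * (L : ℤ) : ℤ) : ℝ) := by
        push_cast
        exact e3.le
      exact_mod_cast h1
    rw [Finset.mem_filter, Finset.mem_filter, Finset.mem_Icc, ← abs_le]
    refine ⟨⟨e4, hc0⟩, ?_⟩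
    have e5 : nq (l1, l2, c) m1 m2 = n := e2
    refine ⟨?_, ?_, ?_, ?_, ?_⟩
    · show c ∣ N
      rw [hc]
      exact Dvd.intro_left _ rfl
    · rw [e5]
      exact_mod_cast hn1.1
    · rw [e5]
      exact_mod_cast hn1.2
    · rw [e5]
      exact fun h => hn3 (Int.natCast_dvd_natCast.1 h)
    · rw [e5]
      exact fun h => hn4 (Int.natCast_dvd_natCast.1 h)
  · intro k hk
    rw [Finset.mem_filter, Finset.mem_filter, Finset.mem_Icc, ← abs_le] at hk
    obtain ⟨⟨hk1, hk0⟩, ok1, ok2, ok3, ok4, ok5⟩ := hk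
    have ok1' : k ∣ N := ok1
    have ok2' : Q < ((N / k : ℤ) : ℝ) := ok2
    have ok3' : ((N / k : ℤ) : ℝ) ≤ 2 * Q := ok3
    have ok4' : ¬ (l1 : ℤ) ∣ N / k := ok4
    have ok5' : ¬ (l2 : ℤ) ∣ N / k := ok5
    obtain ⟨d, hd⟩ := ok1'
    have e1 : N / k = d := by rw [hd, Int.mul_ediv_cancel_left _ hk0]
    rw [e1] at ok2' ok3' ok4' ok5' ⊢
    have hd0 : 0 < d := by
      have h3 : (0 : ℝ) < (d : ℝ) := by linarith
      exact_mod_cast h3
    have e2 : ((d.toNat : ℕ) : ℤ) = d := Int.toNat_of_nonneg hd0.le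
    have e3 : ((d.toNat : ℕ) : ℝ) = (d : ℝ) := by exact_mod_cast congrArg (Int.cast : ℤ → ℝ) e2
    rw [Finset.mem_filter, mem_dy (by linarith), e3, e2, hN0]
    refine ⟨⟨ok2', ok3'⟩, ⟨k, by rw [hd, mul_comm]⟩, ?_, ?_, ?_⟩
    · intro h
      apply ok4'
      rw [← e2]
      exact Int.natCast_dvd_natCast.2 h
    · intro h
      apply ok5'
      rw [← e2]
      exact Int.natCast_dvd_natCast.2 h
    · rw [hd]
      exact mul_ne_zero hk0 hd0.ne'
  · intro n hn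
    rw [Finset.mem_filter] at hn
    obtain ⟨hn1, hn2, hn3, hn4, hn5⟩ := hn
    rw [mem_dy (by linarith)] at hn1
    have hn0 : (0 : ℝ) < n := by linarith [hn1.1]
    have hn0' : (n : ℤ) ≠ 0 := by
      have : 0 < n := by exact_mod_cast hn0
      omega
    rw [hN0] at hn5
    obtain ⟨c, hc⟩ := hn2
    have hc0 : c ≠ 0 := by
      rintro rfl
      exact hn5 (by rw [hc, mul_zero])
    have e1 : N / (n : ℤ) = c := by rw [hc, Int.mul_ediv_cancel_left _ hn0']
    have e2 : N / c = n := by rw [hc, Int.mul_ediv_cancel _ hc0]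
    show (N / (N / (n : ℤ))).toNat = n
    rw [e1, e2, Int.toNat_natCast]
  · intro k hk
    rw [Finset.mem_filter, Finset.mem_filter, Finset.mem_Icc, ← abs_le] at hk
    obtain ⟨⟨hk1, hk0⟩, ok1, ok2, ok3, ok4, ok5⟩ := hk
    have ok1' : k ∣ N := ok1
    have ok2' : Q < ((N / k : ℤ) : ℝ) := ok2
    obtain ⟨d, hd⟩ := ok1'
    have e1 : N / k = d := by rw [hd, Int.mul_ediv_cancel_left _ hk0]
    rw [e1] at ok2'
    have hd0 : 0 < d := by
      have h3 : (0 : ℝ) < (d : ℝ) := by linarith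
      exact_mod_cast h3
    have e2 : ((d.toNat : ℕ) : ℤ) = d := Int.toNat_of_nonneg hd0.le
    show N / (((N / k).toNat : ℕ) : ℤ) = k
    rw [e1, e2, hd, Int.mul_ediv_cancel _ hd0.ne']
  · intro n hn
    rw [Finset.mem_filter] at hn
    obtain ⟨hn1, hn2, hn3, hn4, hn5⟩ := hn
    rw [mem_dy (by linarith)] at hn1
    have hn0 : (0 : ℝ) < n := by linarith [hn1.1]
    have hn0' : (n : ℤ) ≠ 0 := by
      have : 0 < n := by exact_mod_cast hn0
      omega
    rw [hN0] at hn5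
    obtain ⟨c, hc⟩ := hn2
    have hc0 : c ≠ 0 := by
      rintro rfl
      exact hn5 (by rw [hc, mul_zero])
    have e1 : N / (n : ℤ) = c := by rw [hc, Int.mul_ediv_cancel_left _ hn0']
    have e2 : N / c = n := by rw [hc, Int.mul_ediv_cancel _ hc0]
    have e3 : (N / (N / (n : ℤ))).toNat = n := by rw [e1, e2, Int.toNat_natCast]
    rw [e3]

end Pool.Agent.Lib.KF
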