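import Pool.Agent.Lib.KF.SpecB

/-!
MP_00e23e_nt, directory Lib/KF: the terms l1 m1 = l2 m2.
-/

namespace Pool.Agent.Lib.KF

open Finset Pool.Agent.Lib.EH3

private lemma Ams_cnt {Q : ℝ} {L l1 m1 : ℕ} (h1 : PdlStmt) (hQ : 1 ≤ Q) (hL : 2 ≤ L)
    (h : 4 * L * Q ≤ (L : ℝ) ^ 40) (hl : l1 ∈ prl L) (hm : m1 ∈ dy Q) :
    (∑ l2 ∈ prl L, ∑ m2 ∈ dy Q, if l1 * m1 = l2 * m2 then (1 : ℝ) else 0) ≤ 40 := by
  rw [mem_dy (by linarith)] at hm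
  obtain ⟨hl1, hl2, hlp⟩ := mem_prl.1 hl
  have e1 : 1 ≤ m1 := by
    have h2 : (0 : ℝ) < m1 := by linarith [hm.1]
    exact_mod_cast h2
  have e2 : l1 * m1 ≤ L ^ 40 := by
    have h2 : (l1 : ℝ) ≤ 2 * L := by exact_mod_cast hl2
    have h3 : (0 : ℝ) ≤ l1 := Nat.cast_nonneg _
    have h4 : (l1 : ℝ) * m1 ≤ (L : ℝ) ^ 40 := by
      refine le_trans ?_ h
      calc (l1 : ℝ) * m1 ≤ (2 * L) * (2 * Q) :=
            mul_le_mul h2 hm.2 (Nat.cast_nonneg _) (by positivity)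
        _ = 4 * L * Q := by ring
    exact_mod_cast h4
  have e3 : 1 ≤ l1 * m1 := Nat.mul_pos hlp.pos e1
  have h2 := h1 L (l1 * m1) 40 hL e3 e2
  have h3 : ∀ l2 ∈ prl L, (∑ m2 ∈ dy Q, if l1 * m1 = l2 * m2 then (1 : ℝ) else 0) ≤
      if l2 ∣ l1 * m1 then (1 : ℝ) else 0 := by
    intro l2 hl2'
    have p2 := (mem_prl.1 hl2').2.2
    by_cases hd : l2 ∣ l1 * m1
    · rw [if_pos hd]
      obtain ⟨c, hc⟩ := hd
      have h4 : ∀ m2 ∈ dy Q, (if l1 * m1 = l2 * m2 then (1 : ℝ) else 0) =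
          if m2 = c then (1 : ℝ) else 0 := by
        intro m2 _
        by_cases h5 : m2 = c
        · rw [if_pos h5, if_pos (by rw [hc, h5])]
        · rw [if_neg h5, if_neg]
          intro h6
          rw [hc] at h6
          exact h5 (Nat.eq_of_mul_eq_mul_left p2.pos h6).symm
      rw [Finset.sum_congr rfl h4, Finset.sum_ite_eq']
      split_ifs <;> norm_num
    · rw [if_neg hd]
      refine le_of_eq (Finset.sum_eq_zero fun m2 _ => if_neg fun h5 => hd ⟨m2, h5⟩)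
  calc _ ≤ ∑ l2 ∈ prl L, if l2 ∣ l1 * m1 then (1 : ℝ) else 0 := Finset.sum_le_sum h3
    _ = (((prl L).filter (fun l => l ∣ l1 * m1)).card : ℝ) := by
        rw [← Finset.sum_filter, Finset.sum_const, nsmul_eq_mul, mul_one]
    _ ≤ 40 := by exact_mod_cast h2

theorem tAms (h1 : PdlStmt) : AmsStmt := by
  intro Q L α hQ hL h
  set c : ℕ → ℕ → ℕ → ℕ → ℝ := fun l1 l2 m1 m2 => if l1 * m1 = l2 * m2 then (1 : ℝ) else 0 with hc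
  have k1 : ∀ l1 l2 m1 m2, (if l1 * m1 = l2 * m2 then ‖α m1‖ * ‖α m2‖ else 0) ≤
      (c l1 l2 m1 m2 * ‖α m1‖ ^ 2 + c l1 l2 m1 m2 * ‖α m2‖ ^ 2) / 2 := by
    intro l1 l2 m1 m2
    simp only [hc]
    split_ifs
    · nlinarith [sq_nonneg (‖α m1‖ - ‖α m2‖)]
    · norm_num
  set S1 : ℝ := ∑ l1 ∈ prl L, ∑ l2 ∈ prl L, ∑ m1 ∈ dy Q, ∑ m2 ∈ dy Q,
    c l1 l2 m1 m2 * ‖α m1‖ ^ 2 with hS1
  have k2 : (∑ l1 ∈ prl L, ∑ l2 ∈ prl L, ∑ m1 ∈ dy Q, ∑ m2 ∈ dy Q,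
      c l1 l2 m1 m2 * ‖α m2‖ ^ 2) = S1 := by
    rw [Finset.sum_comm]
    refine Finset.sum_congr rfl fun l2 _ => Finset.sum_congr rfl fun l1 _ => ?_
    rw [Finset.sum_comm]
    refine Finset.sum_congr rfl fun m2 _ => Finset.sum_congr rfl fun m1 _ => ?_
    simp only [hc]
    by_cases h2 : l1 * m1 = l2 * m2
    · rw [if_pos h2, if_pos h2.symm]
    · rw [if_neg h2, if_neg (fun h3 => h2 h3.symm)]
  have k3 : S1 ≤ 40 * ((prl L).card : ℝ) * ∑ m ∈ dy Q, ‖α m‖ ^ 2 := by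
    have k4 : ∀ l1 ∈ prl L, (∑ l2 ∈ prl L, ∑ m1 ∈ dy Q, ∑ m2 ∈ dy Q,
        c l1 l2 m1 m2 * ‖α m1‖ ^ 2) ≤ 40 * ∑ m ∈ dy Q, ‖α m‖ ^ 2 := by
      intro l1 hl1
      rw [Finset.sum_comm, Finset.mul_sum]
      refine Finset.sum_le_sum fun m1 hm1 => ?_
      have k5 := Ams_cnt h1 hQ hL h hl1 hm1
      calc (∑ l2 ∈ prl L, ∑ m2 ∈ dy Q, c l1 l2 m1 m2 * ‖α m1‖ ^ 2)
          = (∑ l2 ∈ prl L, ∑ m2 ∈ dy Q, c l1 l2 m1 m2) * ‖α m1‖ ^ 2 := by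
            rw [Finset.sum_mul]
            refine Finset.sum_congr rfl fun _ _ => ?_
            rw [Finset.sum_mul]
        _ ≤ 40 * ‖α m1‖ ^ 2 := mul_le_mul_of_nonneg_right k5 (sq_nonneg _)
    calc S1 ≤ ∑ l1 ∈ prl L, 40 * ∑ m ∈ dy Q, ‖α m‖ ^ 2 := Finset.sum_le_sum k4
      _ = 40 * ((prl L).card : ℝ) * ∑ m ∈ dy Q, ‖α m‖ ^ 2 := by
        rw [Finset.sum_const, nsmul_eq_mul]
        ring
  calc _ ≤ ∑ l1 ∈ prl L, ∑ l2 ∈ prl L, ∑ m1 ∈ dy Q, ∑ m2 ∈ dy Q,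
        (c l1 l2 m1 m2 * ‖α m1‖ ^ 2 + c l1 l2 m1 m2 * ‖α m2‖ ^ 2) / 2 :=
        Finset.sum_le_sum fun _ _ => Finset.sum_le_sum fun _ _ => Finset.sum_le_sum fun _ _ =>
          Finset.sum_le_sum fun _ _ => k1 _ _ _ _
    _ = (S1 + ∑ l1 ∈ prl L, ∑ l2 ∈ prl L, ∑ m1 ∈ dy Q, ∑ m2 ∈ dy Q,
        c l1 l2 m1 m2 * ‖α m2‖ ^ 2) / 2 := by
        rw [hS1]
        simp only [add_div, Finset.sum_add_distrib, Finset.sum_div]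
    _ = S1 := by
        rw [k2]
        ring
    _ ≤ _ := k3

end Pool.Agent.Lib.KF
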