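import Pool.Agent.Lib.KF.SpecF

namespace Pool.Agent.Lib.KF

open Finset Pool.Agent.Lib.EH3 Pool.Agent.Results.MP_00e23e_nt

private lemma Bld_card (x : ℝ) (hx : 1 ≤ x) :
    (((Icc 1 ⌊x⌋₊).filter Nat.Prime).card : ℝ) ≤ x := by
  have h1 : ((Icc 1 ⌊x⌋₊).filter Nat.Prime).card ≤ ⌊x⌋₊ := by
    refine le_trans (Finset.card_filter_le _ _) ?_
    rw [Nat.card_Icc]
    omega
  calc (((Icc 1 ⌊x⌋₊).filter Nat.Prime).card : ℝ) ≤ (⌊x⌋₊ : ℝ) := by exact_mod_cast h1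
    _ ≤ x := Nat.floor_le (by linarith)

theorem tBld (h1 : VapStmt) : BldStmt := by
  intro x F hx
  obtain ⟨hv1, hv2, -, -⟩ := h1
  set P := (Icc 1 ⌊x⌋₊).filter Nat.Prime with hP
  set X := ⌊x⌋₊ with hX
  have hX1 : 1 ≤ X := by
    rw [hX, Nat.one_le_floor_iff]
    exact hx
  -- the comparison of the sums of squares
  have h2 : ∑ p ∈ P, (F (p : ℤ)) ^ 2 ≤ ∑ n ∈ zs X, vX X n * (F n) ^ 2 := by
    have e1 : ∑ p ∈ P, (F (p : ℤ)) ^ 2 =
        ∑ n ∈ P.image (fun p : ℕ => (p : ℤ)), vX X n * (F n) ^ 2 := by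
      rw [Finset.sum_image (fun a _ b _ h => by exact_mod_cast h)]
      refine Finset.sum_congr rfl (fun p hp => ?_)
      rw [hP, Finset.mem_filter, Finset.mem_Icc] at hp
      rw [hv2 X (p : ℤ) hX1 (by positivity) (by exact_mod_cast hp.1.2), one_mul]
    rw [e1]
    refine Finset.sum_le_sum_of_subset_of_nonneg ?_ ?_
    · intro n hn
      rw [Finset.mem_image] at hn
      obtain ⟨p, hp, rfl⟩ := hn
      rw [hP, Finset.mem_filter, Finset.mem_Icc] at hp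
      unfold zs
      rw [Finset.mem_Icc]
      constructor <;> omega
    · intro n _ _
      exact mul_nonneg (hv1 X n).1 (sq_nonneg _)
  have h3 : (∑ p ∈ P, |F (p : ℤ)|) ^ 2 ≤ x * ∑ n ∈ zs X, vX X n * (F n) ^ 2 := by
    have e1 := Finset.sum_mul_sq_le_sq_mul_sq P (fun _ => (1 : ℝ)) (fun p => |F (p : ℤ)|)
    simp only [one_mul, one_pow, sq_abs, Finset.sum_const, nsmul_eq_mul, mul_one] at e1
    refine le_trans e1 ?_
    refine mul_le_mul (Bld_card x hx) h2 (Finset.sum_nonneg (fun _ _ => sq_nonneg _)) (by linarith)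
  have h4 : 0 ≤ ∑ p ∈ P, |F (p : ℤ)| := Finset.sum_nonneg (fun _ _ => abs_nonneg _)
  rw [← Real.sqrt_mul (by linarith : (0 : ℝ) ≤ x)]
  exact Real.le_sqrt_of_sq_le h3

end Pool.Agent.Lib.KF
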