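import Pool.Agent.Lib.KF.SpecF

/-!
MP_00e23e_nt, directory Lib/KF, module Blk: one dyadic block.
-/

namespace Pool.Agent.Lib.KF

open Finset Pool.Agent.Lib.EH3 Pool.Agent.Results.MP_00e23e_nt

private lemma Blk_ev (K p q : ℝ) (hK : 0 < K) (hq : 0 < q) :
    ∃ x1 : ℝ, ∀ x : ℝ, x1 ≤ x → K * (Real.log x) ^ p ≤ x ^ q := by
  have h1 := (isLittleO_log_rpow_rpow_atTop p hq).def (show 0 < 1 / K by positivity)
  have h2 := h1.and (Filter.eventually_ge_atTop (1 : ℝ))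
  rw [Filter.eventually_atTop] at h2
  obtain ⟨x1, hx1⟩ := h2
  refine ⟨x1, fun x hx => ?_⟩
  obtain ⟨g1, g2⟩ := hx1 x hx
  rw [Real.norm_eq_abs, Real.norm_eq_abs, abs_of_nonneg (show (0 : ℝ) ≤ x ^ q by positivity)] at g1
  have g3 : (Real.log x) ^ p ≤ 1 / K * x ^ q := (le_abs_self _).trans g1
  calc K * (Real.log x) ^ p ≤ K * (1 / K * x ^ q) := mul_le_mul_of_nonneg_left g3 hK.le
    _ = x ^ q := by
      field_simp

private lemma Blk_sgn (x : ℝ) (a : ℤ) (d : ℕ) : |sgn x a d| ≤ 1 := by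
  unfold sgn
  split_ifs <;> norm_num

private lemma Blk_pow {x p q : ℝ} (hx : 1 ≤ x) (h : p ≤ q) : x ^ p ≤ x ^ q :=
  Real.rpow_le_rpow_of_exponent_le hx h

/-- the sum of the values without the diagonal -/
private lemma Blk_diag (P : Finset ℕ) (A : Finset ℤ) (g : ℤ → ℤ → ℝ) (B : ℝ) (hB : 0 ≤ B)
    (hg : ∀ a, |g a a| ≤ B) :
    ∑ a ∈ A, ∑ p ∈ P, g a (p : ℤ) ≤ ∑ p ∈ P, |∑ a ∈ A.erase (p : ℤ), g a (p : ℤ)| + A.card * B := by
  rw [Finset.sum_comm]
  have h1 : ∀ p ∈ P, ∑ a ∈ A, g a (p : ℤ) ≤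
      |∑ a ∈ A.erase (p : ℤ), g a (p : ℤ)| + (if (p : ℤ) ∈ A then B else 0) := by
    intro p _
    by_cases hp : (p : ℤ) ∈ A
    · rw [if_pos hp, ← Finset.sum_erase_add _ _ hp]
      have k1 := le_abs_self (∑ a ∈ A.erase (p : ℤ), g a (p : ℤ))
      have k2 := (le_abs_self (g (p : ℤ) (p : ℤ))).trans (hg (p : ℤ))
      linarith
    · rw [if_neg hp, Finset.erase_eq_of_notMem hp, add_zero]
      exact le_abs_self _
  refine (Finset.sum_le_sum h1).trans ?_
  rw [Finset.sum_add_distrib, ← Finset.sum_filter, Finset.sum_const, nsmul_eq_mul]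
  have h2 : ((P.filter (fun p : ℕ => (p : ℤ) ∈ A)).card : ℝ) ≤ A.card := by
    have h3 : (P.filter (fun p : ℕ => (p : ℤ) ∈ A)).card ≤ A.card := by
      apply Finset.card_le_card_of_injOn (fun p : ℕ => (p : ℤ))
      · intro p hp
        have hp' := Finset.mem_coe.1 hp
        rw [mem_filter] at hp'
        exact hp'.2
      · intro p _ q _ h
        exact Nat.cast_injective h
    exact_mod_cast h3
  have h4 := mul_le_mul_of_nonneg_right h2 hB
  linarith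

theorem tBlk (h1 : GabStmt) (h2 : LsqStmt) (h3 : TtaStmt) (h4 : BvzStmt) (h5 : BlcStmt)
    (h6 : BldStmt) : BlkStmt := by
  intro U hU
  obtain ⟨C2, X0, hC2, hX0, hLsq⟩ := h2
  obtain ⟨C4, hC4, hBv⟩ := h4 (U + 3) (by linarith)
  obtain ⟨x2, hx2⟩ := Blk_ev 128 (U + 1) (1 / 5) (by norm_num) (by norm_num)
  obtain ⟨x3, hx3⟩ := Blk_ev 4 0 (985 / 10000) (by norm_num) (by norm_num)
  obtain ⟨x4, hx4⟩ := Blk_ev 48 (U + 2) (4989 / 10000) (by norm_num) (by norm_num)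
  obtain ⟨x5, hx5⟩ := Blk_ev 16 (2 * U + 2) (1 / 4000) (by norm_num) (by norm_num)
  refine ⟨256 * C2, 4 + X0 + Real.exp (48 * C4) + |x2| + |x3| + |x4| + |x5|, by positivity, ?_, ?_⟩
  · have : 0 ≤ (X0 : ℝ) + Real.exp (48 * C4) + |x2| + |x3| + |x4| + |x5| := by positivity
    linarith
  intro x Q A hx hQ1 hQ2 hA
  have e1 := Real.exp_pos (48 * C4)
  have e2 : (0 : ℝ) ≤ X0 := by positivity
  have a2 := abs_nonneg x2
  have a3 := abs_nonneg x3
  have a4 := abs_nonneg x4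
  have a5 := abs_nonneg x5
  have hx2' := hx2 x (by linarith [le_abs_self x2])
  have hx3' := hx3 x (by linarith [le_abs_self x3])
  have hx4' := hx4 x (by linarith [le_abs_self x4])
  have hx5' := hx5 x (by linarith [le_abs_self x5])
  have hx4r : (4 : ℝ) ≤ x := by linarith
  have hx0 : (0 : ℝ) < x := by linarith
  have hx1 : (1 : ℝ) ≤ x := by linarith
  obtain ⟨L, hL⟩ : ∃ L, L = Real.log x := ⟨_, rfl⟩
  rw [← hL] at hx2' hx3' hx4' hx5' hA ⊢
  have hL1 : 1 ≤ L := by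
    rw [hL, Real.le_log_iff_exp_le hx0]
    have := Real.exp_one_lt_d9
    linarith
  have hL0 : 0 < L := by linarith
  have hLC : 48 * C4 ≤ L := by
    rw [hL, Real.le_log_iff_exp_le hx0]
    linarith
  -- X
  obtain ⟨X, hX⟩ : ∃ X, X = ⌊x⌋₊ := ⟨_, rfl⟩
  have hXx : (X : ℝ) ≤ x := by
    rw [hX]
    exact Nat.floor_le hx0.le
  have hXx2 : x / 2 ≤ (X : ℝ) := by
    have := Nat.lt_floor_add_one x
    rw [← hX] at this
    linarith
  have hX1 : (1 : ℝ) ≤ (X : ℝ) := by linarith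
  have hX1' : 1 ≤ X := by exact_mod_cast hX1
  have hXX0 : X0 ≤ X := by
    rw [hX]
    apply Nat.le_floor
    linarith
  rw [← hX] at hQ1 hQ2 hA
  -- R
  obtain ⟨R, hR⟩ : ∃ R, R = ⌊(X : ℝ) ^ ((4985 : ℝ) / 10000)⌋₊ := ⟨_, rfl⟩
  have hRy : (1 : ℝ) ≤ (X : ℝ) ^ ((4985 : ℝ) / 10000) := Real.one_le_rpow hX1 (by norm_num)
  have hR1 : 1 ≤ R := by
    rw [hR, Nat.le_floor_iff (by linarith)]
    exact_mod_cast hRy
  have hR2 : (R : ℝ) ≤ (X : ℝ) ^ ((4985 : ℝ) / 10000) := by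
    rw [hR]
    exact Nat.floor_le (by linarith)
  have hR3 : (X : ℝ) ^ ((4985 : ℝ) / 10000) / 2 ≤ (R : ℝ) := by
    have k1 := Nat.lt_floor_add_one ((X : ℝ) ^ ((4985 : ℝ) / 10000))
    rw [← hR] at k1
    have k2 : (1 : ℝ) ≤ R := by exact_mod_cast hR1
    linarith
  have hQone : 1 ≤ Q := (Real.one_le_rpow hX1 (by norm_num)).trans hQ1
  have hRQ : (R : ℝ) ≤ Q := hR2.trans ((Blk_pow hX1 (by norm_num)).trans hQ1)
  have hQx : Q ≤ x ^ ((5011 : ℝ) / 10000) :=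
    hQ2.trans (Real.rpow_le_rpow (by linarith) hXx (by norm_num))
  have hQxx : Q ≤ x := by
    have k1 : x ^ ((5011 : ℝ) / 10000) ≤ x ^ (1 : ℝ) := Blk_pow hx1 (by norm_num)
    rw [Real.rpow_one] at k1
    linarith
  have hlogQ : 1 + Real.log (2 * Q) ≤ 3 * L := by
    have k1 : Real.log (2 * Q) ≤ Real.log (x * x) := by
      apply Real.log_le_log (by linarith)
      nlinarith
    rw [Real.log_mul hx0.ne' hx0.ne', ← hL] at k1
    linarith
  have hlogQ0 : 0 ≤ Real.log (2 * Q) := Real.log_nonneg (by linarith)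
  -- Y
  obtain ⟨Y, hY⟩ : ∃ Y, Y = x / L ^ (U + 1) := ⟨_, rfl⟩
  have hLU : 0 < L ^ (U + 1) := Real.rpow_pos_of_pos hL0 _
  have hY0 : 0 < Y := by
    rw [hY]
    positivity
  rw [← hY] at hA
  have hxY : x = Y * L ^ (U + 1) := by
    rw [hY]
    field_simp
  -- the bound of T
  have hsq : 128 * L ^ (U + 1) ≤ Real.sqrt R := by
    refine hx2'.trans ?_
    have k1 : x ^ ((1 : ℝ) / 5) = Real.sqrt (x ^ ((2 : ℝ) / 5)) := by
      rw [Real.sqrt_eq_rpow, ← Real.rpow_mul hx0.le]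
      norm_num
    rw [k1]
    apply Real.sqrt_le_sqrt
    have k2 : x ^ ((4985 : ℝ) / 10000) / 2 ≤ (X : ℝ) ^ ((4985 : ℝ) / 10000) := by
      have k3 : (x / 2) ^ ((4985 : ℝ) / 10000) ≤ (X : ℝ) ^ ((4985 : ℝ) / 10000) :=
        Real.rpow_le_rpow (by linarith) hXx2 (by norm_num)
      refine le_trans ?_ k3
      rw [Real.div_rpow hx0.le (by norm_num)]
      apply div_le_div_of_nonneg_left (by positivity) (by positivity)
      have k4 : (2 : ℝ) ^ ((4985 : ℝ) / 10000) ≤ (2 : ℝ) ^ (1 : ℝ) :=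
        Blk_pow (by norm_num) (by norm_num)
      rwa [Real.rpow_one] at k4
    have k5 : x ^ ((4985 : ℝ) / 10000) = x ^ ((2 : ℝ) / 5) * x ^ ((985 : ℝ) / 10000) := by
      rw [← Real.rpow_add hx0]
      norm_num
    rw [Real.rpow_zero, mul_one] at hx3'
    have k6 : (0 : ℝ) ≤ x ^ ((2 : ℝ) / 5) := by positivity
    have k7 := mul_le_mul_of_nonneg_left hx3' k6
    rw [← k5] at k7
    linarith
  have hT : ∀ a : ℤ, ∑ d ∈ dya Q a, |ellp x R d a - li x / (d.totient : ℝ)| ≤ Y / 4 := by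
    intro a
    refine (h3 x Q R a hQone hR1 hRQ).trans ?_
    have k1 : ∑ e ∈ Icc 1 R, maxErr x e ≤ C4 * (x / L ^ (U + 3)) := by
      have k0 := hBv x (by linarith)
      rw [← hL] at k0
      refine le_trans ?_ k0
      apply Finset.sum_le_sum_of_subset_of_nonneg
      · apply Finset.Icc_subset_Icc_right
        apply Nat.le_floor
        refine hR2.trans ?_
        exact (Real.rpow_le_rpow (by linarith) hXx (by norm_num)).trans
          (Blk_pow hx1 (by norm_num))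
      · intro e _ _
        exact Pool.Agent.Lib.EH.maxErr_nonneg x e
    have k2 : C4 * (x / L ^ (U + 3)) = C4 * Y / L ^ 2 := by
      have k3 : L ^ (U + 3) = L ^ (U + 1) * L ^ 2 := by
        rw [← Real.rpow_natCast L 2, ← Real.rpow_add hL0]
        norm_num
        ring_nf
      rw [k3, hY]
      field_simp
    rw [k2] at k1
    have k4 : 0 ≤ ∑ e ∈ Icc 1 R, maxErr x e :=
      Finset.sum_nonneg fun e _ => Pool.Agent.Lib.EH.maxErr_nonneg x e
    have k5 : 2 * (1 + Real.log (2 * Q)) * ∑ e ∈ Icc 1 R, maxErr x e ≤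
        (6 * L) * (C4 * Y / L ^ 2) := mul_le_mul (by linarith) k1 k4 (by positivity)
    have k6 : (6 * L) * (C4 * Y / L ^ 2) ≤ Y / 8 := by
      have k7 : (6 * L) * (C4 * Y / L ^ 2) = 6 * C4 * Y / L := by
        field_simp
      rw [k7, div_le_div_iff₀ hL0 (by norm_num)]
      have k8 := mul_le_mul_of_nonneg_right hLC hY0.le
      linarith
    have k9 : |li x| ≤ 2 * x := by
      rw [abs_of_nonneg (Pool.Agent.Lib.EH.li_nonneg (by linarith))]
      exact Pool.Agent.Lib.EH.li_le (by linarith)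
    have hs0 : 0 < Real.sqrt R := by
      have : (0 : ℝ) < 128 * L ^ (U + 1) := by positivity
      linarith
    have k10 : 8 * |li x| / Real.sqrt R ≤ Y / 8 := by
      rw [div_le_div_iff₀ hs0 (by norm_num)]
      have k11 := mul_le_mul_of_nonneg_left hsq hY0.le
      have k12 : Y * (128 * L ^ (U + 1)) = 128 * x := by
        rw [hxY]
        ring
      rw [k12] at k11
      linarith
    linarith
  -- the bound of the diagonal
  obtain ⟨B, hB⟩ : ∃ B, B = 4 * Q * (1 + Real.log (2 * Q)) := ⟨_, rfl⟩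
  have hB0 : 0 ≤ B := by
    rw [hB]
    positivity
  have hBY : B ≤ Y / 4 := by
    have k1 : B ≤ (4 * x ^ ((5011 : ℝ) / 10000)) * (3 * L) := by
      rw [hB]
      exact mul_le_mul (by linarith) hlogQ (by linarith) (by positivity)
    have k2 : L ^ (U + 2) = L ^ (U + 1) * L := by
      have : L ^ (U + 2) = L ^ (U + 1 + 1) := by
        congr 1
        ring
      rw [this, Real.rpow_add hL0, Real.rpow_one]
    rw [k2] at hx4'
    have k3 : x = x ^ ((5011 : ℝ) / 10000) * x ^ ((4989 : ℝ) / 10000) := by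
      rw [← Real.rpow_add hx0]
      norm_num
    have k4 : (0 : ℝ) ≤ x ^ ((5011 : ℝ) / 10000) := by positivity
    have k5 := mul_le_mul_of_nonneg_left hx4' k4
    rw [← k3] at k5
    -- 48 x^.. L^(U+1) L ≤ x = Y L^(U+1)
    have k6 : (4 * x ^ ((5011 : ℝ) / 10000)) * (3 * L) * L ^ (U + 1) ≤ Y / 4 * L ^ (U + 1) := by
      have k7 : Y / 4 * L ^ (U + 1) = x / 4 := by
        rw [hxY]
        ring
      rw [k7]
      linarith
    exact k1.trans (le_of_mul_le_mul_right k6 hLU)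
  have hgg0 : ∀ a : ℤ, |gg R Q (sgn x a) (a - a)| ≤ B := by
    intro a
    rw [hB]
    exact h1.2.2 R Q (sgn x a) (a - a) hQone hRQ (Blk_sgn x a)
  -- the sum
  obtain ⟨n, hn⟩ : ∃ n : ℝ, n = (A.card : ℝ) := ⟨_, rfl⟩
  have hn0 : 0 ≤ n := by
    rw [hn]
    exact Nat.cast_nonneg _
  obtain ⟨F, hF⟩ : ∃ F : ℤ → ℝ, F = fun m => ∑ a ∈ A.erase m, gg R Q (sgn x a) (m - a) :=
    ⟨_, rfl⟩
  have hsum1 : n * Y ≤ ∑ p ∈ (Icc 1 X).filter Nat.Prime, |F (p : ℤ)| + n * B + n * (Y / 4) := by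
    have k1 : n * Y ≤ ∑ a ∈ A, ((∑ p ∈ (Icc 1 X).filter Nat.Prime,
        gg R Q (sgn x a) ((p : ℤ) - a)) + Y / 4) := by
      rw [hn, ← nsmul_eq_mul]
      apply Finset.card_nsmul_le_sum
      intro a ha
      have k2 := (hA a ha).2
      have k3 := h5 x Q R a
      have k4 := hT a
      rw [← hX] at k3
      linarith
    rw [Finset.sum_add_distrib, Finset.sum_const, nsmul_eq_mul, ← hn] at k1
    have k5 := Blk_diag ((Icc 1 X).filter Nat.Prime) A
      (fun a m => gg R Q (sgn x a) (m - a)) B hB0 hgg0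
    rw [← hn] at k5
    rw [hF]
    change n * Y ≤ ∑ p ∈ (Icc 1 X).filter Nat.Prime,
      |∑ a ∈ A.erase (p : ℤ), gg R Q (sgn x a) ((p : ℤ) - a)| + n * B + n * (Y / 4)
    linarith
  have hsum2 : n * Y / 2 ≤ ∑ p ∈ (Icc 1 X).filter Nat.Prime, |F (p : ℤ)| := by
    have k1 := mul_le_mul_of_nonneg_left hBY hn0
    linarith
  -- Cauchy-Schwarz
  have hCS := h6 x F hx1
  rw [← hX] at hCS
  have hW := hLsq X Q A (fun a => sgn x a) hXX0 hQ1 hQ2 (fun a ha => (hA a ha).1)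
    (fun a d => Blk_sgn x a d)
  rw [← hR, ← hn] at hW
  obtain ⟨W, hWd⟩ : ∃ W, W = ∑ m ∈ zs X, vX X m * (F m) ^ 2 := ⟨_, rfl⟩
  have hW' : W ≤ C2 * n * (X * (1 + Real.log X) ^ 5) + 2 * n ^ 2 * (X : ℝ) ^ ((3999 : ℝ) / 4000) := by
    rw [hWd, hF]
    exact hW
  rw [← hWd] at hCS
  have hlogX : Real.log X ≤ L := by
    rw [hL]
    exact Real.log_le_log (by linarith) hXx
  have hlogX0 : 0 ≤ Real.log X := Real.log_nonneg hX1
  have hW2 : W ≤ C2 * n * (x * (2 * L) ^ 5) + 2 * n ^ 2 * x ^ ((3999 : ℝ) / 4000) := by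
    refine hW'.trans (add_le_add ?_ ?_)
    · refine mul_le_mul_of_nonneg_left ?_ (by positivity)
      exact mul_le_mul hXx (pow_le_pow_left₀ (by linarith) (by linarith) 5) (by positivity) hx0.le
    · refine mul_le_mul_of_nonneg_left ?_ (by positivity)
      exact Real.rpow_le_rpow (by linarith) hXx (by norm_num)
  have hW0 : 0 ≤ W ∨ W < 0 := le_or_gt 0 W
  have hsqr : (n * Y / 2) ^ 2 ≤ x * (C2 * n * (x * (2 * L) ^ 5) +
      2 * n ^ 2 * x ^ ((3999 : ℝ) / 4000)) := by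
    have k0 : 0 ≤ n * Y / 2 := by positivity
    have k1 : n * Y / 2 ≤ Real.sqrt x * Real.sqrt (C2 * n * (x * (2 * L) ^ 5) +
        2 * n ^ 2 * x ^ ((3999 : ℝ) / 4000)) := by
      refine (hsum2.trans hCS).trans ?_
      exact mul_le_mul_of_nonneg_left (Real.sqrt_le_sqrt hW2) (Real.sqrt_nonneg _)
    have k2 := pow_le_pow_left₀ k0 k1 2
    rw [mul_pow, Real.sq_sqrt hx0.le, Real.sq_sqrt (by positivity)] at k2
    exact k2
  -- conclusion
  obtain ⟨M, hM⟩ : ∃ M, M = L ^ (2 * U + 2) := ⟨_, rfl⟩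
  have hM0 : 0 < M := by
    rw [hM]
    exact Real.rpow_pos_of_pos hL0 _
  have hMU : L ^ (U + 1) * L ^ (U + 1) = M := by
    rw [hM, ← Real.rpow_add hL0]
    congr 1
    ring
  have hYM : Y ^ 2 * M = x ^ 2 := by
    rw [← hMU, hY]
    field_simp
  rw [← hM] at hx5'
  have hsmall : 16 * (x * x ^ ((3999 : ℝ) / 4000)) * M ≤ x ^ 2 := by
    have k1 : x ^ 2 = x * x ^ ((3999 : ℝ) / 4000) * x ^ ((1 : ℝ) / 4000) := by
      rw [mul_assoc, ← Real.rpow_add hx0]
      norm_num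
      ring
    rw [k1]
    have k2 : 0 ≤ x * x ^ ((3999 : ℝ) / 4000) := by positivity
    have k3 := mul_le_mul_of_nonneg_left hx5' k2
    linarith
  have hfin : n * n * x ^ 2 ≤ n * (256 * C2 * (L ^ 5 * M) * x ^ 2) := by
    have k1 := mul_le_mul_of_nonneg_right hsqr hM0.le
    have k2 : (n * Y / 2) ^ 2 * M = n ^ 2 * x ^ 2 / 4 := by
      rw [← hYM]
      ring
    have k3 := mul_le_mul_of_nonneg_left hsmall (show 0 ≤ n ^ 2 by positivity)
    rw [k2] at k1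
    nlinarith
  have hLM : L ^ (2 * U + 7) = L ^ 5 * M := by
    rw [hM, ← Real.rpow_natCast L 5, ← Real.rpow_add hL0]
    congr 1
    norm_num
    ring
  rw [← hn, hLM]
  rcases hn0.lt_or_eq with hnp | hnz
  · have k1 : n * (n * x ^ 2) ≤ n * (256 * C2 * (L ^ 5 * M) * x ^ 2) := by
      rw [← mul_assoc]
      exact hfin
    have k2 := le_of_mul_le_mul_left k1 hnp
    have k3 : (0 : ℝ) < x ^ 2 := by positivity
    exact le_of_mul_le_mul_right k2 k3
  · rw [← hnz]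
    positivity

end Pool.Agent.Lib.KF
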