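import Pool.Agent.Lib.KF.SpecK

/-! MP_00e23e_nt, Lib/KF: module Cap. -/

namespace Pool.Agent.Lib.KF

open Finset Pool.Agent.Lib.EH3

theorem tCap : CapStmt := by
  intro q v g a b hq hv hg
  have hM : Nat.lcm v g ∣ q := Nat.lcm_dvd hv hg
  have hM0 : 0 < Nat.lcm v g := Nat.pos_of_dvd_of_pos hM (by omega)
  obtain ⟨k, hk⟩ := hM
  have hk' : q / Nat.lcm v g = k := by
    rw [hk, Nat.mul_div_cancel_left k hM0]
  rw [hk', ← Finset.card_range k]
  refine Finset.card_le_card_of_injOn (fun z => z / Nat.lcm v g) ?_ ?_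
  · intro z hz
    have h1 : z < q := Finset.mem_range.1 (Finset.mem_filter.1 hz).1
    refine Finset.mem_coe.2 (Finset.mem_range.2 ?_)
    change z / Nat.lcm v g < k
    rw [Nat.div_lt_iff_lt_mul hM0, mul_comm]
    rw [← hk]
    exact h1
  · intro z hz z' hz' hzz
    obtain ⟨-, h1, h2⟩ := Finset.mem_filter.1 hz
    obtain ⟨-, h3, h4⟩ := Finset.mem_filter.1 hz'
    have h5 : (v : ℤ) ∣ (z' : ℤ) - z := by
      have := dvd_sub h3 h1
      have e : (z' : ℤ) - a - (z - a) = z' - z := by ring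
      rwa [e] at this
    have h6 : (g : ℤ) ∣ (z' : ℤ) - z := by
      have := dvd_sub h4 h2
      have e : (z' : ℤ) - b - (z - b) = z' - z := by ring
      rwa [e] at this
    have h7 : ((Nat.lcm v g : ℕ) : ℤ) ∣ (z' : ℤ) - z := by
      rw [Int.natCast_dvd] at h5 h6 ⊢
      exact Nat.lcm_dvd h5 h6
    have h8 : z % Nat.lcm v g = z' % Nat.lcm v g := Nat.modEq_iff_dvd.2 h7
    have h9 : z / Nat.lcm v g = z' / Nat.lcm v g := hzz
    rw [← Nat.div_add_mod z (Nat.lcm v g), ← Nat.div_add_mod z' (Nat.lcm v g), h8, h9]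

end Pool.Agent.Lib.KF
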