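import Pool.Agent.Lib.KF.SpecK

/-!
Module Crs: Chinese remainder theorem for fractions.
-/

namespace Pool.Agent.Lib.KF

open Finset Pool.Agent.Lib.EH3

private lemma Crs_inv (h7 : ∀ (q : ℕ) (a : ZMod q), IsUnit a → a * a⁻¹ = 1) (m : ℕ)
    (x y : ZMod m) (h : x * y = 1) : x⁻¹ = y := by
  have hx : IsUnit x := ⟨⟨x, y, h, by rw [mul_comm]; exact h⟩, rfl⟩
  calc x⁻¹ = x⁻¹ * (x * y) := by rw [h, mul_one]
    _ = (x * x⁻¹) * y := by ring
    _ = y := by rw [h7 m x hx, one_mul]

theorem tCrs (h1 : EmStmt) : CrsStmt := by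
  obtain ⟨-, -, -, -, h5, -, h7, -, -⟩ := h1
  intro a b c n ha hb hab hn
  obtain ⟨A, B, hAB⟩ := Nat.isCoprime_iff_coprime.2 hab
  obtain ⟨N, M, hN⟩ := hn
  have ha' : (0 : ℝ) < a := by exact_mod_cast ha
  have hb' : (0 : ℝ) < b := by exact_mod_cast hb
  have h0 : (((a * b : ℕ) : ℤ) : ZMod (a * b)) = 0 := by
    rw [Int.cast_natCast, ZMod.natCast_self]
  have h0a : (((a * b : ℕ) : ℤ) : ZMod a) = 0 := by
    rw [Int.cast_natCast, Nat.cast_mul, ZMod.natCast_self, zero_mul]
  have h0b : (((a * b : ℕ) : ℤ) : ZMod b) = 0 := by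
    rw [Int.cast_natCast, Nat.cast_mul, ZMod.natCast_self, mul_zero]
  have e1 : (n : ZMod (a * b)) * (N : ZMod (a * b)) = 1 := by
    have := congrArg (Int.cast : ℤ → ZMod (a * b)) hN
    rw [Int.cast_add, Int.cast_mul, Int.cast_mul, h0, mul_zero, add_zero, Int.cast_one] at this
    exact (mul_comm _ _).trans this
  have e2 : (N : ZMod a) * (n : ZMod a) = 1 := by
    have := congrArg (Int.cast : ℤ → ZMod a) hN
    rw [Int.cast_add, Int.cast_mul, Int.cast_mul, h0a, mul_zero, add_zero, Int.cast_one] at this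
    exact this
  have e3 : (N : ZMod b) * (n : ZMod b) = 1 := by
    have := congrArg (Int.cast : ℤ → ZMod b) hN
    rw [Int.cast_add, Int.cast_mul, Int.cast_mul, h0b, mul_zero, add_zero, Int.cast_one] at this
    exact this
  have e4 : (B : ZMod a) * (b : ZMod a) = 1 := by
    have := congrArg (Int.cast : ℤ → ZMod a) hAB
    rw [Int.cast_add, Int.cast_mul, Int.cast_mul, Int.cast_natCast, Int.cast_natCast,
      ZMod.natCast_self, mul_zero, zero_add, Int.cast_one] at this
    exact this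
  have e5 : (A : ZMod b) * (a : ZMod b) = 1 := by
    have := congrArg (Int.cast : ℤ → ZMod b) hAB
    rw [Int.cast_add, Int.cast_mul, Int.cast_mul, Int.cast_natCast, Int.cast_natCast,
      ZMod.natCast_self, mul_zero, add_zero, Int.cast_one] at this
    exact this
  have i1 : ((n : ZMod (a * b)))⁻¹ = (N : ZMod (a * b)) := Crs_inv h7 _ _ _ e1
  have i2 : ((n : ZMod a) * (b : ZMod a))⁻¹ = (N : ZMod a) * (B : ZMod a) := by
    apply Crs_inv h7
    calc (n : ZMod a) * (b : ZMod a) * ((N : ZMod a) * (B : ZMod a))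
        = ((N : ZMod a) * n) * ((B : ZMod a) * b) := by ring
      _ = 1 := by rw [e2, e4, one_mul]
  have i3 : ((n : ZMod b) * (a : ZMod b))⁻¹ = (N : ZMod b) * (A : ZMod b) := by
    apply Crs_inv h7
    calc (n : ZMod b) * (a : ZMod b) * ((N : ZMod b) * (A : ZMod b))
        = ((N : ZMod b) * n) * ((A : ZMod b) * a) := by ring
      _ = 1 := by rw [e3, e5, one_mul]
  have c1 : (c : ZMod (a * b)) * (N : ZMod (a * b)) = ((c * N : ℤ) : ZMod (a * b)) := by
    push_cast; ring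
  have c2 : (c : ZMod a) * ((N : ZMod a) * (B : ZMod a)) = ((c * (N * B) : ℤ) : ZMod a) := by
    push_cast; ring
  have c3 : (c : ZMod b) * ((N : ZMod b) * (A : ZMod b)) = ((c * (N * A) : ℤ) : ZMod b) := by
    push_cast; ring
  rw [i1, i2, i3, c1, c2, c3, h5 (a * b) _ (Nat.mul_pos ha hb), h5 a _ ha, h5 b _ hb, ← ee_add]
  congr 1
  have hR : (A : ℝ) * a + (B : ℝ) * b = 1 := by exact_mod_cast hAB
  push_cast
  field_simp
  linear_combination (-(c : ℝ) * N) * hR

end Pool.Agent.Lib.KF
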