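import Pool.Agent.Lib.KF.SpecB

/-!
MP_00e23e_nt, directory Lib/KF: Cauchy-Schwarz.
-/

namespace Pool.Agent.Lib.KF

open Finset Pool.Agent.Lib.EH3

theorem tCsb : CsbStmt := by
  intro S a K
  have h1 : ‖∑ m1 ∈ S, ∑ m2 ∈ S, a m1 * (starRingEnd ℂ) (a m2) * K m1 m2‖ ≤
      ∑ p ∈ S ×ˢ S, (‖a p.1‖ * ‖a p.2‖) * ‖K p.1 p.2‖ := by
    rw [Finset.sum_product]
    refine (norm_sum_le _ _).trans (Finset.sum_le_sum fun m1 _ => ?_)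
    refine (norm_sum_le _ _).trans (Finset.sum_le_sum fun m2 _ => ?_)
    rw [norm_mul, norm_mul, RCLike.norm_conj]
  have h2 := Finset.sum_mul_sq_le_sq_mul_sq (S ×ˢ S)
    (fun p : ℕ × ℕ => ‖a p.1‖ * ‖a p.2‖) (fun p => ‖K p.1 p.2‖)
  have h3 : ∑ p ∈ S ×ˢ S, (‖a p.1‖ * ‖a p.2‖) ^ 2 = (∑ m ∈ S, ‖a m‖ ^ 2) ^ 2 := by
    rw [Finset.sum_product, sq, Finset.sum_mul_sum]
    refine Finset.sum_congr rfl fun _ _ => Finset.sum_congr rfl fun _ _ => ?_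
    rw [mul_pow]
  have h4 : ∑ p ∈ S ×ˢ S, ‖K p.1 p.2‖ ^ 2 = ∑ m1 ∈ S, ∑ m2 ∈ S, ‖K m1 m2‖ ^ 2 := by
    rw [Finset.sum_product]
  rw [h3, h4] at h2
  have h5 : 0 ≤ ∑ m ∈ S, ‖a m‖ ^ 2 := Finset.sum_nonneg fun _ _ => sq_nonneg _
  calc _ ≤ _ := h1
    _ ≤ Real.sqrt ((∑ m ∈ S, ‖a m‖ ^ 2) ^ 2 * ∑ m1 ∈ S, ∑ m2 ∈ S, ‖K m1 m2‖ ^ 2) :=
      Real.le_sqrt_of_sq_le h2
    _ = _ := by rw [Real.sqrt_mul (sq_nonneg _), Real.sqrt_sq h5]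

end Pool.Agent.Lib.KF
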