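import Pool.Agent.Lib.EH.Defs

/-! Primes p ≡ a mod d for an integer a, used in the theorem about almost all residues. -/

namespace Pool.Agent.Results.MP_00e23e_nt

open Finset

/-- number of primes p ≤ x with p ≡ a mod d, for an integer a -/
noncomputable def resCount (x : ℝ) (d : ℕ) (a : ℤ) : ℕ :=
  ((Icc 1 ⌊x⌋₊).filter (fun p : ℕ => p.Prime ∧ (d : ℤ) ∣ (p : ℤ) - a)).card

/-- the error term E(x;d,a) for an integer a -/
noncomputable def resErr (x : ℝ) (d : ℕ) (a : ℤ) : ℝ :=
  (resCount x d a : ℝ) - li x / (d.totient : ℝ)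

end Pool.Agent.Results.MP_00e23e_nt
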