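import Pool.Agent.Lib.KF.SpecL

/-!
MP_00e23e_nt, directory Lib/KF, module Dia: diagonal terms.
-/

namespace Pool.Agent.Lib.KF

open Finset Pool.Agent.Lib.EH3

private lemma Dia_fib (X : ℕ) (a : ℤ) (ha : |a| ≤ (X : ℤ)) :
    ∑ n ∈ (zs X).erase a, (tau (n - a).natAbs) ^ 2 ≤ 2 * ∑ m ∈ Icc 1 (3 * X), (tau m) ^ 2 := by
  have hmaps : ∀ n ∈ (zs X).erase a, (n - a).natAbs ∈ Icc 1 (3 * X) := by
    intro n hn
    rw [Finset.mem_erase, zs, Finset.mem_Icc] at hn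
    rw [abs_le] at ha
    rw [Finset.mem_Icc]
    omega
  rw [← Finset.sum_fiberwise_of_maps_to hmaps, Finset.mul_sum]
  refine Finset.sum_le_sum fun m _ => ?_
  have h1 : ∀ n ∈ ((zs X).erase a).filter (fun n => (n - a).natAbs = m),
      (tau (n - a).natAbs) ^ 2 = (tau m) ^ 2 := by
    intro n hn
    rw [(Finset.mem_filter.1 hn).2]
  rw [Finset.sum_congr rfl h1, Finset.sum_const, nsmul_eq_mul]
  have h2 : (((zs X).erase a).filter (fun n => (n - a).natAbs = m)).card ≤ 2 := by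
    have h3 : ((zs X).erase a).filter (fun n => (n - a).natAbs = m) ⊆ {a + m, a - m} := by
      intro n hn
      have h4 := (Finset.mem_filter.1 hn).2
      rw [Finset.mem_insert, Finset.mem_singleton]
      omega
    exact (Finset.card_le_card h3).trans Finset.card_le_two
  have h3 : ((((zs X).erase a).filter (fun n => (n - a).natAbs = m)).card : ℝ) ≤ 2 := by
    exact_mod_cast h2
  exact mul_le_mul_of_nonneg_right h3 (sq_nonneg _)

/-- diagonal terms -/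
theorem tDia (h1 : VapStmt) (h2 : DsbStmt) (h3 : GabStmt) : DiaStmt := by
  refine ⟨2592, by norm_num, ?_⟩
  intro X R Q a c hX hQ hRQ hQX ha hc
  have hX1 : (1 : ℝ) ≤ X := by exact_mod_cast hX
  have hlX : 0 ≤ Real.log X := Real.log_nonneg hX1
  have hlQ : 0 ≤ Real.log (2 * Q) := Real.log_nonneg (by linarith)
  set M : ℝ := 2 * (1 + Real.log (2 * Q)) with hM
  have hM0 : 0 ≤ M := by positivity
  have e1 : ∀ n ∈ (zs X).erase a, vX X n * (gg R Q c (n - a)) ^ 2 ≤ M ^ 2 * (tau (n - a).natAbs) ^ 2 := by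
    intro n hn
    have hna : n - a ≠ 0 := sub_ne_zero.2 (Finset.mem_erase.1 hn).1
    have b1 := h3.2.1 R Q c (n - a) hQ hRQ hc hna
    have b2 : (gg R Q c (n - a)) ^ 2 ≤ (M * tau (n - a).natAbs) ^ 2 := by
      rw [← sq_abs (gg R Q c (n - a))]
      exact pow_le_pow_left₀ (abs_nonneg _) b1 2
    have b3 := h1.1 X n
    calc vX X n * (gg R Q c (n - a)) ^ 2 ≤ 1 * (M * tau (n - a).natAbs) ^ 2 :=
          mul_le_mul b3.2 b2 (sq_nonneg _) zero_le_one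
      _ = M ^ 2 * (tau (n - a).natAbs) ^ 2 := by ring
  have e2 := Dia_fib X a ha
  have e3 := h2.2 (3 * X) (by omega)
  have l2 : Real.log 2 ≤ 1 := by
    have := Real.log_two_lt_d9
    linarith
  have l3 : Real.log 3 ≤ 2 := by
    have := Real.log_le_sub_one_of_pos (show (0 : ℝ) < 3 by norm_num)
    linarith
  have q1 : 1 + Real.log (2 * Q) ≤ 2 * (1 + Real.log X) := by
    have : Real.log (2 * Q) ≤ Real.log (2 * X) := Real.log_le_log (by linarith) (by linarith)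
    rw [Real.log_mul (by norm_num : (2 : ℝ) ≠ 0) (by linarith : (X : ℝ) ≠ 0)] at this
    linarith
  have q2 : 1 + Real.log ((3 * X : ℕ) : ℝ) ≤ 3 * (1 + Real.log X) := by
    push_cast
    rw [Real.log_mul (by norm_num : (3 : ℝ) ≠ 0) (by linarith : (X : ℝ) ≠ 0)]
    linarith
  have q3 : 0 ≤ 1 + Real.log ((3 * X : ℕ) : ℝ) := by
    have : 0 ≤ Real.log ((3 * X : ℕ) : ℝ) := Real.log_nonneg (by push_cast; linarith)
    linarith
  have r1 : M ^ 2 ≤ (4 * (1 + Real.log X)) ^ 2 := pow_le_pow_left₀ hM0 (by rw [hM]; linarith) 2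
  have r2 : (1 + Real.log ((3 * X : ℕ) : ℝ)) ^ 3 ≤ (3 * (1 + Real.log X)) ^ 3 :=
    pow_le_pow_left₀ q3 q2 3
  have s1 : ∑ m ∈ Icc 1 (3 * X), (tau m) ^ 2 ≤ 3 * (X : ℝ) * (3 * (1 + Real.log X)) ^ 3 := by
    refine e3.trans ?_
    calc ((3 * X : ℕ) : ℝ) * (1 + Real.log ((3 * X : ℕ) : ℝ)) ^ 3
        ≤ ((3 * X : ℕ) : ℝ) * (3 * (1 + Real.log X)) ^ 3 :=
          mul_le_mul_of_nonneg_left r2 (Nat.cast_nonneg _)
      _ = 3 * (X : ℝ) * (3 * (1 + Real.log X)) ^ 3 := by push_cast; ring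
  have s2 : 0 ≤ ∑ m ∈ Icc 1 (3 * X), (tau m) ^ 2 := Finset.sum_nonneg fun m _ => sq_nonneg _
  calc ∑ n ∈ (zs X).erase a, vX X n * (gg R Q c (n - a)) ^ 2
      ≤ ∑ n ∈ (zs X).erase a, M ^ 2 * (tau (n - a).natAbs) ^ 2 := Finset.sum_le_sum e1
    _ = M ^ 2 * ∑ n ∈ (zs X).erase a, (tau (n - a).natAbs) ^ 2 := by rw [Finset.mul_sum]
    _ ≤ M ^ 2 * (2 * ∑ m ∈ Icc 1 (3 * X), (tau m) ^ 2) := mul_le_mul_of_nonneg_left e2 (sq_nonneg _)
    _ ≤ (4 * (1 + Real.log X)) ^ 2 * (2 * (3 * (X : ℝ) * (3 * (1 + Real.log X)) ^ 3)) :=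
        mul_le_mul r1 (by linarith) (by linarith) (sq_nonneg _)
    _ = 2592 * (X * (1 + Real.log X) ^ 5) := by ring

end Pool.Agent.Lib.KF
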