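import Pool.Agent.Lib.KF.SpecF

namespace Pool.Agent.Lib.KF

open Finset Pool.Agent.Lib.EH3 Pool.Agent.Results.MP_00e23e_nt

private lemma Dyd_two {x : ℝ} (hx : Real.exp 10000 ≤ x) : 2 ≤ x ^ ((1 : ℝ) / 10000) := by
  have h1 : (2 : ℝ) ≤ Real.exp 1 := by
    have := Real.add_one_le_exp (1 : ℝ)
    linarith
  have h2 : Real.exp 1 = (Real.exp 10000) ^ ((1 : ℝ) / 10000) := by
    rw [← Real.exp_mul]
    norm_num
  calc (2 : ℝ) ≤ Real.exp 1 := h1
    _ = (Real.exp 10000) ^ ((1 : ℝ) / 10000) := h2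
    _ ≤ x ^ ((1 : ℝ) / 10000) := Real.rpow_le_rpow (Real.exp_pos _).le hx (by norm_num)

private lemma Dyd_small {x : ℝ} (hx : Real.exp 10000 ≤ x) {j : ℕ}
    (h : x ^ ((4995 : ℝ) / 10000) < x ^ ((501 : ℝ) / 1000) / 2 ^ j) :
    ((j + 1 : ℕ) : ℝ) ≤ Real.log x := by
  have hx0 : 0 < x := lt_of_lt_of_le (Real.exp_pos _) hx
  have hlog : 10000 ≤ Real.log x := by
    rw [Real.le_log_iff_exp_le hx0]
    exact hx
  rw [lt_div_iff₀ (by positivity)] at h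
  have hsplit : x ^ ((501 : ℝ) / 1000) = x ^ ((4995 : ℝ) / 10000) * x ^ ((15 : ℝ) / 10000) := by
    rw [← Real.rpow_add hx0]
    norm_num
  rw [hsplit] at h
  have h2 : (2 : ℝ) ^ j < x ^ ((15 : ℝ) / 10000) :=
    lt_of_mul_lt_mul_left h (Real.rpow_pos_of_pos hx0 _).le
  have h3 := Real.log_lt_log (by positivity) h2
  rw [Real.log_pow, Real.log_rpow hx0] at h3
  have hl2 := Real.log_two_gt_d9
  have hj : (0 : ℝ) ≤ (j : ℝ) := Nat.cast_nonneg _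
  push_cast
  nlinarith

private lemma Dyd_lower {x : ℝ} (hx : Real.exp 10000 ≤ x) {i : ℕ}
    (h : x ^ ((4995 : ℝ) / 10000) < x ^ ((501 : ℝ) / 1000) / 2 ^ i) :
    (⌊x⌋₊ : ℝ) ^ ((499 : ℝ) / 1000) ≤ x ^ ((501 : ℝ) / 1000) / 2 ^ (i + 1) := by
  have hx0 : 0 < x := lt_of_lt_of_le (Real.exp_pos _) hx
  have hx1 : 1 ≤ x := by
    have := Real.add_one_le_exp (10000 : ℝ)
    linarith
  have h1 : (⌊x⌋₊ : ℝ) ^ ((499 : ℝ) / 1000) ≤ x ^ ((499 : ℝ) / 1000) :=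
    Real.rpow_le_rpow (Nat.cast_nonneg _) (Nat.floor_le hx0.le) (by norm_num)
  have h2 : x ^ ((4995 : ℝ) / 10000) = x ^ ((499 : ℝ) / 1000) * x ^ ((5 : ℝ) / 10000) := by
    rw [← Real.rpow_add hx0]
    norm_num
  have h3 : 2 ≤ x ^ ((5 : ℝ) / 10000) :=
    le_trans (Dyd_two hx) (Real.rpow_le_rpow_of_exponent_le hx1 (by norm_num))
  have h4 : x ^ ((501 : ℝ) / 1000) / 2 ^ (i + 1) = x ^ ((501 : ℝ) / 1000) / 2 ^ i / 2 := by
    rw [pow_succ, div_div]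
  have h5 : 0 < x ^ ((499 : ℝ) / 1000) := Real.rpow_pos_of_pos hx0 _
  rw [h4]
  rw [h2] at h
  nlinarith

private lemma Dyd_upper {x : ℝ} (hx : Real.exp 10000 ≤ x) (i : ℕ) :
    x ^ ((501 : ℝ) / 1000) / 2 ^ (i + 1) ≤ (⌊x⌋₊ : ℝ) ^ ((5011 : ℝ) / 10000) := by
  have hx0 : 0 < x := lt_of_lt_of_le (Real.exp_pos _) hx
  have hx2 : 2 ≤ x := by
    have := Real.add_one_le_exp (10000 : ℝ)
    linarith
  have hy0 : 0 < x ^ ((501 : ℝ) / 1000) := Real.rpow_pos_of_pos hx0 _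
  have hfl : x / 2 ≤ (⌊x⌋₊ : ℝ) := by
    have := Nat.lt_floor_add_one x
    linarith
  have h1 : x ^ ((501 : ℝ) / 1000) / 2 ^ (i + 1) ≤ x ^ ((501 : ℝ) / 1000) :=
    div_le_self hy0.le (one_le_pow₀ (by norm_num))
  have h2 : (x / 2) ^ ((5011 : ℝ) / 10000) ≤ (⌊x⌋₊ : ℝ) ^ ((5011 : ℝ) / 10000) :=
    Real.rpow_le_rpow (by positivity) hfl (by norm_num)
  have h3 : x ^ ((501 : ℝ) / 1000) ≤ (x / 2) ^ ((5011 : ℝ) / 10000) := by
    rw [Real.div_rpow hx0.le (by norm_num), le_div_iff₀ (by positivity)]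
    have h4 : x ^ ((5011 : ℝ) / 10000) = x ^ ((501 : ℝ) / 1000) * x ^ ((1 : ℝ) / 10000) := by
      rw [← Real.rpow_add hx0]
      norm_num
    have h5 : (2 : ℝ) ^ ((5011 : ℝ) / 10000) ≤ 2 := by
      calc (2 : ℝ) ^ ((5011 : ℝ) / 10000) ≤ 2 ^ (1 : ℝ) :=
            Real.rpow_le_rpow_of_exponent_le (by norm_num) (by norm_num)
        _ = 2 := Real.rpow_one _
    rw [h4]
    exact mul_le_mul_of_nonneg_left (h5.trans (Dyd_two hx)) hy0.le
  linarith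

theorem tDyd : DydStmt := by
  refine ⟨Real.exp 10000, ?_, ?_⟩
  · have := Real.add_one_le_exp (10000 : ℝ)
    linarith
  intro x hx
  have hx0 : 0 < x := lt_of_lt_of_le (Real.exp_pos _) hx
  have hx1 : 1 ≤ x := by
    have := Real.add_one_le_exp (10000 : ℝ)
    linarith
  have hlog : 10000 ≤ Real.log x := by
    rw [Real.le_log_iff_exp_le hx0]
    exact hx
  have hypos : 0 < x ^ ((501 : ℝ) / 1000) := Real.rpow_pos_of_pos hx0 _
  have hex : ∃ I : ℕ, x ^ ((501 : ℝ) / 1000) / 2 ^ I ≤ x ^ ((4995 : ℝ) / 10000) := by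
    obtain ⟨n, hn⟩ := pow_unbounded_of_one_lt (x ^ ((501 : ℝ) / 1000)) (by norm_num : (1 : ℝ) < 2)
    refine ⟨n, ?_⟩
    have h1 : (1 : ℝ) ≤ x ^ ((4995 : ℝ) / 10000) := Real.one_le_rpow hx1 (by norm_num)
    have h2 : (0 : ℝ) < 2 ^ n := by positivity
    rw [div_le_iff₀ h2]
    nlinarith
  classical
  have hI := Nat.find_spec hex
  have hmin : ∀ i < Nat.find hex, x ^ ((4995 : ℝ) / 10000) < x ^ ((501 : ℝ) / 1000) / 2 ^ i :=
    fun i hi => not_le.mp (Nat.find_min hex hi)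
  generalize Nat.find hex = I at hI hmin
  refine ⟨I, ?_, ?_, ?_⟩
  · rcases I with _ | j
    · simp only [Nat.cast_zero]
      linarith
    · exact Dyd_small hx (hmin j (Nat.lt_succ_self j))
  · intro i hi
    exact ⟨Dyd_lower hx (hmin i hi), Dyd_upper hx i⟩
  · intro d hd
    rw [mem_Icc] at hd
    have hdy : (d : ℝ) ≤ x ^ ((501 : ℝ) / 1000) := (Nat.le_floor_iff hypos.le).1 hd.2
    by_cases hc : (d : ℝ) ≤ x ^ ((501 : ℝ) / 1000) / 2 ^ I
    · left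
      rw [mem_Icc]
      refine ⟨hd.1, Nat.le_floor ?_⟩
      calc (d : ℝ) ≤ x ^ ((501 : ℝ) / 1000) / 2 ^ I := hc
        _ ≤ x ^ ((4995 : ℝ) / 10000) := hI
        _ ≤ x ^ ((4996 : ℝ) / 10000) := Real.rpow_le_rpow_of_exponent_le hx1 (by norm_num)
    · right
      push Not at hc
      have hex2 : ∃ m : ℕ, x ^ ((501 : ℝ) / 1000) / 2 ^ m < (d : ℝ) := ⟨I, hc⟩
      have hs := Nat.find_spec hex2
      have hm := fun i => @Nat.find_min _ _ hex2 i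
      have hle := Nat.find_min' hex2 hc
      generalize Nat.find hex2 = m at hs hm hle
      rcases m with _ | i
      · simp only [pow_zero, div_one] at hs
        exact absurd hs (not_lt.mpr hdy)
      · refine ⟨i, by omega, ?_⟩
        have h1 := hm i (Nat.lt_succ_self i)
        rw [mem_dy (by positivity)]
        refine ⟨hs, ?_⟩
        have h2 : 2 * (x ^ ((501 : ℝ) / 1000) / 2 ^ (i + 1)) = x ^ ((501 : ℝ) / 1000) / 2 ^ i := by
          rw [pow_succ]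
          field_simp
        rw [h2]
        exact not_lt.mp h1

end Pool.Agent.Lib.KF
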