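import Pool.Agent.Lib.KF.SpecB

/-!
MP_00e23e_nt, directory Lib/KF: the equation DD = 0.
-/

namespace Pool.Agent.Lib.KF

open Finset Pool.Agent.Lib.EH3

private lemma Dza_nd {p q : ℕ} (hp : p.Prime) (hq : q.Prime) (h : p ≠ q) : ¬ (p : ℤ) ∣ (q : ℤ) := by
  intro h1
  exact h ((Nat.prime_dvd_prime_iff_eq hp hq).1 (Int.natCast_dvd_natCast.1 h1))

private lemma Dza_dvd {p q a b : ℕ} {k : ℤ} (hp : p.Prime) (hq : q.Prime) (ha : a.Prime)
    (hb : b.Prime) (h1 : p ≠ q) (h2 : p ≠ a) (h3 : p ≠ b)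
    (h : (p : ℤ) ∣ k * ((p : ℤ) - q) * a * b) : (p : ℤ) ∣ k := by
  have hP : Prime (p : ℤ) := Nat.prime_iff_prime_int.1 hp
  rcases hP.dvd_or_dvd h with h4 | h4
  · rcases hP.dvd_or_dvd h4 with h5 | h5
    · rcases hP.dvd_or_dvd h5 with h6 | h6
      · exact h6
      · exfalso
        have h7 : (p : ℤ) ∣ (q : ℤ) := by
          have h8 := dvd_sub (dvd_refl (p : ℤ)) h6
          rwa [sub_sub_cancel] at h8
        exact Dza_nd hp hq h1 h7
    · exact absurd h5 (Dza_nd hp ha h2)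
  · exact absurd h4 (Dza_nd hp hb h3)

private lemma Dza_quot {L l : ℕ} {k : ℤ} (hl : L < l) (hk : |k| ≤ 4 * (L : ℤ))
    (h : (l : ℤ) ∣ k) : ∃ κ ∈ Finset.Icc (-3 : ℤ) 3, k = l * κ := by
  obtain ⟨κ, rfl⟩ := h
  refine ⟨κ, ?_, rfl⟩
  rw [Finset.mem_Icc]
  have h1 := abs_le.1 hk
  have h2 : (L : ℤ) < l := by exact_mod_cast hl
  have h3 : (0 : ℤ) ≤ L := Int.natCast_nonneg L
  constructor
  · by_contra h4
    have h5 : κ ≤ -4 := by omega
    nlinarith
  · by_contra h4
    have h5 : 4 ≤ κ := by omega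
    nlinarith

/-- one common prime r -/
private lemma Dza_core {L r l l' : ℕ} {k k' : ℤ} (hr : r ∈ prl L) (hl : l ∈ prl L)
    (hl' : l' ∈ prl L) (h1 : l ≠ r) (h2 : l' ≠ r) (h3 : l ≠ l') (hk : |k| ≤ 4 * (L : ℤ))
    (hk' : |k'| ≤ 4 * (L : ℤ))
    (h : k * ((l : ℤ) - r) * r * l' = k' * ((l' : ℤ) - r) * r * l ∨
      k * ((l : ℤ) - r) * r * l' = -(k' * ((l' : ℤ) - r) * r * l)) :
    (∃ κ ∈ Finset.Icc (-3 : ℤ) 3, k = l * κ) ∧ ∃ κ' ∈ Finset.Icc (-3 : ℤ) 3, k' = l' * κ' := by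
  rw [mem_prl] at hr hl hl'
  refine ⟨Dza_quot hl.1 hk ?_, Dza_quot hl'.1 hk' ?_⟩
  · refine Dza_dvd hl.2.2 hr.2.2 hr.2.2 hl'.2.2 h1 h1 h3 ?_
    rcases h with h | h
    · rw [h]
      exact Dvd.intro_left _ rfl
    · rw [h]
      exact (Dvd.intro_left _ rfl : (l : ℤ) ∣ k' * ((l' : ℤ) - r) * r * l).neg_right
  · refine Dza_dvd hl'.2.2 hr.2.2 hr.2.2 hl.2.2 h2 h2 h3.symm ?_
    rcases h with h | h
    · rw [← h]
      exact Dvd.intro_left _ rfl
    · have h4 : k' * ((l' : ℤ) - r) * r * l = -(k * ((l : ℤ) - r) * r * l') := by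
        rw [h, neg_neg]
      rw [h4]
      exact (Dvd.intro_left _ rfl : (l' : ℤ) ∣ k * ((l : ℤ) - r) * r * l').neg_right

theorem tDza : DzaStmt := by
  rintro L ⟨a, b, k⟩ ⟨a', b', k'⟩ hL ht hu hD
  obtain ⟨ha, hb, hk, hab, hk0⟩ := mem_tup.1 ht
  obtain ⟨ha', hb', hk', hab', hk0'⟩ := mem_tup.1 hu
  simp only at ha hb hk hab hk0 ha' hb' hk' hab' hk0'
  unfold DD at hD
  simp only at hD
  have e : k * ((a : ℤ) - b) * a' * b' = k' * ((a' : ℤ) - b') * a * b := by
    linear_combination hD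
  have pa := mem_prl.1 ha
  have pb := mem_prl.1 hb
  have pa' := mem_prl.1 ha'
  have pb' := mem_prl.1 hb'
  have na : (a : ℤ) ≠ 0 := by have := pa.2.2.pos; positivity
  have nb : (b : ℤ) ≠ 0 := by have := pb.2.2.pos; positivity
  have nab : (a : ℤ) - b ≠ 0 := by
    intro h
    exact hab (by exact_mod_cast sub_eq_zero.1 h)
  by_cases h1 : a = a'
  · subst h1
    by_cases h2 : b = b'
    · subst h2
      left
      have h3 : k = k' := by
        have h4 : (k - k') * (((a : ℤ) - b) * a * b) = 0 := by linear_combination e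
        rcases mul_eq_zero.1 h4 with h5 | h5
        · linarith
        · exact absurd h5 (mul_ne_zero (mul_ne_zero nab na) nb)
      rw [h3]
    · right; right
      obtain ⟨⟨κ, hκ, e1⟩, ⟨κ', hκ', e2⟩⟩ := Dza_core ha hb hb' (Ne.symm hab) (Ne.symm hab') h2 hk hk'
        (Or.inl (by linear_combination -e))
      exact ⟨a, b, b', κ, κ', ha, hb, hb', Ne.symm hab, Ne.symm hab', hκ, hκ',
        Or.inr (by rw [e1]), Or.inr (by rw [e2])⟩
  · by_cases h2 : a = b'
    · subst h2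
      by_cases h3 : b = a'
      · subst h3
        right; left
        have h4 : k' = -k := by
          have h4 : (k + k') * (((a : ℤ) - b) * a * b) = 0 := by linear_combination e
          rcases mul_eq_zero.1 h4 with h5 | h5
          · linarith
          · exact absurd h5 (mul_ne_zero (mul_ne_zero nab na) nb)
        rw [h4]
      · right; right
        obtain ⟨⟨κ, hκ, e1⟩, ⟨κ', hκ', e2⟩⟩ := Dza_core ha hb ha' (Ne.symm hab) hab' h3 hk hk'
          (Or.inr (by linear_combination -e))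
        exact ⟨a, b, a', κ, κ', ha, hb, ha', Ne.symm hab, hab', hκ, hκ',
          Or.inr (by rw [e1]), Or.inl (by rw [e2])⟩
    · by_cases h3 : b = a'
      · subst h3
        right; right
        obtain ⟨⟨κ, hκ, e1⟩, ⟨κ', hκ', e2⟩⟩ := Dza_core hb ha hb' hab (Ne.symm hab') h2 hk hk'
          (Or.inr (by linear_combination e))
        exact ⟨b, a, b', κ, κ', hb, ha, hb', hab, Ne.symm hab', hκ, hκ',
          Or.inl (by rw [e1]), Or.inr (by rw [e2])⟩
      · by_cases h4 : b = b'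
        · subst h4
          right; right
          obtain ⟨⟨κ, hκ, e1⟩, ⟨κ', hκ', e2⟩⟩ := Dza_core hb ha ha' hab hab' h1 hk hk'
            (Or.inl (by linear_combination e))
          exact ⟨b, a, a', κ, κ', hb, ha, ha', hab, hab', hκ, hκ',
            Or.inl (by rw [e1]), Or.inl (by rw [e2])⟩
        · exfalso
          have d1 : (a : ℤ) ∣ k := by
            refine Dza_dvd pa.2.2 pb.2.2 pa'.2.2 pb'.2.2 hab h1 h2 ?_
            rw [e]
            exact ⟨k' * ((a' : ℤ) - b') * b, by ring⟩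
          have d2 : (b : ℤ) ∣ k := by
            refine Dza_dvd pb.2.2 pa.2.2 pa'.2.2 pb'.2.2 (Ne.symm hab) h3 h4 ?_
            have e' : k * ((b : ℤ) - a) * a' * b' = -(k' * ((a' : ℤ) - b') * a * b) := by
              linear_combination -e
            rw [e']
            exact ⟨-(k' * ((a' : ℤ) - b') * a), by ring⟩
          have hc : IsCoprime (a : ℤ) (b : ℤ) :=
            Nat.isCoprime_iff_coprime.2 ((Nat.coprime_primes pa.2.2 pb.2.2).2 hab)
          have d3 := hc.mul_dvd d1 d2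
          have h5 : (a : ℤ) * b ≤ |k| := Int.le_of_dvd (abs_pos.2 hk0) ((dvd_abs _ _).2 d3)
          have h6 : (L : ℤ) < a := by exact_mod_cast pa.1
          have h7 : (L : ℤ) < b := by exact_mod_cast pb.1
          have h8 : (5 : ℤ) ≤ L := by exact_mod_cast hL
          nlinarith

end Pool.Agent.Lib.KF
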