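import Pool.Agent.Lib.KF.SpecB

namespace Pool.Agent.Lib.KF

open Finset Pool.Agent.Lib.EH3

private lemma Dzb_fiber (Q E : ℝ) (L m1 m2 : ℕ) (hQ : 1 ≤ Q) (hm1 : m1 ∈ dy Q) (hm2 : m2 ∈ dy Q)
    (hDB : DB (4 * L * Q) E) (hE : 0 ≤ E) (S : Finset (ℕ × ℕ × ℤ))
    (hS : ∀ t ∈ S, t ∈ tup L ∧ okt Q t m1 m2) (w : ℕ × ℕ) :
    ((S.filter (fun t => (t.1, t.2.1) = w)).card : ℝ) ≤ E := by
  obtain ⟨l1, l2⟩ := w
  rcases Finset.eq_empty_or_nonempty (S.filter (fun t => (t.1, t.2.1) = (l1, l2))) with h0 | ⟨t0, ht0⟩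
  · rw [h0]
    simpa using hE
  -- facts on every element
  have hel : ∀ t ∈ S.filter (fun t => (t.1, t.2.1) = (l1, l2)),
      t.1 = l1 ∧ t.2.1 = l2 ∧ (l1 : ℤ) * m1 - l2 * m2 = t.2.2 * nq t m1 m2 ∧ 1 ≤ nq t m1 m2 ∧
        t.2.2 ≠ 0 := by
    intro t ht
    rw [Finset.mem_filter, Prod.mk.injEq] at ht
    obtain ⟨ht1, ht2, ht3⟩ := ht
    obtain ⟨ht4, hok⟩ := hS t ht1
    obtain ⟨hd, hn1, hn2, -, -⟩ := hok
    refine ⟨ht2, ht3, ?_, ?_, ((mem_tup).1 ht4).2.2.2.2⟩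
    · rw [← ht2, ← ht3]
      unfold nq
      rw [Int.mul_ediv_cancel' hd]
    · have : (0 : ℝ) < (nq t m1 m2 : ℝ) := by linarith
      have h5 : 0 < nq t m1 m2 := by exact_mod_cast this
      omega
  obtain ⟨ht01, ht02, ht03, ht04, ht05⟩ := hel t0 ht0
  set N : ℤ := (l1 : ℤ) * m1 - l2 * m2 with hN
  have hN0 : N ≠ 0 := by
    rw [ht03]
    exact mul_ne_zero ht05 (by omega)
  have hNabs1 : 1 ≤ N.natAbs := by
    have := Int.natAbs_pos.2 hN0
    omega
  -- the size of N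
  have hL1 : (l1 : ℝ) ≤ 2 * L ∧ (l2 : ℝ) ≤ 2 * L := by
    rw [Finset.mem_filter] at ht0
    obtain ⟨ht4, -⟩ := hS t0 ht0.1
    obtain ⟨a1, a2, -⟩ := (mem_tup).1 ht4
    rw [ht01] at a1
    rw [ht02] at a2
    constructor
    · exact_mod_cast (mem_prl.1 a1).2.1
    · exact_mod_cast (mem_prl.1 a2).2.1
  have hQ0 : (0 : ℝ) ≤ Q := by linarith
  have b1 := (mem_dy hQ0).1 hm1
  have b2 := (mem_dy hQ0).1 hm2
  have hNle : (N.natAbs : ℝ) ≤ 4 * L * Q := by
    have e1 : (N.natAbs : ℝ) = |(l1 : ℝ) * m1 - l2 * m2| := by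
      rw [Nat.cast_natAbs, hN]
      push_cast
      rfl
    rw [e1, abs_le]
    have c1 : (l1 : ℝ) * m1 ≤ (2 * L) * (2 * Q) :=
      mul_le_mul hL1.1 b1.2 (by positivity) (by positivity)
    have c2 : (l2 : ℝ) * m2 ≤ (2 * L) * (2 * Q) :=
      mul_le_mul hL1.2 b2.2 (by positivity) (by positivity)
    have c3 : (0 : ℝ) ≤ (l1 : ℝ) * m1 := by positivity
    have c4 : (0 : ℝ) ≤ (l2 : ℝ) * m2 := by positivity
    constructor <;> nlinarith
  have hτ := hDB N.natAbs hNabs1 hNle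
  refine le_trans ?_ hτ
  have hcard : (S.filter (fun t => (t.1, t.2.1) = (l1, l2))).card ≤ N.natAbs.divisors.card := by
    refine Finset.card_le_card_of_injOn (fun t => (nq t m1 m2).toNat) ?_ ?_
    · intro t ht
      obtain ⟨_, _, h3, h4, _⟩ := hel t ht
      simp only [Finset.mem_coe, Nat.mem_divisors]
      refine ⟨?_, by omega⟩
      have h6 : ((nq t m1 m2).toNat : ℤ) ∣ N := by
        rw [Int.toNat_of_nonneg (by omega), h3]
        exact dvd_mul_left _ _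
      exact Int.natCast_dvd.1 h6
    · intro t ht u hu htu
      obtain ⟨t1, t2, t3, t4, _⟩ := hel t ht
      obtain ⟨u1, u2, u3, u4, _⟩ := hel u hu
      simp only at htu
      have h7 : nq t m1 m2 = nq u m1 m2 := by
        have h8 : ((nq t m1 m2).toNat : ℤ) = ((nq u m1 m2).toNat : ℤ) := by rw [htu]
        rwa [Int.toNat_of_nonneg (by omega), Int.toNat_of_nonneg (by omega)] at h8
      have h9 : t.2.2 = u.2.2 := by
        have h10 : t.2.2 * nq t m1 m2 = u.2.2 * nq t m1 m2 := by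
          rw [← t3, h7, ← u3]
        exact mul_right_cancel₀ (by omega) h10
      refine Prod.ext (by rw [t1, u1]) (Prod.ext (by rw [t2, u2]) h9)
  unfold tau
  exact_mod_cast hcard

theorem tDzb : DzbStmt := by
  intro Q E L m1 m2 hQ hm1 hm2 hDB S hS
  rcases Finset.eq_empty_or_nonempty (prl L) with h0 | ⟨l, hl⟩
  · have hS0 : S = ∅ := by
      rw [Finset.eq_empty_iff_forall_notMem]
      intro t ht
      have h1 := ((mem_tup).1 (hS t ht).1).1
      rw [h0] at h1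
      exact absurd h1 (Finset.notMem_empty _)
    rw [hS0, h0]
    simp
  have hL : 1 ≤ L := by
    have h1 := mem_prl.1 hl
    omega
  have hLr : (1 : ℝ) ≤ (L : ℝ) := by exact_mod_cast hL
  have hE : 0 ≤ E := by
    have h1 := hDB 1 le_rfl (by push_cast; nlinarith)
    have h2 : (0 : ℝ) ≤ tau 1 := by
      unfold tau
      positivity
    linarith
  have hmaps : ∀ t ∈ S, (t.1, t.2.1) ∈ prl L ×ˢ prl L := by
    intro t ht
    have h1 := (mem_tup).1 (hS t ht).1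
    rw [Finset.mem_product]
    exact ⟨h1.1, h1.2.1⟩
  rw [Finset.card_eq_sum_card_fiberwise (f := fun t : ℕ × ℕ × ℤ => (t.1, t.2.1))
    (t := prl L ×ˢ prl L) (fun t ht => hmaps t ht)]
  push_cast
  calc ∑ w ∈ prl L ×ˢ prl L, ((S.filter (fun t => (t.1, t.2.1) = w)).card : ℝ)
      ≤ ∑ w ∈ prl L ×ˢ prl L, E :=
        Finset.sum_le_sum (fun w _ => Dzb_fiber Q E L m1 m2 hQ hm1 hm2 hDB hE S hS w)
    _ = ((prl L).card : ℝ) ^ 2 * E := by
        rw [Finset.sum_const, Finset.card_product, nsmul_eq_mul]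
        push_cast
        ring

end Pool.Agent.Lib.KF
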