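import Pool.Agent.Lib.KF.SpecB

/-!
MP_00e23e_nt, directory Lib/KF: pairs of triples of the third kind.
-/

namespace Pool.Agent.Lib.KF

open Finset Pool.Agent.Lib.EH3

private lemma Dzc_le {Q : ℝ} {L m : ℕ} (hQ : 1 ≤ Q) (hL : 5 ≤ L)
    (h : 4 * L * Q ≤ (L : ℝ) ^ 40) (hm : m ∈ dy Q) : 1 ≤ m ∧ m ≤ L ^ 40 := by
  rw [mem_dy (by linarith)] at hm
  have h1 : (5 : ℝ) ≤ L := by exact_mod_cast hL
  constructor
  · have h2 : (0 : ℝ) < m := by linarith [hm.1]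
    exact_mod_cast h2
  · have h2 : (m : ℝ) ≤ (L : ℝ) ^ 40 := by
      refine hm.2.trans (le_trans ?_ h)
      nlinarith
    exact_mod_cast h2

private lemma Dzc_nd {p q : ℕ} (hp : p.Prime) (hq : q.Prime) (h : p ≠ q) :
    ¬ (p : ℤ) ∣ (q : ℤ) := by
  intro h1
  exact h ((Nat.prime_dvd_prime_iff_eq hp hq).1 (Int.natCast_dvd_natCast.1 h1))

private lemma Dzc_mem {Q : ℝ} {L m1 m2 r l : ℕ} {κ : ℤ} {t : ℕ × ℕ × ℤ} (hr : r ∈ prl L)
    (hl : l ∈ prl L) (hlr : l ≠ r) (ht : t = (l, r, l * κ) ∨ t = (r, l, l * κ))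
    (hok : okt Q t m1 m2) :
    l ∈ (prl L).filter (fun l => l ∣ m1) ∪ (prl L).filter (fun l => l ∣ m2) := by
  have pr := (mem_prl.1 hr).2.2
  have pl := (mem_prl.1 hl).2.2
  have hP : Prime (l : ℤ) := Nat.prime_iff_prime_int.1 pl
  rw [Finset.mem_union, Finset.mem_filter, Finset.mem_filter]
  rcases ht with rfl | rfl
  · right
    refine ⟨hl, ?_⟩
    have h1 : (l : ℤ) * κ ∣ (l : ℤ) * m1 - r * m2 := hok.1
    have h2 : (l : ℤ) ∣ (l : ℤ) * m1 - r * m2 := (Dvd.intro _ rfl).trans h1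
    have h3 : (l : ℤ) ∣ (r : ℤ) * m2 := by
      have h4 := dvd_sub (Dvd.intro (m1 : ℤ) rfl : (l : ℤ) ∣ (l : ℤ) * m1) h2
      rwa [sub_sub_cancel] at h4
    rcases hP.dvd_or_dvd h3 with h4 | h4
    · exact absurd h4 (Dzc_nd pl pr hlr)
    · exact Int.natCast_dvd_natCast.1 h4
  · left
    refine ⟨hl, ?_⟩
    have h1 : (l : ℤ) * κ ∣ (r : ℤ) * m1 - l * m2 := hok.1
    have h2 : (l : ℤ) ∣ (r : ℤ) * m1 - l * m2 := (Dvd.intro _ rfl).trans h1
    have h3 : (l : ℤ) ∣ (r : ℤ) * m1 := by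
      have h4 := dvd_add h2 (Dvd.intro (m2 : ℤ) rfl : (l : ℤ) ∣ (l : ℤ) * m2)
      rwa [sub_add_cancel] at h4
    rcases hP.dvd_or_dvd h3 with h4 | h4
    · exact absurd h4 (Dzc_nd pl pr hlr)
    · exact Int.natCast_dvd_natCast.1 h4

private def Dzc_f (x : ℕ × (ℕ × ℕ) × (ℤ × ℤ) × (Bool × Bool)) :
    (ℕ × ℕ × ℤ) × (ℕ × ℕ × ℤ) :=
  (if x.2.2.2.1 then (x.2.1.1, x.1, x.2.1.1 * x.2.2.1.1) else (x.1, x.2.1.1, x.2.1.1 * x.2.2.1.1),
    if x.2.2.2.2 then (x.2.1.2, x.1, x.2.1.2 * x.2.2.1.2) else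
      (x.1, x.2.1.2, x.2.1.2 * x.2.2.1.2))

theorem tDzc (h1 : PdlStmt) : DzcStmt := by
  intro Q L m1 m2 hQ hL hLQ hm1 hm2 S hS
  obtain ⟨a1, a2⟩ := Dzc_le hQ hL hLQ hm1
  obtain ⟨b1, b2⟩ := Dzc_le hQ hL hLQ hm2
  have c1 := h1 L m1 40 (by omega) a1 a2
  have c2 := h1 L m2 40 (by omega) b1 b2
  set B := (prl L).filter (fun l => l ∣ m1) ∪ (prl L).filter (fun l => l ∣ m2) with hB
  have hBc : B.card ≤ 80 := (Finset.card_union_le _ _).trans (by omega)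
  have hsub : S ⊆ ((prl L) ×ˢ ((B ×ˢ B) ×ˢ (((Finset.Icc (-3 : ℤ) 3) ×ˢ (Finset.Icc (-3 : ℤ) 3)) ×ˢ
      ((Finset.univ : Finset Bool) ×ˢ (Finset.univ : Finset Bool))))).image Dzc_f := by
    rintro ⟨t, u⟩ hw
    obtain ⟨ht, hu, okt1, oku, r, l, l', κ, κ', hr, hl, hl', hlr, hlr', hκ, hκ', e1, e2⟩ := hS _ hw
    rw [Finset.mem_image]
    have m1' := Dzc_mem hr hl hlr e1 okt1
    have m2' := Dzc_mem hr hl' hlr' e2 oku
    simp only at e1 e2
    rcases e1 with rfl | rfl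
    · rcases e2 with rfl | rfl
      · refine ⟨(r, (l, l'), (κ, κ'), (true, true)), ?_, rfl⟩
        simp only [Finset.mem_product, Finset.mem_univ, and_true]
        exact ⟨hr, ⟨m1', m2'⟩, hκ, hκ'⟩
      · refine ⟨(r, (l, l'), (κ, κ'), (true, false)), ?_, rfl⟩
        simp only [Finset.mem_product, Finset.mem_univ, and_true]
        exact ⟨hr, ⟨m1', m2'⟩, hκ, hκ'⟩
    · rcases e2 with rfl | rfl
      · refine ⟨(r, (l, l'), (κ, κ'), (false, true)), ?_, rfl⟩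
        simp only [Finset.mem_product, Finset.mem_univ, and_true]
        exact ⟨hr, ⟨m1', m2'⟩, hκ, hκ'⟩
      · refine ⟨(r, (l, l'), (κ, κ'), (false, false)), ?_, rfl⟩
        simp only [Finset.mem_product, Finset.mem_univ, and_true]
        exact ⟨hr, ⟨m1', m2'⟩, hκ, hκ'⟩
  have h2 : S.card ≤ (prl L).card * ((B.card * B.card) * ((7 * 7) * (2 * 2))) := by
    refine (Finset.card_le_card hsub).trans (Finset.card_image_le.trans ?_)
    rw [Finset.card_product, Finset.card_product, Finset.card_product, Finset.card_product,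
      Finset.card_product, Finset.card_product]
    have e1 : (Finset.Icc (-3 : ℤ) 3).card = 7 := rfl
    have e2 : (Finset.univ : Finset Bool).card = 2 := rfl
    rw [e1, e2]
  have h3 : S.card ≤ 1254400 * (prl L).card := by
    have h4 : B.card * B.card ≤ 80 * 80 := Nat.mul_le_mul hBc hBc
    calc S.card ≤ (prl L).card * ((B.card * B.card) * ((7 * 7) * (2 * 2))) := h2
      _ ≤ (prl L).card * ((80 * 80) * ((7 * 7) * (2 * 2))) :=
        Nat.mul_le_mul_left _ (Nat.mul_le_mul_right _ h4)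
      _ = 1254400 * (prl L).card := by ring
  exact_mod_cast h3

end Pool.Agent.Lib.KF
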