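import Pool.Agent.Lib.KF.SpecK

/-!
MP_00e23e_nt, directory Lib/KF, module Em: additive characters modulo q.
-/

namespace Pool.Agent.Lib.KF

open Finset Pool.Agent.Lib.EH3

private lemma Em_int {q : ℕ} (k : ℤ) (hq : 1 ≤ q) : em q (k : ZMod q) = ee ((k : ℝ) / q) := by
  have : NeZero q := ⟨by omega⟩
  unfold em
  have h1 : (((k : ZMod q).val : ℕ) : ℤ) = k % q := ZMod.val_intCast k
  have h2 : (k : ℤ) = k % q + q * (k / q) := (Int.emod_add_mul_ediv k q).symm
  have hq' : (q : ℝ) ≠ 0 := by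
    have : (0 : ℝ) < q := by exact_mod_cast hq
    exact this.ne'
  have h3 : (k : ℝ) / q = (((k : ZMod q).val : ℕ) : ℝ) / q + ((k / q : ℤ) : ℝ) := by
    have h4 : (k : ℝ) = (((k : ZMod q).val : ℕ) : ℝ) + q * ((k / q : ℤ) : ℝ) := by
      have h5 : (k : ℤ) = (((k : ZMod q).val : ℕ) : ℤ) + q * (k / q) := by rw [h1]; exact h2
      exact_mod_cast h5
    nth_rewrite 1 [h4]
    field_simp
  rw [h3, ee_add, ee_int, mul_one]

private lemma Em_cast {q : ℕ} (a : ZMod q) (hq : 1 ≤ q) : (((a.val : ℕ) : ℤ) : ZMod q) = a := by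
  have : NeZero q := ⟨by omega⟩
  rw [Int.cast_natCast, ZMod.natCast_zmod_val]

private lemma Em_add {q : ℕ} (a b : ZMod q) (hq : 1 ≤ q) :
    em q (a + b) = em q a * em q b := by
  have h : a + b = (((a.val : ℤ) + (b.val : ℤ) : ℤ) : ZMod q) := by
    rw [Int.cast_add, Em_cast a hq, Em_cast b hq]
  rw [h, Em_int _ hq]
  unfold em
  rw [← ee_add]
  congr 1
  push_cast
  ring

private lemma Em_norm {q : ℕ} (a : ZMod q) : ‖em q a‖ = 1 := norm_ee _

private lemma Em_zero (q : ℕ) : em q 0 = 1 := by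
  unfold em
  simp [ee_zero]

private lemma Em_neg {q : ℕ} (a : ZMod q) (hq : 1 ≤ q) :
    em q (-a) = (starRingEnd ℂ) (em q a) := by
  have h1 : em q (-a) * em q a = 1 := by
    rw [← Em_add _ _ hq, neg_add_cancel, Em_zero]
  have h2 : (starRingEnd ℂ) (em q a) * em q a = 1 := by
    rw [mul_comm, Complex.mul_conj, Complex.normSq_eq_norm_sq, Em_norm]
    norm_num
  have h3 : em q a ≠ 0 := by
    intro h
    have := Em_norm a
    rw [h, norm_zero] at this
    norm_num at this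
  exact mul_right_cancel₀ h3 (h1.trans h2.symm)

private lemma Em_sum {q : ℕ} [NeZero q] (b : ZMod q) :
    ∑ a : ZMod q, em q (a * b) = if b = 0 then (q : ℂ) else 0 := by
  have hq : 1 ≤ q := Nat.one_le_iff_ne_zero.2 (NeZero.ne q)
  have h1 : ∑ a : ZMod q, em q (a * b) = ∑ t ∈ range q, ee ((t : ℝ) * (((b.val : ℤ) : ℝ) / q)) := by
    symm
    refine sum_bij (fun t _ => (t : ZMod q)) (fun t _ => mem_univ _) ?_ ?_ ?_
    · intro s hs t ht h
      have h2 := congrArg ZMod.val h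
      rw [ZMod.val_natCast, ZMod.val_natCast, Nat.mod_eq_of_lt (mem_range.1 hs),
        Nat.mod_eq_of_lt (mem_range.1 ht)] at h2
      exact h2
    · intro a _
      exact ⟨a.val, mem_range.2 (ZMod.val_lt a), ZMod.natCast_zmod_val a⟩
    · intro t _
      have h2 : (t : ZMod q) * b = (((t : ℤ) * (b.val : ℤ) : ℤ) : ZMod q) := by
        rw [Int.cast_mul, Em_cast b hq, Int.cast_natCast]
      rw [h2, Em_int _ hq]
      congr 1
      push_cast
      ring
  rw [h1, orth (by omega : 0 < q)]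
  have h2 : ((q : ℤ) ∣ ((b.val : ℕ) : ℤ)) ↔ b = 0 := by
    rw [← ZMod.intCast_zmod_eq_zero_iff_dvd, Em_cast b hq]
  by_cases h : b = 0
  · rw [if_pos h, if_pos (h2.2 h)]
  · rw [if_neg h, if_neg (fun h3 => h (h2.1 h3))]

theorem tEm : EmStmt := by
  refine ⟨fun q a b hq => Em_add a b hq, Em_zero, fun q a => Em_norm a,
    fun q a hq => Em_neg a hq, fun q k hq => Em_int k hq, fun q _ b => Em_sum b, ?_, ?_, ?_⟩
  · intro q a ha
    exact ZMod.mul_inv_of_unit a ha
  · intro q c a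
    unfold ei
    split_ifs
    · exact (Em_norm _).le
    · simp
  · intro q c c' a hq
    unfold ei
    by_cases h : IsUnit a
    · rw [if_pos h, if_pos h, if_pos h, ← Em_neg _ hq, ← Em_add _ _ hq]
      congr 1
      ring
    · rw [if_neg h, if_neg h, if_neg h, zero_mul]

end Pool.Agent.Lib.KF
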