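import Pool.Agent.Lib.KF.SpecL

/-!
MP_00e23e_nt, Lib/KF, module Erp (helper16): the error term of two congruences.
-/

namespace Pool.Agent.Lib.KF

open Finset Pool.Agent.Lib.EH3

private lemma Erp_gcd_dvd (e f : ℕ) (a b n : ℤ) (h1 : (e : ℤ) ∣ n - a) (h2 : (f : ℤ) ∣ n - b) :
    ((Nat.gcd e f : ℕ) : ℤ) ∣ a - b := by
  have h3 : ((Nat.gcd e f : ℕ) : ℤ) ∣ n - a := (Int.natCast_dvd_natCast.mpr (Nat.gcd_dvd_left e f)).trans h1
  have h4 : ((Nat.gcd e f : ℕ) : ℤ) ∣ n - b := (Int.natCast_dvd_natCast.mpr (Nat.gcd_dvd_right e f)).trans h2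
  have h5 := dvd_sub h4 h3
  have h6 : n - b - (n - a) = a - b := by ring
  rwa [h6] at h5

private lemma Erp_lcm (e f : ℕ) (z : ℤ) :
    ((Nat.lcm e f : ℕ) : ℤ) ∣ z ↔ (e : ℤ) ∣ z ∧ (f : ℤ) ∣ z := by
  rw [Int.natCast_dvd, Int.natCast_dvd, Int.natCast_dvd]
  exact Nat.lcm_dvd_iff

theorem tErp (hVaq : VaqStmt) : ErpStmt := by
  intro X e f a b hX he hf
  have hsec : ¬ ((Nat.gcd e f : ℕ) : ℤ) ∣ a - b → errp X e f a b = 0 := by
    intro h
    unfold errp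
    rw [if_neg h, sub_zero]
    refine Finset.sum_eq_zero fun n _ => if_neg ?_
    rintro ⟨h1, h2⟩
    exact h (Erp_gcd_dvd e f a b n h1 h2)
  refine ⟨?_, hsec⟩
  by_cases h : ((Nat.gcd e f : ℕ) : ℤ) ∣ a - b
  · obtain ⟨t, ht⟩ := h
    have hbez : ((Nat.gcd e f : ℕ) : ℤ) = e * Nat.gcdA e f + f * Nat.gcdB e f :=
      Nat.gcd_eq_gcd_ab e f
    have hlcm : 1 ≤ Nat.lcm e f := Nat.lcm_pos he hf
    have key := hVaq X (Nat.lcm e f) (a - e * Nat.gcdA e f * t) hX hlcm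
    have hiff : ∀ n : ℤ, ((e : ℤ) ∣ n - a ∧ (f : ℤ) ∣ n - b) ↔
        ((Nat.lcm e f : ℕ) : ℤ) ∣ n - (a - e * Nat.gcdA e f * t) := by
      intro n
      rw [Erp_lcm]
      have e1 : n - (a - e * Nat.gcdA e f * t) = (n - a) + e * (Nat.gcdA e f * t) := by ring
      have e2 : n - (a - e * Nat.gcdA e f * t) = (n - b) - f * (Nat.gcdB e f * t) := by
        have h3 : a = b + (e * Nat.gcdA e f + f * Nat.gcdB e f) * t := by
          rw [← hbez, ← ht]
          ring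
        linear_combination -h3
      constructor
      · rintro ⟨h1, h2⟩
        refine ⟨?_, ?_⟩
        · rw [e1]
          exact dvd_add h1 (dvd_mul_right _ _)
        · rw [e2]
          exact dvd_sub h2 (dvd_mul_right _ _)
      · rintro ⟨h1, h2⟩
        rw [e1] at h1
        rw [e2] at h2
        refine ⟨?_, ?_⟩
        · exact (dvd_add_left (dvd_mul_right _ _)).mp h1
        · exact (dvd_sub_left (dvd_mul_right _ _)).mp h2
    have hsum : (∑ n ∈ zs X, if (e : ℤ) ∣ n - a ∧ (f : ℤ) ∣ n - b then vX X n else 0) =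
        ∑ n ∈ zs X, if ((Nat.lcm e f : ℕ) : ℤ) ∣ n - (a - e * Nat.gcdA e f * t) then vX X n else 0 := by
      refine Finset.sum_congr rfl fun n _ => ?_
      by_cases h1 : (e : ℤ) ∣ n - a ∧ (f : ℤ) ∣ n - b
      · rw [if_pos h1, if_pos ((hiff n).mp h1)]
      · rw [if_neg h1, if_neg (fun h2 => h1 ((hiff n).mpr h2))]
    have he0 : (0 : ℝ) < e := by exact_mod_cast he
    have hf0 : (0 : ℝ) < f := by exact_mod_cast hf
    have hg0 : (0 : ℝ) < (Nat.gcd e f : ℝ) := by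
      exact_mod_cast Nat.gcd_pos_of_pos_left f he
    have hl0 : (0 : ℝ) < (Nat.lcm e f : ℝ) := by exact_mod_cast hlcm
    have hgl : (Nat.gcd e f : ℝ) * (Nat.lcm e f : ℝ) = (e : ℝ) * f := by
      exact_mod_cast Nat.gcd_mul_lcm e f
    have hval : 2 * (X : ℝ) * (Nat.gcd e f : ℝ) / ((e : ℝ) * f) = 2 * (X : ℝ) / (Nat.lcm e f : ℝ) := by
      rw [← hgl]
      field_simp
    unfold errp
    rw [if_pos ⟨t, ht⟩, hsum, hval]
    exact key
  · rw [hsec h]
    simp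

end Pool.Agent.Lib.KF
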