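import Pool.Agent.Lib.KF.SpecF

/-!
MP_00e23e_nt, directory Lib/KF, module Fin: the final theorem from the dyadic blocks.
-/

namespace Pool.Agent.Lib.KF

open Finset Pool.Agent.Lib.EH3 Pool.Agent.Results.MP_00e23e_nt

private lemma Fin_biU (I : ℕ) (T : ℕ → Finset ℕ) (f : ℕ → ℝ) (hf : ∀ d, 0 ≤ f d) :
    ∑ d ∈ (range I).biUnion T, f d ≤ ∑ i ∈ range I, ∑ d ∈ T i, f d := by
  classical
  have h1 : ∀ d ∈ (range I).biUnion T, f d ≤ ∑ i ∈ range I, if d ∈ T i then f d else 0 := by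
    intro d hd
    obtain ⟨i, hi, hdi⟩ := Finset.mem_biUnion.1 hd
    have h := Finset.single_le_sum (f := fun i => if d ∈ T i then f d else 0)
      (fun j _ => by
        show 0 ≤ if d ∈ T j then f d else 0
        split_ifs
        · exact hf d
        · exact le_rfl) hi
    simpa [hdi] using h
  refine (Finset.sum_le_sum h1).trans ?_
  rw [Finset.sum_comm]
  refine Finset.sum_le_sum fun i _ => ?_
  rw [← Finset.sum_filter]
  refine Finset.sum_le_sum_of_subset_of_nonneg ?_ fun d _ _ => hf d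
  intro d hd
  exact (Finset.mem_filter.1 hd).2

private lemma Fin_abs {x : ℝ} {a : ℤ} (h : |(a : ℝ)| ≤ x) : |a| ≤ ((⌊x⌋₊ : ℕ) : ℤ) := by
  have h1 : ((a.natAbs : ℕ) : ℝ) ≤ x := by
    rw [Nat.cast_natAbs]
    push_cast
    exact h
  have h2 : a.natAbs ≤ ⌊x⌋₊ := Nat.le_floor h1
  rw [Int.abs_eq_natAbs]
  exact_mod_cast h2

theorem tFin (h1 : RseStmt) (h2 : BvzStmt) (h3 : BlkStmt) (h4 : DydStmt) : FinStmt := by
  classical
  intro U hU
  obtain ⟨C1, hC1, hB⟩ := h2 U hU
  obtain ⟨C2, x0, hC2, hx0, hK⟩ := h3 U hU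
  obtain ⟨x1, hx1, hD⟩ := h4
  refine ⟨2 * max x0 x1 + 1 + C2 + (C1 + 1), fun x hx => ?_⟩
  have hmx : 3 ≤ max x0 x1 := le_max_of_le_left hx0
  have hlog1 : 1 ≤ Real.log x := by
    have h : Real.exp 1 ≤ x := by
      have := Real.exp_one_lt_d9
      linarith
    rw [← Real.log_exp 1]
    exact Real.log_le_log (Real.exp_pos 1) h
  have hlog0 : 0 < Real.log x := by linarith
  have hx0' : 0 < x := by linarith
  rcases lt_or_ge x (max x0 x1) with hlt | hge
  · -- small x
    refine ⟨Finset.Icc (-((⌊x⌋₊ : ℕ) : ℤ)) ((⌊x⌋₊ : ℕ) : ℤ), ?_, ?_⟩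
    · have hp : 1 ≤ (Real.log x) ^ (2 * U + 8) := Real.one_le_rpow hlog1 (by linarith)
      have hc : ((Finset.Icc (-((⌊x⌋₊ : ℕ) : ℤ)) ((⌊x⌋₊ : ℕ) : ℤ)).card : ℝ) =
          2 * (⌊x⌋₊ : ℝ) + 1 := by
        rw [Int.card_Icc]
        have : (((⌊x⌋₊ : ℕ) : ℤ) + 1 - (-((⌊x⌋₊ : ℕ) : ℤ))).toNat = 2 * ⌊x⌋₊ + 1 := by omega
        rw [this]
        push_cast
        ring
      have hf : (⌊x⌋₊ : ℝ) ≤ x := Nat.floor_le hx0'.le
      rw [hc]
      calc 2 * (⌊x⌋₊ : ℝ) + 1 ≤ (2 * max x0 x1 + 1 + C2 + (C1 + 1)) * 1 := by linarith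
        _ ≤ _ := mul_le_mul_of_nonneg_left hp (by linarith)
    · intro a ha hna
      exact absurd (Finset.mem_Icc.2 (abs_le.1 (Fin_abs ha))) hna
  · -- large x
    have hgx0 : x0 ≤ x := le_trans (le_max_left _ _) hge
    have hgx1 : x1 ≤ x := le_trans (le_max_right _ _) hge
    obtain ⟨I, hI, hIQ, hcov⟩ := hD x hgx1
    set Q : ℕ → ℝ := fun i => x ^ ((501 : ℝ) / 1000) / 2 ^ (i + 1) with hQdef
    set A : ℕ → Finset ℤ := fun i =>
      (Finset.Icc (-((⌊x⌋₊ : ℕ) : ℤ)) ((⌊x⌋₊ : ℕ) : ℤ)).filter (fun a =>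
        x / (Real.log x) ^ (U + 1) < ∑ d ∈ dya (Q i) a, |resErr x d a|) with hAdef
    refine ⟨(range I).biUnion A, ?_, ?_⟩
    · have hcA : ∀ i ∈ range I, ((A i).card : ℝ) ≤ C2 * (Real.log x) ^ (2 * U + 7) := by
        intro i hi
        have hi' := Finset.mem_range.1 hi
        refine hK x (Q i) (A i) hgx0 (hIQ i hi').1 (hIQ i hi').2 ?_
        intro a ha
        obtain ⟨ha1, ha2⟩ := Finset.mem_filter.1 ha
        exact ⟨abs_le.2 (Finset.mem_Icc.1 ha1), ha2⟩
      have hc1 : (((range I).biUnion A).card : ℝ) ≤ ∑ i ∈ range I, ((A i).card : ℝ) := by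
        exact_mod_cast Finset.card_biUnion_le
      have hc2 : ∑ i ∈ range I, ((A i).card : ℝ) ≤ I * (C2 * (Real.log x) ^ (2 * U + 7)) := by
        refine (Finset.sum_le_sum hcA).trans ?_
        rw [Finset.sum_const, nsmul_eq_mul, Finset.card_range]
      have hpp : 0 ≤ C2 * (Real.log x) ^ (2 * U + 7) := by positivity
      have hc3 : (I : ℝ) * (C2 * (Real.log x) ^ (2 * U + 7)) ≤
          Real.log x * (C2 * (Real.log x) ^ (2 * U + 7)) := mul_le_mul_of_nonneg_right hI hpp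
      have hc4 : Real.log x * (C2 * (Real.log x) ^ (2 * U + 7)) =
          C2 * (Real.log x) ^ (2 * U + 8) := by
        rw [show 2 * U + 8 = (2 * U + 7) + 1 by ring, Real.rpow_add_one hlog0.ne']
        ring
      have hp0 : 0 ≤ (Real.log x) ^ (2 * U + 8) := by positivity
      calc (((range I).biUnion A).card : ℝ) ≤ C2 * (Real.log x) ^ (2 * U + 8) := by
            rw [← hc4]
            exact (hc1.trans hc2).trans hc3
        _ ≤ (2 * max x0 x1 + 1 + C2 + (C1 + 1)) * (Real.log x) ^ (2 * U + 8) :=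
            mul_le_mul_of_nonneg_right (by linarith) hp0
    · intro a ha hna
      have haf := Fin_abs ha
      have hi : ∀ i ∈ range I, ∑ d ∈ dya (Q i) a, |resErr x d a| ≤
          x / (Real.log x) ^ (U + 1) := by
        intro i hi
        by_contra hcon
        rw [not_le] at hcon
        exact hna (Finset.mem_biUnion.2 ⟨i, hi, Finset.mem_filter.2
          ⟨Finset.mem_Icc.2 (abs_le.1 haf), hcon⟩⟩)
      set F := (Icc 1 ⌊x ^ ((501 : ℝ) / 1000)⌋₊).filter (fun d : ℕ => Int.gcd a d = 1) with hF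
      set B := (Icc 1 ⌊x ^ ((4996 : ℝ) / 10000)⌋₊).filter (fun d : ℕ => Int.gcd a d = 1) with hBd
      have hsub : F ⊆ B ∪ (range I).biUnion (fun i => dya (Q i) a) := by
        intro d hd
        obtain ⟨hd1, hd2⟩ := Finset.mem_filter.1 hd
        rw [Finset.mem_union]
        rcases hcov d hd1 with h | ⟨i, hi, h⟩
        · exact Or.inl (Finset.mem_filter.2 ⟨h, hd2⟩)
        · exact Or.inr (Finset.mem_biUnion.2 ⟨i, Finset.mem_range.2 hi,
            Finset.mem_filter.2 ⟨h, hd2⟩⟩)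
      have hs1 : ∑ d ∈ F, |resErr x d a| ≤ ∑ d ∈ B, |resErr x d a| +
          ∑ d ∈ (range I).biUnion (fun i => dya (Q i) a), |resErr x d a| := by
        refine (Finset.sum_le_sum_of_subset_of_nonneg hsub fun _ _ _ => abs_nonneg _).trans ?_
        rw [← Finset.sum_union_inter]
        have : 0 ≤ ∑ d ∈ B ∩ (range I).biUnion (fun i => dya (Q i) a), |resErr x d a| :=
          Finset.sum_nonneg fun _ _ => abs_nonneg _
        linarith
      have hs2 : ∑ d ∈ B, |resErr x d a| ≤ C1 * (x / (Real.log x) ^ U) := by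
        refine le_trans ?_ (hB x hx)
        refine (Finset.sum_le_sum (g := fun d => maxErr x d) fun d hd => ?_).trans
          (Finset.sum_le_sum_of_subset_of_nonneg (Finset.filter_subset _ _)
            fun d _ _ => Pool.Agent.Lib.EH.maxErr_nonneg x d)
        obtain ⟨hd1, hd2⟩ := Finset.mem_filter.1 hd
        exact h1 x d a (Finset.mem_Icc.1 hd1).1 hd2
      have hs3 : ∑ d ∈ (range I).biUnion (fun i => dya (Q i) a), |resErr x d a| ≤
          x / (Real.log x) ^ U := by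
        refine (Fin_biU I _ _ fun _ => abs_nonneg _).trans ((Finset.sum_le_sum hi).trans ?_)
        rw [Finset.sum_const, nsmul_eq_mul, Finset.card_range]
        have hq : 0 ≤ x / (Real.log x) ^ (U + 1) := by positivity
        refine (mul_le_mul_of_nonneg_right hI hq).trans (le_of_eq ?_)
        have hne : (Real.log x) ^ U ≠ 0 := (Real.rpow_pos_of_pos hlog0 U).ne'
        rw [Real.rpow_add_one hlog0.ne']
        field_simp
      have hq : 0 ≤ x / (Real.log x) ^ U := by positivity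
      calc ∑ d ∈ F, |resErr x d a| ≤ C1 * (x / (Real.log x) ^ U) + x / (Real.log x) ^ U := by
            linarith
        _ = (C1 + 1) * (x / (Real.log x) ^ U) := by ring
        _ ≤ (2 * max x0 x1 + 1 + C2 + (C1 + 1)) * (x / (Real.log x) ^ U) :=
            mul_le_mul_of_nonneg_right (by linarith) hq

end Pool.Agent.Lib.KF
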