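import Pool.Agent.Lib.KF.SpecL

namespace Pool.Agent.Lib.KF

open Finset Pool.Agent.Lib.EH3

private lemma Fou_half (J : ℕ) (hJ : 1 ≤ J) (T : Finset ℤ) (hinj : Set.InjOn Int.natAbs (T : Set ℤ))
    (hT : ∀ j ∈ T, (J : ℤ) < |j|) : ∑ j ∈ T, 1 / (j : ℝ) ^ 2 ≤ 1 / (J : ℝ) := by
  have h1 : ∑ j ∈ T, 1 / (j : ℝ) ^ 2 = ∑ n ∈ T.image Int.natAbs, ((n : ℝ) ^ 2)⁻¹ := by
    rw [sum_image hinj]
    refine sum_congr rfl fun j _ => ?_
    rw [one_div, Nat.cast_natAbs, Int.cast_abs, sq_abs]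
  obtain ⟨N, hN⟩ : ∃ N : ℕ, T.image Int.natAbs ⊆ Ioc J N ∧ J ≤ N := by
    refine ⟨J + (T.image Int.natAbs).sup id, ?_, by omega⟩
    intro n hn
    have hle : n ≤ (T.image Int.natAbs).sup id := le_sup (f := id) hn
    obtain ⟨j, hj, rfl⟩ := mem_image.1 hn
    have h3 := hT j hj
    rw [mem_Ioc]
    constructor
    · have h4 : (J : ℤ) < (j.natAbs : ℤ) := by
        rw [Int.natCast_natAbs]
        exact h3
      exact_mod_cast h4
    · omega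
  rw [h1]
  have h5 : (0 : ℝ) ≤ (N : ℝ)⁻¹ := by positivity
  calc _ ≤ ∑ n ∈ Ioc J N, ((n : ℝ) ^ 2)⁻¹ :=
        sum_le_sum_of_subset_of_nonneg hN.1 (fun _ _ _ => by positivity)
    _ ≤ (J : ℝ)⁻¹ - (N : ℝ)⁻¹ := sum_Ioc_inv_sq_le_sub (by omega) hN.2
    _ ≤ 1 / (J : ℝ) := by
      rw [one_div]
      linarith

private lemma Fou_tail (J : ℕ) (hJ : 1 ≤ J) (S : Finset ℤ) (hS : ∀ j ∈ S, (J : ℤ) < |j|) :
    ∑ j ∈ S, 1 / (j : ℝ) ^ 2 ≤ 2 / (J : ℝ) := by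
  rw [← sum_filter_add_sum_filter_not S (fun j => 0 < j)]
  have h1 := Fou_half J hJ (S.filter (fun j => 0 < j)) (by
    intro x hx y hy h
    simp only [coe_filter, Set.mem_ofPred_eq] at hx hy
    omega) (fun j hj => hS j (mem_filter.1 hj).1)
  have h2 := Fou_half J hJ (S.filter (fun j => ¬ 0 < j)) (by
    intro x hx y hy h
    simp only [coe_filter, Set.mem_ofPred_eq] at hx hy
    omega) (fun j hj => hS j (mem_filter.1 hj).1)
  have h3 : (2 : ℝ) / J = 1 / J + 1 / J := by ring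
  linarith

private lemma Fou_rep (q : ℕ) [NeZero q] (g : ZMod q → ℂ) :
    ∑ c : ZMod q, g c = ∑ j ∈ rep q, g (j : ZMod q) := by
  symm
  refine sum_nbij' (fun j => (j : ZMod q)) (fun c => c.valMinAbs) ?_ ?_ ?_ ?_ ?_
  · intro j _
    exact mem_univ _
  · intro c _
    have h := ZMod.valMinAbs_mem_Ioc c
    rw [rep, mem_Ioc]
    rw [Set.mem_Ioc] at h
    constructor <;> omega
  · intro j hj
    rw [rep, mem_Ioc] at hj
    rw [ZMod.valMinAbs_spec]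
    refine ⟨rfl, ?_⟩
    rw [Set.mem_Ioc]
    constructor <;> omega
  · intro c _
    exact ZMod.coe_valMinAbs c
  · intro j _
    rfl

private lemma Fou_ind (h1 : EmStmt) {h d1 d2 : ℕ} (hh : 1 ≤ h) (hd2 : 1 ≤ d2) (hc : d1.Coprime d2)
    (a b m' k : ℤ) (hab : a - b = h * m') :
    (if ((h * d2 : ℕ) : ℤ) ∣ (a + ((h * d1 : ℕ) : ℤ) * k) - b then (1 : ℂ) else 0) =
      (1 / (d2 : ℂ)) * ∑ j ∈ rep d2, ee ((k : ℝ) * ((j : ℝ) / d2)) *
        em d2 (((j * m' : ℤ) : ZMod d2) * ((d1 : ZMod d2))⁻¹) := by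
  have : NeZero d2 := ⟨by omega⟩
  obtain ⟨e1, e2, e3, e4, e5, e6, e7, e8, e9⟩ := h1
  have hu : IsUnit (d1 : ZMod d2) := (ZMod.isUnit_iff_coprime d1 d2).2 hc
  have hinv := e7 d2 (d1 : ZMod d2) hu
  have hdiv : ((h * d2 : ℕ) : ℤ) ∣ (a + ((h * d1 : ℕ) : ℤ) * k) - b ↔
      (k : ZMod d2) + (m' : ZMod d2) * (d1 : ZMod d2)⁻¹ = 0 := by
    have hx : (a + ((h * d1 : ℕ) : ℤ) * k) - b = (h : ℤ) * (m' + d1 * k) := by
      push_cast
      linear_combination hab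
    have hh0 : (h : ℤ) ≠ 0 := by
      have : h ≠ 0 := by omega
      exact_mod_cast this
    rw [hx, Nat.cast_mul, mul_dvd_mul_iff_left hh0, ← ZMod.intCast_zmod_eq_zero_iff_dvd]
    push_cast
    constructor
    · intro h0
      linear_combination ((d1 : ZMod d2)⁻¹) * h0 - (k : ZMod d2) * hinv
    · intro h0
      linear_combination (d1 : ZMod d2) * h0 - (m' : ZMod d2) * hinv
  have h6 := e6 d2 ((k : ZMod d2) + (m' : ZMod d2) * (d1 : ZMod d2)⁻¹)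
  rw [Fou_rep d2 (fun c => em d2 (c * ((k : ZMod d2) + (m' : ZMod d2) * (d1 : ZMod d2)⁻¹)))] at h6
  have h7 : ∑ j ∈ rep d2, ee ((k : ℝ) * ((j : ℝ) / d2)) *
        em d2 (((j * m' : ℤ) : ZMod d2) * ((d1 : ZMod d2))⁻¹) =
      ∑ j ∈ rep d2, em d2 ((j : ZMod d2) * ((k : ZMod d2) + (m' : ZMod d2) * (d1 : ZMod d2)⁻¹)) := by
    refine sum_congr rfl fun j _ => ?_
    have h8 : (j : ZMod d2) * ((k : ZMod d2) + (m' : ZMod d2) * (d1 : ZMod d2)⁻¹) =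
        ((j * k : ℤ) : ZMod d2) + ((j * m' : ℤ) : ZMod d2) * ((d1 : ZMod d2))⁻¹ := by
      push_cast
      ring
    rw [h8, e1 d2 _ _ hd2, e5 d2 _ hd2]
    have h9 : (k : ℝ) * ((j : ℝ) / d2) = ((j * k : ℤ) : ℝ) / d2 := by
      push_cast
      ring
    rw [h9]
  rw [h7, h6]
  have hd20 : (d2 : ℂ) ≠ 0 := by
    have : d2 ≠ 0 := by omega
    exact_mod_cast this
  by_cases hz : (k : ZMod d2) + (m' : ZMod d2) * (d1 : ZMod d2)⁻¹ = 0
  · rw [if_pos (hdiv.2 hz), if_pos hz]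
    field_simp
  · rw [if_neg (fun h0 => hz (hdiv.1 h0)), if_neg hz, mul_zero]

private lemma Fou_sum (h1 : EmStmt) (h2 : VftStmt) {X h d1 d2 K : ℕ} {a b m' : ℤ} (hX : 1 ≤ X) (hh : 1 ≤ h)
    (hd1 : 1 ≤ d1) (hd2 : 1 ≤ d2) (hc : d1.Coprime d2) (ha : |a| ≤ (X : ℤ)) (hab : a - b = h * m')
    (hK : 3 * X ≤ (K + 1) * (h * d1)) :
    ((∑ n ∈ zs X, if ((h * d1 : ℕ) : ℤ) ∣ n - a ∧ ((h * d2 : ℕ) : ℤ) ∣ n - b then vX X n else 0 : ℝ) : ℂ) =
      (1 / (d2 : ℂ)) * ∑ j ∈ rep d2, Kh X (h * d1) a K ((j : ℝ) / d2) *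
        em d2 (((j * m' : ℤ) : ZMod d2) * ((d1 : ZMod d2))⁻¹) := by
  have hd : 1 ≤ h * d1 := Nat.mul_pos hh hd1
  obtain ⟨-, -, v3⟩ := h2 X (h * d1) K a hX hd ha hK
  have hF := v3 (fun n => if ((h * d2 : ℕ) : ℤ) ∣ n - b then (1 : ℂ) else 0)
  have hL : ((∑ n ∈ zs X, if ((h * d1 : ℕ) : ℤ) ∣ n - a ∧ ((h * d2 : ℕ) : ℤ) ∣ n - b then vX X n
      else 0 : ℝ) : ℂ) = ∑ n ∈ zs X, if ((h * d1 : ℕ) : ℤ) ∣ n - a then
        (vX X n : ℂ) * (if ((h * d2 : ℕ) : ℤ) ∣ n - b then (1 : ℂ) else 0) else 0 := by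
    rw [Complex.ofReal_sum]
    refine sum_congr rfl fun n _ => ?_
    by_cases c1 : ((h * d1 : ℕ) : ℤ) ∣ n - a
    · by_cases c2 : ((h * d2 : ℕ) : ℤ) ∣ n - b
      · rw [if_pos ⟨c1, c2⟩, if_pos c1, if_pos c2, mul_one]
      · rw [if_neg (fun h0 => c2 h0.2), if_pos c1, if_neg c2, mul_zero, Complex.ofReal_zero]
    · rw [if_neg (fun h0 => c1 h0.1), if_neg c1, Complex.ofReal_zero]
  rw [hL, hF]
  have hM : ∀ k ∈ Finset.Icc (-(K : ℤ)) (K : ℤ), (vX X (a + ((h * d1 : ℕ) : ℤ) * k) : ℂ) *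
      (if ((h * d2 : ℕ) : ℤ) ∣ (a + ((h * d1 : ℕ) : ℤ) * k) - b then (1 : ℂ) else 0) =
      (1 / (d2 : ℂ)) * ∑ j ∈ rep d2, (vX X (a + ((h * d1 : ℕ) : ℤ) * k) : ℂ) *
        ee ((k : ℝ) * ((j : ℝ) / d2)) * em d2 (((j * m' : ℤ) : ZMod d2) * ((d1 : ZMod d2))⁻¹) := by
    intro k _
    rw [Fou_ind h1 hh hd2 hc a b m' k hab, mul_left_comm, mul_sum]
    refine congrArg _ (sum_congr rfl fun j _ => ?_)
    rw [mul_assoc]
  rw [sum_congr rfl hM, ← mul_sum, sum_comm]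
  refine congrArg _ (sum_congr rfl fun j _ => ?_)
  rw [← sum_mul]
  rfl

private lemma Fou_zero_mem (q : ℕ) (hq : 1 ≤ q) : (0 : ℤ) ∈ rep q := by
  rw [rep, mem_Ioc]
  constructor <;> omega

private lemma Fou_rep_le {q : ℕ} (hq : 1 ≤ q) {j : ℤ} (hj : j ∈ rep q) : |(j : ℝ) / q| ≤ 1 / 2 := by
  rw [rep, mem_Ioc] at hj
  have hq0 : (0 : ℝ) < q := by exact_mod_cast hq
  have h1 : (2 * j : ℤ) ≤ q := by omega
  have h2 : -(q : ℤ) ≤ 2 * j := by omega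
  have h1' : (2 : ℝ) * j ≤ q := by exact_mod_cast h1
  have h2' : -(q : ℝ) ≤ 2 * j := by exact_mod_cast h2
  rw [abs_le]
  constructor
  · rw [le_div_iff₀ hq0]
    linarith
  · rw [div_le_iff₀ hq0]
    linarith

theorem tFou (h1 : EmStmt) (h2 : VftStmt) : FouStmt := by
  intro X h d1 d2 K J a b m' hX hh hd1 hd2 hJ hc ha hab hK
  have hd : 1 ≤ h * d1 := Nat.mul_pos hh hd1
  obtain ⟨v1, v2, -⟩ := h2 X (h * d1) K a hX hd ha hK
  have hS := Fou_sum h1 h2 hX hh hd1 hd2 hc ha hab hK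
  have hX0 : (0 : ℝ) < X := by exact_mod_cast hX
  have hh0 : (0 : ℝ) < h := by exact_mod_cast hh
  have hd10 : (0 : ℝ) < d1 := by exact_mod_cast hd1
  have hd20 : (0 : ℝ) < d2 := by exact_mod_cast hd2
  have hJ0 : (0 : ℝ) < J := by exact_mod_cast hJ
  have hgcd : Nat.gcd (h * d1) (h * d2) = h := by
    rw [Nat.gcd_mul_left, hc.gcd_eq_one, mul_one]
  have herr : (errp X (h * d1) (h * d2) a b : ℂ) =
      (1 / (d2 : ℂ)) * ∑ j ∈ rep d2, Kh X (h * d1) a K ((j : ℝ) / d2) *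
        em d2 (((j * m' : ℤ) : ZMod d2) * ((d1 : ZMod d2))⁻¹) -
      (1 / (d2 : ℂ)) * ((2 * (X : ℝ) / ((h * d1 : ℕ) : ℝ) : ℝ) : ℂ) := by
    rw [errp, Complex.ofReal_sub, hS, hgcd, if_pos ⟨m', hab⟩]
    congr 1
    have : 2 * (X : ℝ) * (h : ℝ) / (((h * d1 : ℕ) : ℝ) * ((h * d2 : ℕ) : ℝ)) =
        (1 / (d2 : ℝ)) * (2 * (X : ℝ) / ((h * d1 : ℕ) : ℝ)) := by
      push_cast
      field_simp
    rw [this]
    push_cast
    ring
  set T : ℤ → ℂ := fun j => Kh X (h * d1) a K ((j : ℝ) / d2) *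
        em d2 (((j * m' : ℤ) : ZMod d2) * ((d1 : ZMod d2))⁻¹) with hT
  have hT0 : T 0 = Kh X (h * d1) a K 0 := by
    simp only [hT]
    rw [show ((0 : ℤ) : ℝ) / (d2 : ℝ) = 0 by simp]
    rw [show (((0 : ℤ) * m' : ℤ) : ZMod d2) * ((d1 : ZMod d2))⁻¹ = 0 by simp, h1.2.1, mul_one]
  have hsplit : ∑ j ∈ rep d2, T j = T 0 + (∑ j ∈ (rep d2).filter (fun j => j ≠ 0 ∧ |j| ≤ (J : ℤ)), T j +
      ∑ j ∈ (rep d2).filter (fun j => (J : ℤ) < |j|), T j) := by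
    rw [← sum_filter_add_sum_filter_not (rep d2) (fun j => |j| ≤ (J : ℤ)), ← add_assoc]
    congr 1
    · rw [← sum_filter_add_sum_filter_not ((rep d2).filter (fun j => |j| ≤ (J : ℤ))) (fun j => j = 0)]
      congr 1
      · rw [sum_eq_single (0 : ℤ)]
        · intro j hj h0
          exact absurd (mem_filter.1 hj).2 h0
        · intro h0
          exfalso
          apply h0
          rw [mem_filter, mem_filter]
          refine ⟨⟨Fou_zero_mem d2 hd2, ?_⟩, rfl⟩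
          rw [abs_zero]
          exact Int.natCast_nonneg _
      · refine sum_congr ?_ (fun _ _ => rfl)
        ext j
        simp only [mem_filter]
        tauto
    · refine sum_congr ?_ (fun _ _ => rfl)
      ext j
      simp only [mem_filter, not_le]
  have hfin : (errp X (h * d1) (h * d2) a b : ℂ) - (1 / (d2 : ℂ)) *
      ∑ j ∈ (rep d2).filter (fun j => j ≠ 0 ∧ |j| ≤ (J : ℤ)), T j =
      (1 / (d2 : ℂ)) * (Kh X (h * d1) a K 0 - ((2 * (X : ℝ) / ((h * d1 : ℕ) : ℝ) : ℝ) : ℂ)) +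
      (1 / (d2 : ℂ)) * ∑ j ∈ (rep d2).filter (fun j => (J : ℤ) < |j|), T j := by
    rw [herr, hsplit, hT0]
    ring
  rw [hfin]
  have hn : ‖(1 / (d2 : ℂ))‖ = 1 / (d2 : ℝ) := by
    rw [norm_div, norm_one, Complex.norm_natCast]
  refine (norm_add_le _ _).trans ?_
  rw [norm_mul, norm_mul, hn]
  refine add_le_add ?_ ?_
  · calc 1 / (d2 : ℝ) * ‖Kh X (h * d1) a K 0 - ((2 * (X : ℝ) / ((h * d1 : ℕ) : ℝ) : ℝ) : ℂ)‖
        ≤ 1 / (d2 : ℝ) * 1 := mul_le_mul_of_nonneg_left v2 (by positivity)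
      _ = 1 / (d2 : ℝ) := mul_one _
  · have hb : ∀ j ∈ (rep d2).filter (fun j => (J : ℤ) < |j|), ‖T j‖ ≤
        ((h : ℝ) * d1 * d2 ^ 2 / (4 * X)) * (1 / (j : ℝ) ^ 2) := by
      intro j hj
      rw [mem_filter] at hj
      have hj1 := v1 ((j : ℝ) / d2) (Fou_rep_le hd2 hj.1)
      have hj0 : (j : ℝ) ≠ 0 := by
        have : j ≠ 0 := by
          rintro rfl
          have := hj.2
          rw [abs_zero] at this
          omega
        exact_mod_cast this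
      have hjp : (0 : ℝ) < (j : ℝ) ^ 2 := by positivity
      simp only [hT]
      rw [norm_mul, h1.2.2.1, mul_one]
      rw [← mul_div_assoc, mul_one, le_div_iff₀ hjp, le_div_iff₀ (by positivity)]
      rw [div_pow] at hj1
      have h5 : 4 * (X : ℝ) * ((j : ℝ) ^ 2 / (d2 : ℝ) ^ 2) * ‖Kh X (h * d1) a K ((j : ℝ) / d2)‖ * (d2 : ℝ) ^ 2 ≤
          ((h * d1 : ℕ) : ℝ) * (d2 : ℝ) ^ 2 := mul_le_mul_of_nonneg_right hj1 (by positivity)
      have h6 : 4 * (X : ℝ) * ((j : ℝ) ^ 2 / (d2 : ℝ) ^ 2) * ‖Kh X (h * d1) a K ((j : ℝ) / d2)‖ * (d2 : ℝ) ^ 2 =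
          ‖Kh X (h * d1) a K ((j : ℝ) / d2)‖ * (j : ℝ) ^ 2 * (4 * X) := by
        field_simp
      rw [h6] at h5
      push_cast at h5
      exact h5
    calc 1 / (d2 : ℝ) * ‖∑ j ∈ (rep d2).filter (fun j => (J : ℤ) < |j|), T j‖
        ≤ 1 / (d2 : ℝ) * ∑ j ∈ (rep d2).filter (fun j => (J : ℤ) < |j|), ‖T j‖ :=
          mul_le_mul_of_nonneg_left (norm_sum_le _ _) (by positivity)
      _ ≤ 1 / (d2 : ℝ) * ∑ j ∈ (rep d2).filter (fun j => (J : ℤ) < |j|),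
          ((h : ℝ) * d1 * d2 ^ 2 / (4 * X)) * (1 / (j : ℝ) ^ 2) :=
          mul_le_mul_of_nonneg_left (sum_le_sum hb) (by positivity)
      _ = 1 / (d2 : ℝ) * (((h : ℝ) * d1 * d2 ^ 2 / (4 * X)) *
          ∑ j ∈ (rep d2).filter (fun j => (J : ℤ) < |j|), 1 / (j : ℝ) ^ 2) := by
          rw [← mul_sum]
      _ ≤ 1 / (d2 : ℝ) * (((h : ℝ) * d1 * d2 ^ 2 / (4 * X)) * (2 / (J : ℝ))) := by
          refine mul_le_mul_of_nonneg_left (mul_le_mul_of_nonneg_left ?_ (by positivity)) (by positivity)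
          exact Fou_tail J hJ _ (fun j hj => (mem_filter.1 hj).2)
      _ = (h : ℝ) * d1 * d2 / (2 * X * J) := by
          field_simp
          ring

end Pool.Agent.Lib.KF
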