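import Pool.Agent.Lib.KF.SpecL

/-!
MP_00e23e_nt, Lib/KF, module Gab (helper16): bounds for the coefficients and for gg.
-/

namespace Pool.Agent.Lib.KF

open Finset Pool.Agent.Lib.EH3

private lemma Gab_tau_nonneg (n : ℕ) : 0 ≤ tau n := by
  unfold tau
  exact Nat.cast_nonneg _

private lemma Gab_one (hLam : LamStmt) (hDsb : DsbStmt) (hGam : GamStmt)
    (R : ℕ) (Q : ℝ) (c : ℕ → ℝ) (e : ℕ) (hQ : 1 ≤ Q) (hRQ : (R : ℝ) ≤ Q) (hc : ∀ d, |c d| ≤ 1)
    (he : 1 ≤ e) : |gam R Q c e| ≤ 2 * (1 + Real.log (2 * Q)) := by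
  have hQ0 : (0 : ℝ) ≤ Q := by linarith
  have hlog : 0 ≤ Real.log (2 * Q) := Real.log_nonneg (by linarith)
  by_cases hRe : R < e
  · rw [hGam.2.1 R Q c e hRe]
    split_ifs
    · have := hc e
      linarith
    · rw [abs_zero]
      linarith
  · have heR : (e : ℝ) ≤ Q := by
      have : (e : ℝ) ≤ R := by exact_mod_cast not_lt.mp hRe
      linarith
    have he0 : (0 : ℝ) < e := by exact_mod_cast he
    have hnot : e ∉ dy Q := by
      rw [mem_dy hQ0]
      intro h
      linarith [h.1]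
    unfold gam
    rw [if_neg hnot, zero_sub, abs_neg]
    set N : ℕ := ⌊2 * Q⌋₊ / e with hN
    have heN : e ≤ ⌊2 * Q⌋₊ := Nat.le_floor (by linarith)
    have hN1 : 1 ≤ N := Nat.div_pos heN he
    have hNle : (N : ℝ) ≤ 2 * Q / e := by
      have h1 : (N : ℝ) ≤ (⌊2 * Q⌋₊ : ℝ) / e := Nat.cast_div_le
      have h2 : (⌊2 * Q⌋₊ : ℝ) ≤ 2 * Q := Nat.floor_le (by linarith)
      exact h1.trans (div_le_div_of_nonneg_right h2 he0.le)
    have hterm : ∀ d ∈ (dy Q).filter (fun d => e ∣ d), |c d * lam R d e| ≤ (e : ℝ) / Q * tau (d / e) := by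
      intro d hd
      rw [Finset.mem_filter, mem_dy hQ0] at hd
      have hd0 : (0 : ℝ) < d := by linarith [hd.1.1]
      have hd1 : 1 ≤ d := by exact_mod_cast hd0
      rw [abs_mul]
      calc |c d| * |lam R d e| ≤ 1 * (((e : ℝ) / d) * tau (d / e)) :=
            mul_le_mul (hc d) (hLam.1 R d e hd1 hd.2) (abs_nonneg _) zero_le_one
        _ = ((e : ℝ) / d) * tau (d / e) := one_mul _
        _ ≤ (e : ℝ) / Q * tau (d / e) := by
            refine mul_le_mul_of_nonneg_right ?_ (Gab_tau_nonneg _)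
            exact div_le_div_of_nonneg_left he0.le (by linarith) hd.1.1.le
    calc |∑ d ∈ (dy Q).filter (fun d => e ∣ d), c d * lam R d e|
        ≤ ∑ d ∈ (dy Q).filter (fun d => e ∣ d), |c d * lam R d e| := Finset.abs_sum_le_sum_abs _ _
      _ ≤ ∑ d ∈ (dy Q).filter (fun d => e ∣ d), (e : ℝ) / Q * tau (d / e) := Finset.sum_le_sum hterm
      _ = (e : ℝ) / Q * ∑ d ∈ (dy Q).filter (fun d => e ∣ d), tau (d / e) := by rw [Finset.mul_sum]
      _ ≤ (e : ℝ) / Q * ∑ t ∈ Icc 1 N, tau t := by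
          refine mul_le_mul_of_nonneg_left ?_ (by positivity)
          have hinj : Set.InjOn (fun d => d / e) ((dy Q).filter (fun d => e ∣ d) : Finset ℕ) := by
            intro d1 hd1 d2 hd2 h12
            rw [Finset.mem_coe, Finset.mem_filter] at hd1 hd2
            have h12' : d1 / e = d2 / e := h12
            rw [← Nat.div_mul_cancel hd1.2, ← Nat.div_mul_cancel hd2.2, h12']
          rw [← Finset.sum_image (f := fun t => tau t) hinj]
          refine Finset.sum_le_sum_of_subset_of_nonneg ?_ (fun t _ _ => Gab_tau_nonneg t)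
          intro t ht
          rw [Finset.mem_image] at ht
          obtain ⟨d, hd, rfl⟩ := ht
          rw [Finset.mem_filter] at hd
          have hd2 := (mem_dy hQ0).mp hd.1
          have hd0 : (0 : ℝ) < d := by linarith [hd2.1]
          have hd1 : 1 ≤ d := by exact_mod_cast hd0
          rw [Finset.mem_Icc]
          refine ⟨Nat.div_pos (Nat.le_of_dvd hd1 hd.2) he, ?_⟩
          rw [hN]
          exact Nat.div_le_div_right (Nat.le_floor hd2.2)
      _ ≤ (e : ℝ) / Q * (N * (1 + Real.log N)) :=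
          mul_le_mul_of_nonneg_left (hDsb.1 N hN1) (by positivity)
      _ ≤ (e : ℝ) / Q * (2 * Q / e * (1 + Real.log (2 * Q))) := by
          have hN0 : (0 : ℝ) < N := by exact_mod_cast hN1
          have h1 : Real.log N ≤ Real.log (2 * Q) := by
            refine Real.log_le_log hN0 (hNle.trans ?_)
            rw [div_le_iff₀ he0]
            have : (1 : ℝ) ≤ e := by exact_mod_cast he
            nlinarith
          refine mul_le_mul_of_nonneg_left ?_ (by positivity)
          refine mul_le_mul hNle (by linarith) ?_ (by positivity)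
          have : 0 ≤ Real.log N := Real.log_natCast_nonneg N
          linarith
      _ = 2 * (1 + Real.log (2 * Q)) := by
          have : (0 : ℝ) < Q := by linarith
          field_simp

theorem tGab (hLam : LamStmt) (hDsb : DsbStmt) (hGam : GamStmt) : GabStmt := by
  refine ⟨fun R Q c e hQ hRQ hc he => Gab_one hLam hDsb hGam R Q c e hQ hRQ hc he, ?_, ?_⟩
  · intro R Q c m hQ hRQ hc hm
    have hlog : 0 ≤ Real.log (2 * Q) := Real.log_nonneg (by linarith)
    rw [hGam.1 R Q c m hQ]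
    calc |∑ e ∈ (Icc 1 ⌊2 * Q⌋₊).filter (fun e : ℕ => (e : ℤ) ∣ m), gam R Q c e|
        ≤ ∑ e ∈ (Icc 1 ⌊2 * Q⌋₊).filter (fun e : ℕ => (e : ℤ) ∣ m), |gam R Q c e| :=
          Finset.abs_sum_le_sum_abs _ _
      _ ≤ ∑ _e ∈ (Icc 1 ⌊2 * Q⌋₊).filter (fun e : ℕ => (e : ℤ) ∣ m), 2 * (1 + Real.log (2 * Q)) := by
          refine Finset.sum_le_sum fun e he => ?_
          rw [Finset.mem_filter, Finset.mem_Icc] at he
          exact Gab_one hLam hDsb hGam R Q c e hQ hRQ hc he.1.1
      _ = (((Icc 1 ⌊2 * Q⌋₊).filter (fun e : ℕ => (e : ℤ) ∣ m)).card : ℝ) *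
            (2 * (1 + Real.log (2 * Q))) := by rw [Finset.sum_const, nsmul_eq_mul]
      _ ≤ tau m.natAbs * (2 * (1 + Real.log (2 * Q))) := by
          refine mul_le_mul_of_nonneg_right ?_ (by positivity)
          unfold tau
          have h1 : ((Icc 1 ⌊2 * Q⌋₊).filter (fun e : ℕ => (e : ℤ) ∣ m)) ⊆ m.natAbs.divisors := by
            intro h hh
            rw [Finset.mem_filter] at hh
            rw [Nat.mem_divisors]
            exact ⟨Int.natCast_dvd.mp hh.2, Int.natAbs_ne_zero.mpr hm⟩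
          exact_mod_cast Finset.card_le_card h1
      _ = 2 * (1 + Real.log (2 * Q)) * tau m.natAbs := by ring
  · intro R Q c m hQ hRQ hc
    have hlog : 0 ≤ Real.log (2 * Q) := Real.log_nonneg (by linarith)
    rw [hGam.1 R Q c m hQ]
    calc |∑ e ∈ (Icc 1 ⌊2 * Q⌋₊).filter (fun e : ℕ => (e : ℤ) ∣ m), gam R Q c e|
        ≤ ∑ e ∈ (Icc 1 ⌊2 * Q⌋₊).filter (fun e : ℕ => (e : ℤ) ∣ m), |gam R Q c e| :=
          Finset.abs_sum_le_sum_abs _ _
      _ ≤ ∑ _e ∈ (Icc 1 ⌊2 * Q⌋₊).filter (fun e : ℕ => (e : ℤ) ∣ m), 2 * (1 + Real.log (2 * Q)) := by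
          refine Finset.sum_le_sum fun e he => ?_
          rw [Finset.mem_filter, Finset.mem_Icc] at he
          exact Gab_one hLam hDsb hGam R Q c e hQ hRQ hc he.1.1
      _ = (((Icc 1 ⌊2 * Q⌋₊).filter (fun e : ℕ => (e : ℤ) ∣ m)).card : ℝ) *
            (2 * (1 + Real.log (2 * Q))) := by rw [Finset.sum_const, nsmul_eq_mul]
      _ ≤ (2 * Q) * (2 * (1 + Real.log (2 * Q))) := by
          refine mul_le_mul_of_nonneg_right ?_ (by positivity)
          have h1 : ((Icc 1 ⌊2 * Q⌋₊).filter (fun e : ℕ => (e : ℤ) ∣ m)).card ≤ ⌊2 * Q⌋₊ := by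
            calc _ ≤ (Icc 1 ⌊2 * Q⌋₊).card := Finset.card_le_card (Finset.filter_subset _ _)
              _ = ⌊2 * Q⌋₊ := by rw [Nat.card_Icc]; omega
          have h2 : (⌊2 * Q⌋₊ : ℝ) ≤ 2 * Q := Nat.floor_le (by linarith)
          exact le_trans (by exact_mod_cast h1) h2
      _ = 4 * Q * (1 + Real.log (2 * Q)) := by ring

end Pool.Agent.Lib.KF
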