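import Pool.Agent.Lib.KF.SpecL

/-!
MP_00e23e_nt, Lib/KF: module Gam (theorem tGam), the coefficients gam: the identity for gg, and the sums of
gam e / e over the multiples of s.
-/

namespace Pool.Agent.Lib.KF

open Finset Pool.Agent.Lib.EH3

private lemma Gam_mem {Q : ℝ} {d : ℕ} (hd : d ∈ dy Q) : 1 ≤ d ∧ d ≤ ⌊2 * Q⌋₊ := by
  unfold dy at hd
  rw [Finset.mem_Ioc] at hd
  omega

/-- swap of the sums: for a predicate P on e -/
private lemma Gam_swap (R : ℕ) (Q : ℝ) (c : ℕ → ℝ) (w : ℕ → ℝ) (P : ℕ → Prop) [DecidablePred P] :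
    ∑ e ∈ (Icc 1 ⌊2 * Q⌋₊).filter P, gam R Q c e * w e =
      ∑ d ∈ (dy Q).filter P, c d * w d -
        ∑ d ∈ dy Q, c d * ∑ e ∈ d.divisors.filter P, lam R d e * w e := by
  have h1 : ∀ e ∈ (Icc 1 ⌊2 * Q⌋₊).filter P, gam R Q c e * w e =
      (if e ∈ dy Q then c e * w e else 0) -
        ∑ d ∈ (dy Q).filter (fun d => e ∣ d), c d * (lam R d e * w e) := by
    intro e _
    unfold gam
    rw [sub_mul, Finset.sum_mul]
    congr 1
    · split_ifs
      · rfl
      · rw [zero_mul]
    · refine Finset.sum_congr rfl fun d _ => ?_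
      ring
  rw [Finset.sum_congr rfl h1, Finset.sum_sub_distrib]
  congr 1
  · rw [← Finset.sum_filter]
    refine Finset.sum_congr ?_ fun _ _ => rfl
    ext e
    simp only [Finset.mem_filter, Finset.mem_Icc]
    constructor
    · rintro ⟨⟨_, h2⟩, h3⟩
      exact ⟨h3, h2⟩
    · rintro ⟨h3, h2⟩
      exact ⟨⟨Gam_mem h3, h2⟩, h3⟩
  · rw [Finset.sum_congr rfl (fun d _ => Finset.mul_sum _ _ _)]
    refine Finset.sum_comm' ?_
    intro e d
    simp only [Finset.mem_filter, Finset.mem_Icc, Nat.mem_divisors]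
    constructor
    · rintro ⟨⟨h1, h2⟩, h3, h4⟩
      have := Gam_mem h3
      exact ⟨⟨⟨h4, by omega⟩, h2⟩, h3⟩
    · rintro ⟨⟨⟨h1, h2⟩, h3⟩, h4⟩
      have := Gam_mem h4
      have h5 := Nat.le_of_dvd (by omega) h1
      have h6 := Nat.pos_of_dvd_of_pos h1 (by omega)
      exact ⟨⟨⟨by omega, by omega⟩, h3⟩, h4, h1⟩

private lemma Gam_three (h1 : LamStmt) (R : ℕ) (Q : ℝ) (c : ℕ → ℝ) (s : ℕ) (hs : 1 ≤ s) :
    ∑ e ∈ (Icc 1 ⌊2 * Q⌋₊).filter (fun e : ℕ => s ∣ e), gam R Q c e / e =
      if R < s then ∑ d ∈ (dy Q).filter (fun d => s ∣ d), c d / d else 0 := by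
  have h2 := Gam_swap R Q c (fun e => ((e : ℝ))⁻¹) (fun e => s ∣ e)
  simp only [← div_eq_mul_inv] at h2
  rw [h2]
  have h3 : ∀ d ∈ dy Q, c d * ∑ e ∈ d.divisors.filter (fun e => s ∣ e), lam R d e / e =
      if s ∣ d then (if s ≤ R then c d / d else 0) else 0 := by
    intro d hd
    rw [h1.2.2 R d s (Gam_mem hd).1 hs]
    by_cases ha : s ∣ d <;> by_cases hb : s ≤ R
    · rw [if_pos ⟨ha, hb⟩, if_pos ha, if_pos hb]
      ring
    · rw [if_neg (fun h => hb h.2), if_pos ha, if_neg hb, mul_zero]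
    · rw [if_neg (fun h => ha h.1), if_neg ha, mul_zero]
    · rw [if_neg (fun h => ha h.1), if_neg ha, mul_zero]
  rw [Finset.sum_congr rfl h3, ← Finset.sum_filter]
  by_cases hb : s ≤ R
  · rw [if_neg (by omega), Finset.sum_congr rfl (fun d _ => if_pos hb), sub_self]
  · rw [if_pos (by omega), Finset.sum_congr rfl (fun d _ => if_neg hb), Finset.sum_const_zero, sub_zero]

theorem tGam (h1 : LamStmt) : GamStmt := by
  refine ⟨?_, ?_, ?_, ?_⟩
  · intro R Q c m hQ
    have h2 := Gam_swap R Q c (fun _ => 1) (fun e : ℕ => (e : ℤ) ∣ m)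
    simp only [mul_one] at h2
    rw [h2]
    unfold gg ell
    simp only [mul_sub, Finset.sum_sub_distrib]
    congr 1
    rw [Finset.sum_filter]
    refine Finset.sum_congr rfl fun d _ => ?_
    split_ifs
    · rw [mul_one]
    · rw [mul_zero]
  · intro R Q c e he
    unfold gam
    rw [Finset.sum_eq_zero, sub_zero]
    intro d _
    rw [h1.2.1 R d e he, mul_zero]
  · intro R Q c s _ hs
    exact Gam_three h1 R Q c s hs
  · intro R Q c s hQ hs hc
    rw [Gam_three h1 R Q c s hs]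
    have hs0 : (0 : ℝ) < s := by exact_mod_cast hs
    by_cases hR : R < s
    · rw [if_pos hR]
      calc |∑ d ∈ (dy Q).filter (fun d => s ∣ d), c d / d|
          ≤ ∑ d ∈ (dy Q).filter (fun d => s ∣ d), |c d / d| := Finset.abs_sum_le_sum_abs _ _
        _ ≤ ∑ d ∈ (dy Q).filter (fun d => s ∣ d), 1 / Q := by
            refine Finset.sum_le_sum fun d hd => ?_
            rw [Finset.mem_filter] at hd
            have hd1 := (mem_dy (by linarith)).1 hd.1
            have hd0 : (0 : ℝ) < d := by linarith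
            rw [abs_div, abs_of_pos hd0]
            exact div_le_div₀ zero_le_one (hc d) (by linarith) hd1.1.le
        _ = (((dy Q).filter (fun d => s ∣ d)).card : ℝ) * (1 / Q) := by
            rw [Finset.sum_const, nsmul_eq_mul]
        _ ≤ (2 * Q / s) * (1 / Q) := by
            refine mul_le_mul_of_nonneg_right (card_dy_dvd_le (by linarith) hs) ?_
            positivity
        _ = 2 / s := by
            field_simp
    · rw [if_neg hR, abs_zero]
      positivity

end Pool.Agent.Lib.KF
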