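import Pool.Agent.Lib.KF.SpecB

/-! MP_00e23e_nt, part B, module Hsa. -/

namespace Pool.Agent.Lib.KF

open Finset Pool.Agent.Lib.EH3

private lemma Hsa_prl (L : ℕ) : (prl L).card ≤ L := by
  unfold prl
  refine (card_filter_le _ _).trans ?_
  rw [Nat.card_Ioc]
  omega

private lemma Hsa_tup (L : ℕ) : ((tup L).card : ℝ) ≤ 8 * (L : ℝ) ^ 3 := by
  have h1 : tup L ⊆ (prl L) ×ˢ ((prl L) ×ˢ ((Finset.Icc (-(4 * (L : ℤ))) (4 * (L : ℤ))).erase 0)) := by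
    intro t ht
    rw [mem_tup] at ht
    rw [mem_product, mem_product, mem_erase, mem_Icc]
    exact ⟨ht.1, ht.2.1, ht.2.2.2.2, abs_le.1 ht.2.2.1⟩
  have h2 := card_le_card h1
  rw [card_product, card_product, card_erase_of_mem (by rw [mem_Icc]; constructor <;> omega),
    Int.card_Icc] at h2
  have h3 : ((4 * (L : ℤ) + 1 - -(4 * (L : ℤ))).toNat - 1) = 8 * L := by omega
  rw [h3] at h2
  have h4 : (tup L).card ≤ L * (L * (8 * L)) :=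
    h2.trans (Nat.mul_le_mul (Hsa_prl L) (Nat.mul_le_mul (Hsa_prl L) le_rfl))
  calc ((tup L).card : ℝ) ≤ ((L * (L * (8 * L)) : ℕ) : ℝ) := by exact_mod_cast h4
    _ = 8 * (L : ℝ) ^ 3 := by push_cast; ring

private lemma Hsa_DD {L : ℕ} {t u : ℕ × ℕ × ℤ} (ht : t ∈ tup L) (hu : u ∈ tup L) :
    |(DD t u : ℝ)| ≤ 32 * (L : ℝ) ^ 4 := by
  rw [mem_tup, mem_prl, mem_prl] at ht hu
  obtain ⟨⟨a1, a2, -⟩, ⟨a3, a4, -⟩, a5, -, -⟩ := ht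
  obtain ⟨⟨b1, b2, -⟩, ⟨b3, b4, -⟩, b5, -, -⟩ := hu
  have hL : (0 : ℝ) ≤ L := Nat.cast_nonneg _
  have key : ∀ (k : ℤ) (x y z w : ℕ), |k| ≤ 4 * (L : ℤ) → L < x → x ≤ 2 * L → L < y → y ≤ 2 * L →
      z ≤ 2 * L → w ≤ 2 * L → |(k : ℝ) * ((x : ℝ) - y) * z * w| ≤ 16 * (L : ℝ) ^ 4 := by
    intro k x y z w h1 h2 h3 h4 h5 h6 h7
    have g1 : |(k : ℝ)| ≤ 4 * L := by exact_mod_cast h1
    have g2 : (L : ℝ) < x := by exact_mod_cast h2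
    have g3 : (x : ℝ) ≤ 2 * L := by exact_mod_cast h3
    have g4 : (L : ℝ) < y := by exact_mod_cast h4
    have g5 : (y : ℝ) ≤ 2 * L := by exact_mod_cast h5
    have g6 : (z : ℝ) ≤ 2 * L := by exact_mod_cast h6
    have g7 : (w : ℝ) ≤ 2 * L := by exact_mod_cast h7
    have g8 : |(x : ℝ) - y| ≤ L := by rw [abs_le]; constructor <;> linarith
    rw [abs_mul, abs_mul, abs_mul, Nat.abs_cast, Nat.abs_cast]
    have e1 : |(k : ℝ)| * |(x : ℝ) - y| ≤ (4 * L) * L := mul_le_mul g1 g8 (abs_nonneg _) (by linarith)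
    have e2 : |(k : ℝ)| * |(x : ℝ) - y| * z ≤ (4 * L) * L * (2 * L) :=
      mul_le_mul e1 g6 (Nat.cast_nonneg _) (by positivity)
    have e3 : |(k : ℝ)| * |(x : ℝ) - y| * z * w ≤ (4 * L) * L * (2 * L) * (2 * L) :=
      mul_le_mul e2 g7 (Nat.cast_nonneg _) (by positivity)
    calc |(k : ℝ)| * |(x : ℝ) - y| * z * w ≤ (4 * L) * L * (2 * L) * (2 * L) := e3
      _ = 16 * (L : ℝ) ^ 4 := by ring
  have c1 := key t.2.2 t.1 t.2.1 u.1 u.2.1 a5 a1 a2 a3 a4 b2 b4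
  have c2 := key u.2.2 u.1 u.2.1 t.1 t.2.1 b5 b1 b2 b3 b4 a2 a4
  have e : (DD t u : ℝ) = (t.2.2 : ℝ) * ((t.1 : ℝ) - t.2.1) * u.1 * u.2.1 -
      (u.2.2 : ℝ) * ((u.1 : ℝ) - u.2.1) * t.1 * t.2.1 := by
    unfold DD
    push_cast
    ring
  rw [e]
  refine (abs_sub _ _).trans ?_
  linarith

private lemma Hsa_ss {L : ℕ} {t u : ℕ × ℕ × ℤ} (ht : t ∈ tup L) (hu : u ∈ tup L) :
    1 ≤ ss t u ∧ (ss t u : ℝ) ≤ 256 * (L : ℝ) ^ 6 := by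
  rw [mem_tup, mem_prl, mem_prl] at ht hu
  obtain ⟨⟨a1, a2, a6⟩, ⟨a3, a4, a7⟩, a5, -, a8⟩ := ht
  obtain ⟨⟨b1, b2, b6⟩, ⟨b3, b4, b7⟩, b5, -, b8⟩ := hu
  constructor
  · unfold ss
    have c1 : 0 < t.2.2.natAbs := Int.natAbs_pos.2 a8
    have c2 : 0 < u.2.2.natAbs := Int.natAbs_pos.2 b8
    have c3 := a6.pos
    have c4 := a7.pos
    have c5 := b6.pos
    have c6 := b7.pos
    have : 0 < t.2.2.natAbs * u.2.2.natAbs * (t.1 * t.2.1 * (u.1 * u.2.1)) := by positivity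
    exact this
  · have c1 : t.2.2.natAbs ≤ 4 * L := by
      rw [Int.abs_eq_natAbs] at a5
      exact_mod_cast a5
    have c2 : u.2.2.natAbs ≤ 4 * L := by
      rw [Int.abs_eq_natAbs] at b5
      exact_mod_cast b5
    have h : ss t u ≤ (4 * L) * (4 * L) * ((2 * L) * (2 * L) * ((2 * L) * (2 * L))) := by
      unfold ss
      gcongr
    calc (ss t u : ℝ) ≤ (((4 * L) * (4 * L) * ((2 * L) * (2 * L) * ((2 * L) * (2 * L))) : ℕ) : ℝ) := by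
          exact_mod_cast h
      _ = 256 * (L : ℝ) ^ 6 := by push_cast; ring

private lemma Hsa_one {Q E q g G m T : ℝ} (hQ : 1 ≤ Q) (hE : 1 ≤ E) (hq : 0 ≤ q) (hq4 : q ^ 4 = Q ^ 3)
    (hg : 1 ≤ g) (hG : 0 ≤ G) (hm0 : 0 ≤ m) (hm : m ≤ 2 * Q) (hT0 : 0 ≤ T) (hT : T ≤ E) :
    g * (T ^ 2 * G * (m / g) ^ 3) ^ ((1 : ℝ) / 4) ≤ (95 / 100) * E * q * (√G + √g) := by
  have hg0 : 0 < g := by linarith
  have hX : 0 ≤ T ^ 2 * G * (m / g) ^ 3 := by positivity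
  have hB : 0 ≤ (95 / 100) * E * q * (√G + √g) := by positivity
  refine le_of_pow_le_pow_left₀ (n := 4) (by norm_num) hB ?_
  have e1 : (g * (T ^ 2 * G * (m / g) ^ 3) ^ ((1 : ℝ) / 4)) ^ 4 = T ^ 2 * (G * g) * m ^ 3 := by
    rw [mul_pow, ← Real.rpow_natCast ((T ^ 2 * G * (m / g) ^ 3) ^ ((1 : ℝ) / 4)) 4, ← Real.rpow_mul hX]
    norm_num
    field_simp
  rw [e1]
  have e2 : ((95 / 100) * E * q * (√G + √g)) ^ 4 = (95 / 100) ^ 4 * 16 * E ^ 4 * Q ^ 3 *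
      (((√G + √g) / 2) ^ 2) ^ 2 := by
    rw [← hq4]
    ring
  rw [e2]
  have e3 : √G * √g ≤ ((√G + √g) / 2) ^ 2 := by nlinarith [sq_nonneg (√G - √g)]
  have e4 : G * g ≤ (((√G + √g) / 2) ^ 2) ^ 2 := by
    calc G * g = (√G * √g) ^ 2 := by rw [mul_pow, Real.sq_sqrt hG, Real.sq_sqrt hg0.le]
      _ ≤ _ := pow_le_pow_left₀ (by positivity) e3 2
  have e5 : m ^ 3 ≤ (2 * Q) ^ 3 := pow_le_pow_left₀ hm0 hm 3
  have e6 : T ^ 2 ≤ E ^ 4 := by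
    calc T ^ 2 ≤ E ^ 2 := pow_le_pow_left₀ hT0 hT 2
      _ ≤ E ^ 4 := pow_le_pow_right₀ hE (by norm_num)
  calc T ^ 2 * (G * g) * m ^ 3 ≤ E ^ 4 * (((√G + √g) / 2) ^ 2) ^ 2 * (2 * Q) ^ 3 := by
        gcongr
    _ = 8 * (E ^ 4 * Q ^ 3 * (((√G + √g) / 2) ^ 2) ^ 2) := by ring
    _ ≤ ((95 / 100) ^ 4 * 16) * (E ^ 4 * Q ^ 3 * (((√G + √g) / 2) ^ 2) ^ 2) := by
        refine mul_le_mul_of_nonneg_right (by norm_num) (by positivity)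
    _ = _ := by ring

/-- Module Hsa. -/
theorem tHsa (h1 : SpgStmt) (h2 : SgcStmt) (h3 : PrsStmt) : HsaStmt := by
  intro Q Y E L θ hQ hL hθ hQY hLY hθY hE
  have hE1 : 1 ≤ E := by
    have e1 := hE 1 le_rfl (by push_cast; linarith)
    unfold tau at e1
    rw [Nat.divisors_one, card_singleton] at e1
    exact_mod_cast e1
  set q : ℝ := Q ^ ((3 : ℝ) / 4) with hq
  have hq0 : 0 ≤ q := by positivity
  have hq4 : q ^ 4 = Q ^ 3 := by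
    rw [hq, ← Real.rpow_natCast (Q ^ ((3 : ℝ) / 4)) 4, ← Real.rpow_mul (by linarith)]
    norm_num
  have hqQ : Q ^ ((15 : ℝ) / 4) = Q ^ 3 * q := by
    rw [hq, ← Real.rpow_natCast Q 3, ← Real.rpow_add (by linarith)]
    norm_num
  set F : ℝ := (1 + |(θ : ℝ)| / Q ^ 2) * (5 + Real.log (2 * Q)) with hF
  have hlog : 0 ≤ Real.log (2 * Q) := Real.log_nonneg (by linarith)
  have hF0 : 0 ≤ F := by positivity
  have hpair : ∀ t ∈ tup L, ∀ u ∈ (tup L).filter (fun u => DD t u ≠ 0),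
      ‖∑ m1 ∈ dy Q, ∑ m2 ∈ dy Q, TT Q θ t m1 m2 * (starRingEnd ℂ) (TT Q θ u m1 m2)‖ ≤
      15200 * (L : ℝ) ^ 4 * Q ^ 3 * F * q * E ^ 3 := by
    intro t ht u hu
    obtain ⟨hu, hD⟩ := mem_filter.1 hu
    obtain ⟨s1, s2⟩ := Hsa_ss ht hu
    have hN : 1 ≤ (θ * DD t u).natAbs := Int.natAbs_pos.2 (mul_ne_zero hθ hD)
    have hτ1 : tau (θ * DD t u).natAbs ≤ E := by
      refine hE _ hN ?_
      have e1 : (((θ * DD t u).natAbs : ℕ) : ℝ) = |(θ : ℝ)| * |(DD t u : ℝ)| := by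
        rw [Nat.cast_natAbs, Int.cast_abs]
        push_cast
        rw [abs_mul]
      rw [e1]
      have e2 := Hsa_DD ht hu
      have e3 : |(θ : ℝ)| * |(DD t u : ℝ)| ≤ |(θ : ℝ)| * (32 * (L : ℝ) ^ 4) :=
        mul_le_mul_of_nonneg_left e2 (abs_nonneg _)
      linarith
    have hτ2 : tau (ss t u) ≤ E := hE _ s1 (s2.trans hLY)
    have hτ20 : 0 ≤ tau (ss t u) := Nat.cast_nonneg _
    have b1 : ∀ m1 ∈ dy Q, ‖∑ m2 ∈ dy Q, TT Q θ t m1 m2 * (starRingEnd ℂ) (TT Q θ u m1 m2)‖ ≤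
        (4000 * (L : ℝ) ^ 4 * Q ^ 2 * F) * ((95 / 100) * E * q) *
          (√(Nat.gcd (θ * DD t u).natAbs m1 : ℝ) + √(spart (ss t u) m1 : ℝ)) := by
      intro m1 hm1
      have hm := (mem_dy (by linarith)).1 hm1
      have hm1p : 1 ≤ m1 := by
        have : (0 : ℝ) < m1 := by linarith
        exact_mod_cast this
      refine (h3 Q L θ t u m1 hQ hL ht hu hm1).trans ?_
      have hg1 : (1 : ℝ) ≤ (spart (ss t u) m1 : ℝ) := by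
        have : 0 < spart (ss t u) m1 := Nat.gcd_pos_of_pos_left _ hm1p
        exact_mod_cast this
      have e1 := Hsa_one (g := (spart (ss t u) m1 : ℝ)) (G := (Nat.gcd (θ * DD t u).natAbs m1 : ℝ))
        (m := (m1 : ℝ)) (T := tau m1) hQ hE1 hq0 hq4 hg1 (Nat.cast_nonneg _) (Nat.cast_nonneg _) hm.2
        (Nat.cast_nonneg _) (hE m1 hm1p (hm.2.trans hQY))
      calc _ = (4000 * (L : ℝ) ^ 4 * Q ^ 2 * F) * ((spart (ss t u) m1 : ℝ) *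
            ((tau m1) ^ 2 * (Nat.gcd (θ * DD t u).natAbs m1 : ℝ) *
              ((m1 : ℝ) / spart (ss t u) m1) ^ 3) ^ ((1 : ℝ) / 4)) := by rw [hF]; ring
        _ ≤ (4000 * (L : ℝ) ^ 4 * Q ^ 2 * F) * ((95 / 100) * E * q *
          (√(Nat.gcd (θ * DD t u).natAbs m1 : ℝ) + √(spart (ss t u) m1 : ℝ))) :=
            mul_le_mul_of_nonneg_left e1 (by positivity)
        _ = _ := by ring
    have b2 : ∑ m1 ∈ dy Q, (√(Nat.gcd (θ * DD t u).natAbs m1 : ℝ) + √(spart (ss t u) m1 : ℝ)) ≤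
        4 * Q * E ^ 2 := by
      rw [sum_add_distrib]
      have c1 := h2 Q _ hQ hN
      have c2 := h1 Q _ hQ s1
      have c3 : 2 * Q * tau (θ * DD t u).natAbs ≤ 2 * Q * E := mul_le_mul_of_nonneg_left hτ1 (by linarith)
      have c4 : (tau (ss t u)) ^ 2 ≤ E ^ 2 := pow_le_pow_left₀ hτ20 hτ2 2
      have c5 : 2 * Q * (tau (ss t u)) ^ 2 ≤ 2 * Q * E ^ 2 := mul_le_mul_of_nonneg_left c4 (by linarith)
      have c6 : 2 * Q * E ≤ 2 * Q * E ^ 2 := mul_le_mul_of_nonneg_left (by nlinarith) (by linarith)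
      linarith
    calc ‖∑ m1 ∈ dy Q, ∑ m2 ∈ dy Q, TT Q θ t m1 m2 * (starRingEnd ℂ) (TT Q θ u m1 m2)‖ ≤
        ∑ m1 ∈ dy Q, ‖∑ m2 ∈ dy Q, TT Q θ t m1 m2 * (starRingEnd ℂ) (TT Q θ u m1 m2)‖ :=
          norm_sum_le _ _
      _ ≤ ∑ m1 ∈ dy Q, (4000 * (L : ℝ) ^ 4 * Q ^ 2 * F) * ((95 / 100) * E * q) *
          (√(Nat.gcd (θ * DD t u).natAbs m1 : ℝ) + √(spart (ss t u) m1 : ℝ)) := sum_le_sum b1
      _ = (4000 * (L : ℝ) ^ 4 * Q ^ 2 * F) * ((95 / 100) * E * q) *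
          ∑ m1 ∈ dy Q, (√(Nat.gcd (θ * DD t u).natAbs m1 : ℝ) + √(spart (ss t u) m1 : ℝ)) := by
            rw [mul_sum]
      _ ≤ (4000 * (L : ℝ) ^ 4 * Q ^ 2 * F) * ((95 / 100) * E * q) * (4 * Q * E ^ 2) :=
            mul_le_mul_of_nonneg_left b2 (by positivity)
      _ = 15200 * (L : ℝ) ^ 4 * Q ^ 3 * F * q * E ^ 3 := by ring
  have hB0 : 0 ≤ 15200 * (L : ℝ) ^ 4 * Q ^ 3 * F * q * E ^ 3 := by positivity
  have hcard := Hsa_tup L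
  have hc0 : (0 : ℝ) ≤ ((tup L).card : ℝ) := Nat.cast_nonneg _
  calc ∑ t ∈ tup L, ∑ u ∈ (tup L).filter (fun u => DD t u ≠ 0),
      ‖∑ m1 ∈ dy Q, ∑ m2 ∈ dy Q, TT Q θ t m1 m2 * (starRingEnd ℂ) (TT Q θ u m1 m2)‖ ≤
      ∑ t ∈ tup L, ∑ u ∈ (tup L).filter (fun u => DD t u ≠ 0),
        15200 * (L : ℝ) ^ 4 * Q ^ 3 * F * q * E ^ 3 :=
        sum_le_sum fun t ht => sum_le_sum fun u hu => hpair t ht u hu
    _ ≤ ∑ t ∈ tup L, ((tup L).card : ℝ) * (15200 * (L : ℝ) ^ 4 * Q ^ 3 * F * q * E ^ 3) := by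
        refine sum_le_sum fun t _ => ?_
        rw [sum_const, nsmul_eq_mul]
        refine mul_le_mul_of_nonneg_right ?_ hB0
        exact_mod_cast card_filter_le _ _
    _ = (((tup L).card : ℝ) * ((tup L).card : ℝ)) * (15200 * (L : ℝ) ^ 4 * Q ^ 3 * F * q * E ^ 3) := by
        rw [sum_const, nsmul_eq_mul]
        ring
    _ ≤ ((8 * (L : ℝ) ^ 3) * (8 * (L : ℝ) ^ 3)) * (15200 * (L : ℝ) ^ 4 * Q ^ 3 * F * q * E ^ 3) :=
        mul_le_mul_of_nonneg_right (mul_le_mul hcard hcard hc0 (by positivity)) hB0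
    _ = 972800 * ((L : ℝ) ^ 10 * (Q ^ 3 * q) * F * E ^ 3) := by ring
    _ ≤ 10 ^ 6 * ((L : ℝ) ^ 10 * (Q ^ 3 * q) * F * E ^ 3) :=
        mul_le_mul_of_nonneg_right (by norm_num) (by positivity)
    _ = _ := by rw [hqQ, hF]; ring

end Pool.Agent.Lib.KF
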