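import Pool.Agent.Lib.KF.SpecB

namespace Pool.Agent.Lib.KF

open Finset Pool.Agent.Lib.EH3

private lemma Hsq_norm_sq (s : Finset (ℕ × ℕ × ℤ)) (f : ℕ × ℕ × ℤ → ℂ) :
    ((‖∑ t ∈ s, f t‖ ^ 2 : ℝ) : ℂ) = ∑ t ∈ s, ∑ u ∈ s, f t * (starRingEnd ℂ) (f u) := by
  rw [← Complex.normSq_eq_norm_sq, ← Complex.mul_conj, map_sum, Finset.sum_mul_sum]

private lemma Hsq_split (s : Finset (ℕ × ℕ × ℤ)) (g : ℕ × ℕ × ℤ → ℝ) (t : ℕ × ℕ × ℤ) :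
    ∑ u ∈ s, g u = ∑ u ∈ s.filter (fun u => DD t u = 0), g u +
      ∑ u ∈ s.filter (fun u => DD t u ≠ 0), g u := by
  exact (Finset.sum_filter_add_sum_filter_not s (fun u => DD t u = 0) g).symm

theorem tHsq (h1 : HsaStmt) (h2 : HszStmt) : HsqStmt := by
  intro Q Y E L θ hQ hL hθ hLQ hY hL6 hθY hDB
  have hL1 : 1 ≤ L := by omega
  have hLr : (1 : ℝ) ≤ (L : ℝ) := by exact_mod_cast hL1
  have h2Q : 2 * Q ≤ Y := by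
    have : 2 * Q ≤ 4 * (L : ℝ) * Q := by nlinarith
    linarith
  have hDB2 : DB (4 * L * Q) E := by
    intro n hn hn2
    exact hDB n hn (le_trans hn2 hY)
  have e1 : ((∑ m1 ∈ dy Q, ∑ m2 ∈ dy Q, ‖∑ t ∈ tup L, TT Q θ t m1 m2‖ ^ 2 : ℝ) : ℂ) =
      ∑ t ∈ tup L, ∑ u ∈ tup L, ∑ m1 ∈ dy Q, ∑ m2 ∈ dy Q,
        TT Q θ t m1 m2 * (starRingEnd ℂ) (TT Q θ u m1 m2) := by
    push_cast
    have e2 : ∀ m1 m2 : ℕ, ((‖∑ t ∈ tup L, TT Q θ t m1 m2‖ : ℂ)) ^ 2 =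
        ∑ t ∈ tup L, ∑ u ∈ tup L, TT Q θ t m1 m2 * (starRingEnd ℂ) (TT Q θ u m1 m2) := by
      intro m1 m2
      rw [← Hsq_norm_sq]
      push_cast
      rfl
    simp_rw [e2]
    rw [Finset.sum_congr rfl (fun m1 _ => Finset.sum_comm)]
    rw [Finset.sum_comm]
    refine Finset.sum_congr rfl (fun t _ => ?_)
    rw [Finset.sum_congr rfl (fun m1 _ => Finset.sum_comm)]
    rw [Finset.sum_comm]
  have e3 : ∑ m1 ∈ dy Q, ∑ m2 ∈ dy Q, ‖∑ t ∈ tup L, TT Q θ t m1 m2‖ ^ 2 =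
      ‖((∑ m1 ∈ dy Q, ∑ m2 ∈ dy Q, ‖∑ t ∈ tup L, TT Q θ t m1 m2‖ ^ 2 : ℝ) : ℂ)‖ := by
    rw [Complex.norm_real, Real.norm_of_nonneg]
    exact Finset.sum_nonneg (fun _ _ => Finset.sum_nonneg (fun _ _ => by positivity))
  rw [e3, e1]
  have e4 : ‖∑ t ∈ tup L, ∑ u ∈ tup L, ∑ m1 ∈ dy Q, ∑ m2 ∈ dy Q,
        TT Q θ t m1 m2 * (starRingEnd ℂ) (TT Q θ u m1 m2)‖ ≤
      ∑ t ∈ tup L, ∑ u ∈ tup L, ‖∑ m1 ∈ dy Q, ∑ m2 ∈ dy Q,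
        TT Q θ t m1 m2 * (starRingEnd ℂ) (TT Q θ u m1 m2)‖ := by
    refine le_trans (norm_sum_le _ _) (Finset.sum_le_sum (fun t _ => norm_sum_le _ _))
  refine le_trans e4 ?_
  rw [Finset.sum_congr rfl (fun t _ => Hsq_split (tup L) _ t)]
  rw [Finset.sum_add_distrib]
  exact add_le_add (h2 Q E L θ hQ hL hLQ hDB2)
    (h1 Q Y E L θ hQ hL1 hθ h2Q hL6 hθY hDB)

end Pool.Agent.Lib.KF
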