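import Pool.Agent.Lib.KF.SpecB

/-! MP_00e23e_nt, part B, module Hsz. -/

namespace Pool.Agent.Lib.KF

open Finset Pool.Agent.Lib.EH3

private lemma Hsz_ei (q : ℕ) (c a : ZMod q) : ‖ei q c a‖ ≤ 1 := by
  unfold ei em
  split_ifs
  · rw [norm_ee]
  · rw [norm_zero]
    exact zero_le_one

open Classical in
private lemma Hsz_TT {Q : ℝ} (hQ : 1 ≤ Q) (θ : ℤ) (t : ℕ × ℕ × ℤ) (m1 m2 : ℕ) :
    ‖TT Q θ t m1 m2‖ ≤ if okt Q t m1 m2 then 2 * Q else 0 := by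
  unfold TT
  split_ifs with h
  · rw [norm_mul, Complex.norm_intCast]
    have h1 : (0 : ℝ) ≤ (nq t m1 m2 : ℝ) := by linarith [h.2.1]
    rw [abs_of_nonneg h1]
    calc (nq t m1 m2 : ℝ) * ‖ei (nq t m1 m2).toNat _ _‖ ≤ (nq t m1 m2 : ℝ) * 1 :=
          mul_le_mul_of_nonneg_left (Hsz_ei _ _ _) h1
      _ ≤ 2 * Q := by linarith [h.2.2.1]
  · rw [norm_zero]

open Classical in
private lemma Hsz_card (h1 : DzaStmt) (h2 : DzbStmt) (h3 : DzcStmt) {Q E : ℝ} {L : ℕ}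
    (hQ : 1 ≤ Q) (hL : 5 ≤ L) (hL40 : 4 * L * Q ≤ (L : ℝ) ^ 40) (hE : DB (4 * L * Q) E)
    {m1 m2 : ℕ} (hm1 : m1 ∈ dy Q) (hm2 : m2 ∈ dy Q) :
    ((((tup L) ×ˢ (tup L)).filter (fun w => DD w.1 w.2 = 0 ∧ okt Q w.1 m1 m2 ∧
      okt Q w.2 m1 m2)).card : ℝ) ≤ 1254402 * (((prl L).card : ℝ) ^ 2 * E) := by
  set P := ((tup L) ×ˢ (tup L)).filter (fun w => DD w.1 w.2 = 0 ∧ okt Q w.1 m1 m2 ∧
      okt Q w.2 m1 m2) with hP
  have hmem : ∀ w ∈ P, w.1 ∈ tup L ∧ w.2 ∈ tup L ∧ DD w.1 w.2 = 0 ∧ okt Q w.1 m1 m2 ∧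
      okt Q w.2 m1 m2 := by
    intro w hw
    rw [hP, mem_filter, mem_product] at hw
    exact ⟨hw.1.1, hw.1.2, hw.2.1, hw.2.2.1, hw.2.2.2⟩
  let P1 := P.filter (fun w => w.2 = w.1)
  let P2 := P.filter (fun w => w.2 = (w.1.2.1, w.1.1, -w.1.2.2))
  let P3 := P.filter (fun w => ∃ (r l l' : ℕ) (κ κ' : ℤ), r ∈ prl L ∧ l ∈ prl L ∧ l' ∈ prl L ∧
    l ≠ r ∧ l' ≠ r ∧ κ ∈ Finset.Icc (-3 : ℤ) 3 ∧ κ' ∈ Finset.Icc (-3 : ℤ) 3 ∧
      (w.1 = (l, r, l * κ) ∨ w.1 = (r, l, l * κ)) ∧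
      (w.2 = (l', r, l' * κ') ∨ w.2 = (r, l', l' * κ')))
  have hsub : P ⊆ (P1 ∪ P2) ∪ P3 := by
    intro w hw
    obtain ⟨a1, a2, a3, a4, a5⟩ := hmem w hw
    rcases h1 L w.1 w.2 hL a1 a2 a3 with h | h | h
    · exact mem_union_left _ (mem_union_left _ (mem_filter.2 ⟨hw, h⟩))
    · exact mem_union_left _ (mem_union_right _ (mem_filter.2 ⟨hw, h⟩))
    · exact mem_union_right _ (mem_filter.2 ⟨hw, h⟩)
  have c1 : (P1.card : ℝ) ≤ ((prl L).card : ℝ) ^ 2 * E := by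
    have e1 : (P1.image Prod.fst).card = P1.card := by
      refine card_image_of_injOn ?_
      intro w hw v hv h
      have hw' := (mem_filter.1 (Finset.mem_coe.1 hw)).2
      have hv' := (mem_filter.1 (Finset.mem_coe.1 hv)).2
      exact Prod.ext h (by rw [hw', hv', h])
    rw [← e1]
    refine h2 Q E L m1 m2 hQ hm1 hm2 hE _ ?_
    intro t ht
    obtain ⟨w, hw, rfl⟩ := mem_image.1 ht
    obtain ⟨a1, a2, a3, a4, a5⟩ := hmem w (mem_filter.1 hw).1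
    exact ⟨a1, a4⟩
  have c2 : (P2.card : ℝ) ≤ ((prl L).card : ℝ) ^ 2 * E := by
    have e1 : (P2.image Prod.fst).card = P2.card := by
      refine card_image_of_injOn ?_
      intro w hw v hv h
      have hw' := (mem_filter.1 (Finset.mem_coe.1 hw)).2
      have hv' := (mem_filter.1 (Finset.mem_coe.1 hv)).2
      exact Prod.ext h (by rw [hw', hv', h])
    rw [← e1]
    refine h2 Q E L m1 m2 hQ hm1 hm2 hE _ ?_
    intro t ht
    obtain ⟨w, hw, rfl⟩ := mem_image.1 ht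
    obtain ⟨a1, a2, a3, a4, a5⟩ := hmem w (mem_filter.1 hw).1
    exact ⟨a1, a4⟩
  have c3 : (P3.card : ℝ) ≤ 1254400 * ((prl L).card : ℝ) := by
    refine h3 Q L m1 m2 hQ hL hL40 hm1 hm2 _ ?_
    intro w hw
    obtain ⟨b1, b2⟩ := mem_filter.1 hw
    obtain ⟨a1, a2, a3, a4, a5⟩ := hmem w b1
    exact ⟨a1, a2, a4, a5, b2⟩
  have c4 : (P.card : ℝ) ≤ P1.card + P2.card + P3.card := by
    have e1 := (card_le_card hsub).trans ((card_union_le _ _).trans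
      (Nat.add_le_add_right (card_union_le _ _) _))
    exact_mod_cast e1
  have hE1 : 1 ≤ E := by
    have e1 := hE 1 le_rfl (by
      have : (5 : ℝ) ≤ L := by exact_mod_cast hL
      push_cast
      nlinarith)
    unfold tau at e1
    rw [Nat.divisors_one, card_singleton] at e1
    exact_mod_cast e1
  have c5 : ((prl L).card : ℝ) ≤ ((prl L).card : ℝ) ^ 2 * E := by
    have e1 : ((prl L).card : ℝ) ≤ ((prl L).card : ℝ) ^ 2 := by
      have : (prl L).card ≤ (prl L).card ^ 2 := Nat.le_self_pow (by norm_num) _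
      exact_mod_cast this
    have e2 : (0 : ℝ) ≤ ((prl L).card : ℝ) ^ 2 := by positivity
    nlinarith
  linarith

/-- Module Hsz. -/
theorem tHsz (h1 : DzaStmt) (h2 : DzbStmt) (h3 : DzcStmt) : HszStmt := by
  classical
  intro Q E L θ hQ hL hL40 hE
  have hE0 : 0 ≤ ((prl L).card : ℝ) ^ 2 * E := by
    have e1 := hE 1 le_rfl (by
      have : (5 : ℝ) ≤ L := by exact_mod_cast hL
      push_cast
      nlinarith)
    unfold tau at e1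
    rw [Nat.divisors_one, card_singleton] at e1
    have e2 : (1 : ℝ) ≤ E := by exact_mod_cast e1
    positivity
  have s1 : ∑ t ∈ tup L, ∑ u ∈ (tup L).filter (fun u => DD t u = 0),
      ‖∑ m1 ∈ dy Q, ∑ m2 ∈ dy Q, TT Q θ t m1 m2 * (starRingEnd ℂ) (TT Q θ u m1 m2)‖ ≤
      ∑ t ∈ tup L, ∑ u ∈ (tup L).filter (fun u => DD t u = 0), ∑ m1 ∈ dy Q, ∑ m2 ∈ dy Q,
        (if okt Q t m1 m2 then 2 * Q else 0) * (if okt Q u m1 m2 then 2 * Q else 0) := by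
    refine sum_le_sum fun t _ => sum_le_sum fun u _ => ?_
    refine (norm_sum_le _ _).trans (sum_le_sum fun m1 _ => ?_)
    refine (norm_sum_le _ _).trans (sum_le_sum fun m2 _ => ?_)
    rw [norm_mul, RCLike.norm_conj]
    refine mul_le_mul (Hsz_TT hQ θ t m1 m2) (Hsz_TT hQ θ u m1 m2) (norm_nonneg _) ?_
    split_ifs
    · linarith
    · exact le_rfl
  refine s1.trans ?_
  have s2 : ∑ t ∈ tup L, ∑ u ∈ (tup L).filter (fun u => DD t u = 0), ∑ m1 ∈ dy Q, ∑ m2 ∈ dy Q,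
        (if okt Q t m1 m2 then 2 * Q else 0) * (if okt Q u m1 m2 then 2 * Q else 0) =
      ∑ m1 ∈ dy Q, ∑ m2 ∈ dy Q, ((((tup L) ×ˢ (tup L)).filter (fun w => DD w.1 w.2 = 0 ∧
        okt Q w.1 m1 m2 ∧ okt Q w.2 m1 m2)).card : ℝ) * (4 * Q ^ 2) := by
    have e1 : ∀ m1 m2 : ℕ, ((((tup L) ×ˢ (tup L)).filter (fun w => DD w.1 w.2 = 0 ∧
        okt Q w.1 m1 m2 ∧ okt Q w.2 m1 m2)).card : ℝ) * (4 * Q ^ 2) =
        ∑ t ∈ tup L, ∑ u ∈ (tup L).filter (fun u => DD t u = 0),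
          (if okt Q t m1 m2 then 2 * Q else 0) * (if okt Q u m1 m2 then 2 * Q else 0) := by
      intro m1 m2
      rw [← nsmul_eq_mul, ← sum_const, sum_filter, sum_product]
      refine sum_congr rfl fun t _ => ?_
      rw [sum_filter]
      refine sum_congr rfl fun u _ => ?_
      by_cases a : DD t u = 0 <;> by_cases b : okt Q t m1 m2 <;> by_cases c : okt Q u m1 m2 <;>
        simp [a, b, c]
      ring
    rw [sum_congr rfl fun m1 _ => sum_congr rfl fun m2 _ => e1 m1 m2]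
    have e3 : ∀ t : ℕ × ℕ × ℤ, ∀ (A B : Finset ℕ) (C : Finset (ℕ × ℕ × ℤ))
        (F : ℕ × ℕ × ℤ → ℕ → ℕ → ℝ), ∑ u ∈ C, ∑ m1 ∈ A, ∑ m2 ∈ B, F u m1 m2 =
        ∑ m1 ∈ A, ∑ m2 ∈ B, ∑ u ∈ C, F u m1 m2 := by
      intro t A B C F
      rw [sum_comm]
      refine sum_congr rfl fun m1 _ => ?_
      rw [sum_comm]
    rw [sum_congr rfl fun t _ => e3 t _ _ _ _, e3 (0, 0, 0)]
  rw [s2]
  have c0 : (dy Q).card ≤ 2 * Q := card_dy_le hQ
  have s3 : ∑ m1 ∈ dy Q, ∑ m2 ∈ dy Q, ((((tup L) ×ˢ (tup L)).filter (fun w => DD w.1 w.2 = 0 ∧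
        okt Q w.1 m1 m2 ∧ okt Q w.2 m1 m2)).card : ℝ) * (4 * Q ^ 2) ≤
      ∑ m1 ∈ dy Q, ∑ m2 ∈ dy Q, (1254402 * (((prl L).card : ℝ) ^ 2 * E)) * (4 * Q ^ 2) := by
    refine sum_le_sum fun m1 hm1 => sum_le_sum fun m2 hm2 => ?_
    exact mul_le_mul_of_nonneg_right (Hsz_card h1 h2 h3 hQ hL hL40 hE hm1 hm2) (by positivity)
  refine s3.trans ?_
  rw [sum_const, sum_const, nsmul_eq_mul, nsmul_eq_mul]
  have c1 : (0 : ℝ) ≤ ((dy Q).card : ℝ) := Nat.cast_nonneg _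
  have c2 : ((dy Q).card : ℝ) * ((dy Q).card : ℝ) ≤ (2 * Q) * (2 * Q) :=
    mul_le_mul c0 c0 c1 (by linarith)
  have c3 : 0 ≤ (1254402 * (((prl L).card : ℝ) ^ 2 * E)) * (4 * Q ^ 2) := by positivity
  calc ((dy Q).card : ℝ) * (((dy Q).card : ℝ) *
        ((1254402 * (((prl L).card : ℝ) ^ 2 * E)) * (4 * Q ^ 2))) =
        (((dy Q).card : ℝ) * ((dy Q).card : ℝ)) *
        ((1254402 * (((prl L).card : ℝ) ^ 2 * E)) * (4 * Q ^ 2)) := by ring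
    _ ≤ ((2 * Q) * (2 * Q)) * ((1254402 * (((prl L).card : ℝ) ^ 2 * E)) * (4 * Q ^ 2)) :=
        mul_le_mul_of_nonneg_right c2 c3
    _ = 20070432 * (Q ^ 4 * (((prl L).card : ℝ) ^ 2 * E)) := by ring
    _ ≤ 10 ^ 8 * (Q ^ 4 * (((prl L).card : ℝ) ^ 2 * E)) := by
        have : 0 ≤ Q ^ 4 * (((prl L).card : ℝ) ^ 2 * E) := by positivity
        linarith
    _ = _ := by ring

end Pool.Agent.Lib.KF
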