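import Pool.Agent.Lib.KF.SpecK

/-!
MP_00e23e_nt, directory Lib/KF: incomplete Kloosterman sums in progressions
-/

namespace Pool.Agent.Lib.KF

open Finset Pool.Agent.Lib.EH3

private lemma Inc_bd (b j N : ℕ) (hj : 1 ≤ j) (hjb : j < b) :
    ‖GG N ((j : ℝ) / b)‖ ≤ (b : ℝ) / 2 * (1 / (j : ℝ) + 1 / ((b : ℝ) - j)) := by
  have hb : (0 : ℝ) < b := by
    have : 0 < b := by omega
    exact_mod_cast this
  have hj' : (1 : ℝ) ≤ j := by exact_mod_cast hj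
  have hjb' : (1 : ℝ) ≤ (b : ℝ) - j := by
    have : (j : ℝ) + 1 ≤ b := by exact_mod_cast hjb
    linarith
  have h1 := norm_GG_mul_le N ((j : ℝ) / b)
  set n : ℤ := round ((j : ℝ) / b) with hn
  have h2 : |(j : ℝ) / b - n| = |(j : ℝ) - b * n| / b := by
    have e : (j : ℝ) / b - n = ((j : ℝ) - b * n) / b := by
      field_simp
    rw [e, abs_div, abs_of_pos hb]
  have hG := norm_nonneg (GG N ((j : ℝ) / b))
  rw [h2] at h1
  have h3 : ‖GG N ((j : ℝ) / b)‖ * |(j : ℝ) - b * n| ≤ (b : ℝ) / 2 := by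
    have e : ‖GG N ((j : ℝ) / b)‖ * (2 * (|(j : ℝ) - b * n| / b)) =
        ‖GG N ((j : ℝ) / b)‖ * |(j : ℝ) - b * n| * (2 / b) := by ring
    rw [e] at h1
    have := mul_le_mul_of_nonneg_right h1 (by positivity : (0 : ℝ) ≤ b / 2)
    calc ‖GG N ((j : ℝ) / b)‖ * |(j : ℝ) - b * n| =
        ‖GG N ((j : ℝ) / b)‖ * |(j : ℝ) - b * n| * (2 / b) * (b / 2) := by field_simp
      _ ≤ 1 * (b / 2) := this
      _ = b / 2 := one_mul _
  rcases le_or_gt n 0 with h4 | h4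
  · have h5 : (j : ℝ) ≤ |(j : ℝ) - b * n| := by
      have h6 : (b : ℝ) * n ≤ 0 := mul_nonpos_of_nonneg_of_nonpos hb.le (by exact_mod_cast h4)
      rw [abs_of_nonneg (by linarith)]
      linarith
    have h7 : ‖GG N ((j : ℝ) / b)‖ * j ≤ (b : ℝ) / 2 :=
      (mul_le_mul_of_nonneg_left h5 hG).trans h3
    have h8 : ‖GG N ((j : ℝ) / b)‖ ≤ (b : ℝ) / 2 / j := by
      rw [le_div_iff₀ (by linarith)]
      exact h7
    have h9 : (0 : ℝ) ≤ (b : ℝ) / 2 * (1 / ((b : ℝ) - j)) := by positivity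
    calc ‖GG N ((j : ℝ) / b)‖ ≤ (b : ℝ) / 2 / j := h8
      _ ≤ (b : ℝ) / 2 * (1 / (j : ℝ)) + (b : ℝ) / 2 * (1 / ((b : ℝ) - j)) := by
        rw [mul_one_div]
        linarith
      _ = _ := by ring
  · have h5 : (b : ℝ) - j ≤ |(j : ℝ) - b * n| := by
      have h6 : (1 : ℝ) ≤ n := by
        have : 1 ≤ n := by omega
        exact_mod_cast this
      have h7 : (b : ℝ) * 1 ≤ b * n := mul_le_mul_of_nonneg_left h6 hb.le
      rw [abs_of_nonpos (by linarith)]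
      linarith
    have h7 : ‖GG N ((j : ℝ) / b)‖ * ((b : ℝ) - j) ≤ (b : ℝ) / 2 :=
      (mul_le_mul_of_nonneg_left h5 hG).trans h3
    have h8 : ‖GG N ((j : ℝ) / b)‖ ≤ (b : ℝ) / 2 / ((b : ℝ) - j) := by
      rw [le_div_iff₀ (by linarith)]
      exact h7
    have h9 : (0 : ℝ) ≤ (b : ℝ) / 2 * (1 / (j : ℝ)) := by positivity
    calc ‖GG N ((j : ℝ) / b)‖ ≤ (b : ℝ) / 2 / ((b : ℝ) - j) := h8
      _ ≤ (b : ℝ) / 2 * (1 / (j : ℝ)) + (b : ℝ) / 2 * (1 / ((b : ℝ) - j)) := by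
        rw [mul_one_div ((b : ℝ) / 2) ((b : ℝ) - j)]
        linarith
      _ = _ := by ring

private lemma Inc_sum (b T : ℕ) (hb : 1 ≤ b) :
    ∑ j ∈ range b, ‖GG T ((j : ℝ) / b)‖ ≤ (T : ℝ) + b * (1 + Real.log b) := by
  obtain ⟨c, rfl⟩ : ∃ c, b = c + 1 := ⟨b - 1, by omega⟩
  rw [Finset.sum_range_succ']
  have h0 : ‖GG T (((0 : ℕ) : ℝ) / ((c + 1 : ℕ) : ℝ))‖ ≤ (T : ℝ) := norm_GG_le T _
  have h1 : ∀ j ∈ range c, ‖GG T (((j + 1 : ℕ) : ℝ) / ((c + 1 : ℕ) : ℝ))‖ ≤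
      ((c + 1 : ℕ) : ℝ) / 2 * (1 / ((j + 1 : ℕ) : ℝ)) +
        ((c + 1 : ℕ) : ℝ) / 2 * (1 / (((c - 1 - j : ℕ) + 1 : ℕ) : ℝ)) := by
    intro j hj
    have hj' := mem_range.1 hj
    have h2 := Inc_bd (c + 1) (j + 1) T (by omega) (by omega)
    have e : ((c + 1 : ℕ) : ℝ) - ((j + 1 : ℕ) : ℝ) = (((c - 1 - j : ℕ) + 1 : ℕ) : ℝ) := by
      rw [← Nat.cast_sub (by omega)]
      apply congrArg
      omega
    rw [e] at h2
    linarith
  have hsum : ∑ j ∈ range c, (1 / (((c - 1 - j : ℕ) + 1 : ℕ) : ℝ)) =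
      ∑ j ∈ range c, (1 / ((j + 1 : ℕ) : ℝ)) :=
    Finset.sum_range_reflect (fun j => 1 / ((j + 1 : ℕ) : ℝ)) c
  have hharm : ∑ j ∈ range c, (1 / ((j + 1 : ℕ) : ℝ)) ≤ 1 + Real.log ((c + 1 : ℕ) : ℝ) := by
    have h3 := harmonic_le_one_add_log c
    have h4 : ((harmonic c : ℚ) : ℝ) = ∑ j ∈ range c, (1 / ((j + 1 : ℕ) : ℝ)) := by
      unfold harmonic
      push_cast
      exact Finset.sum_congr rfl fun j _ => by rw [one_div]
    rw [← h4]
    refine h3.trans ?_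
    rcases Nat.eq_zero_or_pos c with hc | hc
    · subst hc
      simp
    · have : Real.log (c : ℝ) ≤ Real.log ((c + 1 : ℕ) : ℝ) :=
        Real.log_le_log (by exact_mod_cast hc) (by exact_mod_cast Nat.le_succ c)
      linarith
  have h5 := Finset.sum_le_sum h1
  rw [Finset.sum_add_distrib, ← Finset.mul_sum, ← Finset.mul_sum, hsum] at h5
  have h6 : (0 : ℝ) ≤ ((c + 1 : ℕ) : ℝ) := by positivity
  have h7 := mul_le_mul_of_nonneg_left hharm h6
  calc _ ≤ (((c + 1 : ℕ) : ℝ) / 2 * ∑ j ∈ range c, (1 / ((j + 1 : ℕ) : ℝ)) +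
        ((c + 1 : ℕ) : ℝ) / 2 * ∑ j ∈ range c, (1 / ((j + 1 : ℕ) : ℝ))) + (T : ℝ) :=
        add_le_add h5 h0
    _ = ((c + 1 : ℕ) : ℝ) * ∑ j ∈ range c, (1 / ((j + 1 : ℕ) : ℝ)) + (T : ℝ) := by ring
    _ ≤ ((c + 1 : ℕ) : ℝ) * (1 + Real.log ((c + 1 : ℕ) : ℝ)) + (T : ℝ) := by linarith
    _ = _ := by ring

private lemma Inc_zmod (q : ℕ) [NeZero q] (f : ℕ → ℝ) :
    ∑ a : ZMod q, f a.val = ∑ j ∈ range q, f j := by
  refine Finset.sum_nbij' (fun a => a.val) (fun j => (j : ZMod q)) ?_ ?_ ?_ ?_ ?_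
  · intro a _
    exact mem_range.2 (ZMod.val_lt a)
  · intro j _
    exact mem_univ _
  · intro a _
    exact ZMod.natCast_zmod_val a
  · intro j hj
    exact ZMod.val_cast_of_lt (mem_range.1 hj)
  · intro a _
    rfl

private lemma Inc_exp (h1 : EmStmt) (q : ℕ) [NeZero q] (c n : ZMod q) :
    (q : ℂ) * ei q c n = ∑ h : ZMod q, kl q c (-h) * em q (h * n) := by
  obtain ⟨e1, -, -, -, -, e6, -, -, -⟩ := h1
  have hq : 1 ≤ q := Nat.one_le_iff_ne_zero.2 (NeZero.ne q)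
  have hR : ∑ h : ZMod q, kl q c (-h) * em q (h * n) =
      ∑ x : (ZMod q)ˣ, em q (c * ((x⁻¹ : (ZMod q)ˣ) : ZMod q)) *
        (if n - (x : ZMod q) = 0 then (q : ℂ) else 0) := by
    have hh : ∀ h : ZMod q, kl q c (-h) * em q (h * n) =
        ∑ x : (ZMod q)ˣ, em q (c * ((x⁻¹ : (ZMod q)ˣ) : ZMod q)) *
          em q (h * (n - (x : ZMod q))) := by
      intro h
      unfold kl
      rw [Finset.sum_mul]
      refine Finset.sum_congr rfl fun x _ => ?_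
      rw [← e1 q _ _ hq, ← e1 q _ _ hq]
      apply congrArg
      ring
    rw [Finset.sum_congr rfl fun h _ => hh h, Finset.sum_comm]
    refine Finset.sum_congr rfl fun x _ => ?_
    rw [← Finset.mul_sum, e6 q (n - x)]
  rw [hR]
  unfold ei
  by_cases hn : IsUnit n
  · rw [if_pos hn]
    obtain ⟨u, rfl⟩ := hn
    rw [Finset.sum_eq_single u]
    · rw [sub_self, if_pos rfl, ZMod.inv_coe_unit, mul_comm]
    · intro x _ hx
      rw [if_neg, mul_zero]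
      intro h
      exact hx (Units.ext (sub_eq_zero.1 h)).symm
    · intro h
      exact absurd (mem_univ _) h
  · rw [if_neg hn, mul_zero]
    symm
    apply Finset.sum_eq_zero
    intro x _
    rw [if_neg, mul_zero]
    intro h
    exact hn (by rw [sub_eq_zero.1 h]; exact x.isUnit)

theorem tInc (h1 : EmStmt) (h2 : KlsStmt) : IncStmt := by
  intro q _ c P r T hP
  have hexp := Inc_exp h1 q c
  obtain ⟨e1, -, e3, -, e5, -, -, -, -⟩ := h1
  have hq : 1 ≤ q := Nat.one_le_iff_ne_zero.2 (NeZero.ne q)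
  have hq0 : (0 : ℝ) < q := by
    have : 0 < q := by omega
    exact_mod_cast this
  set Y : ℝ := 2 * (tau q) ^ 2 * (Nat.gcd c.val q : ℝ) * (q : ℝ) ^ 3 with hY
  have hkl : ∀ h : ZMod q, ‖kl q c h‖ ≤ Y ^ ((1 : ℝ) / 4) := by
    intro h
    have h3 := h2 q c h
    rw [← hY] at h3
    have h4 : ‖kl q c h‖ = (‖kl q c h‖ ^ 4) ^ ((1 : ℝ) / 4) := by
      rw [← Real.rpow_natCast, ← Real.rpow_mul (norm_nonneg _)]
      norm_num
    rw [h4]
    exact Real.rpow_le_rpow (by positivity) h3 (by norm_num)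
  -- the geometric sums
  have hgeo : ∀ a : ZMod q, ‖∑ t ∈ range T, em q (a * ((t : ℕ) : ZMod q))‖ =
      ‖GG T ((a.val : ℝ) / q)‖ := by
    intro a
    unfold GG
    apply congrArg
    refine Finset.sum_congr rfl fun t _ => ?_
    have e : a * ((t : ℕ) : ZMod q) = (((a.val * t : ℕ) : ℤ) : ZMod q) := by
      push_cast
      rw [ZMod.natCast_zmod_val]
    rw [e, e5 q _ hq]
    apply congrArg
    push_cast
    ring
  have hunit : IsUnit ((P : ℕ) : ZMod q) := (ZMod.isUnit_iff_coprime P q).2 hP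
  obtain ⟨u, hu⟩ := hunit
  have hbij : ∑ h : ZMod q, ‖GG T (((h * ((P : ℕ) : ZMod q)).val : ℝ) / q)‖ =
      ∑ a : ZMod q, ‖GG T ((a.val : ℝ) / q)‖ := by
    rw [← hu]
    exact Equiv.sum_comp (Units.mulRight u) (fun a : ZMod q => ‖GG T ((a.val : ℝ) / q)‖)
  have hsum : ∑ a : ZMod q, ‖GG T ((a.val : ℝ) / q)‖ ≤ (T : ℝ) + q * (1 + Real.log q) := by
    rw [Inc_zmod q (fun j => ‖GG T ((j : ℝ) / q)‖)]
    exact Inc_sum q T hq
  -- the expansion of the sum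
  have hS : (q : ℂ) * ∑ t ∈ range T, ei q c ((r + P * t : ℕ) : ZMod q) =
      ∑ h : ZMod q, kl q c (-h) * (em q (h * ((r : ℕ) : ZMod q)) *
        ∑ t ∈ range T, em q (h * ((P : ℕ) : ZMod q) * ((t : ℕ) : ZMod q))) := by
    rw [Finset.mul_sum, Finset.sum_congr rfl fun t _ => hexp _, Finset.sum_comm]
    refine Finset.sum_congr rfl fun h _ => ?_
    rw [← Finset.mul_sum, Finset.mul_sum (a := em q (h * ((r : ℕ) : ZMod q)))]
    apply congrArg
    refine Finset.sum_congr rfl fun t _ => ?_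
    rw [← e1 q _ _ hq]
    apply congrArg
    push_cast
    ring
  have hM : (0 : ℝ) ≤ Y ^ ((1 : ℝ) / 4) := (norm_nonneg _).trans (hkl 0)
  have hn : (q : ℝ) * ‖∑ t ∈ range T, ei q c ((r + P * t : ℕ) : ZMod q)‖ ≤
      Y ^ ((1 : ℝ) / 4) * ((T : ℝ) + q * (1 + Real.log q)) := by
    have e : (q : ℝ) * ‖∑ t ∈ range T, ei q c ((r + P * t : ℕ) : ZMod q)‖ =
        ‖(q : ℂ) * ∑ t ∈ range T, ei q c ((r + P * t : ℕ) : ZMod q)‖ := by
      rw [norm_mul, Complex.norm_natCast]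
    rw [e, hS]
    refine (norm_sum_le _ _).trans ?_
    have h3 : ∀ h ∈ (univ : Finset (ZMod q)), ‖kl q c (-h) * (em q (h * ((r : ℕ) : ZMod q)) *
        ∑ t ∈ range T, em q (h * ((P : ℕ) : ZMod q) * ((t : ℕ) : ZMod q)))‖ ≤
        Y ^ ((1 : ℝ) / 4) * ‖GG T (((h * ((P : ℕ) : ZMod q)).val : ℝ) / q)‖ := by
      intro h _
      rw [norm_mul, norm_mul, e3, one_mul, hgeo]
      exact mul_le_mul_of_nonneg_right (hkl _) (norm_nonneg _)
    refine (Finset.sum_le_sum h3).trans ?_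
    rw [← Finset.mul_sum, hbij]
    exact mul_le_mul_of_nonneg_left hsum hM
  have h5 : ‖∑ t ∈ range T, ei q c ((r + P * t : ℕ) : ZMod q)‖ ≤
      (Y ^ ((1 : ℝ) / 4) * ((T : ℝ) + q * (1 + Real.log q))) / q := by
    rw [le_div_iff₀ hq0, mul_comm]
    exact hn
  refine h5.trans (le_of_eq ?_)
  field_simp
  ring

end Pool.Agent.Lib.KF
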