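import Pool.Agent.Lib.KF.SpecB

/-!
MP_00e23e_nt, Lib/KF, part B, module Kap: the term of one triple.
-/

namespace Pool.Agent.Lib.KF

open Finset Pool.Agent.Lib.EH3

/-- the condition on n -/
private def Kap_R (l1 l2 g : ℕ) (n : ℤ) : Prop :=
  ¬ (l1 : ℤ) ∣ n ∧ ¬ (l2 : ℤ) ∣ n ∧ Int.gcd n ((l1 * g : ℕ) : ℤ) = 1

/-- the phase modulo l1 g -/
private noncomputable def Kap_F (l1 g mo : ℕ) (c n : ℤ) : ℂ :=
  (starRingEnd ℂ) (em (l1 * g)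
    ((c : ZMod (l1 * g)) * ((n : ZMod (l1 * g)) * (mo : ZMod (l1 * g)))⁻¹))

open Classical in
/-- the periodic factor -/
private noncomputable def Kap_k (l1 l2 g mo : ℕ) (k c : ℤ) (m : ℕ) : ℂ :=
  if k ∣ ((l1 : ℤ) * ((g * mo : ℕ) : ℤ) - l2 * m) ∧
      Kap_R l1 l2 g (((l1 : ℤ) * ((g * mo : ℕ) : ℤ) - l2 * m) / k) then
    Kap_F l1 g mo c (((l1 : ℤ) * ((g * mo : ℕ) : ℤ) - l2 * m) / k) else 0

private lemma Kap_shift (l1 l2 g mo : ℕ) (k : ℤ) (m : ℕ) :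
    (l1 : ℤ) * ((g * mo : ℕ) : ℤ) - l2 * ((m + k.natAbs * l1 * g : ℕ) : ℤ) =
      ((l1 : ℤ) * ((g * mo : ℕ) : ℤ) - l2 * m) + k * (-(k.sign * l2 * (l1 * g : ℕ))) := by
  have h : k * k.sign = (k.natAbs : ℤ) := Int.mul_sign_self k
  rw [Int.natCast_natAbs] at h
  push_cast
  linear_combination ((l2 : ℤ) * l1 * g) * h

private lemma Kap_R_add (l1 l2 g : ℕ) (n w : ℤ) :
    Kap_R l1 l2 g (n + (-(w * l2 * (l1 * g : ℕ)))) ↔ Kap_R l1 l2 g n := by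
  unfold Kap_R
  have h1 : (l1 : ℤ) ∣ -(w * l2 * (l1 * g : ℕ)) := by
    refine (dvd_neg).mpr ?_
    push_cast
    exact ⟨w * l2 * g, by ring⟩
  have h2 : (l2 : ℤ) ∣ -(w * l2 * (l1 * g : ℕ)) := by
    refine (dvd_neg).mpr ?_
    push_cast
    exact ⟨w * (l1 * g), by ring⟩
  have h3 : Int.gcd (n + (-(w * l2 * (l1 * g : ℕ)))) ((l1 * g : ℕ) : ℤ) =
      Int.gcd n ((l1 * g : ℕ) : ℤ) := by
    have : n + (-(w * l2 * (l1 * g : ℕ))) = n + ((l1 * g : ℕ) : ℤ) * (-(w * l2)) := by ring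
    rw [this]
    exact Int.gcd_add_mul_left_left _ _ _
  rw [dvd_add_left h1, dvd_add_left h2, h3]

private lemma Kap_F_add (l1 l2 g mo : ℕ) (c n w : ℤ) :
    Kap_F l1 g mo c (n + (-(w * l2 * (l1 * g : ℕ)))) = Kap_F l1 g mo c n := by
  unfold Kap_F
  have h : ((n + (-(w * l2 * (l1 * g : ℕ))) : ℤ) : ZMod (l1 * g)) = (n : ZMod (l1 * g)) := by
    have h0 : (((l1 * g : ℕ) : ℤ) : ZMod (l1 * g)) = 0 := by
      rw [Int.cast_natCast]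
      exact ZMod.natCast_self _
    rw [Int.cast_add, Int.cast_neg, Int.cast_mul, h0, mul_zero, neg_zero, add_zero]
  rw [h]

private lemma Kap_per (l1 l2 g mo : ℕ) (k c : ℤ) (hk : k ≠ 0) (m : ℕ) :
    Kap_k l1 l2 g mo k c (m + k.natAbs * l1 * g) = Kap_k l1 l2 g mo k c m := by
  have h : k ∣ ((l1 : ℤ) * ((g * mo : ℕ) : ℤ) - l2 * m) + k * (-(k.sign * l2 * (l1 * g : ℕ))) ↔
      k ∣ ((l1 : ℤ) * ((g * mo : ℕ) : ℤ) - l2 * m) := by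
    rw [dvd_add_left (dvd_mul_right _ _)]
  unfold Kap_k
  rw [Kap_shift, Int.add_mul_ediv_left _ _ hk, Kap_F_add]
  by_cases h' : k ∣ ((l1 : ℤ) * ((g * mo : ℕ) : ℤ) - l2 * m) ∧
      Kap_R l1 l2 g (((l1 : ℤ) * ((g * mo : ℕ) : ℤ) - l2 * m) / k)
  · rw [if_pos h', if_pos ⟨h.mpr h'.1, (Kap_R_add _ _ _ _ _).mpr h'.2⟩]
  · rw [if_neg h', if_neg]
    intro h2
    exact h' ⟨h.mp h2.1, (Kap_R_add _ _ _ _ _).mp h2.2⟩

private lemma Kap_norm (h1 : EmStmt) (l1 l2 g mo : ℕ) (k c : ℤ) (m : ℕ) :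
    ‖Kap_k l1 l2 g mo k c m‖ ≤ 1 := by
  unfold Kap_k
  split_ifs with h
  · unfold Kap_F
    rw [RCLike.norm_conj, h1.2.2.1]
  · simp

private lemma Kap_formula (h2 : PhsStmt) (Q : ℝ) (θ : ℤ) (l1 l2 g mo : ℕ) (k : ℤ) (m : ℕ)
    (hQ : 1 ≤ Q) (hl1 : 1 ≤ l1) (hl2 : 1 ≤ l2) (hk : k ≠ 0) (hg : 1 ≤ g) (hmo : 1 ≤ mo)
    (hc : mo.Coprime (k.natAbs * l1 * l2 * g)) :
    TT Q θ (l1, l2, k) (g * mo) m = Kap_k l1 l2 g mo k (θ * ((l1 : ℤ) - l2)) m *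
        (if Q < ((l1 : ℝ) * (g * mo) - l2 * m) / k ∧ ((l1 : ℝ) * (g * mo) - l2 * m) / k ≤ 2 * Q then
          ((((l1 : ℝ) * (g * mo) - l2 * m) / k : ℝ) : ℂ) *
            ee ((θ * ((l1 : ℝ) - l2) / (l1 * (g * mo))) / (((l1 : ℝ) * (g * mo) - l2 * m) / k))
          else 0) *
        ei mo (((θ * ((l1 : ℤ) - l2) * k : ℤ) : ZMod mo) * (((l1 * l2 * g : ℕ) : ZMod mo))⁻¹)
          (m : ZMod mo) := by
  have hk0 : (k : ℝ) ≠ 0 := by exact_mod_cast hk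
  by_cases hd : k ∣ (l1 : ℤ) * ((g * mo : ℕ) : ℤ) - l2 * m
  swap
  · have e1 : ¬ okt Q (l1, l2, k) (g * mo) m := by
      intro h
      exact hd h.1
    have e2 : Kap_k l1 l2 g mo k (θ * ((l1 : ℤ) - l2)) m = 0 := by
      unfold Kap_k
      rw [if_neg]
      intro h
      exact hd h.1
    unfold TT
    rw [if_neg e1, e2]
    simp
  obtain ⟨n, hn⟩ := hd
  have hnd : ((l1 : ℤ) * ((g * mo : ℕ) : ℤ) - l2 * m) / k = n := by
    rw [hn, Int.mul_ediv_cancel_left _ hk]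
  have hnq : nq (l1, l2, k) (g * mo) m = n := hnd
  have hν : ((l1 : ℝ) * (g * mo) - l2 * m) / k = (n : ℝ) := by
    rw [div_eq_iff hk0]
    have := congrArg (fun z : ℤ => (z : ℝ)) hn
    push_cast at this
    linarith
  by_cases hw : Q < (n : ℝ) ∧ (n : ℝ) ≤ 2 * Q
  swap
  · have e1 : ¬ okt Q (l1, l2, k) (g * mo) m := by
      intro h
      rw [← hnq] at hw
      exact hw ⟨h.2.1, h.2.2.1⟩
    unfold TT
    rw [if_neg e1, hν, if_neg hw]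
    simp
  have hn0 : 1 ≤ n := by
    have : (0 : ℝ) < n := by linarith [hw.1]
    have : 0 < n := by exact_mod_cast this
    omega
  obtain ⟨N, hN⟩ : ∃ N : ℕ, n = (N : ℤ) := ⟨n.toNat, by omega⟩
  subst hN
  have hN1 : 1 ≤ N := by omega
  have hNr : (0 : ℝ) < N := by exact_mod_cast hN1
  by_cases hR : ¬ (l1 : ℤ) ∣ (N : ℤ) ∧ ¬ (l2 : ℤ) ∣ (N : ℤ)
  swap
  · have e1 : ¬ okt Q (l1, l2, k) (g * mo) m := by
      intro h
      have h' := h.2.2.2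
      rw [hnq] at h'
      exact hR h'
    have e2 : Kap_k l1 l2 g mo k (θ * ((l1 : ℤ) - l2)) m = 0 := by
      unfold Kap_k
      rw [if_neg]
      intro h
      rw [hnd] at h
      exact hR ⟨h.2.1, h.2.2.1⟩
    unfold TT
    rw [if_neg e1, e2]
    simp
  have hok : okt Q (l1, l2, k) (g * mo) m := by
    refine ⟨⟨N, hn⟩, ?_, ?_, ?_, ?_⟩
    · rw [hnq]; exact hw.1
    · rw [hnq]; exact hw.2
    · rw [hnq]; exact hR.1
    · rw [hnq]; exact hR.2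
  have hphs := h2 l1 l2 g mo m N k (θ * ((l1 : ℤ) - l2)) hl1 hl2 hg hmo hN1
    (by rw [← hn]; push_cast; ring) hc
  have hTT : TT Q θ (l1, l2, k) (g * mo) m = ((N : ℤ) : ℂ) *
      ei N ((θ * ((l1 : ℤ) - l2) : ℤ) : ZMod N) ((l1 * (g * mo) : ℕ) : ZMod N) := by
    unfold TT
    rw [if_pos hok, hnq]
    simp only [Int.toNat_natCast]
  rw [hTT, hphs, hν, if_pos hw]
  have hee : (((θ * ((l1 : ℤ) - l2) : ℤ) : ℝ) / ((l1 : ℝ) * (g * mo) * N)) =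
      (θ * ((l1 : ℝ) - l2) / (l1 * (g * mo))) / ((N : ℤ) : ℝ) := by
    push_cast
    rw [div_div]
  rw [hee]
  have hκ : Kap_k l1 l2 g mo k (θ * ((l1 : ℤ) - l2)) m =
      if N.Coprime (l1 * g) then
        (starRingEnd ℂ) (em (l1 * g) (((θ * ((l1 : ℤ) - l2) : ℤ) : ZMod (l1 * g)) *
          ((N : ZMod (l1 * g)) * (mo : ZMod (l1 * g)))⁻¹))
        else 0 := by
    unfold Kap_k
    rw [hnd]
    by_cases hcop : N.Coprime (l1 * g)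
    · rw [if_pos hcop, if_pos]
      · unfold Kap_F
        rw [Int.cast_natCast]
      · refine ⟨⟨N, hn⟩, hR.1, hR.2, ?_⟩
        rw [Int.gcd_natCast_natCast]
        exact hcop
    · rw [if_neg hcop, if_neg]
      rintro ⟨-, -, -, h⟩
      rw [Int.gcd_natCast_natCast] at h
      exact hcop h
  rw [hκ]
  push_cast
  ring

/-- Module Kap: the term of one triple. -/
theorem tKap (h1 : EmStmt) (h2 : PhsStmt) : KapStmt := by
  rintro Q θ ⟨l1, l2, k⟩ g mo hQ hl1 hl2 hk hg hmo hc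
  simp only at hl1 hl2 hk hc
  exact ⟨Kap_k l1 l2 g mo k (θ * ((l1 : ℤ) - l2)), fun m => Kap_per l1 l2 g mo k _ hk m,
    fun m => Kap_norm h1 l1 l2 g mo k _ m,
    fun m => Kap_formula h2 Q θ l1 l2 g mo k m hQ hl1 hl2 hk hg hmo hc⟩

end Pool.Agent.Lib.KF
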