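import Mathlib

/-!
# Kloosterman's bound: the count

For a natural number `q` the number of quadruples of units of `ZMod q` with `x + y = z + w` and
`x⁻¹ + y⁻¹ = z⁻¹ + w⁻¹` is at most `2 q φ(q) τ(q)²`.
-/

open Finset

namespace Pool.Lib.KF

variable {q : ℕ} [NeZero q]

/-- Divisibility by a divisor of the modulus. -/
theorem dvd_iff_val {d : ℕ} (hd : d ∣ q) (a : ZMod q) : (d : ZMod q) ∣ a ↔ d ∣ a.val := by
  constructor
  · rintro ⟨t, ht⟩
    have h1 : a = ((d * t.val : ℕ) : ZMod q) := by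
      rw [ht]; push_cast; rw [ZMod.natCast_zmod_val]
    rw [h1, ZMod.val_natCast]
    exact (Nat.dvd_mod_iff hd).mpr (dvd_mul_right d _)
  · rintro ⟨t, ht⟩
    refine ⟨(t : ZMod q), ?_⟩
    rw [← ZMod.natCast_zmod_val a, ht]
    push_cast
    rfl

theorem card_mult_le {d : ℕ} (hd : d ∣ q) :
    (univ.filter (fun a : ZMod q => (d : ZMod q) ∣ a)).card ≤ q / d := by
  have hq : 0 < q := Nat.pos_of_ne_zero (NeZero.ne q)
  have hd0 : 0 < d := Nat.pos_of_dvd_of_pos hd hq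
  have h : (univ.filter (fun a : ZMod q => (d : ZMod q) ∣ a)).card
      ≤ (range (q / d)).card := by
    apply card_le_card_of_injOn (fun a : ZMod q => a.val / d)
    · intro a ha
      simp only [coe_range, Set.mem_Iio]
      exact Nat.div_lt_div_of_lt_of_dvd hd (ZMod.val_lt a)
    · intro a ha b hb hab
      simp only [coe_filter, mem_univ, true_and, Set.mem_ofPred_eq, dvd_iff_val hd] at ha hb
      have h1 : a.val = b.val := by
        rw [← Nat.div_mul_cancel ha, ← Nat.div_mul_cancel hb]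
        simp only at hab
        rw [hab]
      exact ZMod.val_injective q h1
  rwa [card_range] at h

theorem lcm_dvd_zmod {d e : ℕ} (hd : d ∣ q) (he : e ∣ q) {a : ZMod q} (h1 : (d : ZMod q) ∣ a)
    (h2 : (e : ZMod q) ∣ a) : ((Nat.lcm d e : ℕ) : ZMod q) ∣ a := by
  rw [dvd_iff_val (Nat.lcm_dvd hd he)]
  exact Nat.lcm_dvd ((dvd_iff_val hd a).mp h1) ((dvd_iff_val he a).mp h2)

/-- Two congruences. -/
theorem card_two_le {d e : ℕ} (hd : d ∣ q) (he : e ∣ q) (a b : ZMod q) :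
    (univ.filter (fun y : ZMod q => (d : ZMod q) ∣ y - a ∧ (e : ZMod q) ∣ y - b)).card
      ≤ q / Nat.lcm d e := by
  rcases (univ.filter (fun y : ZMod q => (d : ZMod q) ∣ y - a ∧ (e : ZMod q) ∣ y - b)).eq_empty_or_nonempty
    with h | ⟨y0, h0⟩
  · rw [h]; simp
  · simp only [mem_filter, mem_univ, true_and] at h0
    refine le_trans ?_ (card_mult_le (Nat.lcm_dvd hd he))
    apply card_le_card_of_injOn (fun y => y - y0)
    · intro y hy
      simp only [coe_filter, mem_univ, true_and, Set.mem_ofPred_eq] at hy ⊢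
      apply lcm_dvd_zmod hd he
      · have := dvd_sub hy.1 h0.1
        simpa using this
      · have := dvd_sub hy.2 h0.2
        simpa using this
    · intro y _ y' _ h
      simpa using h

/-- The three congruences. -/
def Tri (d1 d2 d3 : ℕ) : Finset ((ZMod q)ˣ × (ZMod q)ˣ × (ZMod q)ˣ) :=
  univ.filter (fun p => (d1 : ZMod q) ∣ (p.1 : ZMod q) + p.2.1 ∧
    (d2 : ZMod q) ∣ (p.2.2 : ZMod q) - p.1 ∧ (d3 : ZMod q) ∣ (p.2.1 : ZMod q) - p.2.2)

theorem gcd_le_two {d2 e : ℕ} (hd2 : d2 ∣ q) {x : (ZMod q)ˣ} {z : ZMod q}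
    (h1 : (d2 : ZMod q) ∣ z - x) (h2 : (e : ZMod q) ∣ z + x) : Nat.gcd d2 e ≤ 2 := by
  have hg : Nat.gcd d2 e ∣ q := (Nat.gcd_dvd_left _ _).trans hd2
  have g1 : ((Nat.gcd d2 e : ℕ) : ZMod q) ∣ z - x :=
    (Nat.cast_dvd_cast (Nat.gcd_dvd_left d2 e)).trans h1
  have g2 : ((Nat.gcd d2 e : ℕ) : ZMod q) ∣ z + x :=
    (Nat.cast_dvd_cast (Nat.gcd_dvd_right d2 e)).trans h2
  have g3 : ((Nat.gcd d2 e : ℕ) : ZMod q) ∣ 2 := by
    have h3 := dvd_sub g2 g1
    have e3 : z + (x : ZMod q) - (z - x) = 2 * x := by ring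
    rw [e3] at h3
    exact (Units.dvd_mul_right).mp h3
  rw [show (2 : ZMod q) = ((2 : ℕ) : ZMod q) by norm_cast] at g3
  have g4 := (dvd_iff_val hg _).mp g3
  rw [ZMod.val_natCast, Nat.dvd_mod_iff hg] at g4
  exact Nat.le_of_dvd (by norm_num) g4

theorem arith {d1 d2 d3 : ℕ} (h : d1 * d2 * d3 = q) :
    q / Nat.lcm d2 (Nat.gcd d1 d3) * (q / Nat.lcm d1 d3) = q * Nat.gcd d2 (Nat.gcd d1 d3) := by
  have hq : 0 < q := Nat.pos_of_ne_zero (NeZero.ne q)
  have k1 : d1 ∣ q := ⟨d2 * d3, by rw [← h]; ring⟩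
  have k2 : d2 ∣ q := ⟨d1 * d3, by rw [← h]; ring⟩
  have k3 : d3 ∣ q := ⟨d1 * d2, by rw [← h]; ring⟩
  have ke : Nat.gcd d1 d3 ∣ q := (Nat.gcd_dvd_left _ _).trans k1
  have l1 : Nat.lcm d2 (Nat.gcd d1 d3) ∣ q := Nat.lcm_dvd k2 ke
  have l2 : Nat.lcm d1 d3 ∣ q := Nat.lcm_dvd k1 k3
  have e0 : 0 < Nat.gcd d1 d3 := Nat.pos_of_dvd_of_pos ke hq
  have L10 : 0 < Nat.lcm d2 (Nat.gcd d1 d3) := Nat.pos_of_dvd_of_pos l1 hq
  have L20 : 0 < Nat.lcm d1 d3 := Nat.pos_of_dvd_of_pos l2 hq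
  obtain ⟨u, hu⟩ := l1
  obtain ⟨v, hv⟩ := l2
  have m1 : Nat.gcd d2 (Nat.gcd d1 d3) * Nat.lcm d2 (Nat.gcd d1 d3) = d2 * Nat.gcd d1 d3 :=
    Nat.gcd_mul_lcm _ _
  have m2 : Nat.gcd d1 d3 * Nat.lcm d1 d3 = d1 * d3 := Nat.gcd_mul_lcm _ _
  set L1 := Nat.lcm d2 (Nat.gcd d1 d3)
  set L2 := Nat.lcm d1 d3
  set g := Nat.gcd d2 (Nat.gcd d1 d3)
  set e := Nat.gcd d1 d3
  have r1 : q / L1 = u := by rw [hu]; exact Nat.mul_div_cancel_left u L10
  have r2 : q / L2 = v := by rw [hv]; exact Nat.mul_div_cancel_left v L20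
  rw [r1, r2]
  have m3 : L1 * L2 * g = q := by
    have : e * (L1 * L2 * g) = e * q := by
      calc e * (L1 * L2 * g) = (g * L1) * (e * L2) := by ring
        _ = (d2 * e) * (d1 * d3) := by rw [m1, m2]
        _ = e * (d1 * d2 * d3) := by ring
        _ = e * q := by rw [h]
    exact Nat.eq_of_mul_eq_mul_left e0 this
  have m4 : (L1 * L2) * (u * v) = (L1 * L2) * (q * g) := by
    calc (L1 * L2) * (u * v) = (L1 * u) * (L2 * v) := by ring
      _ = q * q := by rw [← hu, ← hv]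
      _ = q * (L1 * L2 * g) := by rw [m3]
      _ = (L1 * L2) * (q * g) := by ring
  exact Nat.eq_of_mul_eq_mul_left (Nat.mul_pos L10 L20) m4

theorem card_tri_le {d1 d2 d3 : ℕ} (h : d1 * d2 * d3 = q) :
    (Tri (q := q) d1 d2 d3).card ≤ q.totient * (2 * q) := by
  have k1 : d1 ∣ q := ⟨d2 * d3, by rw [← h]; ring⟩
  have k2 : d2 ∣ q := ⟨d1 * d3, by rw [← h]; ring⟩
  have k3 : d3 ∣ q := ⟨d1 * d2, by rw [← h]; ring⟩
  have ke : Nat.gcd d1 d3 ∣ q := (Nat.gcd_dvd_left _ _).trans k1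
  let Zs : (ZMod q)ˣ → Finset (ZMod q) := fun x =>
    univ.filter (fun z => (d2 : ZMod q) ∣ z - x ∧ ((Nat.gcd d1 d3 : ℕ) : ZMod q) ∣ z - (-x))
  let Ys : (ZMod q)ˣ → ZMod q → Finset (ZMod q) := fun x z =>
    univ.filter (fun y => (d1 : ZMod q) ∣ y - (-x) ∧ (d3 : ZMod q) ∣ y - z)
  let S : Finset (Σ _ : (ZMod q)ˣ, Σ _ : ZMod q, ZMod q) :=
    (univ : Finset (ZMod q)ˣ).sigma (fun x => (Zs x).sigma (fun z => Ys x z))
  have c1 : (Tri (q := q) d1 d2 d3).card ≤ S.card := by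
    apply card_le_card_of_injOn
      (fun p => (⟨p.1, ⟨(p.2.2 : ZMod q), (p.2.1 : ZMod q)⟩⟩ : Σ _ : (ZMod q)ˣ, Σ _ : ZMod q, ZMod q))
    · intro p hp
      simp only [Tri, coe_filter, mem_univ, true_and, Set.mem_ofPred_eq] at hp
      simp only [S, Zs, Ys, coe_sigma, Set.mem_sigma_iff, coe_univ, Set.mem_univ, true_and, coe_filter,
        mem_univ, Set.mem_ofPred_eq]
      have i1 : ((Nat.gcd d1 d3 : ℕ) : ZMod q) ∣ (p.1 : ZMod q) + p.2.1 :=
        (Nat.cast_dvd_cast (Nat.gcd_dvd_left d1 d3)).trans hp.1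
      have i2 : ((Nat.gcd d1 d3 : ℕ) : ZMod q) ∣ (p.2.1 : ZMod q) - p.2.2 :=
        (Nat.cast_dvd_cast (Nat.gcd_dvd_right d1 d3)).trans hp.2.2
      refine ⟨⟨hp.2.1, ?_⟩, ?_, hp.2.2⟩
      · have := dvd_sub i1 i2
        have e : (p.1 : ZMod q) + p.2.1 - ((p.2.1 : ZMod q) - p.2.2) = (p.2.2 : ZMod q) - -p.1 := by
          ring
        rwa [e] at this
      · have := hp.1
        have e : (p.1 : ZMod q) + p.2.1 = (p.2.1 : ZMod q) - -p.1 := by ring
        rwa [e] at this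
    · intro p _ p' _ hpp
      simp only [Sigma.mk.injEq, heq_eq_eq, Units.ext_iff] at hpp
      ext
      · exact hpp.1
      · exact hpp.2.2
      · exact hpp.2.1
  refine c1.trans ?_
  rw [card_sigma]
  have c2 : ∀ x : (ZMod q)ˣ, ((Zs x).sigma (fun z => Ys x z)).card ≤ 2 * q := by
    intro x
    rw [card_sigma]
    have b1 : ∑ z ∈ Zs x, (Ys x z).card ≤ (Zs x).card * (q / Nat.lcm d1 d3) := by
      rw [← smul_eq_mul, ← sum_const]
      exact sum_le_sum (fun z _ => card_two_le k1 k3 _ _)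
    refine b1.trans ?_
    rcases (Zs x).eq_empty_or_nonempty with h0 | ⟨z, hz⟩
    · rw [h0]; simp
    · have hz' : (d2 : ZMod q) ∣ z - x ∧ ((Nat.gcd d1 d3 : ℕ) : ZMod q) ∣ z - (-x) := by
        simpa [Zs] using hz
      have hg : Nat.gcd d2 (Nat.gcd d1 d3) ≤ 2 := by
        apply gcd_le_two k2 hz'.1
        have := hz'.2
        rwa [sub_neg_eq_add] at this
      calc (Zs x).card * (q / Nat.lcm d1 d3)
          ≤ q / Nat.lcm d2 (Nat.gcd d1 d3) * (q / Nat.lcm d1 d3) :=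
            Nat.mul_le_mul_right _ (card_two_le k2 ke _ _)
        _ = q * Nat.gcd d2 (Nat.gcd d1 d3) := arith h
        _ ≤ q * 2 := Nat.mul_le_mul_left _ hg
        _ = 2 * q := by ring
  calc ∑ x : (ZMod q)ˣ, ((Zs x).sigma (fun z => Ys x z)).card
      ≤ ∑ _x : (ZMod q)ˣ, 2 * q := sum_le_sum (fun x _ => c2 x)
    _ = q.totient * (2 * q) := by
      rw [sum_const, smul_eq_mul, card_univ, ZMod.card_units_eq_totient]

/-- The quadruples. -/
def Quad (q : ℕ) [NeZero q] : Finset ((ZMod q)ˣ × (ZMod q)ˣ × (ZMod q)ˣ × (ZMod q)ˣ) :=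
  univ.filter (fun p => (p.1 : ZMod q) + p.2.1 = p.2.2.1 + p.2.2.2 ∧
    ((p.1⁻¹ : (ZMod q)ˣ) : ZMod q) + (p.2.1⁻¹ : (ZMod q)ˣ) =
      (p.2.2.1⁻¹ : (ZMod q)ˣ) + (p.2.2.2⁻¹ : (ZMod q)ˣ))

omit [NeZero q] in
theorem factor {x y z w : (ZMod q)ˣ} (h1 : (x : ZMod q) + y = z + w)
    (h2 : ((x⁻¹ : (ZMod q)ˣ) : ZMod q) + (y⁻¹ : (ZMod q)ˣ) =
      (z⁻¹ : (ZMod q)ˣ) + (w⁻¹ : (ZMod q)ˣ)) :
    ((x : ZMod q) + y) * ((z : ZMod q) - x) * ((y : ZMod q) - z) = 0 := by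
  have hx : (x : ZMod q) * (x⁻¹ : (ZMod q)ˣ) = 1 := Units.mul_inv x
  have hy : (y : ZMod q) * (y⁻¹ : (ZMod q)ˣ) = 1 := Units.mul_inv y
  have hz : (z : ZMod q) * (z⁻¹ : (ZMod q)ˣ) = 1 := Units.mul_inv z
  have hw : (w : ZMod q) * (w⁻¹ : (ZMod q)ˣ) = 1 := Units.mul_inv w
  set a : ZMod q := ((x⁻¹ : (ZMod q)ˣ) : ZMod q)
  set b : ZMod q := ((y⁻¹ : (ZMod q)ˣ) : ZMod q)
  set c : ZMod q := ((z⁻¹ : (ZMod q)ˣ) : ZMod q)
  set d : ZMod q := ((w⁻¹ : (ZMod q)ˣ) : ZMod q)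
  -- multiply `h2` by `x y z w`: `(x + y) z w = (z + w) x y`
  have h3 : ((x : ZMod q) + y) * (z * w) = (z + w) * (x * y) := by
    have e1 : ((x : ZMod q) + y) * (z * w) = (a + b) * (x * y * (z * w)) := by
      linear_combination (-(y : ZMod q) * z * w) * hx + (-(x : ZMod q) * z * w) * hy
    have e2 : ((z : ZMod q) + w) * (x * y) = (c + d) * (x * y * (z * w)) := by
      linear_combination (-(w : ZMod q) * x * y) * hz + (-(z : ZMod q) * x * y) * hw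
    rw [e1, e2, h2]
  have h4 : (w : ZMod q) = x + y - z := by rw [h1]; ring
  rw [h4] at h3
  linear_combination h3

theorem card_quad_le : (Quad q).card ≤ q.divisors.card ^ 2 * (q.totient * (2 * q)) := by
  classical
  have hq : 0 < q := Nat.pos_of_ne_zero (NeZero.ne q)
  let W : ℕ × ℕ → Finset ((ZMod q)ˣ × (ZMod q)ˣ × (ZMod q)ˣ) := fun d =>
    if d.1 * d.2 * (q / (d.1 * d.2)) = q then Tri d.1 d.2 (q / (d.1 * d.2)) else ∅
  have c1 : (Quad q).card ≤ ((q.divisors ×ˢ q.divisors).biUnion W).card := by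
    apply card_le_card_of_injOn (fun p => (p.1, p.2.1, p.2.2.1))
    · rintro ⟨x, y, z, w⟩ hp
      simp only [Quad, coe_filter, mem_univ, true_and, Set.mem_ofPred_eq] at hp
      have hf := factor hp.1 hp.2
      have hdiv : q ∣ ((x : ZMod q) + y).val * ((z : ZMod q) - x).val * ((y : ZMod q) - z).val := by
        rw [← ZMod.natCast_eq_zero_iff]
        push_cast
        rw [ZMod.natCast_zmod_val, ZMod.natCast_zmod_val, ZMod.natCast_zmod_val]
        exact hf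
      obtain ⟨e, d3, he, h3, hed⟩ := Nat.dvd_mul.mp hdiv
      obtain ⟨d1, d2, h1, h2, h12⟩ := Nat.dvd_mul.mp he
      have hprod : d1 * d2 * d3 = q := by rw [h12, hed]
      have p12 : 0 < d1 * d2 := by
        rcases Nat.eq_zero_or_pos (d1 * d2) with h | h
        · rw [h] at hprod; omega
        · exact h
      have e3 : q / (d1 * d2) = d3 := by
        apply Nat.div_eq_of_eq_mul_right p12
        exact hprod.symm
      have k1 : d1 ∣ q := ⟨d2 * d3, by rw [← hprod]; ring⟩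
      have k2 : d2 ∣ q := ⟨d1 * d3, by rw [← hprod]; ring⟩
      have k3 : d3 ∣ q := ⟨d1 * d2, by rw [← hprod]; ring⟩
      rw [mem_coe, mem_biUnion]
      refine ⟨(d1, d2), ?_, ?_⟩
      · rw [mem_product]
        exact ⟨Nat.mem_divisors.mpr ⟨k1, hq.ne'⟩, Nat.mem_divisors.mpr ⟨k2, hq.ne'⟩⟩
      · simp only [W]
        rw [e3, if_pos hprod]
        simp only [Tri, mem_filter, mem_univ, true_and]
        exact ⟨(dvd_iff_val k1 _).mpr h1, (dvd_iff_val k2 _).mpr h2, (dvd_iff_val k3 _).mpr h3⟩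
    · rintro ⟨x, y, z, w⟩ hp ⟨x', y', z', w'⟩ hp' hh
      simp only [Quad, coe_filter, mem_univ, true_and, Set.mem_ofPred_eq] at hp hp'
      simp only [Prod.mk.injEq] at hh
      obtain ⟨rfl, rfl, rfl⟩ := hh
      have : (w : ZMod q) = w' := by
        have e1 := hp.1
        have e2 := hp'.1
        rw [e1] at e2
        exact add_left_cancel e2
      rw [Units.ext_iff.mpr this]
  refine c1.trans (card_biUnion_le.trans ?_)
  have c2 : ∀ d ∈ q.divisors ×ˢ q.divisors, (W d).card ≤ q.totient * (2 * q) := by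
    intro d _
    simp only [W]
    split_ifs with h
    · exact card_tri_le h
    · simp
  refine (sum_le_sum c2).trans ?_
  rw [sum_const, smul_eq_mul, card_product, sq]

end Pool.Lib.KF
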