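import Mathlib
import Pool.Agent.Lib.KF.Kcount

/-!
# Kloosterman's bound

`Kl c h = ∑ over units x of ZMod q of e((c x⁻¹ + h x) / q)`; then `|Kl c h|⁴ ≤ 2 (c, q) τ(q)² q³`.
-/

open Finset

namespace Pool.Lib.KF

variable {q : ℕ} [NeZero q]

/-- The standard additive character, `a ↦ e(a / q)`. -/
noncomputable def ps (a : ZMod q) : ℂ := ZMod.stdAddChar a

theorem ps_add (a b : ZMod q) : ps (a + b) = ps a * ps b := by
  unfold ps; rw [AddChar.map_add_eq_mul]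

theorem ps_neg (a : ZMod q) : ps (-a) = (starRingEnd ℂ) (ps a) := by
  unfold ps; rw [AddChar.map_neg_eq_conj]

theorem ps_sum (t : ZMod q) : ∑ c : ZMod q, ps (c * t) = if t = 0 then (q : ℂ) else 0 := by
  have hp : (ZMod.stdAddChar (N := q)).IsPrimitive := ZMod.isPrimitive_stdAddChar q
  have := AddChar.sum_mulShift t hp
  rw [ZMod.card] at this
  unfold ps
  exact_mod_cast this

/-- The inverse of a unit as a residue. -/
def iv (x : (ZMod q)ˣ) : ZMod q := ((x⁻¹ : (ZMod q)ˣ) : ZMod q)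

/-- The Kloosterman sum. -/
noncomputable def Kl (c h : ZMod q) : ℂ := ∑ x : (ZMod q)ˣ, ps (c * iv x + h * (x : ZMod q))

theorem kl_sq (c h : ZMod q) : Kl c h * Kl c h = ∑ x : (ZMod q)ˣ, ∑ y : (ZMod q)ˣ,
    ps (c * (iv x + iv y) + h * ((x : ZMod q) + (y : ZMod q))) := by
  unfold Kl
  rw [sum_mul_sum]
  refine sum_congr rfl (fun x _ => sum_congr rfl (fun y _ => ?_))
  rw [← ps_add]
  congr 1
  ring

theorem kl_conj_sq (c h : ZMod q) : (starRingEnd ℂ) (Kl c h * Kl c h) =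
    ∑ x : (ZMod q)ˣ, ∑ y : (ZMod q)ˣ, ps (-(c * (iv x + iv y) + h * ((x : ZMod q) + (y : ZMod q)))) := by
  rw [kl_sq, map_sum]
  refine sum_congr rfl (fun x _ => ?_)
  rw [map_sum]
  exact sum_congr rfl (fun y _ => (ps_neg _).symm)

/-- Expansion of the fourth power. -/
theorem kl_four (c h : ZMod q) : ((‖Kl c h‖ ^ 4 : ℝ) : ℂ) =
    ∑ p : (ZMod q)ˣ × (ZMod q)ˣ × (ZMod q)ˣ × (ZMod q)ˣ,
      ps (c * (iv p.1 + iv p.2.1 - (iv p.2.2.1 + iv p.2.2.2))
        + h * ((p.1 : ZMod q) + (p.2.1 : ZMod q) - ((p.2.2.1 : ZMod q) + (p.2.2.2 : ZMod q)))) := by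
  have e1 : ((‖Kl c h‖ ^ 4 : ℝ) : ℂ) = (Kl c h * Kl c h) * (starRingEnd ℂ) (Kl c h * Kl c h) := by
    rw [Complex.mul_conj, Complex.normSq_eq_norm_sq, norm_mul]
    push_cast
    ring
  rw [e1, kl_conj_sq, kl_sq, Fintype.sum_prod_type, sum_mul]
  refine sum_congr rfl (fun x _ => ?_)
  rw [Fintype.sum_prod_type, sum_mul]
  refine sum_congr rfl (fun y _ => ?_)
  rw [Fintype.sum_prod_type, mul_sum]
  refine sum_congr rfl (fun z _ => ?_)
  rw [mul_sum]
  refine sum_congr rfl (fun w _ => ?_)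
  rw [← ps_add]
  congr 1
  ring

/-- Orthogonality in two variables. -/
theorem orth (a b : ZMod q) : ∑ c : ZMod q, ∑ h : ZMod q, ps (c * a + h * b) =
    if a = 0 ∧ b = 0 then ((q : ℂ) ^ 2) else 0 := by
  have e2 : ∑ c : ZMod q, ∑ h : ZMod q, ps (c * a + h * b)
      = (∑ c : ZMod q, ps (c * a)) * (∑ h : ZMod q, ps (h * b)) := by
    rw [sum_mul_sum]
    exact sum_congr rfl (fun c _ => sum_congr rfl (fun h _ => ps_add _ _))
  rw [e2, ps_sum, ps_sum]
  by_cases ha : a = 0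
  · by_cases hb : b = 0
    · simp [ha, hb, sq]
    · simp [ha, hb]
  · simp [ha]

/-- The fourth moment. -/
theorem fourth_moment : ∑ c : ZMod q, ∑ h : ZMod q, ‖Kl c h‖ ^ 4 = (q : ℝ) ^ 2 * (Quad q).card := by
  have key : ((∑ c : ZMod q, ∑ h : ZMod q, ‖Kl c h‖ ^ 4 : ℝ) : ℂ) = (q : ℂ) ^ 2 * (Quad q).card := by
    rw [Complex.ofReal_sum]
    simp_rw [Complex.ofReal_sum, kl_four]
    have e2 : ∀ c : ZMod q, ∑ h : ZMod q,
        ∑ p : (ZMod q)ˣ × (ZMod q)ˣ × (ZMod q)ˣ × (ZMod q)ˣ,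
          ps (c * (iv p.1 + iv p.2.1 - (iv p.2.2.1 + iv p.2.2.2))
            + h * ((p.1 : ZMod q) + (p.2.1 : ZMod q) - ((p.2.2.1 : ZMod q) + (p.2.2.2 : ZMod q))))
        = ∑ p : (ZMod q)ˣ × (ZMod q)ˣ × (ZMod q)ˣ × (ZMod q)ˣ, ∑ h : ZMod q,
          ps (c * (iv p.1 + iv p.2.1 - (iv p.2.2.1 + iv p.2.2.2))
            + h * ((p.1 : ZMod q) + (p.2.1 : ZMod q) - ((p.2.2.1 : ZMod q) + (p.2.2.2 : ZMod q)))) := fun c => sum_comm
    simp_rw [e2]
    rw [sum_comm]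
    simp_rw [orth]
    rw [← sum_filter, sum_const, nsmul_eq_mul, mul_comm]
    congr 2
    unfold Quad
    congr 1
    ext p
    simp only [mem_filter, mem_univ, true_and, sub_eq_zero, iv]
    tauto
  exact_mod_cast key

/-- The value is constant on orbits. -/
theorem kl_orbit (u : (ZMod q)ˣ) (c h : ZMod q) : Kl (c * iv u) (h * (u : ZMod q)) = Kl c h := by
  unfold Kl
  rw [← Equiv.sum_comp (Equiv.mulLeft u) (fun x : (ZMod q)ˣ => ps (c * iv x + h * (x : ZMod q)))]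
  refine sum_congr rfl (fun x _ => ?_)
  congr 1
  unfold iv
  rw [Equiv.coe_mulLeft, mul_inv_rev]
  push_cast
  ring

theorem card_zero_le (c : ZMod q) :
    (univ.filter (fun w : ZMod q => c * w = 0)).card ≤ Nat.gcd c.val q := by
  have hq : 0 < q := Nat.pos_of_ne_zero (NeZero.ne q)
  have g0 : 0 < Nat.gcd c.val q := Nat.gcd_pos_of_pos_right _ hq
  refine le_trans (card_le_card ?_) (IsAddCyclic.card_nsmul_eq_zero_le (α := ZMod q) g0)
  intro w hw
  simp only [mem_filter, mem_univ, true_and] at hw ⊢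
  have e : ((Nat.gcd c.val q : ℕ) : ZMod q) = c * ((Nat.gcdA c.val q : ℤ) : ZMod q) := by
    have h1 := congrArg (Int.cast : ℤ → ZMod q) (Nat.gcd_eq_gcd_ab c.val q)
    push_cast at h1
    rw [ZMod.natCast_zmod_val, ZMod.natCast_self] at h1
    rw [h1]; ring
  rw [nsmul_eq_mul, e]
  calc c * ((Nat.gcdA c.val q : ℤ) : ZMod q) * w = ((Nat.gcdA c.val q : ℤ) : ZMod q) * (c * w) := by ring
    _ = 0 := by rw [hw, mul_zero]

theorem card_fiber_le (c a : ZMod q) :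
    (univ.filter (fun u : (ZMod q)ˣ => c * iv u = a)).card ≤ Nat.gcd c.val q := by
  rcases (univ.filter (fun u : (ZMod q)ˣ => c * iv u = a)).eq_empty_or_nonempty with h | ⟨u0, h0⟩
  · rw [h]; simp
  · refine le_trans ?_ (card_zero_le c)
    simp only [mem_filter, mem_univ, true_and] at h0
    apply card_le_card_of_injOn (fun u => iv u - iv u0)
    · intro u hu
      simp only [coe_filter, mem_univ, true_and, Set.mem_ofPred_eq] at hu ⊢
      rw [mul_sub, hu, h0, sub_self]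
    · intro u _ u' _ huu
      simp only [sub_left_inj] at huu
      have : u⁻¹ = u'⁻¹ := Units.ext huu
      exact inv_inj.mp this

/-- **Kloosterman's bound.** -/
theorem kl_bound (c h : ZMod q) :
    ‖Kl c h‖ ^ 4 ≤ 2 * (Nat.gcd c.val q : ℝ) * (q.divisors.card : ℝ) ^ 2 * (q : ℝ) ^ 3 := by
  classical
  have hq : 0 < q := Nat.pos_of_ne_zero (NeZero.ne q)
  let O : (ZMod q)ˣ → ZMod q × ZMod q := fun u => (c * iv u, h * (u : ZMod q))
  let F : ZMod q × ZMod q → ℝ := fun p => ‖Kl p.1 p.2‖ ^ 4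
  have F0 : ∀ p, 0 ≤ F p := fun p => by positivity
  have s1 : ∑ u : (ZMod q)ˣ, F (O u) = (q.totient : ℝ) * ‖Kl c h‖ ^ 4 := by
    have : ∀ u : (ZMod q)ˣ, F (O u) = ‖Kl c h‖ ^ 4 := fun u => by
      simp only [F, O, kl_orbit]
    rw [sum_congr rfl (fun u _ => this u), sum_const, card_univ, ZMod.card_units_eq_totient,
      nsmul_eq_mul]
  have s2 : ∑ u : (ZMod q)ˣ, F (O u) ≤ (Nat.gcd c.val q : ℝ) * ∑ p : ZMod q × ZMod q, F p := by
    rw [← sum_fiberwise (s := univ) (g := O) (f := fun u => F (O u)), mul_sum]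
    refine sum_le_sum (fun p _ => ?_)
    have e : ∑ u ∈ univ.filter (fun u => O u = p), F (O u)
        = ((univ.filter (fun u => O u = p)).card : ℝ) * F p := by
      rw [sum_congr rfl (fun u hu => by rw [(mem_filter.mp hu).2]), sum_const, nsmul_eq_mul]
    rw [e]
    refine mul_le_mul_of_nonneg_right ?_ (F0 p)
    have : (univ.filter (fun u => O u = p)).card ≤ Nat.gcd c.val q := by
      refine le_trans (card_le_card ?_) (card_fiber_le c p.1)
      intro u hu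
      simp only [mem_filter, mem_univ, true_and] at hu ⊢
      rw [← hu]
    exact_mod_cast this
  have s3 : ∑ p : ZMod q × ZMod q, F p = (q : ℝ) ^ 2 * (Quad q).card := by
    rw [← fourth_moment, Fintype.sum_prod_type]
  have s4 : ((Quad q).card : ℝ) ≤ (q.divisors.card : ℝ) ^ 2 * ((q.totient : ℝ) * (2 * q)) := by
    exact_mod_cast card_quad_le (q := q)
  have t0 : (0 : ℝ) < q.totient := by exact_mod_cast Nat.totient_pos.mpr hq
  rw [s1, s3] at s2
  have q0 : (0 : ℝ) ≤ q := Nat.cast_nonneg q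
  have g0 : (0 : ℝ) ≤ (Nat.gcd c.val q : ℝ) := Nat.cast_nonneg _
  have s5 : (q.totient : ℝ) * ‖Kl c h‖ ^ 4
      ≤ (q.totient : ℝ) * (2 * (Nat.gcd c.val q : ℝ) * (q.divisors.card : ℝ) ^ 2 * (q : ℝ) ^ 3) := by
    refine s2.trans ?_
    have := mul_le_mul_of_nonneg_left s4 (mul_nonneg g0 (pow_nonneg q0 2))
    calc (Nat.gcd c.val q : ℝ) * ((q : ℝ) ^ 2 * (Quad q).card)
        = (Nat.gcd c.val q : ℝ) * (q : ℝ) ^ 2 * (Quad q).card := by ring
      _ ≤ (Nat.gcd c.val q : ℝ) * (q : ℝ) ^ 2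
          * ((q.divisors.card : ℝ) ^ 2 * ((q.totient : ℝ) * (2 * q))) := this
      _ = _ := by ring
  exact le_of_mul_le_mul_left s5 t0

end Pool.Lib.KF
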