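import Pool.Agent.Lib.KF.SpecB

namespace Pool.Agent.Lib.KF

open Finset Pool.Agent.Lib.EH3

private lemma Kfa_kf (θ : ℤ) (m n : ℕ) : ‖kf θ m n‖ ≤ 1 := by
  unfold kf ei em
  split_ifs
  · rw [norm_ee]
  · rw [norm_zero]
    exact zero_le_one

private lemma Kfa_triv (Q : ℝ) (θ : ℤ) (α : ℕ → ℂ) (hQ : 1 ≤ Q) :
    ∑ n ∈ dy Q, ‖∑ m ∈ dy Q, α m * kf θ m n‖ ^ 2 ≤ (2 * Q) ^ 2 * ∑ m ∈ dy Q, ‖α m‖ ^ 2 := by
  have hcard := card_dy_le hQ
  have hB : 0 ≤ ∑ m ∈ dy Q, ‖α m‖ ^ 2 := Finset.sum_nonneg fun _ _ => by positivity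
  have h1 : ∀ n ∈ dy Q, ‖∑ m ∈ dy Q, α m * kf θ m n‖ ^ 2 ≤ 2 * Q * ∑ m ∈ dy Q, ‖α m‖ ^ 2 := by
    intro n _
    have h2 : ‖∑ m ∈ dy Q, α m * kf θ m n‖ ≤ ∑ m ∈ dy Q, ‖α m‖ := by
      refine (norm_sum_le _ _).trans (Finset.sum_le_sum fun m _ => ?_)
      rw [norm_mul]
      exact mul_le_of_le_one_right (norm_nonneg _) (Kfa_kf θ m n)
    have h3 : ‖∑ m ∈ dy Q, α m * kf θ m n‖ ^ 2 ≤ (∑ m ∈ dy Q, ‖α m‖) ^ 2 :=
      pow_le_pow_left₀ (norm_nonneg _) h2 2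
    have h4 : (∑ m ∈ dy Q, ‖α m‖) ^ 2 ≤ ((dy Q).card : ℝ) * ∑ m ∈ dy Q, ‖α m‖ ^ 2 :=
      sq_sum_le_card_mul_sum_sq
    exact h3.trans (h4.trans (mul_le_mul_of_nonneg_right hcard hB))
  calc _ ≤ ∑ _n ∈ dy Q, 2 * Q * ∑ m ∈ dy Q, ‖α m‖ ^ 2 := Finset.sum_le_sum h1
    _ = ((dy Q).card : ℝ) * (2 * Q * ∑ m ∈ dy Q, ‖α m‖ ^ 2) := by
        rw [Finset.sum_const, nsmul_eq_mul]
    _ ≤ (2 * Q) * (2 * Q * ∑ m ∈ dy Q, ‖α m‖ ^ 2) :=
        mul_le_mul_of_nonneg_right hcard (by positivity)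
    _ = _ := by ring

private lemma Kfa_alg (X L N E l R S B : ℝ) (hX : 1 ≤ X) (hL : 1 ≤ L) (hLX : L ≤ X)
    (hXL : X ≤ 2 * L) (hN : 1 ≤ N) (hLN : L ≤ 4 * l * N) (hE : 1 ≤ E) (hl : 1 ≤ l)
    (hR : 1 ≤ R) (hB : 0 ≤ B)
    (h : N ^ 2 / 4 * S ≤ (160 * X ^ 64 * N + (10 ^ 4 * X ^ 64 * N * E +
      10 ^ 3 * L ^ 5 * X ^ 60 * R * l * E ^ 2)) * B) :
    S ≤ 389120 * (X ^ 63 * R * l ^ 3 * E ^ 2) * B := by
  have hN0 : 0 < N := by linarith
  have hX0 : 0 ≤ X := by linarith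
  have hl0 : 0 ≤ l := by linarith
  have hE0 : 0 ≤ E := by linarith
  have hR0 : 0 ≤ R := by linarith
  have hL0 : 0 ≤ L := by linarith
  have hXl : X ≤ 8 * l * N := by linarith
  have hEE : E ≤ E ^ 2 := by nlinarith
  have hl3 : l ≤ l ^ 3 := by
    have : l ^ 3 = l * (l * l) := by ring
    rw [this]
    refine le_mul_of_one_le_right hl0 ?_
    nlinarith
  have hX63 : 0 ≤ X ^ 63 := by positivity
  have a1 : 160 * X ^ 64 * N ≤ 160 * X ^ 64 * N * E := by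
    refine le_mul_of_one_le_right ?_ hE
    positivity
  have a2 : X ^ 64 * N * E ≤ 8 * (N ^ 2 * X ^ 63 * R * l ^ 3 * E ^ 2) := by
    calc X ^ 64 * N * E = X ^ 63 * N * E * X := by ring
      _ ≤ X ^ 63 * N * E * (8 * l * N) := mul_le_mul_of_nonneg_left hXl (by positivity)
      _ = 8 * (N ^ 2 * X ^ 63 * l * E) := by ring
      _ ≤ 8 * (N ^ 2 * X ^ 63 * l * E * R) := by
          refine mul_le_mul_of_nonneg_left ?_ (by norm_num)
          exact le_mul_of_one_le_right (by positivity) hR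
      _ = 8 * (N ^ 2 * X ^ 63 * R * (l * E)) := by ring
      _ ≤ 8 * (N ^ 2 * X ^ 63 * R * (l ^ 3 * E ^ 2)) := by
          refine mul_le_mul_of_nonneg_left ?_ (by norm_num)
          refine mul_le_mul_of_nonneg_left ?_ (by positivity)
          exact mul_le_mul hl3 hEE hE0 (by positivity)
      _ = _ := by ring
  have a3 : L ^ 5 * X ^ 60 * R * l * E ^ 2 ≤ 16 * (N ^ 2 * X ^ 63 * R * l ^ 3 * E ^ 2) := by
    have b1 : L ^ 3 ≤ X ^ 3 := pow_le_pow_left₀ hL0 hLX 3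
    have b2 : L ^ 2 ≤ (4 * l * N) ^ 2 := pow_le_pow_left₀ hL0 hLN 2
    calc L ^ 5 * X ^ 60 * R * l * E ^ 2 = (L ^ 3 * L ^ 2) * (X ^ 60 * R * l * E ^ 2) := by ring
      _ ≤ (X ^ 3 * (4 * l * N) ^ 2) * (X ^ 60 * R * l * E ^ 2) := by
          refine mul_le_mul_of_nonneg_right ?_ (by positivity)
          exact mul_le_mul b1 b2 (by positivity) (by positivity)
      _ = _ := by ring
  have hbound : 160 * X ^ 64 * N + (10 ^ 4 * X ^ 64 * N * E +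
      10 ^ 3 * L ^ 5 * X ^ 60 * R * l * E ^ 2) ≤
      N ^ 2 / 4 * (389120 * (X ^ 63 * R * l ^ 3 * E ^ 2)) := by
    have e1 : N ^ 2 / 4 * (389120 * (X ^ 63 * R * l ^ 3 * E ^ 2)) =
        97280 * (N ^ 2 * X ^ 63 * R * l ^ 3 * E ^ 2) := by ring
    rw [e1]
    have e2 : 10 ^ 4 * X ^ 64 * N * E = 10 ^ 4 * (X ^ 64 * N * E) := by ring
    have e3 : 10 ^ 3 * L ^ 5 * X ^ 60 * R * l * E ^ 2 =
        10 ^ 3 * (L ^ 5 * X ^ 60 * R * l * E ^ 2) := by ring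
    have e4 : 160 * X ^ 64 * N * E = 160 * (X ^ 64 * N * E) := by ring
    rw [e4] at a1
    rw [e2, e3]
    generalize X ^ 64 * N * E = u at a1 a2 ⊢
    generalize L ^ 5 * X ^ 60 * R * l * E ^ 2 = v at a3 ⊢
    generalize N ^ 2 * X ^ 63 * R * l ^ 3 * E ^ 2 = w at a2 a3 ⊢
    generalize 160 * X ^ 64 * N = z at a1 ⊢
    norm_num
    linarith
  have h2 := h.trans (mul_le_mul_of_nonneg_right hbound hB)
  have h3 : N ^ 2 / 4 * S ≤ N ^ 2 / 4 * (389120 * (X ^ 63 * R * l ^ 3 * E ^ 2) * B) := by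
    rw [← mul_assoc]
    exact h2
  exact le_of_mul_le_mul_left h3 (by positivity)

private lemma Kfa_sqrt (Q X L N E l T : ℝ) (hQX : Q = X ^ 32) (hX : 1 ≤ X) (hL : 0 ≤ L) (hN : 0 ≤ N)
    (hE : 1 ≤ E) (hl : 1 ≤ l) (hT : 1 ≤ T) (P : ℝ) (hP : P = X ^ 120) :
    Real.sqrt (10 ^ 8 * Q ^ 4 * N ^ 2 * E + 10 ^ 6 * L ^ 10 * P * T * l * E ^ 3) ≤
      10 ^ 4 * X ^ 64 * N * E + 10 ^ 3 * L ^ 5 * X ^ 60 * Real.sqrt T * l * E ^ 2 := by
  have hX0 : 0 ≤ X := by linarith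
  have hl0 : 0 ≤ l := by linarith
  have hE0 : 0 ≤ E := by linarith
  have hT0 : 0 ≤ T := by linarith
  have hsT : Real.sqrt T ^ 2 = T := Real.sq_sqrt hT0
  have hs0 : 0 ≤ Real.sqrt T := Real.sqrt_nonneg T
  have hEE : E ≤ E ^ 2 := by nlinarith
  have hE34 : E ^ 3 ≤ E ^ 4 := pow_le_pow_right₀ hE (by norm_num)
  have hll : l ≤ l ^ 2 := by nlinarith
  apply Real.sqrt_le_iff.mpr
  refine ⟨by positivity, ?_⟩
  have a1 : 10 ^ 8 * Q ^ 4 * N ^ 2 * E ≤ (10 ^ 4 * X ^ 64 * N * E) ^ 2 := by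
    have e1 : (10 ^ 4 * X ^ 64 * N * E) ^ 2 = 10 ^ 8 * X ^ 128 * N ^ 2 * E ^ 2 := by ring
    have e2 : Q ^ 4 = X ^ 128 := by rw [hQX]; ring
    rw [e1, e2]
    exact mul_le_mul_of_nonneg_left hEE (by positivity)
  have a2 : 10 ^ 6 * L ^ 10 * P * T * l * E ^ 3 ≤
      (10 ^ 3 * L ^ 5 * X ^ 60 * Real.sqrt T * l * E ^ 2) ^ 2 := by
    have e1 : (10 ^ 3 * L ^ 5 * X ^ 60 * Real.sqrt T * l * E ^ 2) ^ 2 =
        10 ^ 6 * L ^ 10 * X ^ 120 * (Real.sqrt T ^ 2) * (l ^ 2 * E ^ 4) := by ring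
    rw [e1, hsT, hP]
    have e3 : 10 ^ 6 * L ^ 10 * X ^ 120 * T * l * E ^ 3 =
        10 ^ 6 * L ^ 10 * X ^ 120 * T * (l * E ^ 3) := by ring
    rw [e3]
    refine mul_le_mul_of_nonneg_left ?_ (by positivity)
    exact mul_le_mul hll hE34 (by positivity) (by positivity)
  have c1 : 0 ≤ 10 ^ 4 * X ^ 64 * N * E := by positivity
  have c2 : 0 ≤ 10 ^ 3 * L ^ 5 * X ^ 60 * Real.sqrt T * l * E ^ 2 := by positivity
  nlinarith

theorem tKfa (h1 : DvbStmt) (h2 : PrlStmt) (h3 : KfbStmt) : KfaStmt := by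
  intro ε hε
  set δ : ℝ := ε / 8 with hδ
  have hδ0 : 0 < δ := by rw [hδ]; linarith
  obtain ⟨C0, hC0, hdiv⟩ := h1 δ hδ0
  obtain ⟨L0, hL05, hprl⟩ := h2
  set C1 : ℝ := max C0 1 with hC1
  have hC11 : 1 ≤ C1 := le_max_right _ _
  have hC01 : C0 ≤ C1 := le_max_left _ _
  set M : ℕ := max L0 409600 with hM
  set Ca : ℝ := 389120 * ((6 + 1 / δ) ^ 3 * (C1 ^ 2 * 256 ^ (2 * δ))) with hCa
  set Cb : ℝ := (2 * (M : ℝ) ^ 32) ^ 2 with hCb
  have hCa0 : 0 < Ca := by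
    rw [hCa]
    have : 0 < C1 := by linarith
    positivity
  have hCb0 : 0 ≤ Cb := by rw [hCb]; positivity
  refine ⟨Ca + Cb, by linarith, ?_⟩
  intro Q θ α hQ hθ
  have hQ0 : 0 < Q := by linarith
  set B : ℝ := ∑ m ∈ dy Q, ‖α m‖ ^ 2 with hB
  have hB0 : 0 ≤ B := Finset.sum_nonneg fun _ _ => by positivity
  have hθ1 : (1 : ℝ) ≤ |(θ : ℝ)| := by
    have : (1 : ℤ) ≤ |θ| := Int.one_le_abs hθ
    exact_mod_cast this
  have hθ0 : 0 < |(θ : ℝ)| := by linarith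
  set T : ℝ := 1 + |(θ : ℝ)| / Q ^ 2 with hT
  have hT1 : 1 ≤ T := by
    rw [hT]
    have : 0 ≤ |(θ : ℝ)| / Q ^ 2 := by positivity
    linarith
  have hT12 : (T : ℝ) ^ ((1 : ℝ) / 2) = Real.sqrt T := (Real.sqrt_eq_rpow T).symm
  have hR1 : 1 ≤ Real.sqrt T := Real.one_le_sqrt.mpr hT1
  have hQe : 1 ≤ Q ^ ((63 : ℝ) / 32 + ε) := Real.one_le_rpow hQ (by positivity)
  have hθe : 1 ≤ |(θ : ℝ)| ^ ε := Real.one_le_rpow hθ1 hε.le
  rw [hT12]
  have hprod1 : 1 ≤ Q ^ ((63 : ℝ) / 32 + ε) * Real.sqrt T * |(θ : ℝ)| ^ ε := by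
    have := one_le_mul_of_one_le_of_one_le hQe hR1
    exact one_le_mul_of_one_le_of_one_le this hθe
  by_cases hQM : Q < (M : ℝ) ^ 32
  · -- trivial bound
    have ht := Kfa_triv Q θ α hQ
    have h5 : (2 * Q) ^ 2 ≤ Cb := by
      rw [hCb]
      exact pow_le_pow_left₀ (by linarith) (by linarith) 2
    have h6 : (2 * Q) ^ 2 ≤ (Ca + Cb) * (Q ^ ((63 : ℝ) / 32 + ε) * Real.sqrt T * |(θ : ℝ)| ^ ε) := by
      calc (2 * Q) ^ 2 ≤ (Ca + Cb) * 1 := by linarith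
        _ ≤ _ := mul_le_mul_of_nonneg_left hprod1 (by linarith)
    exact ht.trans (mul_le_mul_of_nonneg_right h6 hB0)
  · push Not at hQM
    set X : ℝ := Q ^ ((1 : ℝ) / 32) with hX
    have hX0 : 0 ≤ X := Real.rpow_nonneg hQ0.le _
    have hX1 : 1 ≤ X := Real.one_le_rpow hQ (by norm_num)
    have hXp : ∀ n : ℕ, X ^ n = Q ^ ((n : ℝ) / 32) := by
      intro n
      rw [hX, ← Real.rpow_natCast, ← Real.rpow_mul hQ0.le]
      congr 1
      ring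
    have hQX : Q = X ^ 32 := by
      rw [hXp]
      norm_num
    have hMX : (M : ℝ) ≤ X := by
      by_contra hcon
      push Not at hcon
      have : X ^ 32 < (M : ℝ) ^ 32 := pow_lt_pow_left₀ hcon hX0 (by norm_num)
      rw [← hQX] at this
      linarith
    set L : ℕ := ⌊X⌋₊ with hLdef
    have hML : M ≤ L := Nat.le_floor hMX
    have hL0 : L0 ≤ L := le_trans (le_max_left _ _) hML
    have hL4 : 409600 ≤ L := le_trans (le_max_right _ _) hML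
    have hLX : (L : ℝ) ≤ X := Nat.floor_le hX0
    have hXL1 : X < (L : ℝ) + 1 := Nat.lt_floor_add_one X
    have hL4R : (409600 : ℝ) ≤ (L : ℝ) := by exact_mod_cast hL4
    have hL1 : (1 : ℝ) ≤ (L : ℝ) := by linarith
    have hXL : X ≤ 2 * (L : ℝ) := by linarith
    have hLQ : (L : ℝ) ≤ Q := by
      refine hLX.trans ?_
      rw [hQX]
      exact le_self_pow₀ hX1 (by norm_num)
    set N : ℝ := ((prl L).card : ℝ) with hN
    have hprlL := hprl L hL0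
    have hlogL0 : 0 ≤ Real.log L := Real.log_nonneg hL1
    have hN0 : 0 ≤ N := Nat.cast_nonneg _
    have hN80 : (80 : ℝ) ≤ N := by
      have hs : Real.log L ≤ 2 * Real.sqrt L := by
        have := Real.log_le_rpow_div (x := (L : ℝ)) (by linarith) (ε := 1 / 2) (by norm_num)
        rw [← Real.sqrt_eq_rpow] at this
        linarith
      have hsq : Real.sqrt L * Real.sqrt L = L := Real.mul_self_sqrt (by linarith)
      have hsL : (640 : ℝ) ≤ Real.sqrt L := by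
        apply Real.le_sqrt_of_sq_le
        linarith
      have h5 : (L : ℝ) ≤ 4 * (2 * Real.sqrt L) * N := by
        refine hprlL.trans ?_
        refine mul_le_mul_of_nonneg_right ?_ hN0
        linarith
      have h6 : Real.sqrt L * Real.sqrt L ≤ Real.sqrt L * (8 * N) := by
        rw [hsq]
        linarith
      have h7 := le_of_mul_le_mul_left h6 (by linarith)
      linarith
    have hN80n : 80 ≤ (prl L).card := by
      have h9 : (80 : ℝ) ≤ ((prl L).card : ℝ) := hN80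
      exact_mod_cast h9
    set Y : ℝ := 256 * Q ^ 2 * |(θ : ℝ)| with hY
    have hQ2 : Q ≤ Q ^ 2 := by nlinarith
    have hQ2θ : Q ^ 2 ≤ Q ^ 2 * |(θ : ℝ)| := le_mul_of_one_le_right (by positivity) hθ1
    have hL6 : (L : ℝ) ^ 6 ≤ Q := by
      calc (L : ℝ) ^ 6 ≤ X ^ 6 := pow_le_pow_left₀ (by linarith) hLX 6
        _ ≤ X ^ 32 := pow_le_pow_right₀ hX1 (by norm_num)
        _ = Q := hQX.symm
    have hL44 : (L : ℝ) ^ 4 ≤ (L : ℝ) ^ 6 := pow_le_pow_right₀ hL1 (by norm_num)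
    have c1 : 4 * (L : ℝ) * Q ≤ (L : ℝ) ^ 40 := by
      have e1 : Q ≤ (2 * (L : ℝ)) ^ 32 := by
        rw [hQX]
        exact pow_le_pow_left₀ hX0 hXL 32
      have e2 : (2 : ℝ) ^ 34 ≤ (L : ℝ) ^ 7 := by
        calc (2 : ℝ) ^ 34 ≤ (409600 : ℝ) ^ 7 := by norm_num
          _ ≤ (L : ℝ) ^ 7 := pow_le_pow_left₀ (by norm_num) hL4R 7
      calc 4 * (L : ℝ) * Q ≤ 4 * (L : ℝ) * (2 * (L : ℝ)) ^ 32 :=
            mul_le_mul_of_nonneg_left e1 (by positivity)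
        _ = 2 ^ 34 * (L : ℝ) ^ 33 := by ring
        _ ≤ (L : ℝ) ^ 7 * (L : ℝ) ^ 33 := mul_le_mul_of_nonneg_right e2 (by positivity)
        _ = (L : ℝ) ^ 40 := by ring
    have c2 : 4 * (L : ℝ) * Q ≤ Y := by
      rw [hY]
      have : (L : ℝ) * Q ≤ Q * Q := mul_le_mul_of_nonneg_right hLQ hQ0.le
      nlinarith
    have c3 : 256 * (L : ℝ) ^ 6 ≤ Y := by
      rw [hY]
      linarith
    have c4 : 32 * (L : ℝ) ^ 4 * |(θ : ℝ)| ≤ Y := by
      rw [hY]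
      have e1 : 32 * (L : ℝ) ^ 4 ≤ 256 * Q ^ 2 := by
        have : 0 ≤ Q ^ 2 := by positivity
        linarith
      exact mul_le_mul_of_nonneg_right e1 hθ0.le
    have hY1 : 1 ≤ Y := by
      rw [hY]
      linarith
    set E : ℝ := C1 * Y ^ δ with hE
    have hE1 : 1 ≤ E := by
      rw [hE]
      exact one_le_mul_of_one_le_of_one_le hC11 (Real.one_le_rpow hY1 hδ0.le)
    have hDB : DB Y E := by
      intro n hn hnY
      have hn0 : (0 : ℝ) ≤ n := Nat.cast_nonneg n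
      refine (hdiv n hn).trans ?_
      rw [hE]
      exact mul_le_mul hC01 (Real.rpow_le_rpow hn0 hnY hδ0.le) (Real.rpow_nonneg hn0 _)
        (by linarith)
    have hmain := h3 Q Y E L θ α hQ (by omega) hθ c1 hN80n c2 c3 c4 hDB
    set S : ℝ := ∑ n ∈ dy Q, ‖∑ m ∈ dy Q, α m * kf θ m n‖ ^ 2 with hS
    set l : ℝ := 5 + Real.log (2 * Q) with hl
    have hlogQ0 : 0 ≤ Real.log Q := Real.log_nonneg hQ
    have hl2 : Real.log (2 * Q) = Real.log 2 + Real.log Q :=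
      Real.log_mul (by norm_num) (by linarith)
    have hlog2 : 0 ≤ Real.log 2 := Real.log_nonneg (by norm_num)
    have hlog21 : Real.log 2 ≤ 1 := by linarith [Real.log_two_lt_d9]
    have hl1 : 1 ≤ l := by
      rw [hl, hl2]
      linarith
    have hlogLl : Real.log L ≤ l := by
      rw [hl, hl2]
      have : Real.log L ≤ Real.log Q := Real.log_le_log (by linarith) hLQ
      linarith
    have hLN : (L : ℝ) ≤ 4 * l * N := by
      refine hprlL.trans ?_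
      exact mul_le_mul_of_nonneg_right (by linarith) hN0
    have hsq := Kfa_sqrt Q X L N E l T hQX hX1 (by linarith) hN0 hE1 hl1 hT1
      (Q ^ ((15 : ℝ) / 4)) (by
        rw [hXp]
        congr 1
        norm_num)
    have hfin := Kfa_alg X L N E l (Real.sqrt T) S B hX1 hL1 hLX hXL (by linarith) hLN hE1 hl1 hR1 hB0
      (by
        refine hmain.trans (mul_le_mul_of_nonneg_right ?_ hB0)
        have e1 : 160 * Q ^ 2 * N = 160 * X ^ 64 * N := by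
          rw [hQX]
          ring
        rw [e1]
        exact add_le_add le_rfl hsq)
    refine hfin.trans (mul_le_mul_of_nonneg_right ?_ hB0)
    -- remaining: constants
    have d1 : l ≤ (6 + 1 / δ) * Q ^ δ := by
      have e1 : Real.log Q ≤ Q ^ δ / δ := Real.log_le_rpow_div hQ0.le hδ0
      have e2 : 1 ≤ Q ^ δ := Real.one_le_rpow hQ hδ0.le
      rw [hl, hl2]
      have e3 : (6 + 1 / δ) * Q ^ δ = 6 * Q ^ δ + Q ^ δ / δ := by ring
      rw [e3]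
      linarith
    have d2 : l ^ 3 ≤ (6 + 1 / δ) ^ 3 * Q ^ (3 * δ) := by
      have e1 := pow_le_pow_left₀ (by linarith : 0 ≤ l) d1 3
      have e2 : ((6 + 1 / δ) * Q ^ δ) ^ 3 = (6 + 1 / δ) ^ 3 * Q ^ (3 * δ) := by
        rw [mul_pow, ← Real.rpow_natCast (Q ^ δ), ← Real.rpow_mul hQ0.le]
        congr 2
        push_cast
        ring
      rw [e2] at e1
      exact e1
    have d3 : E ^ 2 = C1 ^ 2 * 256 ^ (2 * δ) * (Q ^ (4 * δ) * |(θ : ℝ)| ^ (2 * δ)) := by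
      rw [hE, mul_pow, ← Real.rpow_natCast (Y ^ δ), ← Real.rpow_mul (by linarith), hY,
        Real.mul_rpow (by positivity) hθ0.le, Real.mul_rpow (by norm_num) (by positivity),
        ← Real.rpow_natCast Q 2, ← Real.rpow_mul hQ0.le]
      have e1 : δ * ((2 : ℕ) : ℝ) = 2 * δ := by push_cast; ring
      have e2 : ((2 : ℕ) : ℝ) * (δ * ((2 : ℕ) : ℝ)) = 4 * δ := by push_cast; ring
      rw [e2, e1]
      ring
    have d4 : X ^ 63 = Q ^ ((63 : ℝ) / 32) := by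
      rw [hXp]
      norm_num
    have d5 : Q ^ ((63 : ℝ) / 32) * (Q ^ (3 * δ) * Q ^ (4 * δ)) ≤ Q ^ ((63 : ℝ) / 32 + ε) := by
      rw [← Real.rpow_add hQ0, ← Real.rpow_add hQ0]
      refine Real.rpow_le_rpow_of_exponent_le hQ ?_
      rw [hδ]
      linarith
    have d6 : |(θ : ℝ)| ^ (2 * δ) ≤ |(θ : ℝ)| ^ ε := by
      refine Real.rpow_le_rpow_of_exponent_le hθ1 ?_
      rw [hδ]
      linarith
    have hs0 : 0 ≤ Real.sqrt T := Real.sqrt_nonneg T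
    have hCC : 0 ≤ C1 ^ 2 * (256 : ℝ) ^ (2 * δ) := by positivity
    have hQ3 : 0 ≤ Q ^ (3 * δ) := Real.rpow_nonneg hQ0.le _
    have hQ4 : 0 ≤ Q ^ (4 * δ) := Real.rpow_nonneg hQ0.le _
    have hQ63 : 0 ≤ Q ^ ((63 : ℝ) / 32) := Real.rpow_nonneg hQ0.le _
    have hQQ : 0 ≤ Q ^ ((63 : ℝ) / 32 + ε) := by linarith
    have hθθ : 0 ≤ |(θ : ℝ)| ^ (2 * δ) := Real.rpow_nonneg hθ0.le _
    calc 389120 * (X ^ 63 * Real.sqrt T * l ^ 3 * E ^ 2)
        ≤ 389120 * (X ^ 63 * Real.sqrt T * ((6 + 1 / δ) ^ 3 * Q ^ (3 * δ)) * E ^ 2) := by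
          refine mul_le_mul_of_nonneg_left ?_ (by norm_num)
          refine mul_le_mul_of_nonneg_right ?_ (by positivity)
          exact mul_le_mul_of_nonneg_left d2 (by positivity)
      _ = Ca * ((Q ^ ((63 : ℝ) / 32) * (Q ^ (3 * δ) * Q ^ (4 * δ))) * Real.sqrt T *
            |(θ : ℝ)| ^ (2 * δ)) := by
          rw [d3, d4, hCa]
          ring
      _ ≤ Ca * (Q ^ ((63 : ℝ) / 32 + ε) * Real.sqrt T * |(θ : ℝ)| ^ ε) := by
          refine mul_le_mul_of_nonneg_left ?_ hCa0.le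
          exact mul_le_mul (mul_le_mul_of_nonneg_right d5 hs0) d6 hθθ (by positivity)
      _ ≤ (Ca + Cb) * (Q ^ ((63 : ℝ) / 32 + ε) * Real.sqrt T * |(θ : ℝ)| ^ ε) := by
          refine mul_le_mul_of_nonneg_right (by linarith) (by positivity)

end Pool.Agent.Lib.KF
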