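import Pool.Agent.Lib.KF.SpecB

/-!
MP_00e23e_nt, directory Lib/KF, module Kfb: combination for given L.
-/

namespace Pool.Agent.Lib.KF

open Finset Pool.Agent.Lib.EH3

/-- **Module Kfb: combination for given L.** -/
theorem tKfb (h1 : HsqStmt) (h2 : AmqStmt) (h3 : CsbStmt) : KfbStmt := by
  intro Q Y E L θ α hQ hL hθ hL40 hprl hY1 hY2 hY3 hDB
  have e1 := h1 Q Y E L θ hQ hL hθ hL40 hY1 hY2 hY3 hDB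
  have e2 := h2 Q L θ α hQ (by omega) hL40 hprl
  have e3 := h3 (dy Q) α (fun m1 m2 => ∑ t ∈ tup L, TT Q θ t m1 m2)
  have e4 := Real.sqrt_le_sqrt e1
  have e5 : (0 : ℝ) ≤ ∑ m ∈ dy Q, ‖α m‖ ^ 2 := Finset.sum_nonneg fun m _ => by positivity
  calc ((prl L).card : ℝ) ^ 2 / 4 * ∑ n ∈ dy Q, ‖∑ m ∈ dy Q, α m * kf θ m n‖ ^ 2
      ≤ 160 * Q ^ 2 * ((prl L).card : ℝ) * ∑ m ∈ dy Q, ‖α m‖ ^ 2 +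
        ‖∑ m1 ∈ dy Q, ∑ m2 ∈ dy Q, α m1 * (starRingEnd ℂ) (α m2) *
          ∑ t ∈ tup L, TT Q θ t m1 m2‖ := e2
    _ ≤ 160 * Q ^ 2 * ((prl L).card : ℝ) * ∑ m ∈ dy Q, ‖α m‖ ^ 2 +
        (∑ m ∈ dy Q, ‖α m‖ ^ 2) * Real.sqrt (∑ m1 ∈ dy Q, ∑ m2 ∈ dy Q,
          ‖∑ t ∈ tup L, TT Q θ t m1 m2‖ ^ 2) := by gcongr
    _ ≤ 160 * Q ^ 2 * ((prl L).card : ℝ) * ∑ m ∈ dy Q, ‖α m‖ ^ 2 +
        (∑ m ∈ dy Q, ‖α m‖ ^ 2) * Real.sqrt (10 ^ 8 * Q ^ 4 * ((prl L).card : ℝ) ^ 2 * E +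
        10 ^ 6 * (L : ℝ) ^ 10 * Q ^ ((15 : ℝ) / 4) * (1 + |(θ : ℝ)| / Q ^ 2) *
          (5 + Real.log (2 * Q)) * E ^ 3) := by gcongr
    _ = _ := by ring

end Pool.Agent.Lib.KF
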