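import Pool.Agent.Lib.KF.SpecB

/-!
MP_00e23e_nt, directory Lib/KF: bilinear forms with Kloosterman fractions, the final statement
-/

namespace Pool.Agent.Lib.KF

open Finset Pool.Agent.Lib.EH3

private lemma Kft_sqrt (x a b : ℝ) (hx : 0 ≤ x) (h : a / 2 = b) : Real.sqrt (x ^ a) = x ^ b := by
  rw [Real.sqrt_eq_rpow, ← Real.rpow_mul hx]
  apply congrArg
  linarith

theorem tKft (h1 : KfaStmt) : KftStmt := by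
  intro ε hε
  obtain ⟨C, hC, hK⟩ := h1 (2 * ε) (by linarith)
  refine ⟨Real.sqrt C, Real.sqrt_pos.2 hC, ?_⟩
  intro Q θ α β hQ hθ
  have h2 := hK Q θ α hQ hθ
  have hQ0 : (0 : ℝ) ≤ Q := by linarith
  -- exchange of the sums
  have hsw : ∑ m ∈ dy Q, ∑ n ∈ dy Q, α m * β n * kf θ m n =
      ∑ n ∈ dy Q, β n * ∑ m ∈ dy Q, α m * kf θ m n := by
    rw [Finset.sum_comm]
    refine Finset.sum_congr rfl fun n _ => ?_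
    rw [Finset.mul_sum]
    exact Finset.sum_congr rfl fun m _ => by ring
  have hcs : ‖∑ n ∈ dy Q, β n * ∑ m ∈ dy Q, α m * kf θ m n‖ ≤
      Real.sqrt (∑ n ∈ dy Q, ‖β n‖ ^ 2) *
        Real.sqrt (∑ n ∈ dy Q, ‖∑ m ∈ dy Q, α m * kf θ m n‖ ^ 2) := by
    refine (norm_sum_le _ _).trans ?_
    have e : ∀ n ∈ dy Q, ‖β n * ∑ m ∈ dy Q, α m * kf θ m n‖ =
        ‖β n‖ * ‖∑ m ∈ dy Q, α m * kf θ m n‖ := fun n _ => norm_mul _ _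
    rw [Finset.sum_congr rfl e]
    exact Real.sum_mul_le_sqrt_mul_sqrt _ _ _
  have hθ0 : (0 : ℝ) ≤ |(θ : ℝ)| := abs_nonneg _
  have hY0 : (0 : ℝ) ≤ 1 + |(θ : ℝ)| / Q ^ 2 := by positivity
  have hs : Real.sqrt (∑ n ∈ dy Q, ‖∑ m ∈ dy Q, α m * kf θ m n‖ ^ 2) ≤
      Real.sqrt C * (Q ^ ((63 : ℝ) / 64 + ε) * (1 + |(θ : ℝ)| / Q ^ 2) ^ ((1 : ℝ) / 4) *
        |(θ : ℝ)| ^ ε) * Real.sqrt (∑ m ∈ dy Q, ‖α m‖ ^ 2) := by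
    refine (Real.sqrt_le_sqrt h2).trans (le_of_eq ?_)
    have hX : (0 : ℝ) ≤ Q ^ ((63 : ℝ) / 32 + 2 * ε) := Real.rpow_nonneg hQ0 _
    have hY : (0 : ℝ) ≤ (1 + |(θ : ℝ)| / Q ^ 2) ^ ((1 : ℝ) / 2) := Real.rpow_nonneg hY0 _
    have hZ : (0 : ℝ) ≤ |(θ : ℝ)| ^ (2 * ε) := Real.rpow_nonneg hθ0 _
    rw [Real.sqrt_mul (mul_nonneg hC.le (mul_nonneg (mul_nonneg hX hY) hZ)),
      Real.sqrt_mul hC.le, Real.sqrt_mul (mul_nonneg hX hY), Real.sqrt_mul hX,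
      Kft_sqrt Q _ ((63 : ℝ) / 64 + ε) hQ0 (by ring),
      Kft_sqrt (1 + |(θ : ℝ)| / Q ^ 2) _ ((1 : ℝ) / 4) hY0 (by norm_num),
      Kft_sqrt |(θ : ℝ)| _ ε hθ0 (by ring)]
  rw [hsw]
  refine hcs.trans ?_
  refine (mul_le_mul_of_nonneg_left hs (Real.sqrt_nonneg _)).trans (le_of_eq ?_)
  ring

end Pool.Agent.Lib.KF
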