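import Pool.Agent.Lib.KF.SpecK

/-! MP_00e23e_nt, Lib/KF, module Kls: the bound for Kloosterman sums -/

namespace Pool.Agent.Lib.KF

open Finset Pool.Agent.Lib.EH3

private theorem Kls_ker (q : ℕ) [NeZero q] (c : ZMod q) :
    (univ.filter (fun x : ZMod q => c * x = 0)).card ≤ Nat.gcd c.val q := by
  classical
  have hq : 0 < q := Nat.pos_of_ne_zero (NeZero.ne q)
  obtain ⟨G, hGdef⟩ : ∃ G, G = Nat.gcd c.val q := ⟨_, rfl⟩
  have hG : 0 < G := by rw [hGdef]; exact Nat.gcd_pos_of_pos_right _ hq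
  obtain ⟨m, hm⟩ : G ∣ q := by rw [hGdef]; exact Nat.gcd_dvd_right _ _
  obtain ⟨c', hc'⟩ : G ∣ c.val := by rw [hGdef]; exact Nat.gcd_dvd_left _ _
  have hcop : Nat.Coprime m c' := by
    have h1 : Nat.gcd (c.val / G) (q / G) = 1 := by
      rw [hGdef]
      exact Nat.coprime_div_gcd_div_gcd (by rw [← hGdef]; exact hG)
    rw [hc', hm, Nat.mul_div_cancel_left _ hG, Nat.mul_div_cancel_left _ hG] at h1
    exact Nat.Coprime.symm h1
  rw [← hGdef]
  have hm0 : 0 < m := by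
    rcases Nat.eq_zero_or_pos m with h | h
    · rw [h, mul_zero] at hm
      omega
    · exact h
  have hd : ∀ x : ZMod q, c * x = 0 → m ∣ x.val := by
    intro x hx
    have h1 : q ∣ c.val * x.val := by
      have h2 : ((c.val * x.val : ℕ) : ZMod q) = 0 := by
        rw [Nat.cast_mul, ZMod.natCast_zmod_val, ZMod.natCast_zmod_val, hx]
      exact (ZMod.natCast_eq_zero_iff _ _).1 h2
    rw [hc'] at h1
    have h3 : G * m ∣ G * (c' * x.val) := by
      rw [← mul_assoc, ← hm]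
      exact h1
    have h4 : m ∣ c' * x.val := Nat.dvd_of_mul_dvd_mul_left hG h3
    exact hcop.dvd_of_dvd_mul_left h4
  have hcard : (univ.filter (fun x : ZMod q => c * x = 0)).card ≤ (range G).card := by
    refine Finset.card_le_card_of_injOn (fun x : ZMod q => x.val / m) ?_ ?_
    · intro x hx
      rw [Finset.mem_coe, Finset.mem_range]
      apply Nat.div_lt_of_lt_mul
      have h1 := ZMod.val_lt x
      calc x.val < q := h1
        _ = m * G := by rw [hm, mul_comm]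
    · intro x hx y hy hxy
      have hx' := hd x (Finset.mem_filter.1 (Finset.mem_coe.1 hx)).2
      have hy' := hd y (Finset.mem_filter.1 (Finset.mem_coe.1 hy)).2
      have h1 : x.val = y.val := by
        have h2 : x.val / m = y.val / m := hxy
        rw [← Nat.div_mul_cancel hx', ← Nat.div_mul_cancel hy', h2]
      exact ZMod.val_injective q h1
  rwa [Finset.card_range] at hcard

private theorem Kls_fib (q : ℕ) [NeZero q] (c u : ZMod q) :
    (univ.filter (fun t : (ZMod q)ˣ => c * (t : ZMod q) = u)).card ≤ Nat.gcd c.val q := by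
  classical
  rcases (univ.filter (fun t : (ZMod q)ˣ => c * (t : ZMod q) = u)).eq_empty_or_nonempty with h | h
  · rw [h, Finset.card_empty]
    exact Nat.zero_le _
  · obtain ⟨t0, ht0⟩ := h
    have ht0' := (Finset.mem_filter.1 ht0).2
    refine le_trans ?_ (Kls_ker q c)
    refine Finset.card_le_card_of_injOn (fun t : (ZMod q)ˣ => (t : ZMod q) - t0) ?_ ?_
    · intro t ht
      have ht' := (Finset.mem_filter.1 (Finset.mem_coe.1 ht)).2
      refine Finset.mem_coe.2 (Finset.mem_filter.2 ⟨Finset.mem_univ _, ?_⟩)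
      rw [mul_sub, ht', ht0', sub_self]
    · intro t _ s _ hts
      apply Units.ext
      exact sub_left_injective hts

private theorem Kls_inv (q : ℕ) [NeZero q] (c h : ZMod q) (t : (ZMod q)ˣ) :
    kl q (c * (t : ZMod q)) (h * ((t⁻¹ : (ZMod q)ˣ) : ZMod q)) = kl q c h := by
  unfold kl
  rw [← Equiv.sum_comp (Equiv.mulLeft t)]
  refine Finset.sum_congr rfl fun y _ => ?_
  congr 1
  rw [Equiv.coe_mulLeft, mul_inv_rev, Units.val_mul, Units.val_mul]
  have i1 : (t : ZMod q) * ((t⁻¹ : (ZMod q)ˣ) : ZMod q) = 1 := Units.mul_inv t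
  linear_combination (c * ((y⁻¹ : (ZMod q)ˣ) : ZMod q) + h * (y : ZMod q)) * i1

theorem tKls (h1 : MomStmt) : KlsStmt := by
  classical
  intro q _ c h
  have hmom := h1 q
  have hφ : 0 < q.totient := Nat.totient_pos.2 (Nat.pos_of_ne_zero (NeZero.ne q))
  have hφ' : (0 : ℝ) < (q.totient : ℝ) := by exact_mod_cast hφ
  obtain ⟨S, hS⟩ : ∃ S : ZMod q → ℝ, S = fun u => ∑ v : ZMod q, ‖kl q u v‖ ^ 4 := ⟨_, rfl⟩
  have hS0 : ∀ u, 0 ≤ S u := by
    intro u
    rw [hS]
    exact Finset.sum_nonneg fun v _ => by positivity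
  have e1 : (q.totient : ℝ) * ‖kl q c h‖ ^ 4 = ∑ t : (ZMod q)ˣ,
      ‖kl q (c * (t : ZMod q)) (h * ((t⁻¹ : (ZMod q)ˣ) : ZMod q))‖ ^ 4 := by
    rw [Finset.sum_congr rfl fun t _ => by rw [Kls_inv q c h t], Finset.sum_const, Finset.card_univ,
      ZMod.card_units_eq_totient, nsmul_eq_mul]
  have e2 : ∑ t : (ZMod q)ˣ, ‖kl q (c * (t : ZMod q)) (h * ((t⁻¹ : (ZMod q)ˣ) : ZMod q))‖ ^ 4 ≤
      ∑ t : (ZMod q)ˣ, S (c * (t : ZMod q)) := by
    refine Finset.sum_le_sum fun t _ => ?_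
    rw [hS]
    exact Finset.single_le_sum (f := fun v => ‖kl q (c * (t : ZMod q)) v‖ ^ 4)
      (fun v _ => by positivity) (Finset.mem_univ _)
  have e3 : ∑ t : (ZMod q)ˣ, S (c * (t : ZMod q)) = ∑ u : ZMod q,
      ((univ.filter (fun t : (ZMod q)ˣ => c * (t : ZMod q) = u)).card : ℝ) * S u := by
    rw [← Finset.sum_fiberwise (s := (univ : Finset (ZMod q)ˣ)) (g := fun t => c * (t : ZMod q))]
    refine Finset.sum_congr rfl fun u _ => ?_
    rw [Finset.sum_congr rfl fun t ht => by rw [(Finset.mem_filter.1 ht).2], Finset.sum_const,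
      nsmul_eq_mul]
  have e4 : ∑ u : ZMod q,
      ((univ.filter (fun t : (ZMod q)ˣ => c * (t : ZMod q) = u)).card : ℝ) * S u ≤
      ∑ u : ZMod q, (Nat.gcd c.val q : ℝ) * S u := by
    refine Finset.sum_le_sum fun u _ => mul_le_mul_of_nonneg_right ?_ (hS0 u)
    exact_mod_cast Kls_fib q c u
  have e5 : ∑ u : ZMod q, S u ≤ 2 * (tau q) ^ 2 * (q : ℝ) ^ 3 * (q.totient : ℝ) := by
    rw [hS]
    exact hmom
  have e6 : (q.totient : ℝ) * ‖kl q c h‖ ^ 4 ≤
      (q.totient : ℝ) * (2 * (tau q) ^ 2 * (Nat.gcd c.val q : ℝ) * (q : ℝ) ^ 3) := by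
    calc (q.totient : ℝ) * ‖kl q c h‖ ^ 4 ≤ ∑ u : ZMod q, (Nat.gcd c.val q : ℝ) * S u := by
          rw [e1]
          exact e2.trans (by rw [e3]; exact e4)
      _ = (Nat.gcd c.val q : ℝ) * ∑ u : ZMod q, S u := by rw [Finset.mul_sum]
      _ ≤ (Nat.gcd c.val q : ℝ) * (2 * (tau q) ^ 2 * (q : ℝ) ^ 3 * (q.totient : ℝ)) :=
          mul_le_mul_of_nonneg_left e5 (Nat.cast_nonneg _)
      _ = (q.totient : ℝ) * (2 * (tau q) ^ 2 * (Nat.gcd c.val q : ℝ) * (q : ℝ) ^ 3) := by ring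
  exact le_of_mul_le_mul_left e6 hφ'

end Pool.Agent.Lib.KF
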