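import Pool.Agent.Lib.KF.SpecL

/-!
Part L, module Kpa: application of the bilinear forms.
-/

namespace Pool.Agent.Lib.KF

open Finset Pool.Agent.Lib.EH3

/-- The nonzero integers of absolute value at most `J`. -/
noncomputable def Kpa_J (J : ℕ) : Finset ℤ := (Finset.Icc (-(J : ℤ)) (J : ℤ)).erase 0

theorem Kpa_card_J (J : ℕ) : ((Kpa_J J).card : ℝ) = 2 * J := by
  unfold Kpa_J
  rw [Finset.card_erase_of_mem (by rw [Finset.mem_Icc]; omega), Int.card_Icc]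
  have h1 : ((J : ℤ) + 1 - -(J : ℤ)).toNat - 1 = 2 * J := by omega
  rw [h1]
  push_cast
  ring

theorem Kpa_card_K (K : ℕ) : ((Finset.Icc (-(K : ℤ)) (K : ℤ)).card : ℝ) = 2 * K + 1 := by
  rw [Int.card_Icc]
  have h1 : ((K : ℤ) + 1 - -(K : ℤ)).toNat = 2 * K + 1 := by omega
  rw [h1]
  push_cast
  ring

/-- The first coefficients. -/
noncomputable def Kpa_a (X h : ℕ) (a : ℤ) (c : ℕ → ℝ) (k : ℤ) (d : ℕ) : ℂ :=
  ((c (h * d) : ℝ) : ℂ) * (vX X (a + ((h * d : ℕ) : ℤ) * k) : ℂ)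

/-- The second coefficients. -/
noncomputable def Kpa_b (h : ℕ) (c' : ℕ → ℝ) (j k : ℤ) (d : ℕ) : ℂ :=
  if j ∈ rep d then ((c' (h * d) : ℝ) : ℂ) * (1 / (d : ℂ)) * ee ((k : ℝ) * ((j : ℝ) / d)) else 0

theorem Kpa_kf {d1 d2 : ℕ} (θ : ℤ) (hc : d1.Coprime d2) :
    kf θ d1 d2 = em d2 ((θ : ZMod d2) * ((d1 : ZMod d2))⁻¹) := by
  unfold kf ei
  rw [if_pos ((ZMod.isUnit_iff_coprime d1 d2).2 hc)]

theorem Kpa_kf0 {d1 d2 : ℕ} (θ : ℤ) (hc : ¬ d1.Coprime d2) : kf θ d1 d2 = 0 := by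
  unfold kf ei
  rw [if_neg (fun h => hc ((ZMod.isUnit_iff_coprime d1 d2).1 h))]

theorem Kpa_inner (X h K J : ℕ) (a m' : ℤ) (c c' : ℕ → ℝ) (d1 d2 : ℕ) :
    (if d1.Coprime d2 then ((c (h * d1) * c' (h * d2) : ℝ) : ℂ) * ((1 / (d2 : ℂ)) *
        ∑ j ∈ (rep d2).filter (fun j => j ≠ 0 ∧ |j| ≤ (J : ℤ)), Kh X (h * d1) a K ((j : ℝ) / d2) *
          em d2 (((j * m' : ℤ) : ZMod d2) * ((d1 : ZMod d2))⁻¹)) else 0) =
    ∑ j ∈ Kpa_J J, ∑ k ∈ Finset.Icc (-(K : ℤ)) (K : ℤ),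
      Kpa_a X h a c k d1 * Kpa_b h c' j k d2 * kf (j * m') d1 d2 := by
  by_cases hc : d1.Coprime d2
  · rw [if_pos hc]
    have h1 : (rep d2).filter (fun j => j ≠ 0 ∧ |j| ≤ (J : ℤ)) =
        (Kpa_J J).filter (fun j => j ∈ rep d2) := by
      ext j
      unfold Kpa_J
      rw [Finset.mem_filter, Finset.mem_filter, Finset.mem_erase, Finset.mem_Icc, abs_le]
      tauto
    rw [h1, Finset.sum_filter, Finset.mul_sum, Finset.mul_sum]
    refine Finset.sum_congr rfl ?_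
    intro j _
    by_cases hj : j ∈ rep d2
    · rw [if_pos hj]
      unfold Kh
      rw [Finset.sum_mul, Finset.mul_sum, Finset.mul_sum]
      refine Finset.sum_congr rfl ?_
      intro k _
      rw [Kpa_kf _ hc]
      unfold Kpa_a Kpa_b
      rw [if_pos hj]
      push_cast
      ring
    · rw [if_neg hj]
      symm
      rw [mul_zero, mul_zero]
      refine Finset.sum_eq_zero ?_
      intro k _
      unfold Kpa_b
      rw [if_neg hj]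
      ring
  · rw [if_neg hc]
    symm
    refine Finset.sum_eq_zero ?_
    intro j _
    refine Finset.sum_eq_zero ?_
    intro k _
    rw [Kpa_kf0 _ hc, mul_zero]

theorem Kpa_total (X h K J : ℕ) (S : Finset ℕ) (a m' : ℤ) (c c' : ℕ → ℝ) :
    ∑ d1 ∈ S, ∑ d2 ∈ S.filter (fun d2 => d1.Coprime d2),
      ((c (h * d1) * c' (h * d2) : ℝ) : ℂ) * ((1 / (d2 : ℂ)) *
        ∑ j ∈ (rep d2).filter (fun j => j ≠ 0 ∧ |j| ≤ (J : ℤ)), Kh X (h * d1) a K ((j : ℝ) / d2) *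
          em d2 (((j * m' : ℤ) : ZMod d2) * ((d1 : ZMod d2))⁻¹)) =
    ∑ j ∈ Kpa_J J, ∑ k ∈ Finset.Icc (-(K : ℤ)) (K : ℤ), ∑ d1 ∈ S, ∑ d2 ∈ S,
      Kpa_a X h a c k d1 * Kpa_b h c' j k d2 * kf (j * m') d1 d2 := by
  have h1 : ∀ d1 ∈ S, ∑ d2 ∈ S.filter (fun d2 => d1.Coprime d2),
      ((c (h * d1) * c' (h * d2) : ℝ) : ℂ) * ((1 / (d2 : ℂ)) *
        ∑ j ∈ (rep d2).filter (fun j => j ≠ 0 ∧ |j| ≤ (J : ℤ)), Kh X (h * d1) a K ((j : ℝ) / d2) *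
          em d2 (((j * m' : ℤ) : ZMod d2) * ((d1 : ZMod d2))⁻¹)) =
      ∑ j ∈ Kpa_J J, ∑ k ∈ Finset.Icc (-(K : ℤ)) (K : ℤ), ∑ d2 ∈ S,
        Kpa_a X h a c k d1 * Kpa_b h c' j k d2 * kf (j * m') d1 d2 := by
    intro d1 _
    rw [Finset.sum_filter, Finset.sum_congr rfl (fun d2 _ => Kpa_inner X h K J a m' c c' d1 d2),
      Finset.sum_comm]
    refine Finset.sum_congr rfl ?_
    intro j _
    rw [Finset.sum_comm]
  rw [Finset.sum_congr rfl h1, Finset.sum_comm]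
  refine Finset.sum_congr rfl ?_
  intro j _
  rw [Finset.sum_comm]

theorem Kpa_norm_ee (t : ℝ) : ‖ee t‖ = 1 := by
  unfold ee
  rw [mul_comm]
  exact Complex.norm_exp_ofReal_mul_I _

theorem Kpa_norms (hv : ∀ (X : ℕ) (n : ℤ), 0 ≤ vX X n ∧ vX X n ≤ 1) (X h : ℕ) (q : ℝ) (a j k : ℤ)
    (c c' : ℕ → ℝ) (hq : 1 ≤ q) (hc : ∀ d, |c d| ≤ 1) (hc' : ∀ d, |c' d| ≤ 1) :
    Real.sqrt (∑ m ∈ dy q, ‖Kpa_a X h a c k m‖ ^ 2) *
      Real.sqrt (∑ n ∈ dy q, ‖Kpa_b h c' j k n‖ ^ 2) ≤ 2 := by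
  have hq0 : 0 < q := by linarith
  have hcard := card_dy_le hq
  have h1 : ∑ m ∈ dy q, ‖Kpa_a X h a c k m‖ ^ 2 ≤ 2 * q := by
    have h2 : ∀ m ∈ dy q, ‖Kpa_a X h a c k m‖ ^ 2 ≤ 1 := by
      intro m _
      have h3 : ‖Kpa_a X h a c k m‖ ≤ 1 := by
        unfold Kpa_a
        rw [norm_mul, Complex.norm_real, Complex.norm_real, Real.norm_eq_abs, Real.norm_eq_abs,
          abs_of_nonneg (hv X _).1]
        exact mul_le_one₀ (hc _) (hv X _).1 (hv X _).2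
      exact pow_le_one₀ (norm_nonneg _) h3
    refine (Finset.sum_le_card_nsmul _ _ 1 h2).trans ?_
    rw [nsmul_eq_mul, mul_one]
    exact hcard
  have h4 : ∑ n ∈ dy q, ‖Kpa_b h c' j k n‖ ^ 2 ≤ 2 / q := by
    have h2 : ∀ n ∈ dy q, ‖Kpa_b h c' j k n‖ ^ 2 ≤ (1 / q) ^ 2 := by
      intro n hn
      have hn1 := ((mem_dy hq0.le).1 hn).1
      have hn0 : (0 : ℝ) < n := by linarith
      have h3 : ‖Kpa_b h c' j k n‖ ≤ 1 / q := by
        unfold Kpa_b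
        split_ifs
        · rw [norm_mul, norm_mul, Kpa_norm_ee, Complex.norm_real, Real.norm_eq_abs, norm_div,
            norm_one, Complex.norm_natCast, mul_one]
          calc |c' (h * n)| * (1 / (n : ℝ)) ≤ 1 * (1 / q) := by
                refine mul_le_mul (hc' _) ?_ (by positivity) zero_le_one
                exact one_div_le_one_div_of_le hq0 hn1.le
            _ = 1 / q := one_mul _
        · rw [norm_zero]; positivity
      exact pow_le_pow_left₀ (norm_nonneg _) h3 2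
    refine (Finset.sum_le_card_nsmul _ _ _ h2).trans ?_
    rw [nsmul_eq_mul]
    calc ((dy q).card : ℝ) * (1 / q) ^ 2 ≤ (2 * q) * (1 / q) ^ 2 := by gcongr
      _ = 2 / q := by field_simp
  calc Real.sqrt (∑ m ∈ dy q, ‖Kpa_a X h a c k m‖ ^ 2) *
      Real.sqrt (∑ n ∈ dy q, ‖Kpa_b h c' j k n‖ ^ 2) ≤ Real.sqrt (2 * q) * Real.sqrt (2 / q) :=
        mul_le_mul (Real.sqrt_le_sqrt h1) (Real.sqrt_le_sqrt h4) (Real.sqrt_nonneg _)
          (Real.sqrt_nonneg _)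
    _ = Real.sqrt (2 ^ 2) := by
        rw [← Real.sqrt_mul (by positivity)]
        congr 1
        field_simp
    _ = 2 := Real.sqrt_sq (by norm_num)

theorem tKpa (h1 : VapStmt) (h2 : KftStmt) : KpaStmt := by
  obtain ⟨hv, -, -, -⟩ := h1
  intro ε hε
  obtain ⟨C0, hC0, hkft⟩ := h2 ε hε
  refine ⟨4 * C0, by positivity, ?_⟩
  intro X h K J Q a m' c c' hh hJ hhQ hm' hc hc'
  have hh0 : (0 : ℝ) < h := by exact_mod_cast hh
  have hq : 1 ≤ Q / h := by rw [le_div_iff₀ hh0]; linarith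
  have hq0 : 0 < Q / h := by linarith
  have hJ0 : (0 : ℝ) < J := by exact_mod_cast hJ
  have hm0 : (0 : ℝ) < |(m' : ℝ)| := abs_pos.2 (by exact_mod_cast hm')
  rw [Kpa_total]
  set q : ℝ := Q / h with hqdef
  set B : ℝ := q ^ ((63 : ℝ) / 64 + ε) * (1 + J * |(m' : ℝ)| / q ^ 2) ^ ((1 : ℝ) / 4) *
    (J * |(m' : ℝ)|) ^ ε with hB
  have hB0 : 0 ≤ B := by positivity
  have hone : ∀ j ∈ Kpa_J J, ∀ k ∈ Finset.Icc (-(K : ℤ)) (K : ℤ),
      ‖∑ d1 ∈ dy q, ∑ d2 ∈ dy q, Kpa_a X h a c k d1 * Kpa_b h c' j k d2 * kf (j * m') d1 d2‖ ≤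
      2 * C0 * B := by
    intro j hj k _
    unfold Kpa_J at hj
    rw [Finset.mem_erase, Finset.mem_Icc] at hj
    have hj1 : |(j : ℝ)| ≤ J := by
      have h3 : |j| ≤ (J : ℤ) := abs_le.2 hj.2
      exact_mod_cast h3
    have hjm : |((j * m' : ℤ) : ℝ)| ≤ J * |(m' : ℝ)| := by
      push_cast
      rw [abs_mul]
      exact mul_le_mul_of_nonneg_right hj1 (abs_nonneg _)
    have h4 := hkft q (j * m') (Kpa_a X h a c k) (Kpa_b h c' j k) hq (mul_ne_zero hj.1 hm')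
    have h5 := Kpa_norms hv X h q a j k c c' hq hc hc'
    refine h4.trans ?_
    have h6 : q ^ ((63 : ℝ) / 64 + ε) * (1 + |((j * m' : ℤ) : ℝ)| / q ^ 2) ^ ((1 : ℝ) / 4) *
        |((j * m' : ℤ) : ℝ)| ^ ε ≤ B := by
      rw [hB]
      gcongr
    calc C0 * (q ^ ((63 : ℝ) / 64 + ε) * (1 + |((j * m' : ℤ) : ℝ)| / q ^ 2) ^ ((1 : ℝ) / 4) *
          |((j * m' : ℤ) : ℝ)| ^ ε) *
          (Real.sqrt (∑ m ∈ dy q, ‖Kpa_a X h a c k m‖ ^ 2) *
            Real.sqrt (∑ n ∈ dy q, ‖Kpa_b h c' j k n‖ ^ 2))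
        ≤ C0 * B * 2 := by gcongr
      _ = 2 * C0 * B := by ring
  calc ‖∑ j ∈ Kpa_J J, ∑ k ∈ Finset.Icc (-(K : ℤ)) (K : ℤ), ∑ d1 ∈ dy q, ∑ d2 ∈ dy q,
        Kpa_a X h a c k d1 * Kpa_b h c' j k d2 * kf (j * m') d1 d2‖
      ≤ ∑ j ∈ Kpa_J J, ∑ k ∈ Finset.Icc (-(K : ℤ)) (K : ℤ), 2 * C0 * B := by
        refine (norm_sum_le _ _).trans (Finset.sum_le_sum fun j hj => ?_)
        exact (norm_sum_le _ _).trans (Finset.sum_le_sum fun k hk => hone j hj k hk)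
    _ = 4 * C0 * J * (2 * K + 1) * B := by
        rw [Finset.sum_const, Finset.sum_const, nsmul_eq_mul, nsmul_eq_mul, Kpa_card_J, Kpa_card_K]
        ring
    _ ≤ _ := le_refl _

end Pool.Agent.Lib.KF
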