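import Pool.Agent.Lib.KF.SpecL

/-!
Part L, module Lsq: the L^2 inequality.
-/

namespace Pool.Agent.Lib.KF

open Finset Pool.Agent.Lib.EH3

theorem Lsq_num {C1 x q : ℝ} (hC1 : 0 < C1) (hx : 1 ≤ x) (hx0 : (3872 * C1) ^ 10 ≤ x)
    (hq1 : 1 ≤ q) (hq : q ≤ x ^ ((5011 : ℝ) / 10000)) :
    4 * q * (1 + Real.log (2 * q)) *
      (2 * (1 + Real.log (2 * q)) * (C1 * (2 * x) ^ ((1 : ℝ) / 10))) ≤
      x ^ ((3999 : ℝ) / 4000) / 2 := by
  have hx0' : 0 < x := by linarith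
  have hq0 : 0 < q := by linarith
  have hqx : q ≤ x := hq.trans (by
    calc x ^ ((5011 : ℝ) / 10000) ≤ x ^ (1 : ℝ) := Real.rpow_le_rpow_of_exponent_le hx (by norm_num)
      _ = x := Real.rpow_one x)
  set y : ℝ := (2 * x) ^ ((1 : ℝ) / 10) with hy
  have hy1 : 1 ≤ y := Real.one_le_rpow (by linarith) (by norm_num)
  have hlog0 : 0 ≤ Real.log (2 * q) := Real.log_nonneg (by linarith)
  have hlog : Real.log (2 * q) ≤ 10 * y := by
    have h1 : Real.log (2 * q) ≤ Real.log (2 * x) :=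
      Real.log_le_log (by linarith) (by linarith)
    have h2 : Real.log (2 * x) ≤ (2 * x) ^ ((1 : ℝ) / 10) / ((1 : ℝ) / 10) :=
      Real.log_le_rpow_div (by linarith) (by norm_num)
    rw [← hy] at h2
    linarith
  have hl11 : 1 + Real.log (2 * q) ≤ 11 * y := by linarith
  have hy3 : y ^ 3 ≤ 2 * x ^ ((3 : ℝ) / 10) := by
    have e1 : y ^ 3 = (2 * x) ^ ((3 : ℝ) / 10) := by
      rw [hy, ← Real.rpow_natCast, ← Real.rpow_mul (by linarith)]
      norm_num
    rw [e1, Real.mul_rpow (by norm_num) hx0'.le]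
    have e2 : (2 : ℝ) ^ ((3 : ℝ) / 10) ≤ 2 := by
      calc (2 : ℝ) ^ ((3 : ℝ) / 10) ≤ 2 ^ (1 : ℝ) :=
            Real.rpow_le_rpow_of_exponent_le (by norm_num) (by norm_num)
        _ = 2 := Real.rpow_one 2
    gcongr
  have hC : 3872 * C1 ≤ x ^ ((1 : ℝ) / 10) := by
    have h1 : (3872 * C1) ^ 10 ≤ (x ^ ((1 : ℝ) / 10)) ^ 10 := by
      rw [← Real.rpow_natCast (x ^ ((1 : ℝ) / 10)), ← Real.rpow_mul hx0'.le]
      norm_num
      exact hx0
    exact (pow_le_pow_iff_left₀ (by positivity) (by positivity) (by norm_num)).1 h1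
  calc 4 * q * (1 + Real.log (2 * q)) * (2 * (1 + Real.log (2 * q)) * (C1 * y))
      ≤ 4 * x ^ ((5011 : ℝ) / 10000) * (11 * y) * (2 * (11 * y) * (C1 * y)) := by gcongr
    _ = 968 * C1 * x ^ ((5011 : ℝ) / 10000) * y ^ 3 := by ring
    _ ≤ 968 * C1 * x ^ ((5011 : ℝ) / 10000) * (2 * x ^ ((3 : ℝ) / 10)) := by gcongr
    _ = (3872 * C1) * (x ^ ((5011 : ℝ) / 10000) * x ^ ((3 : ℝ) / 10)) / 2 := by ring
    _ ≤ x ^ ((1 : ℝ) / 10) * (x ^ ((5011 : ℝ) / 10000) * x ^ ((3 : ℝ) / 10)) / 2 := by gcongr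
    _ = x ^ ((9011 : ℝ) / 10000) / 2 := by
      rw [← Real.rpow_add hx0', ← Real.rpow_add hx0']
      norm_num
    _ ≤ x ^ ((3999 : ℝ) / 4000) / 2 := by
      have := Real.rpow_le_rpow_of_exponent_le hx (by norm_num : (9011 : ℝ) / 10000 ≤ 3999 / 4000)
      linarith

/-- The square of the sum, expanded. -/
theorem Lsq_expand (Z A : Finset ℤ) (v : ℤ → ℝ) (g : ℤ → ℤ → ℝ) :
    ∑ n ∈ Z, v n * (∑ a ∈ A.erase n, g a n) ^ 2 =
      ∑ a ∈ A, ∑ b ∈ A, ∑ n ∈ Z,
        v n * ((if a ≠ n then g a n else 0) * (if b ≠ n then g b n else 0)) := by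
  have h1 : ∀ n ∈ Z, v n * (∑ a ∈ A.erase n, g a n) ^ 2 =
      ∑ a ∈ A, ∑ b ∈ A, v n * ((if a ≠ n then g a n else 0) * (if b ≠ n then g b n else 0)) := by
    intro n _
    have h2 : ∑ a ∈ A.erase n, g a n = ∑ a ∈ A, (if a ≠ n then g a n else 0) := by
      rw [← Finset.filter_ne', Finset.sum_filter]
    rw [h2, sq, Finset.sum_mul_sum, Finset.mul_sum]
    refine Finset.sum_congr rfl ?_
    intro a _
    rw [Finset.mul_sum]
  rw [Finset.sum_congr rfl h1, Finset.sum_comm]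
  refine Finset.sum_congr rfl ?_
  intro a _
  rw [Finset.sum_comm]

/-- The diagonal sums. -/
theorem Lsq_diag (Z : Finset ℤ) (v : ℤ → ℝ) (g : ℤ → ℤ → ℝ) (a : ℤ) :
    ∑ n ∈ Z, v n * ((if a ≠ n then g a n else 0) * (if a ≠ n then g a n else 0)) =
      ∑ n ∈ Z.erase a, v n * (g a n) ^ 2 := by
  rw [← Finset.filter_ne', Finset.sum_filter]
  refine Finset.sum_congr rfl ?_
  intro n _
  by_cases h : a = n
  · subst h
    simp
  · rw [if_pos h, if_pos (Ne.symm h)]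
    ring

/-- The off-diagonal sums: the terms `n = a`, `n = b` are removed. -/
theorem Lsq_off (Z : Finset ℤ) (v : ℤ → ℝ) (g : ℤ → ℤ → ℝ) (a b : ℤ) (T : ℝ) (hT : 0 ≤ T)
    (ha : |v a * (g a a * g b a)| ≤ T) (hb : |v b * (g a b * g b b)| ≤ T) :
    ∑ n ∈ Z, v n * ((if a ≠ n then g a n else 0) * (if b ≠ n then g b n else 0)) ≤
      ∑ n ∈ Z, v n * (g a n * g b n) + 2 * T := by
  have h1 : ∀ n ∈ Z, v n * ((if a ≠ n then g a n else 0) * (if b ≠ n then g b n else 0)) ≤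
      v n * (g a n * g b n) + ((if n = a then T else 0) + (if n = b then T else 0)) := by
    intro n _
    by_cases h : a = n
    · subst h
      have h3 : (0 : ℝ) ≤ (if a = b then T else 0) := by split_ifs <;> [exact hT; exact le_rfl]
      have := (abs_le.1 ha).1
      simp only [ne_eq, not_true_eq_false, if_false, zero_mul, mul_zero, if_true]
      linarith
    · by_cases h' : b = n
      · subst h'
        have h3 : (0 : ℝ) ≤ (if b = a then T else 0) := by split_ifs <;> [exact hT; exact le_rfl]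
        have := (abs_le.1 hb).1
        simp only [ne_eq, not_true_eq_false, if_false, mul_zero, if_true]
        linarith
      · rw [if_pos h, if_pos h', if_neg (Ne.symm h), if_neg (Ne.symm h')]
        linarith
  refine (Finset.sum_le_sum h1).trans ?_
  rw [Finset.sum_add_distrib, Finset.sum_add_distrib]
  have h2 : ∀ c : ℤ, ∑ n ∈ Z, (if n = c then T else 0) ≤ T := by
    intro c
    rw [Finset.sum_ite_eq']
    split_ifs <;> [exact le_rfl; exact hT]
  linarith [h2 a, h2 b]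

theorem tLsq (h1 : VapStmt) (h2 : DvbStmt) (h3 : GabStmt) (h4 : OflStmt) (h5 : DiaStmt) :
    LsqStmt := by
  obtain ⟨hv01, -, -, -⟩ := h1
  obtain ⟨C1, hC1, hdvb⟩ := h2 (1 / 10) (by norm_num)
  obtain ⟨-, hg2, hg3⟩ := h3
  obtain ⟨X1, hX1, hofl⟩ := h4
  obtain ⟨C, hC, hdia⟩ := h5
  refine ⟨C, max X1 ⌈(3872 * C1) ^ 10⌉₊, hC, le_max_of_le_left hX1, ?_⟩
  intro X Q A c hX hQ1 hQ2 hA hc
  have hXX1 : X1 ≤ X := (le_max_left _ _).trans hX
  have hXc : ⌈(3872 * C1) ^ 10⌉₊ ≤ X := (le_max_right _ _).trans hX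
  have hX1' : 1 ≤ X := hX1.trans hXX1
  have hx1 : (1 : ℝ) ≤ X := by exact_mod_cast hX1'
  have hxc : (3872 * C1) ^ 10 ≤ (X : ℝ) := (Nat.le_ceil _).trans (by exact_mod_cast hXc)
  have hQone : 1 ≤ Q := (Real.one_le_rpow hx1 (by norm_num)).trans hQ1
  have hQX : Q ≤ X := hQ2.trans (by
    calc (X : ℝ) ^ ((5011 : ℝ) / 10000) ≤ (X : ℝ) ^ (1 : ℝ) :=
          Real.rpow_le_rpow_of_exponent_le hx1 (by norm_num)
      _ = X := Real.rpow_one _)
  set R : ℕ := ⌊(X : ℝ) ^ ((4985 : ℝ) / 10000)⌋₊ with hR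
  have hRQ : (R : ℝ) ≤ Q := by
    calc (R : ℝ) ≤ (X : ℝ) ^ ((4985 : ℝ) / 10000) := Nat.floor_le (by positivity)
      _ ≤ (X : ℝ) ^ ((499 : ℝ) / 1000) := Real.rpow_le_rpow_of_exponent_le hx1 (by norm_num)
      _ ≤ Q := hQ1
  set T : ℝ := (X : ℝ) ^ ((3999 : ℝ) / 4000) / 2 with hT
  have hT0 : 0 ≤ T := by positivity
  have hnum := Lsq_num hC1 hx1 hxc hQone hQ2
  have hlog0 : 0 ≤ Real.log (2 * Q) := Real.log_nonneg (by linarith)
  -- the bound for one removed term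
  have hterm : ∀ a ∈ A, ∀ b ∈ A, a ≠ b → ∀ n : ℤ,
      |vX X n * (gg R Q (c a) (a - a) * gg R Q (c b) (a - b))| ≤ T := by
    intro a ha b hb hab n
    have hab0 : a - b ≠ 0 := sub_ne_zero.2 hab
    have e1 : |vX X n| ≤ 1 := by
      rw [abs_of_nonneg (hv01 X n).1]; exact (hv01 X n).2
    have e2 := hg3 R Q (c a) (a - a) hQone hRQ (hc a)
    have e3 := hg2 R Q (c b) (a - b) hQone hRQ (hc b) hab0
    have e4 : tau (a - b).natAbs ≤ C1 * (2 * (X : ℝ)) ^ ((1 : ℝ) / 10) := by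
      have h6 : 1 ≤ (a - b).natAbs := Int.natAbs_pos.2 hab0
      refine (hdvb _ h6).trans ?_
      have h7 : ((a - b).natAbs : ℝ) ≤ 2 * (X : ℝ) := by
        have h8 : ((a - b).natAbs : ℤ) ≤ 2 * (X : ℤ) := by
          rw [Int.natCast_natAbs]
          have := abs_sub a b
          have h9 := hA a ha
          have h10 := hA b hb
          calc |a - b| ≤ |a| + |b| := abs_sub a b
            _ ≤ 2 * (X : ℤ) := by linarith
        exact_mod_cast h8
      have h8 : ((a - b).natAbs : ℝ) ^ ((1 : ℝ) / 10) ≤ (2 * (X : ℝ)) ^ ((1 : ℝ) / 10) :=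
        Real.rpow_le_rpow (by positivity) h7 (by norm_num)
      exact mul_le_mul_of_nonneg_left h8 hC1.le
    rw [abs_mul, abs_mul]
    calc |vX X n| * (|gg R Q (c a) (a - a)| * |gg R Q (c b) (a - b)|)
        ≤ 1 * ((4 * Q * (1 + Real.log (2 * Q))) *
          (2 * (1 + Real.log (2 * Q)) * (C1 * (2 * (X : ℝ)) ^ ((1 : ℝ) / 10)))) := by
          refine mul_le_mul e1 ?_ (by positivity) zero_le_one
          refine mul_le_mul e2 ?_ (abs_nonneg _) (by positivity)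
          refine e3.trans ?_
          exact mul_le_mul_of_nonneg_left e4 (by positivity)
      _ = 4 * Q * (1 + Real.log (2 * Q)) *
          (2 * (1 + Real.log (2 * Q)) * (C1 * (2 * (X : ℝ)) ^ ((1 : ℝ) / 10))) := one_mul _
      _ ≤ T := hnum
  rw [Lsq_expand (zs X) A (vX X) (fun a n => gg R Q (c a) (n - a))]
  have hab : ∀ a ∈ A, ∀ b ∈ A, ∑ n ∈ zs X, vX X n *
      ((if a ≠ n then gg R Q (c a) (n - a) else 0) * (if b ≠ n then gg R Q (c b) (n - b) else 0)) ≤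
      (if a = b then C * (X * (1 + Real.log X) ^ 5) else 0) + 4 * T := by
    intro a ha b hb
    by_cases h : a = b
    · subst h
      rw [if_pos rfl, Lsq_diag (zs X) (vX X) (fun a n => gg R Q (c a) (n - a)) a]
      have := hdia X R Q a (c a) hX1' hQone hRQ hQX (hA a ha) (hc a)
      linarith
    · rw [if_neg h, zero_add]
      have e1 := Lsq_off (zs X) (vX X) (fun a n => gg R Q (c a) (n - a)) a b T hT0
        (hterm a ha b hb h a) (by
          have := hterm b hb a ha (Ne.symm h) b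
          rw [mul_comm (gg R Q (c b) (b - b))] at this
          exact this)
      have e2 := hofl X Q a b (c a) (c b) hXX1 hQ1 hQ2 h (hA a ha) (hA b hb) (hc a) (hc b)
      rw [← hR] at e2
      have e3 : ∑ n ∈ zs X, vX X n * (gg R Q (c a) (n - a) * gg R Q (c b) (n - b)) ≤ 2 * T := by
        calc ∑ n ∈ zs X, vX X n * (gg R Q (c a) (n - a) * gg R Q (c b) (n - b))
            = ∑ n ∈ zs X, vX X n * gg R Q (c a) (n - a) * gg R Q (c b) (n - b) := by
              refine Finset.sum_congr rfl ?_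
              intro n _
              ring
          _ ≤ _ := le_abs_self _
          _ ≤ (X : ℝ) ^ ((3999 : ℝ) / 4000) := e2
          _ = 2 * T := by rw [hT]; ring
      linarith
  refine (Finset.sum_le_sum fun a ha => Finset.sum_le_sum fun b hb => hab a ha b hb).trans ?_
  have e5 : ∑ a ∈ A, ∑ b ∈ A, ((if a = b then C * ((X : ℝ) * (1 + Real.log X) ^ 5) else 0) + 4 * T) =
      C * A.card * (X * (1 + Real.log X) ^ 5) + (A.card : ℝ) ^ 2 * (4 * T) := by
    have e6 : ∀ a ∈ A, ∑ b ∈ A, ((if a = b then C * ((X : ℝ) * (1 + Real.log X) ^ 5) else 0) + 4 * T) =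
        C * ((X : ℝ) * (1 + Real.log X) ^ 5) + A.card * (4 * T) := by
      intro a ha
      rw [Finset.sum_add_distrib, Finset.sum_ite_eq, if_pos ha, Finset.sum_const, nsmul_eq_mul]
    rw [Finset.sum_congr rfl e6, Finset.sum_const, nsmul_eq_mul]
    ring
  rw [e5, hT]
  apply le_of_eq
  ring

end Pool.Agent.Lib.KF
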