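import Pool.Agent.Lib.KF.SpecL

/-!
MP_00e23e_nt, directory Lib/KF, module Mnt: the main term.
-/

namespace Pool.Agent.Lib.KF

open Finset Pool.Agent.Lib.EH3

/-- the multiples of e beyond R -/
private lemma Mnt_tail (N R e : ℕ) (hR : 1 ≤ R) (he : 1 ≤ e) :
    ∑ s ∈ (Icc 1 N).filter (fun s => R < s ∧ e ∣ s), 1 / (s : ℝ) ^ 2 ≤ 2 / ((e : ℝ) * R) := by
  have he0 : (0 : ℝ) < e := by exact_mod_cast he
  have hR0 : (0 : ℝ) < R := by exact_mod_cast hR
  have hsub : (Icc 1 N).filter (fun s => R < s ∧ e ∣ s) ⊆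
      (Ioo (R / e) (N + 1)).image (fun t => e * t) := by
    intro s hs
    rw [mem_filter, mem_Icc] at hs
    obtain ⟨⟨g1, g2⟩, g3, t, rfl⟩ := hs
    rw [mem_image]
    refine ⟨t, ?_, rfl⟩
    rw [mem_Ioo]
    constructor
    · rw [Nat.div_lt_iff_lt_mul he, mul_comm]
      exact g3
    · have : t ≤ e * t := Nat.le_mul_of_pos_left t he
      omega
  calc ∑ s ∈ (Icc 1 N).filter (fun s => R < s ∧ e ∣ s), 1 / (s : ℝ) ^ 2
      ≤ ∑ s ∈ (Ioo (R / e) (N + 1)).image (fun t => e * t), 1 / (s : ℝ) ^ 2 :=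
        Finset.sum_le_sum_of_subset_of_nonneg hsub fun _ _ _ => by positivity
    _ = ∑ t ∈ Ioo (R / e) (N + 1), 1 / ((e * t : ℕ) : ℝ) ^ 2 := by
        rw [Finset.sum_image]
        intro x _ y _ hxy
        exact Nat.eq_of_mul_eq_mul_left he hxy
    _ = (1 / (e : ℝ) ^ 2) * ∑ t ∈ Ioo (R / e) (N + 1), ((t : ℝ) ^ 2)⁻¹ := by
        rw [Finset.mul_sum]
        refine Finset.sum_congr rfl fun t _ => ?_
        push_cast
        rw [mul_pow, one_div, mul_inv, one_div]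
    _ ≤ (1 / (e : ℝ) ^ 2) * (2 / (((R / e : ℕ) : ℝ) + 1)) :=
        mul_le_mul_of_nonneg_left (sum_Ioo_inv_sq_le _ _) (by positivity)
    _ ≤ (1 / (e : ℝ) ^ 2) * (2 * e / R) := by
        refine mul_le_mul_of_nonneg_left ?_ (by positivity)
        rw [div_le_div_iff₀ (by positivity) hR0]
        have g1 : R < e * (R / e + 1) := Nat.lt_mul_div_succ R he
        have g2 : (R : ℝ) ≤ e * (((R / e : ℕ) : ℝ) + 1) := by exact_mod_cast g1.le
        linarith
    _ = 2 / ((e : ℝ) * R) := by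
        field_simp

theorem tMnt (h1 : RamStmt) (h2 : GamStmt) : MntStmt := by
  intro R Q c c' m hR hQ hc hc' hm
  obtain ⟨N, hN⟩ : ∃ N, N = ⌊2 * Q⌋₊ := ⟨_, rfl⟩
  obtain ⟨-, -, hG3, hG4⟩ := h2
  have g3 := hG3 R Q c
  have g3' := hG3 R Q c'
  have g4 := hG4 R Q c
  have g4' := hG4 R Q c'
  rw [← hN] at g3 g3' g4 g4' ⊢
  -- step 2
  have hmain : ∑ e ∈ Icc 1 N, ∑ f ∈ Icc 1 N, gam R Q c e * gam R Q c' f *
      (if ((Nat.gcd e f : ℕ) : ℤ) ∣ m then (Nat.gcd e f : ℝ) / ((e : ℝ) * f) else 0) =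
      ∑ s ∈ Icc 1 N, ram s m * ((∑ e ∈ (Icc 1 N).filter (fun e : ℕ => s ∣ e), gam R Q c e / e) *
        (∑ f ∈ (Icc 1 N).filter (fun f : ℕ => s ∣ f), gam R Q c' f / f)) := by
    have hR1 : ∀ s ∈ Icc 1 N, ram s m *
        ((∑ e ∈ (Icc 1 N).filter (fun e : ℕ => s ∣ e), gam R Q c e / e) *
        (∑ f ∈ (Icc 1 N).filter (fun f : ℕ => s ∣ f), gam R Q c' f / f)) =
        ∑ e ∈ Icc 1 N, ∑ f ∈ Icc 1 N,
          if s ∣ e ∧ s ∣ f then (gam R Q c e / e * (gam R Q c' f / f)) * ram s m else 0 := by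
      intro s _
      rw [Finset.sum_filter, Finset.sum_filter, Finset.sum_mul_sum, Finset.mul_sum]
      refine Finset.sum_congr rfl fun e _ => ?_
      rw [Finset.mul_sum]
      refine Finset.sum_congr rfl fun f _ => ?_
      by_cases k1 : s ∣ e
      · by_cases k2 : s ∣ f
        · rw [if_pos k1, if_pos k2, if_pos ⟨k1, k2⟩]
          ring
        · rw [if_neg k2, if_neg (show ¬ (s ∣ e ∧ s ∣ f) from fun h => k2 h.2), mul_zero, mul_zero]
      · rw [if_neg k1, if_neg (show ¬ (s ∣ e ∧ s ∣ f) from fun h => k1 h.1), zero_mul, mul_zero]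
    symm
    rw [Finset.sum_congr rfl hR1, Finset.sum_comm]
    refine Finset.sum_congr rfl fun e he => ?_
    rw [Finset.sum_comm]
    refine Finset.sum_congr rfl fun f hf => ?_
    rw [mem_Icc] at he hf
    rw [← Finset.sum_filter, ← Finset.mul_sum]
    have hset : (Icc 1 N).filter (fun s => s ∣ e ∧ s ∣ f) = (Nat.gcd e f).divisors := by
      ext s
      rw [mem_filter, mem_Icc, Nat.mem_divisors, Nat.dvd_gcd_iff]
      constructor
      · rintro ⟨_, k2⟩
        exact ⟨k2, Nat.gcd_ne_zero_left (by omega)⟩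
      · rintro ⟨k1, _⟩
        have k2 := Nat.pos_of_dvd_of_pos k1.1 (by omega)
        have k3 := Nat.le_of_dvd (by omega) k1.1
        exact ⟨⟨k2, by omega⟩, k1⟩
    rw [hset, h1.1 _ m (Nat.gcd_pos_of_pos_left _ (by omega))]
    have he0 : (e : ℝ) ≠ 0 := by exact_mod_cast (by omega : e ≠ 0)
    have hf0 : (f : ℝ) ≠ 0 := by exact_mod_cast (by omega : f ≠ 0)
    split_ifs
    · field_simp
    · rw [mul_zero, mul_zero]
  rw [hmain]
  -- step 3
  have hterm : ∀ s ∈ Icc 1 N, |ram s m *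
      ((∑ e ∈ (Icc 1 N).filter (fun e : ℕ => s ∣ e), gam R Q c e / e) *
        (∑ f ∈ (Icc 1 N).filter (fun f : ℕ => s ∣ f), gam R Q c' f / f))| ≤
      ∑ e ∈ m.natAbs.divisors, if R < s ∧ e ∣ s then 4 * ((e : ℝ) * (1 / (s : ℝ) ^ 2)) else 0 := by
    intro s hs
    rw [mem_Icc] at hs
    have hs0 : (0 : ℝ) < s := by exact_mod_cast (by omega : 0 < s)
    by_cases hsR : R < s
    · have k1 := h1.2 s m
      have k2 := g4 s hQ hs.1 hc
      have k3 := g4' s hQ hs.1 hc'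
      rw [abs_mul, abs_mul]
      have k4 : ∑ e ∈ s.divisors.filter (fun e : ℕ => (e : ℤ) ∣ m), (e : ℝ) =
          ∑ e ∈ m.natAbs.divisors, if e ∣ s then (e : ℝ) else 0 := by
        rw [← Finset.sum_filter]
        apply Finset.sum_congr _ (fun _ _ => rfl)
        ext e
        rw [mem_filter, mem_filter, Nat.mem_divisors, Nat.mem_divisors]
        constructor
        · rintro ⟨⟨j1, j2⟩, j3⟩
          exact ⟨⟨Int.natCast_dvd.1 j3, Int.natAbs_ne_zero.2 hm⟩, j1⟩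
        · rintro ⟨⟨j1, j2⟩, j3⟩
          exact ⟨⟨j3, by omega⟩, Int.natCast_dvd.2 j1⟩
      rw [k4] at k1
      have k5 : 0 ≤ ∑ e ∈ m.natAbs.divisors, (if e ∣ s then (e : ℝ) else 0) :=
        Finset.sum_nonneg fun e _ => by split_ifs <;> positivity
      have k6 := mul_le_mul k2 k3 (abs_nonneg _) (by positivity)
      have k7 := mul_le_mul k1 k6 (by positivity) k5
      refine k7.trans (le_of_eq ?_)
      rw [Finset.sum_mul]
      refine Finset.sum_congr rfl fun e _ => ?_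
      by_cases j : e ∣ s
      · rw [if_pos j, if_pos ⟨hsR, j⟩]
        field_simp
        ring
      · rw [if_neg j, if_neg (fun h => j h.2), zero_mul]
    · rw [g3 s hQ hs.1, if_neg hsR, zero_mul, mul_zero, abs_zero]
      exact Finset.sum_nonneg fun e _ => by split_ifs <;> positivity
  refine (Finset.abs_sum_le_sum_abs _ _).trans ((Finset.sum_le_sum hterm).trans ?_)
  rw [Finset.sum_comm]
  have hR0 : (0 : ℝ) < R := by exact_mod_cast hR
  have hlast : ∀ e ∈ m.natAbs.divisors, (∑ s ∈ Icc 1 N,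
      if R < s ∧ e ∣ s then 4 * ((e : ℝ) * (1 / (s : ℝ) ^ 2)) else 0) ≤ (8 : ℝ) / R := by
    intro e he
    have he1 : 1 ≤ e := Nat.pos_of_mem_divisors he
    have he0 : (0 : ℝ) < e := by exact_mod_cast he1
    rw [← Finset.sum_filter, ← Finset.mul_sum, ← Finset.mul_sum]
    have k1 := Mnt_tail N R e hR he1
    calc 4 * ((e : ℝ) * ∑ s ∈ (Icc 1 N).filter (fun s => R < s ∧ e ∣ s), 1 / (s : ℝ) ^ 2)
        ≤ 4 * ((e : ℝ) * (2 / ((e : ℝ) * R))) := by
          refine mul_le_mul_of_nonneg_left ?_ (by norm_num)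
          exact mul_le_mul_of_nonneg_left k1 he0.le
      _ = 8 / R := by
          field_simp
          norm_num
  refine (Finset.sum_le_card_nsmul _ _ _ hlast).trans (le_of_eq ?_)
  rw [nsmul_eq_mul]
  unfold tau
  ring

end Pool.Agent.Lib.KF
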