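import Pool.Agent.Lib.KF.SpecK

/-! MP_00e23e_nt, Lib/KF, module Mom: fourth moment of Kloosterman sums -/

namespace Pool.Agent.Lib.KF

open Finset Pool.Agent.Lib.EH3

private abbrev Mom_R (q : ℕ) : Type := ((ZMod q)ˣ × (ZMod q)ˣ) × ((ZMod q)ˣ × (ZMod q)ˣ)

private def Mom_A (q : ℕ) (r : Mom_R q) : ZMod q :=
  (((r.1.1)⁻¹ : (ZMod q)ˣ) : ZMod q) - (((r.1.2)⁻¹ : (ZMod q)ˣ) : ZMod q) +
    ((((r.2.1)⁻¹ : (ZMod q)ˣ) : ZMod q) - (((r.2.2)⁻¹ : (ZMod q)ˣ) : ZMod q))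

private def Mom_B (q : ℕ) (r : Mom_R q) : ZMod q :=
  ((r.1.1 : (ZMod q)ˣ) : ZMod q) - ((r.1.2 : (ZMod q)ˣ) : ZMod q) +
    (((r.2.1 : (ZMod q)ˣ) : ZMod q) - ((r.2.2 : (ZMod q)ˣ) : ZMod q))

private theorem Mom_exp (h1 : EmStmt) (q : ℕ) [NeZero q] (u v : ZMod q) :
    ((‖kl q u v‖ ^ 4 : ℝ) : ℂ) = ∑ r : Mom_R q, em q (u * Mom_A q r) * em q (v * Mom_B q r) := by
  obtain ⟨e1, e2, e3, e4, -, e6, e7, -, -⟩ := h1
  have hq : 1 ≤ q := NeZero.one_le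
  have k1 : kl q u v * (starRingEnd ℂ) (kl q u v) =
      ∑ p : (ZMod q)ˣ × (ZMod q)ˣ, em q (u * (((p.1)⁻¹ : (ZMod q)ˣ) : ZMod q) + v * (p.1 : ZMod q)) *
        (starRingEnd ℂ) (em q (u * (((p.2)⁻¹ : (ZMod q)ˣ) : ZMod q) + v * (p.2 : ZMod q))) := by
    rw [Fintype.sum_prod_type]
    unfold kl
    rw [map_sum, Finset.sum_mul_sum]
  have k2 : ((‖kl q u v‖ ^ 4 : ℝ) : ℂ) = (kl q u v * (starRingEnd ℂ) (kl q u v)) *
      (kl q u v * (starRingEnd ℂ) (kl q u v)) := by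
    rw [Complex.mul_conj']
    push_cast
    ring
  rw [k2, k1, Finset.sum_mul_sum, ← Fintype.sum_prod_type']
  refine Finset.sum_congr rfl fun r _ => ?_
  rw [← e4 q _ hq, ← e4 q _ hq, ← e1 q _ _ hq, ← e1 q _ _ hq, ← e1 q _ _ hq, ← e1 q _ _ hq]
  congr 1
  unfold Mom_A Mom_B
  ring

private theorem Mom_sum (h1 : EmStmt) (q : ℕ) [NeZero q] :
    ∑ u : ZMod q, ∑ v : ZMod q, ‖kl q u v‖ ^ 4 =
      (q : ℝ) ^ 2 * ((univ.filter (fun r : Mom_R q => Mom_A q r = 0 ∧ Mom_B q r = 0)).card : ℝ) := by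
  have key : ((∑ u : ZMod q, ∑ v : ZMod q, ‖kl q u v‖ ^ 4 : ℝ) : ℂ) =
      (q : ℂ) ^ 2 * ((univ.filter (fun r : Mom_R q => Mom_A q r = 0 ∧ Mom_B q r = 0)).card : ℂ) := by
    calc ((∑ u : ZMod q, ∑ v : ZMod q, ‖kl q u v‖ ^ 4 : ℝ) : ℂ)
        = ∑ u : ZMod q, ∑ v : ZMod q, ∑ r : Mom_R q,
            em q (u * Mom_A q r) * em q (v * Mom_B q r) := by
          rw [Complex.ofReal_sum]
          refine Finset.sum_congr rfl fun u _ => ?_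
          rw [Complex.ofReal_sum]
          exact Finset.sum_congr rfl fun v _ => Mom_exp h1 q u v
      _ = ∑ r : Mom_R q, (∑ u : ZMod q, em q (u * Mom_A q r)) *
            (∑ v : ZMod q, em q (v * Mom_B q r)) := by
          have h3 : ∀ u : ZMod q, ∑ v : ZMod q, ∑ r : Mom_R q,
              em q (u * Mom_A q r) * em q (v * Mom_B q r) = ∑ r : Mom_R q, ∑ v : ZMod q,
              em q (u * Mom_A q r) * em q (v * Mom_B q r) := fun u => Finset.sum_comm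
          rw [Finset.sum_congr rfl fun u _ => h3 u, Finset.sum_comm]
          refine Finset.sum_congr rfl fun r _ => ?_
          rw [Finset.sum_mul_sum]
      _ = ∑ r : Mom_R q, (if Mom_A q r = 0 ∧ Mom_B q r = 0 then (q : ℂ) ^ 2 else 0) := by
          refine Finset.sum_congr rfl fun r _ => ?_
          rw [h1.2.2.2.2.2.1 q (Mom_A q r), h1.2.2.2.2.2.1 q (Mom_B q r)]
          by_cases ha : Mom_A q r = 0
          · by_cases hb : Mom_B q r = 0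
            · rw [if_pos ha, if_pos hb, if_pos ⟨ha, hb⟩, sq]
            · have hn : ¬ (Mom_A q r = 0 ∧ Mom_B q r = 0) := fun h => hb h.2
              rw [if_neg hn, if_neg hb, mul_zero]
          · have hn : ¬ (Mom_A q r = 0 ∧ Mom_B q r = 0) := fun h => ha h.1
            rw [if_neg hn, if_neg ha, zero_mul]
      _ = (q : ℂ) ^ 2 *
            ((univ.filter (fun r : Mom_R q => Mom_A q r = 0 ∧ Mom_B q r = 0)).card : ℂ) := by
          rw [← Finset.sum_filter, Finset.sum_const, nsmul_eq_mul, mul_comm]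
  exact_mod_cast key

private theorem Mom_alg {q : ℕ} (x1 x2 x3 x4 : (ZMod q)ˣ)
    (hA : ((x1⁻¹ : (ZMod q)ˣ) : ZMod q) - ((x3⁻¹ : (ZMod q)ˣ) : ZMod q) +
      (((x2⁻¹ : (ZMod q)ˣ) : ZMod q) - ((x4⁻¹ : (ZMod q)ˣ) : ZMod q)) = 0)
    (hB : (x1 : ZMod q) - x3 + ((x2 : ZMod q) - x4) = 0) :
    ((x3 : ZMod q) + (x4 : ZMod q)) * ((x1 : ZMod q) - (x3 : ZMod q)) *
      ((x1 : ZMod q) - (x4 : ZMod q)) = 0 := by
  have i1 : (x1 : ZMod q) * ((x1⁻¹ : (ZMod q)ˣ) : ZMod q) = 1 := Units.mul_inv x1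
  have i2 : (x2 : ZMod q) * ((x2⁻¹ : (ZMod q)ˣ) : ZMod q) = 1 := Units.mul_inv x2
  have i3 : (x3 : ZMod q) * ((x3⁻¹ : (ZMod q)ˣ) : ZMod q) = 1 := Units.mul_inv x3
  have i4 : (x4 : ZMod q) * ((x4⁻¹ : (ZMod q)ˣ) : ZMod q) = 1 := Units.mul_inv x4
  generalize ((x1⁻¹ : (ZMod q)ˣ) : ZMod q) = y1 at *
  generalize ((x2⁻¹ : (ZMod q)ˣ) : ZMod q) = y2 at *
  generalize ((x3⁻¹ : (ZMod q)ˣ) : ZMod q) = y3 at *
  generalize ((x4⁻¹ : (ZMod q)ˣ) : ZMod q) = y4 at *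
  generalize (x1 : ZMod q) = a1 at *
  generalize (x2 : ZMod q) = a2 at *
  generalize (x3 : ZMod q) = a3 at *
  generalize (x4 : ZMod q) = a4 at *
  have e2 : a2 = a3 + a4 - a1 := by linear_combination hB
  have h3 : a2 * a3 * a4 + a1 * a3 * a4 - a1 * a2 * a4 - a1 * a2 * a3 = 0 := by
    linear_combination (a1 * a2 * a3 * a4) * hA - (a2 * a3 * a4) * i1 - (a1 * a3 * a4) * i2 +
      (a1 * a2 * a4) * i3 + (a1 * a2 * a3) * i4
  rw [e2] at h3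
  linear_combination h3

theorem tMom (h1 : EmStmt) (h2 : QuadStmt) : MomStmt := by
  classical
  intro q _
  rw [Mom_sum h1 q]
  have hinj : (univ.filter (fun r : Mom_R q => Mom_A q r = 0 ∧ Mom_B q r = 0)).card ≤
      ((univ : Finset ((ZMod q)ˣ × (ZMod q)ˣ × (ZMod q)ˣ)).filter (fun t =>
      ((t.2.1 : ZMod q) + (t.2.2 : ZMod q)) * ((t.1 : ZMod q) - (t.2.1 : ZMod q)) *
        ((t.1 : ZMod q) - (t.2.2 : ZMod q)) = 0)).card := by
    refine Finset.card_le_card_of_injOn (fun r : Mom_R q => (r.1.1, r.1.2, r.2.2)) ?_ ?_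
    · rintro ⟨⟨x1, x3⟩, x2, x4⟩ hr
      have hr' := (Finset.mem_filter.1 (Finset.mem_coe.1 hr)).2
      refine Finset.mem_coe.2 (Finset.mem_filter.2 ⟨Finset.mem_univ _, ?_⟩)
      exact Mom_alg x1 x2 x3 x4 hr'.1 hr'.2
    · rintro ⟨⟨x1, x3⟩, x2, x4⟩ hr ⟨⟨y1, y3⟩, y2, y4⟩ hs h
      have hr' := (Finset.mem_filter.1 (Finset.mem_coe.1 hr)).2.2
      have hs' := (Finset.mem_filter.1 (Finset.mem_coe.1 hs)).2.2
      simp only [Prod.mk.injEq] at h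
      obtain ⟨rfl, rfl, rfl⟩ := h
      have h3 : x2 = y2 := by
        apply Units.ext
        unfold Mom_B at hr' hs'
        simp only at hr' hs'
        linear_combination hr' - hs'
      rw [h3]
  have h3 := h2 q
  have h4 : ((univ.filter (fun r : Mom_R q => Mom_A q r = 0 ∧ Mom_B q r = 0)).card : ℝ) ≤
      2 * (tau q) ^ 2 * q * (q.totient : ℝ) := (Nat.cast_le.2 hinj).trans h3
  have h5 : (0 : ℝ) ≤ (q : ℝ) ^ 2 := by positivity
  calc (q : ℝ) ^ 2 * ((univ.filter (fun r : Mom_R q => Mom_A q r = 0 ∧ Mom_B q r = 0)).card : ℝ)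
      ≤ (q : ℝ) ^ 2 * (2 * (tau q) ^ 2 * q * (q.totient : ℝ)) := mul_le_mul_of_nonneg_left h4 h5
    _ = 2 * (tau q) ^ 2 * (q : ℝ) ^ 3 * (q.totient : ℝ) := by ring

end Pool.Agent.Lib.KF
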