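import Pool.Agent.Lib.KF.SpecL

/-!
Part L, module Ofa: reduction to the sum of errp over dy Q.
-/

namespace Pool.Agent.Lib.KF

open Finset Pool.Agent.Lib.EH3

theorem Ofa_sum (N R : ℕ) (F : ℕ → ℕ → ℝ) (B : ℝ) (hB : 0 ≤ B)
    (hF : ∀ e ∈ Icc 1 N, ∀ f ∈ Icc 1 N,
      |F e f| ≤ (if e ≤ R then B else 0) + (if f ≤ R then B else 0)) :
    |∑ e ∈ Icc 1 N, ∑ f ∈ Icc 1 N, F e f| ≤ 2 * R * N * B := by
  have hcard : (((Icc 1 N).filter (fun e => e ≤ R)).card : ℝ) ≤ R := by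
    have h1 : ((Icc 1 N).filter (fun e => e ≤ R)).card ≤ (Icc 1 R).card := by
      refine Finset.card_le_card ?_
      intro e he
      simp only [Finset.mem_filter, Finset.mem_Icc] at he ⊢
      exact ⟨he.1.1, he.2⟩
    rw [Nat.card_Icc] at h1
    have h2 : ((Icc 1 N).filter (fun e => e ≤ R)).card ≤ R := by omega
    exact_mod_cast h2
  have hone : ∑ e ∈ Icc 1 N, (if e ≤ R then B else 0) ≤ R * B := by
    rw [← Finset.sum_filter, Finset.sum_const, nsmul_eq_mul]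
    exact mul_le_mul_of_nonneg_right hcard hB
  have hN : ((Icc 1 N).card : ℝ) = N := by rw [Nat.card_Icc]; simp
  calc |∑ e ∈ Icc 1 N, ∑ f ∈ Icc 1 N, F e f| ≤ ∑ e ∈ Icc 1 N, |∑ f ∈ Icc 1 N, F e f| :=
        Finset.abs_sum_le_sum_abs _ _
    _ ≤ ∑ e ∈ Icc 1 N, ∑ f ∈ Icc 1 N, |F e f| :=
        Finset.sum_le_sum fun e _ => Finset.abs_sum_le_sum_abs _ _
    _ ≤ ∑ e ∈ Icc 1 N, ∑ f ∈ Icc 1 N, ((if e ≤ R then B else 0) + (if f ≤ R then B else 0)) :=
        Finset.sum_le_sum fun e he => Finset.sum_le_sum fun f hf => hF e he f hf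
    _ = ∑ e ∈ Icc 1 N, ((N : ℝ) * (if e ≤ R then B else 0) + ∑ f ∈ Icc 1 N, (if f ≤ R then B else 0)) := by
        refine Finset.sum_congr rfl ?_
        intro e _
        rw [Finset.sum_add_distrib, Finset.sum_const, nsmul_eq_mul, hN]
    _ = N * ∑ e ∈ Icc 1 N, (if e ≤ R then B else 0) + N * ∑ f ∈ Icc 1 N, (if f ≤ R then B else 0) := by
        rw [Finset.sum_add_distrib, Finset.sum_const, nsmul_eq_mul, hN, Finset.mul_sum]
    _ ≤ N * (R * B) + N * (R * B) := by gcongr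
    _ = 2 * R * N * B := by ring

theorem Ofa_subset (N : ℕ) (S : Finset ℕ) (hS : S ⊆ Icc 1 N) (c c' : ℕ → ℝ) (E : ℕ → ℕ → ℝ) :
    ∑ e ∈ Icc 1 N, ∑ f ∈ Icc 1 N,
      (if e ∈ S then c e else 0) * (if f ∈ S then c' f else 0) * E e f =
    ∑ d ∈ S, ∑ f ∈ S, c d * c' f * E d f := by
  have h1 : ∑ e ∈ Icc 1 N, ∑ f ∈ Icc 1 N,
      (if e ∈ S then c e else 0) * (if f ∈ S then c' f else 0) * E e f =
      ∑ e ∈ S, ∑ f ∈ Icc 1 N,
      (if e ∈ S then c e else 0) * (if f ∈ S then c' f else 0) * E e f := by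
    symm
    refine Finset.sum_subset hS ?_
    intro e _ he
    refine Finset.sum_eq_zero ?_
    intro f _
    rw [if_neg he]
    ring
  rw [h1]
  refine Finset.sum_congr rfl ?_
  intro e he
  have h2 : ∑ f ∈ Icc 1 N, (if e ∈ S then c e else 0) * (if f ∈ S then c' f else 0) * E e f =
      ∑ f ∈ S, (if e ∈ S then c e else 0) * (if f ∈ S then c' f else 0) * E e f := by
    symm
    refine Finset.sum_subset hS ?_
    intro f _ hf
    rw [if_neg hf]
    ring
  rw [h2]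
  refine Finset.sum_congr rfl ?_
  intro f hf
  rw [if_pos he, if_pos hf]

/-- Interchange of the sums. -/
theorem Ofa_swap (Z : Finset ℤ) (N : ℕ) (v : ℤ → ℝ) (g g' : ℕ → ℝ) (a b : ℤ) :
    ∑ n ∈ Z, v n * (∑ e ∈ (Icc 1 N).filter (fun e : ℕ => (e : ℤ) ∣ n - a), g e) *
      (∑ f ∈ (Icc 1 N).filter (fun f : ℕ => (f : ℤ) ∣ n - b), g' f) =
    ∑ e ∈ Icc 1 N, ∑ f ∈ Icc 1 N, g e * g' f *
      ∑ n ∈ Z, (if (e : ℤ) ∣ n - a ∧ (f : ℤ) ∣ n - b then v n else 0) := by
  have h1 : ∀ n ∈ Z, v n * (∑ e ∈ (Icc 1 N).filter (fun e : ℕ => (e : ℤ) ∣ n - a), g e) *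
      (∑ f ∈ (Icc 1 N).filter (fun f : ℕ => (f : ℤ) ∣ n - b), g' f) =
      ∑ e ∈ Icc 1 N, ∑ f ∈ Icc 1 N, g e * g' f *
        (if (e : ℤ) ∣ n - a ∧ (f : ℤ) ∣ n - b then v n else 0) := by
    intro n _
    rw [Finset.sum_filter, Finset.sum_filter, mul_assoc, Finset.sum_mul_sum, Finset.mul_sum]
    refine Finset.sum_congr rfl ?_
    intro e _
    rw [Finset.mul_sum]
    refine Finset.sum_congr rfl ?_
    intro f _
    by_cases he : (e : ℤ) ∣ n - a
    · by_cases hf : (f : ℤ) ∣ n - b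
      · rw [if_pos he, if_pos hf, if_pos ⟨he, hf⟩]; ring
      · have hn : ¬ ((e : ℤ) ∣ n - a ∧ (f : ℤ) ∣ n - b) := fun h => hf h.2
        rw [if_neg hf, if_neg hn]; ring
    · have hn : ¬ ((e : ℤ) ∣ n - a ∧ (f : ℤ) ∣ n - b) := fun h => he h.1
      rw [if_neg he, if_neg hn]; ring
  rw [Finset.sum_congr rfl h1, Finset.sum_comm]
  refine Finset.sum_congr rfl ?_
  intro e _
  rw [Finset.sum_comm]
  refine Finset.sum_congr rfl ?_
  intro f _
  rw [Finset.mul_sum]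

theorem tOfa (h1 : GamStmt) (h2 : GabStmt) (h3 : MntStmt) (h4 : ErpStmt) : OfaStmt := by
  obtain ⟨hgam1, hgam2, -, -⟩ := h1
  obtain ⟨hgab1, -, -⟩ := h2
  intro X R Q c c' a b hX hR hQ hRQ hc hc' hab
  set N : ℕ := ⌊2 * Q⌋₊ with hN
  have hN2 : (N : ℝ) ≤ 2 * Q := Nat.floor_le (by linarith)
  have hL0 : 0 ≤ Real.log (2 * Q) := Real.log_nonneg (by linarith)
  set L : ℝ := 1 + Real.log (2 * Q) with hL
  have hL1 : 0 ≤ L := by linarith
  have hR0 : (0 : ℝ) < R := by exact_mod_cast hR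
  have hmn : a - b ≠ 0 := sub_ne_zero.2 hab
  have hS : dy Q ⊆ Icc 1 N := by
    intro n hn
    unfold dy at hn
    rw [Finset.mem_Ioc] at hn
    rw [Finset.mem_Icc]
    exact ⟨by omega, hn.2⟩
  have hRS : ∀ n ∈ dy Q, R < n := by
    intro n hn
    have h5 := (mem_dy (by linarith)).1 hn
    have h6 : (R : ℝ) < n := lt_of_le_of_lt hRQ h5.1
    exact_mod_cast h6
  -- the main identity
  have hid : ∑ n ∈ zs X, vX X n * gg R Q c (n - a) * gg R Q c' (n - b) =
      ∑ e ∈ Icc 1 N, ∑ f ∈ Icc 1 N, gam R Q c e * gam R Q c' f * errp X e f a b +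
      2 * (X : ℝ) * ∑ e ∈ Icc 1 N, ∑ f ∈ Icc 1 N, gam R Q c e * gam R Q c' f *
        (if ((Nat.gcd e f : ℕ) : ℤ) ∣ a - b then (Nat.gcd e f : ℝ) / ((e : ℝ) * f) else 0) := by
    have e1 : ∑ n ∈ zs X, vX X n * gg R Q c (n - a) * gg R Q c' (n - b) =
        ∑ n ∈ zs X, vX X n *
          (∑ e ∈ (Icc 1 N).filter (fun e : ℕ => (e : ℤ) ∣ n - a), gam R Q c e) *
          (∑ f ∈ (Icc 1 N).filter (fun f : ℕ => (f : ℤ) ∣ n - b), gam R Q c' f) := by
      refine Finset.sum_congr rfl ?_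
      intro n _
      rw [hgam1 R Q c (n - a) hQ, hgam1 R Q c' (n - b) hQ]
    rw [e1, Ofa_swap, Finset.mul_sum, ← Finset.sum_add_distrib]
    refine Finset.sum_congr rfl ?_
    intro e _
    rw [Finset.mul_sum, ← Finset.sum_add_distrib]
    refine Finset.sum_congr rfl ?_
    intro f _
    unfold errp
    split_ifs <;> ring
  -- the main term
  have hmain := h3 R Q c c' (a - b) hR hQ hc hc' hmn
  rw [← hN] at hmain
  -- the error term
  have herr : |∑ e ∈ Icc 1 N, ∑ f ∈ Icc 1 N, gam R Q c e * gam R Q c' f * errp X e f a b| ≤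
      16 * (R : ℝ) * Q * L ^ 2 +
      |∑ d ∈ dy Q, ∑ f ∈ dy Q, c d * c' f * errp X d f a b| := by
    have e2 := Ofa_sum N R (fun e f => gam R Q c e * gam R Q c' f * errp X e f a b -
      (if e ∈ dy Q then c e else 0) * (if f ∈ dy Q then c' f else 0) * errp X e f a b)
      (4 * L ^ 2) (by positivity) (by
        intro e he f hf
        rw [Finset.mem_Icc] at he hf
        have b1 := hgab1 R Q c e hQ hRQ hc he.1
        have b2 := hgab1 R Q c' f hQ hRQ hc' hf.1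
        have b3 := (h4 X e f a b hX he.1 hf.1).1
        rw [← hL] at b1 b2
        have b4 : |gam R Q c e * gam R Q c' f * errp X e f a b| ≤ 4 * L ^ 2 := by
          rw [abs_mul, abs_mul]
          calc |gam R Q c e| * |gam R Q c' f| * |errp X e f a b| ≤ (2 * L) * (2 * L) * 1 := by
                gcongr
            _ = 4 * L ^ 2 := by ring
        have b5 : 0 ≤ 4 * L ^ 2 := by positivity
        by_cases hle : e ≤ R
        · have h7 : e ∉ dy Q := fun h => by have := hRS e h; omega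
          have b6 : (0 : ℝ) ≤ (if f ≤ R then 4 * L ^ 2 else 0) := by
            split_ifs <;> [exact b5; exact le_rfl]
          simp only [h7, if_false, zero_mul, sub_zero, hle, if_true]
          linarith
        · by_cases hlf : f ≤ R
          · have h7 : f ∉ dy Q := fun h => by have := hRS f h; omega
            simp only [h7, hle, hlf, if_false, if_true, mul_zero, zero_mul, sub_zero, zero_add]
            exact b4
          · rw [hgam2 R Q c e (by omega), hgam2 R Q c' f (by omega), sub_self, abs_zero,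
              if_neg hle, if_neg hlf]
            norm_num)
    have e3 := Ofa_subset N (dy Q) hS c c' (fun e f => errp X e f a b)
    simp only [Finset.sum_sub_distrib] at e2
    rw [e3] at e2
    have e4 : 2 * (R : ℝ) * N * (4 * L ^ 2) ≤ 16 * (R : ℝ) * Q * L ^ 2 := by
      calc 2 * (R : ℝ) * N * (4 * L ^ 2) ≤ 2 * (R : ℝ) * (2 * Q) * (4 * L ^ 2) := by gcongr
        _ = 16 * (R : ℝ) * Q * L ^ 2 := by ring
    have e5 := abs_sub_abs_le_abs_sub
      (∑ e ∈ Icc 1 N, ∑ f ∈ Icc 1 N, gam R Q c e * gam R Q c' f * errp X e f a b)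
      (∑ d ∈ dy Q, ∑ f ∈ dy Q, c d * c' f * errp X d f a b)
    linarith
  rw [hid]
  refine (abs_add_le _ _).trans ?_
  have e6 : |2 * (X : ℝ) * ∑ e ∈ Icc 1 N, ∑ f ∈ Icc 1 N, gam R Q c e * gam R Q c' f *
        (if ((Nat.gcd e f : ℕ) : ℤ) ∣ a - b then (Nat.gcd e f : ℝ) / ((e : ℝ) * f) else 0)| ≤
      16 * (X : ℝ) * tau (a - b).natAbs / R := by
    rw [abs_mul, abs_of_nonneg (by positivity : (0 : ℝ) ≤ 2 * (X : ℝ))]
    calc 2 * (X : ℝ) * |∑ e ∈ Icc 1 N, ∑ f ∈ Icc 1 N, gam R Q c e * gam R Q c' f *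
          (if ((Nat.gcd e f : ℕ) : ℤ) ∣ a - b then (Nat.gcd e f : ℝ) / ((e : ℝ) * f) else 0)|
        ≤ 2 * (X : ℝ) * (8 * tau (a - b).natAbs / R) :=
          mul_le_mul_of_nonneg_left hmain (by positivity)
      _ = 16 * (X : ℝ) * tau (a - b).natAbs / R := by ring
  linarith

end Pool.Agent.Lib.KF
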