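import Pool.Agent.Lib.KF.SpecL

/-!
MP_00e23e_nt, Lib/KF, module Ofh (helper16): pairs with a large common divisor.
-/

namespace Pool.Agent.Lib.KF

open Finset Pool.Agent.Lib.EH3

theorem tOfh : OfhStmt := by
  intro Q H m hQ hH hm
  have hQ0 : (0 : ℝ) ≤ Q := by linarith
  have hH0 : (0 : ℝ) < H := by exact_mod_cast hH
  set D : Finset ℕ := m.natAbs.divisors.filter (fun h => H < h) with hD
  have hterm : ∀ d f : ℕ, (if H < Nat.gcd d f ∧ ((Nat.gcd d f : ℕ) : ℤ) ∣ m then (1 : ℝ) else 0) ≤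
      ∑ h ∈ D, (if h ∣ d then (1 : ℝ) else 0) * (if h ∣ f then (1 : ℝ) else 0) := by
    intro d f
    have hnn : ∀ h ∈ D, (0 : ℝ) ≤ (if h ∣ d then (1 : ℝ) else 0) * (if h ∣ f then (1 : ℝ) else 0) := by
      intro h _
      split_ifs <;> norm_num
    by_cases hc : H < Nat.gcd d f ∧ ((Nat.gcd d f : ℕ) : ℤ) ∣ m
    · rw [if_pos hc]
      have hmem : Nat.gcd d f ∈ D := by
        rw [hD, Finset.mem_filter, Nat.mem_divisors]
        exact ⟨⟨Int.natCast_dvd.mp hc.2, Int.natAbs_ne_zero.mpr hm⟩, hc.1⟩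
      have h1 := Finset.single_le_sum hnn hmem
      rw [if_pos (Nat.gcd_dvd_left d f), if_pos (Nat.gcd_dvd_right d f), one_mul] at h1
      exact h1
    · rw [if_neg hc]
      exact Finset.sum_nonneg hnn
  calc (∑ d ∈ dy Q, ∑ f ∈ dy Q, if H < Nat.gcd d f ∧ ((Nat.gcd d f : ℕ) : ℤ) ∣ m then (1 : ℝ) else 0)
      ≤ ∑ d ∈ dy Q, ∑ f ∈ dy Q, ∑ h ∈ D,
          (if h ∣ d then (1 : ℝ) else 0) * (if h ∣ f then (1 : ℝ) else 0) :=
        Finset.sum_le_sum fun d _ => Finset.sum_le_sum fun f _ => hterm d f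
    _ = ∑ h ∈ D, (((dy Q).filter (fun n => h ∣ n)).card : ℝ) ^ 2 := by
        have h1 : ∀ d ∈ dy Q, (∑ f ∈ dy Q, ∑ h ∈ D,
            (if h ∣ d then (1 : ℝ) else 0) * (if h ∣ f then (1 : ℝ) else 0)) =
            ∑ h ∈ D, (if h ∣ d then (1 : ℝ) else 0) * (((dy Q).filter (fun n => h ∣ n)).card : ℝ) := by
          intro d _
          rw [Finset.sum_comm]
          refine Finset.sum_congr rfl fun h _ => ?_
          rw [← Finset.mul_sum, Finset.card_filter]
          push_cast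
          rfl
        rw [Finset.sum_congr rfl h1, Finset.sum_comm]
        refine Finset.sum_congr rfl fun h _ => ?_
        rw [← Finset.sum_mul, sq]
        congr 1
        rw [Finset.card_filter]
        push_cast
        rfl
    _ ≤ ∑ _h ∈ D, 4 * Q ^ 2 / (H : ℝ) ^ 2 := by
        refine Finset.sum_le_sum fun h hh => ?_
        rw [hD, Finset.mem_filter] at hh
        have hHh : (H : ℝ) ≤ h := by exact_mod_cast hh.2.le
        have h1 : (((dy Q).filter (fun n => h ∣ n)).card : ℝ) ≤ 2 * Q / h :=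
          card_dy_dvd_le hQ0 (by omega)
        have h2 : (((dy Q).filter (fun n => h ∣ n)).card : ℝ) ≤ 2 * Q / H :=
          h1.trans (div_le_div_of_nonneg_left (by linarith) hH0 hHh)
        calc (((dy Q).filter (fun n => h ∣ n)).card : ℝ) ^ 2 ≤ (2 * Q / H) ^ 2 :=
              pow_le_pow_left₀ (Nat.cast_nonneg _) h2 2
          _ = 4 * Q ^ 2 / (H : ℝ) ^ 2 := by
              rw [div_pow]
              ring
    _ = (D.card : ℝ) * (4 * Q ^ 2 / (H : ℝ) ^ 2) := by rw [Finset.sum_const, nsmul_eq_mul]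
    _ ≤ tau m.natAbs * (4 * Q ^ 2 / (H : ℝ) ^ 2) := by
        refine mul_le_mul_of_nonneg_right ?_ (by positivity)
        unfold tau
        exact_mod_cast Finset.card_le_card (Finset.filter_subset _ _)
    _ = 4 * Q ^ 2 * tau m.natAbs / (H : ℝ) ^ 2 := by ring

end Pool.Agent.Lib.KF
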