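import Pool.Agent.Lib.KF.SpecL

namespace Pool.Agent.Lib.KF

open Finset Pool.Agent.Lib.EH3

private lemma Ofj_mem {Q : ℝ} {h d1 : ℕ} (hQ : 0 ≤ Q) (hh : 1 ≤ h) :
    h * d1 ∈ dy Q ↔ d1 ∈ dy (Q / h) := by
  have hpos : (0 : ℝ) < h := by exact_mod_cast hh
  rw [mem_dy hQ, mem_dy (by positivity)]
  push_cast
  rw [div_lt_iff₀ hpos, show 2 * (Q / h) = 2 * Q / h by ring, le_div_iff₀ hpos]
  constructor <;> rintro ⟨h1, h2⟩ <;> constructor <;> linarith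

private lemma Ofj_re {Q : ℝ} {h : ℕ} (hQ : 0 ≤ Q) (hh : 1 ≤ h) (G : ℕ → ℝ)
    (hG : ∀ d, ¬ h ∣ d → G d = 0) :
    ∑ d ∈ dy Q, G d = ∑ d1 ∈ dy (Q / h), G (h * d1) := by
  have hinj : Function.Injective (fun d1 : ℕ => h * d1) :=
    fun x y hxy => Nat.eq_of_mul_eq_mul_left (by omega) hxy
  rw [← Finset.sum_image (f := G) (g := fun d1 => h * d1) (fun x _ y _ hxy => hinj hxy)]
  symm
  refine Finset.sum_subset ?_ ?_
  · intro d hd
    obtain ⟨d1, hd1, rfl⟩ := Finset.mem_image.1 hd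
    exact (Ofj_mem hQ hh).2 hd1
  · intro d hd hnd
    by_cases hdv : h ∣ d
    · obtain ⟨d1, rfl⟩ := hdv
      exact absurd (Finset.mem_image.2 ⟨d1, (Ofj_mem hQ hh).1 hd, rfl⟩) hnd
    · exact hG d hdv

private lemma Ofj_pairs {Q : ℝ} {h : ℕ} (hQ : 0 ≤ Q) (hh : 1 ≤ h) (g : ℕ → ℕ → ℝ) :
    ∑ d ∈ dy Q, ∑ f ∈ (dy Q).filter (fun f => Nat.gcd d f = h), g d f =
      ∑ d1 ∈ dy (Q / h), ∑ d2 ∈ (dy (Q / h)).filter (fun d2 => d1.Coprime d2),
        g (h * d1) (h * d2) := by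
  rw [Ofj_re hQ hh (fun d => ∑ f ∈ (dy Q).filter (fun f => Nat.gcd d f = h), g d f)]
  · refine Finset.sum_congr rfl fun d1 _ => ?_
    rw [Finset.sum_filter, Finset.sum_filter,
      Ofj_re hQ hh (fun f => if Nat.gcd (h * d1) f = h then g (h * d1) f else 0)]
    · refine Finset.sum_congr rfl fun d2 _ => ?_
      have h5 : (Nat.gcd (h * d1) (h * d2) = h) ↔ d1.Coprime d2 := by
        rw [Nat.gcd_mul_left]
        unfold Nat.Coprime
        constructor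
        · intro h1
          exact Nat.eq_of_mul_eq_mul_left (by omega : 0 < h) (by rw [h1, mul_one])
        · intro h1
          rw [h1, mul_one]
      by_cases h6 : d1.Coprime d2
      · rw [if_pos (h5.2 h6), if_pos h6]
      · rw [if_neg (fun h7 => h6 (h5.1 h7)), if_neg h6]
    · intro d hd
      rw [if_neg]
      intro h1
      apply hd
      rw [← h1]
      exact Nat.gcd_dvd_right _ _
  · intro d hd
    refine Finset.sum_eq_zero fun f hf => ?_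
    exfalso
    apply hd
    rw [← (Finset.mem_filter.1 hf).2]
    exact Nat.gcd_dvd_left _ _

private lemma Ofj_err {q Q : ℝ} {X h J : ℕ} (hh : 1 ≤ h) (hq : 1 ≤ q) (hQ : Q = h * q)
    (hX : 1 ≤ X) (hJ : 1 ≤ J) :
    ∑ d1 ∈ dy q, ∑ d2 ∈ (dy q).filter (fun d2 => d1.Coprime d2),
      (1 / (d2 : ℝ) + (h : ℝ) * d1 * d2 / (2 * X * J)) ≤ 4 * Q + 8 * Q ^ 4 / (X * J) := by
  have hX' : (1 : ℝ) ≤ X := by exact_mod_cast hX
  have hJ' : (1 : ℝ) ≤ J := by exact_mod_cast hJ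
  have hh' : (1 : ℝ) ≤ h := by exact_mod_cast hh
  have hXJ : (0 : ℝ) < X * J := by positivity
  have hcard := card_dy_le hq
  obtain ⟨B, hB⟩ : ∃ B : ℝ, B = 1 / q + (h : ℝ) * (2 * q) ^ 2 / (2 * X * J) := ⟨_, rfl⟩
  have hB0 : 0 ≤ B := by rw [hB]; positivity
  have hterm : ∀ d1 ∈ dy q, ∀ d2 ∈ (dy q).filter (fun d2 => d1.Coprime d2),
      (1 / (d2 : ℝ) + (h : ℝ) * d1 * d2 / (2 * X * J)) ≤ B := by
    intro d1 hd1 d2 hd2
    rw [mem_dy (by linarith)] at hd1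
    rw [Finset.mem_filter, mem_dy (by linarith)] at hd2
    obtain ⟨⟨h1, h2⟩, -⟩ := hd2
    obtain ⟨h3, h4⟩ := hd1
    rw [hB]
    refine add_le_add ?_ ?_
    · exact one_div_le_one_div_of_le (by linarith) h1.le
    · refine div_le_div_of_nonneg_right ?_ (by positivity)
      have h5 : (d1 : ℝ) * d2 ≤ (2 * q) ^ 2 := by
        rw [sq]
        exact mul_le_mul h4 h2 (by linarith) (by linarith)
      calc (h : ℝ) * d1 * d2 = h * ((d1 : ℝ) * d2) := by ring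
        _ ≤ h * (2 * q) ^ 2 := mul_le_mul_of_nonneg_left h5 (by linarith)
  have hinner : ∀ d1 ∈ dy q, ∑ d2 ∈ (dy q).filter (fun d2 => d1.Coprime d2),
      (1 / (d2 : ℝ) + (h : ℝ) * d1 * d2 / (2 * X * J)) ≤ (2 * q) * B := by
    intro d1 hd1
    refine (Finset.sum_le_sum (hterm d1 hd1)).trans ?_
    rw [Finset.sum_const, nsmul_eq_mul]
    refine mul_le_mul_of_nonneg_right (le_trans ?_ hcard) hB0
    exact_mod_cast Finset.card_filter_le _ _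
  refine (Finset.sum_le_sum hinner).trans ?_
  rw [Finset.sum_const, nsmul_eq_mul]
  have h6 : ((dy q).card : ℝ) * ((2 * q) * B) ≤ (2 * q) * ((2 * q) * B) :=
    mul_le_mul_of_nonneg_right hcard (by positivity)
  refine h6.trans ?_
  have h7 : (2 * q) * ((2 * q) * B) = 4 * q + 8 * (h * q ^ 4) / (X * J) := by
    rw [hB]
    field_simp
    ring
  rw [h7, hQ]
  refine add_le_add ?_ ?_
  · nlinarith
  · refine div_le_div_of_nonneg_right ?_ hXJ.le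
    have h8 : (h : ℝ) ≤ h ^ 4 := le_self_pow₀ hh' (by norm_num)
    have h9 : (0 : ℝ) ≤ q ^ 4 := by positivity
    rw [mul_pow]
    nlinarith [mul_le_mul_of_nonneg_right h8 h9]

private lemma Ofj_pow {q Q ε m X h J : ℝ} (hε : 0 < ε) (hh : 1 ≤ h) (hq : 1 ≤ q) (hQ : Q = h * q)
    (hX : 1 ≤ X) (hJ : 1 ≤ J) (hm : 0 ≤ m) (hmX : h * m ≤ 2 * X) :
    q ^ ((63 : ℝ) / 64 + ε) * (1 + J * m / q ^ 2) ^ ((1 : ℝ) / 4) * (J * m) ^ ε ≤
      2 * 2 ^ ε * (Q ^ ((63 : ℝ) / 64 + ε) * (1 + J * X / Q ^ 2) ^ ((1 : ℝ) / 4) * (J * X) ^ ε) := by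
  have hQ1 : 1 ≤ Q := by rw [hQ]; nlinarith
  have h1 : 1 + J * m / q ^ 2 ≤ (2 * h) * (1 + J * X / Q ^ 2) := by
    have h2 : J * m / q ^ 2 ≤ (2 * h) * (J * X / Q ^ 2) := by
      rw [hQ, mul_pow, div_le_iff₀ (by positivity)]
      have h3 : 2 * h * (J * X / (h ^ 2 * q ^ 2)) * q ^ 2 = 2 * X * J / h := by
        field_simp
      rw [h3, le_div_iff₀ (by linarith)]
      nlinarith [mul_le_mul_of_nonneg_left hmX (by linarith : (0:ℝ) ≤ J)]
    nlinarith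
  have h4 : (1 + J * m / q ^ 2) ^ ((1 : ℝ) / 4) ≤
      2 * h ^ ((63 : ℝ) / 64 + ε) * (1 + J * X / Q ^ 2) ^ ((1 : ℝ) / 4) := by
    have h5 : (1 + J * m / q ^ 2) ^ ((1 : ℝ) / 4) ≤ ((2 * h) * (1 + J * X / Q ^ 2)) ^ ((1 : ℝ) / 4) :=
      Real.rpow_le_rpow (by positivity) h1 (by norm_num)
    refine h5.trans ?_
    rw [Real.mul_rpow (by positivity) (by positivity), Real.mul_rpow (by norm_num) (by linarith)]
    refine mul_le_mul_of_nonneg_right ?_ (by positivity)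
    refine mul_le_mul ?_ ?_ (by positivity) (by norm_num)
    · calc (2 : ℝ) ^ ((1 : ℝ) / 4) ≤ 2 ^ (1 : ℝ) :=
            Real.rpow_le_rpow_of_exponent_le (by norm_num) (by norm_num)
        _ = 2 := Real.rpow_one 2
    · exact Real.rpow_le_rpow_of_exponent_le hh (by linarith)
  have h6 : (J * m) ^ ε ≤ 2 ^ ε * (J * X) ^ ε := by
    rw [← Real.mul_rpow (by norm_num) (by positivity)]
    refine Real.rpow_le_rpow (by positivity) ?_ hε.le
    have h7 : m ≤ 2 * X := by nlinarith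
    nlinarith
  calc q ^ ((63 : ℝ) / 64 + ε) * (1 + J * m / q ^ 2) ^ ((1 : ℝ) / 4) * (J * m) ^ ε
      ≤ q ^ ((63 : ℝ) / 64 + ε) * (2 * h ^ ((63 : ℝ) / 64 + ε) *
          (1 + J * X / Q ^ 2) ^ ((1 : ℝ) / 4)) * (2 ^ ε * (J * X) ^ ε) :=
        mul_le_mul (mul_le_mul_of_nonneg_left h4 (by positivity)) h6 (by positivity) (by positivity)
    _ = 2 * 2 ^ ε * ((h ^ ((63 : ℝ) / 64 + ε) * q ^ ((63 : ℝ) / 64 + ε)) *
          (1 + J * X / Q ^ 2) ^ ((1 : ℝ) / 4) * (J * X) ^ ε) := by ring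
    _ = _ := by rw [← Real.mul_rpow (by linarith) (by linarith), ← hQ]

theorem tOfj (h1 : FouStmt) (h2 : KpaStmt) : OfjStmt := by
  intro ε hε
  obtain ⟨C0, hC0, hK⟩ := h2 ε hε
  refine ⟨14 * 2 ^ ε * C0, by positivity, ?_⟩
  intro X h J Q a b c c' hX hh hJ hhQ hQX hab haX hbX hdvd hc hc'
  obtain ⟨m', hm'⟩ := hdvd
  have hX' : (1 : ℝ) ≤ X := by exact_mod_cast hX
  have hJ' : (1 : ℝ) ≤ J := by exact_mod_cast hJ
  have hh' : (1 : ℝ) ≤ h := by exact_mod_cast hh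
  have hQ1 : 1 ≤ Q := by linarith
  obtain ⟨q, hq⟩ : ∃ q : ℝ, q = Q / h := ⟨_, rfl⟩
  have hQq : Q = h * q := by rw [hq]; field_simp
  have hq1 : 1 ≤ q := by rw [hq, one_le_div (by linarith)]; exact hhQ
  have hm0 : m' ≠ 0 := by
    intro h0
    rw [h0, mul_zero] at hm'
    exact hab (by linarith)
  have hmX : (h : ℝ) * |(m' : ℝ)| ≤ 2 * X := by
    have h3 : |(a : ℤ) - b| ≤ 2 * (X : ℤ) := by
      have := abs_sub a b
      linarith
    rw [hm', abs_mul] at h3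
    have h4 : |((h : ℕ) : ℤ)| = (h : ℤ) := abs_of_nonneg (by positivity)
    rw [h4] at h3
    have h5 : (h : ℝ) * |(m' : ℝ)| ≤ 2 * (X : ℝ) := by exact_mod_cast h3
    exact h5
  obtain ⟨K, hKdef⟩ : ∃ K : ℕ, K = ⌊3 * (X : ℝ) / Q⌋₊ := ⟨_, rfl⟩
  have hK1 : (K : ℝ) ≤ 3 * X / Q := by rw [hKdef]; exact Nat.floor_le (by positivity)
  have hK2 : 3 * (X : ℝ) / Q < K + 1 := by rw [hKdef]; exact Nat.lt_floor_add_one _
  -- reindex
  rw [Ofj_pairs (by linarith) hh (fun d f => c d * c' f * errp X d f a b), ← hq]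
  -- Fourier expansion
  obtain ⟨Φ, hΦ⟩ : ∃ Φ : ℕ → ℕ → ℂ, ∀ d1 d2, Φ d1 d2 = (1 / (d2 : ℂ)) *
      ∑ j ∈ (rep d2).filter (fun j => j ≠ 0 ∧ |j| ≤ (J : ℤ)), Kh X (h * d1) a K ((j : ℝ) / d2) *
        em d2 (((j * m' : ℤ) : ZMod d2) * ((d1 : ZMod d2))⁻¹) := ⟨_, fun _ _ => rfl⟩
  have hfou : ∀ d1 ∈ dy q, ∀ d2 ∈ (dy q).filter (fun d2 => d1.Coprime d2),
      ‖(errp X (h * d1) (h * d2) a b : ℂ) - Φ d1 d2‖ ≤
        1 / (d2 : ℝ) + (h : ℝ) * d1 * d2 / (2 * X * J) := by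
    intro d1 hd1 d2 hd2
    rw [Finset.mem_filter] at hd2
    obtain ⟨hd2, hcop⟩ := hd2
    rw [mem_dy (by linarith)] at hd1 hd2
    have hd1' : 1 ≤ d1 := by
      have : (0 : ℝ) < d1 := by linarith
      exact_mod_cast this
    have hd2' : 1 ≤ d2 := by
      have : (0 : ℝ) < d2 := by linarith
      exact_mod_cast this
    rw [hΦ]
    refine h1 X h d1 d2 K J a b m' hX hh hd1' hd2' hJ hcop haX hm' ?_
    have h3 : 3 * (X : ℝ) ≤ (K + 1) * (h * d1) := by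
      rw [div_lt_iff₀ (by linarith)] at hK2
      have h4 : Q ≤ h * d1 := by
        rw [hQq]
        exact mul_le_mul_of_nonneg_left hd1.1.le (by linarith)
      have h5 : ((K : ℝ) + 1) * Q ≤ (K + 1) * (h * d1) :=
        mul_le_mul_of_nonneg_left h4 (by positivity)
      linarith
    exact_mod_cast h3
  have hsum : ((∑ d1 ∈ dy q, ∑ d2 ∈ (dy q).filter (fun d2 => d1.Coprime d2),
      c (h * d1) * c' (h * d2) * errp X (h * d1) (h * d2) a b : ℝ) : ℂ) =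
      (∑ d1 ∈ dy q, ∑ d2 ∈ (dy q).filter (fun d2 => d1.Coprime d2),
        ((c (h * d1) * c' (h * d2) : ℝ) : ℂ) * Φ d1 d2) +
      ∑ d1 ∈ dy q, ∑ d2 ∈ (dy q).filter (fun d2 => d1.Coprime d2),
        ((c (h * d1) * c' (h * d2) : ℝ) : ℂ) *
          ((errp X (h * d1) (h * d2) a b : ℂ) - Φ d1 d2) := by
    rw [← Finset.sum_add_distrib, Complex.ofReal_sum]
    refine Finset.sum_congr rfl fun d1 _ => ?_
    rw [← Finset.sum_add_distrib, Complex.ofReal_sum]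
    refine Finset.sum_congr rfl fun d2 _ => ?_
    push_cast
    ring
  have hnorm : |∑ d1 ∈ dy q, ∑ d2 ∈ (dy q).filter (fun d2 => d1.Coprime d2),
      c (h * d1) * c' (h * d2) * errp X (h * d1) (h * d2) a b| ≤
      ‖∑ d1 ∈ dy q, ∑ d2 ∈ (dy q).filter (fun d2 => d1.Coprime d2),
        ((c (h * d1) * c' (h * d2) : ℝ) : ℂ) * Φ d1 d2‖ + (4 * Q + 8 * Q ^ 4 / (X * J)) := by
    rw [← Real.norm_eq_abs, ← Complex.norm_real, hsum]
    refine (norm_add_le _ _).trans (add_le_add le_rfl ?_)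
    refine le_trans ?_ (Ofj_err hh hq1 hQq hX hJ)
    refine (norm_sum_le _ _).trans (Finset.sum_le_sum fun d1 hd1 => ?_)
    refine (norm_sum_le _ _).trans (Finset.sum_le_sum fun d2 hd2 => ?_)
    rw [norm_mul, Complex.norm_real, Real.norm_eq_abs, abs_mul]
    have h3 : |c (h * d1)| * |c' (h * d2)| ≤ 1 :=
      mul_le_one₀ (hc _) (abs_nonneg _) (hc' _)
    calc |c (h * d1)| * |c' (h * d2)| * ‖(errp X (h * d1) (h * d2) a b : ℂ) - Φ d1 d2‖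
        ≤ 1 * ‖(errp X (h * d1) (h * d2) a b : ℂ) - Φ d1 d2‖ :=
          mul_le_mul_of_nonneg_right h3 (norm_nonneg _)
      _ ≤ _ := by rw [one_mul]; exact hfou d1 hd1 d2 hd2
  have hkpa := hK X h K J Q a m' c c' hh hJ hhQ hm0 hc hc'
  rw [← hq] at hkpa
  simp only [← hΦ] at hkpa
  refine hnorm.trans ?_
  rw [add_comm (4 * Q + 8 * Q ^ 4 / ((X : ℝ) * J))]
  refine add_le_add (hkpa.trans ?_) le_rfl
  have h7K : 2 * (K : ℝ) + 1 ≤ 7 * X / Q := by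
    have h3 : (1 : ℝ) ≤ X / Q := by rw [one_le_div (by linarith)]; exact hQX
    have h4 : 7 * (X : ℝ) / Q = 2 * (3 * X / Q) + X / Q := by ring
    rw [h4]
    linarith
  have hpow := Ofj_pow hε hh' hq1 hQq hX' hJ' (abs_nonneg (m' : ℝ)) hmX
  have hQe : (7 * X / Q) * Q ^ ((63 : ℝ) / 64 + ε) = 7 * X * Q ^ (-(1 : ℝ) / 64 + ε) := by
    have h3 : Q ^ ((63 : ℝ) / 64 + ε) = Q * Q ^ (-(1 : ℝ) / 64 + ε) := by
      rw [show (63 : ℝ) / 64 + ε = 1 + (-(1 : ℝ) / 64 + ε) by ring, Real.rpow_add (by linarith),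
        Real.rpow_one]
    rw [h3]
    have : Q ≠ 0 := by linarith
    field_simp
  calc C0 * J * (2 * K + 1) * (q ^ ((63 : ℝ) / 64 + ε) *
        (1 + J * |(m' : ℝ)| / q ^ 2) ^ ((1 : ℝ) / 4) * (J * |(m' : ℝ)|) ^ ε)
      ≤ C0 * J * (7 * X / Q) * (2 * 2 ^ ε * (Q ^ ((63 : ℝ) / 64 + ε) *
        (1 + J * X / Q ^ 2) ^ ((1 : ℝ) / 4) * (J * X) ^ ε)) := by
        refine mul_le_mul ?_ hpow (by positivity) (by positivity)
        exact mul_le_mul_of_nonneg_left h7K (by positivity)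
    _ = C0 * J * (2 * 2 ^ ε) * (((7 * X / Q) * Q ^ ((63 : ℝ) / 64 + ε)) *
        (1 + J * X / Q ^ 2) ^ ((1 : ℝ) / 4) * (J * X) ^ ε) := by ring
    _ = _ := by rw [hQe]; ring

end Pool.Agent.Lib.KF
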