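import Pool.Agent.Lib.KF.SpecL

/-!
MP_00e23e_nt, Lib/KF, module Ofk (helper16): all pairs.
-/

namespace Pool.Agent.Lib.KF

open Finset Pool.Agent.Lib.EH3

theorem tOfk (hErp : ErpStmt) (hOfh : OfhStmt) (hOfj : OfjStmt) : OfkStmt := by
  intro ε hε
  obtain ⟨C, hC, hj⟩ := hOfj ε hε
  refine ⟨C, hC, ?_⟩
  intro X H J Q a b c c' hX hH hJ hHQ hQX hab ha hb hc hc'
  have hH1 : (1 : ℝ) ≤ H := by exact_mod_cast hH
  have hQ1 : 1 ≤ Q := hH1.trans hHQ
  have hQ0 : 0 ≤ Q := by linarith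
  have hm : a - b ≠ 0 := sub_ne_zero.mpr hab
  set B : ℝ := 4 * Q + 8 * Q ^ 4 / (X * J) + C * J * X * (Q ^ (-(1 : ℝ) / 64 + ε) *
    (1 + J * X / Q ^ 2) ^ ((1 : ℝ) / 4) * ((J : ℝ) * X) ^ ε) with hB
  have hB0 : 0 ≤ B := by
    rw [hB]
    positivity
  set F : ℕ → ℕ → ℝ := fun d f => c d * c' f * errp X d f a b with hF
  have hdy : ∀ d ∈ dy Q, 1 ≤ d := by
    intro d hd
    rw [mem_dy hQ0] at hd
    have : (0 : ℝ) < d := by linarith [hd.1]
    exact_mod_cast this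
  -- the small common divisors
  have hsmall : ∀ h ∈ Icc 1 H, |∑ d ∈ dy Q, ∑ f ∈ (dy Q).filter (fun f => Nat.gcd d f = h), F d f| ≤
      if h ∣ (a - b).natAbs then B else 0 := by
    intro h hh
    rw [Finset.mem_Icc] at hh
    split_ifs with hd
    · have h1 : (h : ℤ) ∣ a - b := Int.natCast_dvd.mpr hd
      have h2 : (h : ℝ) ≤ Q := by
        have : (h : ℝ) ≤ H := by exact_mod_cast hh.2
        linarith
      exact hj X h J Q a b c c' hX hh.1 hJ h2 hQX hab ha hb h1 hc hc'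
    · have h3 : ∑ d ∈ dy Q, ∑ f ∈ (dy Q).filter (fun f => Nat.gcd d f = h), F d f = 0 := by
        refine Finset.sum_eq_zero fun d hd' => Finset.sum_eq_zero fun f hf' => ?_
        rw [Finset.mem_filter] at hf'
        have h4 : ¬ ((Nat.gcd d f : ℕ) : ℤ) ∣ a - b := by
          rw [hf'.2]
          intro h5
          exact hd (Int.natCast_dvd.mp h5)
        simp only [hF]
        rw [(hErp X d f a b hX (hdy d hd') (hdy f hf'.1)).2 h4, mul_zero]
      rw [h3, abs_zero]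
  have hFle : ∀ d ∈ dy Q, ∀ f ∈ dy Q, |F d f| ≤ 1 := by
    intro d hd f hf
    simp only [hF]
    rw [abs_mul, abs_mul]
    have h1 := (hErp X d f a b hX (hdy d hd) (hdy f hf)).1
    have h2 := hc d
    have h3 := hc' f
    calc |c d| * |c' f| * |errp X d f a b| ≤ 1 * 1 * 1 := by
          refine mul_le_mul (mul_le_mul h2 h3 (abs_nonneg _) zero_le_one) h1 (abs_nonneg _) (by norm_num)
      _ = 1 := by norm_num
  -- the decomposition
  have hdec : ∑ d ∈ dy Q, ∑ f ∈ dy Q, F d f =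
      (∑ d ∈ dy Q, ∑ f ∈ dy Q, if H < Nat.gcd d f then F d f else 0) +
      ∑ h ∈ Icc 1 H, ∑ d ∈ dy Q, ∑ f ∈ (dy Q).filter (fun f => Nat.gcd d f = h), F d f := by
    rw [Finset.sum_comm (s := Icc 1 H), ← Finset.sum_add_distrib]
    refine Finset.sum_congr rfl fun d hd => ?_
    have h1 : ∑ h ∈ Icc 1 H, ∑ f ∈ (dy Q).filter (fun f => Nat.gcd d f = h), F d f =
        ∑ f ∈ dy Q, ∑ h ∈ Icc 1 H, if Nat.gcd d f = h then F d f else 0 := by
      rw [Finset.sum_comm]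
      refine Finset.sum_congr rfl fun h _ => ?_
      rw [Finset.sum_filter]
    rw [h1, ← Finset.sum_add_distrib]
    refine Finset.sum_congr rfl fun f hf => ?_
    have hg : 1 ≤ Nat.gcd d f := Nat.gcd_pos_of_pos_left f (hdy d hd)
    rw [Finset.sum_ite_eq (Icc 1 H) (Nat.gcd d f) (fun _ => F d f)]
    by_cases h2 : H < Nat.gcd d f
    · rw [if_pos h2, if_neg (fun h3 => by rw [Finset.mem_Icc] at h3; omega), add_zero]
    · rw [if_neg h2, if_pos (by rw [Finset.mem_Icc]; omega), zero_add]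
  have hbig : |∑ d ∈ dy Q, ∑ f ∈ dy Q, if H < Nat.gcd d f then F d f else 0| ≤
      4 * Q ^ 2 * tau (a - b).natAbs / (H : ℝ) ^ 2 := by
    refine le_trans ?_ (hOfh Q H (a - b) hQ1 hH hm)
    refine (Finset.abs_sum_le_sum_abs _ _).trans (Finset.sum_le_sum fun d hd => ?_)
    refine (Finset.abs_sum_le_sum_abs _ _).trans (Finset.sum_le_sum fun f hf => ?_)
    by_cases h1 : H < Nat.gcd d f
    · rw [if_pos h1]
      by_cases h2 : ((Nat.gcd d f : ℕ) : ℤ) ∣ a - b
      · rw [if_pos ⟨h1, h2⟩]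
        exact hFle d hd f hf
      · rw [if_neg (fun h3 => h2 h3.2)]
        simp only [hF]
        rw [(hErp X d f a b hX (hdy d hd) (hdy f hf)).2 h2, mul_zero, abs_zero]
    · rw [if_neg h1, if_neg (fun h3 => h1 h3.1), abs_zero]
  have hsm : |∑ h ∈ Icc 1 H, ∑ d ∈ dy Q, ∑ f ∈ (dy Q).filter (fun f => Nat.gcd d f = h), F d f| ≤
      tau (a - b).natAbs * B := by
    refine (Finset.abs_sum_le_sum_abs _ _).trans ((Finset.sum_le_sum hsmall).trans ?_)
    rw [← Finset.sum_filter, Finset.sum_const, nsmul_eq_mul]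
    refine mul_le_mul_of_nonneg_right ?_ hB0
    unfold tau
    have h1 : ((Icc 1 H).filter (fun h => h ∣ (a - b).natAbs)) ⊆ (a - b).natAbs.divisors := by
      intro h hh
      rw [Finset.mem_filter] at hh
      rw [Nat.mem_divisors]
      exact ⟨hh.2, Int.natAbs_ne_zero.mpr hm⟩
    exact_mod_cast Finset.card_le_card h1
  rw [hdec]
  calc _ ≤ _ := abs_add_le _ _
    _ ≤ 4 * Q ^ 2 * tau (a - b).natAbs / (H : ℝ) ^ 2 + tau (a - b).natAbs * B := add_le_add hbig hsm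
    _ = _ := by
        rw [hB]
        ring

end Pool.Agent.Lib.KF
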