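import Pool.Agent.Lib.KF.SpecL

/-!
MP_00e23e_nt, directory Lib/KF, module Ofl: off-diagonal terms.
-/

namespace Pool.Agent.Lib.KF

open Finset Pool.Agent.Lib.EH3

private lemma Ofl_tau {C0 : ℝ} (hC0 : 0 < C0)
    (h : ∀ n : ℕ, 1 ≤ n → tau n ≤ C0 * (n : ℝ) ^ ((1 : ℝ) / 100000)) (X : ℕ) (a b : ℤ)
    (hab : a ≠ b) (ha : |a| ≤ (X : ℤ)) (hb : |b| ≤ (X : ℤ)) :
    tau (a - b).natAbs ≤ C0 * 2 * (X : ℝ) ^ ((1 : ℝ) / 100000) := by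
  have hn : 1 ≤ (a - b).natAbs := by
    have : a - b ≠ 0 := sub_ne_zero.2 hab
    omega
  have hle : (a - b).natAbs ≤ 2 * X := by
    rw [abs_le] at ha hb
    omega
  have h1 : ((a - b).natAbs : ℝ) ≤ 2 * (X : ℝ) := by exact_mod_cast hle
  have h2 : ((a - b).natAbs : ℝ) ^ ((1 : ℝ) / 100000) ≤ (2 * (X : ℝ)) ^ ((1 : ℝ) / 100000) :=
    Real.rpow_le_rpow (by positivity) h1 (by norm_num)
  rw [Real.mul_rpow (by norm_num) (by positivity)] at h2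
  have h3 : (2 : ℝ) ^ ((1 : ℝ) / 100000) ≤ 2 := by
    calc (2 : ℝ) ^ ((1 : ℝ) / 100000) ≤ (2 : ℝ) ^ (1 : ℝ) :=
          Real.rpow_le_rpow_of_exponent_le (by norm_num) (by norm_num)
      _ = 2 := Real.rpow_one 2
  have h4 : (0 : ℝ) ≤ (X : ℝ) ^ ((1 : ℝ) / 100000) := by positivity
  calc tau (a - b).natAbs ≤ C0 * ((a - b).natAbs : ℝ) ^ ((1 : ℝ) / 100000) := h _ hn
    _ ≤ C0 * ((2 : ℝ) ^ ((1 : ℝ) / 100000) * (X : ℝ) ^ ((1 : ℝ) / 100000)) := by gcongr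
    _ ≤ C0 * (2 * (X : ℝ) ^ ((1 : ℝ) / 100000)) := by gcongr
    _ = C0 * 2 * (X : ℝ) ^ ((1 : ℝ) / 100000) := by ring

/-- **Module Ofl: off-diagonal terms.** -/
theorem tOfl (h1 : DvbStmt) (h2 : OfaStmt) (h3 : OfkStmt) (h4 : OfnStmt) : OflStmt := by
  obtain ⟨C0, hC0, hd⟩ := h1 ((1 : ℝ) / 100000) (by norm_num)
  obtain ⟨C2, hC2, hk⟩ := h3 ((1 : ℝ) / 100000) (by norm_num)
  obtain ⟨X0, hX0, hn⟩ := h4 (C0 * 2) C2 (by positivity) hC2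
  refine ⟨X0, hX0, fun X Q a b c c' hX hQ1 hQ2 hab ha hb hc hc' => ?_⟩
  obtain ⟨q1, qX, r1, rQ, H, J, hH, hJ, hHQ, hfin⟩ := hn X Q hX hQ1 hQ2
  have hX1 : 1 ≤ X := hX0.trans hX
  have ofa := h2 X _ Q c c' a b hX1 r1 q1 rQ hc hc' hab
  have ofk := hk X H J Q a b c c' hX1 hH hJ hHQ qX hab ha hb hc hc'
  have htau := Ofl_tau hC0 hd X a b hab ha hb
  refine ofa.trans (le_trans ?_ hfin)
  have hQ0 : (0 : ℝ) ≤ Q := by linarith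
  have hB : (0 : ℝ) ≤ 4 * Q ^ 2 / (H : ℝ) ^ 2 + 4 * Q + 8 * Q ^ 4 / (X * J) +
      C2 * J * X * (Q ^ (-(1 : ℝ) / 64 + 1 / 100000) * (1 + J * X / Q ^ 2) ^ ((1 : ℝ) / 4) *
        ((J : ℝ) * X) ^ ((1 : ℝ) / 100000)) := by positivity
  have e1 : 16 * (X : ℝ) * tau (a - b).natAbs / (⌊(X : ℝ) ^ ((4985 : ℝ) / 10000)⌋₊ : ℝ) ≤
      16 * (X : ℝ) * (C0 * 2 * (X : ℝ) ^ ((1 : ℝ) / 100000)) /
        (⌊(X : ℝ) ^ ((4985 : ℝ) / 10000)⌋₊ : ℝ) := by gcongr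
  have e2 := ofk.trans (mul_le_mul_of_nonneg_right htau hB)
  exact add_le_add (add_le_add e1 le_rfl) e2

end Pool.Agent.Lib.KF
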