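import Pool.Agent.Lib.KF.SpecL

/-!
MP_00e23e_nt, directory Lib/KF, module Ofn: the choice of the parameters.
-/

namespace Pool.Agent.Lib.KF

open Finset Pool.Agent.Lib.EH3

private lemma Ofn_floor {y : ℝ} (hy : 1 ≤ y) :
    1 ≤ ⌊y⌋₊ ∧ (⌊y⌋₊ : ℝ) ≤ y ∧ y ≤ 2 * (⌊y⌋₊ : ℝ) := by
  have h1 : 1 ≤ ⌊y⌋₊ := Nat.le_floor (by rw [Nat.cast_one]; exact hy)
  have h2 := Nat.floor_le (zero_le_one.trans hy)
  have h3 := Nat.lt_floor_add_one y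
  have h4 : (1 : ℝ) ≤ (⌊y⌋₊ : ℝ) := by exact_mod_cast h1
  exact ⟨h1, h2, by linarith⟩

private lemma Ofn_log {x Q : ℝ} (hx : 1 ≤ x) (hQ1 : 1 ≤ Q) (hQx : Q ≤ x) :
    0 ≤ 1 + Real.log (2 * Q) ∧ 1 + Real.log (2 * Q) ≤ 40001 * x ^ ((1 : ℝ) / 20000) := by
  have h0 : 0 ≤ Real.log (2 * Q) := Real.log_nonneg (by linarith)
  have h1 := Real.log_le_rpow_div (x := 2 * Q) (ε := (1 : ℝ) / 20000) (by linarith) (by norm_num)
  have h2 : (2 * Q) ^ ((1 : ℝ) / 20000) ≤ 2 * x ^ ((1 : ℝ) / 20000) := by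
    rw [Real.mul_rpow (by norm_num) (by linarith)]
    refine mul_le_mul ?_ (Real.rpow_le_rpow (by linarith) hQx (by norm_num))
      (Real.rpow_nonneg (by linarith) _) (by norm_num)
    calc (2 : ℝ) ^ ((1 : ℝ) / 20000) ≤ 2 ^ (1 : ℝ) :=
          Real.rpow_le_rpow_of_exponent_le (by norm_num) (by norm_num)
      _ = 2 := Real.rpow_one 2
  have h3 : 1 ≤ x ^ ((1 : ℝ) / 20000) := Real.one_le_rpow hx (by norm_num)
  have h4 : (2 * Q) ^ ((1 : ℝ) / 20000) / (1 / 20000) = 20000 * (2 * Q) ^ ((1 : ℝ) / 20000) := by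
    rw [div_div_eq_mul_div, div_one, mul_comm]
  rw [h4] at h1
  constructor <;> linarith

private lemma Ofn_main (C1 C2 x Q R H J : ℝ) (hC1 : 0 < C1) (hC2 : 0 < C2) (hx : 1 ≤ x)
    (hK : 60 * C1 + 16 * 40001 ^ 2 + 12 * C1 * C2 ≤ x ^ ((1 : ℝ) / 20000))
    (hQ1 : x ^ ((499 : ℝ) / 1000) ≤ Q) (hQ2 : Q ≤ x ^ ((5011 : ℝ) / 10000))
    (hR1 : R ≤ x ^ ((4985 : ℝ) / 10000)) (hR2 : x ^ ((4985 : ℝ) / 10000) ≤ 2 * R)
    (hH : x ^ ((1 : ℝ) / 500) ≤ 2 * H)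
    (hJ1 : Q ^ 4 * x ^ (-(3999 : ℝ) / 2000) ≤ J) (hJ2 : J ≤ Q ^ 4 * x ^ (-(3999 : ℝ) / 2000) + 1)
    (hJ0 : 1 ≤ J) :
    16 * x * (C1 * x ^ ((1 : ℝ) / 100000)) / R + 16 * R * Q * (1 + Real.log (2 * Q)) ^ 2 +
      C1 * x ^ ((1 : ℝ) / 100000) * (4 * Q ^ 2 / H ^ 2 + 4 * Q + 8 * Q ^ 4 / (x * J) +
        C2 * J * x * (Q ^ (-(1 : ℝ) / 64 + 1 / 100000) * (1 + J * x / Q ^ 2) ^ ((1 : ℝ) / 4) *
          (J * x) ^ ((1 : ℝ) / 100000))) ≤ x ^ ((3999 : ℝ) / 4000) := by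
  have hx0 : 0 < x := by linarith
  have hadd : ∀ a b : ℝ, x ^ a * x ^ b = x ^ (a + b) := fun a b => (Real.rpow_add hx0 a b).symm
  have hmono : ∀ a b : ℝ, a ≤ b → x ^ a ≤ x ^ b := fun a b h =>
    Real.rpow_le_rpow_of_exponent_le hx h
  have hpos : ∀ a : ℝ, 0 < x ^ a := fun a => Real.rpow_pos_of_pos hx0 a
  have hx1 : x ^ (1 : ℝ) = x := Real.rpow_one x
  have hQ0 : 1 ≤ Q := (Real.one_le_rpow hx (by norm_num)).trans hQ1
  have hQpos : 0 < Q := by linarith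
  have hQx : Q ≤ x := by
    refine hQ2.trans ?_
    calc x ^ ((5011 : ℝ) / 10000) ≤ x ^ (1 : ℝ) := hmono _ _ (by norm_num)
      _ = x := hx1
  have hRpos : 0 < R := by
    have := hpos ((4985 : ℝ) / 10000)
    linarith
  have hHpos : 0 < H := by
    have := hpos ((1 : ℝ) / 500)
    linarith
  have hJpos : 0 < J := by linarith
  -- powers of Q
  have hQp2 : Q ^ 2 ≤ x ^ ((5011 : ℝ) / 5000) := by
    calc Q ^ 2 ≤ (x ^ ((5011 : ℝ) / 10000)) ^ 2 := pow_le_pow_left₀ hQpos.le hQ2 2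
      _ = x ^ ((5011 : ℝ) / 5000) := by
        rw [sq, hadd]
        norm_num
  have hQp2' : x ^ ((499 : ℝ) / 500) ≤ Q ^ 2 := by
    calc x ^ ((499 : ℝ) / 500) = (x ^ ((499 : ℝ) / 1000)) ^ 2 := by
          rw [sq, hadd]
          norm_num
      _ ≤ Q ^ 2 := pow_le_pow_left₀ (hpos _).le hQ1 2
  have hQp4 : Q ^ 4 ≤ x ^ ((5011 : ℝ) / 2500) := by
    calc Q ^ 4 = Q ^ 2 * Q ^ 2 := by ring
      _ ≤ x ^ ((5011 : ℝ) / 5000) * x ^ ((5011 : ℝ) / 5000) :=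
        mul_le_mul hQp2 hQp2 (by positivity) (hpos _).le
      _ = x ^ ((5011 : ℝ) / 2500) := by
        rw [hadd]
        norm_num
  -- J
  have hJ3 : J ≤ 2 * x ^ ((49 : ℝ) / 10000) := by
    have h1 : Q ^ 4 * x ^ (-(3999 : ℝ) / 2000) ≤ x ^ ((49 : ℝ) / 10000) := by
      calc Q ^ 4 * x ^ (-(3999 : ℝ) / 2000)
          ≤ x ^ ((5011 : ℝ) / 2500) * x ^ (-(3999 : ℝ) / 2000) :=
            mul_le_mul_of_nonneg_right hQp4 (hpos _).le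
        _ = x ^ ((49 : ℝ) / 10000) := by
          rw [hadd]
          norm_num
    have h2 : 1 ≤ x ^ ((49 : ℝ) / 10000) := Real.one_le_rpow hx (by norm_num)
    linarith
  -- first term
  have t1 : 16 * x * (C1 * x ^ ((1 : ℝ) / 100000)) / R ≤ 32 * C1 * x ^ ((9997 : ℝ) / 10000) := by
    rw [div_le_iff₀ hRpos]
    have h1 : x * x ^ ((1 : ℝ) / 100000) ≤ x ^ ((9997 : ℝ) / 10000) * (2 * R) := by
      calc x * x ^ ((1 : ℝ) / 100000) = x ^ (1 : ℝ) * x ^ ((1 : ℝ) / 100000) := by rw [hx1]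
        _ = x ^ ((1 : ℝ) + 1 / 100000) := hadd _ _
        _ ≤ x ^ ((9997 : ℝ) / 10000 + 4985 / 10000) := hmono _ _ (by norm_num)
        _ = x ^ ((9997 : ℝ) / 10000) * x ^ ((4985 : ℝ) / 10000) := (hadd _ _).symm
        _ ≤ x ^ ((9997 : ℝ) / 10000) * (2 * R) := mul_le_mul_of_nonneg_left hR2 (hpos _).le
    calc 16 * x * (C1 * x ^ ((1 : ℝ) / 100000)) = 16 * C1 * (x * x ^ ((1 : ℝ) / 100000)) := by ring
      _ ≤ 16 * C1 * (x ^ ((9997 : ℝ) / 10000) * (2 * R)) :=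
        mul_le_mul_of_nonneg_left h1 (by positivity)
      _ = 32 * C1 * x ^ ((9997 : ℝ) / 10000) * R := by ring
  -- second term
  have t2 : 16 * R * Q * (1 + Real.log (2 * Q)) ^ 2 ≤ 16 * 40001 ^ 2 * x ^ ((9997 : ℝ) / 10000) := by
    obtain ⟨h1, h2⟩ := Ofn_log hx hQ0 hQx
    have h3 : (1 + Real.log (2 * Q)) ^ 2 ≤ 40001 ^ 2 * x ^ ((1 : ℝ) / 10000) := by
      calc (1 + Real.log (2 * Q)) ^ 2 ≤ (40001 * x ^ ((1 : ℝ) / 20000)) ^ 2 :=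
            pow_le_pow_left₀ h1 h2 2
        _ = 40001 ^ 2 * (x ^ ((1 : ℝ) / 20000) * x ^ ((1 : ℝ) / 20000)) := by ring
        _ = 40001 ^ 2 * x ^ ((1 : ℝ) / 10000) := by
          rw [hadd]
          norm_num
    have h4 : R * Q ≤ x ^ ((4985 : ℝ) / 10000) * x ^ ((5011 : ℝ) / 10000) :=
      mul_le_mul hR1 hQ2 hQpos.le (hpos _).le
    have h5 : x ^ ((4985 : ℝ) / 10000) * x ^ ((5011 : ℝ) / 10000) = x ^ ((9996 : ℝ) / 10000) := by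
      rw [hadd]
      norm_num
    rw [h5] at h4
    calc 16 * R * Q * (1 + Real.log (2 * Q)) ^ 2 = 16 * ((R * Q) * (1 + Real.log (2 * Q)) ^ 2) := by
          ring
      _ ≤ 16 * (x ^ ((9996 : ℝ) / 10000) * (40001 ^ 2 * x ^ ((1 : ℝ) / 10000))) :=
        mul_le_mul_of_nonneg_left (mul_le_mul h4 h3 (by positivity) (hpos _).le) (by norm_num)
      _ = 16 * 40001 ^ 2 * (x ^ ((9996 : ℝ) / 10000) * x ^ ((1 : ℝ) / 10000)) := by ring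
      _ = 16 * 40001 ^ 2 * x ^ ((9997 : ℝ) / 10000) := by
        rw [hadd]
        norm_num
  -- third group
  have t3 : 4 * Q ^ 2 / H ^ 2 ≤ 16 * x ^ ((9995 : ℝ) / 10000) := by
    rw [div_le_iff₀ (by positivity)]
    have h1 : x ^ ((1 : ℝ) / 250) ≤ 4 * H ^ 2 := by
      calc x ^ ((1 : ℝ) / 250) = (x ^ ((1 : ℝ) / 500)) ^ 2 := by
            rw [sq, hadd]
            norm_num
        _ ≤ (2 * H) ^ 2 := pow_le_pow_left₀ (hpos _).le hH 2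
        _ = 4 * H ^ 2 := by ring
    calc 4 * Q ^ 2 ≤ 4 * x ^ ((5011 : ℝ) / 5000) := by linarith
      _ ≤ 4 * x ^ ((9995 : ℝ) / 10000 + 1 / 250) := by
        have := hmono ((5011 : ℝ) / 5000) ((9995 : ℝ) / 10000 + 1 / 250) (by norm_num)
        linarith
      _ = 4 * (x ^ ((9995 : ℝ) / 10000) * x ^ ((1 : ℝ) / 250)) := by rw [hadd]
      _ ≤ 4 * (x ^ ((9995 : ℝ) / 10000) * (4 * H ^ 2)) :=
        mul_le_mul_of_nonneg_left (mul_le_mul_of_nonneg_left h1 (hpos _).le) (by norm_num)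
      _ = 16 * x ^ ((9995 : ℝ) / 10000) * H ^ 2 := by ring
  have t4 : 4 * Q ≤ 4 * x ^ ((9995 : ℝ) / 10000) := by
    have := hmono ((5011 : ℝ) / 10000) ((9995 : ℝ) / 10000) (by norm_num)
    linarith
  have t5 : 8 * Q ^ 4 / (x * J) ≤ 8 * x ^ ((9995 : ℝ) / 10000) := by
    rw [div_le_iff₀ (by positivity)]
    have h1 : Q ^ 4 ≤ J * x ^ ((3999 : ℝ) / 2000) := by
      have h2 : Q ^ 4 * x ^ (-(3999 : ℝ) / 2000) * x ^ ((3999 : ℝ) / 2000) = Q ^ 4 := by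
        rw [mul_assoc, hadd]
        norm_num
      rw [← h2]
      exact mul_le_mul_of_nonneg_right hJ1 (hpos _).le
    calc 8 * Q ^ 4 ≤ 8 * (J * x ^ ((3999 : ℝ) / 2000)) := by linarith
      _ = 8 * J * (x ^ ((9995 : ℝ) / 10000) * x ^ (1 : ℝ)) := by
        rw [hadd]
        norm_num
        ring
      _ = 8 * x ^ ((9995 : ℝ) / 10000) * (x * J) := by
        rw [hx1]
        ring
  have t6 : C2 * J * x * (Q ^ (-(1 : ℝ) / 64 + 1 / 100000) * (1 + J * x / Q ^ 2) ^ ((1 : ℝ) / 4) *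
          (J * x) ^ ((1 : ℝ) / 100000)) ≤ 12 * C2 * x ^ ((9995 : ℝ) / 10000) := by
    have h1 : Q ^ (-(1 : ℝ) / 64 + 1 / 100000) ≤
        x ^ ((499 : ℝ) / 1000 * (-(1 : ℝ) / 64 + 1 / 100000)) := by
      rw [Real.rpow_mul hx0.le]
      exact Real.rpow_le_rpow_of_nonpos (hpos _) hQ1 (by norm_num)
    have hJx : J * x ≤ 2 * x ^ ((10049 : ℝ) / 10000) := by
      calc J * x ≤ 2 * x ^ ((49 : ℝ) / 10000) * x := mul_le_mul_of_nonneg_right hJ3 hx0.le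
        _ = 2 * (x ^ ((49 : ℝ) / 10000) * x ^ (1 : ℝ)) := by
          rw [hx1]
          ring
        _ = 2 * x ^ ((10049 : ℝ) / 10000) := by
          rw [hadd]
          norm_num
    have h2 : 1 + J * x / Q ^ 2 ≤ 3 * x ^ ((69 : ℝ) / 10000) := by
      have h3 : J * x / Q ^ 2 ≤ 2 * x ^ ((69 : ℝ) / 10000) := by
        rw [div_le_iff₀ (by positivity)]
        calc J * x ≤ 2 * x ^ ((10049 : ℝ) / 10000) := hJx
          _ = 2 * (x ^ ((69 : ℝ) / 10000) * x ^ ((499 : ℝ) / 500)) := by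
            rw [hadd]
            norm_num
          _ ≤ 2 * (x ^ ((69 : ℝ) / 10000) * Q ^ 2) :=
            mul_le_mul_of_nonneg_left (mul_le_mul_of_nonneg_left hQp2' (hpos _).le) (by norm_num)
          _ = 2 * x ^ ((69 : ℝ) / 10000) * Q ^ 2 := by ring
      have h4 : 1 ≤ x ^ ((69 : ℝ) / 10000) := Real.one_le_rpow hx (by norm_num)
      linarith
    have h3 : (1 + J * x / Q ^ 2) ^ ((1 : ℝ) / 4) ≤ 3 * x ^ ((69 : ℝ) / 40000) := by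
      calc (1 + J * x / Q ^ 2) ^ ((1 : ℝ) / 4) ≤ (3 * x ^ ((69 : ℝ) / 10000)) ^ ((1 : ℝ) / 4) :=
            Real.rpow_le_rpow (by positivity) h2 (by norm_num)
        _ = 3 ^ ((1 : ℝ) / 4) * x ^ ((69 : ℝ) / 10000 * (1 / 4)) := by
          rw [Real.mul_rpow (by norm_num) (hpos _).le, ← Real.rpow_mul hx0.le]
        _ ≤ 3 ^ (1 : ℝ) * x ^ ((69 : ℝ) / 10000 * (1 / 4)) :=
          mul_le_mul_of_nonneg_right
            (Real.rpow_le_rpow_of_exponent_le (by norm_num) (by norm_num)) (hpos _).le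
        _ = 3 * x ^ ((69 : ℝ) / 40000) := by
          rw [Real.rpow_one]
          norm_num
    have h4 : (J * x) ^ ((1 : ℝ) / 100000) ≤ 2 * x ^ ((10049 : ℝ) / 1000000000) := by
      calc (J * x) ^ ((1 : ℝ) / 100000) ≤ (2 * x ^ ((10049 : ℝ) / 10000)) ^ ((1 : ℝ) / 100000) :=
            Real.rpow_le_rpow (by positivity) hJx (by norm_num)
        _ = 2 ^ ((1 : ℝ) / 100000) * x ^ ((10049 : ℝ) / 10000 * (1 / 100000)) := by
          rw [Real.mul_rpow (by norm_num) (hpos _).le, ← Real.rpow_mul hx0.le]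
        _ ≤ 2 ^ (1 : ℝ) * x ^ ((10049 : ℝ) / 10000 * (1 / 100000)) :=
          mul_le_mul_of_nonneg_right
            (Real.rpow_le_rpow_of_exponent_le (by norm_num) (by norm_num)) (hpos _).le
        _ = 2 * x ^ ((10049 : ℝ) / 1000000000) := by
          rw [Real.rpow_one]
          norm_num
    have h5 : Q ^ (-(1 : ℝ) / 64 + 1 / 100000) * (1 + J * x / Q ^ 2) ^ ((1 : ℝ) / 4) ≤
        x ^ ((499 : ℝ) / 1000 * (-(1 : ℝ) / 64 + 1 / 100000)) * (3 * x ^ ((69 : ℝ) / 40000)) :=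
      mul_le_mul h1 h3 (by positivity) (hpos _).le
    have h6 : Q ^ (-(1 : ℝ) / 64 + 1 / 100000) * (1 + J * x / Q ^ 2) ^ ((1 : ℝ) / 4) *
        (J * x) ^ ((1 : ℝ) / 100000) ≤
        x ^ ((499 : ℝ) / 1000 * (-(1 : ℝ) / 64 + 1 / 100000)) * (3 * x ^ ((69 : ℝ) / 40000)) *
          (2 * x ^ ((10049 : ℝ) / 1000000000)) :=
      mul_le_mul h5 h4 (by positivity) (by positivity)
    have h7 : C2 * J * x ≤ C2 * (2 * x ^ ((10049 : ℝ) / 10000)) := by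
      rw [mul_assoc]
      exact mul_le_mul_of_nonneg_left hJx hC2.le
    calc C2 * J * x * (Q ^ (-(1 : ℝ) / 64 + 1 / 100000) * (1 + J * x / Q ^ 2) ^ ((1 : ℝ) / 4) *
          (J * x) ^ ((1 : ℝ) / 100000))
        ≤ C2 * (2 * x ^ ((10049 : ℝ) / 10000)) *
          (x ^ ((499 : ℝ) / 1000 * (-(1 : ℝ) / 64 + 1 / 100000)) * (3 * x ^ ((69 : ℝ) / 40000)) *
          (2 * x ^ ((10049 : ℝ) / 1000000000))) :=
          mul_le_mul h7 h6 (by positivity) (by positivity)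
      _ = 12 * C2 * (x ^ ((10049 : ℝ) / 10000) *
          x ^ ((499 : ℝ) / 1000 * (-(1 : ℝ) / 64 + 1 / 100000)) * x ^ ((69 : ℝ) / 40000) *
          x ^ ((10049 : ℝ) / 1000000000)) := by ring
      _ = 12 * C2 * x ^ ((10049 : ℝ) / 10000 +
          (499 : ℝ) / 1000 * (-(1 : ℝ) / 64 + 1 / 100000) + (69 : ℝ) / 40000 +
          (10049 : ℝ) / 1000000000) := by
        rw [hadd, hadd, hadd]
      _ ≤ 12 * C2 * x ^ ((9995 : ℝ) / 10000) :=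
        mul_le_mul_of_nonneg_left (hmono _ _ (by norm_num)) (by positivity)
  have t7 : C1 * x ^ ((1 : ℝ) / 100000) * (4 * Q ^ 2 / H ^ 2 + 4 * Q + 8 * Q ^ 4 / (x * J) +
        C2 * J * x * (Q ^ (-(1 : ℝ) / 64 + 1 / 100000) * (1 + J * x / Q ^ 2) ^ ((1 : ℝ) / 4) *
          (J * x) ^ ((1 : ℝ) / 100000))) ≤
      (28 * C1 + 12 * C1 * C2) * x ^ ((9997 : ℝ) / 10000) := by
    have h1 : 4 * Q ^ 2 / H ^ 2 + 4 * Q + 8 * Q ^ 4 / (x * J) +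
        C2 * J * x * (Q ^ (-(1 : ℝ) / 64 + 1 / 100000) * (1 + J * x / Q ^ 2) ^ ((1 : ℝ) / 4) *
          (J * x) ^ ((1 : ℝ) / 100000)) ≤ (28 + 12 * C2) * x ^ ((9995 : ℝ) / 10000) := by
      linarith
    calc C1 * x ^ ((1 : ℝ) / 100000) * (4 * Q ^ 2 / H ^ 2 + 4 * Q + 8 * Q ^ 4 / (x * J) +
        C2 * J * x * (Q ^ (-(1 : ℝ) / 64 + 1 / 100000) * (1 + J * x / Q ^ 2) ^ ((1 : ℝ) / 4) *
          (J * x) ^ ((1 : ℝ) / 100000)))
        ≤ C1 * x ^ ((1 : ℝ) / 100000) * ((28 + 12 * C2) * x ^ ((9995 : ℝ) / 10000)) :=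
          mul_le_mul_of_nonneg_left h1 (by positivity)
      _ = (28 * C1 + 12 * C1 * C2) * (x ^ ((1 : ℝ) / 100000) * x ^ ((9995 : ℝ) / 10000)) := by ring
      _ = (28 * C1 + 12 * C1 * C2) * x ^ ((1 : ℝ) / 100000 + 9995 / 10000) := by rw [hadd]
      _ ≤ (28 * C1 + 12 * C1 * C2) * x ^ ((9997 : ℝ) / 10000) :=
        mul_le_mul_of_nonneg_left (hmono _ _ (by norm_num)) (by positivity)
  have hfin : (60 * C1 + 16 * 40001 ^ 2 + 12 * C1 * C2) * x ^ ((9997 : ℝ) / 10000) ≤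
      x ^ ((3999 : ℝ) / 4000) := by
    calc (60 * C1 + 16 * 40001 ^ 2 + 12 * C1 * C2) * x ^ ((9997 : ℝ) / 10000)
        ≤ x ^ ((1 : ℝ) / 20000) * x ^ ((9997 : ℝ) / 10000) :=
          mul_le_mul_of_nonneg_right hK (hpos _).le
      _ = x ^ ((3999 : ℝ) / 4000) := by
        rw [hadd]
        norm_num
  linarith

theorem tOfn : OfnStmt := by
  intro C1 C2 hC1 hC2
  obtain ⟨K, hK⟩ : ∃ K : ℝ, K = 60 * C1 + 16 * 40001 ^ 2 + 12 * C1 * C2 := ⟨_, rfl⟩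
  have hK0 : 0 ≤ K := by
    rw [hK]
    positivity
  refine ⟨max 1 ⌈K ^ 20000⌉₊, le_max_left _ _, ?_⟩
  intro X Q hX hQ1 hQ2
  have hX1 : (1 : ℝ) ≤ (X : ℝ) := by exact_mod_cast (le_max_left _ _).trans hX
  have hXK : K ^ 20000 ≤ (X : ℝ) :=
    (Nat.le_ceil _).trans (by exact_mod_cast (le_max_right _ _).trans hX)
  have hx0 : (0 : ℝ) < X := by linarith
  have hmono : ∀ a b : ℝ, a ≤ b → (X : ℝ) ^ a ≤ (X : ℝ) ^ b := fun a b h =>
    Real.rpow_le_rpow_of_exponent_le hX1 h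
  have hKx : K ≤ (X : ℝ) ^ ((1 : ℝ) / 20000) := by
    have h1 : (K ^ 20000) ^ ((1 : ℝ) / 20000) = K := by
      have h2 := Real.pow_rpow_inv_natCast hK0 (n := 20000) (by norm_num)
      rw [one_div]
      exact_mod_cast h2
    rw [← h1]
    exact Real.rpow_le_rpow (by positivity) hXK (by norm_num)
  have hQ0 : 1 ≤ Q := (Real.one_le_rpow hX1 (by norm_num)).trans hQ1
  have hQX : Q ≤ X := by
    refine hQ2.trans ?_
    calc (X : ℝ) ^ ((5011 : ℝ) / 10000) ≤ (X : ℝ) ^ (1 : ℝ) := hmono _ _ (by norm_num)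
      _ = X := Real.rpow_one _
  obtain ⟨hR0, hR1, hR2⟩ := Ofn_floor (y := (X : ℝ) ^ ((4985 : ℝ) / 10000))
    (Real.one_le_rpow hX1 (by norm_num))
  obtain ⟨hH0, hH1, hH2⟩ := Ofn_floor (y := (X : ℝ) ^ ((1 : ℝ) / 500))
    (Real.one_le_rpow hX1 (by norm_num))
  refine ⟨hQ0, hQX, hR0, hR1.trans ((hmono _ _ (by norm_num)).trans hQ1), ?_⟩
  have hy0 : 0 ≤ Q ^ 4 * (X : ℝ) ^ (-(3999 : ℝ) / 2000) := by positivity
  refine ⟨⌊(X : ℝ) ^ ((1 : ℝ) / 500)⌋₊, ⌊Q ^ 4 * (X : ℝ) ^ (-(3999 : ℝ) / 2000)⌋₊ + 1, hH0,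
    Nat.le_add_left _ _, hH1.trans ((hmono _ _ (by norm_num)).trans hQ1), ?_⟩
  refine Ofn_main C1 C2 X Q _ _ _ hC1 hC2 hX1 (by rw [← hK]; exact hKx) hQ1 hQ2 hR1 hR2 hH2 ?_ ?_ ?_
  · push_cast
    exact (Nat.lt_floor_add_one _).le
  · push_cast
    have := Nat.floor_le hy0
    linarith
  · push_cast
    have : (0 : ℝ) ≤ (⌊Q ^ 4 * (X : ℝ) ^ (-(3999 : ℝ) / 2000)⌋₊ : ℝ) := Nat.cast_nonneg _
    linarith

end Pool.Agent.Lib.KF
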