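import Pool.Agent.Lib.KF.SpecB

/-!
MP_00e23e_nt, directory Lib/KF: primes of (L, 2L] dividing N.
-/

namespace Pool.Agent.Lib.KF

open Finset Pool.Agent.Lib.EH3

theorem tPdl : PdlStmt := by
  intro L N j hL hN hj
  have h1 : ∏ l ∈ (prl L).filter (fun l => l ∣ N), l ∣ N := by
    refine Finset.prod_primes_dvd N (fun l hl => ?_) (fun l hl => ?_)
    · exact (mem_prl.1 (Finset.mem_filter.1 hl).1).2.2.prime
    · exact (Finset.mem_filter.1 hl).2
  have h2 : L ^ ((prl L).filter (fun l => l ∣ N)).card ≤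
      ∏ l ∈ (prl L).filter (fun l => l ∣ N), l := by
    rw [← Finset.prod_const]
    refine Finset.prod_le_prod (fun _ _ => Nat.zero_le _) (fun l hl => ?_)
    exact (mem_prl.1 (Finset.mem_filter.1 hl).1).1.le
  have h3 := (h2.trans (Nat.le_of_dvd hN h1)).trans hj
  exact (Nat.pow_le_pow_iff_right (by omega)).1 h3

end Pool.Agent.Lib.KF
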