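import Pool.Agent.Lib.KF.SpecK

namespace Pool.Agent.Lib.KF

open Finset Pool.Agent.Lib.EH3

private lemma Per_T_iff (P N r t : ℕ) (hP : 1 ≤ P) (hr : r < P) :
    t < (N + P - 1 - r) / P ↔ r + P * t < N := by
  have h1 : t < (N + P - 1 - r) / P ↔ t + 1 ≤ (N + P - 1 - r) / P := Iff.rfl
  rw [h1, Nat.le_div_iff_mul_le hP]
  have h2 : (t + 1) * P = P * t + P := by ring
  rw [h2]
  generalize P * t = u
  omega

private lemma Per_split (P N : ℕ) (hP : 1 ≤ P) (f : ℕ → ℂ) :
    ∑ m ∈ range N, f m =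
      ∑ r ∈ range P, ∑ t ∈ range ((N + P - 1 - r) / P), f (r + P * t) := by
  rw [Finset.sum_sigma']
  refine Finset.sum_nbij' (fun m => (⟨m % P, m / P⟩ : Σ _ : ℕ, ℕ)) (fun x => x.1 + P * x.2)
    ?_ ?_ ?_ ?_ ?_
  · intro m hm
    have hm' := Finset.mem_range.mp hm
    have h1 : m % P < P := Nat.mod_lt _ hP
    rw [Finset.mem_sigma]
    refine ⟨Finset.mem_range.mpr h1, Finset.mem_range.mpr ?_⟩
    show m / P < (N + P - 1 - m % P) / P
    rw [Per_T_iff P N (m % P) (m / P) hP h1, Nat.mod_add_div]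
    exact hm'
  · rintro ⟨r, t⟩ hx
    rw [Finset.mem_sigma] at hx
    have h1 : r < P := Finset.mem_range.mp hx.1
    have h2 : t < (N + P - 1 - r) / P := Finset.mem_range.mp hx.2
    rw [Per_T_iff P N r t hP h1] at h2
    exact Finset.mem_range.mpr h2
  · intro m _
    exact Nat.mod_add_div m P
  · rintro ⟨r, t⟩ hx
    rw [Finset.mem_sigma] at hx
    have h1 : r < P := Finset.mem_range.mp hx.1
    have h3 : (r + P * t) % P = r := by
      rw [Nat.add_mul_mod_self_left, Nat.mod_eq_of_lt h1]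
    have h4 : (r + P * t) / P = t := by
      rw [Nat.add_mul_div_left _ _ hP, Nat.div_eq_of_lt h1, zero_add]
    show (⟨(r + P * t) % P, (r + P * t) / P⟩ : Σ _ : ℕ, ℕ) = ⟨r, t⟩
    rw [h3, h4]
  · intro m _
    show f m = f (m % P + P * (m / P))
    rw [Nat.mod_add_div]

private lemma Per_parts (w a : ℕ → ℂ) (T : ℕ) (M : ℝ)
    (hM : ∀ s, s ≤ T → ‖∑ t ∈ range s, a t‖ ≤ M) :
    ‖∑ t ∈ range T, w t * a t‖ ≤
      M * (‖w (T - 1)‖ + ∑ t ∈ range (T - 1), ‖w (t + 1) - w t‖) := by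
  have h := Finset.sum_range_by_parts w a T
  simp only [smul_eq_mul] at h
  rw [h]
  have h1 : ‖w (T - 1) * ∑ i ∈ range T, a i‖ ≤ M * ‖w (T - 1)‖ := by
    rw [norm_mul, mul_comm]
    exact mul_le_mul_of_nonneg_right (hM T le_rfl) (norm_nonneg _)
  have h2 : ‖∑ i ∈ range (T - 1), (w (i + 1) - w i) * ∑ j ∈ range (i + 1), a j‖ ≤
      M * ∑ t ∈ range (T - 1), ‖w (t + 1) - w t‖ := by
    rw [Finset.mul_sum]
    refine (norm_sum_le _ _).trans (Finset.sum_le_sum ?_)
    intro i hi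
    have hi' := Finset.mem_range.mp hi
    rw [norm_mul, mul_comm]
    exact mul_le_mul_of_nonneg_right (hM (i + 1) (by omega)) (norm_nonneg _)
  calc _ ≤ ‖w (T - 1) * ∑ i ∈ range T, a i‖ +
        ‖∑ i ∈ range (T - 1), (w (i + 1) - w i) * ∑ j ∈ range (i + 1), a j‖ := norm_sub_le _ _
    _ ≤ _ := by
      rw [mul_add]
      exact add_le_add h1 h2

private lemma Per_step (W : ℕ → ℂ) (n P : ℕ) :
    ‖W (n + P) - W n‖ ≤ ∑ j ∈ range P, ‖W (n + j + 1) - W (n + j)‖ := by
  have h := Finset.sum_range_sub (fun j => W (n + j)) P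
  simp only [Nat.add_zero] at h
  rw [← h]
  exact norm_sum_le _ _

private lemma Per_block (W : ℕ → ℂ) (r P T : ℕ) :
    ∑ t ∈ range T, ‖W (r + P * (t + 1)) - W (r + P * t)‖ ≤
      ∑ m ∈ range (r + P * T), ‖W (m + 1) - W m‖ := by
  induction T with
  | zero =>
    rw [Finset.sum_range_zero]
    exact Finset.sum_nonneg fun _ _ => norm_nonneg _
  | succ T ih =>
    rw [Finset.sum_range_succ]
    have h1 : r + P * (T + 1) = (r + P * T) + P := by ring
    have h2 := Finset.sum_range_add (fun m => ‖W (m + 1) - W m‖) (r + P * T) P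
    rw [h1, h2]
    exact add_le_add ih (Per_step W (r + P * T) P)

private lemma Per_val (W : ℕ → ℂ) (V : ℝ) (h : varB W V) (n : ℕ) : ‖W n‖ ≤ V := by
  refine le_trans ?_ (h n)
  have h1 := Per_step W 0 n
  simp only [Nat.zero_add] at h1
  calc ‖W n‖ = ‖W 0 + (W n - W 0)‖ := by rw [add_sub_cancel]
    _ ≤ ‖W 0‖ + ‖W n - W 0‖ := norm_add_le _ _
    _ ≤ _ := by
      have h2 := add_le_add_right h1 ‖W 0‖
      linarith

private lemma Per_var (W : ℕ → ℂ) (V : ℝ) (h : varB W V) (n : ℕ) :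
    ∑ m ∈ range n, ‖W (m + 1) - W m‖ ≤ V := by
  have := h n
  have h0 := norm_nonneg (W 0)
  linarith

theorem tPer (h1 : IncStmt) : PerStmt := by
  intro q _ c P N κ W V hP hPq hκ hκ1 hW
  have hq : 1 ≤ q := Nat.one_le_iff_ne_zero.mpr (NeZero.ne q)
  have hqR : (1 : ℝ) ≤ (q : ℝ) := by exact_mod_cast hq
  have hlog : 0 ≤ Real.log q := Real.log_nonneg hqR
  have hPR : (1 : ℝ) ≤ (P : ℝ) := by exact_mod_cast hP
  have hV : 0 ≤ V := (norm_nonneg _).trans (Per_val W V hW 0)
  set X : ℝ := (2 * (tau q) ^ 2 * (Nat.gcd c.val q : ℝ) * (q : ℝ) ^ 3) ^ ((1 : ℝ) / 4) with hX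
  have hX0 : 0 ≤ X := by
    rw [hX]
    exact Real.rpow_nonneg (by positivity) _
  have hper : ∀ r t, κ (r + P * t) = κ r := by
    intro r t
    induction t with
    | zero => rw [Nat.mul_zero, Nat.add_zero]
    | succ t ih =>
      have : r + P * (t + 1) = r + P * t + P := by ring
      rw [this, hκ, ih]
  rw [Per_split P N hP]
  have hcl : ∀ r ∈ range P,
      ‖∑ t ∈ range ((N + P - 1 - r) / P), κ (r + P * t) * W (r + P * t) *
        ei q c ((r + P * t : ℕ) : ZMod q)‖ ≤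
      2 * V * (((N : ℝ) / P + 1) / q + 1 + Real.log q) * X := by
    intro r hr
    have hr' := Finset.mem_range.mp hr
    set T := (N + P - 1 - r) / P with hT
    have hTN : (T : ℝ) ≤ (N : ℝ) / P + 1 := by
      have h2 : T * P ≤ N + P - 1 - r := Nat.div_mul_le_self _ _
      have h3 : T * P ≤ N + P := by omega
      have h4 : (T : ℝ) * P ≤ N + P := by exact_mod_cast h3
      have h5 : (N : ℝ) / P + 1 = (N + P) / P := by
        field_simp
      rw [h5, le_div_iff₀ (by linarith)]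
      exact h4
    have e1 : ∑ t ∈ range T, κ (r + P * t) * W (r + P * t) *
        ei q c ((r + P * t : ℕ) : ZMod q) =
        κ r * ∑ t ∈ range T, W (r + P * t) * ei q c ((r + P * t : ℕ) : ZMod q) := by
      rw [Finset.mul_sum]
      refine Finset.sum_congr rfl fun t _ => ?_
      rw [hper, mul_assoc]
    rw [e1, norm_mul]
    have hM : ∀ s, s ≤ T → ‖∑ t ∈ range s, ei q c ((r + P * t : ℕ) : ZMod q)‖ ≤
        (((N : ℝ) / P + 1) / q + 1 + Real.log q) * X := by
      intro s hs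
      refine (h1 q c P r s hPq).trans ?_
      refine mul_le_mul_of_nonneg_right ?_ hX0
      have hsT : (s : ℝ) ≤ (N : ℝ) / P + 1 := le_trans (by exact_mod_cast hs) hTN
      have : (s : ℝ) / q ≤ ((N : ℝ) / P + 1) / q := by
        exact div_le_div_of_nonneg_right hsT (by linarith)
      linarith
    have hp := Per_parts (fun t => W (r + P * t)) (fun t => ei q c ((r + P * t : ℕ) : ZMod q)) T _ hM
    have hp1 : ‖W (r + P * (T - 1))‖ ≤ V := Per_val W V hW _
    have hp2 : ∑ t ∈ range (T - 1), ‖W (r + P * (t + 1)) - W (r + P * t)‖ ≤ V :=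
      (Per_block W r P (T - 1)).trans (Per_var W V hW _)
    have hM0 : 0 ≤ (((N : ℝ) / P + 1) / q + 1 + Real.log q) * X := by
      refine mul_nonneg ?_ hX0
      have : 0 ≤ ((N : ℝ) / P + 1) / q := by positivity
      linarith
    calc ‖κ r‖ * ‖∑ t ∈ range T, W (r + P * t) * ei q c ((r + P * t : ℕ) : ZMod q)‖
        ≤ 1 * ((((N : ℝ) / P + 1) / q + 1 + Real.log q) * X *
          (‖W (r + P * (T - 1))‖ + ∑ t ∈ range (T - 1), ‖W (r + P * (t + 1)) - W (r + P * t)‖)) :=
          mul_le_mul (hκ1 r) hp (norm_nonneg _) zero_le_one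
      _ ≤ 1 * ((((N : ℝ) / P + 1) / q + 1 + Real.log q) * X * (V + V)) := by
          rw [one_mul, one_mul]
          exact mul_le_mul_of_nonneg_left (add_le_add hp1 hp2) hM0
      _ = _ := by ring
  calc _ ≤ ∑ r ∈ range P, ‖∑ t ∈ range ((N + P - 1 - r) / P), κ (r + P * t) * W (r + P * t) *
        ei q c ((r + P * t : ℕ) : ZMod q)‖ := norm_sum_le _ _
    _ ≤ ∑ _r ∈ range P, 2 * V * (((N : ℝ) / P + 1) / q + 1 + Real.log q) * X :=
        Finset.sum_le_sum hcl
    _ = P * (2 * V * (((N : ℝ) / P + 1) / q + 1 + Real.log q) * X) := by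
        rw [Finset.sum_const, Finset.card_range, nsmul_eq_mul]
    _ = 2 * V * ((N : ℝ) / q + P * (1 / q + 1 + Real.log q)) * X := by
        field_simp
        ring
    _ ≤ _ := by
        refine mul_le_mul_of_nonneg_right ?_ hX0
        refine mul_le_mul_of_nonneg_left ?_ (by linarith)
        have h5 : 1 / (q : ℝ) ≤ 1 := by
          rw [div_le_one (by linarith)]
          exact hqR
        have h6 : (P : ℝ) * (1 / q + 1 + Real.log q) ≤ P * (2 + Real.log q) := by
          refine mul_le_mul_of_nonneg_left ?_ (by linarith)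
          linarith
        linarith

end Pool.Agent.Lib.KF
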