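import Pool.Agent.Lib.KF.SpecK

/-! MP_00e23e_nt, part K, module Phs. -/

namespace Pool.Agent.Lib.KF

open Finset Pool.Agent.Lib.EH3

private lemma Phs_conj {z w e : ℂ} (h : z * w = e) (hw : ‖w‖ = 1) : z = e * (starRingEnd ℂ) w := by
  have h1 : w * (starRingEnd ℂ) w = 1 := by
    rw [Complex.mul_conj, Complex.normSq_eq_norm_sq, hw]
    norm_num
  rw [← h, mul_assoc, h1, mul_one]

private lemma Phs_inv {q : ℕ} {N L A K M L2 c x y z : ZMod q} (h1 : K * N = -(L2 * M))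
    (hx : N * A * x = 1) (hy : L * y = 1) (hz : M * z = 1) (hL : L = A * L2) :
    c * x = -(c * K * y * z) := by
  have e1 : N * A * (-(K * y * z)) = 1 := by
    calc N * A * (-(K * y * z)) = -(K * N) * (A * (y * z)) := by ring
      _ = (A * L2 * y) * (M * z) := by rw [h1]; ring
      _ = 1 := by rw [← hL, hy, hz, one_mul]
  have e2 : x = -(K * y * z) := by
    calc x = x * (N * A * (-(K * y * z))) := by rw [e1, mul_one]
      _ = (N * A * x) * (-(K * y * z)) := by ring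
      _ = _ := by rw [hx, one_mul]
  rw [e2]
  ring

/-- Module Phs. -/
theorem tPhs (h1 : EmStmt) (h2 : RcpStmt) (h3 : CrsStmt) : PhsStmt := by
  intro l1 l2 g mo m2 n k c hl1 hl2 hg hmo hn hk hcop
  obtain ⟨m1, m2', m3, m4, m5, m6, m7, m8, m9⟩ := h1
  -- coprimality facts
  have hc1 : mo.Coprime l2 := Nat.Coprime.coprime_dvd_right ⟨k.natAbs * l1 * g, by ring⟩ hcop
  have hc2 : mo.Coprime k.natAbs := Nat.Coprime.coprime_dvd_right ⟨l1 * l2 * g, by ring⟩ hcop
  have hc3 : mo.Coprime (l1 * g) := Nat.Coprime.coprime_dvd_right ⟨k.natAbs * l2, by ring⟩ hcop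
  have hc4 : mo.Coprime (l1 * l2 * g) := Nat.Coprime.coprime_dvd_right ⟨k.natAbs, by ring⟩ hcop
  have hc5 : n.Coprime mo ↔ m2.Coprime mo := by
    have hdvd : ∀ p : ℕ, p.Prime → p ∣ mo → (p ∣ n ↔ p ∣ m2) := by
      intro p hp hpmo
      have hpk : ¬ (p : ℤ) ∣ k := by
        intro h
        have e1 : p ∣ k.natAbs := Int.natCast_dvd.1 h
        exact hp.one_lt.ne' (Nat.eq_one_of_dvd_coprimes hc2 hpmo e1)
      have hpl : ¬ p ∣ l2 := by
        intro h
        exact hp.one_lt.ne' (Nat.eq_one_of_dvd_coprimes hc1 hpmo h)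
      have hpmo' : (p : ℤ) ∣ (mo : ℤ) := Int.natCast_dvd_natCast.2 hpmo
      have hpp : Prime (p : ℤ) := Nat.prime_iff_prime_int.1 hp
      constructor
      · intro h
        have e1 : (p : ℤ) ∣ k * n := Dvd.dvd.mul_left (Int.natCast_dvd_natCast.2 h) _
        have e2 : (p : ℤ) ∣ (l1 : ℤ) * (g * mo) := Dvd.dvd.mul_left (Dvd.dvd.mul_left hpmo' _) _
        have e3 : (p : ℤ) ∣ (l2 : ℤ) * m2 := by
          have := dvd_sub e2 e1
          rw [hk] at this
          rwa [sub_sub_cancel] at this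
        rcases hpp.dvd_or_dvd e3 with h' | h'
        · exact absurd (Int.natCast_dvd_natCast.1 h') hpl
        · exact Int.natCast_dvd_natCast.1 h'
      · intro h
        have e2 : (p : ℤ) ∣ (l1 : ℤ) * (g * mo) := Dvd.dvd.mul_left (Dvd.dvd.mul_left hpmo' _) _
        have e3 : (p : ℤ) ∣ (l2 : ℤ) * m2 := Dvd.dvd.mul_left (Int.natCast_dvd_natCast.2 h) _
        have e1 : (p : ℤ) ∣ k * n := by
          rw [hk]
          exact dvd_sub e2 e3
        rcases hpp.dvd_or_dvd e1 with h' | h'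
        · exact absurd h' hpk
        · exact Int.natCast_dvd_natCast.1 h'
    constructor
    · intro h
      refine Nat.coprime_of_dvd fun p hp h1 h2 => ?_
      exact hp.one_lt.ne' (Nat.eq_one_of_dvd_coprimes h ((hdvd p hp h2).2 h1) h2)
    · intro h
      refine Nat.coprime_of_dvd fun p hp h1 h2 => ?_
      exact hp.one_lt.ne' (Nat.eq_one_of_dvd_coprimes h ((hdvd p hp h2).1 h1) h2)
  by_cases hA : n.Coprime (l1 * g)
  swap
  · rw [if_neg hA, zero_mul, zero_mul]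
    unfold ei
    rw [if_neg]
    intro h
    rw [ZMod.isUnit_iff_coprime] at h
    exact hA (Nat.Coprime.coprime_dvd_right ⟨mo, by ring⟩ h.symm)
  rw [if_pos hA]
  by_cases hB : n.Coprime mo
  swap
  · have e1 : ei mo (((c * k : ℤ) : ZMod mo) * (((l1 * l2 * g : ℕ) : ZMod mo))⁻¹) (m2 : ZMod mo) = 0 := by
      unfold ei
      rw [if_neg]
      intro h
      rw [ZMod.isUnit_iff_coprime] at h
      exact hB (hc5.2 h)
    rw [e1, mul_zero, zero_mul]
    unfold ei
    rw [if_neg]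
    intro h
    rw [ZMod.isUnit_iff_coprime] at h
    exact hB (Nat.Coprime.coprime_dvd_right ⟨l1 * g, by ring⟩ h.symm)
  have hm2 : m2.Coprime mo := hc5.1 hB
  have hunit : (l1 * (g * mo)).Coprime n := by
    rw [← mul_assoc]
    exact (Nat.Coprime.mul_right hA hB).symm
  have eL : ei n (c : ZMod n) ((l1 * (g * mo) : ℕ) : ZMod n) =
      em n ((c : ZMod n) * (((l1 * (g * mo) : ℕ) : ZMod n))⁻¹) := by
    unfold ei
    rw [if_pos ((ZMod.isUnit_iff_coprime _ _).2 hunit)]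
  have eR : ei mo (((c * k : ℤ) : ZMod mo) * (((l1 * l2 * g : ℕ) : ZMod mo))⁻¹) (m2 : ZMod mo) =
      em mo (((c * k : ℤ) : ZMod mo) * (((l1 * l2 * g : ℕ) : ZMod mo))⁻¹ * (m2 : ZMod mo)⁻¹) := by
    unfold ei
    rw [if_pos ((ZMod.isUnit_iff_coprime _ _).2 hm2)]
  rw [eL, eR]
  have r1 := h2 (l1 * (g * mo)) n c (by
    have : 0 < l1 * (g * mo) := by positivity
    exact this) hn hunit
  have r2 := Phs_conj r1 (m3 _ _)
  rw [r2]
  have key : ∀ a : ℕ, a = l1 * g * mo → em a ((c : ZMod a) * ((n : ZMod a))⁻¹) =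
      em (l1 * g) ((c : ZMod (l1 * g)) * ((n : ZMod (l1 * g)) * (mo : ZMod (l1 * g)))⁻¹) *
        em mo ((c : ZMod mo) * ((n : ZMod mo) * ((l1 * g : ℕ) : ZMod mo))⁻¹) := by
    intro a ha
    subst ha
    have r3 := h3 (l1 * g) mo c n (by
      have : 0 < l1 * g := by positivity
      exact this) hmo hc3.symm (by
        rw [Nat.isCoprime_iff_coprime]
        exact Nat.Coprime.mul_right hA hB)
    rw [Int.cast_natCast, Int.cast_natCast, Int.cast_natCast] at r3
    exact r3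
  rw [key (l1 * (g * mo)) (by ring)]
  have e1 : (c : ZMod mo) * ((n : ZMod mo) * ((l1 * g : ℕ) : ZMod mo))⁻¹ =
      -(((c * k : ℤ) : ZMod mo) * (((l1 * l2 * g : ℕ) : ZMod mo))⁻¹ * (m2 : ZMod mo)⁻¹) := by
    have hx : (n : ZMod mo) * ((l1 * g : ℕ) : ZMod mo) * ((n : ZMod mo) * ((l1 * g : ℕ) : ZMod mo))⁻¹ = 1 := by
      refine m7 mo _ ?_
      exact ((ZMod.isUnit_iff_coprime _ _).2 hB).mul ((ZMod.isUnit_iff_coprime _ _).2 hc3.symm)
    have hy : ((l1 * l2 * g : ℕ) : ZMod mo) * (((l1 * l2 * g : ℕ) : ZMod mo))⁻¹ = 1 :=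
      m7 mo _ ((ZMod.isUnit_iff_coprime _ _).2 hc4.symm)
    have hz : (m2 : ZMod mo) * (m2 : ZMod mo)⁻¹ = 1 :=
      m7 mo _ ((ZMod.isUnit_iff_coprime _ _).2 hm2)
    have hkn : (k : ZMod mo) * (n : ZMod mo) = -((l2 : ZMod mo) * (m2 : ZMod mo)) := by
      have e2 := congrArg (fun z : ℤ => (z : ZMod mo)) hk
      push_cast at e2
      rw [ZMod.natCast_self, mul_zero, mul_zero, zero_sub] at e2
      exact e2
    have e3 := Phs_inv (c := (c : ZMod mo)) hkn hx hy hz (by push_cast; ring)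
    rw [e3, Int.cast_mul]
  rw [e1, m4 mo _ hmo, map_mul, Complex.conj_conj]
  have e4 : ((l1 * (g * mo) : ℕ) : ℝ) = (l1 : ℝ) * (g * mo) := by push_cast; ring
  rw [e4]
  ring

end Pool.Agent.Lib.KF
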