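import Pool.Agent.Lib.KF.SpecB

/-!
Many primes in (L, 2L].
-/

namespace Pool.Agent.Lib.KF

open Finset Pool.Agent.Lib.EH3

private lemma Prl_int (a b : ℝ) (ha : 2 ≤ a) (hb : 2 ≤ b) :
    IntervalIntegrable (fun t : ℝ => (Real.log t)⁻¹) MeasureTheory.volume a b := by
  refine ContinuousOn.intervalIntegrable fun t ht => ?_
  have h1 : 2 ≤ t := by
    rcases Set.mem_uIcc.1 ht with h | h
    · linarith [h.1]
    · linarith [h.1]
  have h2 : Real.log t ≠ 0 := (Real.log_pos (by linarith)).ne'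
  exact ((Real.continuousAt_log (by linarith)).inv₀ h2).continuousWithinAt

private lemma Prl_li (L : ℝ) (hL : 2 ≤ L) :
    L * (Real.log (2 * L))⁻¹ ≤ Pool.Agent.Results.MP_00e23e_nt.li (2 * L) - Pool.Agent.Results.MP_00e23e_nt.li L := by
  unfold Pool.Agent.Results.MP_00e23e_nt.li
  rw [intervalIntegral.integral_interval_sub_left (Prl_int 2 (2 * L) le_rfl (by linarith))
    (Prl_int 2 L le_rfl hL)]
  have h := intervalIntegral.integral_mono_on (a := L) (b := 2 * L) (by linarith)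
    (f := fun _ : ℝ => (Real.log (2 * L))⁻¹) intervalIntegrable_const
    (Prl_int L (2 * L) hL (by linarith)) (fun t ht => by
      have h1 : 0 < Real.log t := Real.log_pos (by linarith [ht.1])
      exact inv_anti₀ h1 (Real.log_le_log (by linarith [ht.1]) ht.2))
  rw [intervalIntegral.integral_const, smul_eq_mul, show 2 * L - L = L by ring] at h
  exact h

private lemma Prl_card (L : ℕ) :
    Pool.Agent.Lib.BV.npr (2 * (L : ℝ)) = Pool.Agent.Lib.BV.npr (L : ℝ) + ((prl L).card : ℝ) := by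
  unfold Pool.Agent.Lib.BV.npr prl
  have h1 : ⌊(2 * (L : ℝ))⌋₊ = 2 * L := by
    have : (2 * (L : ℝ)) = ((2 * L : ℕ) : ℝ) := by push_cast; ring
    rw [this, Nat.floor_natCast]
  rw [h1, Nat.floor_natCast]
  have h2 : (Icc 1 (2 * L)).filter Nat.Prime =
      (Icc 1 L).filter Nat.Prime ∪ (Ioc L (2 * L)).filter Nat.Prime := by
    ext p
    simp only [mem_filter, mem_Icc, mem_union, mem_Ioc]
    constructor
    · rintro ⟨⟨h1, h2⟩, h3⟩
      rcases Nat.lt_or_ge L p with h | h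
      · exact Or.inr ⟨⟨h, h2⟩, h3⟩
      · exact Or.inl ⟨⟨h1, h⟩, h3⟩
    · rintro (⟨⟨h1, h2⟩, h3⟩ | ⟨⟨h1, h2⟩, h3⟩)
      · exact ⟨⟨h1, by omega⟩, h3⟩
      · exact ⟨⟨h3.one_lt.le, h2⟩, h3⟩
  rw [h2, card_union_of_disjoint, Nat.cast_add]
  rw [disjoint_left]
  intro p hp hp'
  rw [mem_filter, mem_Icc] at hp
  rw [mem_filter, mem_Ioc] at hp'
  omega

theorem tPrl (h1 : Pool.Agent.Lib.BV.PntStmt) : PrlStmt := by
  obtain ⟨C, hC, hP⟩ := h1 2 (by norm_num)
  refine ⟨max 5 ⌈Real.exp (12 * C + 1)⌉₊, le_max_left _ _, fun L hL => ?_⟩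
  have hL5 : 5 ≤ L := (le_max_left _ _).trans hL
  have hL5' : (5 : ℝ) ≤ L := by exact_mod_cast hL5
  have hLe : Real.exp (12 * C + 1) ≤ L :=
    (Nat.le_ceil _).trans (by exact_mod_cast (le_max_right _ _).trans hL)
  have hl : 12 * C + 1 ≤ Real.log L := by
    rw [Real.le_log_iff_exp_le (by linarith)]
    exact hLe
  set l := Real.log L with hldef
  have hl0 : 1 ≤ l := by linarith
  have hlog2 : Real.log (2 * (L : ℝ)) ≤ 2 * l := by
    rw [Real.log_mul (by norm_num) (by linarith)]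
    have := Real.log_two_lt_d9
    linarith
  have hlog2' : l ≤ Real.log (2 * (L : ℝ)) := Real.log_le_log (by linarith) (by linarith)
  have a1 := hP (2 * (L : ℝ)) (by linarith)
  have a2 := hP (L : ℝ) (by linarith)
  rw [Real.rpow_two] at a1 a2
  have a3 := Prl_li (L : ℝ) (by linarith)
  have a4 := Prl_card L
  have b1 := (abs_le.1 a1).1
  have b2 := (abs_le.1 a2).2
  have b3 : C * (2 * (L : ℝ) / Real.log (2 * (L : ℝ)) ^ 2) ≤ 2 * C * ((L : ℝ) / l ^ 2) := by
    have : (L : ℝ) / Real.log (2 * (L : ℝ)) ^ 2 ≤ (L : ℝ) / l ^ 2 := by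
      refine div_le_div_of_nonneg_left (by linarith) (by positivity) ?_
      exact pow_le_pow_left₀ (by linarith) hlog2' 2
    calc C * (2 * (L : ℝ) / Real.log (2 * (L : ℝ)) ^ 2) =
        2 * C * ((L : ℝ) / Real.log (2 * (L : ℝ)) ^ 2) := by ring
      _ ≤ 2 * C * ((L : ℝ) / l ^ 2) := mul_le_mul_of_nonneg_left this (by positivity)
  have b4 : (L : ℝ) / (2 * l) ≤ L * (Real.log (2 * (L : ℝ)))⁻¹ := by
    rw [div_eq_mul_inv]
    refine mul_le_mul_of_nonneg_left ?_ (by linarith)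
    exact inv_anti₀ (by linarith) hlog2
  have b5 : (L : ℝ) / (2 * l) - 3 * C * ((L : ℝ) / l ^ 2) ≤ ((prl L).card : ℝ) := by
    have : C * ((L : ℝ) / l ^ 2) + 2 * C * ((L : ℝ) / l ^ 2) = 3 * C * ((L : ℝ) / l ^ 2) := by ring
    linarith
  have b6 : 4 * l * ((L : ℝ) / (2 * l) - 3 * C * ((L : ℝ) / l ^ 2)) ≤
      4 * l * ((prl L).card : ℝ) := mul_le_mul_of_nonneg_left b5 (by linarith)
  have b7 : 4 * l * ((L : ℝ) / (2 * l) - 3 * C * ((L : ℝ) / l ^ 2)) =
      2 * L - 12 * C * L / l := by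
    field_simp
    ring
  have b8 : 12 * C * (L : ℝ) / l ≤ L := by
    rw [div_le_iff₀ (by linarith)]
    nlinarith
  linarith

end Pool.Agent.Lib.KF
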