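import Pool.Agent.Lib.KF.SpecB

/-!
MP_00e23e_nt, Lib/KF, part B, module Prs: one pair of triples and one m1.
-/

namespace Pool.Agent.Lib.KF

open Finset Pool.Agent.Lib.EH3

private lemma Prs_two : (2 : ℝ) ^ ((1 : ℝ) / 4) ≤ 1.2 := by
  have h1 : (2 : ℝ) ^ ((1 : ℝ) / 4) ≤ ((1.2 : ℝ) ^ (4 : ℕ)) ^ ((1 : ℝ) / 4) :=
    Real.rpow_le_rpow (by norm_num) (by norm_num) (by norm_num)
  have h2 : ((1.2 : ℝ) ^ (4 : ℕ)) ^ ((1 : ℝ) / 4) = 1.2 := by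
    rw [← Real.rpow_natCast, ← Real.rpow_mul (by norm_num)]
    norm_num
  rw [h2] at h1
  exact h1

/-- the phase constants -/
private lemma Prs_kap (Q : ℝ) (L l1 l2 m1 : ℕ) (θ : ℤ) (hQ : 1 ≤ Q) (h1 : l1 ∈ prl L)
    (h2 : l2 ∈ prl L) (hm : Q < (m1 : ℝ)) :
    |(θ : ℝ) * ((l1 : ℝ) - l2) / ((l1 : ℝ) * m1)| ≤ |(θ : ℝ)| / Q := by
  rw [mem_prl] at h1 h2
  have hl1 : (L : ℝ) < l1 := by exact_mod_cast h1.1
  have hl1' : (l1 : ℝ) ≤ 2 * L := by exact_mod_cast h1.2.1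
  have hl2 : (L : ℝ) < l2 := by exact_mod_cast h2.1
  have hl2' : (l2 : ℝ) ≤ 2 * L := by exact_mod_cast h2.2.1
  have hL : (0 : ℝ) ≤ L := by positivity
  have hd : |(l1 : ℝ) - l2| ≤ l1 := by
    rw [abs_le]
    constructor <;> linarith
  have hl0 : (0 : ℝ) < l1 := by linarith
  have hm0 : (0 : ℝ) < m1 := by linarith
  rw [abs_div, abs_mul, abs_of_pos (mul_pos hl0 hm0)]
  have hQ0 : 0 < Q := by linarith
  rw [div_le_div_iff₀ (mul_pos hl0 hm0) hQ0]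
  calc |(θ : ℝ)| * |(l1 : ℝ) - l2| * Q ≤ |(θ : ℝ)| * l1 * Q :=
        mul_le_mul_of_nonneg_right (mul_le_mul_of_nonneg_left hd (abs_nonneg _)) hQ0.le
    _ ≤ |(θ : ℝ)| * l1 * m1 :=
        mul_le_mul_of_nonneg_left hm.le (mul_nonneg (abs_nonneg _) hl0.le)
    _ = |(θ : ℝ)| * (l1 * m1) := by ring

private lemma Prs_V (Q a b T : ℝ) (hQ : 1 ≤ Q) (hT : 0 ≤ T) (ha : a ≤ T / Q) (hb : b ≤ T / Q) :
    13 * Q ^ 2 * (1 + (a + b) / Q) ≤ 26 * Q ^ 2 * (1 + T / Q ^ 2) := by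
  have hQ0 : 0 < Q := by linarith
  have h1 : (a + b) / Q ≤ 2 * (T / Q ^ 2) := by
    rw [div_le_iff₀ hQ0]
    calc a + b ≤ T / Q + T / Q := by linarith
      _ = 2 * (T / Q ^ 2) * Q := by field_simp; ring
  have h2 : 0 ≤ T / Q ^ 2 := by positivity
  have h3 : 0 ≤ Q ^ 2 := by positivity
  nlinarith

/-- the period -/
private lemma Prs_P (L l1 l2 g : ℕ) (k k' : ℤ) (h1 : l1 ∈ prl L) (h2 : l2 ∈ prl L)
    (hk : |k| ≤ 4 * (L : ℤ)) (hk' : |k'| ≤ 4 * (L : ℤ)) (hk0 : k ≠ 0) (hk0' : k' ≠ 0) :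
    g ≤ k.natAbs * k'.natAbs * (l1 * l2 * g) ∧
      ((k.natAbs * k'.natAbs * (l1 * l2 * g) : ℕ) : ℝ) ≤ 64 * (L : ℝ) ^ 4 * g := by
  rw [mem_prl] at h1 h2
  have a1 : 1 ≤ k.natAbs := Int.natAbs_pos.mpr hk0
  have a2 : 1 ≤ k'.natAbs := Int.natAbs_pos.mpr hk0'
  have b1 : k.natAbs ≤ 4 * L := by
    rw [Int.abs_eq_natAbs] at hk
    exact_mod_cast hk
  have b2 : k'.natAbs ≤ 4 * L := by
    rw [Int.abs_eq_natAbs] at hk'
    exact_mod_cast hk'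
  have c1 : 1 ≤ l1 := by omega
  have c2 : 1 ≤ l2 := by omega
  constructor
  · calc g = 1 * 1 * (1 * 1 * g) := by ring
      _ ≤ k.natAbs * k'.natAbs * (l1 * l2 * g) :=
        Nat.mul_le_mul (Nat.mul_le_mul a1 a2) (Nat.mul_le_mul_right _ (Nat.mul_le_mul c1 c2))
  · have : k.natAbs * k'.natAbs * (l1 * l2 * g) ≤ 64 * L ^ 4 * g := by
      calc k.natAbs * k'.natAbs * (l1 * l2 * g) ≤ (4 * L) * (4 * L) * ((2 * L) * (2 * L) * g) :=
            Nat.mul_le_mul (Nat.mul_le_mul b1 b2)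
              (Nat.mul_le_mul_right _ (Nat.mul_le_mul h1.2.1 h2.2.1))
        _ = 64 * L ^ 4 * g := by ring
    exact_mod_cast this

/-- the final inequality -/
private lemma Prs_num (Q V V' N mo P lm L4 g LQ R R' T : ℝ) (hV0 : 0 ≤ V)
    (hV : V ≤ 26 * Q ^ 2 * T) (hT : 0 ≤ T)
    (hNP : N / mo ≤ 3 * P) (hP0 : 0 ≤ P) (hP : P ≤ 64 * L4 * g) (hlm : lm ≤ LQ) (hLQ : 0 ≤ LQ)
    (hlm0 : 0 ≤ N / mo + P * (2 + lm))
    (hR0 : 0 ≤ R) (hR : R ≤ 1.2 * R') (hR'0 : 0 ≤ R') (hL4 : 0 ≤ L4) (hg : 0 ≤ g)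
    (hV' : V' = V) :
    2 * V' * (N / mo + P * (2 + lm)) * R ≤
      4000 * L4 * g * Q ^ 2 * T * (5 + LQ) * R' := by
  subst hV'
  have h1 : N / mo + P * (2 + lm) ≤ P * (5 + LQ) := by
    have : P * lm ≤ P * LQ := mul_le_mul_of_nonneg_left hlm hP0
    nlinarith
  have h2 : P * (5 + LQ) ≤ 64 * L4 * g * (5 + LQ) :=
    mul_le_mul_of_nonneg_right hP (by linarith)
  have h3 : 2 * V' * (N / mo + P * (2 + lm)) ≤
      2 * (26 * Q ^ 2 * T) * (64 * L4 * g * (5 + LQ)) :=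
    mul_le_mul (by linarith) (h1.trans h2) hlm0 (by positivity)
  calc 2 * V' * (N / mo + P * (2 + lm)) * R
      ≤ 2 * (26 * Q ^ 2 * T) * (64 * L4 * g * (5 + LQ)) * (1.2 * R') :=
        mul_le_mul h3 hR hR0 (by positivity)
    _ = 3993.6 * (L4 * g * Q ^ 2 * T * (5 + LQ) * R') := by ring
    _ ≤ 4000 * (L4 * g * Q ^ 2 * T * (5 + LQ) * R') :=
        mul_le_mul_of_nonneg_right (by norm_num) (by positivity)
    _ = _ := by ring

private lemma Prs_main (h1 : PerStmt) (h2 : WvbStmt) (h4 : PrtStmt) (Q : ℝ) (L : ℕ) (θ : ℤ)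
    (l1 l2 l1' l2' : ℕ) (k k' : ℤ) (g mo : ℕ) (hQ : 1 ≤ Q)
    (ht : (l1, l2, k) ∈ tup L) (hu : (l1', l2', k') ∈ tup L) (hm : g * mo ∈ dy Q)
    (hg : 1 ≤ g) (hmo : 1 ≤ mo) (hc : mo.Coprime (ss (l1, l2, k) (l1', l2', k') * g)) :
    ‖∑ m2 ∈ dy Q, TT Q θ (l1, l2, k) (g * mo) m2 *
        (starRingEnd ℂ) (TT Q θ (l1', l2', k') (g * mo) m2)‖ ≤
      4000 * (L : ℝ) ^ 4 * (g : ℝ) * Q ^ 2 * (1 + |(θ : ℝ)| / Q ^ 2) * (5 + Real.log (2 * Q)) *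
        ((tau (g * mo)) ^ 2 * (Nat.gcd (θ * DD (l1, l2, k) (l1', l2', k')).natAbs (g * mo) : ℝ) *
          (((g * mo : ℕ) : ℝ) / g) ^ 3) ^ ((1 : ℝ) / 4) := by
  have ht' := mem_tup.mp ht
  have hu' := mem_tup.mp hu
  simp only at ht' hu'
  have hm' := (mem_dy (by linarith)).mp hm
  have hl1 : 1 ≤ l1 := by have := (mem_prl.mp ht'.1).1; omega
  have hl2 : 1 ≤ l2 := by have := (mem_prl.mp ht'.2.1).1; omega
  have hl1' : 1 ≤ l1' := by have := (mem_prl.mp hu'.1).1; omega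
  have hl2' : 1 ≤ l2' := by have := (mem_prl.mp hu'.2.1).1; omega
  obtain ⟨κ, c, hper, hκ, hgcd, hf⟩ := h4 Q θ (l1, l2, k) (l1', l2', k') g mo hQ hl1 hl2
    ht'.2.2.2.2 hl1' hl2' hu'.2.2.2.2 hg hmo hc
  simp only at hper hf
  have : NeZero mo := ⟨by omega⟩
  -- the sum over range
  have hsum : ∑ m2 ∈ dy Q, TT Q θ (l1, l2, k) (g * mo) m2 *
        (starRingEnd ℂ) (TT Q θ (l1', l2', k') (g * mo) m2) =
      ∑ m ∈ range (⌊2 * Q⌋₊ + 1), κ m *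
        Wv Q ((l1 : ℝ) * (g * mo) / k) (-(l2 : ℝ) / k) ((l1' : ℝ) * (g * mo) / k')
          (-(l2' : ℝ) / k') (θ * ((l1 : ℝ) - l2) / (l1 * (g * mo)))
          (θ * ((l1' : ℝ) - l2') / (l1' * (g * mo))) m * ei mo c (m : ZMod mo) := by
    rw [sum_congr rfl hf]
    refine sum_subset ?_ ?_
    · intro m hm
      unfold dy at hm
      rw [mem_Ioc] at hm
      rw [mem_range]
      omega
    · intro m _ hm
      rw [mem_dy (by linarith)] at hm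
      have : Wv Q ((l1 : ℝ) * (g * mo) / k) (-(l2 : ℝ) / k) ((l1' : ℝ) * (g * mo) / k')
          (-(l2' : ℝ) / k') (θ * ((l1 : ℝ) - l2) / (l1 * (g * mo)))
          (θ * ((l1' : ℝ) - l2') / (l1' * (g * mo))) m = 0 := by
        unfold Wv
        rw [if_neg]
        intro h
        exact hm ⟨h.1, h.2.1⟩
      rw [this, mul_zero, zero_mul]
  rw [hsum]
  have hP := Prs_P L l1 l1' g k k' ht'.1 hu'.1 ht'.2.2.1 hu'.2.2.1 ht'.2.2.2.2 hu'.2.2.2.2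
  have hPc : (k.natAbs * k'.natAbs * (l1 * l1' * g)).Coprime mo := by
    refine (Nat.Coprime.coprime_dvd_right ?_ hc).symm
    unfold ss
    exact ⟨l2 * l2', by ring⟩
  have hP1 : 1 ≤ k.natAbs * k'.natAbs * (l1 * l1' * g) := hg.trans hP.1
  have hQ0 : 0 < Q := by linarith
  have hmain := h1 mo c (k.natAbs * k'.natAbs * (l1 * l1' * g)) (⌊2 * Q⌋₊ + 1) κ
    (Wv Q ((l1 : ℝ) * (g * mo) / k) (-(l2 : ℝ) / k) ((l1' : ℝ) * (g * mo) / k')
          (-(l2' : ℝ) / k') (θ * ((l1 : ℝ) - l2) / (l1 * (g * mo)))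
          (θ * ((l1' : ℝ) - l2') / (l1' * (g * mo)))) _ hP1 hPc hper hκ (h2 Q _ _ _ _ _ _ hQ)
  refine hmain.trans ?_
  have hk1 := Prs_kap Q L l1 l2 (g * mo) θ hQ ht'.1 ht'.2.1 hm'.1
  have hk2 := Prs_kap Q L l1' l2' (g * mo) θ hQ hu'.1 hu'.2.1 hm'.1
  push_cast at hk1 hk2
  have hV := Prs_V Q _ _ _ hQ (abs_nonneg (θ : ℝ)) hk1 hk2
  have hg0 : (0 : ℝ) < g := by exact_mod_cast hg
  have hmo0 : (0 : ℝ) < mo := by exact_mod_cast hmo
  have hmo1 : (1 : ℝ) ≤ mo := by exact_mod_cast hmo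
  have hg1 : (1 : ℝ) ≤ g := by exact_mod_cast hg
  have hgm : Q < (g : ℝ) * mo := by
    have := hm'.1
    push_cast at this
    exact this
  have hgm2 : (g : ℝ) * mo ≤ 2 * Q := by
    have := hm'.2
    push_cast at this
    exact this
  have hPg : (g : ℝ) ≤ ((k.natAbs * k'.natAbs * (l1 * l1' * g) : ℕ) : ℝ) := by
    exact_mod_cast hP.1
  have hN : ((⌊2 * Q⌋₊ + 1 : ℕ) : ℝ) / mo ≤
      3 * ((k.natAbs * k'.natAbs * (l1 * l1' * g) : ℕ) : ℝ) := by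
    rw [div_le_iff₀ hmo0]
    have hfl : (⌊2 * Q⌋₊ : ℝ) ≤ 2 * Q := Nat.floor_le (by linarith)
    push_cast
    push_cast at hPg
    calc (⌊2 * Q⌋₊ : ℝ) + 1 ≤ 3 * Q := by linarith
      _ ≤ 3 * (g * mo) := by linarith
      _ ≤ 3 * ((k.natAbs : ℝ) * k'.natAbs * (l1 * l1' * g)) * mo := by
          have := mul_le_mul_of_nonneg_right hPg hmo0.le
          linarith
  have hlogmo : 0 ≤ Real.log mo := Real.log_nonneg hmo1
  have hmo2 : (mo : ℝ) ≤ 2 * Q := by nlinarith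
  have hlog : Real.log mo ≤ Real.log (2 * Q) := Real.log_le_log hmo0 hmo2
  have htau0 : ∀ n : ℕ, 0 ≤ tau n := fun n => by unfold tau; positivity
  have hR : (2 * (tau mo) ^ 2 * (Nat.gcd c.val mo : ℝ) * (mo : ℝ) ^ 3) ^ ((1 : ℝ) / 4) ≤
      1.2 * ((tau (g * mo)) ^ 2 *
        (Nat.gcd (θ * DD (l1, l2, k) (l1', l2', k')).natAbs (g * mo) : ℝ) *
          (((g * mo : ℕ) : ℝ) / g) ^ 3) ^ ((1 : ℝ) / 4) := by
    have e1 : (((g * mo : ℕ) : ℝ) / g) = mo := by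
      push_cast
      field_simp
    rw [e1, hgcd]
    have e2 : (2 * (tau mo) ^ 2 *
        (Nat.gcd (θ * DD (l1, l2, k) (l1', l2', k')).natAbs mo : ℝ) * (mo : ℝ) ^ 3) =
        2 * ((tau mo) ^ 2 *
        (Nat.gcd (θ * DD (l1, l2, k) (l1', l2', k')).natAbs mo : ℝ) * (mo : ℝ) ^ 3) := by ring
    rw [e2, Real.mul_rpow (by norm_num) (by positivity)]
    refine mul_le_mul Prs_two ?_ (by positivity) (by norm_num)
    refine Real.rpow_le_rpow (by positivity) ?_ (by norm_num)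
    refine mul_le_mul_of_nonneg_right ?_ (by positivity)
    refine mul_le_mul ?_ ?_ (by positivity) (by positivity)
    · refine pow_le_pow_left₀ (htau0 _) ?_ 2
      unfold tau
      have : mo.divisors ⊆ (g * mo).divisors :=
        Nat.divisors_subset_of_dvd (by positivity) (Dvd.intro_left g rfl)
      exact_mod_cast card_le_card this
    · have hd : Nat.gcd (θ * DD (l1, l2, k) (l1', l2', k')).natAbs mo ∣
          Nat.gcd (θ * DD (l1, l2, k) (l1', l2', k')).natAbs (g * mo) :=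
        Nat.gcd_dvd_gcd_mul_left_right _ _ _
      have hp : 0 < Nat.gcd (θ * DD (l1, l2, k) (l1', l2', k')).natAbs (g * mo) :=
        Nat.gcd_pos_of_pos_right _ (Nat.mul_pos hg hmo)
      exact_mod_cast Nat.le_of_dvd hp hd
  refine Prs_num Q _ _ _ _ _ _ _ _ (Real.log (2 * Q)) _ _ _ ?_ hV (by positivity) hN
    (by positivity) hP.2 hlog (by linarith) ?_ (by positivity) hR (by positivity)
    (by positivity) (by positivity) rfl
  · positivity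
  · have : 0 ≤ 2 + Real.log (mo : ℝ) := by linarith
    positivity

/-- Module Prs: one pair of triples and one m1. -/
theorem tPrs (h1 : PerStmt) (h2 : WvbStmt) (h3 : SpfStmt) (h4 : PrtStmt) : PrsStmt := by
  rintro Q L θ ⟨l1, l2, k⟩ ⟨l1', l2', k'⟩ m1 hQ hL ht hu hm
  obtain ⟨hdvd, hcop, hpr⟩ := h3
  have ht' := mem_tup.mp ht
  have hu' := mem_tup.mp hu
  simp only at ht' hu'
  have hl1 : 1 ≤ l1 := by have := (mem_prl.mp ht'.1).1; omega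
  have hl2 : 1 ≤ l2 := by have := (mem_prl.mp ht'.2.1).1; omega
  have hl1' : 1 ≤ l1' := by have := (mem_prl.mp hu'.1).1; omega
  have hl2' : 1 ≤ l2' := by have := (mem_prl.mp hu'.2.1).1; omega
  have hk : 1 ≤ k.natAbs := Int.natAbs_pos.mpr ht'.2.2.2.2
  have hk' : 1 ≤ k'.natAbs := Int.natAbs_pos.mpr hu'.2.2.2.2
  have hs : 1 ≤ ss (l1, l2, k) (l1', l2', k') := by
    unfold ss
    exact Nat.mul_pos (Nat.mul_pos hk hk')
      (Nat.mul_pos (Nat.mul_pos hl1 hl2) (Nat.mul_pos hl1' hl2'))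
  have hm' := (mem_dy (by linarith)).mp hm
  have hm1 : 1 ≤ m1 := by
    have : (0 : ℝ) < m1 := by linarith [hm'.1]
    exact_mod_cast this
  obtain ⟨hg1, hco⟩ := hcop _ m1 hs hm1
  have hd := hdvd (ss (l1, l2, k) (l1', l2', k')) m1
  have hp := hpr (ss (l1, l2, k) (l1', l2', k')) m1
  generalize spart (ss (l1, l2, k) (l1', l2', k')) m1 = g at hg1 hco hd hp ⊢
  obtain ⟨mo, rfl⟩ := hd
  rw [Nat.mul_div_cancel_left _ hg1] at hco
  have hmo : 1 ≤ mo := by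
    rcases Nat.eq_zero_or_pos mo with h0 | h0
    · subst h0
      omega
    · exact h0
  have hc2 : mo.Coprime g := by
    by_contra hcon
    obtain ⟨p, hpp, hp1, hp2⟩ := Nat.Prime.not_coprime_iff_dvd.mp hcon
    exact Nat.Prime.not_coprime_iff_dvd.mpr ⟨p, hpp, hp1, hp p hpp hp2⟩ hco
  exact Prs_main h1 h2 h4 Q L θ l1 l2 l1' l2' k k' g mo hQ ht hu hm hg1 hmo
    (Nat.Coprime.mul_right hco hc2)

end Pool.Agent.Lib.KF
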