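import Pool.Agent.Lib.KF.SpecB

/-!
MP_00e23e_nt, Lib/KF, part B, module Prt: the product of two terms.
-/

namespace Pool.Agent.Lib.KF

open Finset Pool.Agent.Lib.EH3

private lemma Prt_gcd (mo W : ℕ) [NeZero mo] (c : ZMod mo) (z : ℤ) (hW : W.Coprime mo)
    (h : c * (W : ZMod mo) = (z : ZMod mo)) : Nat.gcd c.val mo = Nat.gcd z.natAbs mo := by
  have h1 : (((c.val * W : ℕ) : ℤ) : ZMod mo) = (z : ZMod mo) := by
    push_cast
    rw [ZMod.natCast_zmod_val]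
    exact h
  have h2 : ((c.val * W : ℕ) : ℤ) ≡ z [ZMOD mo] := (ZMod.intCast_eq_intCast_iff _ _ _).mp h1
  obtain ⟨w, hw⟩ := h2.dvd
  have h3 : z = ((c.val * W : ℕ) : ℤ) + (mo : ℤ) * w := by linarith
  have h4 : Int.gcd z (mo : ℤ) = Int.gcd ((c.val * W : ℕ) : ℤ) (mo : ℤ) := by
    rw [h3]
    exact Int.gcd_add_mul_left_left _ _ _
  have h5 : Nat.gcd z.natAbs mo = Nat.gcd (c.val * W) mo := by
    rw [Int.gcd_natCast_natCast] at h4
    rw [← h4]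
    rfl
  rw [h5]
  exact (Nat.Coprime.gcd_mul_right_cancel _ hW).symm

private lemma Prt_c (mo g l1 l2 l1' l2' : ℕ) (θ k k' : ℤ)
    (h1 : (l1 * l2 * g).Coprime mo) (h2 : (l1' * l2' * g).Coprime mo) :
    ((((θ * ((l1 : ℤ) - l2) * k : ℤ) : ZMod mo) * (((l1 * l2 * g : ℕ) : ZMod mo))⁻¹) -
      (((θ * ((l1' : ℤ) - l2') * k' : ℤ) : ZMod mo) * (((l1' * l2' * g : ℕ) : ZMod mo))⁻¹)) *
      ((l1 * l2 * g * (l1' * l2') : ℕ) : ZMod mo) =
      ((θ * DD (l1, l2, k) (l1', l2', k') : ℤ) : ZMod mo) := by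
  have e1 := ZMod.coe_mul_inv_eq_one (l1 * l2 * g) h1
  have e2 := ZMod.coe_mul_inv_eq_one (l1' * l2' * g) h2
  generalize (((l1 * l2 * g : ℕ) : ZMod mo))⁻¹ = a at e1 ⊢
  generalize (((l1' * l2' * g : ℕ) : ZMod mo))⁻¹ = b at e2 ⊢
  unfold DD
  simp only
  push_cast at e1 e2 ⊢
  linear_combination ((θ : ZMod mo) * (l1 - l2) * k * (l1' * l2')) * e1 -
    ((θ : ZMod mo) * (l1' - l2') * k' * (l1 * l2)) * e2

private lemma Prt_per (f : ℕ → ℂ) (p n q : ℕ) (h : ∀ m, f (m + p) = f m) (hq : q = n * p) (m : ℕ) :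
    f (m + q) = f m := by
  subst hq
  induction n with
  | zero => simp
  | succ n ih =>
    rw [add_mul, one_mul, ← add_assoc, h, ih]

private lemma Prt_w (Q A B A' B' κ κ' ν ν' : ℝ) (m : ℕ) (h1 : Q < (m : ℝ)) (h2 : (m : ℝ) ≤ 2 * Q)
    (hν : ν = A + B * m) (hν' : ν' = A' + B' * m) :
    (if Q < ν ∧ ν ≤ 2 * Q then (ν : ℂ) * ee (κ / ν) else 0) *
      (starRingEnd ℂ) (if Q < ν' ∧ ν' ≤ 2 * Q then (ν' : ℂ) * ee (κ' / ν') else 0) =
      Wv Q A B A' B' κ κ' m := by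
  unfold Wv
  rw [← hν, ← hν']
  by_cases c1 : Q < ν ∧ ν ≤ 2 * Q
  · by_cases c2 : Q < ν' ∧ ν' ≤ 2 * Q
    · rw [if_pos c1, if_pos c2, if_pos ⟨h1, h2, c1.1, c1.2, c2.1, c2.2⟩, map_mul, conj_ee,
        Complex.conj_ofReal, sub_eq_add_neg, ee_add]
      push_cast
      ring
    · rw [if_neg c2, map_zero, mul_zero, if_neg]
      intro h
      exact c2 h.2.2.2.2
  · rw [if_neg c1, zero_mul, if_neg]
    intro h
    exact c1 ⟨h.2.2.1, h.2.2.2.1⟩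

/-- Module Prt: the product of two terms. -/
theorem tPrt (h1 : EmStmt) (h2 : KapStmt) : PrtStmt := by
  rintro Q θ ⟨l1, l2, k⟩ ⟨l1', l2', k'⟩ g mo hQ hl1 hl2 hk hl1' hl2' hk' hg hmo hc
  simp only [ss] at hl1 hl2 hk hl1' hl2' hk' hc ⊢
  have hc1 : mo.Coprime (k.natAbs * l1 * l2 * g) :=
    Nat.Coprime.coprime_dvd_right ⟨k'.natAbs * (l1' * l2'), by ring⟩ hc
  have hc2 : mo.Coprime (k'.natAbs * l1' * l2' * g) :=
    Nat.Coprime.coprime_dvd_right ⟨k.natAbs * (l1 * l2), by ring⟩ hc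
  have hc3 : (l1 * l2 * g).Coprime mo :=
    (Nat.Coprime.coprime_dvd_right ⟨k.natAbs, by ring⟩ hc1).symm
  have hc4 : (l1' * l2' * g).Coprime mo :=
    (Nat.Coprime.coprime_dvd_right ⟨k'.natAbs, by ring⟩ hc2).symm
  have hc5 : (l1 * l2 * g * (l1' * l2')).Coprime mo :=
    (Nat.Coprime.coprime_dvd_right ⟨k.natAbs * k'.natAbs, by ring⟩ hc).symm
  obtain ⟨κt, pt, nt, ft⟩ := h2 Q θ (l1, l2, k) g mo hQ hl1 hl2 hk hg hmo hc1
  obtain ⟨κu, pu, nu, fu⟩ := h2 Q θ (l1', l2', k') g mo hQ hl1' hl2' hk' hg hmo hc2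
  simp only at pt nt ft pu nu fu
  have : NeZero mo := ⟨by omega⟩
  refine ⟨fun m => κt m * (starRingEnd ℂ) (κu m),
    (((θ * ((l1 : ℤ) - l2) * k : ℤ) : ZMod mo) * (((l1 * l2 * g : ℕ) : ZMod mo))⁻¹) -
      (((θ * ((l1' : ℤ) - l2') * k' : ℤ) : ZMod mo) * (((l1' * l2' * g : ℕ) : ZMod mo))⁻¹),
    ?_, ?_, ?_, ?_⟩
  · intro m
    simp only
    rw [Prt_per κt _ (k'.natAbs * l1') _ pt (by ring) m,
      Prt_per κu _ (k.natAbs * l1) _ pu (by ring) m]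
  · intro m
    simp only
    rw [norm_mul, RCLike.norm_conj]
    exact mul_le_one₀ (nt m) (norm_nonneg _) (nu m)
  · exact Prt_gcd mo _ _ _ hc5 (Prt_c mo g l1 l2 l1' l2' θ k k' hc3 hc4)
  · intro m hm
    rw [mem_dy (by linarith)] at hm
    have hk0 : (k : ℝ) ≠ 0 := by exact_mod_cast hk
    have hk0' : (k' : ℝ) ≠ 0 := by exact_mod_cast hk'
    have hν : ((l1 : ℝ) * (g * mo) - l2 * m) / k = (l1 : ℝ) * (g * mo) / k + (-(l2 : ℝ) / k) * m := by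
      field_simp
      ring
    have hν' : ((l1' : ℝ) * (g * mo) - l2' * m) / k' =
        (l1' : ℝ) * (g * mo) / k' + (-(l2' : ℝ) / k') * m := by
      field_simp
      ring
    rw [ft m, fu m, ← Prt_w Q _ _ _ _ (θ * ((l1 : ℝ) - l2) / (l1 * (g * mo)))
      (θ * ((l1' : ℝ) - l2') / (l1' * (g * mo))) _ _ m hm.1 hm.2 hν hν',
      ← h1.2.2.2.2.2.2.2.2 mo _ _ _ hmo]
    simp only [map_mul]
    ring

end Pool.Agent.Lib.KF
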