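import Pool.Agent.Lib.KF.SpecK

/-! MP_00e23e_nt, Lib/KF: module Rcp (reciprocity). -/

namespace Pool.Agent.Lib.KF

open Finset Pool.Agent.Lib.EH3

private lemma Rcp_inv (h7 : ∀ (q : ℕ) (a : ZMod q), IsUnit a → a * a⁻¹ = 1) (a b : ℕ) (A B : ℤ)
    (h : A * a + B * b = 1) : ((a : ZMod b))⁻¹ = (A : ZMod b) := by
  have h1 : (A : ZMod b) * (a : ZMod b) = 1 := by
    have := congrArg (fun z : ℤ => (z : ZMod b)) h
    push_cast at this
    rwa [ZMod.natCast_self, mul_zero, add_zero] at this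
  have hu : IsUnit (a : ZMod b) := IsUnit.of_mul_eq_one (A : ZMod b) (by rw [mul_comm]; exact h1)
  calc ((a : ZMod b))⁻¹ = ((A : ZMod b) * (a : ZMod b)) * ((a : ZMod b))⁻¹ := by rw [h1, one_mul]
    _ = (A : ZMod b) * ((a : ZMod b) * ((a : ZMod b))⁻¹) := mul_assoc _ _ _
    _ = (A : ZMod b) := by rw [h7 b _ hu, mul_one]

theorem tRcp (h1 : EmStmt) : RcpStmt := by
  intro a b c ha hb hab
  obtain ⟨-, -, -, -, h5, -, h7, -, -⟩ := h1
  obtain ⟨A, B, hAB⟩ := Nat.isCoprime_iff_coprime.2 hab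
  have ha0 : (a : ℝ) ≠ 0 := by
    have : a ≠ 0 := by omega
    exact_mod_cast this
  have hb0 : (b : ℝ) ≠ 0 := by
    have : b ≠ 0 := by omega
    exact_mod_cast this
  rw [Rcp_inv h7 a b A B hAB, Rcp_inv h7 b a B A (by rw [add_comm]; exact hAB)]
  have e1 : ((c : ZMod b) * (A : ZMod b)) = ((c * A : ℤ) : ZMod b) := by push_cast; ring
  have e2 : ((c : ZMod a) * (B : ZMod a)) = ((c * B : ℤ) : ZMod a) := by push_cast; ring
  rw [e1, e2, h5 b _ hb, h5 a _ ha, ← ee_add]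
  congr 1
  have h' : (A : ℝ) * a + (B : ℝ) * b = 1 := by exact_mod_cast hAB
  rw [div_add_div _ _ hb0 ha0, div_eq_div_iff (mul_ne_zero hb0 ha0) (mul_ne_zero ha0 hb0)]
  push_cast
  have e3 : (c : ℝ) * A * a + b * (c * B) = c := by
    calc (c : ℝ) * A * a + b * (c * B) = c * (A * a + B * b) := by ring
      _ = c := by rw [h', mul_one]
  rw [e3]
  ring

end Pool.Agent.Lib.KF
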