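import Pool.Agent.Lib.TP.Wga

/-!
MP_00e23e_nt: an inequality of Bessel type for the sums of |E(y;d,s_i(d))| over moduli beyond x^(1/2) without small prime
factors. The definitions li, resCount, resErr are in Pool.Agent.Lib.EH.Defs and Pool.Agent.Lib.KF.Defs.
-/

namespace Pool.Agent.Results.MP_00e23e_nt.RoughModuli

open Finset Pool.Agent.Results.MP_00e23e_nt

/-- the moduli for the function s: d ≥ 1 is prime to s(d), all prime factors of d are > x^ρ, and either s has at most x^η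
values and d ≤ x^(501/1000), or d ≤ x^(1/2+δ) is squarefree with a divisor in [x^(2δ+v+ε), x^(1/2-7δ-2v-ε)] -/
def IsModulus (δ v ε ρ η x : ℝ) (s : ℕ → ℤ) (d : ℕ) : Prop :=
  1 ≤ d ∧ Int.gcd (s d) d = 1 ∧ (∀ p : ℕ, p.Prime → p ∣ d → x ^ ρ < (p : ℝ)) ∧
    ((((Set.range s).ncard : ℝ) ≤ x ^ η ∧ (d : ℝ) ≤ x ^ ((501 : ℝ) / 1000)) ∨
      ((d : ℝ) ≤ x ^ (1 / 2 + δ) ∧ Squarefree d ∧
        ∃ t : ℕ, t ∣ d ∧ x ^ (2 * δ + v + ε) ≤ (t : ℝ) ∧ (t : ℝ) ≤ x ^ ((1 : ℝ) / 2 - 7 * δ - 2 * v - ε)))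

private lemma part {θ : ℝ} {Cls : ℝ → ℕ → Prop} {x : ℝ} {s : ℕ → ℤ} {y y' : ℕ → ℝ} (M : Finset ℕ)
    (hM : ∀ d ∈ M, 1 ≤ d ∧ (d : ℝ) ≤ x ^ θ ∧ Int.gcd (s d) d = 1 ∧ Cls x d ∧ y' d = y d) :
    ∑ d ∈ M, |resErr (y d) d (s d)| ≤ Pool.Agent.Lib.TP.RS θ Cls x y' s := by
  classical
  have h2 : ∑ d ∈ M, |resErr (y d) d (s d)| = ∑ d ∈ M, |resErr (y' d) d (s d)| := by
    apply Finset.sum_congr rfl
    intro d hd
    rw [(hM d hd).2.2.2.2]
  rw [h2]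
  unfold Pool.Agent.Lib.TP.RS
  apply Finset.sum_le_sum_of_subset_of_nonneg
  · intro d hd
    obtain ⟨d1, d2, d3, d4, -⟩ := hM d hd
    rw [Finset.mem_filter, Finset.mem_Icc]
    exact ⟨⟨d1, Nat.le_floor d2⟩, d3, d4⟩
  · intro d _ _
    exact abs_nonneg _

private lemma image_card {x t : ℝ} {s : ℕ → ℤ} (hs : ∀ d, |(s d : ℝ)| ≤ x)
    (hc : ((Set.range s).ncard : ℝ) ≤ t) (N : ℕ) : (((Icc 1 N).image s).card : ℝ) ≤ t := by
  have hfin : (Set.range s).Finite := by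
    apply (Set.finite_Icc (-⌈x⌉) ⌈x⌉).subset
    rintro _ ⟨d, rfl⟩
    have h1 := abs_le.1 (hs d)
    have h2 := Int.le_ceil x
    constructor
    · have : ((-⌈x⌉ : ℤ) : ℝ) ≤ (s d : ℝ) := by
        push_cast
        linarith [h1.1]
      exact_mod_cast this
    · have : (s d : ℝ) ≤ ((⌈x⌉ : ℤ) : ℝ) := by linarith [h1.2]
      exact_mod_cast this
  have h3 : ((Icc 1 N).image s).card ≤ (Set.range s).ncard := by
    rw [← Set.ncard_coe_finset]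
    apply Set.ncard_le_ncard _ hfin
    intro a ha
    rw [Finset.mem_coe, Finset.mem_image] at ha
    obtain ⟨d, -, rfl⟩ := ha
    exact ⟨d, rfl⟩
  exact le_trans (by exact_mod_cast h3) hc

/-- For δ, v ≥ 0 and ε, ρ > 0 there are C, η > 0 such that for every B and all x ≥ x0(B): let s_i, i ∈ J, be at most
(log x)^B functions with integer values in [-x, x], each with at most x^v values, s_i(d) ≠ s_j(d) for i ≠ j, let Y be a
finite set of real numbers in [2, x], let M_i be sets of moduli for s_i and y_i(d) ∈ Y. Then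
∑_i (∑_{d ∈ M_i} |π(y_i(d); d, s_i(d)) - li y_i(d)/φ(d)|)² ≤ C min(|Y|, |J|^(1/3)) (x/log x)². -/
theorem result : ∀ δ v ε ρ : ℝ, 0 ≤ δ → 0 ≤ v → 0 < ε → 0 < ρ → ∃ C η : ℝ, 0 < C ∧ 0 < η ∧ ∀ B : ℝ, ∃ x0 : ℝ,
    ∀ (x : ℝ) (J : Finset ℕ) (s : ℕ → ℕ → ℤ) (M : ℕ → Finset ℕ) (Y : Finset ℝ) (y : ℕ → ℕ → ℝ), x0 ≤ x →
    (J.card : ℝ) ≤ (Real.log x) ^ B →
    (∀ i ∈ J, (∀ d, |(s i d : ℝ)| ≤ x) ∧ ((Set.range (s i)).ncard : ℝ) ≤ x ^ v) →
    (∀ i ∈ J, ∀ j ∈ J, i ≠ j → ∀ d, s i d ≠ s j d) → (∀ z ∈ Y, 2 ≤ z ∧ z ≤ x) →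
    (∀ i ∈ J, ∀ d ∈ M i, IsModulus δ v ε ρ η x (s i) d ∧ y i d ∈ Y) →
    ∑ i ∈ J, (∑ d ∈ M i, |resErr (y i d) d (s i d)|) ^ 2 ≤
      C * min (Y.card : ℝ) ((J.card : ℝ) ^ ((1 : ℝ) / 3)) * (x / Real.log x) ^ 2 := by
  classical
  intro δ v ε ρ hδ hv hε hρ
  obtain ⟨C1, η, hC1, hη, h1⟩ := Pool.Agent.Lib.TP.aGryP ρ hρ
  obtain ⟨C2, hC2, h2⟩ := Pool.Agent.Lib.TP.aGryV δ v ε ρ hδ hv hε hρ
  refine ⟨2 * (C1 + C2), η, by linarith, hη, fun B => ?_⟩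
  obtain ⟨x1, hx1⟩ := h1 B
  obtain ⟨x2, hx2⟩ := h2 B
  refine ⟨max x1 x2, fun x J s M Y y hx hJ hs hne hY hM => ?_⟩
  have hxx1 : x1 ≤ x := (le_max_left _ _).trans hx
  have hxx2 : x2 ≤ x := (le_max_right _ _).trans hx
  rcases Y.eq_empty_or_nonempty with hY0 | ⟨z0, hz0⟩
  · have e1 : ∀ i ∈ J, (∑ d ∈ M i, |resErr (y i d) d (s i d)|) ^ 2 = 0 := by
      intro i hi
      have e2 : M i = ∅ := by
        apply Finset.eq_empty_of_forall_notMem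
        intro d hd
        have := (hM i hi d hd).2
        rw [hY0] at this
        exact absurd this (Finset.notMem_empty _)
      rw [e2, Finset.sum_empty]
      norm_num
    rw [Finset.sum_eq_zero e1]
    have e3 : 0 ≤ min (Y.card : ℝ) ((J.card : ℝ) ^ ((1 : ℝ) / 3)) :=
      le_min (Nat.cast_nonneg _) (Real.rpow_nonneg (Nat.cast_nonneg _) _)
    positivity
  obtain ⟨y', hy'⟩ : ∃ y' : ℕ → ℕ → ℝ, y' = fun i d => if i ∈ J ∧ d ∈ M i then y i d else z0 := ⟨_, rfl⟩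
  have hy'Y : ∀ i d, y' i d ∈ Y := by
    intro i d
    rw [hy']
    beta_reduce
    split_ifs with h
    · exact (hM i h.1 d h.2).2
    · exact hz0
  have hy'e : ∀ i ∈ J, ∀ d ∈ M i, y' i d = y i d := by
    intro i hi d hd
    rw [hy']
    beta_reduce
    rw [if_pos ⟨hi, hd⟩]
  -- the functions with few values
  obtain ⟨J1, hJ1⟩ : ∃ J1, J1 = J.filter (fun i => ((Set.range (s i)).ncard : ℝ) ≤ x ^ η) := ⟨_, rfl⟩
  have hJ1J : J1 ⊆ J := by rw [hJ1]; exact Finset.filter_subset _ _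
  have hJ1c : (J1.card : ℝ) ≤ (J.card : ℝ) := by exact_mod_cast Finset.card_le_card hJ1J
  have b1 := hx1 x hxx1 J1 s Y y' ⟨fun i hi d _ => (hs i (hJ1J hi)).1 d, fun i hi => by
      have hi' := hi
      rw [hJ1, Finset.mem_filter] at hi'
      exact image_card (hs i hi'.1).1 hi'.2 _, fun i hi j hj hij d _ => hne i (hJ1J hi) j (hJ1J hj) hij d⟩
    (hJ1c.trans hJ) hY hy'Y
  have b2 := hx2 x hxx2 J s Y y' ⟨fun i hi d _ => (hs i hi).1 d, fun i hi =>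
      image_card (hs i hi).1 (hs i hi).2 _, fun i hi j hj hij d _ => hne i hi j hj hij d⟩ hJ hY hy'Y
  -- the two parts of every sum
  have hsplit : ∀ i ∈ J, (∑ d ∈ M i, |resErr (y i d) d (s i d)|) ^ 2 ≤
      2 * (if i ∈ J1 then Pool.Agent.Lib.TP.RS (501 / 1000) (Pool.Agent.Lib.TP.Rx ρ) x (y' i) (s i) ^ 2 else 0) +
        2 * Pool.Agent.Lib.TP.RS (1 / 2 + δ) (Pool.Agent.Lib.TP.Cv δ v ε ρ) x (y' i) (s i) ^ 2 := by
    intro i hi
    obtain ⟨P, hP⟩ : ∃ P : ℕ → Prop, P = fun d : ℕ => i ∈ J1 ∧ (d : ℝ) ≤ x ^ ((501 : ℝ) / 1000) := ⟨_, rfl⟩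
    have e0 : ∑ d ∈ M i, |resErr (y i d) d (s i d)| =
        ∑ d ∈ (M i).filter P, |resErr (y i d) d (s i d)| +
          ∑ d ∈ (M i).filter (fun d => ¬ P d), |resErr (y i d) d (s i d)| :=
      (Finset.sum_filter_add_sum_filter_not _ _ _).symm
    have e1 : ∑ d ∈ (M i).filter P, |resErr (y i d) d (s i d)| ≤
        if i ∈ J1 then Pool.Agent.Lib.TP.RS (501 / 1000) (Pool.Agent.Lib.TP.Rx ρ) x (y' i) (s i) else 0 := by
      by_cases hi1 : i ∈ J1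
      · rw [if_pos hi1]
        apply part
        intro d hd
        rw [Finset.mem_filter, hP] at hd
        obtain ⟨⟨d1, d2, d3, -⟩, -⟩ := hM i hi d hd.1
        exact ⟨d1, hd.2.2, d2, d3, hy'e i hi d hd.1⟩
      · rw [if_neg hi1]
        have e2 : (M i).filter P = ∅ := by
          apply Finset.eq_empty_of_forall_notMem
          intro d hd
          rw [Finset.mem_filter, hP] at hd
          exact hi1 hd.2.1
        rw [e2, Finset.sum_empty]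
    have e3 : ∑ d ∈ (M i).filter (fun d => ¬ P d), |resErr (y i d) d (s i d)| ≤
        Pool.Agent.Lib.TP.RS (1 / 2 + δ) (Pool.Agent.Lib.TP.Cv δ v ε ρ) x (y' i) (s i) := by
      apply part
      intro d hd
      rw [Finset.mem_filter, hP] at hd
      obtain ⟨⟨d1, d2, d3, d4⟩, -⟩ := hM i hi d hd.1
      have d5 : ¬ (((Set.range (s i)).ncard : ℝ) ≤ x ^ η ∧ (d : ℝ) ≤ x ^ ((501 : ℝ) / 1000)) := by
        intro h
        apply hd.2
        refine ⟨?_, h.2⟩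
        rw [hJ1, Finset.mem_filter]
        exact ⟨hi, h.1⟩
      obtain ⟨d6, d7, d8⟩ := d4.resolve_left d5
      exact ⟨d1, d6, d2, ⟨d3, d7, d8⟩, hy'e i hi d hd.1⟩
    have f1 : 0 ≤ ∑ d ∈ (M i).filter P, |resErr (y i d) d (s i d)| := Finset.sum_nonneg fun _ _ => abs_nonneg _
    have f2 : 0 ≤ ∑ d ∈ (M i).filter (fun d => ¬ P d), |resErr (y i d) d (s i d)| :=
      Finset.sum_nonneg fun _ _ => abs_nonneg _
    rw [e0]
    have g1 : (if i ∈ J1 then Pool.Agent.Lib.TP.RS (501 / 1000) (Pool.Agent.Lib.TP.Rx ρ) x (y' i) (s i) ^ 2 else 0) =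
        (if i ∈ J1 then Pool.Agent.Lib.TP.RS (501 / 1000) (Pool.Agent.Lib.TP.Rx ρ) x (y' i) (s i) else 0) ^ 2 := by
      split_ifs
      · rfl
      · norm_num
    rw [g1]
    have g2 := pow_le_pow_left₀ f1 e1 2
    have g3 := pow_le_pow_left₀ f2 e3 2
    have g4 := sq_nonneg (∑ d ∈ (M i).filter P, |resErr (y i d) d (s i d)| -
      ∑ d ∈ (M i).filter (fun d => ¬ P d), |resErr (y i d) d (s i d)|)
    linarith only [g2, g3, g4]
  have hsum := Finset.sum_le_sum hsplit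
  rw [Finset.sum_add_distrib, ← Finset.mul_sum, ← Finset.mul_sum, ← Finset.sum_filter] at hsum
  have hfil : J.filter (fun i => i ∈ J1) = J1 := by
    ext i
    rw [Finset.mem_filter]
    exact ⟨fun h => h.2, fun h => ⟨hJ1J h, h⟩⟩
  rw [hfil] at hsum
  have hmin : min (Y.card : ℝ) ((J1.card : ℝ) ^ ((1 : ℝ) / 3)) ≤ min (Y.card : ℝ) ((J.card : ℝ) ^ ((1 : ℝ) / 3)) :=
    min_le_min_left _ (Real.rpow_le_rpow (Nat.cast_nonneg _) hJ1c (by norm_num))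
  have hsq : 0 ≤ (x / Real.log x) ^ 2 := sq_nonneg _
  have b1' := b1.trans (mul_le_mul_of_nonneg_right (mul_le_mul_of_nonneg_left hmin hC1.le) hsq)
  calc ∑ i ∈ J, (∑ d ∈ M i, |resErr (y i d) d (s i d)|) ^ 2 ≤ _ := hsum
    _ ≤ 2 * (C1 * min (Y.card : ℝ) ((J.card : ℝ) ^ ((1 : ℝ) / 3)) * (x / Real.log x) ^ 2) +
        2 * (C2 * min (Y.card : ℝ) ((J.card : ℝ) ^ ((1 : ℝ) / 3)) * (x / Real.log x) ^ 2) := by
        linarith only [b1', b2]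
    _ = _ := by ring

end Pool.Agent.Results.MP_00e23e_nt.RoughModuli
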