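import Pool.Agent.Lib.KF.SpecB

/-!
MP_00e23e_nt, directory Lib/KF, module Sgc: sum of the square roots of gcds.
-/

namespace Pool.Agent.Lib.KF

open Finset Pool.Agent.Lib.EH3

private lemma Sgc_one (N m : ℕ) (hN : 1 ≤ N) :
    Real.sqrt (Nat.gcd N m : ℝ) ≤ ∑ e ∈ N.divisors, if e ∣ m then Real.sqrt (e : ℝ) else 0 := by
  have hmem : Nat.gcd N m ∈ N.divisors := by
    rw [Nat.mem_divisors]
    exact ⟨Nat.gcd_dvd_left N m, by omega⟩
  refine le_trans ?_ (Finset.single_le_sum (f := fun e : ℕ => if e ∣ m then Real.sqrt (e : ℝ) else 0)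
    (fun e _ => ?_) hmem)
  · rw [if_pos (Nat.gcd_dvd_right N m)]
  · split_ifs
    · exact Real.sqrt_nonneg _
    · exact le_refl _

private lemma Sgc_two (Q : ℝ) (hQ : 1 ≤ Q) (e : ℕ) (he : 1 ≤ e) :
    (∑ m ∈ dy Q, if e ∣ m then Real.sqrt (e : ℝ) else 0) ≤ 2 * Q := by
  have h0 : (1 : ℝ) ≤ e := by exact_mod_cast he
  have h1 := card_dy_dvd_le (Q := Q) (by linarith) he
  rw [← Finset.sum_filter, Finset.sum_const, nsmul_eq_mul]
  have h2 : Real.sqrt (e : ℝ) ≤ e := by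
    rw [Real.sqrt_le_left (by linarith)]
    nlinarith
  calc (((dy Q).filter (fun n => e ∣ n)).card : ℝ) * Real.sqrt (e : ℝ) ≤ 2 * Q / e * e :=
        mul_le_mul h1 h2 (Real.sqrt_nonneg _) (by positivity)
    _ = 2 * Q := by field_simp

/-- sum of the square roots of gcds -/
theorem tSgc : SgcStmt := by
  intro Q N hQ hN
  calc ∑ m ∈ dy Q, Real.sqrt (Nat.gcd N m : ℝ)
      ≤ ∑ m ∈ dy Q, ∑ e ∈ N.divisors, (if e ∣ m then Real.sqrt (e : ℝ) else 0) :=
        Finset.sum_le_sum fun m _ => Sgc_one N m hN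
    _ = ∑ e ∈ N.divisors, ∑ m ∈ dy Q, (if e ∣ m then Real.sqrt (e : ℝ) else 0) := Finset.sum_comm
    _ ≤ ∑ e ∈ N.divisors, 2 * Q :=
        Finset.sum_le_sum fun e he => Sgc_two Q hQ e (Nat.pos_of_mem_divisors he)
    _ = 2 * Q * tau N := by
        rw [Finset.sum_const, nsmul_eq_mul, tau]
        ring

end Pool.Agent.Lib.KF
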