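import Pool.Agent.Lib.KF.SpecK
import Pool.Agent.Lib.BV.SpecD

/-!
MP_00e23e_nt, directory Lib/KF (architect helper3), part B: bilinear forms with Kloosterman fractions
(amplification, reciprocity, completion). Final theorem KftStmt: for every ε > 0, all θ ≠ 0, Q ≥ 1,
|sum over m, n in (Q, 2Q] of α_m β_n e(θ m^(-1)/n)| ≤ C ‖α‖ ‖β‖ Q^(63/64+ε) (1+|θ|/Q^2)^(1/4) |θ|^ε.
Rules: see SpecK.lean (first line of the modules of this part: `import Pool.Agent.Lib.KF.SpecB`).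
-/

namespace Pool.Agent.Lib.KF

open Finset Pool.Agent.Lib.EH3

/-- the natural numbers in (Q, 2Q] -/
noncomputable def dy (Q : ℝ) : Finset ℕ := Finset.Ioc ⌊Q⌋₊ ⌊2 * Q⌋₊

/-- the primes in (L, 2L] -/
def prl (L : ℕ) : Finset ℕ := (Finset.Ioc L (2 * L)).filter Nat.Prime

/-- the triples (l1, l2, k): different primes l1, l2 in (L, 2L], 0 < |k| ≤ 4L -/
noncomputable def tup (L : ℕ) : Finset (ℕ × ℕ × ℤ) :=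
  ((prl L) ×ˢ ((prl L) ×ˢ (Finset.Icc (-(4 * (L : ℤ))) (4 * (L : ℤ))))).filter
    (fun t => t.1 ≠ t.2.1 ∧ t.2.2 ≠ 0)

/-- the number n = (l1 m1 - l2 m2)/k -/
def nq (t : ℕ × ℕ × ℤ) (m1 m2 : ℕ) : ℤ := ((t.1 : ℤ) * m1 - t.2.1 * m2) / t.2.2

/-- k divides l1 m1 - l2 m2, the quotient n is in (Q, 2Q] and not divisible by l1, l2 -/
def okt (Q : ℝ) (t : ℕ × ℕ × ℤ) (m1 m2 : ℕ) : Prop :=
  t.2.2 ∣ ((t.1 : ℤ) * m1 - t.2.1 * m2) ∧ Q < (nq t m1 m2 : ℝ) ∧ (nq t m1 m2 : ℝ) ≤ 2 * Q ∧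
    ¬ (t.1 : ℤ) ∣ nq t m1 m2 ∧ ¬ (t.2.1 : ℤ) ∣ nq t m1 m2

open Classical in
/-- the term of the triple t: n e(θ (l1 - l2) (l1 m1)^(-1)/n) -/
noncomputable def TT (Q : ℝ) (θ : ℤ) (t : ℕ × ℕ × ℤ) (m1 m2 : ℕ) : ℂ :=
  if okt Q t m1 m2 then
    ((nq t m1 m2 : ℤ) : ℂ) *
      ei (nq t m1 m2).toNat ((θ * ((t.1 : ℤ) - t.2.1) : ℤ) : ZMod (nq t m1 m2).toNat)
        ((t.1 * m1 : ℕ) : ZMod (nq t m1 m2).toNat)
  else 0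

/-- the part of m composed of the primes dividing s -/
def spart (s m : ℕ) : ℕ := Nat.gcd m (s ^ m)

/-- the determinant D of two triples -/
def DD (t u : ℕ × ℕ × ℤ) : ℤ :=
  t.2.2 * ((t.1 : ℤ) - t.2.1) * u.1 * u.2.1 - u.2.2 * ((u.1 : ℤ) - u.2.1) * t.1 * t.2.1

/-- the product s of all entries -/
def ss (t u : ℕ × ℕ × ℤ) : ℕ :=
  t.2.2.natAbs * u.2.2.natAbs * (t.1 * t.2.1 * (u.1 * u.2.1))

/-- E is a bound for the number of divisors up to Y -/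
def DB (Y E : ℝ) : Prop := ∀ n : ℕ, 1 ≤ n → (n : ℝ) ≤ Y → tau n ≤ E

/-- the weight n n' e(κ/n - κ'/n') with n = A + B t, n' = A' + B' t, cut to t, n, n' in (Q, 2Q] -/
noncomputable def Wv (Q A B A' B' κ κ' : ℝ) (t : ℕ) : ℂ :=
  if Q < (t : ℝ) ∧ (t : ℝ) ≤ 2 * Q ∧ Q < A + B * t ∧ A + B * t ≤ 2 * Q ∧ Q < A' + B' * t ∧
      A' + B' * t ≤ 2 * Q then
    (((A + B * t) * (A' + B' * t) : ℝ) : ℂ) * ee (κ / (A + B * t) - κ' / (A' + B' * t))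
  else 0

/-! ### Elementary facts, for use in all modules -/

lemma mem_dy {Q : ℝ} (hQ : 0 ≤ Q) {n : ℕ} : n ∈ dy Q ↔ Q < (n : ℝ) ∧ (n : ℝ) ≤ 2 * Q := by
  unfold dy
  rw [Finset.mem_Ioc, Nat.floor_lt hQ, Nat.le_floor_iff (by linarith)]

lemma card_dy_le {Q : ℝ} (hQ : 1 ≤ Q) : ((dy Q).card : ℝ) ≤ 2 * Q := by
  unfold dy
  rw [Nat.card_Ioc]
  have h1 : (⌊2 * Q⌋₊ : ℝ) ≤ 2 * Q := Nat.floor_le (by linarith)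
  have h2 : (1 : ℝ) ≤ (⌊Q⌋₊ : ℝ) := by
    have : 1 ≤ ⌊Q⌋₊ := by rw [Nat.one_le_floor_iff]; exact hQ
    exact_mod_cast this
  have h3 : ((⌊2 * Q⌋₊ - ⌊Q⌋₊ : ℕ) : ℝ) ≤ (⌊2 * Q⌋₊ : ℝ) := by
    exact_mod_cast Nat.sub_le _ _
  linarith

lemma card_Icc_dvd_le (N e : ℕ) :
    (((Finset.Icc 1 N).filter (fun n => e ∣ n)).card : ℝ) ≤ (N : ℝ) / e := by
  have h1 : ((Finset.Icc 1 N).filter (fun n => e ∣ n)).card ≤ N / e := by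
    have h2 := Nat.Ioc_filter_dvd_card_eq_div N e
    rw [← h2]
    refine Finset.card_le_card ?_
    intro n hn
    simp only [Finset.mem_filter, Finset.mem_Icc, Finset.mem_Ioc] at hn ⊢
    exact ⟨⟨by omega, hn.1.2⟩, hn.2⟩
  calc (((Finset.Icc 1 N).filter (fun n => e ∣ n)).card : ℝ) ≤ ((N / e : ℕ) : ℝ) := by exact_mod_cast h1
    _ ≤ (N : ℝ) / e := Nat.cast_div_le

lemma card_dy_dvd_le {Q : ℝ} (hQ : 0 ≤ Q) {e : ℕ} (he : 1 ≤ e) :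
    (((dy Q).filter (fun n => e ∣ n)).card : ℝ) ≤ 2 * Q / e := by
  have h1 : ((dy Q).filter (fun n => e ∣ n)).card ≤
      ((Finset.Icc 1 ⌊2 * Q⌋₊).filter (fun n => e ∣ n)).card := by
    refine Finset.card_le_card ?_
    intro n hn
    simp only [dy, Finset.mem_filter, Finset.mem_Icc, Finset.mem_Ioc] at hn ⊢
    exact ⟨⟨by omega, hn.1.2⟩, hn.2⟩
  have h2 := card_Icc_dvd_le ⌊2 * Q⌋₊ e
  have h3 : (⌊2 * Q⌋₊ : ℝ) ≤ 2 * Q := Nat.floor_le (by linarith)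
  have h4 : (0 : ℝ) < e := by exact_mod_cast he
  calc (((dy Q).filter (fun n => e ∣ n)).card : ℝ) ≤
      (((Finset.Icc 1 ⌊2 * Q⌋₊).filter (fun n => e ∣ n)).card : ℝ) := by exact_mod_cast h1
    _ ≤ (⌊2 * Q⌋₊ : ℝ) / e := h2
    _ ≤ 2 * Q / e := by gcongr

lemma mem_prl {L l : ℕ} : l ∈ prl L ↔ L < l ∧ l ≤ 2 * L ∧ l.Prime := by
  unfold prl
  rw [Finset.mem_filter, Finset.mem_Ioc, and_assoc]

lemma mem_tup {L : ℕ} {t : ℕ × ℕ × ℤ} : t ∈ tup L ↔ t.1 ∈ prl L ∧ t.2.1 ∈ prl L ∧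
    |t.2.2| ≤ 4 * (L : ℤ) ∧ t.1 ≠ t.2.1 ∧ t.2.2 ≠ 0 := by
  unfold tup
  rw [Finset.mem_filter, Finset.mem_product, Finset.mem_product, Finset.mem_Icc, abs_le]
  tauto

/-! ### The phase and the completion -/

/-- Module Kap (theorem tKap; one triple). Uses: Em, Phs.
Proof. Let l1 = t.1, l2 = t.2.1, k = t.2.2, m1 = g mo, c = θ (l1 - l2), P = |k| l1 g. For m ∈ ℕ let n(m) = nq t m1 m (an
integer) and let κ(m) = 0 unless k | l1 m1 - l2 m, l1 ∤ n(m), l2 ∤ n(m) and n(m) is coprime to l1 g, in which case κ(m) =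
conj (em (l1 g) (c (n(m) mo)^(-1))) with n(m), mo in ZMod (l1 g). ‖κ‖ ≤ 1 (Em (3)). Period P: replacing m by m + P changes
l1 m1 - l2 m by -l2 |k| l1 g, a multiple of k, and n(m) by ∓ l2 l1 g, a multiple of l1 g and of l1 and of l2
(Int.add_mul_ediv...), so nothing changes. Formula: if k ∤ l1 m1 - l2 m both sides are 0. If k | ..., then ν = (nq : ℝ)
(Int.cast_div), and if ν ∉ (Q, 2Q] both sides are 0; else n = (nq).toNat ≥ 1, (n : ℤ) = nq. If l1 | n or l2 | n both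
sides are 0. Otherwise Phs (with this n, m2 = m) gives the formula; gcd(n, l1 g) in ℕ. -/
def KapStmt : Prop :=
  ∀ (Q : ℝ) (θ : ℤ) (t : ℕ × ℕ × ℤ) (g mo : ℕ), 1 ≤ Q → 1 ≤ t.1 → 1 ≤ t.2.1 → t.2.2 ≠ 0 → 1 ≤ g → 1 ≤ mo →
    mo.Coprime (t.2.2.natAbs * t.1 * t.2.1 * g) →
    ∃ κ : ℕ → ℂ, (∀ m, κ (m + t.2.2.natAbs * t.1 * g) = κ m) ∧ (∀ m, ‖κ m‖ ≤ 1) ∧
      ∀ m : ℕ, TT Q θ t (g * mo) m = κ m *
        (if Q < ((t.1 : ℝ) * (g * mo) - t.2.1 * m) / t.2.2 ∧ ((t.1 : ℝ) * (g * mo) - t.2.1 * m) / t.2.2 ≤ 2 * Q then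
          ((((t.1 : ℝ) * (g * mo) - t.2.1 * m) / t.2.2 : ℝ) : ℂ) *
            ee ((θ * ((t.1 : ℝ) - t.2.1) / (t.1 * (g * mo))) / (((t.1 : ℝ) * (g * mo) - t.2.1 * m) / t.2.2))
          else 0) *
        ei mo (((θ * ((t.1 : ℤ) - t.2.1) * t.2.2 : ℤ) : ZMod mo) * (((t.1 * t.2.1 * g : ℕ) : ZMod mo))⁻¹)
          (m : ZMod mo)

/-- Module Wvb (theorem tWvb; total variation of the weight). Uses: nothing.
Proof. Let J be the set of t ∈ ℕ with Wv ≠ 0 allowed (the condition of the if); it is an interval of ℕ (each condition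
defines a convex set of reals). W 0 = 0 (Q ≥ 1 > 0). |W| ≤ 4 Q^2, |ee| = 1. If t, t+1 ∈ J: with n, n' and phase φ = κ/n,
φ' = κ'/n': |W(t+1) - W(t)| ≤ 2Q |Δn| + 2Q |Δn'| + 4 Q^2 2π (|Δφ| + |Δφ'|) (|ee x - ee y| ≤ 2π |x - y|:
Complex.norm_exp... or Real: Mathlib norm_exp_I_mul_ofReal_sub_one_le or the bound |exp(ix) - exp(iy)| ≤ |x - y|). n is affine in t, so
monotone, and stays in (Q, 2Q] on J, so ∑ |Δn| ≤ Q over consecutive t in J (telescoping); also 1/n is monotone on J with values in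
[1/(2Q), 1/Q], so ∑ |Δφ| ≤ |κ|/(2Q). At most two t have exactly one of t, t+1 in J, each gives ≤ 4 Q^2. Total
≤ 8 Q^2 + 2Q·Q + 2Q·Q + 4 Q^2 2π (|κ| + |κ'|)/(2Q) ≤ 12 Q^2 + 4π Q (|κ| + |κ'|) ≤ 13 Q^2 (1 + (|κ|+|κ'|)/Q).
Convenient: prove by a general lemma: if J = {a, ..., b} and W vanishes outside J, then ‖W 0‖ + ∑_{t<N} ‖ΔW‖ ≤ 2 sup ‖W‖ +
∑_{t=a}^{b-1} ‖W(t+1) - W(t)‖ when W 0 = 0. -/
def WvbStmt : Prop :=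
  ∀ Q A B A' B' κ κ' : ℝ, 1 ≤ Q →
    varB (Wv Q A B A' B' κ κ') (13 * Q ^ 2 * (1 + (|κ| + |κ'|) / Q))

/-- Module Spf (theorem tSpf; the s-part). Uses: nothing.
Proof. (1) gcd divides m. (2) Let p be a prime dividing m/spart and s. v_p(s^m) ≥ m ≥ v_p(m) (p^m > m), so
v_p(gcd) = v_p(m) and p ∤ m/gcd, contradiction. spart ≥ 1 since m ≥ 1. (3) every prime dividing spart divides s^m, so s. -/
def SpfStmt : Prop :=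
  (∀ s m : ℕ, spart s m ∣ m) ∧
  (∀ s m : ℕ, 1 ≤ s → 1 ≤ m → 1 ≤ spart s m ∧ (m / spart s m).Coprime s) ∧
  (∀ s m p : ℕ, p.Prime → p ∣ spart s m → p ∣ s)

/-- Module Spg (theorem tSpg; sum of the square roots of the s-parts). Uses: Spf.
Proof. Group the m ∈ dy Q by g = spart s m, which divides m and has all prime factors dividing s: the sum is ≤
∑_g √g #{m ∈ dy Q : g | m} ≤ ∑_g √g 2Q/g (card_dy_dvd_le) = 2Q ∑_g g^(-1/2), where g runs over numbers ≤ 2Q in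
Nat.factoredNumbers s.primeFactors. By EulerProduct.summable_and_hasSum_factoredNumbers_prod_filter_prime_geometric (with f =
n ↦ (n : ℝ)^(-1/2) as monoid-with-zero homomorphism ℕ →*₀ ℝ; ‖f p‖ < 1) the sum over all such g is ∏_{p | s} (1 - p^(-1/2))^(-1) ≤
4^(ω(s)) (p^(-1/2) ≤ 2^(-1/2) ≤ 3/4), ω(s) = s.primeFactors.card, and 4^ω = (2^ω)^2 ≤ tau(s)^2: 2^ω(s) ≤ number of divisors (the products
of the subsets of the prime factors are different divisors; or Nat.card_divisors: tau = ∏ (v_p + 1) ≥ 2^ω). Alternative without Euler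
products: any proof is fine. -/
def SpgStmt : Prop :=
  ∀ (Q : ℝ) (s : ℕ), 1 ≤ Q → 1 ≤ s → ∑ m ∈ dy Q, Real.sqrt (spart s m : ℝ) ≤ 2 * Q * (tau s) ^ 2

/-- Module Sgc (theorem tSgc; sum of the square roots of gcds). Uses: nothing.
Proof. √(gcd(N,m)) ≤ ∑_{e | N, e | m} √e, so the sum is ≤ ∑_{e | N} √e #{m ∈ dy Q : e | m} ≤ ∑_{e | N} √e 2Q/e ≤ 2Q tau(N)
(card_dy_dvd_le, √e ≤ e). -/
def SgcStmt : Prop :=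
  ∀ (Q : ℝ) (N : ℕ), 1 ≤ Q → 1 ≤ N → ∑ m ∈ dy Q, Real.sqrt (Nat.gcd N m : ℝ) ≤ 2 * Q * tau N

/-- Module Prt (theorem tPrt; product of two terms). Uses: Em, Kap.
Proof. Write t = (l1, l2, k), u = (l1', l2', k'), m1 = g mo. mo is coprime to |k| l1 l2 g and to |k'| l1' l2' g. Kap for t and for u gives κt, κu and
TT t * conj (TT u) = κt conj(κu) (weight of t) conj(weight of u) ei mo C m conj(ei mo C' m); for m ∈ dy Q (Q < m ≤ 2Q) the product of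
the weights is Wv Q A B A' B' κ1 κ1' m (conj (ee x) = ee (-x), EH3.conj_ee; (l1 m1 - l2 m)/k = A + B m), and ei mo C m conj(ei mo C' m) = ei mo (C - C') m (Em (9)).
κ = κt conj(κu) has the period P = |k| |k'| l1 l1' g, a common multiple of |k| l1 g and |k'| l1' g (iterate the period). c = C - C' =
θ (l1 - l2) k (l1 l2 g)^(-1) - θ (l1' - l2') k' (l1' l2' g)^(-1) = θ DD (g l1 l2 l1' l2')^(-1) in ZMod mo (multiply out; all factors are units mod mo). gcd: for z ∈ ℤ and a unit w of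
ZMod mo, gcd((z w).val, mo) = gcd(|z|, mo) (a divisor e of mo divides (z w).val iff it divides z: reduce mod e, or: z w.val ≡ (z w).val mod mo and w.val is coprime to
mo). -/
def PrtStmt : Prop :=
  ∀ (Q : ℝ) (θ : ℤ) (t u : ℕ × ℕ × ℤ) (g mo : ℕ), 1 ≤ Q → 1 ≤ t.1 → 1 ≤ t.2.1 → t.2.2 ≠ 0 → 1 ≤ u.1 → 1 ≤ u.2.1 →
    u.2.2 ≠ 0 → 1 ≤ g → 1 ≤ mo → mo.Coprime (ss t u * g) →
    ∃ (κ : ℕ → ℂ) (c : ZMod mo), (∀ m, κ (m + t.2.2.natAbs * u.2.2.natAbs * (t.1 * u.1 * g)) = κ m) ∧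
      (∀ m, ‖κ m‖ ≤ 1) ∧ Nat.gcd c.val mo = Nat.gcd (θ * DD t u).natAbs mo ∧
      ∀ m ∈ dy Q, TT Q θ t (g * mo) m * (starRingEnd ℂ) (TT Q θ u (g * mo) m) = κ m *
        Wv Q ((t.1 : ℝ) * (g * mo) / t.2.2) (-(t.2.1 : ℝ) / t.2.2) ((u.1 : ℝ) * (g * mo) / u.2.2)
          (-(u.2.1 : ℝ) / u.2.2) (θ * ((t.1 : ℝ) - t.2.1) / (t.1 * (g * mo)))
          (θ * ((u.1 : ℝ) - u.2.1) / (u.1 * (g * mo))) m * ei mo c (m : ZMod mo)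

/-- Module Prs (theorem tPrs; one pair of triples, one m1). Uses: Per, Wvb, Spf, Prt.
Proof. Write t = (l1, l2, k), u = (l1', l2', k'), s = ss t u ≥ 1, g = spart s m1, mo = m1/g, so m1 = g mo, 1 ≤ g, mo and s coprime
(Spf (2)); mo is coprime to g too (every prime dividing g divides s, Spf (3)). Prt gives κ, c and W = Wv ...; W m2 = 0 for m2 ∉ dy Q, so the sum over dy Q
is the sum over m2 < N, N = ⌊2Q⌋₊ + 1. P = |k| |k'| l1 l1' g is coprime to mo. The two phase constants are ≤ |θ|/Q in absolute value since |l1 - l2| ≤ l1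
(both in (L, 2L]) and m1 > Q. Per with V = 13 Q^2 (1 + 2|θ|/Q^2) ≤ 26 Q^2 (1 + |θ|/Q^2) (Wvb): norm ≤ 2 V (N/mo + P (2 + log mo))
(2 tau(mo)^2 gcd(c.val, mo) mo^3)^(1/4). N ≤ 3Q, mo = m1/g > Q/g, so N/mo ≤ 3g ≤ 3P; log mo ≤ log(2Q);
P ≤ (4L)^2 (2L)^2 g = 64 L^4 g. gcd(c.val, mo) = gcd(|θ DD|, mo) divides gcd(|θ DD|, m1) (> 0). tau(mo) ≤ tau(m1). Constant: 2·26·64·2^(1/4) ≤ 4000. -/
def PrsStmt : Prop :=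
  ∀ (Q : ℝ) (L : ℕ) (θ : ℤ) (t u : ℕ × ℕ × ℤ) (m1 : ℕ), 1 ≤ Q → 1 ≤ L → t ∈ tup L → u ∈ tup L → m1 ∈ dy Q →
    ‖∑ m2 ∈ dy Q, TT Q θ t m1 m2 * (starRingEnd ℂ) (TT Q θ u m1 m2)‖ ≤
      4000 * (L : ℝ) ^ 4 * (spart (ss t u) m1 : ℝ) * Q ^ 2 * (1 + |(θ : ℝ)| / Q ^ 2) * (5 + Real.log (2 * Q)) *
        ((tau m1) ^ 2 * (Nat.gcd (θ * DD t u).natAbs m1 : ℝ) * ((m1 : ℝ) / spart (ss t u) m1) ^ 3) ^ ((1 : ℝ) / 4)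

/-- Module Hsa (theorem tHsa; pairs of triples with DD ≠ 0). Uses: Spg, Sgc, Prs.
Proof. There are at most (8 L^3)^2 = 64 L^6 pairs: (prl L).card ≤ L and 8L values of k ≠ 0 (tup L ⊆ the product of prl L, prl L and
Icc(-4L, 4L) without 0). For one pair with g = spart s m1 (s = ss t u, 1 ≤ s ≤ 256 L^6 ≤ Y) and G = gcd(|θ DD|, m1): triangle
inequality over m1 and Prs: g (tau^2 G (m1/g)^3)^(1/4) = tau^(1/2) G^(1/4) g^(1/4) m1^(3/4) ≤ E^(1/2) (2Q)^(3/4) (√G + √g)/2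
(m1 ≤ 2Q ≤ Y). Sum over m1 by Spg, Sgc: ≤ E^(1/2) (2Q)^(3/4) (2Q tau(|θ DD|) + 2Q tau(s)^2)/2 ≤ E^(1/2) (2Q)^(3/4) 2Q E^2, since
|DD| ≤ 4L·L·4L^2·2 = 32 L^4 (|l1 - l2| < L), 1 ≤ |θ DD| ≤ 32 L^4 |θ| ≤ Y, E ≥ 1 (n = 1 in DB). Total ≤ 64 L^6 4000 L^4 Q^2 (1 + ..)(5 + log 2Q)
2^(3/4) 2 Q^(7/4) E^(5/2) ≤ 10^6 L^10 Q^(15/4) (...) E^3. -/
def HsaStmt : Prop :=
  ∀ (Q Y E : ℝ) (L : ℕ) (θ : ℤ), 1 ≤ Q → 1 ≤ L → θ ≠ 0 → 2 * Q ≤ Y → 256 * (L : ℝ) ^ 6 ≤ Y →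
    32 * (L : ℝ) ^ 4 * |(θ : ℝ)| ≤ Y → DB Y E →
    ∑ t ∈ tup L, ∑ u ∈ (tup L).filter (fun u => DD t u ≠ 0),
      ‖∑ m1 ∈ dy Q, ∑ m2 ∈ dy Q, TT Q θ t m1 m2 * (starRingEnd ℂ) (TT Q θ u m1 m2)‖ ≤
      10 ^ 6 * (L : ℝ) ^ 10 * Q ^ ((15 : ℝ) / 4) * (1 + |(θ : ℝ)| / Q ^ 2) * (5 + Real.log (2 * Q)) * E ^ 3

/-! ### The diagonal DD = 0 -/

/-- Module Pdl (theorem tPdl; primes of (L, 2L] dividing N). Uses: nothing.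
Proof. The product of the primes l ∈ prl L with l | N divides N (distinct primes: Finset.prod_primes_dvd or
Nat.prod_primes_dvd), so it is ≤ N ≤ L^j; each factor is > L ≥ 2, so L^card ≤ product ≤ L^j and card ≤ j
(Nat.pow_le_pow_iff_right or pow_le_pow_left). -/
def PdlStmt : Prop :=
  ∀ L N j : ℕ, 2 ≤ L → 1 ≤ N → N ≤ L ^ j → ((prl L).filter (fun l => l ∣ N)).card ≤ j

/-- Module Dza (theorem tDza; the equation DD = 0). Uses: nothing.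
Proof. t = (l1, l2, k), u = (l1', l2', k'): k (l1 - l2) l1' l2' = k' (l1' - l2') l1 l2. (A) If l ∈ {l1, l2} is not in
{l1', l2'} then l | k: l divides the left side, it is coprime to l1', l2' (distinct primes) and to l1 - l2 (the other one is a
different prime). The same with t and u exchanged. (B) If neither l1 nor l2 is in {l1', l2'} then l1 l2 | k (coprime), so
|k| ≥ l1 l2 > L^2 ≥ 5L > 4L, contradiction. (C) If both are: either l1' = l1, l2' = l2, then (cancel (l1 - l2) l1 l2 ≠ 0) k = k';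
or l1' = l2, l2' = l1 and then k' = -k. (D) Otherwise exactly one prime r is common, l is the other entry of t, l' the other
entry of u, l | k, l' | k': k = l κ, |κ| = |k|/l < 4L/L = 4, κ ≠ 0, so κ ∈ Icc (-3) 3; the same for u. -/
def DzaStmt : Prop :=
  ∀ (L : ℕ) (t u : ℕ × ℕ × ℤ), 5 ≤ L → t ∈ tup L → u ∈ tup L → DD t u = 0 →
    u = t ∨ u = (t.2.1, t.1, -t.2.2) ∨
    ∃ (r l l' : ℕ) (κ κ' : ℤ), r ∈ prl L ∧ l ∈ prl L ∧ l' ∈ prl L ∧ l ≠ r ∧ l' ≠ r ∧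
      κ ∈ Finset.Icc (-3 : ℤ) 3 ∧ κ' ∈ Finset.Icc (-3 : ℤ) 3 ∧
      (t = (l, r, l * κ) ∨ t = (r, l, l * κ)) ∧ (u = (l', r, l' * κ') ∨ u = (r, l', l' * κ'))

/-- Module Dzb (theorem tDzb; number of triples for given m1, m2). Uses: nothing.
Proof. For (l1, l2) ∈ prl L × prl L and t = (l1, l2, k) with okt: N = l1 m1 - l2 m2 = k n with n = nq ≥ 1, N ≠ 0, |N| ≤ 4 L Q (both
l1 m1, l2 m2 are in [0, 4LQ]), n divides |N| and k = N/n is determined by n. So the number of k is ≤ tau(|N|) ≤ E. -/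
def DzbStmt : Prop :=
  ∀ (Q E : ℝ) (L m1 m2 : ℕ), 1 ≤ Q → m1 ∈ dy Q → m2 ∈ dy Q → DB (4 * L * Q) E →
    ∀ S : Finset (ℕ × ℕ × ℤ), (∀ t ∈ S, t ∈ tup L ∧ okt Q t m1 m2) →
      (S.card : ℝ) ≤ ((prl L).card : ℝ) ^ 2 * E

/-- Module Dzc (theorem tDzc; pairs of triples of the third kind for given m1, m2). Uses: Pdl.
Proof. If t = (l, r, l κ) ∈ tup L is okt then l m1 - r m2 = l κ n, so l | r m2 and l | m2 (l ≠ r primes); if t = (r, l, l κ)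
then r m1 - l m2 = l κ n and l | m1. So l ∈ B = {l ∈ prl L : l | m1 or l | m2}, card B ≤ 80 by Pdl (j = 40; m1, m2 ≤ 2Q ≤ 4LQ ≤ L^40). The same
for u and l'. So a pair (t, u) in S is determined by r ∈ prl L, l, l' ∈ B, κ, κ' ∈ Icc (-3) 3 (7 values each) and two choices of
the order: card S ≤ (prl L).card · (80·7·2)^2 = 1254400 (prl L).card. -/
def DzcStmt : Prop :=
  ∀ (Q : ℝ) (L m1 m2 : ℕ), 1 ≤ Q → 5 ≤ L → 4 * L * Q ≤ (L : ℝ) ^ 40 → m1 ∈ dy Q → m2 ∈ dy Q →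
    ∀ S : Finset ((ℕ × ℕ × ℤ) × (ℕ × ℕ × ℤ)),
      (∀ w ∈ S, w.1 ∈ tup L ∧ w.2 ∈ tup L ∧ okt Q w.1 m1 m2 ∧ okt Q w.2 m1 m2 ∧
        ∃ (r l l' : ℕ) (κ κ' : ℤ), r ∈ prl L ∧ l ∈ prl L ∧ l' ∈ prl L ∧ l ≠ r ∧ l' ≠ r ∧
          κ ∈ Finset.Icc (-3 : ℤ) 3 ∧ κ' ∈ Finset.Icc (-3 : ℤ) 3 ∧
          (w.1 = (l, r, l * κ) ∨ w.1 = (r, l, l * κ)) ∧ (w.2 = (l', r, l' * κ') ∨ w.2 = (r, l', l' * κ'))) →
      (S.card : ℝ) ≤ 1254400 * ((prl L).card : ℝ)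

/-- Module Hsz (theorem tHsz; pairs of triples with DD = 0). Uses: Dza, Dzb, Dzc.
Proof. |TT Q θ t m1 m2| ≤ 2Q if okt, 0 otherwise (‖ei‖ ≤ 1: the value of ei is 0 or a value of ee). So the left side is
≤ 4Q^2 ∑_{m1,m2 ∈ dy Q} #{(t,u) ∈ tup × tup : DD t u = 0, okt t, okt u}. By Dza this number is ≤ #{(t,t)} + #{(t, swap t)} +
#{third kind} ≤ 2 (prl L).card^2 E + 1254400 (prl L).card (Dzb, Dzc), and (dy Q).card ≤ 2Q. Total ≤ 16 Q^4 (2 + 1254400)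
(prl L).card^2 E ≤ 10^8 Q^4 (prl L).card^2 E (if prl L is empty everything is 0; otherwise card ≤ card^2; E ≥ 1 by DB with n = 1). -/
def HszStmt : Prop :=
  ∀ (Q E : ℝ) (L : ℕ) (θ : ℤ), 1 ≤ Q → 5 ≤ L → 4 * L * Q ≤ (L : ℝ) ^ 40 → DB (4 * L * Q) E →
    ∑ t ∈ tup L, ∑ u ∈ (tup L).filter (fun u => DD t u = 0),
      ‖∑ m1 ∈ dy Q, ∑ m2 ∈ dy Q, TT Q θ t m1 m2 * (starRingEnd ℂ) (TT Q θ u m1 m2)‖ ≤
      10 ^ 8 * Q ^ 4 * ((prl L).card : ℝ) ^ 2 * E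

/-- Module Hsq (theorem tHsq; the Hilbert-Schmidt norm). Uses: Hsa, Hsz.
Proof. ‖∑_t TT t‖^2 = ∑_t ∑_u TT t conj(TT u) (as complex numbers: z conj z = ‖z‖^2), sum over m1, m2, interchange, take norms, split the
u-sum according to DD t u = 0 or not. -/
def HsqStmt : Prop :=
  ∀ (Q Y E : ℝ) (L : ℕ) (θ : ℤ), 1 ≤ Q → 5 ≤ L → θ ≠ 0 → 4 * L * Q ≤ (L : ℝ) ^ 40 → 4 * L * Q ≤ Y →
    256 * (L : ℝ) ^ 6 ≤ Y → 32 * (L : ℝ) ^ 4 * |(θ : ℝ)| ≤ Y → DB Y E →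
    ∑ m1 ∈ dy Q, ∑ m2 ∈ dy Q, ‖∑ t ∈ tup L, TT Q θ t m1 m2‖ ^ 2 ≤
      10 ^ 8 * Q ^ 4 * ((prl L).card : ℝ) ^ 2 * E +
      10 ^ 6 * (L : ℝ) ^ 10 * Q ^ ((15 : ℝ) / 4) * (1 + |(θ : ℝ)| / Q ^ 2) * (5 + Real.log (2 * Q)) * E ^ 3

/-! ### Amplification -/

open Classical in
/-- Module Amp (theorem tAmp; one n). Uses: Em.
Proof. Fix n ≥ 1 (n ∈ dy Q, Q ≥ 1), S = the primes l ∈ prl L with l ∤ n, A = ∑_m α m kf θ m n. (card S) A = ∑_{l ∈ S} ∑_m α m kf θ m n =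
∑_{c : ZMod n} B_c, B_c = ∑_{l ∈ S, m ∈ dy Q, l m = c in ZMod n} α m kf θ m n. Cauchy-Schwarz: (card S)^2 ‖A‖^2 ≤ n ∑_c ‖B_c‖^2, and
∑_c ‖B_c‖^2 = ∑_{(l1,m1),(l2,m2), l1 m1 = l2 m2 in ZMod n} α m1 conj(α m2) kf θ m1 n conj(kf θ m2 n). In this sum kf θ m1 n *
conj(kf θ m2 n) = ei n (θ (l1 - l2)) (l1 m1): l1, l2 are units mod n (primes not dividing n). If m1 is not a unit, both sides are 0. If
m1 is a unit so is l2 m2 = l1 m1 and m2, and m1^(-1) = l1 (l1 m1)^(-1), m2^(-1) = l2 (l2 m2)^(-1) = l2 (l1 m1)^(-1); Em (1), (4). l1 m1 = l2 m2 in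
ZMod n iff (n : ℤ) | l1 m1 - l2 m2. -/
def AmpStmt : Prop :=
  ∀ (Q : ℝ) (L : ℕ) (θ : ℤ) (α : ℕ → ℂ) (n : ℕ), 1 ≤ Q → n ∈ dy Q →
    (((prl L).filter (fun l => ¬ l ∣ n)).card : ℝ) ^ 2 * ‖∑ m ∈ dy Q, α m * kf θ m n‖ ^ 2 ≤
      (n : ℝ) * (∑ l1 ∈ (prl L).filter (fun l => ¬ l ∣ n), ∑ l2 ∈ (prl L).filter (fun l => ¬ l ∣ n),
        ∑ m1 ∈ dy Q, ∑ m2 ∈ dy Q, if (n : ℤ) ∣ (l1 : ℤ) * m1 - l2 * m2 then
          α m1 * (starRingEnd ℂ) (α m2) *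
            ei n ((θ * ((l1 : ℤ) - l2) : ℤ) : ZMod n) ((l1 * m1 : ℕ) : ZMod n) else 0).re

open Classical in
/-- Module Amr (theorem tAmr; change of variable n ↔ k). Uses: nothing.
Proof. N = l1 m1 - l2 m2. If N = 0 the left side is 0 by its condition and on the right all nq = 0, so not okt, TT = 0. Let N ≠ 0. |N| ≤ 4LQ
(both products are in [0, 4LQ]). The n ∈ dy Q with n | N, l1 ∤ n, l2 ∤ n correspond to the k ≠ 0, |k| ≤ 4L with okt Q (l1,l2,k) m1 m2 by k = N/n, n = N/k = nq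
(n > Q gives |k| ≤ 4L; Finset.sum_bij' or sum_nbij' after restricting both sums to nonzero terms), and the terms agree ((nq).toNat = n, (nq : ℂ) = n). -/
def AmrStmt : Prop :=
  ∀ (Q : ℝ) (L : ℕ) (θ : ℤ) (l1 l2 m1 m2 : ℕ), 1 ≤ Q → l1 ∈ prl L → l2 ∈ prl L → m1 ∈ dy Q → m2 ∈ dy Q →
    (∑ n ∈ dy Q, if (n : ℤ) ∣ (l1 : ℤ) * m1 - l2 * m2 ∧ ¬ l1 ∣ n ∧ ¬ l2 ∣ n ∧ l1 * m1 ≠ l2 * m2 then
      (n : ℂ) * ei n ((θ * ((l1 : ℤ) - l2) : ℤ) : ZMod n) ((l1 * m1 : ℕ) : ZMod n) else 0) =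
    ∑ k ∈ (Finset.Icc (-(4 * (L : ℤ))) (4 * (L : ℤ))).filter (fun k => k ≠ 0), TT Q θ (l1, l2, k) m1 m2

/-- Module Ams (theorem tAms; the terms l1 m1 = l2 m2). Uses: Pdl.
Proof. |α m1| |α m2| ≤ (|α m1|^2 + |α m2|^2)/2, by symmetry the sum is ≤ ∑_{l1, m1} |α m1|^2 #{(l2, m2) : l2 m2 = l1 m1}, and the last number is ≤
#{l2 ∈ prl L : l2 | l1 m1} ≤ 40 (m2 is determined by l2; Pdl with j = 40, 1 ≤ l1 m1 ≤ 4LQ ≤ L^40 as real numbers, so as natural numbers). -/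
def AmsStmt : Prop :=
  ∀ (Q : ℝ) (L : ℕ) (α : ℕ → ℂ), 1 ≤ Q → 2 ≤ L → 4 * L * Q ≤ (L : ℝ) ^ 40 →
    (∑ l1 ∈ prl L, ∑ l2 ∈ prl L, ∑ m1 ∈ dy Q, ∑ m2 ∈ dy Q,
      if l1 * m1 = l2 * m2 then ‖α m1‖ * ‖α m2‖ else 0) ≤ 40 * ((prl L).card : ℝ) * ∑ m ∈ dy Q, ‖α m‖ ^ 2

/-- Module Amq (theorem tAmq; sum over n). Uses: Pdl, Amp, Amr, Ams.
Proof. Let 𝓛 = prl L. For n ∈ dy Q at most 40 of the l ∈ 𝓛 divide n (Pdl, j = 40, n ≤ 2Q ≤ L^40), so card S_n ≥ 𝓛.card - 40 ≥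
𝓛.card/2 and (𝓛.card^2/4) ‖A_n‖^2 ≤ the right side of Amp. Sum over n ∈ dy Q and split the terms (l1, l2 ∈ 𝓛, not dividing n; m1, m2; n | l1 m1 - l2 m2).
The terms with l1 m1 = l2 m2: absolute value ≤ ∑_n n ∑_{l1 m1 = l2 m2} |α m1| |α m2| ≤ (2Q)(2Q) 40 𝓛.card ‖α‖^2 (Ams, ‖ei‖ ≤ 1).
The terms with l1 = l2, m1 ≠ m2: n | l1 (m1 - m2), l1 ∤ n prime, so n | m1 - m2 ≠ 0, but |m1 - m2| < Q < n: none. The terms with l1 ≠ l2,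
l1 m1 ≠ l2 m2: interchange with the sum over n; by Amr they give ∑_{m1,m2} α m1 conj(α m2) ∑_{l1 ≠ l2} ∑_k TT Q θ (l1,l2,k) m1 m2, and the inner sums are the sum over
t ∈ tup L. Real part ≤ norm. -/
def AmqStmt : Prop :=
  ∀ (Q : ℝ) (L : ℕ) (θ : ℤ) (α : ℕ → ℂ), 1 ≤ Q → 2 ≤ L → 4 * L * Q ≤ (L : ℝ) ^ 40 → 80 ≤ (prl L).card →
    ((prl L).card : ℝ) ^ 2 / 4 * ∑ n ∈ dy Q, ‖∑ m ∈ dy Q, α m * kf θ m n‖ ^ 2 ≤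
      160 * Q ^ 2 * ((prl L).card : ℝ) * ∑ m ∈ dy Q, ‖α m‖ ^ 2 +
      ‖∑ m1 ∈ dy Q, ∑ m2 ∈ dy Q, α m1 * (starRingEnd ℂ) (α m2) * ∑ t ∈ tup L, TT Q θ t m1 m2‖

/-- Module Csb (theorem tCsb; Cauchy-Schwarz). Uses: nothing.
Proof. Triangle inequality, then Cauchy-Schwarz over pairs (Finset.sum_mul_sq_le_sq_mul_sq or
Finset.inner_mul_le_norm_mul_norm on S ×ˢ S): (∑ |a m1| |a m2| |K|)^2 ≤ (∑_{m1,m2} |a m1|^2 |a m2|^2) (∑ |K|^2) and the first factor is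
(∑ |a|^2)^2. -/
def CsbStmt : Prop :=
  ∀ (S : Finset ℕ) (a : ℕ → ℂ) (K : ℕ → ℕ → ℂ),
    ‖∑ m1 ∈ S, ∑ m2 ∈ S, a m1 * (starRingEnd ℂ) (a m2) * K m1 m2‖ ≤
      (∑ m ∈ S, ‖a m‖ ^ 2) * Real.sqrt (∑ m1 ∈ S, ∑ m2 ∈ S, ‖K m1 m2‖ ^ 2)

/-- Module Prl (theorem tPrl; many primes in (L, 2L]). Uses: the prime number theorem Pool.Agent.Lib.BV.PntStmt
(h1 : Pool.Agent.Lib.BV.PntStmt).
Proof. PNT with A = 2: the number of primes in (L, 2L] is npr(2L) - npr(L) ≥ li(2L) - li(L) - C 2L/(log 2L)^2 - C L/(log L)^2 ≥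
L/log(2L) - 3 C L/(log L)^2 ≥ L/(4 log L) for large L (log(2L) ≤ 2 log L; li(2L) - li(L) = ∫_L^{2L} dt/log t ≥ L/log(2L)). -/
def PrlStmt : Prop :=
  ∃ L0 : ℕ, 5 ≤ L0 ∧ ∀ L : ℕ, L0 ≤ L → (L : ℝ) ≤ 4 * Real.log L * ((prl L).card : ℝ)

/-- Module Kfb (theorem tKfb; combination for given L). Uses: Hsq, Amq, Csb.
Proof. Amq; the last norm by Csb with K m1 m2 = ∑_{t ∈ tup L} TT Q θ t m1 m2 and Hsq. -/
def KfbStmt : Prop :=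
  ∀ (Q Y E : ℝ) (L : ℕ) (θ : ℤ) (α : ℕ → ℂ), 1 ≤ Q → 5 ≤ L → θ ≠ 0 → 4 * L * Q ≤ (L : ℝ) ^ 40 → 80 ≤ (prl L).card →
    4 * L * Q ≤ Y → 256 * (L : ℝ) ^ 6 ≤ Y → 32 * (L : ℝ) ^ 4 * |(θ : ℝ)| ≤ Y → DB Y E →
    ((prl L).card : ℝ) ^ 2 / 4 * ∑ n ∈ dy Q, ‖∑ m ∈ dy Q, α m * kf θ m n‖ ^ 2 ≤
      (160 * Q ^ 2 * ((prl L).card : ℝ) + Real.sqrt (10 ^ 8 * Q ^ 4 * ((prl L).card : ℝ) ^ 2 * E +
        10 ^ 6 * (L : ℝ) ^ 10 * Q ^ ((15 : ℝ) / 4) * (1 + |(θ : ℝ)| / Q ^ 2) * (5 + Real.log (2 * Q)) * E ^ 3)) *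
        ∑ m ∈ dy Q, ‖α m‖ ^ 2

/-- Module Kfa (theorem tKfa; choice of L). Uses: Dvb, Prl, Kfb.
Proof. Let a small ε' > 0 (a fixed fraction of ε, e.g. ε' = ε/40). L = ⌊Q^(1/32)⌋₊. For Q ≥ Q0(ε): L ≥ L0, L ≥ Q^(1/32)/2, L^6 ≤ Q,
4 L Q ≤ L^40 (Q^(1/32) < L + 1 ≤ 2L gives Q ≤ 2^32 L^32, so 4 L Q ≤ 2^34 L^33 ≤ L^40 for large L), 80 ≤ (prl L).card (Prl). Y = 256 Q^2 |θ|
satisfies all conditions of Kfb (|θ| ≥ 1), E = C1 Y^ε' (Dvb; C1 ≥ 1). Kfb, with N = (prl L).card, ‖α‖^2 = ∑ |α|^2,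
S = ∑_n ‖A_n‖^2: (N^2/4) S ≤ ‖α‖^2 [160 Q^2 N + 10^4 Q^2 N E^(1/2) + 10^3 L^5 Q^(15/8) (1+|θ|/Q^2)^(1/2) (5 + log 2Q)^(1/2) E^(3/2)]
(√(a + b) ≤ √a + √b). Divide by N^2/4 with N ≥ L/(4 log L) (Prl), L ≤ Q^(1/32) ≤ 2L: Q^2/N ≤ 8 log Q Q^(63/32) and L^5 Q^(15/8)/N^2 ≤ 16 (log Q)^2
L^3 Q^(15/8) ≤ 16 (log Q)^2 Q^(63/32); E^(3/2) ≤ C (Q^2 |θ|)^(3ε'/2); powers of log Q and Q^(3ε') are ≤ C Q^(ε) (and |θ|^(3ε'/2) ≤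
|θ|^ε). For Q < Q0: ‖A_n‖^2 ≤ (dy Q).card ‖α‖^2 ≤ 2Q ‖α‖^2 (Cauchy-Schwarz, |kf| ≤ 1), S ≤ 4 Q0^2 ‖α‖^2, and all the other factors on
the right are ≥ 1. -/
def KfaStmt : Prop :=
  ∀ ε : ℝ, 0 < ε → ∃ C : ℝ, 0 < C ∧ ∀ (Q : ℝ) (θ : ℤ) (α : ℕ → ℂ), 1 ≤ Q → θ ≠ 0 →
    ∑ n ∈ dy Q, ‖∑ m ∈ dy Q, α m * kf θ m n‖ ^ 2 ≤
      C * (Q ^ ((63 : ℝ) / 32 + ε) * (1 + |(θ : ℝ)| / Q ^ 2) ^ ((1 : ℝ) / 2) * |(θ : ℝ)| ^ ε) *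
        ∑ m ∈ dy Q, ‖α m‖ ^ 2

/-- Module Kft (theorem tKft; bilinear forms with Kloosterman fractions). Uses: Kfa.
Proof. Cauchy-Schwarz in n: |∑_n β n A_n| ≤ (∑ |β|^2)^(1/2) (∑_n |A_n|^2)^(1/2) with A_n = ∑_m α m kf θ m n, and Kfa with 2ε. -/
def KftStmt : Prop :=
  ∀ ε : ℝ, 0 < ε → ∃ C : ℝ, 0 < C ∧ ∀ (Q : ℝ) (θ : ℤ) (α β : ℕ → ℂ), 1 ≤ Q → θ ≠ 0 →
    ‖∑ m ∈ dy Q, ∑ n ∈ dy Q, α m * β n * kf θ m n‖ ≤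
      C * (Q ^ ((63 : ℝ) / 64 + ε) * (1 + |(θ : ℝ)| / Q ^ 2) ^ ((1 : ℝ) / 4) * |(θ : ℝ)| ^ ε) *
        (Real.sqrt (∑ m ∈ dy Q, ‖α m‖ ^ 2) * Real.sqrt (∑ n ∈ dy Q, ‖β n‖ ^ 2))

end Pool.Agent.Lib.KF
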