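import Pool.Agent.Lib.KF.SpecV

/-!
MP_00e23e_nt, directory Lib/KF, part D (architect helper81): theorem W3, the maximum over all residues in
(short) intervals. The families A_j of sets of integers are only restricted through the sets of DIFFERENCES
A_k - A_j, j <> k: sum over the differences h of tau(|h|) at most min(x^(1/2), x/Q)/(log x)^E. For pairwise disjoint
subsets of intervals of length min(x^(1/2), x/Q)/(log x)^E' this follows from the bound for the mean of tau in short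
intervals (Shv). Then for all but C (1 + Q^2/x) (log x)^(5U+18) of the j: the sum over d ≤ Q of the maximum over y ≤ x and
a ∈ A_j, (a,d) = 1, of |E(y;d,a)| is ≤ C x/(log x)^U.
Rules: see SpecK.lean (first line of the modules of this part: `import Pool.Agent.Lib.KF.SpecD`; also
open Pool.Agent.Results.MP_00e23e_nt). MOST MODULES ARE ADAPTATIONS of landed modules of part V: copy the old file,
rename the private lemmas, change the few lines.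
-/

namespace Pool.Agent.Lib.KF

open Finset Pool.Agent.Lib.EH3 Pool.Agent.Results.MP_00e23e_nt

/-- the set of the differences b' - b, b ∈ A, b' ∈ A' -/
noncomputable def Dif (A A' : Finset ℤ) : Finset ℤ := (A ×ˢ A').image (fun p => p.2 - p.1)

/-- the family: the values a j d are in A j, different sets are disjoint, and the sum of tau over the
differences of two different sets is at most W -/
def Fad (J : Finset ℕ) (A : ℕ → Finset ℤ) (a : ℕ → ℕ → ℤ) (W : ℝ) : Prop :=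
  (∀ j ∈ J, ∀ d, a j d ∈ A j) ∧
    ∀ j ∈ J, ∀ k ∈ J, j ≠ k → Disjoint (A j) (A k) ∧ ∑ h ∈ Dif (A j) (A k), tau h.natAbs ≤ W

/-- Module Zsd (theorem tZsd; the square sum of the coefficients). Uses: nothing. ADAPT Lib/KF/Zsb.lean.
Proof. As Zsb, but the pairs (j,d), (k,d') with j ≠ k and r | a k d' - a j d: the difference h = a k d' - a j d is in
Dif (A j) (A k) and r | h, so the indicator is at most #{h ∈ Dif (A j) (A k) : r | h} (this replaces the number of pairs b, b' in Zsb_X, Zsb_pair).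
Hence for fixed r the sum is ≤ (4/r) [J.card + ∑_{j ≠ k} #{h ∈ Dif (A j) (A k) : r | h}]; h ≠ 0 by disjointness; sum over r ∈ (r0, 2 r0]: #{r : r | h} ≤ tau |h|. -/
def ZsdStmt : Prop :=
  ∀ (Q W : ℝ) (J : Finset ℕ) (A : ℕ → Finset ℤ) (c : ℕ → ℕ → ℝ) (a : ℕ → ℕ → ℤ) (r0 : ℕ), 1 ≤ Q → 1 ≤ r0 →
    0 ≤ W → (∀ j d, |c j d| ≤ 1) → Fad J A a W →
    ∑ r ∈ Ioc r0 (2 * r0), ∑ h ∈ (range r).filter (fun h => h.Coprime r), ‖zb Q J c a r h‖ ^ 2 ≤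
      4 * ((J.card : ℝ) + (J.card : ℝ) ^ 2 * W / r0)

/-- Module Wld (theorem tWld; L^2 bound). Uses: Fls, Zsd, Ggb. ADAPT Lib/KF/Wlb.lean (W in place of T M^2). -/
def WldStmt : Prop :=
  ∀ (X R : ℕ) (Q W : ℝ) (J : Finset ℕ) (A : ℕ → Finset ℤ) (c : ℕ → ℕ → ℝ) (a : ℕ → ℕ → ℤ), 1 ≤ X → 1 ≤ R →
    1 ≤ Q → 0 ≤ W → (∀ j d, |c j d| ≤ 1) → Fad J A a W →
    ∑ n ∈ range (X + 1), (∑ j ∈ J, gb R Q (c j) (a j) (n : ℤ)) ^ 2 ≤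
      8000 * (1 + Real.log (2 * Q)) ^ 2 *
        (((X : ℝ) + Q ^ 2) * J.card + ((X : ℝ) / R + Q) * W * (J.card : ℝ) ^ 2)

/-- Module Bvd (theorem tBvd; Bombieri-Vinogradov up to √x/(log x)^(A+2)). Uses: Pool.Agent.Lib.BV.ExtStmt
(signature: theorem tBvd (h1 : Pool.Agent.Lib.BV.ExtStmt) : BvdStmt). ADAPT Lib/KF/Bvy.lean.
Proof. D = ⌊x^(1/2)/(log x)^(A+2)⌋₊. D = 0: the sum is empty. Otherwise Ext with the constant function y: √x D (2 log x)^2 ≤ 4 x/(log x)^A. 3 ≤ x < 16: all is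
bounded (EH.maxErr_le, D ≤ 4 as log x ≥ 1). -/
def BvdStmt : Prop :=
  ∀ A : ℝ, 0 < A → ∃ C : ℝ, 0 < C ∧ ∀ x y : ℝ, 3 ≤ x → 2 ≤ y → y ≤ x →
    ∑ d ∈ Icc 1 ⌊x ^ ((1 : ℝ) / 2) / (Real.log x) ^ (A + 2)⌋₊, maxErr y d ≤ C * (x / (Real.log x) ^ A)

/-- Module Wbd (theorem tWbd; one dyadic block and one y). Uses: Ttb, Bvd, Blb, Wld (signature:
theorem tWbd (h2 : TtbStmt) (h3 : BvdStmt) (h4 : BlbStmt) (h5 : WldStmt) : WbdStmt). ADAPT Lib/KF/Wbb.lean.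
Proof. L = log x (large), X = ⌊x⌋₊, R = ⌊x^(1/2)/L^(U+5)⌋₊ ≤ Q, n = J.card, W = min(x^(1/2), x/Q)/L^(3U+10). For j ∈ J (Blb, Ttb, Bvd with the exponent A = U + 3, A + 2 = U + 5;
|li y| ≤ 2x): x/L^(U+1) < ∑_{p ≤ y} gb R Q (c j) (a j) p + T_j, T_j ≤ 2 (1 + log 2Q) C x/L^(U+3) + 16 x/√R ≤ x/(4 L^(U+1)). Sum over j ∈ J:
(3/4) n x/L^(U+1) ≤ √x (∑_{n < X+1} (∑_j gb)^2)^(1/2). Square and Wld; (X/R + Q) W ≤ (2 x^(1/2) L^(U+5) + Q) min(x^(1/2), x/Q)/L^(3U+10) ≤ 3 x L^(U+5)/L^(3U+10) = 3 x/L^(2U+5), so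
512000 L^2 L^(2U+2) (X/R + Q) W ≤ 1536000 x/L ≤ x (Wbb_alg). -/
def WbdStmt : Prop :=
  ∀ U : ℝ, 0 < U → ∃ C x0 : ℝ, 0 < C ∧ 3 ≤ x0 ∧
    ∀ (x y Q : ℝ) (J : Finset ℕ) (A : ℕ → Finset ℤ) (a : ℕ → ℕ → ℤ), x0 ≤ x → 2 ≤ y → y ≤ x →
    x ^ ((1 : ℝ) / 2) / (Real.log x) ^ (U + 5) ≤ Q → Q ≤ x →
    Fad J A a (min (x ^ ((1 : ℝ) / 2)) (x / Q) / (Real.log x) ^ (3 * U + 10)) →
    (∀ j ∈ J, x / (Real.log x) ^ (U + 1) < ∑ d ∈ dyb Q (a j), |resErr y d (a j d)|) →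
    (J.card : ℝ) ≤ C * ((1 + Q ^ 2 / x) * (Real.log x) ^ (2 * U + 4))

/-- Module Wdf (theorem tWdf; dyadic decomposition, real inequalities only). Uses: nothing. ADAPT Lib/KF/Wde.lean.
Proof. I the least natural number with Q/2^I ≤ 2 x^(1/2)/L^B, L = log x. For i < I: Q/2^i > 2 x^(1/2)/L^B, so Q/2^(i+1) > x^(1/2)/L^B. If I ≥ 1, 2^(I-1) < Q L^B/(2 x^(1/2)) ≤
x^(1/2) L^B/2 ≤ x^(11/20), I ≤ 1 + 0.55 log x/log 2 ≤ log x for large x. If d ≤ Q: either d ≤ Q/2^I ≤ 2 x^(1/2)/L^B ≤ x^(1/2)/L^(B-1) (L ≥ 2), or for some i < I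
Q/2^(i+1) < d ≤ Q/2^i, i.e. d ∈ dy (Q/2^(i+1)) (mem_dy). -/
def WdfStmt : Prop :=
  ∀ B : ℝ, 0 < B → ∃ x1 : ℝ, 3 ≤ x1 ∧ ∀ x Q : ℝ, x1 ≤ x → 1 ≤ Q → Q ≤ x → ∃ I : ℕ,
    (I : ℝ) ≤ Real.log x ∧ (∀ i < I, x ^ ((1 : ℝ) / 2) / (Real.log x) ^ B ≤ Q / 2 ^ (i + 1)) ∧
    ∀ d ∈ Icc 1 ⌊Q⌋₊, d ∈ Icc 1 ⌊x ^ ((1 : ℝ) / 2) / (Real.log x) ^ (B - 1)⌋₊ ∨
      ∃ i < I, d ∈ dy (Q / 2 ^ (i + 1))

/-- Module Wfd (theorem tWfd; the theorem for families with few differences). Uses: Rse, Bvd, Wbd, Grd, Wdf.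
ADAPT Lib/KF/Wfb.lean.
Proof. As Wfb, with U' = 2U + 5: Wdf with B = U' + 5, Bvd with the exponent A = U' + 2 (A + 2 = B - 1; x/L^(U'+2) ≤ x/L^(U'+1)), Wbd with U' (3U' + 10 = 6U + 25;
min(x^(1/2), x/Q) ≤ min(x^(1/2), x/Q_i), so Fad holds for the blocks, with the chosen functions a). -/
def WfdStmt : Prop :=
  ∀ U : ℝ, 0 < U → ∃ C : ℝ, ∀ (x Q : ℝ) (J : Finset ℕ) (A : ℕ → Finset ℤ), 3 ≤ x → 1 ≤ Q → Q ≤ x →
    (∀ j ∈ J, ∀ k ∈ J, j ≠ k → Disjoint (A j) (A k) ∧ ∑ h ∈ Dif (A j) (A k), tau h.natAbs ≤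
      min (x ^ ((1 : ℝ) / 2)) (x / Q) / (Real.log x) ^ (6 * U + 25)) →
    ∃ S ⊆ J, (S.card : ℝ) ≤ C * ((1 + Q ^ 2 / x) * (Real.log x) ^ (5 * U + 18)) ∧
      ∀ j ∈ J, j ∉ S → ∀ (y : ℕ → ℝ) (a : ℕ → ℤ), (∀ d, 2 ≤ y d ∧ y d ≤ x) → (∀ d, a d ∈ A j) →
        ∑ d ∈ (Icc 1 ⌊Q⌋₊).filter (fun d : ℕ => Int.gcd (a d) d = 1), |resErr (y d) d (a d)| ≤
          C * (x / (Real.log x) ^ U)

/-- Module Tpk (theorem tTpk; powers of tau). Uses: nothing.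
Proof. Induction on k; k = 0: ∑ 1/d ≤ 1 + log z (harmonic_le_one_add_log, as Wfb_harm in Wfb.lean). tau(d)^(k+1) = ∑_{e | d} tau(d)^k; with d = e m, tau(e m) ≤ tau(e) tau(m)
(the divisors of e m are products of divisors: Nat.divisors_mul, card_mul_le, or Nat.Coprime-free: the map (u,v) ↦ u v from divisors e ×ˢ divisors m is onto
divisors (e m), Nat.dvd_mul): ∑_{d ≤ z} tau(d)^(k+1)/d ≤ ∑_{e,m ≤ z} (tau(e)^k/e) (tau(m)^k/m) = (∑_{d ≤ z} tau(d)^k/d)^2. -/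
def TpkStmt : Prop :=
  ∀ k z : ℕ, 1 ≤ z → ∑ d ∈ Icc 1 z, tau d ^ k / (d : ℝ) ≤ (1 + Real.log z) ^ (2 ^ k)

/-- Module Shu (theorem tShu; a small divisor with many divisors). Uses: nothing.
Proof. Induction on K. K = 0: n = 1, d = 1. K + 1: if n ≤ z take d = n. Let n > z and d₁ the largest divisor of n with d₁ ≤ z (1 is one); n/d₁ > 1 has a prime
factor q; d₁ q | n, so d₁ q > z by maximality. n' = n/(d₁ q) < n/z ≤ z^K, so the induction gives d' | n', d' ≤ z, tau(n') ≤ 2^K tau(d')^(K+1).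
tau(n) ≤ tau(d₁) tau(q) tau(n') ≤ 2 tau(d₁) 2^K tau(d')^(K+1) (tau submultiplicative). Take for d the one of d₁, d' with more divisors. -/
def ShuStmt : Prop :=
  ∀ K n z : ℕ, 1 ≤ n → 1 ≤ z → n ≤ z ^ K →
    ∃ d, d ∣ n ∧ d ≤ z ∧ n.divisors.card ≤ 2 ^ K * d.divisors.card ^ (K + 1)

/-- Module Shv (theorem tShv; the mean of tau in short intervals). Uses: Tpk, Shu.
Proof. By Shu tau(|h|) ≤ 2^K ∑_{d ≤ z, d | h} tau(d)^(K+1) (all terms ≥ 0). Interchange; #{h ∈ S : d | h} ≤ M/d + 1 ≤ 2M/d for d ≤ z ≤ M (multiples of d in [u, u + M]: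
Int.card_multiples, or Int.Ioc_filter_dvd_card, or the injection h ↦ h/d into an interval). So the sum is ≤ 2^(K+1) M ∑_{d ≤ z} tau(d)^(K+1)/d, Tpk. -/
def ShvStmt : Prop :=
  ∀ (K z M : ℕ) (u : ℤ) (S : Finset ℤ), 1 ≤ z → z ≤ M → (∀ h ∈ S, h ≠ 0 ∧ u ≤ h ∧ h ≤ u + M ∧ h.natAbs ≤ z ^ K) →
    ∑ h ∈ S, tau h.natAbs ≤ 2 ^ (K + 1) * (M : ℝ) * (1 + Real.log z) ^ (2 ^ (K + 1))

/-- Module Fdd (theorem tFdd; the final theorem of part D). Uses: Wfd, Shv, Dvb (signature: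
theorem tFdd (h1 : WfdStmt) (h2 : ShvStmt) (h3 : DvbStmt) : FddStmt).
Proof. L = log x, m = min(x^(1/2), x/Q) ≥ x^ε (ε ≤ 1/2). For x < x2 take S = the empty set (trivial bound |resErr| ≤ 2x as in Wfb). Let x ≥ x2.
(1) Intervals: every A j is contained in [u j, u j + m/L^E]. So Dif (A j) (A k) is contained in an interval [u, u + M] with a natural number M, 2m/L^E ≤ M ≤ 4m/L^E, M ≥ x^(ε/2);
its elements are ≠ 0 and ≤ 2 x^B in absolute value. z = ⌊x^(ε/2)⌋₊ ≤ M, z ≥ x^(ε/4), so 2 x^B ≤ z^K with K = ⌈4 (B + 1)/ε⌉₊. Shv: the sum is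
≤ 2^(K+1) M (1 + L)^(2^(K+1)) ≤ 2^(K+3) (m/L^E) (2L)^(2^(K+1)) ≤ m/L^(6U+25) if E = 6U + 26 + 2^(K+1) and L ≥ 2^(K+3) 2^(2^(K+1)).
(2) Few differences: Dif (A j) (A k) has at most x^(-ε) m elements, each with tau ≤ C x^(ε/2) (Dvb), so the sum is ≤ C x^(-ε/2) m ≤ m/L^(6U+25).
Apply Wfd. -/
def FddStmt : Prop :=
  ∀ ε U B : ℝ, 0 < ε → ε ≤ 1 / 2 → 0 < U → 0 < B → ∃ C E : ℝ, 0 < E ∧ ∀ (x Q : ℝ) (J : Finset ℕ) (A : ℕ → Finset ℤ),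
    3 ≤ x → 1 ≤ Q → Q ≤ x ^ (1 - ε) →
    (∀ j ∈ J, ∀ b ∈ A j, |(b : ℝ)| ≤ x ^ B) → (∀ j ∈ J, ∀ k ∈ J, j ≠ k → Disjoint (A j) (A k)) →
    ((∀ j ∈ J, ∀ b ∈ A j, ∀ b' ∈ A j, |(b' : ℝ) - b| ≤ min (x ^ ((1 : ℝ) / 2)) (x / Q) / (Real.log x) ^ E) ∨
      ∀ j ∈ J, ∀ k ∈ J, j ≠ k →
        ((Dif (A j) (A k)).card : ℝ) ≤ x ^ (-ε) * min (x ^ ((1 : ℝ) / 2)) (x / Q)) →
    ∃ S ⊆ J, (S.card : ℝ) ≤ C * ((1 + Q ^ 2 / x) * (Real.log x) ^ (5 * U + 18)) ∧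
      ∀ j ∈ J, j ∉ S → ∀ (y : ℕ → ℝ) (a : ℕ → ℤ), (∀ d, 2 ≤ y d ∧ y d ≤ x) → (∀ d, a d ∈ A j) →
        ∑ d ∈ (Icc 1 ⌊Q⌋₊).filter (fun d : ℕ => Int.gcd (a d) d = 1), |resErr (y d) d (a d)| ≤
          C * (x / (Real.log x) ^ U)

end Pool.Agent.Lib.KF
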