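import Pool.Agent.Lib.KF.SpecL
import Pool.Agent.Lib.KF.Defs
import Pool.Agent.Lib.BV.SpecE
import Pool.Agent.Lib.EH.Basic

/-!
MP_00e23e_nt, directory Lib/KF (architect helper3), part F: the primes. For every U > 0 and x ≥ 3, for all
integers |a| ≤ x outside a set of at most C (log x)^(2U+8) elements, the sum over d ≤ x^(501/1000), (d,a) = 1,
of |E(x;d,a)| is ≤ C x/(log x)^U. Rules: see SpecK.lean (first line of the modules of this part: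
`import Pool.Agent.Lib.KF.SpecF`; also open Pool.Agent.Results.MP_00e23e_nt).
-/

namespace Pool.Agent.Lib.KF

open Finset Pool.Agent.Lib.EH3 Pool.Agent.Results.MP_00e23e_nt

/-- the sum over the primes p ≤ x of the model of [d | p - a] -/
noncomputable def ellp (x : ℝ) (R d : ℕ) (a : ℤ) : ℝ :=
  ∑ p ∈ (Icc 1 ⌊x⌋₊).filter Nat.Prime, ell R d ((p : ℤ) - a)

/-- the moduli d in (Q, 2Q] coprime to a -/
noncomputable def dya (Q : ℝ) (a : ℤ) : Finset ℕ := (dy Q).filter (fun d : ℕ => Int.gcd a d = 1)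

/-- Module Rse (theorem tRse). Uses: nothing.
Proof. Let l ∈ {1, ..., d} with (l : ℤ) ≡ a mod d (l = a mod d, or d if that is 0). Then resCount x d a = primeCount x d l (d | p - a iff
p ≡ l mod d), l is coprime to d as a is, so |resErr x d a| = |err x d l| ≤ maxErr x d (EH.le_maxErr in Lib/EH/Basic.lean). -/
def RseStmt : Prop :=
  ∀ (x : ℝ) (d : ℕ) (a : ℤ), 1 ≤ d → Int.gcd a d = 1 → |resErr x d a| ≤ maxErr x d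

/-- Module Elp (theorem tElp). Uses: Lph, Rse.
Proof. ellp x R d a = ∑_{e | d} lam R d e resCount x e a (interchange), resCount x e a = li x/φ(e) + resErr x e a, and gcd(a, e) = 1 for e | d:
|resErr x e a| ≤ maxErr x e (Rse). By Lph ∑_{e | d} lam R d e/φ(e) = (1/d) ∑_{r | d, r ≤ R} μ(r)^2/φ(r) = 1/φ(d) - (1/d) ∑_{r | d, r > R} μ(r)^2/φ(r). -/
def ElpStmt : Prop :=
  ∀ (x : ℝ) (R d : ℕ) (a : ℤ), 1 ≤ d → Int.gcd a d = 1 →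
    |ellp x R d a - li x / (d.totient : ℝ)| ≤ ∑ e ∈ d.divisors, |lam R d e| * maxErr x e +
      |li x| * ((1 / (d : ℝ)) * ∑ r ∈ d.divisors.filter (fun r => R < r), 1 / (r.totient : ℝ))

/-- Module Tta (theorem tTta). Uses: Lam, Dsb, Elp.
Proof. Sum Elp over d ∈ dya Q a ⊆ dy Q. First part: lam R d e = 0 for e > R (Lam (2)), and for e ≤ R: ∑_{d ∈ dy Q, e | d} |lam R d e| ≤
∑_{d = e t} (1/t) tau(t) ≤ (e/Q) ∑_{t ≤ 2Q/e} tau(t) ≤ 2 (1 + log 2Q) (Lam (1), Dsb (1), as in Gam). Second part: ∑_{d ∈ dy Q} (1/d) ∑_{r | d, r > R} 1/φ(r)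
≤ ∑_{R < r ≤ 2Q} (1/φ(r)) (2Q/r) (1/Q) = ∑ 2/(r φ(r)), and r ≤ φ(r) tau(r) (or r ≤ (ω(r) + 1) φ(r), EH.le_totient, ω(r) + 1 ≤ tau(r)), tau(r) ≤ 2 √r, so
1/φ(r) ≤ 2/√r and the sum is ≤ ∑_{r > R} 4 r^(-3/2) ≤ 8/√R (r^(-3/2) ≤ 2 (1/√(r-1) - 1/√r)). -/
def TtaStmt : Prop :=
  ∀ (x Q : ℝ) (R : ℕ) (a : ℤ), 1 ≤ Q → 1 ≤ R → (R : ℝ) ≤ Q →
    ∑ d ∈ dya Q a, |ellp x R d a - li x / (d.totient : ℝ)| ≤
      2 * (1 + Real.log (2 * Q)) * ∑ e ∈ Icc 1 R, maxErr x e + 8 * |li x| / Real.sqrt R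

/-- Module Bvz (theorem tBvz; Bombieri-Vinogradov in the range needed). Uses: Pool.Agent.Lib.BV.ExtStmt
(h1 : Pool.Agent.Lib.BV.ExtStmt).
Proof. x ≥ 16: Ext with D = ⌊x^(4996/10000)⌋₊, y d = x: √x D Kf.. : Kf x D ≤ 16 + √x ≤ x^2 (see its definition in Lib/BV), so its log and loglog
are ≤ 2 log x, √x D ≤ x^(0.9996), and x^0.9996 (2 log x)^2 ≤ C x/(log x)^A. 3 ≤ x < 16: the left side is ≤ 16·2·16 (EH.maxErr_le) and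
x/(log x)^A ≥ 3/3^A (log x ≤ 3 for x ≤ 16). (The sum is monotone in D; D ≥ 1 since x ≥ 1.) -/
def BvzStmt : Prop :=
  ∀ A : ℝ, 0 < A → ∃ C : ℝ, 0 < C ∧ ∀ x : ℝ, 3 ≤ x →
    ∑ d ∈ Icc 1 ⌊x ^ ((4996 : ℝ) / 10000)⌋₊, maxErr x d ≤ C * (x / (Real.log x) ^ A)

open Classical in
/-- the sign of resErr for d coprime to a, 0 otherwise -/
noncomputable def sgn (x : ℝ) (a : ℤ) (d : ℕ) : ℝ :=
  if Int.gcd a d = 1 then (if 0 ≤ resErr x d a then 1 else -1) else 0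

/-- Module Blc (theorem tBlc; the sum of |resErr| in terms of gg). Uses: nothing.
Proof. For d ∈ dya Q a: |resErr x d a| = sgn x a d * resErr x d a and resErr x d a = ∑_{p ≤ x} ([d | p - a] - ell R d (p - a)) + (ellp x R d a - li x/φ(d)). Sum over d:
∑_{d ∈ dy Q} sgn x a d (...) (sgn = 0 if gcd(a,d) ≠ 1), interchange with the sum over p: gg; and |sgn| ≤ 1. -/
def BlcStmt : Prop :=
  ∀ (x Q : ℝ) (R : ℕ) (a : ℤ),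
    ∑ d ∈ dya Q a, |resErr x d a| ≤ (∑ p ∈ (Icc 1 ⌊x⌋₊).filter Nat.Prime, gg R Q (sgn x a) ((p : ℤ) - a)) +
      ∑ d ∈ dya Q a, |ellp x R d a - li x / (d.totient : ℝ)|

/-- Module Bld (theorem tBld; Cauchy-Schwarz). Uses: Vap.
Proof. At most x primes p ≤ x. (∑_p |F p|)^2 ≤ x ∑_p F(p)^2 and ∑_{p ≤ x} F(p)^2 ≤ ∑_{n ∈ zs X} vX n F(n)^2, X = ⌊x⌋₊, since vX p = 1 for 0 ≤ p ≤ X and vX ≥ 0
(p ↦ (p : ℤ) is injective into zs X). -/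
def BldStmt : Prop :=
  ∀ (x : ℝ) (F : ℤ → ℝ), 1 ≤ x →
    ∑ p ∈ (Icc 1 ⌊x⌋₊).filter Nat.Prime, |F (p : ℤ)| ≤
      Real.sqrt x * Real.sqrt (∑ n ∈ zs ⌊x⌋₊, vX ⌊x⌋₊ n * (F n) ^ 2)

/-- Module Blk (theorem tBlk; one dyadic block). Uses: Gab, Lsq, Tta, Bvz, Blc, Bld.
Proof. L = log x, X = ⌊x⌋₊, R = ⌊X^0.4985⌋₊, c a d = sgn x a d. For a ∈ A (Blc): x/L^(U+1) < ∑_{p ≤ x} g_a(p) + T_a, g_a(n) = gg R Q (c a) (n - a), and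
T_a ≤ 2 (1 + log 2Q) C x/L^(U+3) + 8 |li x|/√R ≤ x/(4 L^(U+1)) for x large
(Tta, Bvz with A = U + 3, R ≤ x^0.4996; |li x| ≤ 2x, EH.li_le, li_nonneg). Sum over a ∈ A, n = A.card: (3/4) n x/L^(U+1) ≤ ∑_{p ≤ x} ∑_{a ∈ A, a ≠ p} g_a(p) + n max |gg(0)| and
|gg R Q (c a) 0| ≤ 4Q (1 + log 2Q) ≤ x/(4 L^(U+1)) (Gab (3); each a equals at most one p). So (1/2) n x/L^(U+1) ≤ ∑_{p ≤ x} |∑_{a ∈ A.erase p} g_a(p)| ≤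
x^(1/2) (∑_{n ∈ zs X} vX n (∑_{a ∈ A.erase n} g_a(n))^2)^(1/2) (Bld) ≤ x^(1/2) (C n x (1+L)^5 + 2 n^2 x^(3999/4000))^(1/2) (Lsq). Square: n^2 x^2/(4 L^(2U+2)) ≤
C n x^2 (1+L)^5 + 2 n^2 x^(1 + 3999/4000); for x ≥ x0 the last term is ≤ n^2 x^2/(8 L^(2U+2)), so n ≤ 8 C (1+L)^5 L^(2U+2) ≤ 256 C L^(2U+7) (1 + L ≤ 2L). -/
def BlkStmt : Prop :=
  ∀ U : ℝ, 0 < U → ∃ C x0 : ℝ, 0 < C ∧ 3 ≤ x0 ∧ ∀ (x Q : ℝ) (A : Finset ℤ), x0 ≤ x →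
    (⌊x⌋₊ : ℝ) ^ ((499 : ℝ) / 1000) ≤ Q → Q ≤ (⌊x⌋₊ : ℝ) ^ ((5011 : ℝ) / 10000) →
    (∀ a ∈ A, |a| ≤ (⌊x⌋₊ : ℤ) ∧ x / (Real.log x) ^ (U + 1) < ∑ d ∈ dya Q a, |resErr x d a|) →
    (A.card : ℝ) ≤ C * (Real.log x) ^ (2 * U + 7)

/-- Module Dyd (theorem tDyd; dyadic decomposition, real inequalities only). Uses: nothing.
Proof. y = x^(501/1000), I the least natural number with y/2^I ≤ x^(4995/10000). For i < I: y/2^i > x^(4995/10000), so Q_i = y/2^(i+1) > x^(4995/10000)/2 ≥ x^(499/1000) ≥ ⌊x⌋₊^(499/1000) for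
large x, and Q_i ≤ y ≤ ⌊x⌋₊^(5011/10000) for large x (⌊x⌋₊ ≥ x/2). 2^(I-1) < x^(0.0015) if I ≥ 1, so I ≤ 1 + 0.0015 log x/log 2 ≤ log x. If d ≤ y is a natural number: either d ≤ y/2^I ≤
x^(4995/10000) ≤ x^(4996/10000), or for some i < I y/2^(i+1) < d ≤ y/2^i, i.e. d ∈ dy (y/2^(i+1)) (mem_dy). -/
def DydStmt : Prop :=
  ∃ x1 : ℝ, 3 ≤ x1 ∧ ∀ x : ℝ, x1 ≤ x → ∃ I : ℕ, (I : ℝ) ≤ Real.log x ∧
    (∀ i < I, (⌊x⌋₊ : ℝ) ^ ((499 : ℝ) / 1000) ≤ x ^ ((501 : ℝ) / 1000) / 2 ^ (i + 1) ∧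
      x ^ ((501 : ℝ) / 1000) / 2 ^ (i + 1) ≤ (⌊x⌋₊ : ℝ) ^ ((5011 : ℝ) / 10000)) ∧
    ∀ d ∈ Icc 1 ⌊x ^ ((501 : ℝ) / 1000)⌋₊, d ∈ Icc 1 ⌊x ^ ((4996 : ℝ) / 10000)⌋₊ ∨
      ∃ i < I, d ∈ dy (x ^ ((501 : ℝ) / 1000) / 2 ^ (i + 1))

/-- Module Fin (theorem tFin; the final theorem). Uses: Rse, Bvz, Blk, Dyd.
Proof. Let U > 0, L = log x. For x < x2 (a constant depending on U) take S = all integers |a| ≤ x (card ≤ 2 x2 + 1 ≤ C (log 3)^(2U+8) for a large C; log 3 ≥ 1).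
Let x ≥ x2, I from Dyd, Q_i = x^(501/1000)/2^(i+1), A_i = the integers a with |a| ≤ ⌊x⌋₊ and x/L^(U+1) < ∑_{d ∈ dya Q_i a} |resErr x d a|, S = the union of the A_i, i < I:
card S ≤ I C L^(2U+7) ≤ C L^(2U+8) (Blk). If |a| ≤ x (so |a| ≤ ⌊x⌋₊) and a ∉ S: the sum over d ≤ x^(501/1000), gcd(a,d) = 1, is ≤ ∑_{d ≤ x^(4996/10000)} maxErr x d (Rse, maxErr ≥ 0:
EH.maxErr_nonneg) + ∑_{i<I} ∑_{d ∈ dya Q_i a} |resErr| ≤ C x/L^U + I x/L^(U+1) ≤ (C + 1) x/L^U (Bvz with A = U). -/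
def FinStmt : Prop :=
  ∀ U : ℝ, 0 < U → ∃ C : ℝ, ∀ x : ℝ, 3 ≤ x → ∃ S : Finset ℤ,
    (S.card : ℝ) ≤ C * (Real.log x) ^ (2 * U + 8) ∧
    ∀ a : ℤ, |(a : ℝ)| ≤ x → a ∉ S →
      ∑ d ∈ (Icc 1 ⌊x ^ ((501 : ℝ) / 1000)⌋₊).filter (fun d : ℕ => Int.gcd a d = 1), |resErr x d a| ≤
        C * (x / (Real.log x) ^ U)

end Pool.Agent.Lib.KF
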