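import Pool.Agent.Lib.EH3.LS2
import Pool.Agent.Lib.EH.Defs

/-!
MP_00e23e_nt, directory Lib/KF (architect helper3; paper plan: note 2171). Aim: primes in progressions
to moduli d ≤ x^(501/1000) for one fixed residue a, for all integers |a| ≤ x outside a set of at most
C (log x)^B elements. Part K: Kloosterman sums (elementary bound by the fourth moment), incomplete
sums with weights.

RULES. Module X: file Pool/Agent/Lib/KF/X.lean, first line `import Pool.Agent.Lib.KF.SpecK` (the Spec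
file that contains XStmt, plus library files named in the docstring), then `namespace Pool.Agent.Lib.KF`
and `open Finset Pool.Agent.Lib.EH3`, private lemmas with names starting with X_, final theorem
`theorem tX (h1 : AStmt) ... : XStmt`; the statements listed under Uses are hypotheses of your theorem,
in this order. The docstring contains a complete proof. Never use congr!. Every module below 60 s.
-/

namespace Pool.Agent.Lib.KF

open Finset Pool.Agent.Lib.EH3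

/-- e(a/q) for a residue class a modulo q -/
noncomputable def em (q : ℕ) (a : ZMod q) : ℂ := ee ((a.val : ℝ) / q)

open Classical in
/-- e(c a^(-1)/q) if a is a unit modulo q, and 0 otherwise -/
noncomputable def ei (q : ℕ) (c a : ZMod q) : ℂ := if IsUnit a then em q (c * a⁻¹) else 0

/-- Kloosterman fractions: e(θ m^(-1)/n) if m is coprime to n, and 0 otherwise -/
noncomputable def kf (θ : ℤ) (m n : ℕ) : ℂ := ei n (θ : ZMod n) (m : ZMod n)

/-- the Kloosterman sum -/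
noncomputable def kl (q : ℕ) [NeZero q] (c h : ZMod q) : ℂ :=
  ∑ x : (ZMod q)ˣ, em q (c * ((x⁻¹ : (ZMod q)ˣ) : ZMod q) + h * (x : ZMod q))

/-- the number of divisors, as a real number -/
noncomputable def tau (n : ℕ) : ℝ := (n.divisors.card : ℝ)

/-- the total variation of W, with the jump at 0, is at most V -/
def varB (W : ℕ → ℂ) (V : ℝ) : Prop := ∀ N : ℕ, ‖W 0‖ + ∑ t ∈ range N, ‖W (t + 1) - W t‖ ≤ V

/-- Module Em (theorem tEm). Uses: nothing.
Proof. (5) first: for an integer k, (k : ZMod q).val = k % q (ZMod.val_intCast), so k = val + q z with an integer z and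
ee(k/q) = ee(val/q + z) = ee(val/q) (EH3.ee_add, ee_int). (1): a = (a.val : ℤ), b = (b.val : ℤ) as residue classes, so by
(5) em q (a + b) = ee((a.val + b.val)/q) = ee(a.val/q) ee(b.val/q). (2) the value of 0 is 0. (3) norm_ee. (4): by (1) and
(2) em q a * em q (-a) = 1 and |em q a| = 1, so em q (-a) is the conjugate. (6): write b = (m : ℤ) cast and a = cast of
t < q: the sum over a is ∑_{t ∈ range q} ee(t (m/q)) by (5), which is EH3.orth (q if q | m, i.e. b = 0, else 0); sum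
over ZMod q and over range q: the map t ↦ (t : ZMod q) is a bijection (ZMod.val, ZMod.natCast_zmod_val, val_lt).
(7) and (8) are in Mathlib or easy (ZMod.coe_mul_inv_eq_one or ZMod.mul_inv_of_unit, unit iff coprime:
ZMod.isUnit_iff_coprime). (9): for a unit a: em q (c a^(-1)) and the conjugate of em q (c' a^(-1)), by (1) and (4). -/
def EmStmt : Prop :=
  (∀ (q : ℕ) (a b : ZMod q), 1 ≤ q → em q (a + b) = em q a * em q b) ∧
  (∀ q : ℕ, em q 0 = 1) ∧
  (∀ (q : ℕ) (a : ZMod q), ‖em q a‖ = 1) ∧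
  (∀ (q : ℕ) (a : ZMod q), 1 ≤ q → em q (-a) = (starRingEnd ℂ) (em q a)) ∧
  (∀ (q : ℕ) (k : ℤ), 1 ≤ q → em q (k : ZMod q) = ee ((k : ℝ) / q)) ∧
  (∀ (q : ℕ) [NeZero q] (b : ZMod q), ∑ a : ZMod q, em q (a * b) = if b = 0 then (q : ℂ) else 0) ∧
  (∀ (q : ℕ) (a : ZMod q), IsUnit a → a * a⁻¹ = 1) ∧
  (∀ (q : ℕ) (c a : ZMod q), ‖ei q c a‖ ≤ 1) ∧
  (∀ (q : ℕ) (c c' a : ZMod q), 1 ≤ q →
    ei q c a * (starRingEnd ℂ) (ei q c' a) = ei q (c - c') a)

/-- Module Cap (theorem tCap). Uses: nothing.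
Proof. Let M = lcm(v, g), which divides q. If z, z' both satisfy the conditions then v and g divide z - z', so M | z - z'.
So if the filtered set is not empty, with an element z0, then all its elements are ≡ z0 mod M, and range q contains exactly
q/M numbers of a class modulo M, since M | q (for instance: the map z ↦ z / M is injective on the filtered set, because
z ≡ z' mod M and z / M = z' / M give z = z', and its values are < q/M). -/
def CapStmt : Prop :=
  ∀ (q v g : ℕ) (a b : ℤ), 1 ≤ q → v ∣ q → g ∣ q →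
    ((range q).filter (fun z : ℕ => (v : ℤ) ∣ (z : ℤ) - a ∧ (g : ℤ) ∣ (z : ℤ) - b)).card ≤ q / Nat.lcm v g

/-- Module Tri (theorem tTri). Uses: Cap.
Proof. Put w = gcd(v, g). For y ∈ range q with u | a - y: if some z satisfies v | a - z and g | y + z, then w | a - z and
w | y + z, so w | a + y; and the number of such z is ≤ q/lcm(v,g) by Cap (a and b = -y there). So the count is at most
#{y ∈ range q : u | y - a, w | y + a} times q/lcm(v,g). If that set of y is not empty then gcd(u,w) divides (y+a) - (y-a) =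
2 a, and it is coprime to a (it divides q), so gcd(u,w) | 2; by Cap (w | q as w | v | q) the number of y is
≤ q/lcm(u,w). With exact divisions in ℕ: lcm(u,w) gcd(u,w) = u w, so (q/lcm(u,w)) u w = q gcd(u,w) ≤ 2 q, and
(q/lcm(v,g)) = (g u v) w/(v g) = u w. Product ≤ (q/lcm(u,w)) u w ≤ 2 q. -/
def TriStmt : Prop :=
  ∀ (q g u v : ℕ) (a : ℤ), 1 ≤ q → g * u * v = q → IsCoprime a (q : ℤ) →
    (((range q) ×ˢ (range q)).filter (fun w : ℕ × ℕ =>
      (u : ℤ) ∣ a - w.1 ∧ (v : ℤ) ∣ a - w.2 ∧ (g : ℤ) ∣ (w.1 : ℤ) + w.2)).card ≤ 2 * q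

/-- Module Quad (theorem tQuad). Uses: Tri.
Proof. Let (x, y, z) be units with (y+z)(x-y)(x-z) = 0 mod q; let X, Y, Z ∈ range q be the values. q divides the integer
(Y+Z)(X-Y)(X-Z). Put g = gcd(q, Y+Z), then q/g divides (X-Y)(X-Z) (q/g and (Y+Z)/g are coprime); u = gcd(q/g, X-Y), then
v = (q/g)/u divides X-Z by the same argument. So g u v = q, g | Y+Z, u | X-Y, v | X-Z, g | q, u | q. For each
(g, u) ∈ divisors × divisors with g u | q, and each unit x (φ(q) of them; X is coprime to q) Tri gives at most 2 q pairs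
(Y, Z). Union bound (Finset.card_biUnion_le or a sum over fibres): ≤ tau(q)^2 φ(q) 2 q. -/
def QuadStmt : Prop :=
  ∀ (q : ℕ) [NeZero q],
    (((univ : Finset ((ZMod q)ˣ × (ZMod q)ˣ × (ZMod q)ˣ)).filter (fun t =>
      ((t.2.1 : ZMod q) + (t.2.2 : ZMod q)) * ((t.1 : ZMod q) - (t.2.1 : ZMod q)) *
        ((t.1 : ZMod q) - (t.2.2 : ZMod q)) = 0)).card : ℝ) ≤ 2 * (tau q) ^ 2 * q * (q.totient : ℝ)

/-- Module Mom (theorem tMom; fourth moment of Kloosterman sums). Uses: Em, Quad.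
Proof. kl(u,v)^2 = ∑_{x1,x2} em(u (x1^(-1) + x2^(-1)) + v (x1 + x2)), |kl|^4 = |kl^2|^2 = kl^2 conj(kl^2) =
∑_{x1,x2,x3,x4} em(u A + v B), A = x1^(-1)+x2^(-1)-x3^(-1)-x4^(-1), B = x1+x2-x3-x4. Summing over u, v (Em (1), (6)):
q^2 times the number of (x1,x2,x3,x4) with A = B = 0. For such a tuple x2 = x3+x4-x1 and, multiplying A = 0 by
x1 x2 x3 x4: (x1+x2) x3 x4 = (x3+x4) x1 x2, so (x3+x4)(x3 x4 - x1 x2) = 0 and x3 x4 - x1 (x3+x4-x1) = (x1-x3)(x1-x4). So
(x1,x3,x4) is counted in Quad and determines x2: at most 2 tau^2 q φ tuples. -/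
def MomStmt : Prop :=
  ∀ (q : ℕ) [NeZero q],
    ∑ u : ZMod q, ∑ v : ZMod q, ‖kl q u v‖ ^ 4 ≤ 2 * (tau q) ^ 2 * (q : ℝ) ^ 3 * (q.totient : ℝ)

/-- Module Kls (theorem tKls; bound for Kloosterman sums). Uses: Mom.
Proof. For a unit t: kl q (c t) (h t^(-1)) = kl q c h (substitute x = t y in the sum: c t (t y)^(-1) = c y^(-1),
h t^(-1) t y = h y). So φ(q) |kl c h|^4 = ∑_t |kl (c t) (h t^(-1))|^4 (Fintype.card (ZMod q)ˣ = φ(q): ZMod.card_units_eq_totient)
≤ ∑_{u,v} #{t : c t = u} |kl u v|^4. For fixed u the number of units t with c t = u is ≤ the number of t ∈ ZMod q with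
c t = 0 (subtract one solution), which is gcd(c.val, q) =: G (q | c.val t iff (q/G) | t; the multiples of q/G in range q
are G in number). So φ(q) |kl c h|^4 ≤ G 2 tau^2 q^3 φ(q); divide by φ(q) > 0. -/
def KlsStmt : Prop :=
  ∀ (q : ℕ) [NeZero q] (c h : ZMod q),
    ‖kl q c h‖ ^ 4 ≤ 2 * (tau q) ^ 2 * (Nat.gcd c.val q : ℝ) * (q : ℝ) ^ 3

/-- Module Inc (theorem tInc; incomplete sums in progressions). Uses: Em, Kls.
Proof. For n ∈ ZMod q: ei q c n = (1/q) ∑_{h : ZMod q} kl q c (-h) em q (h n): indeed the right side is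
(1/q) ∑_x ∑_h em(c x^(-1)) em(h (n - x)) = ∑_{x unit, x = n} em(c x^(-1)) by Em (6). So the sum S over t < T is
(1/q) ∑_h kl q c (-h) em q (h r) ∑_{t<T} em q (h P t). With h P = cast of j ∈ range q, ∑_{t<T} em q (h P t) =
∑_{t<T} ee(t (j/q)) = EH3.GG T (j/q), of norm ≤ T and, for j ≠ 0, ≤ 1/(2 |j/q - round(j/q)|) = q/(2 min(j, q - j))
(EH3.norm_GG_mul_le). P is a unit modulo q, so h ↦ h P is a bijection and each j occurs once: the sum of the norms over h
is ≤ T + ∑_{j=1}^{q-1} q/(2 min(j, q-j)) ≤ T + ∑_{j=1}^{q-1} (q/2)(1/j + 1/(q-j))... use: 1/min(j,q-j) ≤ 1/j + 1/(q-j), so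
this is ≤ T + (q/2) 2 ∑_{j=1}^{q-1} 1/j ≤ T + q (1 + log q). And ‖kl q c (-h)‖ ≤ (2 tau^2 G q^3)^(1/4) =: M by Kls
(Real.rpow; x^4 ≤ y gives x ≤ y^(1/4)). Total: ‖S‖ ≤ (1/q) M (T + q (1 + log q)). -/
def IncStmt : Prop :=
  ∀ (q : ℕ) [NeZero q] (c : ZMod q) (P r T : ℕ), P.Coprime q →
    ‖∑ t ∈ range T, ei q c ((r + P * t : ℕ) : ZMod q)‖ ≤
      ((T : ℝ) / q + 1 + Real.log q) *
        (2 * (tau q) ^ 2 * (Nat.gcd c.val q : ℝ) * (q : ℝ) ^ 3) ^ ((1 : ℝ) / 4)

/-- Module Per (theorem tPer; sums with periodic and smooth weights). Uses: Inc.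
Proof. Split m < N into classes: m = r + P t, r < P (r = m mod P, t = m / P). For fixed r the t's are exactly t < T_r
with T_r ≤ N/P + 1 (real bound; t < T_r iff r + P t < N; T_r = (N - r + P - 1)/P in ℕ, or 0 if r ≥ N). κ m = κ r. Let
M(T) = (T/q + 1 + log q) (...)^(1/4) be the bound of Inc, monotone in T, a(t) = ei q c (r + P t), w(t) = W(r + P t).
Summation by parts (Finset.sum_range_by_parts, or A(t+1) - A(t) = a(t)): for T = T_r ≥ 1
|∑_{t<T} w(t) a(t)| ≤ M(T) (|w(T-1)| + ∑_{t<T-1} |w(t+1) - w(t)|). By varB |w(T-1)| ≤ V (|W(n)| ≤ |W 0| + ∑_{t<n} |W(t+1) -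
W(t)|) and ∑_{t<T-1} |w(t+1) - w(t)| ≤ ∑_{m<r+P(T-1)} |W(m+1) - W(m)| ≤ V (triangle inequality over the P steps; the
blocks are disjoint). So each class gives ≤ 2 V M(N/P + 1), and the sum over the P classes is
≤ 2 V P ((N/P + 1)/q + 1 + log q) (...)^(1/4) ≤ 2 V (N/q + P (2 + log q)) (...)^(1/4) as P/q ≤ P. (V ≥ 0 by varB.) -/
def PerStmt : Prop :=
  ∀ (q : ℕ) [NeZero q] (c : ZMod q) (P N : ℕ) (κ W : ℕ → ℂ) (V : ℝ), 1 ≤ P → P.Coprime q →
    (∀ m, κ (m + P) = κ m) → (∀ m, ‖κ m‖ ≤ 1) → varB W V →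
    ‖∑ m ∈ range N, κ m * W m * ei q c (m : ZMod q)‖ ≤
      2 * V * ((N : ℝ) / q + P * (2 + Real.log q)) *
        (2 * (tau q) ^ 2 * (Nat.gcd c.val q : ℝ) * (q : ℝ) ^ 3) ^ ((1 : ℝ) / 4)

/-- Module Rcp (theorem tRcp; reciprocity). Uses: Em.
Proof. Integers A, B with a A + b B = 1 (Nat.Coprime gives IsCoprime). In ZMod b: a A = 1, so a^(-1) = A (the class of a is
a unit; ZMod.inv_mul_of_unit or Em (7)), and in ZMod a: b^(-1) = B. By Em (5): em b (c A) = ee(c A/b), em a (c B) = ee(c B/a),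
and c A/b + c B/a = c (a A + b B)/(a b) = c/(a b) (EH3.ee_add). -/
def RcpStmt : Prop :=
  ∀ (a b : ℕ) (c : ℤ), 1 ≤ a → 1 ≤ b → a.Coprime b →
    em b ((c : ZMod b) * ((a : ZMod b))⁻¹) * em a ((c : ZMod a) * ((b : ZMod a))⁻¹) =
      ee ((c : ℝ) / ((a : ℝ) * b))

/-- Module Crs (theorem tCrs; Chinese remainder theorem for fractions). Uses: Em.
Proof. Integer N with N n ≡ 1 mod a b (IsCoprime n (a b)); integers A, B with a A + b B = 1. Then n^(-1) = N in ZMod (a b),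
em (a b) (c N) = ee(c N/(a b)) (Em (5)) and c N/(a b) = c N (a A + b B)/(a b) = c N A/b + c N B/a. In ZMod a:
(n b)(N B) = (n N)(b B) = 1, so (n b)^(-1) = N B; in ZMod b: (n a)^(-1) = N A. Em (5) and EH3.ee_add. -/
def CrsStmt : Prop :=
  ∀ (a b : ℕ) (c n : ℤ), 1 ≤ a → 1 ≤ b → a.Coprime b → IsCoprime n ((a * b : ℕ) : ℤ) →
    em (a * b) ((c : ZMod (a * b)) * ((n : ZMod (a * b)))⁻¹) =
      em a ((c : ZMod a) * ((n : ZMod a) * (b : ZMod a))⁻¹) *
        em b ((c : ZMod b) * ((n : ZMod b) * (a : ZMod b))⁻¹)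

/-- Module Phs (theorem tPhs; the phase as a function of m2 modulo the coprime part of m1). Uses: Em, Rcp, Crs.
Proof. Put m1 = g mo. Coprimality: mo is coprime to k, l1, l2, g. gcd(n, mo) = 1 iff gcd(m2, mo) = 1, because
k n ≡ -l2 m2 mod mo with k, l2 units mod mo. The left side is nonzero iff gcd(l1 m1, n) = 1 iff gcd(n, l1 g) = 1 and
gcd(n, mo) = 1 (ZMod.isUnit_iff_coprime); if one of these fails both sides are 0. Otherwise let a = l1 m1 = (l1 g) mo.
Rcp (with a, b = n): em n (c a^(-1)) = ee(c/(a n)) conj(em a (c n^(-1))) (|em| = 1). Crs (with a = l1 g, b = mo, the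
integer n): em (l1 g mo) (c n^(-1)) = em (l1 g) (c (n mo)^(-1)) em mo (c (n l1 g)^(-1)). In ZMod mo: k n = -l2 m2, so
n^(-1) = -k (l2 m2)^(-1) and c (n l1 g)^(-1) = -(c k (l1 l2 g)^(-1) m2^(-1)); hence the conjugate of em mo of it is
em mo (c k (l1 l2 g)^(-1) m2^(-1)) = ei mo (c k (l1 l2 g)^(-1)) m2 (Em (4)). Beware of the casts between
l1 * (g * mo) and (l1 * g) * mo in ZMod (rewrite the natural number first, for instance by obtaining the equality of
functions of the modulus with `mul_assoc ▸` or by stating Crs for a b and `subst`). -/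
def PhsStmt : Prop :=
  ∀ (l1 l2 g mo m2 n : ℕ) (k c : ℤ), 1 ≤ l1 → 1 ≤ l2 → 1 ≤ g → 1 ≤ mo → 1 ≤ n →
    k * n = (l1 : ℤ) * (g * mo) - l2 * m2 → mo.Coprime (k.natAbs * l1 * l2 * g) →
    ei n (c : ZMod n) ((l1 * (g * mo) : ℕ) : ZMod n) =
      (if n.Coprime (l1 * g) then
        (starRingEnd ℂ) (em (l1 * g) ((c : ZMod (l1 * g)) * ((n : ZMod (l1 * g)) * (mo : ZMod (l1 * g)))⁻¹))
        else 0) *
      ei mo (((c * k : ℤ) : ZMod mo) * (((l1 * l2 * g : ℕ) : ZMod mo))⁻¹) (m2 : ZMod mo) *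
      ee ((c : ℝ) / ((l1 : ℝ) * (g * mo) * n))

/-- Module Dvb (theorem tDvb; divisor bound). Uses: nothing.
Proof. Standard. Let K be an integer with 2^(ε K) ... simple way: for ε > 0 put, for a prime p and a ≥ 0,
f(p, a) = (a + 1) p^(-ε a). If p^ε ≥ 2 then f ≤ (a+1)/2^a ≤ 1. If p^ε < 2, i.e. p < 2^(1/ε), then f(p, a) ≤
(a+1) 2^(-ε a) ≤ 1 + 1/(ε log 2) + ... ≤ B for a constant B = B(ε) ≥ 1 (1 + a ≤ B exp(ε a log 2), e.g. B = 1 + 1/(ε log 2)).
So tau n/n^ε = ∏_{p | n} f(p, v_p(n)) ≤ B^(number of primes below 2^(1/ε)) =: C. (tau n = ∏ (v_p + 1):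
Nat.Coprime.card_divisors_mul, Nat.card_divisors; or induction with Nat.recOnPosPrimePosCoprime on the statement
tau n ≤ n^ε B^(card of the prime factors of n below 2^(1/ε)).) -/
def DvbStmt : Prop :=
  ∀ ε : ℝ, 0 < ε → ∃ C : ℝ, 0 < C ∧ ∀ n : ℕ, 1 ≤ n → tau n ≤ C * (n : ℝ) ^ ε

end Pool.Agent.Lib.KF
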