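import Pool.Agent.Lib.KF.SpecB

/-!
MP_00e23e_nt, directory Lib/KF (architect helper3), part L: the L^2 inequality. For a finite set A of
integers |a| ≤ X and |c_{a,d}| ≤ 1 the functions g_a(n) = sum over d in (Q,2Q] of c_{a,d} ([d | n-a] minus
the part of conductor ≤ R of [d | n - a]) are almost orthogonal on [0, X]. Rules: see SpecK.lean (first
line of the modules of this part: `import Pool.Agent.Lib.KF.SpecL`).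
-/

namespace Pool.Agent.Lib.KF

open Finset Pool.Agent.Lib.EH3

/-- the integers in [-X, 2X] -/
noncomputable def zs (X : ℕ) : Finset ℤ := Finset.Icc (-(X : ℤ)) (2 * (X : ℤ))

/-- the trapezoid: 1 on [0, X], 0 outside (-X, 2X), linear between -/
noncomputable def vX (X : ℕ) (n : ℤ) : ℝ :=
  (((Finset.Icc 1 X).filter (fun j : ℕ => (j : ℤ) - X ≤ n ∧ n ≤ 2 * X - j)).card : ℝ) / X

/-- the Ramanujan sum -/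
noncomputable def ram (s : ℕ) (m : ℤ) : ℝ :=
  ∑ e ∈ s.divisors.filter (fun e : ℕ => (e : ℤ) ∣ m), (e : ℝ) * (ArithmeticFunction.moebius (s / e) : ℝ)

/-- the weights of the model of [d | m] -/
noncomputable def lam (R d e : ℕ) : ℝ :=
  ((e : ℝ) / d) * ∑ r ∈ d.divisors.filter (fun r => e ∣ r ∧ r ≤ R), (ArithmeticFunction.moebius (r / e) : ℝ)

/-- the model of [d | m]: its part of conductor ≤ R -/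
noncomputable def ell (R d : ℕ) (m : ℤ) : ℝ :=
  ∑ e ∈ d.divisors.filter (fun e : ℕ => (e : ℤ) ∣ m), lam R d e

/-- the coefficients of g in g(m) = sum of gam e over e | m -/
noncomputable def gam (R : ℕ) (Q : ℝ) (c : ℕ → ℝ) (e : ℕ) : ℝ :=
  (if e ∈ dy Q then c e else 0) - ∑ d ∈ (dy Q).filter (fun d => e ∣ d), c d * lam R d e

/-- g(m), the sum over d in (Q, 2Q] of c_d ([d | m] - model) -/
noncomputable def gg (R : ℕ) (Q : ℝ) (c : ℕ → ℝ) (m : ℤ) : ℝ :=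
  ∑ d ∈ dy Q, c d * ((if (d : ℤ) ∣ m then 1 else 0) - ell R d m)

/-- the error term of the sum of vX over n ≡ a mod e, n ≡ b mod f -/
noncomputable def errp (X e f : ℕ) (a b : ℤ) : ℝ :=
  (∑ n ∈ zs X, if (e : ℤ) ∣ n - a ∧ (f : ℤ) ∣ n - b then vX X n else 0) -
    (if ((Nat.gcd e f : ℕ) : ℤ) ∣ a - b then 2 * (X : ℝ) * (Nat.gcd e f : ℝ) / ((e : ℝ) * f) else 0)

/-- the Fourier sum of k ↦ vX(a + d k) -/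
noncomputable def Kh (X d : ℕ) (a : ℤ) (K : ℕ) (t : ℝ) : ℂ :=
  ∑ k ∈ Finset.Icc (-(K : ℤ)) (K : ℤ), (vX X (a + d * k) : ℂ) * ee ((k : ℝ) * t)

/-- representatives j of the classes mod q with |j| ≤ q/2 -/
noncomputable def rep (q : ℕ) : Finset ℤ := Finset.Ioc ((q : ℤ) / 2 - q) ((q : ℤ) / 2)

/-! ### The weight -/

/-- Module Vap (theorem tVap). Uses: nothing.
Proof. (1), (2), (3): immediate (for 0 ≤ n ≤ X all j in Icc 1 X satisfy the conditions; for n ≤ -X or 2X ≤ n none does).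
(4): the j with j ≤ n + X and j ≤ 2X - n, 1 ≤ j ≤ X: their number is min(X, n+X, 2X-n) if this is ≥ 0 and 0 otherwise; compare in
the five ranges n ≤ -X, [-X,0], [0,X], [X,2X], ≥ 2X. -/
def VapStmt : Prop :=
  (∀ (X : ℕ) (n : ℤ), 0 ≤ vX X n ∧ vX X n ≤ 1) ∧
  (∀ (X : ℕ) (n : ℤ), 1 ≤ X → 0 ≤ n → n ≤ X → vX X n = 1) ∧
  (∀ (X : ℕ) (n : ℤ), (n ≤ -(X : ℤ) ∨ 2 * (X : ℤ) ≤ n) → vX X n = 0) ∧
  (∀ (X : ℕ) (n : ℤ), 1 ≤ X → (X : ℝ) * vX X n =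
    ((max (n + X) 0 - max n 0 - max (n - X) 0 + max (n - 2 * X) 0 : ℤ) : ℝ))

/-- Module Vaq (theorem tVaq; the weight in progressions). Uses: nothing.
Proof. Interchange the sums: X times the sum is ∑_{j=1}^{X} #{n : j - X ≤ n ≤ 2X - j, q | n - μ} (these n are in zs X), and for each j this
is the number of elements of a class modulo q in an interval of N_j = 3X - 2j + 1 consecutive integers, so it differs from N_j/q by at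
most 1 (Int.Ioc_filter_modEq_card / Int.Ico_filter_modEq_card or a direct argument); ∑_j N_j = 3X^2 - X(X+1) + X = 2X^2. -/
def VaqStmt : Prop :=
  ∀ (X q : ℕ) (μ : ℤ), 1 ≤ X → 1 ≤ q →
    |(∑ n ∈ zs X, if (q : ℤ) ∣ n - μ then vX X n else 0) - 2 * (X : ℝ) / q| ≤ 1

/-- Module Vft (theorem tVft). Uses: Vap, Vaq.
Proof. If |k| ≥ K + 1 then |a + d k| ≥ (K+1) d - |a| ≥ 3X - X = 2X, so vX X (a + d k) = 0 (Vap (3)). So (3): both sides are the sum over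
all k ∈ ℤ (n = a + d k); vX n = 0 for n ∉ zs X. (2): (3) with F = 1 and Vaq. (1): let f(k) = vX X (a + d k), extended to all
k ∈ ℤ (finite support). (ee t - 1)^2 Kh(t) = ∑_k (f(k-2) - 2 f(k-1) + f(k)) ee(k t) (sum over |k| ≤ K + 2, say; shift the index),
so ‖ee t - 1‖^2 ‖Kh‖ ≤ ∑_k |f(k-2) - 2 f(k-1) + f(k)|. By Vap (4) X f is a combination with coefficients ±1 of four functions
r(b + d k), r(y) = max(y, 0), with second differences ≥ 0 (convexity) whose sum over -M ≤ k ≤ M telescopes to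
(r(b + d M) - r(b + d(M-1))) - (difference at the other end) = d - 0 = d for large M. So the sum is ≤ 4 d/X. And
‖ee t - 1‖ ≥ 4 |t| (EH3.norm_ee_sub_one): 16 t^2 ‖Kh‖ ≤ 4 d/X. -/
def VftStmt : Prop :=
  ∀ (X d K : ℕ) (a : ℤ), 1 ≤ X → 1 ≤ d → |a| ≤ (X : ℤ) → 3 * X ≤ (K + 1) * d →
    (∀ t : ℝ, |t| ≤ 1 / 2 → 4 * (X : ℝ) * t ^ 2 * ‖Kh X d a K t‖ ≤ d) ∧
    ‖Kh X d a K 0 - ((2 * (X : ℝ) / d : ℝ) : ℂ)‖ ≤ 1 ∧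
    (∀ F : ℤ → ℂ, (∑ n ∈ zs X, if (d : ℤ) ∣ n - a then (vX X n : ℂ) * F n else 0) =
      ∑ k ∈ Finset.Icc (-(K : ℤ)) (K : ℤ), (vX X (a + d * k) : ℂ) * F (a + d * k))

/-! ### The model -/

/-- Module Ram (theorem tRam). Uses: nothing.
Proof. (1) ∑_{s | h} ∑_{e | s, e | m} e μ(s/e) = ∑_{e | h, e | m} e ∑_{t | h/e} μ(t) (s = e t), and the inner sum is 1 if e = h and 0
otherwise (ArithmeticFunction.coe_moebius_mul_coe_zeta, or sum_moebius...). (2) |μ| ≤ 1. -/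
def RamStmt : Prop :=
  (∀ (h : ℕ) (m : ℤ), 1 ≤ h → ∑ s ∈ h.divisors, ram s m = if (h : ℤ) ∣ m then (h : ℝ) else 0) ∧
  (∀ (s : ℕ) (m : ℤ), |ram s m| ≤ ∑ e ∈ s.divisors.filter (fun e : ℕ => (e : ℤ) ∣ m), (e : ℝ))

/-- Module Lam (theorem tLam). Uses: nothing.
Proof. (1) The r with e | r | d are r = e r', r' | d/e: at most tau(d/e), |μ| ≤ 1. (2) no r with e | r, 1 ≤ r ≤ R < e.
(3) ∑_{e : s | e | d} (1/d) ∑_{r : e | r | d, r ≤ R} μ(r/e) = (1/d) ∑_{r | d, r ≤ R, s | r} ∑_{e : s | e | r} μ(r/e), and with e = s e', r = s r':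
∑_{e' | r'} μ(r'/e') = 1 if r' = 1, else 0. So only r = s remains, if s | d and s ≤ R. -/
def LamStmt : Prop :=
  (∀ R d e : ℕ, 1 ≤ d → e ∣ d → |lam R d e| ≤ ((e : ℝ) / d) * tau (d / e)) ∧
  (∀ R d e : ℕ, R < e → lam R d e = 0) ∧
  (∀ R d s : ℕ, 1 ≤ d → 1 ≤ s →
    ∑ e ∈ d.divisors.filter (fun e => s ∣ e), lam R d e / e = if s ∣ d ∧ s ≤ R then 1 / (d : ℝ) else 0)

/-- Module Lph (theorem tLph). Uses: nothing.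
Proof. (1) the left side is (1/d) ∑_{r | d, r ≤ R} ∑_{e | r} μ(r/e) e/φ(e). The function r ↦ ∑_{e | r} μ(r/e) e/φ(e) is μ(r)^2/φ(r): e/φ(e) =
∑_{f | e} μ(f)^2/φ(f) (both multiplicative; at p^k, k ≥ 1: p/(p-1) = 1 + 1/(p-1)), then Möbius inversion. The identity e/φ(e) =
∑_{f | e} μ(f)^2/φ(f) is (2) (multiply by d): prove it by Nat.recOnPosPrimePosCoprime, or with Nat.totient_eq_mul_prod_factors
(φ(n) = n ∏ (1 - 1/p)) and Finset.prod_one_add / sum over squarefree divisors (Nat.sum_divisors_filter_squarefree). -/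
def LphStmt : Prop :=
  (∀ R d : ℕ, 1 ≤ d → ∑ e ∈ d.divisors, lam R d e / (e.totient : ℝ) =
    (1 / (d : ℝ)) * ∑ r ∈ d.divisors.filter (fun r => r ≤ R),
      ((ArithmeticFunction.moebius r : ℝ)) ^ 2 / (r.totient : ℝ)) ∧
  (∀ d : ℕ, 1 ≤ d → (1 / (d : ℝ)) * ∑ r ∈ d.divisors, ((ArithmeticFunction.moebius r : ℝ)) ^ 2 / (r.totient : ℝ) =
    1 / (d.totient : ℝ))

/-- Module Dsb (theorem tDsb; divisor sums). Uses: nothing.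
Proof. (1) ∑_{m ≤ N} tau(m) = ∑_{a ≤ N} ⌊N/a⌋ ≤ N (1 + log N). (2) tau(m)^2 = number of pairs (a, b) of divisors: the sum is
∑_{a,b ≤ N} #{m ≤ N : lcm(a,b) | m} ≤ N ∑_{a,b ≤ N} gcd(a,b)/(a b); write g = gcd, a = g a', b = g b': ≤ N ∑_{g,a',b' ≤ N} 1/(g a' b') ≤
N (1 + log N)^3 (Lib/EH4/Div.lean has similar sums; harmonic_le_one_add_log). -/
def DsbStmt : Prop :=
  (∀ N : ℕ, 1 ≤ N → ∑ m ∈ Icc 1 N, tau m ≤ N * (1 + Real.log N)) ∧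
  (∀ N : ℕ, 1 ≤ N → ∑ m ∈ Icc 1 N, (tau m) ^ 2 ≤ N * (1 + Real.log N) ^ 3)

/-- Module Gam (theorem tGam). Uses: Lam.
Proof. (1) [d | m] - ell R d m = ∑_{e | m} ([e = d] - [e | d] lam R d e); sum over d ∈ dy Q with weights c d and interchange (all e are ≤ 2Q).
(2) R < e: lam R d e = 0 (Lam (2)). (3) ∑_{e, s | e} gam e/e = ∑_{d, s | d} c d/d - ∑_d c d ∑_{e | d, s | e} lam R d e/e and Lam (3): = ∑_{d, s | d} c d/d (1 - [s ≤ R]).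
(4) the right side of (3) is ≤ (2Q/s) (1/Q) in absolute value (card_dy_dvd_le). -/
def GamStmt : Prop :=
  (∀ (R : ℕ) (Q : ℝ) (c : ℕ → ℝ) (m : ℤ), 1 ≤ Q →
    gg R Q c m = ∑ e ∈ (Icc 1 ⌊2 * Q⌋₊).filter (fun e : ℕ => (e : ℤ) ∣ m), gam R Q c e) ∧
  (∀ (R : ℕ) (Q : ℝ) (c : ℕ → ℝ) (e : ℕ), R < e → gam R Q c e = if e ∈ dy Q then c e else 0) ∧
  (∀ (R : ℕ) (Q : ℝ) (c : ℕ → ℝ) (s : ℕ), 1 ≤ Q → 1 ≤ s →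
    ∑ e ∈ (Icc 1 ⌊2 * Q⌋₊).filter (fun e : ℕ => s ∣ e), gam R Q c e / e =
      if R < s then ∑ d ∈ (dy Q).filter (fun d => s ∣ d), c d / d else 0) ∧
  (∀ (R : ℕ) (Q : ℝ) (c : ℕ → ℝ) (s : ℕ), 1 ≤ Q → 1 ≤ s → (∀ d, |c d| ≤ 1) →
    |∑ e ∈ (Icc 1 ⌊2 * Q⌋₊).filter (fun e : ℕ => s ∣ e), gam R Q c e / e| ≤ 2 / s)

/-- Module Gab (theorem tGab; bounds). Uses: Lam, Dsb, Gam.
Proof. (1) e > R: gam = c e or 0 (Gam (2)) and 1 ≤ 2 (1 + log 2Q). 1 ≤ e ≤ R ≤ Q: e ∉ dy Q; |gam| ≤ ∑_{d ∈ dy Q, e | d} (e/d) tau(d/e) (Lam (1)); d = e t,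
Q < e t ≤ 2Q, (1/t) ≤ e/Q: ≤ (e/Q) ∑_{t ≤ 2Q/e} tau t ≤ (e/Q) (2Q/e) (1 + log(2Q)) (Dsb (1) with N = ⌊2Q/e⌋ ≥ 1 if the sum is not empty).
(2) m ≠ 0: by Gam (1) at most tau(|m|) values of e, each |gam e| ≤ 2 (1 + log 2Q). (3) at most 2Q values of e. -/
def GabStmt : Prop :=
  (∀ (R : ℕ) (Q : ℝ) (c : ℕ → ℝ) (e : ℕ), 1 ≤ Q → (R : ℝ) ≤ Q → (∀ d, |c d| ≤ 1) → 1 ≤ e →
    |gam R Q c e| ≤ 2 * (1 + Real.log (2 * Q))) ∧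
  (∀ (R : ℕ) (Q : ℝ) (c : ℕ → ℝ) (m : ℤ), 1 ≤ Q → (R : ℝ) ≤ Q → (∀ d, |c d| ≤ 1) → m ≠ 0 →
    |gg R Q c m| ≤ 2 * (1 + Real.log (2 * Q)) * tau m.natAbs) ∧
  (∀ (R : ℕ) (Q : ℝ) (c : ℕ → ℝ) (m : ℤ), 1 ≤ Q → (R : ℝ) ≤ Q → (∀ d, |c d| ≤ 1) →
    |gg R Q c m| ≤ 4 * Q * (1 + Real.log (2 * Q)))

/-- Module Mnt (theorem tMnt; the main term). Uses: Ram, Gam.
Proof. Let N = ⌊2Q⌋₊, m ≠ 0. For e, f ≤ N, h = gcd(e,f): [h | m] h = ∑_{s | h} ram s m (Ram (1)), s | h iff s | e and s | f. So the double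
sum is ∑_{s ≤ N} ram s m Γ(s) Γ'(s), Γ(s) = ∑_{e ≤ N, s | e} gam e/e, zero for s ≤ R (Gam (3)) and |Γ(s)| ≤ 2/s (Gam (4)). So it is ≤
∑_{R < s ≤ N} (4/s^2) ∑_{e | s, e | m} e (Ram (2)) = 4 ∑_{e | m} e ∑_{s > R, e | s} 1/s^2 and with s = e t the inner sum is
(1/e^2) ∑_{t > R/e} 1/t^2 ≤ (1/e^2) (2 e/R) (if e ≤ R: ∑_{t > y} 1/t^2 ≤ 1/⌊y⌋ ≤ 2/y with y = R/e ≥ 1; if e > R: the sum over t ≥ 1 is ≤ 2 ≤ 2 e/R,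
EH3.sum_sq_inv_nat). Total ≤ 4 ∑_{e | m} 2/R = 8 tau(|m|)/R. -/
def MntStmt : Prop :=
  ∀ (R : ℕ) (Q : ℝ) (c c' : ℕ → ℝ) (m : ℤ), 1 ≤ R → 1 ≤ Q → (∀ d, |c d| ≤ 1) → (∀ d, |c' d| ≤ 1) → m ≠ 0 →
    |∑ e ∈ Icc 1 ⌊2 * Q⌋₊, ∑ f ∈ Icc 1 ⌊2 * Q⌋₊, gam R Q c e * gam R Q c' f *
      (if ((Nat.gcd e f : ℕ) : ℤ) ∣ m then (Nat.gcd e f : ℝ) / ((e : ℝ) * f) else 0)| ≤ 8 * tau m.natAbs / R

/-- Module Erp (theorem tErp). Uses: Vaq.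
Proof. If gcd(e,f) does not divide a - b no n satisfies both congruences: errp = 0. Otherwise, by the Chinese remainder theorem there is
n0 with e | n0 - a, f | n0 - b (Int.emod... or from Bezout: a - b = e x + f y, n0 = a - e x), and both hold for n iff lcm(e,f) | n - n0;
Vaq with q = lcm(e,f), and gcd/(e f) = 1/lcm. -/
def ErpStmt : Prop :=
  ∀ (X e f : ℕ) (a b : ℤ), 1 ≤ X → 1 ≤ e → 1 ≤ f → |errp X e f a b| ≤ 1 ∧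
    (¬ ((Nat.gcd e f : ℕ) : ℤ) ∣ a - b → errp X e f a b = 0)

/-- Module Ofa (theorem tOfa; reduction to the sum of errp over dy Q). Uses: Gam, Gab, Mnt, Erp.
Proof. N = ⌊2Q⌋₊. By Gam (1) for n - a and n - b the sum is ∑_{e,f ≤ N} gam c e gam c' f ∑_n [e | n-a, f | n-b] vX = ∑_{e,f} gam gam' (2X [h | a-b]
h/(e f) + errp X e f a b), h = gcd(e,f). First part ≤ 2X 8 tau(|a-b|)/R (Mnt). Second part: pairs with e ≤ R or f ≤ R: at most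
2 R 2Q pairs, each ≤ 4 (1 + log 2Q)^2 (Gab (1), Erp). Pairs with e, f > R: gam c e = c e [e ∈ dy Q] (Gam (2)) and all elements of dy Q are > R. -/
def OfaStmt : Prop :=
  ∀ (X R : ℕ) (Q : ℝ) (c c' : ℕ → ℝ) (a b : ℤ), 1 ≤ X → 1 ≤ R → 1 ≤ Q → (R : ℝ) ≤ Q → (∀ d, |c d| ≤ 1) →
    (∀ d, |c' d| ≤ 1) → a ≠ b →
    |∑ n ∈ zs X, vX X n * gg R Q c (n - a) * gg R Q c' (n - b)| ≤
      16 * (X : ℝ) * tau (a - b).natAbs / R + 16 * (R : ℝ) * Q * (1 + Real.log (2 * Q)) ^ 2 +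
      |∑ d ∈ dy Q, ∑ f ∈ dy Q, c d * c' f * errp X d f a b|

/-- Module Ofh (theorem tOfh; large common divisors). Uses: nothing.
Proof. Sum over the divisors h of |m| with h > H of the number of pairs (d, f) with h | d, h | f, each ≤ (2Q/h)^2 ≤ 4Q^2/H^2
(card_dy_dvd_le); there are at most tau(|m|) such h. -/
def OfhStmt : Prop :=
  ∀ (Q : ℝ) (H : ℕ) (m : ℤ), 1 ≤ Q → 1 ≤ H → m ≠ 0 →
    (∑ d ∈ dy Q, ∑ f ∈ dy Q, if H < Nat.gcd d f ∧ ((Nat.gcd d f : ℕ) : ℤ) ∣ m then (1 : ℝ) else 0) ≤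
      4 * Q ^ 2 * tau m.natAbs / (H : ℝ) ^ 2

/-- Module Fou (theorem tFou; Fourier expansion). Uses: Em, Vft.
Proof. Let d = h d1, f = h d2, a - b = h m', gcd(d, f) = h. If h d1 | n - a write n = a + h d1 k; then n - b = h (m' + d1 k), so h d2 | n - b iff
d2 | m' + d1 k iff k + m' d1^(-1) = 0 in ZMod d2 (d1 is a unit). By Vft (3) with F(n) = [f | n - b] the sum of vX is
∑_{|k| ≤ K} vX(a + d k) [k + m' d1^(-1) = 0] and [x = 0] = (1/d2) ∑_{j ∈ rep d2} em d2 (j x) (rep d2 represents each class mod d2 exactly once;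
Em (6)); em d2 (j k) = ee(k (j/d2)) (Em (5)). So it is (1/d2) ∑_{j ∈ rep d2} em d2 (j m' d1^(-1)) Kh X d a K (j/d2). The term j = 0 is Kh(0)/d2, which
differs from 2X/(d d2) = 2X h/(d f) by at most 1/d2 (Vft (2)). For |j| > J: |j/d2| ≤ 1/2 and Vft (1): ‖Kh(j/d2)‖ ≤ d d2^2/(4 X j^2); the sum over
|j| > J of 1/j^2 is ≤ 2/J. So these terms are ≤ (1/d2) d d2^2/(4X) (2/J) = h d1 d2/(2 X J). -/
def FouStmt : Prop :=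
  ∀ (X h d1 d2 K J : ℕ) (a b m' : ℤ), 1 ≤ X → 1 ≤ h → 1 ≤ d1 → 1 ≤ d2 → 1 ≤ J → d1.Coprime d2 →
    |a| ≤ (X : ℤ) → a - b = h * m' → 3 * X ≤ (K + 1) * (h * d1) →
    ‖(errp X (h * d1) (h * d2) a b : ℂ) - (1 / (d2 : ℂ)) *
      ∑ j ∈ (rep d2).filter (fun j => j ≠ 0 ∧ |j| ≤ (J : ℤ)), Kh X (h * d1) a K ((j : ℝ) / d2) *
        em d2 (((j * m' : ℤ) : ZMod d2) * ((d1 : ZMod d2))⁻¹)‖ ≤
      1 / (d2 : ℝ) + (h : ℝ) * d1 * d2 / (2 * X * J)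

/-- Module Kpa (theorem tKpa; application of the bilinear forms). Uses: Vap, Kft.
Proof. C0 from Kft. Interchange: the sum is over j with 0 < |j| ≤ J and |k| ≤ K of ∑_{d1, d2 ∈ dy(Q/h)} α_{d1} β_{d2} kf (j m') d1 d2 with
α_{d1} = c(h d1) vX(a + h d1 k), β_{d2} = [j ∈ rep d2] c'(h d2) ee(k j/d2)/d2 (kf θ d1 d2 = em d2 (θ d1^(-1)) if coprime, else 0). |α| ≤ 1, |β| ≤ 1/d2 ≤ h/Q,
(dy(Q/h)).card ≤ 2Q/h, so ‖α‖ ‖β‖ ≤ (2Q/h)^(1/2) (2Q/h)^(1/2) h/Q = 2. θ = j m' ≠ 0, |θ| ≤ J |m'|. Kft: each (j,k) gives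
≤ 2 C0 (Q/h)^(63/64+ε) (1 + J|m'| h^2/Q^2)^(1/4) (J |m'|)^ε. 2J values of j, 2K+1 of k. C = 4 C0. -/
def KpaStmt : Prop :=
  ∀ ε : ℝ, 0 < ε → ∃ C : ℝ, 0 < C ∧ ∀ (X h K J : ℕ) (Q : ℝ) (a m' : ℤ) (c c' : ℕ → ℝ), 1 ≤ h → 1 ≤ J →
    (h : ℝ) ≤ Q → m' ≠ 0 → (∀ d, |c d| ≤ 1) → (∀ d, |c' d| ≤ 1) →
    ‖∑ d1 ∈ dy (Q / h), ∑ d2 ∈ (dy (Q / h)).filter (fun d2 => d1.Coprime d2),
      ((c (h * d1) * c' (h * d2) : ℝ) : ℂ) * ((1 / (d2 : ℂ)) *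
        ∑ j ∈ (rep d2).filter (fun j => j ≠ 0 ∧ |j| ≤ (J : ℤ)), Kh X (h * d1) a K ((j : ℝ) / d2) *
          em d2 (((j * m' : ℤ) : ZMod d2) * ((d1 : ZMod d2))⁻¹))‖ ≤
      C * J * (2 * K + 1) * ((Q / h) ^ ((63 : ℝ) / 64 + ε) * (1 + J * |(m' : ℝ)| / (Q / h) ^ 2) ^ ((1 : ℝ) / 4) *
        (J * |(m' : ℝ)|) ^ ε)

/-- Module Ofj (theorem tOfj; pairs with gcd = h). Uses: Fou, Kpa.
Proof. d = h d1, f = h d2 with coprime d1, d2 ∈ dy(Q/h) (Q < h d1 ≤ 2Q). K = ⌊3X/Q⌋₊: (K+1) h d1 ≥ (3X/Q) Q = 3X. a - b = h m', 0 ≠ |m'| ≤ 2X/h. Fou: the sum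
differs from the sum in Kpa by ≤ ∑_{d1,d2} (1/d2 + h d1 d2/(2XJ)) ≤ (2Q/h)^2 (h/Q) + (2Q/h)^2 h (2Q/h)^2/(2XJ) ≤ 4Q + 8Q^4/(X J). Kpa: 2K+1 ≤ 7X/Q
(Q ≤ X), (Q/h)^(63/64+ε) ≤ Q^(63/64+ε) h^(-63/64), J|m'| (h/Q)^2 ≤ 2JXh/Q^2, (1 + 2JXh/Q^2)^(1/4) ≤ 2 h^(1/4) (1 + JX/Q^2)^(1/4), h^(1/4 - 63/64) ≤ 1,
(J|m'|)^ε ≤ 2^ε (JX)^ε. -/
def OfjStmt : Prop :=
  ∀ ε : ℝ, 0 < ε → ∃ C : ℝ, 0 < C ∧ ∀ (X h J : ℕ) (Q : ℝ) (a b : ℤ) (c c' : ℕ → ℝ), 1 ≤ X → 1 ≤ h → 1 ≤ J →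
    (h : ℝ) ≤ Q → Q ≤ X → a ≠ b → |a| ≤ (X : ℤ) → |b| ≤ (X : ℤ) → (h : ℤ) ∣ a - b →
    (∀ d, |c d| ≤ 1) → (∀ d, |c' d| ≤ 1) →
    |∑ d ∈ dy Q, ∑ f ∈ (dy Q).filter (fun f => Nat.gcd d f = h), c d * c' f * errp X d f a b| ≤
      4 * Q + 8 * Q ^ 4 / (X * J) + C * J * X * (Q ^ (-(1 : ℝ) / 64 + ε) * (1 + J * X / Q ^ 2) ^ ((1 : ℝ) / 4) *
        ((J : ℝ) * X) ^ ε)

/-- Module Ofk (theorem tOfk; all pairs). Uses: Erp, Ofh, Ofj.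
Proof. Split the pairs (d, f) according to h = gcd(d, f). h ∤ a - b: errp = 0 (Erp). h > H, h | a - b: |errp| ≤ 1 and Ofh. h ≤ H, h | a - b:
Ofj for each of the ≤ tau(|a-b|) such h (h ≤ H ≤ Q). -/
def OfkStmt : Prop :=
  ∀ ε : ℝ, 0 < ε → ∃ C : ℝ, 0 < C ∧ ∀ (X H J : ℕ) (Q : ℝ) (a b : ℤ) (c c' : ℕ → ℝ), 1 ≤ X → 1 ≤ H → 1 ≤ J →
    (H : ℝ) ≤ Q → Q ≤ X → a ≠ b → |a| ≤ (X : ℤ) → |b| ≤ (X : ℤ) → (∀ d, |c d| ≤ 1) → (∀ d, |c' d| ≤ 1) →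
    |∑ d ∈ dy Q, ∑ f ∈ dy Q, c d * c' f * errp X d f a b| ≤
      tau (a - b).natAbs * (4 * Q ^ 2 / (H : ℝ) ^ 2 + 4 * Q + 8 * Q ^ 4 / (X * J) +
        C * J * X * (Q ^ (-(1 : ℝ) / 64 + ε) * (1 + J * X / Q ^ 2) ^ ((1 : ℝ) / 4) * ((J : ℝ) * X) ^ ε))

/-- Module Ofn (theorem tOfn; choice of the parameters, real inequalities only). Uses: nothing.
Proof. ε = 10^(-5). Write q for the exponent of Q, 0.499 ≤ q ≤ 0.5011. R = ⌊X^0.4985⌋₊, H = ⌊X^(2/1000)⌋₊ ≥ X^0.002/2, J = ⌊Q^4 X^(-2 + 1/2000)⌋₊ + 1. Exponents of X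
(without constants and logarithms): first term 1 + ε - 0.4985; second 0.4985 + 0.5011 = 0.9996 (times (1 + log 2Q)^2); third ε + 1.0022 - 0.004; 4Q: 0.5011 + ε;
8 Q^4/(X J) ≤ 8 X^(1 - 1/2000) since J ≥ Q^4 X^(-2+1/2000): 0.9995 + ε; J ≤ X^(4·0.0011 + 0.0005) + 1 ≤ 2 X^0.0049, J X/Q^2 ≤ 2 X^(0.0049 + 1 - 0.998) = 2 X^0.0069, fourth root of
1 + that ≤ 2 X^0.00173, Q^(-1/64+ε) ≤ X^(-0.499 (1/64 - ε)) ≤ X^(-0.00779), (J X)^ε ≤ 2 X^(1.01 ε): the last term is ≤ C X^(1 + ε + 0.0049 + 0.00173 - 0.00779 + 1.01 ε) ≤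
C X^(1 - 0.0011). All are < 0.99975 = 3999/4000, so each term is ≤ X^(3999/4000)/6 for large X. -/
def OfnStmt : Prop :=
  ∀ C1 C2 : ℝ, 0 < C1 → 0 < C2 → ∃ X0 : ℕ, 1 ≤ X0 ∧ ∀ (X : ℕ) (Q : ℝ), X0 ≤ X →
    (X : ℝ) ^ ((499 : ℝ) / 1000) ≤ Q → Q ≤ (X : ℝ) ^ ((5011 : ℝ) / 10000) →
    1 ≤ Q ∧ Q ≤ X ∧ 1 ≤ ⌊(X : ℝ) ^ ((4985 : ℝ) / 10000)⌋₊ ∧ (⌊(X : ℝ) ^ ((4985 : ℝ) / 10000)⌋₊ : ℝ) ≤ Q ∧
    ∃ H J : ℕ, 1 ≤ H ∧ 1 ≤ J ∧ (H : ℝ) ≤ Q ∧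
      16 * (X : ℝ) * (C1 * (X : ℝ) ^ ((1 : ℝ) / 100000)) / (⌊(X : ℝ) ^ ((4985 : ℝ) / 10000)⌋₊ : ℝ) +
      16 * (⌊(X : ℝ) ^ ((4985 : ℝ) / 10000)⌋₊ : ℝ) * Q * (1 + Real.log (2 * Q)) ^ 2 +
      C1 * (X : ℝ) ^ ((1 : ℝ) / 100000) * (4 * Q ^ 2 / (H : ℝ) ^ 2 + 4 * Q + 8 * Q ^ 4 / (X * J) +
        C2 * J * X * (Q ^ (-(1 : ℝ) / 64 + 1 / 100000) * (1 + J * X / Q ^ 2) ^ ((1 : ℝ) / 4) *
          ((J : ℝ) * X) ^ ((1 : ℝ) / 100000))) ≤ (X : ℝ) ^ ((3999 : ℝ) / 4000)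

/-- Module Ofl (theorem tOfl; off-diagonal terms). Uses: Dvb, Ofa, Ofk, Ofn.
Proof. ε = 10^(-5): C from Dvb, tau(|a-b|) ≤ C (2X)^ε ≤ C1 X^ε, C2 from Ofk with ε; Ofn gives H, J; Ofa (with R = ⌊X^0.4985⌋₊) and Ofk. -/
def OflStmt : Prop :=
  ∃ X0 : ℕ, 1 ≤ X0 ∧ ∀ (X : ℕ) (Q : ℝ) (a b : ℤ) (c c' : ℕ → ℝ), X0 ≤ X →
    (X : ℝ) ^ ((499 : ℝ) / 1000) ≤ Q → Q ≤ (X : ℝ) ^ ((5011 : ℝ) / 10000) → a ≠ b →
    |a| ≤ (X : ℤ) → |b| ≤ (X : ℤ) → (∀ d, |c d| ≤ 1) → (∀ d, |c' d| ≤ 1) →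
    |∑ n ∈ zs X, vX X n * gg ⌊(X : ℝ) ^ ((4985 : ℝ) / 10000)⌋₊ Q c (n - a) *
      gg ⌊(X : ℝ) ^ ((4985 : ℝ) / 10000)⌋₊ Q c' (n - b)| ≤ (X : ℝ) ^ ((3999 : ℝ) / 4000)

/-- Module Dia (theorem tDia; diagonal terms). Uses: Vap, Dsb, Gab.
Proof. 0 ≤ vX ≤ 1, for n ≠ a Gab (2): gg^2 ≤ 4 (1 + log 2Q)^2 tau(|n - a|)^2 and 0 < |n - a| ≤ 3X: the sum is ≤ 2·4 (1 + log 2Q)^2 ∑_{m ≤ 3X} tau(m)^2 ≤
8 (1 + log(2X))^2 3X (1 + log(3X))^3 (Dsb (2)) ≤ C X (1 + log X)^5. -/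
def DiaStmt : Prop :=
  ∃ C : ℝ, 0 < C ∧ ∀ (X R : ℕ) (Q : ℝ) (a : ℤ) (c : ℕ → ℝ), 1 ≤ X → 1 ≤ Q → (R : ℝ) ≤ Q → Q ≤ X →
    |a| ≤ (X : ℤ) → (∀ d, |c d| ≤ 1) →
    ∑ n ∈ (zs X).erase a, vX X n * (gg R Q c (n - a)) ^ 2 ≤ C * (X * (1 + Real.log X) ^ 5)

/-- Module Lsq (theorem tLsq; the L^2 inequality). Uses: Vap, Dvb, Gab, Ofl, Dia.
Proof. Let R = ⌊X^0.4985⌋₊, g_a(n) = gg R Q (c a) (n - a). The left side is ∑_{a,b ∈ A} ∑_{n ∈ zs X, n ≠ a, n ≠ b} vX n g_a(n) g_b(n). a = b: Dia, total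
≤ C A.card X (1 + log X)^5 (R ≤ Q, Q ≤ X, for large X). a ≠ b: the sum over all n ∈ zs X is ≤ X^(3999/4000) (Ofl) and the terms n = a and n = b are each ≤
4Q (1 + log 2Q) 2 (1 + log 2Q) tau(|a - b|) ≤ X^(3999/4000)/2 for large X (Gab (2), (3), Dvb, Q ≤ X^0.5011). -/
def LsqStmt : Prop :=
  ∃ (C : ℝ) (X0 : ℕ), 0 < C ∧ 1 ≤ X0 ∧ ∀ (X : ℕ) (Q : ℝ) (A : Finset ℤ) (c : ℤ → ℕ → ℝ), X0 ≤ X →
    (X : ℝ) ^ ((499 : ℝ) / 1000) ≤ Q → Q ≤ (X : ℝ) ^ ((5011 : ℝ) / 10000) →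
    (∀ a ∈ A, |a| ≤ (X : ℤ)) → (∀ a d, |c a d| ≤ 1) →
    ∑ n ∈ zs X, vX X n * (∑ a ∈ A.erase n, gg ⌊(X : ℝ) ^ ((4985 : ℝ) / 10000)⌋₊ Q (c a) (n - a)) ^ 2 ≤
      C * A.card * (X * (1 + Real.log X) ^ 5) + 2 * (A.card : ℝ) ^ 2 * (X : ℝ) ^ ((3999 : ℝ) / 4000)

end Pool.Agent.Lib.KF
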