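import Pool.Agent.Lib.KF.SpecW

/-!
MP_00e23e_nt, directory Lib/KF (architect helper3), part V: theorem W with sets of residues. For pairwise
disjoint sets A_j of at most x^(-ε/3) min(x^(1/4), (x/Q)^(1/2)) integers in [-x^B, x^B] and 1 ≤ Q ≤ x^(1-ε), for
all but C (1 + Q^2/x) (log x)^C' of the j: the sum over d ≤ Q of the maximum over y ≤ x and a ∈ A_j, (a,d) = 1, of
|E(y;d,a)| is ≤ C x/(log x)^U. Rules: see SpecK.lean (first line of the modules of this part: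
`import Pool.Agent.Lib.KF.SpecV`; also open Pool.Agent.Results.MP_00e23e_nt).
-/

namespace Pool.Agent.Lib.KF

open Finset Pool.Agent.Lib.EH3 Pool.Agent.Results.MP_00e23e_nt

/-- the sum over d in (Q, 2Q] of c d times ([d | n - a d] minus its model), residues a d depending on d -/
noncomputable def gb (R : ℕ) (Q : ℝ) (c : ℕ → ℝ) (a : ℕ → ℤ) (n : ℤ) : ℝ :=
  ∑ d ∈ dy Q, c d * ((if (d : ℤ) ∣ n - a d then 1 else 0) - ell R d (n - a d))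

/-- the coefficient of e(n h/r) in the sum over j ∈ J of gb -/
noncomputable def zb (Q : ℝ) (J : Finset ℕ) (c : ℕ → ℕ → ℝ) (a : ℕ → ℕ → ℤ) (r h : ℕ) : ℂ :=
  ∑ j ∈ J, ∑ d ∈ (dy Q).filter (fun d => r ∣ d), ((c j d / d : ℝ) : ℂ) * ee (-((a j d : ℝ) * ((h : ℝ) / r)))

/-- the moduli d in (Q, 2Q] coprime to a d -/
noncomputable def dyb (Q : ℝ) (a : ℕ → ℤ) : Finset ℕ := (dy Q).filter (fun d => Int.gcd (a d) d = 1)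

/-- the family: the values a j d are in A j, the sets A j have at most M elements, elements of different
sets are different and the number of divisors of their difference is at most T -/
def Fam (J : Finset ℕ) (A : ℕ → Finset ℤ) (a : ℕ → ℕ → ℤ) (M T : ℝ) : Prop :=
  (∀ j ∈ J, ∀ d, a j d ∈ A j) ∧ (∀ j ∈ J, ((A j).card : ℝ) ≤ M) ∧
    ∀ j ∈ J, ∀ k ∈ J, j ≠ k → ∀ b ∈ A j, ∀ b' ∈ A k, b ≠ b' ∧ tau (b - b').natAbs ≤ T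

/-- Module Zsb (theorem tZsb; the square sum of the coefficients). Uses: nothing. (Compare Lib/KF/Zsq.lean, landed.)
Proof. For fixed r: ∑_{h ∈ range r} ‖zb r h‖^2 = ∑_{(j,d),(k,d'), r | d, r | d'} (c j d/d)(c k d'/d') ∑_h ee(h ((a k d' - a j d)/r)) = r ∑ over the pairs with
r | a k d' - a j d (EH3.orth). Put S_r = ∑_{d ∈ dy Q, r | d} 1/d ≤ (2Q/r)(1/Q) = 2/r (card_dy_dvd_le). Pairs with k = j: at most r ∑_j S_r^2 ≤ (4/r) J.card. Pairs with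
k ≠ j: group by b = a j d ∈ A j, b' = a k d' ∈ A k: at most r ∑_{j ≠ k} ∑_{b ∈ A j, b' ∈ A k, r | b - b'} S_r^2 ≤ (4/r) #{(j,k,b,b') : r | b - b'}. Sum over r ∈ (r0, 2 r0]
(r0 values, 1/r ≤ 1/r0): ≤ 4 J.card + (4/r0) ∑_{j ≠ k} ∑_{b,b'} tau(|b - b'|) ≤ 4 J.card + (4/r0) J.card^2 M^2 T. -/
def ZsbStmt : Prop :=
  ∀ (Q T M : ℝ) (J : Finset ℕ) (A : ℕ → Finset ℤ) (c : ℕ → ℕ → ℝ) (a : ℕ → ℕ → ℤ) (r0 : ℕ), 1 ≤ Q → 1 ≤ r0 →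
    0 ≤ T → 0 ≤ M → (∀ j d, |c j d| ≤ 1) → Fam J A a M T →
    ∑ r ∈ Ioc r0 (2 * r0), ∑ h ∈ (range r).filter (fun h => h.Coprime r), ‖zb Q J c a r h‖ ^ 2 ≤
      4 * ((J.card : ℝ) + (J.card : ℝ) ^ 2 * (T * M ^ 2) / r0)

/-- Module Ggb (theorem tGgb; expansion). Uses: Ram, Rmx. (Compare Lib/KF/Ggr.lean, landed.)
Proof. For d ≥ 1: [d | m] - ell R d m = (1/d) ∑_{r | d, R < r} ram r m (see the proof of Ggr), and ram r m = ∑_{h < r, coprime} ee(m (h/r)) (Rmx), m = n - a d: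
ee((n - a d)(h/r)) = ee(n (h/r)) ee(-(a d (h/r))). Sum over j and d with the weights c j d and interchange; all r are ≤ 2Q. -/
def GgbStmt : Prop :=
  ∀ (R : ℕ) (Q : ℝ) (J : Finset ℕ) (c : ℕ → ℕ → ℝ) (a : ℕ → ℕ → ℤ) (n : ℤ),
    ((∑ j ∈ J, gb R Q (c j) (a j) n : ℝ) : ℂ) =
      ∑ r ∈ (Icc 1 ⌊2 * Q⌋₊).filter (fun r => R < r), ∑ h ∈ (range r).filter (fun h => h.Coprime r),
        zb Q J c a r h * ee ((n : ℝ) * ((h : ℝ) / r))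

/-- Module Wlb (theorem tWlb; L^2 bound). Uses: Fls, Zsb, Ggb. (Compare Lib/KF/Wls.lean, landed: the same proof with zb, Zsb in place of zc, Zsq.)
Proof. r_i = 2^i R, i < I, I the least number with 2^I R ≥ 2Q; I ≤ 2 (1 + log 2Q). By Ggb the function is ∑_{i<I} F_i, F_i = the part with r ∈ (r_i, 2 r_i] (zb = 0 for r > 2Q: no
d ∈ dy Q is divisible by r). |F|^2 ≤ I ∑ |F_i|^2, ∑_{n < X+1} |F_i(n)|^2 ≤ 80 (X + 1 + r_i^2) 4 (J.card + J.card^2 T M^2/r_i) (Fls, Zsb); ∑ r_i^2 ≤ 6 Q^2, ∑ r_i ≤ 4Q, ∑ 1/r_i ≤ 2/R,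
X + 1 ≤ 2X. -/
def WlbStmt : Prop :=
  ∀ (X R : ℕ) (Q T M : ℝ) (J : Finset ℕ) (A : ℕ → Finset ℤ) (c : ℕ → ℕ → ℝ) (a : ℕ → ℕ → ℤ), 1 ≤ X → 1 ≤ R →
    1 ≤ Q → 0 ≤ T → 0 ≤ M → (∀ j d, |c j d| ≤ 1) → Fam J A a M T →
    ∑ n ∈ range (X + 1), (∑ j ∈ J, gb R Q (c j) (a j) (n : ℤ)) ^ 2 ≤
      8000 * (1 + Real.log (2 * Q)) ^ 2 *
        (((X : ℝ) + Q ^ 2) * J.card + ((X : ℝ) / R + Q) * (T * M ^ 2) * (J.card : ℝ) ^ 2)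

/-- Module Ttb (theorem tTtb; the model at the primes, residues depending on d). Uses: Lam, Dsb, Elp. (Compare Lib/KF/Tta.lean, landed: the same proof; the bound of Elp
does not depend on a.)
Proof. Sum Elp (x replaced by y, a by a d) over d ∈ dyb Q a ⊆ dy Q; the two parts as in Tta. -/
def TtbStmt : Prop :=
  ∀ (y Q : ℝ) (R : ℕ) (a : ℕ → ℤ), 1 ≤ Q → 1 ≤ R → (R : ℝ) ≤ Q →
    ∑ d ∈ dyb Q a, |ellp y R d (a d) - li y / (d.totient : ℝ)| ≤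
      2 * (1 + Real.log (2 * Q)) * ∑ e ∈ Icc 1 R, maxErr y e + 8 * |li y| / Real.sqrt R

/-- Module Bvy (theorem tBvy; Bombieri-Vinogradov for all y ≤ x). Uses: Pool.Agent.Lib.BV.ExtStmt
(h1 : Pool.Agent.Lib.BV.ExtStmt). (Compare Lib/KF/Bvz.lean, landed.)
Proof. As Bvz, with the constant function y in Ext and D = ⌊x^κ⌋₊, κ < 1/2: √x D (2 log x)^2 ≤ 4 x^(1/2+κ) (log x)^2 ≤ C x/(log x)^A. 3 ≤ x < 16: all is bounded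
(EH.maxErr_le). -/
def BvyStmt : Prop :=
  ∀ A κ : ℝ, 0 < A → 0 < κ → κ < 1 / 2 → ∃ C : ℝ, 0 < C ∧ ∀ x y : ℝ, 3 ≤ x → 2 ≤ y → y ≤ x →
    ∑ d ∈ Icc 1 ⌊x ^ κ⌋₊, maxErr y d ≤ C * (x / (Real.log x) ^ A)

/-- Module Blb (theorem tBlb; the sum of |resErr| in terms of gb). Uses: nothing. (Compare Lib/KF/Blc.lean, landed.)
Proof. c d = sign of resErr y d (a d) if gcd(a d, d) = 1, else 0. For d ∈ dyb Q a: |resErr y d (a d)| = c d * resErr y d (a d), resErr y d (a d) =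
∑_{p ≤ y} ([d | p - a d] - ell R d (p - a d)) + (ellp y R d (a d) - li y/φ(d)). -/
def BlbStmt : Prop :=
  ∀ (y Q : ℝ) (R : ℕ) (a : ℕ → ℤ), ∃ c : ℕ → ℝ, (∀ d, |c d| ≤ 1) ∧
    ∑ d ∈ dyb Q a, |resErr y d (a d)| ≤ (∑ p ∈ (Icc 1 ⌊y⌋₊).filter Nat.Prime, gb R Q c a (p : ℤ)) +
      ∑ d ∈ dyb Q a, |ellp y R d (a d) - li y / (d.totient : ℝ)|

/-- Module Wbb (theorem tWbb; one dyadic block and one y). Uses: Dvb, Ttb, Bvy, Blb, Wlb. (Compare Lib/KF/Wbk.lean: the same proof.)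
Proof. L = log x (large), X = ⌊x⌋₊, R = ⌊x^(1/2-ε/2)⌋₊ ≤ Q, n = J.card. For j ∈ J (Blb, Ttb, Bvy with κ = 1/2 - ε/2 and exponent U + 3; |li y| ≤ 2x): x/L^(U+1) <
∑_{p ≤ y} gb R Q (c j) (a j) p + T_j, T_j ≤ 2 (1 + log 2Q) C x/L^(U+3) + 16 x/√R ≤ x/(4 L^(U+1)). Sum over j ∈ J: (3/4) n x/L^(U+1) ≤ √x (∑_{n < X+1} (∑_j gb)^2)^(1/2). Square and Wlb
with T = C' (2 x^B)^ε', ε' > 0 so small that 8000 (1 + log 2Q)^2 x (X/R + Q) T M^2 ≤ x^2/(16 L^(2U+2)) for x ≥ x0, where M = x^(-ε/3) min(x^(1/4), (x/Q)^(1/2)):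
(X/R) M^2 ≤ 2 x^(1/2+ε/2) x^(1/2-2ε/3) = 2 x^(1-ε/6), Q M^2 ≤ x^(1-2ε/3). So n ≤ 64000 L^(2U+4) (1 + Q^2/x). -/
def WbbStmt : Prop :=
  ∀ ε U B : ℝ, 0 < ε → ε ≤ 1 / 10 → 0 < U → 0 < B → ∃ C x0 : ℝ, 0 < C ∧ 3 ≤ x0 ∧
    ∀ (x y Q : ℝ) (J : Finset ℕ) (A : ℕ → Finset ℤ) (a : ℕ → ℕ → ℤ), x0 ≤ x → 2 ≤ y → y ≤ x →
    x ^ (1 / 2 - ε / 2) ≤ Q → Q ≤ x ^ (1 - ε) →
    (∀ j ∈ J, ((A j).card : ℝ) ≤ x ^ (-(ε / 3)) * min (x ^ ((1 : ℝ) / 4)) ((x / Q) ^ ((1 : ℝ) / 2))) →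
    (∀ j ∈ J, ∀ b ∈ A j, |(b : ℝ)| ≤ x ^ B) → (∀ j ∈ J, ∀ k ∈ J, j ≠ k → Disjoint (A j) (A k)) →
    (∀ j ∈ J, ∀ d, a j d ∈ A j) →
    (∀ j ∈ J, x / (Real.log x) ^ (U + 1) < ∑ d ∈ dyb Q (a j), |resErr y d (a j d)|) →
    (J.card : ℝ) ≤ C * ((1 + Q ^ 2 / x) * (Real.log x) ^ (2 * U + 4))

/-- Module Grd (theorem tGrd; grid for y). Uses: nothing.
Proof. y_i = i x/G, i = 1, ..., G (natural G ≥ 1, x/G ≥ 2). Let 2 ≤ y ≤ x and i the least index with y ≤ y_i. If i ≥ 2: y_(i-1) < y ≤ y_i and resCount is monotone in y, li is monotone: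
resErr y ≤ resErr y_i + (li y_i - li y_(i-1))/φ, resErr y ≥ resErr y_(i-1) - (li y_i - li y_(i-1))/φ, and li y_i - li y_(i-1) ≤ (x/G)/log 2 ≤ 2x/G (y_(i-1) ≥ 2). If i = 1: resErr y ≤ resErr y_1 +
li y_1/φ, resErr y ≥ -li y_1/φ, li y_1 ≤ 2 y_1 = 2x/G (EH.li_le). So in all cases |resErr y d a| ≤ ∑_{i=1}^{G} |resErr y_i d a| + 2 x/(G φ(d)). -/
def GrdStmt : Prop :=
  ∀ (x y : ℝ) (G d : ℕ) (a : ℤ), 1 ≤ G → 2 ≤ x / G → 2 ≤ y → y ≤ x → 1 ≤ d →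
    |resErr y d a| ≤ (∑ i ∈ Icc 1 G, |resErr (i * x / G) d a|) + 2 * x / (G * (d.totient : ℝ))

/-- Module Wde (theorem tWde; dyadic decomposition, real inequalities only). Uses: nothing. (Compare Lib/KF/Wdd.lean.)
Proof. I the least natural number with Q/2^I ≤ 2 x^(1/2-ε/2). For i < I: Q/2^i > 2 x^(1/2-ε/2), so Q/2^(i+1) > x^(1/2-ε/2). If I ≥ 1, 2^(I-1) < Q/(2 x^(1/2-ε/2)) ≤ x^(1/2+ε/2)
≤ x^(11/20), I ≤ 1 + 0.55 log x/log 2 ≤ log x for large x (log 2 > 0.69). If d ≤ Q: either d ≤ Q/2^I ≤ 2 x^(1/2-ε/2) ≤ x^(1/2-ε/4), or for some i < I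
Q/2^(i+1) < d ≤ Q/2^i, i.e. d ∈ dy (Q/2^(i+1)) (mem_dy). -/
def WdeStmt : Prop :=
  ∀ ε : ℝ, 0 < ε → ε ≤ 1 / 10 → ∃ x1 : ℝ, 3 ≤ x1 ∧ ∀ x Q : ℝ, x1 ≤ x → 1 ≤ Q → Q ≤ x → ∃ I : ℕ,
    (I : ℝ) ≤ Real.log x ∧ (∀ i < I, x ^ (1 / 2 - ε / 2) ≤ Q / 2 ^ (i + 1)) ∧
    ∀ d ∈ Icc 1 ⌊Q⌋₊, d ∈ Icc 1 ⌊x ^ (1 / 2 - ε / 4)⌋₊ ∨ ∃ i < I, d ∈ dy (Q / 2 ^ (i + 1))

/-- Module Wfb (theorem tWfb; the final theorem of part V). Uses: Rse, Bvy, Wbb, Grd, Wde.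
Proof. Let L = log x, G = ⌈L^(U+3)⌉₊, U' = 2U + 5. For x < x2 (a constant depending on ε, U, B) take S = the empty set and C so large that the trivial bound
|resErr y d a| ≤ 3 x (at most x primes, |li y| ≤ 2x) gives ∑_{d ≤ Q} ≤ 3 x2^2 ≤ C x/(log x)^U (x ≥ 3, log x ≥ 1, log x ≤ log x2). Let x ≥ x2, I from Wde, Q_i = Q/2^(i+1) ≤ x^(1-ε). For i < I and
g ∈ Icc 1 G let S_(i,g) = the j ∈ J for which there is a : ℕ → ℤ with values in A j and x/L^(U'+1) < ∑_{d ∈ dyb Q_i a} |resErr (g x/G) d (a d)|. Choose such an a for every j ∈ S_(i,g): Wbb with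
U' (the bound for (A j).card is weaker for Q_i ≤ Q than for Q) gives card S_(i,g) ≤ C (1 + Q_i^2/x) L^(2U'+4). S = the union over i < I, g ≤ G: card S ≤ G I C (1 + Q^2/x) L^(2U'+4) ≤ 2 C (1 + Q^2/x)
L^(U+3+1+2U'+4) (G ≤ 2 L^(U+3)); U+8+2U' = 5U+18. If j ∈ J, j ∉ S, y, a as in the statement: by Grd |resErr (y d) d (a d)| ≤ ∑_{g ≤ G} |resErr (g x/G) d (a d)| + 2x/(G φ(d)); the second terms sum up to
≤ (2x/G) ∑_{d ≤ x} 1/φ(d) ≤ (2x/G) C L^2 ≤ C x/L^U (1/φ(d) ≤ (1 + 2 log d)/d by EH.le_totient, EH.card_primeFactors_le, ∑ 1/d ≤ 1 + log x; G ≥ L^(U+3)); the first: for each g the sum over d ≤ Q with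
gcd(a d, d) = 1 is ≤ ∑_{d ≤ x^(1/2-ε/4)} maxErr (g x/G) d (Rse) + ∑_{i<I} ∑_{d ∈ dyb Q_i a} |resErr (g x/G) d (a d)| ≤ C x/L^(U'+1) + I x/L^(U'+1) (Bvy, κ = 1/2 - ε/4, exponent U' + 1; g x/G ≥ 2), so
the total is ≤ G (C + L) x/L^(U'+1) ≤ 2 L^(U+3) (C+1) L x/L^(2U+6) = 2 (C+1) x/L^(U+2). -/
def WfbStmt : Prop :=
  ∀ ε U B : ℝ, 0 < ε → ε ≤ 1 / 10 → 0 < U → 0 < B → ∃ C : ℝ, ∀ (x Q : ℝ) (J : Finset ℕ) (A : ℕ → Finset ℤ),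
    3 ≤ x → 1 ≤ Q → Q ≤ x ^ (1 - ε) →
    (∀ j ∈ J, ((A j).card : ℝ) ≤ x ^ (-(ε / 3)) * min (x ^ ((1 : ℝ) / 4)) ((x / Q) ^ ((1 : ℝ) / 2))) →
    (∀ j ∈ J, ∀ b ∈ A j, |(b : ℝ)| ≤ x ^ B) → (∀ j ∈ J, ∀ k ∈ J, j ≠ k → Disjoint (A j) (A k)) →
    ∃ S ⊆ J, (S.card : ℝ) ≤ C * ((1 + Q ^ 2 / x) * (Real.log x) ^ (5 * U + 18)) ∧
      ∀ j ∈ J, j ∉ S → ∀ (y : ℕ → ℝ) (a : ℕ → ℤ), (∀ d, 2 ≤ y d ∧ y d ≤ x) → (∀ d, a d ∈ A j) →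
        ∑ d ∈ (Icc 1 ⌊Q⌋₊).filter (fun d : ℕ => Int.gcd (a d) d = 1), |resErr (y d) d (a d)| ≤
          C * (x / (Real.log x) ^ U)

end Pool.Agent.Lib.KF
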