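import Pool.Agent.Lib.KF.SpecF
import Pool.Agent.Lib.EH4.SpecK

/-!
MP_00e23e_nt, directory Lib/KF (architect helper3), part W: levels up to x^(1-ε). For all integers
|a| ≤ x^B outside a set of at most C (1 + Q^2/x) (log x)^(2U+5) elements, the sum over d ≤ Q, (d,a) = 1, of
|E(x;d,a)| is ≤ C x/(log x)^U, for 1 ≤ Q ≤ x^(1-ε). Large sieve for the conductors r > x^(1/4), each dyadic
block separately. Rules: see SpecK.lean (first line of the modules of this part: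
`import Pool.Agent.Lib.KF.SpecW`; also open Pool.Agent.Results.MP_00e23e_nt).
-/

namespace Pool.Agent.Lib.KF

open Finset Pool.Agent.Lib.EH3 Pool.Agent.Results.MP_00e23e_nt

/-- the coefficient of the Ramanujan sum of modulus r in gg -/
noncomputable def Gm (Q : ℝ) (c : ℕ → ℝ) (r : ℕ) : ℝ := ∑ d ∈ (dy Q).filter (fun d => r ∣ d), c d / d

/-- the coefficient of e(n h/r) in the sum over a ∈ A of gg (n - a) -/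
noncomputable def zc (Q : ℝ) (A : Finset ℤ) (c : ℤ → ℕ → ℝ) (r h : ℕ) : ℂ :=
  ∑ a ∈ A, (Gm Q (c a) r : ℂ) * ee (-((a : ℝ) * ((h : ℝ) / r)))

/-- Module Rmx (theorem tRmx; Ramanujan sums as exponential sums). Uses: Ram, Pool.Agent.Lib.EH4.FracStmt
(signature: theorem tRmx (h1 : RamStmt) (h2 : Pool.Agent.Lib.EH4.FracStmt) : RmxStmt).
Proof. Let f(s) be the right side. Frac with f(θ) = ee(m θ): ∑_{s | n} f(s) = ∑_{a ∈ range n} ee(m (a/n)) = n if n | m, else 0 (EH3.orth,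
a (m/n) = m (a/n)). By Ram (1) the complex numbers ram s m have the same divisor sums, for every n ≥ 1. By strong induction on n (the
sum over the proper divisors is the same on both sides, Nat.sum_divisors_eq_sum_properDivisors_add_self) f(n) = ram n m. -/
def RmxStmt : Prop :=
  ∀ (s : ℕ) (m : ℤ), 1 ≤ s →
    (ram s m : ℂ) = ∑ h ∈ (range s).filter (fun h => h.Coprime s), ee ((m : ℝ) * ((h : ℝ) / s))

/-- Module Ggr (theorem tGgr; expansion in Ramanujan sums). Uses: Ram.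
Proof. For d ≥ 1: [d | m] = (1/d) ∑_{r | d} ram r m (Ram (1)), and ell R d m = (1/d) ∑_{r | d, r ≤ R} ram r m: unfold ell, lam, ram and
interchange (∑_{e | d, e | m} (e/d) ∑_{r | d, e | r, r ≤ R} μ(r/e) = (1/d) ∑_{r | d, r ≤ R} ∑_{e | r, e | m} e μ(r/e)). So gg R Q c m =
∑_{d ∈ dy Q} c d (1/d) ∑_{r | d, R < r} ram r m, and interchange: all r are ≤ 2Q. -/
def GgrStmt : Prop :=
  ∀ (R : ℕ) (Q : ℝ) (c : ℕ → ℝ) (m : ℤ),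
    gg R Q c m = ∑ r ∈ (Icc 1 ⌊2 * Q⌋₊).filter (fun r => R < r), Gm Q c r * ram r m

/-- Module Fls (theorem tFls; large sieve for the fractions with denominators in (r0, 2 r0]). Uses:
Pool.Agent.Lib.EH4.SpcStmt (signature: theorem tFls (h1 : Pool.Agent.Lib.EH4.SpcStmt) : FlsStmt).
Proof. EH3.dual_ls with J = the pairs (r, h), r ∈ Ioc r0 (2 r0), h < r, coprime (sigma type, compare EH4.tLsq in Lib/EH4/Lsq.lean), θ = h/r, δ = 1/(2 r0)^2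
(Spc with Q = 2 r0; r ≥ 2), its parameter h replaced by H = N + 4 r0^2: 2 H δ ≥ 1 and range N ⊆ range (2 H). Constant 10·2 H ≤
80 (N + r0^2). -/
def FlsStmt : Prop :=
  ∀ (N r0 : ℕ) (z : ℕ → ℕ → ℂ), 1 ≤ r0 →
    ∑ n ∈ range N, ‖∑ r ∈ Ioc r0 (2 * r0), ∑ h ∈ (range r).filter (fun h => h.Coprime r),
      z r h * ee ((n : ℝ) * ((h : ℝ) / r))‖ ^ 2 ≤
      80 * ((N : ℝ) + (r0 : ℝ) ^ 2) *
        ∑ r ∈ Ioc r0 (2 * r0), ∑ h ∈ (range r).filter (fun h => h.Coprime r), ‖z r h‖ ^ 2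

/-- Module Zsq (theorem tZsq; the square sum of the coefficients). Uses: nothing.
Proof. |Gm Q (c a) r| ≤ (2Q/r)(1/Q) = 2/r (card_dy_dvd_le; d > Q). For fixed r: ∑_{h ∈ range r} ‖zc r h‖^2 = ∑_{a,b ∈ A} Gm a Gm b ∑_h ee(h ((b - a)/r)) =
r ∑_{a,b, r | b - a} Gm a Gm b (EH3.orth) ≤ r (2/r)^2 #{(a,b) : r | a - b} = (4/r) (A.card + #{(a,b) : a ≠ b, r | a - b}). Sum over r ∈ (r0, 2 r0] (r0 values,
1/r ≤ 1/r0): first part ≤ 4 A.card; second ≤ (4/r0) ∑_{a ≠ b} tau(|a - b|) ≤ 4 A.card^2 T/r0. -/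
def ZsqStmt : Prop :=
  ∀ (Q T : ℝ) (A : Finset ℤ) (c : ℤ → ℕ → ℝ) (r0 : ℕ), 1 ≤ Q → 1 ≤ r0 → 0 ≤ T → (∀ a d, |c a d| ≤ 1) →
    (∀ a ∈ A, ∀ b ∈ A, a ≠ b → tau (a - b).natAbs ≤ T) →
    ∑ r ∈ Ioc r0 (2 * r0), ∑ h ∈ (range r).filter (fun h => h.Coprime r), ‖zc Q A c r h‖ ^ 2 ≤
      4 * ((A.card : ℝ) + (A.card : ℝ) ^ 2 * T / r0)

/-- Module Wls (theorem tWls; L^2 bound). Uses: Rmx, Ggr, Fls, Zsq.
Proof. F(n) = ∑_{a ∈ A} gg R Q (c a) (n - a) = ∑_{r > R} ∑_{h < r, coprime} zc Q A c r h ee(n (h/r)) (Ggr, Rmx; r ≤ 2Q, and zc = 0 for r > 2Q because no d ∈ dy Q is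
divisible by r). Let r_i = 2^i R, i < I, I the least number with 2^I R ≥ 2Q; so I ≤ 2 (1 + log 2Q), and the intervals (r_i, 2 r_i] cover
(R, 2Q]. F = ∑_{i<I} F_i, |F|^2 ≤ I ∑ |F_i|^2, and ∑_{n < X+1} |F_i(n)|^2 ≤ 80 (X + 1 + r_i^2) 4 (A.card + A.card^2 T/r_i) (Fls, Zsq). Sum over i: ∑ r_i^2 ≤ 6 Q^2 (r_{I-1} < 2Q, geometric),
∑ r_i ≤ 4Q, ∑ 1/r_i ≤ 2/R, X + 1 ≤ 2X: total ≤ 320 I [A.card (2 I X + 6 Q^2) + A.card^2 T (4X/R + 4Q)] ≤ 8000 (1 + log 2Q)^2 [...]. -/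
def WlsStmt : Prop :=
  ∀ (X R : ℕ) (Q T : ℝ) (A : Finset ℤ) (c : ℤ → ℕ → ℝ), 1 ≤ X → 1 ≤ R → 1 ≤ Q → 0 ≤ T → (∀ a d, |c a d| ≤ 1) →
    (∀ a ∈ A, ∀ b ∈ A, a ≠ b → tau (a - b).natAbs ≤ T) →
    ∑ n ∈ range (X + 1), (∑ a ∈ A, gg R Q (c a) ((n : ℤ) - a)) ^ 2 ≤
      8000 * (1 + Real.log (2 * Q)) ^ 2 *
        (((X : ℝ) + Q ^ 2) * A.card + ((X : ℝ) / R + Q) * T * (A.card : ℝ) ^ 2)

/-- Module Wbk (theorem tWbk; one dyadic block). Uses: Dvb, Tta, Bvz, Blc, Wls.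
Proof. L = log x (large), X = ⌊x⌋₊, R = ⌊x^(1/4)⌋₊, c = sgn x, n = A.card. For a ∈ A (Blc, Tta, Bvz with exponent U + 3; R ≤ x^0.4996; |li x| ≤ 2x by EH.li_le, li_nonneg): x/L^(U+1) <
∑_{p ≤ x} gg R Q (sgn x a) (p - a) + T_a, T_a ≤ 2 (1 + log 2Q) C x/L^(U+3) + 16 x/√R ≤ x/(4 L^(U+1)). Sum over a ∈ A: (3/4) n x/L^(U+1) ≤ ∑_{p ≤ x} ∑_{a ∈ A} gg ≤
√x (∑_{n < X+1} (∑_{a ∈ A} gg R Q (sgn x a) (n - a))^2)^(1/2) (Cauchy-Schwarz; at most x primes). Square and Wls with T = C' (2 x^B)^ε', ε' > 0 so small (ε' = min(ε, 1/8)/(4 B + 4), say) that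
8000 (1 + log 2Q)^2 x (X/R + Q) T ≤ x^2/(16 L^(2U+2)) for x ≥ x0 (R ≥ x^(1/4)/2, Q ≤ x^(1-ε)): (9/16) n^2 x^2/L^(2U+2) ≤ 8000 (1 + log 2Q)^2 x (x + Q^2) n + n^2 x^2/(16 L^(2U+2)), so
n ≤ 2·8000·4 L^2 L^(2U+2) (1 + Q^2/x). -/
def WbkStmt : Prop :=
  ∀ ε U B : ℝ, 0 < ε → 0 < U → 0 < B → ∃ C x0 : ℝ, 0 < C ∧ 3 ≤ x0 ∧ ∀ (x Q : ℝ) (A : Finset ℤ), x0 ≤ x →
    x ^ ((499 : ℝ) / 1000) ≤ Q → Q ≤ x ^ (1 - ε) →
    (∀ a ∈ A, |(a : ℝ)| ≤ x ^ B ∧ x / (Real.log x) ^ (U + 1) < ∑ d ∈ dya Q a, |resErr x d a|) →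
    (A.card : ℝ) ≤ C * ((1 + Q ^ 2 / x) * (Real.log x) ^ (2 * U + 4))

/-- Module Wdd (theorem tWdd; dyadic decomposition, real inequalities only). Uses: nothing.
Proof. I the least natural number with Q/2^I ≤ x^(4995/10000). For i < I: Q/2^i > x^(4995/10000), so Q/2^(i+1) > x^(4995/10000)/2 ≥ x^(499/1000) for large x. If I ≥ 1,
2^(I-1) < Q/x^(4995/10000) ≤ x^(5005/10000), I ≤ 1 + 0.5005 log x/log 2 ≤ log x for large x (log 2 > 0.69). If d ≤ Q is a natural number: either d ≤ Q/2^I ≤ x^(4995/10000) ≤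
x^(4996/10000), or for some i < I Q/2^(i+1) < d ≤ Q/2^i, i.e. d ∈ dy (Q/2^(i+1)) (mem_dy). -/
def WddStmt : Prop :=
  ∃ x1 : ℝ, 3 ≤ x1 ∧ ∀ x Q : ℝ, x1 ≤ x → 1 ≤ Q → Q ≤ x → ∃ I : ℕ, (I : ℝ) ≤ Real.log x ∧
    (∀ i < I, x ^ ((499 : ℝ) / 1000) ≤ Q / 2 ^ (i + 1)) ∧
    ∀ d ∈ Icc 1 ⌊Q⌋₊, d ∈ Icc 1 ⌊x ^ ((4996 : ℝ) / 10000)⌋₊ ∨ ∃ i < I, d ∈ dy (Q / 2 ^ (i + 1))

/-- Module Wfn (theorem tWfn; the final theorem of part W). Uses: Rse, Bvz, Wbk, Wdd.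
Proof. Let L = log x. For x < x2 (a constant depending on ε, U, B) take S = all integers |a| ≤ x^B (card ≤ 2 x2^B + 1 ≤ C (log 3)^(2U+5) for a large C; log 3 ≥ 1).
Let x ≥ x2, I from Wdd, Q_i = Q/2^(i+1) ≤ x^(1-ε), A_i = the integers a with |a| ≤ x^B and x/L^(U+1) < ∑_{d ∈ dya Q_i a} |resErr x d a|, S = the union of the A_i, i < I:
card S ≤ ∑_{i<I} C (1 + Q_i^2/x) L^(2U+4) ≤ C (I + Q^2/x) L^(2U+4) ≤ C (1 + Q^2/x) L^(2U+5) (Wbk; ∑ 4^(-i-1) ≤ 1, I ≤ L, L ≥ 1). If |a| ≤ x^B and a ∉ S: the sum over d ≤ Q,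
gcd(a,d) = 1, is ≤ ∑_{d ≤ x^(4996/10000)} maxErr x d (Rse, EH.maxErr_nonneg) + ∑_{i<I} ∑_{d ∈ dya Q_i a} |resErr| ≤ C x/L^U + I x/L^(U+1) ≤ (C + 1) x/L^U (Bvz with
A = U). -/
def WfnStmt : Prop :=
  ∀ ε U B : ℝ, 0 < ε → 0 < U → 0 < B → ∃ C : ℝ, ∀ x Q : ℝ, 3 ≤ x → 1 ≤ Q → Q ≤ x ^ (1 - ε) → ∃ S : Finset ℤ,
    (S.card : ℝ) ≤ C * ((1 + Q ^ 2 / x) * (Real.log x) ^ (2 * U + 5)) ∧
    ∀ a : ℤ, |(a : ℝ)| ≤ x ^ B → a ∉ S →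
      ∑ d ∈ (Icc 1 ⌊Q⌋₊).filter (fun d : ℕ => Int.gcd a d = 1), |resErr x d a| ≤
        C * (x / (Real.log x) ^ U)

end Pool.Agent.Lib.KF
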