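import Pool.Agent.Lib.KF.SpecB

/-!
The s-part of a number.
-/

namespace Pool.Agent.Lib.KF

open Finset Pool.Agent.Lib.EH3

private lemma Spf_cop (s m : ℕ) (hm : 1 ≤ m) : (m / Nat.gcd m (s ^ m)).Coprime s := by
  refine Nat.Coprime.symm (Nat.coprime_of_dvd fun p hp hps hpm => ?_)
  obtain ⟨e, m', hm', hme⟩ := Nat.exists_eq_pow_mul_and_not_dvd (n := m) (by omega) p hp.ne_one
  have hpe : p ^ e ∣ m := ⟨m', hme⟩
  have he : e < m := by
    have h1 : p ^ e ≤ m := Nat.le_of_dvd hm hpe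
    have h2 : m < p ^ m := Nat.lt_pow_self hp.one_lt
    exact (Nat.pow_lt_pow_iff_right hp.one_lt).1 (lt_of_le_of_lt h1 h2)
  have h3 : p ^ e ∣ Nat.gcd m (s ^ m) :=
    Nat.dvd_gcd hpe ((pow_dvd_pow_of_dvd hps e).trans (pow_dvd_pow s he.le))
  have h4 : p ^ e * p ∣ m := by
    have := Nat.mul_dvd_mul h3 hpm
    rwa [Nat.mul_div_cancel' (Nat.gcd_dvd_left m (s ^ m))] at this
  rw [hme] at h4
  exact hm' (Nat.dvd_of_mul_dvd_mul_left (pow_pos hp.pos e) h4)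

theorem tSpf : SpfStmt := by
  refine ⟨fun s m => Nat.gcd_dvd_left _ _, fun s m _ hm => ⟨?_, Spf_cop s m hm⟩,
    fun s m p hp h => ?_⟩
  · exact Nat.gcd_pos_of_pos_left _ hm
  · exact hp.dvd_of_dvd_pow (h.trans (Nat.gcd_dvd_right _ _))

end Pool.Agent.Lib.KF
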