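import Pool.Agent.Lib.KF.SpecB

/-!
MP_00e23e_nt, directory Lib/KF: module Spg, the sum of the square roots of the s-parts.
-/

namespace Pool.Agent.Lib.KF

open Finset Pool.Agent.Lib.EH3

/-- the completely multiplicative function n ↦ n^(-1/2) -/
private noncomputable def Spg_f : ℕ →* ℝ where
  toFun n := (Real.sqrt n)⁻¹
  map_one' := by simp
  map_mul' m n := by
    push_cast
    rw [Real.sqrt_mul (Nat.cast_nonneg m), mul_inv]

private lemma Spg_f_apply (n : ℕ) : Spg_f n = (Real.sqrt n)⁻¹ := rfl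

private lemma Spg_f_prime {p : ℕ} (hp : p.Prime) : 0 ≤ Spg_f p ∧ Spg_f p ≤ 3 / 4 := by
  have hp2 : (2 : ℝ) ≤ p := by exact_mod_cast hp.two_le
  have h1 : (4 : ℝ) / 3 ≤ Real.sqrt p := by
    apply Real.le_sqrt_of_sq_le
    norm_num
    linarith
  rw [Spg_f_apply]
  refine ⟨by positivity, ?_⟩
  have h2 : (Real.sqrt p)⁻¹ ≤ ((4 : ℝ) / 3)⁻¹ := inv_anti₀ (by norm_num) h1
  norm_num at h2 ⊢
  exact h2

/-- the sum of g^(-1/2) over numbers g whose prime factors divide s -/
private lemma Spg_sum (s : ℕ) (T : Finset ℕ)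
    (hT : ∀ g ∈ T, g ∈ Nat.factoredNumbers s.primeFactors) :
    ∑ g ∈ T, (Real.sqrt g)⁻¹ ≤ 4 ^ s.primeFactors.card := by
  have hlt : ∀ {p : ℕ}, p.Prime → ‖Spg_f p‖ < 1 := by
    intro p hp
    have := Spg_f_prime hp
    rw [Real.norm_eq_abs, abs_of_nonneg this.1]
    linarith [this.2]
  have h := EulerProduct.summable_and_hasSum_factoredNumbers_prod_filter_prime_geometric hlt
    s.primeFactors
  have h1 : ∑ g ∈ T, (Real.sqrt g)⁻¹ ≤ ∏ p ∈ s.primeFactors with p.Prime, (1 - Spg_f p)⁻¹ := by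
    have h2 : ∑ g ∈ T, (Real.sqrt g)⁻¹ =
        ∑ m ∈ T.subtype (fun g => g ∈ Nat.factoredNumbers s.primeFactors), Spg_f m := by
      rw [Finset.sum_subtype_of_mem (fun g => Spg_f g) hT]
      rfl
    rw [h2]
    refine sum_le_hasSum _ ?_ h.2
    intro m _
    rw [Spg_f_apply]
    positivity
  refine h1.trans ?_
  have h3 : (s.primeFactors.filter (fun p => p.Prime)) = s.primeFactors := by
    refine Finset.filter_true_of_mem ?_
    intro p hp
    exact Nat.prime_of_mem_primeFactors hp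
  rw [h3]
  calc ∏ p ∈ s.primeFactors, (1 - Spg_f p)⁻¹ ≤ ∏ _p ∈ s.primeFactors, (4 : ℝ) := by
        refine Finset.prod_le_prod ?_ ?_
        · intro p hp
          have := Spg_f_prime (Nat.prime_of_mem_primeFactors hp)
          have h5 : 0 ≤ 1 - Spg_f p := by linarith [this.2]
          positivity
        · intro p hp
          have := Spg_f_prime (Nat.prime_of_mem_primeFactors hp)
          have h5 : (4 : ℝ)⁻¹ ≤ 1 - Spg_f p := by linarith [this.2]
          have h6 : (1 - Spg_f p)⁻¹ ≤ ((4 : ℝ)⁻¹)⁻¹ := inv_anti₀ (by norm_num) h5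
          simpa using h6
    _ = 4 ^ s.primeFactors.card := by rw [Finset.prod_const]

/-- 2^ω(s) ≤ tau s -/
private lemma Spg_omega (s : ℕ) (hs : 1 ≤ s) : (2 : ℝ) ^ s.primeFactors.card ≤ tau s := by
  unfold tau
  have h1 : 2 ^ s.primeFactors.card ≤ s.divisors.card := by
    rw [Nat.card_divisors (by omega)]
    refine Finset.pow_card_le_prod _ _ _ ?_
    intro p hp
    have h2 : 0 < s.factorization p :=
      Nat.Prime.factorization_pos_of_dvd (Nat.prime_of_mem_primeFactors hp) (by omega)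
        (Nat.dvd_of_mem_primeFactors hp)
    omega
  exact_mod_cast h1

theorem tSpg (h1 : SpfStmt) : SpgStmt := by
  obtain ⟨hd, hp, hq⟩ := h1
  intro Q s hQ hs
  have hQ0 : (0 : ℝ) ≤ Q := by linarith
  set T : Finset ℕ := (dy Q).image (fun m => spart s m) with hT
  have hm1 : ∀ m ∈ dy Q, 1 ≤ m := by
    intro m hm
    rw [mem_dy hQ0] at hm
    have : (0 : ℝ) < m := by linarith [hm.1]
    exact_mod_cast this
  have hT1 : ∀ g ∈ T, 1 ≤ g := by
    intro g hg
    rw [hT, Finset.mem_image] at hg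
    obtain ⟨m, hm, rfl⟩ := hg
    exact (hp s m hs (hm1 m hm)).1
  have hTf : ∀ g ∈ T, g ∈ Nat.factoredNumbers s.primeFactors := by
    intro g hg
    have hg1 := hT1 g hg
    rw [hT, Finset.mem_image] at hg
    obtain ⟨m, hm, rfl⟩ := hg
    rw [Nat.mem_factoredNumbers']
    intro p hpp hpd
    rw [Nat.mem_primeFactors]
    exact ⟨hpp, hq s m p hpp hpd, by omega⟩
  have h2 : ∑ m ∈ dy Q, Real.sqrt (spart s m : ℝ) =
      ∑ g ∈ T, ∑ m ∈ (dy Q).filter (fun m => spart s m = g), Real.sqrt (spart s m : ℝ) := by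
    rw [Finset.sum_fiberwise_of_maps_to]
    intro m hm
    exact Finset.mem_image_of_mem _ hm
  rw [h2]
  have h3 : ∀ g ∈ T, ∑ m ∈ (dy Q).filter (fun m => spart s m = g), Real.sqrt (spart s m : ℝ) ≤
      2 * Q * (Real.sqrt g)⁻¹ := by
    intro g hg
    have hg1 : (1 : ℝ) ≤ g := by exact_mod_cast hT1 g hg
    have h4 : ∑ m ∈ (dy Q).filter (fun m => spart s m = g), Real.sqrt (spart s m : ℝ) =
        ((dy Q).filter (fun m => spart s m = g)).card * Real.sqrt (g : ℝ) := by
      rw [← nsmul_eq_mul, ← Finset.sum_const]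
      refine Finset.sum_congr rfl ?_
      intro m hm
      rw [(Finset.mem_filter.1 hm).2]
    rw [h4]
    have h5 : (((dy Q).filter (fun m => spart s m = g)).card : ℝ) ≤ 2 * Q / g := by
      refine le_trans ?_ (card_dy_dvd_le hQ0 (hT1 g hg))
      have h6 : ((dy Q).filter (fun m => spart s m = g)).card ≤
          ((dy Q).filter (fun n => g ∣ n)).card := by
        refine Finset.card_le_card ?_
        intro m hm
        rw [Finset.mem_filter] at hm ⊢
        refine ⟨hm.1, ?_⟩
        rw [← hm.2]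
        exact hd s m
      exact_mod_cast h6
    have h7 : (((dy Q).filter (fun m => spart s m = g)).card : ℝ) * Real.sqrt g ≤
        2 * Q / g * Real.sqrt g := mul_le_mul_of_nonneg_right h5 (Real.sqrt_nonneg _)
    refine h7.trans (le_of_eq ?_)
    rw [div_mul_eq_mul_div, mul_div_assoc, Real.sqrt_div_self]
  refine (Finset.sum_le_sum h3).trans ?_
  rw [← Finset.mul_sum]
  refine mul_le_mul_of_nonneg_left ?_ (by linarith)
  refine (Spg_sum s T hTf).trans ?_
  have h9 := Spg_omega s hs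
  have h10 : (4 : ℝ) ^ s.primeFactors.card = (2 ^ s.primeFactors.card) ^ 2 := by
    rw [← pow_mul, mul_comm, pow_mul]
    norm_num
  rw [h10]
  exact pow_le_pow_left₀ (by positivity) h9 2

end Pool.Agent.Lib.KF
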