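import Pool.Agent.Lib.KF.SpecK

/-! MP_00e23e_nt, Lib/KF: module Tri. -/

namespace Pool.Agent.Lib.KF

open Finset Pool.Agent.Lib.EH3

private lemma Tri_card (q : ℕ) (P : ℕ → ℕ → Prop) [∀ y z, Decidable (P y z)] :
    (((range q) ×ˢ (range q)).filter (fun w : ℕ × ℕ => P w.1 w.2)).card =
      ∑ y ∈ range q, ((range q).filter (fun z => P y z)).card := by
  rw [Finset.card_filter, Finset.sum_product]
  refine Finset.sum_congr rfl fun y _ => ?_
  rw [Finset.card_filter]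

theorem tTri (h1 : CapStmt) : TriStmt := by
  intro q g u v a hq hguv hco
  have hgq : g ∣ q := ⟨u * v, by rw [← hguv, mul_assoc]⟩
  have huq : u ∣ q := ⟨g * v, by rw [← hguv]; ring⟩
  have hvq : v ∣ q := ⟨g * u, by rw [← hguv]; ring⟩
  have hwq : Nat.gcd v g ∣ q := (Nat.gcd_dvd_left v g).trans hvq
  -- the number of the `z` for a given `y`
  have hy : ∀ y ∈ range q, ((range q).filter (fun z : ℕ =>
      (u : ℤ) ∣ a - y ∧ (v : ℤ) ∣ a - z ∧ (g : ℤ) ∣ (y : ℤ) + z)).card ≤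
      if (u : ℤ) ∣ (y : ℤ) - a ∧ ((Nat.gcd v g : ℕ) : ℤ) ∣ (y : ℤ) - (-a) then
        q / Nat.lcm v g else 0 := by
    intro y _
    by_cases hc : (u : ℤ) ∣ (y : ℤ) - a ∧ ((Nat.gcd v g : ℕ) : ℤ) ∣ (y : ℤ) - (-a)
    · rw [if_pos hc]
      refine (Finset.card_le_card ?_).trans (h1 q v g a (-(y : ℤ)) hq hvq hgq)
      intro z hz
      obtain ⟨hz1, -, hz2, hz3⟩ := Finset.mem_filter.1 hz
      refine Finset.mem_filter.2 ⟨hz1, ?_, ?_⟩
      · rw [← dvd_neg, neg_sub]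
        exact hz2
      · rw [sub_neg_eq_add, add_comm]
        exact hz3
    · rw [if_neg hc, Nat.le_zero, Finset.card_eq_zero, Finset.filter_eq_empty_iff]
      rintro z - ⟨hz1, hz2, hz3⟩
      apply hc
      refine ⟨?_, ?_⟩
      · rw [← dvd_neg, neg_sub]
        exact hz1
      · have e1 : ((Nat.gcd v g : ℕ) : ℤ) ∣ a - z :=
          (Int.natCast_dvd_natCast.2 (Nat.gcd_dvd_left v g)).trans hz2
        have e2 : ((Nat.gcd v g : ℕ) : ℤ) ∣ (y : ℤ) + z :=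
          (Int.natCast_dvd_natCast.2 (Nat.gcd_dvd_right v g)).trans hz3
        have e3 := dvd_add e1 e2
        have e4 : a - (z : ℤ) + (y + z) = y - (-a) := by ring
        rwa [e4] at e3
  have hcard : (((range q) ×ˢ (range q)).filter (fun w : ℕ × ℕ =>
      (u : ℤ) ∣ a - w.1 ∧ (v : ℤ) ∣ a - w.2 ∧ (g : ℤ) ∣ (w.1 : ℤ) + w.2)).card ≤
      ((range q).filter (fun y : ℕ =>
        (u : ℤ) ∣ (y : ℤ) - a ∧ ((Nat.gcd v g : ℕ) : ℤ) ∣ (y : ℤ) - (-a))).card *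
        (q / Nat.lcm v g) := by
    rw [Tri_card q (fun y z => (u : ℤ) ∣ a - y ∧ (v : ℤ) ∣ a - z ∧ (g : ℤ) ∣ (y : ℤ) + z)]
    refine (Finset.sum_le_sum hy).trans ?_
    rw [← Finset.sum_filter, Finset.sum_const, smul_eq_mul]
  refine hcard.trans ?_
  rcases Finset.eq_empty_or_nonempty ((range q).filter (fun y : ℕ =>
      (u : ℤ) ∣ (y : ℤ) - a ∧ ((Nat.gcd v g : ℕ) : ℤ) ∣ (y : ℤ) - (-a))) with he | ⟨y, hyy⟩
  · rw [he, Finset.card_empty, zero_mul]
    exact Nat.zero_le _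
  · obtain ⟨-, hy1, hy2⟩ := Finset.mem_filter.1 hyy
    -- the gcd divides two
    have hg2 : Nat.gcd u (Nat.gcd v g) ∣ 2 := by
      have e1 : ((Nat.gcd u (Nat.gcd v g) : ℕ) : ℤ) ∣ (y : ℤ) - a :=
        (Int.natCast_dvd_natCast.2 (Nat.gcd_dvd_left _ _)).trans hy1
      have e2 : ((Nat.gcd u (Nat.gcd v g) : ℕ) : ℤ) ∣ (y : ℤ) - (-a) :=
        (Int.natCast_dvd_natCast.2 (Nat.gcd_dvd_right _ _)).trans hy2
      have e3 := dvd_sub e2 e1
      have e4 : (y : ℤ) - (-a) - (y - a) = 2 * a := by ring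
      rw [e4] at e3
      have e5 : IsCoprime ((Nat.gcd u (Nat.gcd v g) : ℕ) : ℤ) a := by
        have h3 : ((Nat.gcd u (Nat.gcd v g) : ℕ) : ℤ) ∣ (q : ℤ) :=
          Int.natCast_dvd_natCast.2 ((Nat.gcd_dvd_left _ _).trans huq)
        exact (hco.of_isCoprime_of_dvd_right h3).symm
      have e6 := e5.dvd_of_dvd_mul_right e3
      exact_mod_cast e6
    have hg2' : Nat.gcd u (Nat.gcd v g) ≤ 2 := Nat.le_of_dvd (by norm_num) hg2
    have hY := h1 q u (Nat.gcd v g) a (-a) hq huq hwq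
    have hL1 : 0 < Nat.lcm v g := Nat.pos_of_dvd_of_pos (Nat.lcm_dvd hvq hgq) (by omega)
    have hL2 : Nat.lcm u (Nat.gcd v g) ∣ q := Nat.lcm_dvd huq hwq
    have e1 : q / Nat.lcm v g = u * Nat.gcd v g := by
      have h3 : q = Nat.lcm v g * (u * Nat.gcd v g) := by
        have h4 := Nat.gcd_mul_lcm v g
        calc q = u * (v * g) := by rw [← hguv]; ring
          _ = u * (Nat.gcd v g * Nat.lcm v g) := by rw [h4]
          _ = _ := by ring
      conv_lhs => rw [h3]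
      exact Nat.mul_div_cancel_left _ hL1
    rw [e1]
    have e2 : q / Nat.lcm u (Nat.gcd v g) * (u * Nat.gcd v g) =
        q * Nat.gcd u (Nat.gcd v g) := by
      have h4 := Nat.gcd_mul_lcm u (Nat.gcd v g)
      rw [← h4, mul_comm (Nat.gcd u (Nat.gcd v g)), ← mul_assoc, Nat.div_mul_cancel hL2]
    calc _ ≤ q / Nat.lcm u (Nat.gcd v g) * (u * Nat.gcd v g) := Nat.mul_le_mul_right _ hY
      _ = q * Nat.gcd u (Nat.gcd v g) := e2
      _ ≤ q * 2 := Nat.mul_le_mul_left _ hg2'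
      _ = 2 * q := mul_comm _ _

end Pool.Agent.Lib.KF
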