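import Pool.Agent.Lib.KF.SpecF

/-!
MP_00e23e_nt, directory Lib/KF, module Tta: the models over a dyadic block of moduli.
-/

namespace Pool.Agent.Lib.KF

open Finset Pool.Agent.Lib.EH3 Pool.Agent.Results.MP_00e23e_nt

private lemma Tta_tau_nonneg (n : ℕ) : 0 ≤ tau n := by
  unfold tau
  positivity

private lemma Tta_omega (r : ℕ) (hr : 1 ≤ r) : (r.primeFactors.card : ℝ) + 1 ≤ tau r := by
  have h : insert 1 r.primeFactors ⊆ r.divisors := by
    intro x hx
    rw [Finset.mem_insert] at hx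
    rw [Nat.mem_divisors]
    rcases hx with rfl | hx
    · exact ⟨one_dvd _, by omega⟩
    · exact ⟨Nat.dvd_of_mem_primeFactors hx, by omega⟩
  have h2 := Finset.card_le_card h
  rw [Finset.card_insert_of_notMem
    (fun h => Nat.not_prime_one (Nat.prime_of_mem_primeFactors h))] at h2
  unfold tau
  exact_mod_cast h2

private lemma Tta_tau_le (n : ℕ) : tau n ≤ 2 * Real.sqrt n := by
  have h : n.divisors ⊆ (Icc 1 n.sqrt) ∪ (Icc 1 n.sqrt).image (fun e => n / e) := by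
    intro d hd
    obtain ⟨hd1, hn⟩ := Nat.mem_divisors.1 hd
    obtain ⟨e, rfl⟩ := hd1
    have hd0 : 0 < d := Nat.pos_of_ne_zero fun h => hn (by simp [h])
    have he0 : 0 < e := Nat.pos_of_ne_zero fun h => hn (by simp [h])
    rw [Finset.mem_union, Finset.mem_image]
    rcases le_total d e with h | h
    · left
      rw [Finset.mem_Icc]
      exact ⟨hd0, Nat.le_sqrt.2 (Nat.mul_le_mul_left d h)⟩
    · right
      refine ⟨e, ?_, Nat.mul_div_cancel _ he0⟩
      rw [Finset.mem_Icc]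
      exact ⟨he0, Nat.le_sqrt.2 (Nat.mul_le_mul_right e h)⟩
  have h2 := (Finset.card_le_card h).trans (Finset.card_union_le _ _)
  have h3 : ((Icc 1 n.sqrt).image (fun e => n / e)).card ≤ n.sqrt :=
    Finset.card_image_le.trans (by simp)
  have h4 : n.divisors.card ≤ 2 * n.sqrt := by
    rw [Nat.card_Icc] at h2
    omega
  have h5 : (n.divisors.card : ℝ) ≤ 2 * (n.sqrt : ℝ) := by exact_mod_cast h4
  have h6 : (n.sqrt : ℝ) ≤ Real.sqrt n := Real.nat_sqrt_le_real_sqrt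
  unfold tau
  linarith

private lemma Tta_inv_tot (r : ℕ) (hr : 1 ≤ r) :
    1 / (r.totient : ℝ) ≤ 2 / Real.sqrt r := by
  have h1 := Pool.Agent.Lib.EH.le_totient r
  have h2 := Tta_omega r hr
  have h3 := Tta_tau_le r
  have hr0 : (0 : ℝ) < r := by exact_mod_cast hr
  have hs : 0 < Real.sqrt r := Real.sqrt_pos.2 hr0
  have ht : (0 : ℝ) < r.totient := by exact_mod_cast Nat.totient_pos.2 hr
  have h4 : (r : ℝ) ≤ 2 * Real.sqrt r * r.totient :=
    h1.trans (mul_le_mul_of_nonneg_right (h2.trans h3) ht.le)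
  have h5 : Real.sqrt r * Real.sqrt r = r := Real.mul_self_sqrt hr0.le
  have h6 : Real.sqrt r ≤ 2 * r.totient := by
    have : Real.sqrt r * Real.sqrt r ≤ Real.sqrt r * (2 * r.totient) := by linarith
    exact le_of_mul_le_mul_left this hs
  rw [div_le_div_iff₀ ht hs]
  linarith

private lemma Tta_step (r : ℕ) (hr : 1 ≤ r) :
    4 / (((r + 1 : ℕ) : ℝ) * Real.sqrt ((r + 1 : ℕ) : ℝ)) ≤
      8 / Real.sqrt r - 8 / Real.sqrt ((r + 1 : ℕ) : ℝ) := by
  have hr0 : (0 : ℝ) < r := by exact_mod_cast hr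
  have hr1 : (0 : ℝ) < ((r + 1 : ℕ) : ℝ) := by positivity
  set a := Real.sqrt (r : ℝ) with ha
  set b := Real.sqrt ((r + 1 : ℕ) : ℝ) with hb
  have ha0 : 0 < a := Real.sqrt_pos.2 hr0
  have hb0 : 0 < b := Real.sqrt_pos.2 hr1
  have ha2 : a * a = r := Real.mul_self_sqrt hr0.le
  have hb2 : b * b = ((r + 1 : ℕ) : ℝ) := Real.mul_self_sqrt hr1.le
  have hab : b * b = a * a + 1 := by
    rw [ha2, hb2]
    push_cast
    ring
  have hle : a ≤ b := Real.sqrt_le_sqrt (by push_cast; linarith)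
  rw [← hb2, div_sub_div _ _ ha0.ne' hb0.ne', div_le_div_iff₀ (by positivity) (by positivity)]
  have h1 : (b - a) * (b + a) = 1 := by linear_combination hab
  have h2 : 0 ≤ b - a := by linarith
  -- a * b ≤ 2 b^3 (b - a)
  have h3 : a ≤ 2 * b * b * (b - a) := by
    nlinarith [mul_nonneg h2 h2, mul_nonneg hb0.le h2, mul_pos ha0 hb0,
      mul_nonneg (mul_nonneg hb0.le h2) h2]
  nlinarith [mul_le_mul_of_nonneg_left h3 hb0.le]

private lemma Tta_tail (R : ℕ) (hR : 1 ≤ R) (N : ℕ) (hN : R ≤ N) :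
    ∑ r ∈ Ioc R N, 4 / ((r : ℝ) * Real.sqrt r) ≤ 8 / Real.sqrt R - 8 / Real.sqrt N := by
  induction N, hN using Nat.le_induction with
  | base => simp
  | succ N hN ih =>
    rw [Finset.sum_Ioc_succ_top (by omega : R ≤ N)]
    have h := Tta_step N (hR.trans hN)
    linarith

private lemma Tta_lam (h1 : LamStmt) (h2 : DsbStmt) (R e : ℕ) (Q : ℝ) (hQ : 1 ≤ Q) (he : 1 ≤ e)
    (heQ : (e : ℝ) ≤ Q) :
    ∑ d ∈ (dy Q).filter (fun d => e ∣ d), |lam R d e| ≤ 2 * (1 + Real.log (2 * Q)) := by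
  have hQ0 : (0 : ℝ) ≤ Q := by linarith
  have hQp : (0 : ℝ) < Q := by linarith
  have he0 : (0 : ℝ) < e := by exact_mod_cast he
  have hp : ∀ d ∈ (dy Q).filter (fun d => e ∣ d), |lam R d e| ≤ (e : ℝ) / Q * tau (d / e) := by
    intro d hd
    obtain ⟨hd1, hd2⟩ := Finset.mem_filter.1 hd
    obtain ⟨hd3, hd4⟩ := (mem_dy hQ0).1 hd1
    have hd0 : (0 : ℝ) < d := by linarith
    refine (h1.1 R d e (by exact_mod_cast hd0) hd2).trans ?_
    refine mul_le_mul_of_nonneg_right ?_ (Tta_tau_nonneg _)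
    exact div_le_div_of_nonneg_left he0.le hQp hd3.le
  refine (Finset.sum_le_sum hp).trans ?_
  rw [← Finset.mul_sum]
  set N := ⌊2 * Q / e⌋₊ with hN
  have hq : (1 : ℝ) ≤ 2 * Q / e := by
    rw [le_div_iff₀ he0]
    linarith
  have hN1 : 1 ≤ N := Nat.le_floor (by simpa using hq)
  have hNle : (N : ℝ) ≤ 2 * Q / e := Nat.floor_le (by positivity)
  have hinj : Set.InjOn (fun d => d / e) ((dy Q).filter (fun d => e ∣ d) : Finset ℕ) := by
    intro d hd d' hd' h
    have hd2 := (Finset.mem_filter.1 (Finset.mem_coe.1 hd)).2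
    have hd2' := (Finset.mem_filter.1 (Finset.mem_coe.1 hd')).2
    have h : d / e = d' / e := h
    rw [← Nat.div_mul_cancel hd2, h, Nat.div_mul_cancel hd2']
  have hs : ∑ d ∈ (dy Q).filter (fun d => e ∣ d), tau (d / e) ≤ ∑ t ∈ Icc 1 N, tau t := by
    rw [← Finset.sum_image (f := tau) hinj]
    refine Finset.sum_le_sum_of_subset_of_nonneg ?_ fun _ _ _ => Tta_tau_nonneg _
    intro t ht
    obtain ⟨d, hd, rfl⟩ := Finset.mem_image.1 ht
    obtain ⟨hd1, k, rfl⟩ := Finset.mem_filter.1 hd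
    obtain ⟨hd3, hd4⟩ := (mem_dy hQ0).1 hd1
    have hk : e * k / e = k := Nat.mul_div_cancel_left k (by omega)
    show e * k / e ∈ Icc 1 N
    rw [hk, Finset.mem_Icc]
    push_cast at hd3 hd4
    constructor
    · by_contra hk0
      have : k = 0 := by omega
      subst this
      simp at hd3
      linarith
    · refine Nat.le_floor ?_
      rw [le_div_iff₀ he0]
      linarith
  have hlog : Real.log N ≤ Real.log (2 * Q) := by
    refine Real.log_le_log (by exact_mod_cast hN1) (hNle.trans ?_)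
    refine div_le_self (by linarith) (by exact_mod_cast he)
  have hl0 : 0 ≤ Real.log (N : ℝ) := Real.log_nonneg (by exact_mod_cast hN1)
  calc (e : ℝ) / Q * ∑ d ∈ (dy Q).filter (fun d => e ∣ d), tau (d / e)
      ≤ (e : ℝ) / Q * (N * (1 + Real.log N)) :=
        mul_le_mul_of_nonneg_left (hs.trans (h2.1 N hN1)) (by positivity)
    _ ≤ (e : ℝ) / Q * ((2 * Q / e) * (1 + Real.log (2 * Q))) := by
        refine mul_le_mul_of_nonneg_left ?_ (by positivity)
        exact mul_le_mul hNle (by linarith) (by linarith) (by positivity)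
    _ = 2 * (1 + Real.log (2 * Q)) := by
        field_simp

private lemma Tta_part1 (h1 : LamStmt) (h2 : DsbStmt) (x Q : ℝ) (R : ℕ) (hQ : 1 ≤ Q)
    (hRQ : (R : ℝ) ≤ Q) :
    ∑ d ∈ dy Q, ∑ e ∈ d.divisors, |lam R d e| * maxErr x e ≤
      2 * (1 + Real.log (2 * Q)) * ∑ e ∈ Icc 1 R, maxErr x e := by
  have hQ0 : (0 : ℝ) ≤ Q := by linarith
  have e1 : ∀ d ∈ dy Q, ∑ e ∈ d.divisors, |lam R d e| * maxErr x e =
      ∑ e ∈ Icc 1 R, if e ∣ d then |lam R d e| * maxErr x e else 0 := by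
    intro d hd
    obtain ⟨hd3, hd4⟩ := (mem_dy hQ0).1 hd
    have hd0 : (0 : ℝ) < d := by linarith
    have hd0' : d ≠ 0 := by
      rintro rfl
      simp at hd0
    rw [← Finset.sum_filter]
    symm
    refine Finset.sum_subset ?_ ?_
    · intro e he
      exact Nat.mem_divisors.2 ⟨(Finset.mem_filter.1 he).2, hd0'⟩
    · intro e he hne
      have hRe : R < e := by
        by_contra hcon
        refine hne (Finset.mem_filter.2 ⟨Finset.mem_Icc.2
          ⟨Nat.pos_of_mem_divisors he, by omega⟩, Nat.dvd_of_mem_divisors he⟩)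
      rw [h1.2.1 R d e hRe]
      simp
  rw [Finset.sum_congr rfl e1, Finset.sum_comm, Finset.mul_sum]
  refine Finset.sum_le_sum fun e he => ?_
  obtain ⟨he1, he2⟩ := Finset.mem_Icc.1 he
  have heQ : (e : ℝ) ≤ Q := le_trans (by exact_mod_cast he2) hRQ
  rw [← Finset.sum_filter, ← Finset.sum_mul]
  exact mul_le_mul_of_nonneg_right (Tta_lam h1 h2 R e Q hQ he1 heQ)
    (Pool.Agent.Lib.EH.maxErr_nonneg x e)

private lemma Tta_part2 (Q : ℝ) (R : ℕ) (hQ : 1 ≤ Q) (hR : 1 ≤ R) (hRQ : (R : ℝ) ≤ Q) :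
    ∑ d ∈ dy Q, (1 / (d : ℝ)) * ∑ r ∈ d.divisors.filter (fun r => R < r), 1 / (r.totient : ℝ) ≤
      8 / Real.sqrt R := by
  have hQ0 : (0 : ℝ) ≤ Q := by linarith
  have hQp : (0 : ℝ) < Q := by linarith
  have e1 : ∀ d ∈ dy Q, (1 / (d : ℝ)) *
      ∑ r ∈ d.divisors.filter (fun r => R < r), 1 / (r.totient : ℝ) ≤
      ∑ r ∈ Ioc R ⌊2 * Q⌋₊, if r ∣ d then (1 / Q) * (1 / (r.totient : ℝ)) else 0 := by
    intro d hd
    obtain ⟨hd3, hd4⟩ := (mem_dy hQ0).1 hd
    have hd0 : (0 : ℝ) < d := by linarith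
    rw [← Finset.sum_filter, Finset.mul_sum]
    have hsub : d.divisors.filter (fun r => R < r) ⊆
        (Ioc R ⌊2 * Q⌋₊).filter (fun r => r ∣ d) := by
      intro r hr
      obtain ⟨hr1, hr2⟩ := Finset.mem_filter.1 hr
      refine Finset.mem_filter.2 ⟨Finset.mem_Ioc.2 ⟨hr2, ?_⟩, Nat.dvd_of_mem_divisors hr1⟩
      refine Nat.le_floor (le_trans ?_ hd4)
      exact_mod_cast Nat.divisor_le hr1
    refine (Finset.sum_le_sum fun r _ => ?_).trans
      (Finset.sum_le_sum_of_subset_of_nonneg hsub fun _ _ _ => by positivity)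
    refine mul_le_mul_of_nonneg_right ?_ (by positivity)
    exact one_div_le_one_div_of_le hQp hd3.le
  refine (Finset.sum_le_sum e1).trans ?_
  rw [Finset.sum_comm]
  have e2 : ∀ r ∈ Ioc R ⌊2 * Q⌋₊,
      ∑ d ∈ dy Q, (if r ∣ d then (1 / Q) * (1 / (r.totient : ℝ)) else 0) ≤
        4 / ((r : ℝ) * Real.sqrt r) := by
    intro r hr
    obtain ⟨hr1, hr2⟩ := Finset.mem_Ioc.1 hr
    have hr1' : 1 ≤ r := by omega
    have hr0 : (0 : ℝ) < r := by exact_mod_cast hr1'
    have hs : 0 < Real.sqrt r := Real.sqrt_pos.2 hr0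
    rw [← Finset.sum_filter, Finset.sum_const, nsmul_eq_mul]
    calc (((dy Q).filter (fun d => r ∣ d)).card : ℝ) * ((1 / Q) * (1 / (r.totient : ℝ)))
        ≤ (2 * Q / r) * ((1 / Q) * (2 / Real.sqrt r)) := by
          refine mul_le_mul (card_dy_dvd_le hQ0 hr1') ?_ (by positivity) (by positivity)
          exact mul_le_mul_of_nonneg_left (Tta_inv_tot r hr1') (by positivity)
      _ = 4 / ((r : ℝ) * Real.sqrt r) := by
          field_simp
          ring
  refine (Finset.sum_le_sum e2).trans ?_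
  have hRN : R ≤ ⌊2 * Q⌋₊ := Nat.le_floor (by linarith)
  refine (Tta_tail R hR _ hRN).trans ?_
  have : 0 ≤ 8 / Real.sqrt ((⌊2 * Q⌋₊ : ℕ) : ℝ) := by positivity
  linarith

theorem tTta (h1 : LamStmt) (h2 : DsbStmt) (h3 : ElpStmt) : TtaStmt := by
  intro x Q R a hQ hR hRQ
  have hQ0 : (0 : ℝ) ≤ Q := by linarith
  have hpt : ∀ d ∈ dya Q a, |ellp x R d a - li x / (d.totient : ℝ)| ≤
      (∑ e ∈ d.divisors, |lam R d e| * maxErr x e) +
      |li x| * ((1 / (d : ℝ)) * ∑ r ∈ d.divisors.filter (fun r => R < r),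
        1 / (r.totient : ℝ)) := by
    intro d hd
    obtain ⟨hd1, hd2⟩ := Finset.mem_filter.1 hd
    obtain ⟨hd3, hd4⟩ := (mem_dy hQ0).1 hd1
    have hd0 : (0 : ℝ) < d := by linarith
    exact h3 x R d a (by exact_mod_cast hd0) hd2
  refine (Finset.sum_le_sum hpt).trans ?_
  rw [Finset.sum_add_distrib, ← Finset.mul_sum]
  have hsub : dya Q a ⊆ dy Q := Finset.filter_subset _ _
  refine add_le_add ((Finset.sum_le_sum_of_subset_of_nonneg hsub ?_).trans
    (Tta_part1 h1 h2 x Q R hQ hRQ)) ?_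
  · intro d _ _
    exact Finset.sum_nonneg fun e _ =>
      mul_nonneg (abs_nonneg _) (Pool.Agent.Lib.EH.maxErr_nonneg x e)
  · have h := (Finset.sum_le_sum_of_subset_of_nonneg (f := fun d : ℕ => (1 / (d : ℝ)) *
      ∑ r ∈ d.divisors.filter (fun r => R < r), 1 / (r.totient : ℝ)) hsub
      (fun d _ _ => by positivity)).trans (Tta_part2 Q R hQ hR hRQ)
    calc |li x| * ∑ d ∈ dya Q a, (1 / (d : ℝ)) *
        ∑ r ∈ d.divisors.filter (fun r => R < r), 1 / (r.totient : ℝ)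
        ≤ |li x| * (8 / Real.sqrt R) := mul_le_mul_of_nonneg_left h (abs_nonneg _)
      _ = 8 * |li x| / Real.sqrt R := by ring

end Pool.Agent.Lib.KF
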