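import Pool.Agent.Lib.KF.SpecL

/-!
MP_00e23e_nt, directory Lib/KF, module Vap: the weight.
-/

namespace Pool.Agent.Lib.KF

open Finset Pool.Agent.Lib.EH3

private lemma Vap_card (X : ℕ) (n : ℤ) :
    ((Finset.Icc 1 X).filter (fun j : ℕ => (j : ℤ) - X ≤ n ∧ n ≤ 2 * X - j)).card =
      (min (X : ℤ) (min (n + X) (2 * X - n))).toNat := by
  have h : (Finset.Icc 1 X).filter (fun j : ℕ => (j : ℤ) - X ≤ n ∧ n ≤ 2 * X - j) =
      Finset.Icc 1 (min (X : ℤ) (min (n + X) (2 * X - n))).toNat := by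
    ext j
    simp only [Finset.mem_filter, Finset.mem_Icc]
    omega
  rw [h, Nat.card_Icc]
  omega

/-- **Module Vap.** -/
theorem tVap : VapStmt := by
  refine ⟨?_, ?_, ?_, ?_⟩
  · intro X n
    unfold vX
    refine ⟨by positivity, ?_⟩
    refine div_le_one_of_le₀ ?_ (by positivity)
    have h1 := Finset.card_filter_le (Finset.Icc 1 X)
      (fun j : ℕ => (j : ℤ) - X ≤ n ∧ n ≤ 2 * X - j)
    rw [Nat.card_Icc] at h1
    have h2 : ((Finset.Icc 1 X).filter (fun j : ℕ => (j : ℤ) - X ≤ n ∧ n ≤ 2 * X - j)).card ≤ X := by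
      omega
    exact_mod_cast h2
  · intro X n hX h0 hn
    unfold vX
    rw [Vap_card]
    have h1 : (min (X : ℤ) (min (n + X) (2 * X - n))).toNat = X := by omega
    rw [h1]
    have h2 : (X : ℝ) ≠ 0 := by positivity
    exact div_self h2
  · intro X n hn
    unfold vX
    rw [Vap_card]
    have h1 : (min (X : ℤ) (min (n + X) (2 * X - n))).toNat = 0 := by omega
    rw [h1]
    simp
  · intro X n hX
    unfold vX
    rw [Vap_card]
    have h2 : (X : ℝ) ≠ 0 := by positivity
    rw [mul_div_cancel₀ _ h2]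
    have h3 : (((min (X : ℤ) (min (n + X) (2 * X - n))).toNat : ℕ) : ℤ) =
        max (n + X) 0 - max n 0 - max (n - X) 0 + max (n - 2 * X) 0 := by omega
    rw [← h3]
    norm_cast

end Pool.Agent.Lib.KF
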