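import Pool.Agent.Lib.KF.SpecL

/-! MP_00e23e_nt, Lib/KF: module Vaq (the weight in progressions). -/

namespace Pool.Agent.Lib.KF

open Finset Pool.Agent.Lib.EH3

private lemma Vaq_count (q : ℕ) (hq : 1 ≤ q) (a b μ : ℤ) (h : a ≤ b + 1) :
    |(((Finset.Icc a b).filter (fun n => (q : ℤ) ∣ n - μ)).card : ℝ) -
      ((b - a + 1 : ℤ) : ℝ) / q| ≤ 1 := by
  have hq' : (0 : ℤ) < q := by exact_mod_cast hq
  have h1 := Int.Ioc_filter_modEq_card (a - 1) b hq' μ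
  have h2 : (Finset.Icc a b).filter (fun n => (q : ℤ) ∣ n - μ) =
      (Finset.Ioc (a - 1) b).filter (fun x => x ≡ μ [ZMOD q]) := by
    ext n
    rw [Finset.mem_filter, Finset.mem_filter, Finset.mem_Icc, Finset.mem_Ioc]
    have e : (q : ℤ) ∣ n - μ ↔ n ≡ μ [ZMOD q] :=
      ⟨fun h => (Int.modEq_iff_dvd.2 h).symm, fun h => Int.modEq_iff_dvd.1 h.symm⟩
    rw [e]
    constructor
    · rintro ⟨⟨h3, h4⟩, h5⟩
      exact ⟨⟨by omega, h4⟩, h5⟩
    · rintro ⟨⟨h3, h4⟩, h5⟩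
      exact ⟨⟨by omega, h4⟩, h5⟩
  have hqr : (0 : ℚ) < q := by exact_mod_cast hq
  set u : ℚ := ((b : ℚ) - μ) / ((q : ℤ) : ℚ) with hu
  set w : ℚ := (((a - 1 : ℤ) : ℚ) - μ) / ((q : ℤ) : ℚ) with hw
  have hwu : w ≤ u := by
    rw [hu, hw]
    refine div_le_div_of_nonneg_right ?_ (by push_cast; exact hqr.le)
    have : ((a - 1 : ℤ) : ℚ) ≤ (b : ℚ) := by
      exact_mod_cast (by omega : a - 1 ≤ b)
    linarith
  have hfl : ⌊w⌋ ≤ ⌊u⌋ := Int.floor_le_floor hwu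
  rw [max_eq_left (by omega)] at h1
  have hd : u - w = ((b - a + 1 : ℤ) : ℚ) / q := by
    rw [hu, hw]
    push_cast
    field_simp
    ring
  have h3 := Int.floor_le u
  have h4 := Int.lt_floor_add_one u
  have h5 := Int.floor_le w
  have h6 := Int.lt_floor_add_one w
  have h7 : |(((⌊u⌋ - ⌊w⌋ : ℤ) : ℚ)) - ((b - a + 1 : ℤ) : ℚ) / q| ≤ 1 := by
    rw [← hd, abs_le]
    push_cast
    constructor <;> linarith
  have h8 : (((((Finset.Icc a b).filter (fun n => (q : ℤ) ∣ n - μ)).card : ℤ)) : ℚ) =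
      ((⌊u⌋ - ⌊w⌋ : ℤ) : ℚ) := by
    rw [h2, h1]
  rw [← h8] at h7
  have h9 : |((((((Finset.Icc a b).filter (fun n => (q : ℤ) ∣ n - μ)).card : ℤ) : ℚ) -
      ((b - a + 1 : ℤ) : ℚ) / q : ℚ) : ℝ)| ≤ ((1 : ℚ) : ℝ) := by
    exact_mod_cast h7
  push_cast at h9 ⊢
  exact h9

theorem tVaq : VaqStmt := by
  intro X q μ hX hq
  have hX0 : (0 : ℝ) < X := by exact_mod_cast hX
  have hq0 : (0 : ℝ) < q := by exact_mod_cast hq
  have h1 : ∑ n ∈ zs X, (if (q : ℤ) ∣ n - μ then vX X n else 0) =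
      (1 / (X : ℝ)) * ∑ j ∈ Finset.Icc 1 X,
        (((Finset.Icc ((j : ℤ) - X) (2 * (X : ℤ) - j)).filter
          (fun n => (q : ℤ) ∣ n - μ)).card : ℝ) := by
    rw [Finset.mul_sum]
    have h2 : ∀ n : ℤ, (if (q : ℤ) ∣ n - μ then vX X n else 0) = ∑ j ∈ Finset.Icc 1 X,
        (if ((j : ℤ) - X ≤ n ∧ n ≤ 2 * X - j) ∧ (q : ℤ) ∣ n - μ then 1 / (X : ℝ) else 0) := by
      intro n
      by_cases h : (q : ℤ) ∣ n - μ
      · rw [if_pos h, vX, Finset.card_filter]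
        push_cast
        rw [Finset.sum_div]
        refine Finset.sum_congr rfl fun j _ => ?_
        by_cases h' : (j : ℤ) - X ≤ n ∧ n ≤ 2 * X - j
        · rw [if_pos h', if_pos ⟨h', h⟩]
        · rw [if_neg h', if_neg (fun h'' => h' h''.1), zero_div]
      · rw [if_neg h]
        refine (Finset.sum_eq_zero fun j _ => ?_).symm
        rw [if_neg (fun h'' => h h''.2)]
    rw [Finset.sum_congr rfl (fun n _ => h2 n), Finset.sum_comm]
    refine Finset.sum_congr rfl fun j hj => ?_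
    rw [Finset.mem_Icc] at hj
    rw [← Finset.sum_filter, Finset.sum_const, nsmul_eq_mul, mul_comm]
    congr 3
    ext n
    rw [Finset.mem_filter, Finset.mem_filter, zs, Finset.mem_Icc, Finset.mem_Icc]
    constructor
    · rintro ⟨h3, h4, h5⟩
      exact ⟨h4, h5⟩
    · rintro ⟨h4, h5⟩
      exact ⟨⟨by omega, by omega⟩, h4, h5⟩
  have h2 : 2 * (X : ℝ) / q = (1 / (X : ℝ)) * ∑ j ∈ Finset.Icc 1 X,
      ((((2 * (X : ℤ) - j) - ((j : ℤ) - X) + 1 : ℤ) : ℝ) / q) := by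
    rw [← Finset.sum_div]
    have h3 : ∀ n : ℕ, ∑ j ∈ Finset.Icc 1 n, ((((2 * (X : ℤ) - j) - ((j : ℤ) - X) + 1 : ℤ) : ℝ)) =
        n * (3 * X - n) := by
      intro n
      induction n with
      | zero => simp
      | succ n ih =>
        rw [Finset.sum_Icc_succ_top (by omega), ih]
        push_cast
        ring
    rw [h3]
    field_simp
    ring
  rw [h1, h2, ← mul_sub, ← Finset.sum_sub_distrib, abs_mul, abs_of_pos (by positivity)]
  have h3 : |∑ j ∈ Finset.Icc 1 X,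
      ((((Finset.Icc ((j : ℤ) - X) (2 * (X : ℤ) - j)).filter
          (fun n => (q : ℤ) ∣ n - μ)).card : ℝ) -
      (((2 * (X : ℤ) - j) - ((j : ℤ) - X) + 1 : ℤ) : ℝ) / q)| ≤ X := by
    refine (Finset.abs_sum_le_sum_abs _ _).trans ?_
    calc _ ≤ ∑ _j ∈ Finset.Icc 1 X, (1 : ℝ) := by
          refine Finset.sum_le_sum fun j hj => ?_
          rw [Finset.mem_Icc] at hj
          exact Vaq_count q hq _ _ μ (by omega)
      _ = X := by simp
  calc _ ≤ 1 / (X : ℝ) * X := mul_le_mul_of_nonneg_left h3 (by positivity)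
    _ = 1 := by field_simp

end Pool.Agent.Lib.KF
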