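import Pool.Agent.Lib.KF.SpecL

namespace Pool.Agent.Lib.KF

open Finset Pool.Agent.Lib.EH3

private lemma Vft_zero (h1 : VapStmt) {X d K : ℕ} {a : ℤ} (ha : |a| ≤ (X : ℤ))
    (hK : 3 * X ≤ (K + 1) * d) {k : ℤ} (hk : k < -(K : ℤ) ∨ (K : ℤ) < k) :
    vX X (a + d * k) = 0 := by
  have hK' : 3 * (X : ℤ) ≤ (K + 1) * d := by exact_mod_cast hK
  have hd : (0 : ℤ) ≤ d := by positivity
  refine h1.2.2.1 X _ ?_
  rw [abs_le] at ha
  rcases hk with hk | hk
  · left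
    have h2 : (d : ℤ) * k ≤ d * (-(K + 1)) := mul_le_mul_of_nonneg_left (by omega) hd
    nlinarith
  · right
    have h2 : (d : ℤ) * (K + 1) ≤ d * k := mul_le_mul_of_nonneg_left (by omega) hd
    nlinarith

private lemma Vft_three (h1 : VapStmt) {X d K : ℕ} {a : ℤ} (hd : 1 ≤ d) (ha : |a| ≤ (X : ℤ))
    (hK : 3 * X ≤ (K + 1) * d) (F : ℤ → ℂ) :
    (∑ n ∈ zs X, if (d : ℤ) ∣ n - a then (vX X n : ℂ) * F n else 0) =
      ∑ k ∈ Finset.Icc (-(K : ℤ)) (K : ℤ), (vX X (a + d * k) : ℂ) * F (a + d * k) := by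
  classical
  have hd0 : (d : ℤ) ≠ 0 := by positivity
  rw [← Finset.sum_filter]
  have hinj : ∀ x ∈ Finset.Icc (-(K : ℤ)) (K : ℤ), ∀ y ∈ Finset.Icc (-(K : ℤ)) (K : ℤ),
      a + (d : ℤ) * x = a + d * y → x = y := by
    intro x _ y _ hxy
    have : (d : ℤ) * x = d * y := by linarith
    exact mul_left_cancel₀ hd0 this
  rw [← Finset.sum_image (f := fun n => (vX X n : ℂ) * F n) (g := fun k => a + (d : ℤ) * k) hinj]
  obtain ⟨S, hS⟩ : ∃ S : Finset ℤ, S = (zs X).filter (fun n => (d : ℤ) ∣ n - a) := ⟨_, rfl⟩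
  obtain ⟨T, hT⟩ : ∃ T : Finset ℤ, T = (Finset.Icc (-(K : ℤ)) (K : ℤ)).image
      (fun k => a + (d : ℤ) * k) := ⟨_, rfl⟩
  rw [← hS, ← hT]
  have hST : ∀ n ∈ S, n ∉ T → (vX X n : ℂ) * F n = 0 := by
    intro n hn hnT
    rw [hS, Finset.mem_filter] at hn
    obtain ⟨-, k, hk⟩ := hn
    have hn' : n = a + d * k := by linarith
    have hk' : ¬ (-(K : ℤ) ≤ k ∧ k ≤ K) := by
      intro h5
      apply hnT
      rw [hT, Finset.mem_image]
      exact ⟨k, Finset.mem_Icc.2 h5, hn'.symm⟩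
    rw [hn', Vft_zero h1 ha hK (by omega)]
    simp
  have hTS : ∀ n ∈ T, n ∉ S → (vX X n : ℂ) * F n = 0 := by
    intro n hn hnS
    rw [hT, Finset.mem_image] at hn
    obtain ⟨k, -, hk⟩ := hn
    have hz : n ∉ zs X := by
      intro h5
      apply hnS
      rw [hS, Finset.mem_filter]
      refine ⟨h5, k, ?_⟩
      rw [← hk]
      ring
    have : vX X n = 0 := by
      refine h1.2.2.1 X n ?_
      unfold zs at hz
      rw [Finset.mem_Icc] at hz
      omega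
    rw [this]
    simp
  rw [← Finset.sum_subset (Finset.inter_subset_left (s₁ := S) (s₂ := T)) (fun n hn hn' =>
      hST n hn (fun h5 => hn' (Finset.mem_inter.2 ⟨hn, h5⟩))),
    ← Finset.sum_subset (Finset.inter_subset_right (s₁ := S) (s₂ := T)) (fun n hn hn' =>
      hTS n hn (fun h5 => hn' (Finset.mem_inter.2 ⟨h5, hn⟩)))]

private lemma Vft_shift (h1 : VapStmt) {X d K : ℕ} {a : ℤ} (ha : |a| ≤ (X : ℤ))
    (hK : 3 * X ≤ (K + 1) * d) (t : ℝ) (j : ℤ) (hj0 : 0 ≤ j) (hj2 : j ≤ 2) :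
    ∑ k ∈ Finset.Icc (-((K + 2 : ℕ) : ℤ)) ((K + 2 : ℕ) : ℤ),
      (vX X (a + d * (k - j)) : ℂ) * ee ((k : ℝ) * t) = ee ((j : ℝ) * t) * Kh X d a K t := by
  classical
  unfold Kh
  rw [Finset.mul_sum]
  have hinj : ∀ x ∈ Finset.Icc (-(K : ℤ)) (K : ℤ), ∀ y ∈ Finset.Icc (-(K : ℤ)) (K : ℤ),
      x + j = y + j → x = y := fun x _ y _ h => by linarith
  have h2 : ∑ k ∈ Finset.Icc (-(K : ℤ)) (K : ℤ), ee ((j : ℝ) * t) *
      ((vX X (a + d * k) : ℂ) * ee ((k : ℝ) * t)) =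
      ∑ k ∈ (Finset.Icc (-(K : ℤ)) (K : ℤ)).image (fun k => k + j),
        (vX X (a + d * (k - j)) : ℂ) * ee ((k : ℝ) * t) := by
    rw [Finset.sum_image hinj]
    refine Finset.sum_congr rfl fun k _ => ?_
    rw [show k + j - j = k by ring]
    push_cast
    rw [add_mul, ee_add]
    ring
  rw [h2]
  symm
  refine Finset.sum_subset ?_ ?_
  · intro k hk
    obtain ⟨k', hk', rfl⟩ := Finset.mem_image.1 hk
    rw [Finset.mem_Icc] at hk' ⊢
    push_cast
    omega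
  · intro k _ hk
    have h3 : ¬ (-(K : ℤ) ≤ k - j ∧ k - j ≤ K) := by
      intro h4
      apply hk
      exact Finset.mem_image.2 ⟨k - j, Finset.mem_Icc.2 h4, by ring⟩
    rw [Vft_zero h1 ha hK (by omega)]
    simp

private lemma Vft_tel (u : ℤ → ℤ) (M : ℕ) :
    ∑ k ∈ Finset.Icc (-(M : ℤ)) (M : ℤ), (u k - u (k - 1)) = u M - u (-(M : ℤ) - 1) := by
  induction M with
  | zero => simp
  | succ M ih =>
    have h1 : Finset.Icc (-((M + 1 : ℕ) : ℤ)) ((M + 1 : ℕ) : ℤ) =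
        insert (-((M : ℤ) + 1)) (insert ((M : ℤ) + 1) (Finset.Icc (-(M : ℤ)) (M : ℤ))) := by
      ext k
      simp only [Finset.mem_Icc, Finset.mem_insert]
      push_cast
      omega
    rw [h1, Finset.sum_insert, Finset.sum_insert, ih]
    · push_cast
      rw [show (M : ℤ) + 1 - 1 = M by ring, show -((M : ℤ) + 1) = -1 - (M : ℤ) by ring,
        show -(M : ℤ) - 1 = -1 - (M : ℤ) by ring]
      ring
    · simp
    · simp only [Finset.mem_insert, Finset.mem_Icc]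
      omega

private lemma Vft_conv (b d k : ℤ) (hd : 0 ≤ d) :
    0 ≤ max (b + d * (k - 2)) 0 - 2 * max (b + d * (k - 1)) 0 + max (b + d * k) 0 := by
  obtain ⟨y, hy⟩ : ∃ y, y = b + d * (k - 1) := ⟨_, rfl⟩
  rw [show b + d * (k - 2) = y - d by rw [hy]; ring, show b + d * k = y + d by rw [hy]; ring, ← hy]
  simp only [max_def]
  split_ifs <;> omega

private lemma Vft_sum (b d : ℤ) (hd : 0 ≤ d) (M : ℕ) :
    ∑ k ∈ Finset.Icc (-(M : ℤ)) (M : ℤ),
      (max (b + d * (k - 2)) 0 - 2 * max (b + d * (k - 1)) 0 + max (b + d * k) 0) ≤ d := by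
  have h1 := Vft_tel (fun k => max (b + d * k) 0 - max (b + d * (k - 1)) 0) M
  have h2 : ∑ k ∈ Finset.Icc (-(M : ℤ)) (M : ℤ),
      (max (b + d * (k - 2)) 0 - 2 * max (b + d * (k - 1)) 0 + max (b + d * k) 0) =
      ∑ k ∈ Finset.Icc (-(M : ℤ)) (M : ℤ), ((max (b + d * k) 0 - max (b + d * (k - 1)) 0) -
        (max (b + d * (k - 1)) 0 - max (b + d * (k - 1 - 1)) 0)) := by
    refine Finset.sum_congr rfl fun k _ => ?_
    rw [show k - 1 - 1 = k - 2 by ring]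
    ring
  rw [h2, h1]
  have h3 : ∀ y : ℤ, max (y + d) 0 - max y 0 ≤ d ∧ 0 ≤ max (y + d) 0 - max y 0 := by
    intro y
    simp only [max_def]
    split_ifs <;> constructor <;> omega
  have h4 := (h3 (b + d * ((M : ℤ) - 1))).1
  have h5 := (h3 (b + d * (-(M : ℤ) - 1 - 1))).2
  rw [show b + d * ((M : ℤ) - 1) + d = b + d * M by ring] at h4
  rw [show b + d * (-(M : ℤ) - 1 - 1) + d = b + d * (-(M : ℤ) - 1) by ring] at h5
  show (max (b + d * (M : ℤ)) 0 - max (b + d * ((M : ℤ) - 1)) 0) -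
    (max (b + d * (-(M : ℤ) - 1)) 0 - max (b + d * (-(M : ℤ) - 1 - 1)) 0) ≤ d
  linarith

private lemma Vft_one (h1 : VapStmt) {X d K : ℕ} {a : ℤ} (hX : 1 ≤ X) (ha : |a| ≤ (X : ℤ))
    (hK : 3 * X ≤ (K + 1) * d) (t : ℝ) (ht : |t| ≤ 1 / 2) :
    4 * (X : ℝ) * t ^ 2 * ‖Kh X d a K t‖ ≤ d := by
  have hX0 : (0 : ℝ) < X := by exact_mod_cast hX
  have hd : (0 : ℤ) ≤ d := by positivity
  obtain ⟨W, hW⟩ : ∃ W : Finset ℤ, W = Finset.Icc (-((K + 2 : ℕ) : ℤ)) ((K + 2 : ℕ) : ℤ) :=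
    ⟨_, rfl⟩
  have e0 := Vft_shift h1 (d := d) ha hK t 0 le_rfl (by norm_num)
  have e1 := Vft_shift h1 (d := d) ha hK t 1 (by norm_num) (by norm_num)
  have e2 := Vft_shift h1 (d := d) ha hK t 2 (by norm_num) (by norm_num)
  rw [← hW] at e0 e1 e2
  -- the second differences
  obtain ⟨D, hD⟩ : ∃ D : ℤ → ℝ, ∀ k, D k = vX X (a + d * (k - 2)) - 2 * vX X (a + d * (k - 1)) +
      vX X (a + d * (k - 0)) := ⟨_, fun _ => rfl⟩
  have hkey : (ee t - 1) ^ 2 * Kh X d a K t = ∑ k ∈ W, (D k : ℂ) * ee ((k : ℝ) * t) := by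
    have h3 : ∑ k ∈ W, (D k : ℂ) * ee ((k : ℝ) * t) =
        (∑ k ∈ W, (vX X (a + d * (k - 2)) : ℂ) * ee ((k : ℝ) * t)) -
        2 * (∑ k ∈ W, (vX X (a + d * (k - 1)) : ℂ) * ee ((k : ℝ) * t)) +
        ∑ k ∈ W, (vX X (a + d * (k - 0)) : ℂ) * ee ((k : ℝ) * t) := by
      rw [Finset.mul_sum, ← Finset.sum_sub_distrib, ← Finset.sum_add_distrib]
      refine Finset.sum_congr rfl fun k _ => ?_
      rw [hD]
      push_cast
      ring
    rw [h3, e0, e1, e2]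
    have h4 : ee (((2 : ℤ) : ℝ) * t) = ee t ^ 2 := by
      have := ee_nat_mul 2 t
      push_cast at this ⊢
      exact this
    have h5 : ee (((1 : ℤ) : ℝ) * t) = ee t := by
      push_cast
      rw [one_mul]
    have h6 : ee (((0 : ℤ) : ℝ) * t) = 1 := by
      push_cast
      rw [zero_mul, ee_zero]
    rw [h4, h5, h6]
    ring
  have hnorm : ‖ee t - 1‖ ^ 2 * ‖Kh X d a K t‖ ≤ ∑ k ∈ W, |D k| := by
    rw [← norm_pow, ← norm_mul, hkey]
    refine (norm_sum_le _ _).trans (Finset.sum_le_sum fun k _ => ?_)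
    rw [norm_mul, norm_ee, mul_one, Complex.norm_real, Real.norm_eq_abs]
  -- the sum of the second differences
  obtain ⟨E, hE⟩ : ∃ E : ℤ → ℤ → ℤ, ∀ b k, E b k = max (b + (d : ℤ) * (k - 2)) 0 -
      2 * max (b + (d : ℤ) * (k - 1)) 0 + max (b + (d : ℤ) * k) 0 := ⟨_, fun _ _ => rfl⟩
  have hE0 : ∀ b k, 0 ≤ E b k := by
    intro b k
    rw [hE]
    exact Vft_conv b d k hd
  have hEsum : ∀ b, ∑ k ∈ W, (E b k : ℝ) ≤ d := by
    intro b
    have h3 := Vft_sum b d hd (K + 2)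
    rw [← hW] at h3
    have h4 : ∑ k ∈ W, E b k ≤ (d : ℤ) := by
      refine le_trans (le_of_eq (Finset.sum_congr rfl fun k _ => ?_)) h3
      rw [hE]
    exact_mod_cast h4
  have hXD : ∀ k, (X : ℝ) * |D k| ≤ (E (a + X) k : ℝ) + E a k + E (a - X) k + E (a - 2 * X) k := by
    intro k
    have hv : ∀ n : ℤ, (X : ℝ) * vX X n =
        ((max (n + X) 0 - max n 0 - max (n - X) 0 + max (n - 2 * X) 0 : ℤ) : ℝ) :=
      fun n => h1.2.2.2 X n hX
    have h3 : (X : ℝ) * D k = (E (a + X) k : ℝ) - E a k - E (a - X) k + E (a - 2 * X) k := by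
      rw [hD, mul_add, mul_sub, show (X : ℝ) * (2 * vX X (a + d * (k - 1))) =
        2 * (X * vX X (a + d * (k - 1))) by ring, hv, hv, hv]
      simp only [hE]
      rw [show a + (d : ℤ) * (k - 2) + X = a + X + d * (k - 2) by ring,
        show a + (d : ℤ) * (k - 2) - X = a - X + d * (k - 2) by ring,
        show a + (d : ℤ) * (k - 2) - 2 * X = a - 2 * X + d * (k - 2) by ring,
        show a + (d : ℤ) * (k - 1) + X = a + X + d * (k - 1) by ring,
        show a + (d : ℤ) * (k - 1) - X = a - X + d * (k - 1) by ring,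
        show a + (d : ℤ) * (k - 1) - 2 * X = a - 2 * X + d * (k - 1) by ring,
        show a + (d : ℤ) * (k - 0) + X = a + X + d * k by ring,
        show a + (d : ℤ) * (k - 0) - X = a - X + d * k by ring,
        show a + (d : ℤ) * (k - 0) - 2 * X = a - 2 * X + d * k by ring,
        show a + (d : ℤ) * (k - 0) = a + d * k by ring]
      push_cast
      ring
    have p1 : (0 : ℝ) ≤ E (a + X) k := by exact_mod_cast hE0 _ _
    have p2 : (0 : ℝ) ≤ E a k := by exact_mod_cast hE0 _ _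
    have p3 : (0 : ℝ) ≤ E (a - X) k := by exact_mod_cast hE0 _ _
    have p4 : (0 : ℝ) ≤ E (a - 2 * X) k := by exact_mod_cast hE0 _ _
    calc (X : ℝ) * |D k| = |(X : ℝ) * D k| := by rw [abs_mul, abs_of_pos hX0]
      _ ≤ _ := by
        rw [h3, abs_le]
        constructor <;> linarith
  have hfin : (X : ℝ) * ∑ k ∈ W, |D k| ≤ 4 * d := by
    rw [Finset.mul_sum]
    refine (Finset.sum_le_sum fun k _ => hXD k).trans ?_
    rw [Finset.sum_add_distrib, Finset.sum_add_distrib, Finset.sum_add_distrib]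
    have := hEsum (a + X)
    have := hEsum a
    have := hEsum (a - X)
    have := hEsum (a - 2 * X)
    linarith
  have h16 : 16 * t ^ 2 ≤ ‖ee t - 1‖ ^ 2 := by
    have h3 := norm_ee_sub_one ht
    have h4 : (4 * |t|) ^ 2 ≤ ‖ee t - 1‖ ^ 2 := pow_le_pow_left₀ (by positivity) h3 2
    rw [mul_pow, sq_abs] at h4
    linarith
  have h17 : 16 * t ^ 2 * ‖Kh X d a K t‖ ≤ ∑ k ∈ W, |D k| :=
    (mul_le_mul_of_nonneg_right h16 (norm_nonneg _)).trans hnorm
  have h18 : (X : ℝ) * (16 * t ^ 2 * ‖Kh X d a K t‖) ≤ 4 * d :=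
    (mul_le_mul_of_nonneg_left h17 hX0.le).trans hfin
  linarith

theorem tVft (h1 : VapStmt) (h2 : VaqStmt) : VftStmt := by
  intro X d K a hX hd ha hK
  refine ⟨fun t ht => Vft_one h1 hX ha hK t ht, ?_, fun F => Vft_three h1 hd ha hK F⟩
  have h3 := Vft_three h1 hd ha hK (fun _ => 1)
  have h4 : Kh X d a K 0 = ((∑ n ∈ zs X, if (d : ℤ) ∣ n - a then vX X n else 0 : ℝ) : ℂ) := by
    unfold Kh
    have h5 : (∑ k ∈ Finset.Icc (-(K : ℤ)) (K : ℤ), (vX X (a + d * k) : ℂ) * ee ((k : ℝ) * 0)) =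
        ∑ k ∈ Finset.Icc (-(K : ℤ)) (K : ℤ), (vX X (a + d * k) : ℂ) * 1 := by
      refine Finset.sum_congr rfl fun k _ => ?_
      rw [mul_zero, ee_zero]
    rw [h5, ← h3, Complex.ofReal_sum]
    refine Finset.sum_congr rfl fun n _ => ?_
    split_ifs
    · rw [mul_one]
    · simp
  rw [h4, ← Complex.ofReal_sub, Complex.norm_real, Real.norm_eq_abs]
  exact h2 X d a hX hd

end Pool.Agent.Lib.KF
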