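import Pool.Agent.Lib.KF.SpecB

namespace Pool.Agent.Lib.KF

open Finset Pool.Agent.Lib.EH3

private lemma Wvb_ee (x y : ℝ) : ‖ee x - ee y‖ ≤ 2 * Real.pi * |x - y| := by
  have h1 : ee x - ee y = ee y * (ee (x - y) - 1) := by
    rw [mul_sub, ← ee_add, mul_one, add_sub_cancel]
  rw [h1, norm_mul, norm_ee, one_mul]
  have h2 : ‖ee (x - y) - 1‖ ≤ ‖2 * Real.pi * (x - y)‖ :=
    Real.norm_exp_I_mul_ofReal_sub_one_le
  rw [Real.norm_eq_abs, abs_mul, abs_of_nonneg (by positivity)] at h2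
  exact h2

open Classical in
private lemma Wvb_mono1 (J : ℕ → Prop) (g : ℕ → ℝ) (c d : ℝ)
    (hJ : ∀ a b e : ℕ, a ≤ b → b ≤ e → J a → J e → J b) (hcd : c ≤ d)
    (hc : ∀ t, J t → c ≤ g t ∧ g t ≤ d) (hm : ∀ t, J t → J (t + 1) → g t ≤ g (t + 1)) (N : ℕ) :
    (J N → ∑ t ∈ range N, (if J t ∧ J (t + 1) then |g (t + 1) - g t| else 0) ≤ g N - c) ∧
    (¬ J N → ∑ t ∈ range N, (if J t ∧ J (t + 1) then |g (t + 1) - g t| else 0) ≤ d - c) := by
  induction N with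
  | zero =>
    rw [Finset.sum_range_zero]
    exact ⟨fun h => by linarith [(hc 0 h).1], fun _ => by linarith⟩
  | succ N ih =>
    rw [Finset.sum_range_succ]
    by_cases hN : J N
    · have ih1 := ih.1 hN
      constructor
      · intro h1
        rw [if_pos ⟨hN, h1⟩, abs_of_nonneg (by linarith [hm N hN h1])]
        linarith
      · intro h1
        rw [if_neg (fun h => h1 h.2)]
        linarith [(hc N hN).2]
    · have ih1 := ih.2 hN
      rw [if_neg (fun h => hN h.1), add_zero]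
      constructor
      · intro h1
        have h2 : ∑ t ∈ range N, (if J t ∧ J (t + 1) then |g (t + 1) - g t| else 0) = 0 := by
          refine Finset.sum_eq_zero fun t ht => ?_
          have ht' := Finset.mem_range.mp ht
          rw [if_neg]
          intro h
          exact hN (hJ t N (N + 1) (by omega) (by omega) h.1 h1)
        rw [h2]
        linarith [(hc (N + 1) h1).1]
      · intro _
        exact ih1

open Classical in
private lemma Wvb_mono (J : ℕ → Prop) (g : ℕ → ℝ) (c d : ℝ)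
    (hJ : ∀ a b e : ℕ, a ≤ b → b ≤ e → J a → J e → J b) (hcd : c ≤ d)
    (hc : ∀ t, J t → c ≤ g t ∧ g t ≤ d)
    (hm : (∀ t, J t → J (t + 1) → g t ≤ g (t + 1)) ∨ (∀ t, J t → J (t + 1) → g (t + 1) ≤ g t))
    (N : ℕ) :
    ∑ t ∈ range N, (if J t ∧ J (t + 1) then |g (t + 1) - g t| else 0) ≤ d - c := by
  rcases hm with hm | hm
  · have h := Wvb_mono1 J g c d hJ hcd hc hm N
    by_cases hN : J N
    · linarith [h.1 hN, (hc N hN).2]
    · exact h.2 hN
  · have h := Wvb_mono1 J (fun t => -g t) (-d) (-c) hJ (by linarith)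
      (fun t ht => ⟨by linarith [(hc t ht).2], by linarith [(hc t ht).1]⟩)
      (fun t h1 h2 => by linarith [hm t h1 h2]) N
    have e : ∀ t, |(-g (t + 1)) - (-g t)| = |g (t + 1) - g t| := by
      intro t
      rw [← abs_neg]
      ring_nf
    simp only [e] at h
    by_cases hN : J N
    · linarith [h.1 hN, (hc N hN).1]
    · linarith [h.2 hN]

open Classical in
private lemma Wvb_int (J : ℕ → Prop) (W : ℕ → ℂ) (F : ℕ → ℝ) (M : ℝ)
    (hJ : ∀ a b e : ℕ, a ≤ b → b ≤ e → J a → J e → J b)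
    (hW : ∀ t, ¬ J t → W t = 0) (hM0 : 0 ≤ M) (hM : ∀ t, ‖W t‖ ≤ M)
    (hF0 : ∀ t, 0 ≤ F t)
    (hF : ∀ t, J t → J (t + 1) → ‖W (t + 1) - W t‖ ≤ F t) (h0 : ¬ J 0) (N : ℕ) :
    (J N → ∑ t ∈ range N, ‖W (t + 1) - W t‖ ≤
      M + ∑ t ∈ range N, (if J t ∧ J (t + 1) then F t else 0)) ∧
    (¬ J N → ∑ t ∈ range N, ‖W (t + 1) - W t‖ ≤
      2 * M + ∑ t ∈ range N, (if J t ∧ J (t + 1) then F t else 0)) := by
  induction N with
  | zero =>
    rw [Finset.sum_range_zero, Finset.sum_range_zero]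
    exact ⟨fun h => absurd h h0, fun _ => by linarith⟩
  | succ N ih =>
    rw [Finset.sum_range_succ, Finset.sum_range_succ]
    by_cases hN : J N
    · have ih1 := ih.1 hN
      constructor
      · intro h1
        rw [if_pos ⟨hN, h1⟩]
        linarith [hF N hN h1]
      · intro h1
        rw [if_neg (fun h => h1 h.2), hW _ h1, zero_sub, norm_neg]
        linarith [hM N]
    · have ih1 := ih.2 hN
      rw [if_neg (fun h => hN h.1), hW N hN, sub_zero]
      constructor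
      · intro h1
        have h2 : ∑ t ∈ range N, ‖W (t + 1) - W t‖ = 0 := by
          refine Finset.sum_eq_zero fun t ht => ?_
          have ht' := Finset.mem_range.mp ht
          have h3 : ¬ J t := fun h => hN (hJ t N (N + 1) (by omega) (by omega) h h1)
          have h4 : ¬ J (t + 1) := fun h => hN (hJ (t + 1) N (N + 1) (by omega) (by omega) h h1)
          rw [hW _ h3, hW _ h4, sub_zero, norm_zero]
        rw [h2]
        have h5 : 0 ≤ ∑ t ∈ range N, (if J t ∧ J (t + 1) then F t else 0) := by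
          refine Finset.sum_nonneg fun t _ => ?_
          split_ifs
          · exact hF0 t
          · exact le_refl 0
        linarith [hM (N + 1)]
      · intro h1
        rw [hW _ h1, norm_zero]
        linarith

private lemma Wvb_conv (Q A B : ℝ) (a b e : ℕ) (hab : a ≤ b) (hbe : b ≤ e)
    (h1 : Q < A + B * a) (h2 : A + B * a ≤ 2 * Q) (h3 : Q < A + B * e) (h4 : A + B * e ≤ 2 * Q) :
    Q < A + B * b ∧ A + B * b ≤ 2 * Q := by
  have hab' : (a : ℝ) ≤ b := by exact_mod_cast hab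
  have hbe' : (b : ℝ) ≤ e := by exact_mod_cast hbe
  rcases le_total 0 B with hB | hB
  · have h5 := mul_le_mul_of_nonneg_left hab' hB
    have h6 := mul_le_mul_of_nonneg_left hbe' hB
    exact ⟨by linarith, by linarith⟩
  · have h5 := mul_le_mul_of_nonpos_left hab' hB
    have h6 := mul_le_mul_of_nonpos_left hbe' hB
    exact ⟨by linarith, by linarith⟩

open Classical in
private lemma Wvb_n (J : ℕ → Prop) (Q A B : ℝ) (hQ : 1 ≤ Q)
    (hJ : ∀ a b e : ℕ, a ≤ b → b ≤ e → J a → J e → J b)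
    (hJn : ∀ t : ℕ, J t → Q < A + B * t ∧ A + B * t ≤ 2 * Q) (N : ℕ) :
    (∑ t ∈ range N, (if J t ∧ J (t + 1) then |(A + B * ((t + 1 : ℕ) : ℝ)) - (A + B * (t : ℝ))| else 0) ≤ Q) ∧
    (∑ t ∈ range N, (if J t ∧ J (t + 1) then
      |(A + B * ((t + 1 : ℕ) : ℝ))⁻¹ - (A + B * (t : ℝ))⁻¹| else 0) ≤ 1 / (2 * Q)) := by
  have hm1 : (∀ t : ℕ, A + B * (t : ℝ) ≤ A + B * ((t + 1 : ℕ) : ℝ)) ∨
      (∀ t : ℕ, A + B * ((t + 1 : ℕ) : ℝ) ≤ A + B * (t : ℝ)) := by
    rcases le_total 0 B with hB | hB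
    · left
      intro t
      push_cast
      linarith
    · right
      intro t
      push_cast
      linarith
  constructor
  · have h := Wvb_mono J (fun t => A + B * (t : ℝ)) Q (2 * Q) hJ (by linarith)
      (fun t ht => ⟨(hJn t ht).1.le, (hJn t ht).2⟩)
      (by
        rcases hm1 with h1 | h1
        · exact Or.inl fun t _ _ => h1 t
        · exact Or.inr fun t _ _ => h1 t) N
    have e : 2 * Q - Q = Q := by ring
    rw [e] at h
    exact h
  · have h := Wvb_mono J (fun t => (A + B * (t : ℝ))⁻¹) (2 * Q)⁻¹ Q⁻¹ hJ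
      (inv_anti₀ (by linarith) (by linarith))
      (fun t ht => ⟨inv_anti₀ (by linarith [(hJn t ht).1]) (hJn t ht).2,
        inv_anti₀ (by linarith) (hJn t ht).1.le⟩)
      (by
        rcases hm1 with h1 | h1
        · exact Or.inr fun t ht _ => inv_anti₀ (by linarith [(hJn t ht).1]) (h1 t)
        · exact Or.inl fun t _ ht => inv_anti₀ (by linarith [(hJn (t + 1) ht).1]) (h1 t)) N
    have e : Q⁻¹ - (2 * Q)⁻¹ = 1 / (2 * Q) := by
      field_simp
      ring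
    rw [e] at h
    exact h

private lemma Wvb_prod (Q a a' b b' : ℝ) (ha' : |a'| ≤ 2 * Q) (hb : |b| ≤ 2 * Q) :
    |a * a' - b * b'| ≤ 2 * Q * |a - b| + 2 * Q * |a' - b'| := by
  have h1 : a * a' - b * b' = (a - b) * a' + b * (a' - b') := by ring
  rw [h1]
  refine (abs_add_le _ _).trans ?_
  rw [abs_mul, abs_mul]
  have h2 : |a - b| * |a'| ≤ |a - b| * (2 * Q) := mul_le_mul_of_nonneg_left ha' (abs_nonneg _)
  have h3 : |b| * |a' - b'| ≤ 2 * Q * |a' - b'| := mul_le_mul_of_nonneg_right hb (abs_nonneg _)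
  linarith

private lemma Wvb_term (Q a a' b b' κ κ' : ℝ) (hQ : 1 ≤ Q)
    (ha' : Q < a' ∧ a' ≤ 2 * Q) (hb : Q < b ∧ b ≤ 2 * Q) (hb' : Q < b' ∧ b' ≤ 2 * Q) :
    ‖(((a * a' : ℝ)) : ℂ) * ee (κ / a - κ' / a') - ((b * b' : ℝ) : ℂ) * ee (κ / b - κ' / b')‖ ≤
      2 * Q * |a - b| + 2 * Q * |a' - b'| +
        8 * Real.pi * Q ^ 2 * (|κ| * |a⁻¹ - b⁻¹| + |κ'| * |a'⁻¹ - b'⁻¹|) := by
  have hpi := Real.pi_pos
  have e1 : (((a * a' : ℝ)) : ℂ) * ee (κ / a - κ' / a') - ((b * b' : ℝ) : ℂ) * ee (κ / b - κ' / b') =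
      ((a * a' - b * b' : ℝ) : ℂ) * ee (κ / a - κ' / a') +
      ((b * b' : ℝ) : ℂ) * (ee (κ / a - κ' / a') - ee (κ / b - κ' / b')) := by
    push_cast
    ring
  rw [e1]
  refine (norm_add_le _ _).trans ?_
  rw [norm_mul, norm_mul, norm_ee, mul_one, Complex.norm_real, Complex.norm_real,
    Real.norm_eq_abs, Real.norm_eq_abs]
  have h1 := Wvb_prod Q a a' b b' (by rw [abs_of_pos (by linarith)]; exact ha'.2)
    (by rw [abs_of_pos (by linarith)]; exact hb.2)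
  have h2 : |b * b'| ≤ 4 * Q ^ 2 := by
    rw [abs_of_pos (mul_pos (by linarith) (by linarith))]
    nlinarith [hb.2, hb'.2, hb.1, hb'.1]
  have h3 := Wvb_ee (κ / a - κ' / a') (κ / b - κ' / b')
  have h4 : |(κ / a - κ' / a') - (κ / b - κ' / b')| ≤ |κ| * |a⁻¹ - b⁻¹| + |κ'| * |a'⁻¹ - b'⁻¹| := by
    have e2 : (κ / a - κ' / a') - (κ / b - κ' / b') = κ * (a⁻¹ - b⁻¹) - κ' * (a'⁻¹ - b'⁻¹) := by
      rw [div_eq_mul_inv, div_eq_mul_inv, div_eq_mul_inv, div_eq_mul_inv]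
      ring
    rw [e2, ← abs_mul, ← abs_mul]
    exact abs_sub _ _
  have h5 : ‖ee (κ / a - κ' / a') - ee (κ / b - κ' / b')‖ ≤
      2 * Real.pi * (|κ| * |a⁻¹ - b⁻¹| + |κ'| * |a'⁻¹ - b'⁻¹|) :=
    h3.trans (mul_le_mul_of_nonneg_left h4 (by positivity))
  have h6 : |b * b'| * ‖ee (κ / a - κ' / a') - ee (κ / b - κ' / b')‖ ≤
      4 * Q ^ 2 * (2 * Real.pi * (|κ| * |a⁻¹ - b⁻¹| + |κ'| * |a'⁻¹ - b'⁻¹|)) :=
    mul_le_mul h2 h5 (norm_nonneg _) (by positivity)
  linarith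

open Classical in
theorem tWvb : WvbStmt := by
  intro Q A B A' B' κ κ' hQ N
  have hpi := Real.pi_pos
  set W := Wv Q A B A' B' κ κ' with hWdef
  obtain ⟨J, hJiff⟩ : ∃ J : ℕ → Prop, ∀ t : ℕ, J t ↔ (Q < (t : ℝ) ∧ (t : ℝ) ≤ 2 * Q ∧
      Q < A + B * t ∧ A + B * t ≤ 2 * Q ∧ Q < A' + B' * t ∧ A' + B' * t ≤ 2 * Q) :=
    ⟨_, fun _ => Iff.rfl⟩
  have hWpos : ∀ t, J t → W t =
      (((A + B * t) * (A' + B' * t) : ℝ) : ℂ) * ee (κ / (A + B * t) - κ' / (A' + B' * t)) := by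
    intro t ht
    rw [hWdef]
    unfold Wv
    exact if_pos ((hJiff t).mp ht)
  have hWneg : ∀ t, ¬ J t → W t = 0 := by
    intro t ht
    rw [hWdef]
    unfold Wv
    exact if_neg (fun h => ht ((hJiff t).mpr h))
  have hJ : ∀ a b e : ℕ, a ≤ b → b ≤ e → J a → J e → J b := by
    intro a b e hab hbe ha he
    have hab' : (a : ℝ) ≤ b := by exact_mod_cast hab
    have hbe' : (b : ℝ) ≤ e := by exact_mod_cast hbe
    obtain ⟨h1, h2, h3, h4, h5, h6⟩ := (hJiff a).mp ha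
    obtain ⟨g1, g2, g3, g4, g5, g6⟩ := (hJiff e).mp he
    have c1 := Wvb_conv Q A B a b e hab hbe h3 h4 g3 g4
    have c2 := Wvb_conv Q A' B' a b e hab hbe h5 h6 g5 g6
    exact (hJiff b).mpr ⟨by linarith, by linarith, c1.1, c1.2, c2.1, c2.2⟩
  have h0 : ¬ J 0 := by
    intro h'
    have h := ((hJiff 0).mp h').1
    rw [Nat.cast_zero] at h
    linarith
  have hJn : ∀ t : ℕ, J t → Q < A + B * t ∧ A + B * t ≤ 2 * Q :=
    fun t h => ⟨((hJiff t).mp h).2.2.1, ((hJiff t).mp h).2.2.2.1⟩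
  have hJn' : ∀ t : ℕ, J t → Q < A' + B' * t ∧ A' + B' * t ≤ 2 * Q :=
    fun t h => ⟨((hJiff t).mp h).2.2.2.2.1, ((hJiff t).mp h).2.2.2.2.2⟩
  have hM : ∀ t, ‖W t‖ ≤ 4 * Q ^ 2 := by
    intro t
    by_cases ht : J t
    · rw [hWpos t ht, norm_mul, norm_ee, mul_one, Complex.norm_real, Real.norm_eq_abs]
      have c1 := hJn t ht
      have c2 := hJn' t ht
      rw [abs_of_pos (mul_pos (by linarith) (by linarith))]
      nlinarith [c1.1, c1.2, c2.1, c2.2]
    · rw [hWneg t ht, norm_zero]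
      positivity
  set F : ℕ → ℝ := fun t => 2 * Q * |(A + B * ((t + 1 : ℕ) : ℝ)) - (A + B * (t : ℝ))| +
    2 * Q * |(A' + B' * ((t + 1 : ℕ) : ℝ)) - (A' + B' * (t : ℝ))| +
    8 * Real.pi * Q ^ 2 * (|κ| * |(A + B * ((t + 1 : ℕ) : ℝ))⁻¹ - (A + B * (t : ℝ))⁻¹| +
      |κ'| * |(A' + B' * ((t + 1 : ℕ) : ℝ))⁻¹ - (A' + B' * (t : ℝ))⁻¹|) with hFdef
  have hF0 : ∀ t, 0 ≤ F t := by
    intro t
    rw [hFdef]
    have hQ0 : 0 ≤ Q := by linarith
    positivity
  have hF : ∀ t, J t → J (t + 1) → ‖W (t + 1) - W t‖ ≤ F t := by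
    intro t h1 h2
    rw [hWpos t h1, hWpos (t + 1) h2]
    exact Wvb_term Q _ _ _ _ κ κ' hQ (hJn' _ h2) (hJn _ h1) (hJn' _ h1)
  have hmain : ∑ t ∈ range N, ‖W (t + 1) - W t‖ ≤
      2 * (4 * Q ^ 2) + ∑ t ∈ range N, (if J t ∧ J (t + 1) then F t else 0) := by
    have h := Wvb_int J W F (4 * Q ^ 2) hJ hWneg (by positivity) hM hF0 hF h0 N
    by_cases hN : J N
    · have := h.1 hN
      have h9 : 0 ≤ 4 * Q ^ 2 := by positivity
      linarith
    · exact h.2 hN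
  have hsum : ∑ t ∈ range N, (if J t ∧ J (t + 1) then F t else 0) ≤
      2 * Q * Q + 2 * Q * Q + 8 * Real.pi * Q ^ 2 * (|κ| * (1 / (2 * Q)) + |κ'| * (1 / (2 * Q))) := by
    have e : ∀ t, (if J t ∧ J (t + 1) then F t else 0) =
        2 * Q * (if J t ∧ J (t + 1) then |(A + B * ((t + 1 : ℕ) : ℝ)) - (A + B * (t : ℝ))| else 0) +
        2 * Q * (if J t ∧ J (t + 1) then
          |(A' + B' * ((t + 1 : ℕ) : ℝ)) - (A' + B' * (t : ℝ))| else 0) +
        8 * Real.pi * Q ^ 2 * (|κ| * (if J t ∧ J (t + 1) then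
            |(A + B * ((t + 1 : ℕ) : ℝ))⁻¹ - (A + B * (t : ℝ))⁻¹| else 0) +
          |κ'| * (if J t ∧ J (t + 1) then
            |(A' + B' * ((t + 1 : ℕ) : ℝ))⁻¹ - (A' + B' * (t : ℝ))⁻¹| else 0)) := by
      intro t
      by_cases h : J t ∧ J (t + 1)
      · simp only [if_pos h]
        rw [hFdef]
      · simp only [if_neg h]
        ring
    rw [Finset.sum_congr rfl fun t _ => e t, Finset.sum_add_distrib, Finset.sum_add_distrib,
      ← Finset.mul_sum, ← Finset.mul_sum, ← Finset.mul_sum, Finset.sum_add_distrib,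
      ← Finset.mul_sum, ← Finset.mul_sum]
    have n1 := Wvb_n J Q A B hQ hJ hJn N
    have n2 := Wvb_n J Q A' B' hQ hJ hJn' N
    have hQ2 : 0 ≤ 2 * Q := by linarith
    refine add_le_add (add_le_add (mul_le_mul_of_nonneg_left n1.1 hQ2)
      (mul_le_mul_of_nonneg_left n2.1 hQ2)) ?_
    refine mul_le_mul_of_nonneg_left ?_ (by positivity)
    exact add_le_add (mul_le_mul_of_nonneg_left n1.2 (abs_nonneg _))
      (mul_le_mul_of_nonneg_left n2.2 (abs_nonneg _))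
  have hW0 : W 0 = 0 := hWneg 0 h0
  rw [hW0, norm_zero, zero_add]
  have e3 : 8 * Real.pi * Q ^ 2 * (|κ| * (1 / (2 * Q)) + |κ'| * (1 / (2 * Q))) =
      4 * Real.pi * (Q * (|κ| + |κ'|)) := by
    have : Q ≠ 0 := by linarith
    field_simp
    ring
  have e4 : 13 * Q ^ 2 * (1 + (|κ| + |κ'|) / Q) = 13 * Q ^ 2 + 13 * (Q * (|κ| + |κ'|)) := by
    have : Q ≠ 0 := by linarith
    field_simp
  have h7 : 0 ≤ Q * (|κ| + |κ'|) := mul_nonneg (by linarith) (by positivity)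
  have h8 : 4 * Real.pi ≤ 13 := by linarith [Real.pi_lt_d2]
  have h9 := mul_le_mul_of_nonneg_right h8 h7
  have h10 : 0 ≤ Q ^ 2 := by positivity
  rw [e3] at hsum
  rw [e4]
  nlinarith

end Pool.Agent.Lib.KF
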